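import Pool.Agent.Strip051.Box.B3
import Pool.Agent.Strip051.Four.Defs

/-! # Generated boxes: Crb4  -/

set_option maxRecDepth 100000
set_option linter.unusedVariables false

namespace Pool.Agent.Strip051.FourE.Crb4

open Pool.Agent.Strip051.Box Pool.Agent.Strip051.Box3
open Pool.Agent.StripNear (h0)
open Pool.Agent.StripSquare (g)
open Pool.Agent.Strip051 (ext)

abbrev S : Nat := 1073741824

theorem hS : 0 < S := by decide

def In (b : Bx) (E : Pt) (x1 x2 x3 : ℝ) : Prop :=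
  (S : ℝ) * x1 = ((b.p1 : ℝ) - b.n1) + b.q1 * E.e1 ∧ (S : ℝ) * x2 = ((b.p2 : ℝ) - b.n2) + b.q2 * E.e2 ∧ (S : ℝ) * x3 = ((b.p3 : ℝ) - b.n3) + b.q3 * E.e3

section

variable {b : Bx} {E : Pt} {x1 x2 x3 : ℝ}

def t0 (b : Bx) : TM := X1 b
noncomputable def v0 (x1 _x2 _x3 : ℝ) : ℝ := x1
theorem en0 (h : In b E x1 x2 x3) : Enc S E (t0 b) (v0 x1 x2 x3) := enc_X1 h.1

def t1 (b : Bx) : TM := X2 b
noncomputable def v1 (_x1 x2 _x3 : ℝ) : ℝ := x2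
theorem en1 (h : In b E x1 x2 x3) : Enc S E (t1 b) (v1 x1 x2 x3) := enc_X2 h.2.1

def t2 (b : Bx) : TM := X3 b
noncomputable def v2 (_x1 _x2 x3 : ℝ) : ℝ := x3
theorem en2 (h : In b E x1 x2 x3) : Enc S E (t2 b) (v2 x1 x2 x3) := enc_X3 h.2.2

def t3 (_b : Bx) : TM := tconst 1859775393 0 1
noncomputable def v3 (_x1 _x2 _x3 : ℝ) : ℝ := Real.sqrt ((3 : ℕ) : ℝ)
theorem en3 (_h : In b E x1 x2 x3) : Enc S E (t3 b) (v3 x1 x2 x3) := enc_sqrtn E (by decide) (by decide)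

def t4 (b : Bx) : TM := tscale 1 2 (t3 b)
noncomputable def v4 (x1 x2 x3 : ℝ) : ℝ := ((1 : ℕ) : ℝ) / ((2 : ℕ) : ℝ) * v3 x1 x2 x3
theorem en4 (h : In b E x1 x2 x3) : Enc S E (t4 b) (v4 x1 x2 x3) := enc_scale 1 (by norm_num) (en3 h)

def t5 (b : Bx) : TM := tsq S (t0 b)
noncomputable def v5 (x1 x2 x3 : ℝ) : ℝ := (v0 x1 x2 x3) ^ 2
theorem en5 (h : In b E x1 x2 x3) : Enc S E (t5 b) (v5 x1 x2 x3) := enc_sq hS (en0 h)

def t6 (_b : Bx) : TM := tconst (Nat.mul 1 S) 0 0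
noncomputable def v6 (_x1 _x2 _x3 : ℝ) : ℝ := ((1 : ℕ) : ℝ)
theorem en6 (_h : In b E x1 x2 x3) : Enc S E (t6 b) (v6 x1 x2 x3) := enc_nc E 1

def t7 (b : Bx) : TM := tsub (t6 b) (t5 b)
noncomputable def v7 (x1 x2 x3 : ℝ) : ℝ := v6 x1 x2 x3 - v5 x1 x2 x3
theorem en7 (h : In b E x1 x2 x3) : Enc S E (t7 b) (v7 x1 x2 x3) := enc_sub (en6 h) (en5 h)

def t8 (b : Bx) : TM := tsqrt S (t7 b)
noncomputable def v8 (x1 x2 x3 : ℝ) : ℝ := Real.sqrt (v7 x1 x2 x3)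
theorem en8 (h : In b E x1 x2 x3) : Enc S E (t8 b) (v8 x1 x2 x3) := enc_sqrt hS (en7 h)

def t9 (b : Bx) : TM := tscale 17 50 (t0 b)
noncomputable def v9 (x1 x2 x3 : ℝ) : ℝ := ((17 : ℕ) : ℝ) / ((50 : ℕ) : ℝ) * v0 x1 x2 x3
theorem en9 (h : In b E x1 x2 x3) : Enc S E (t9 b) (v9 x1 x2 x3) := enc_scale 17 (by norm_num) (en0 h)

def t10 (b : Bx) : TM := tsq S (t9 b)
noncomputable def v10 (x1 x2 x3 : ℝ) : ℝ := (v9 x1 x2 x3) ^ 2
theorem en10 (h : In b E x1 x2 x3) : Enc S E (t10 b) (v10 x1 x2 x3) := enc_sq hS (en9 h)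

def t11 (b : Bx) : TM := tsub (t6 b) (t10 b)
noncomputable def v11 (x1 x2 x3 : ℝ) : ℝ := v6 x1 x2 x3 - v10 x1 x2 x3
theorem en11 (h : In b E x1 x2 x3) : Enc S E (t11 b) (v11 x1 x2 x3) := enc_sub (en6 h) (en10 h)

def t12 (b : Bx) : TM := tsqrt S (t11 b)
noncomputable def v12 (x1 x2 x3 : ℝ) : ℝ := Real.sqrt (v11 x1 x2 x3)
theorem en12 (h : In b E x1 x2 x3) : Enc S E (t12 b) (v12 x1 x2 x3) := enc_sqrt hS (en11 h)

def t13 (b : Bx) : TM := tsq S (t2 b)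
noncomputable def v13 (x1 x2 x3 : ℝ) : ℝ := (v2 x1 x2 x3) ^ 2
theorem en13 (h : In b E x1 x2 x3) : Enc S E (t13 b) (v13 x1 x2 x3) := enc_sq hS (en2 h)

def t14 (b : Bx) : TM := tsub (t6 b) (t13 b)
noncomputable def v14 (x1 x2 x3 : ℝ) : ℝ := v6 x1 x2 x3 - v13 x1 x2 x3
theorem en14 (h : In b E x1 x2 x3) : Enc S E (t14 b) (v14 x1 x2 x3) := enc_sub (en6 h) (en13 h)

def t15 (b : Bx) : TM := tsqrt S (t14 b)
noncomputable def v15 (x1 x2 x3 : ℝ) : ℝ := Real.sqrt (v14 x1 x2 x3)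
theorem en15 (h : In b E x1 x2 x3) : Enc S E (t15 b) (v15 x1 x2 x3) := enc_sqrt hS (en14 h)

def t16 (b : Bx) : TM := tscale 1 2 (t2 b)
noncomputable def v16 (x1 x2 x3 : ℝ) : ℝ := ((1 : ℕ) : ℝ) / ((2 : ℕ) : ℝ) * v2 x1 x2 x3
theorem en16 (h : In b E x1 x2 x3) : Enc S E (t16 b) (v16 x1 x2 x3) := enc_scale 1 (by norm_num) (en2 h)

def t17 (b : Bx) : TM := tmul S (t4 b) (t15 b)
noncomputable def v17 (x1 x2 x3 : ℝ) : ℝ := v4 x1 x2 x3 * v15 x1 x2 x3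
theorem en17 (h : In b E x1 x2 x3) : Enc S E (t17 b) (v17 x1 x2 x3) := enc_mul hS (en4 h) (en15 h)

def t18 (b : Bx) : TM := tadd (t16 b) (t17 b)
noncomputable def v18 (x1 x2 x3 : ℝ) : ℝ := v16 x1 x2 x3 + v17 x1 x2 x3
theorem en18 (h : In b E x1 x2 x3) : Enc S E (t18 b) (v18 x1 x2 x3) := enc_add (en16 h) (en17 h)

def t19 (b : Bx) : TM := tmul S (t4 b) (t2 b)
noncomputable def v19 (x1 x2 x3 : ℝ) : ℝ := v4 x1 x2 x3 * v2 x1 x2 x3
theorem en19 (h : In b E x1 x2 x3) : Enc S E (t19 b) (v19 x1 x2 x3) := enc_mul hS (en4 h) (en2 h)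

def t20 (b : Bx) : TM := tscale 1 2 (t15 b)
noncomputable def v20 (x1 x2 x3 : ℝ) : ℝ := ((1 : ℕ) : ℝ) / ((2 : ℕ) : ℝ) * v15 x1 x2 x3
theorem en20 (h : In b E x1 x2 x3) : Enc S E (t20 b) (v20 x1 x2 x3) := enc_scale 1 (by norm_num) (en15 h)

def t21 (b : Bx) : TM := tsub (t19 b) (t20 b)
noncomputable def v21 (x1 x2 x3 : ℝ) : ℝ := v19 x1 x2 x3 - v20 x1 x2 x3
theorem en21 (h : In b E x1 x2 x3) : Enc S E (t21 b) (v21 x1 x2 x3) := enc_sub (en19 h) (en20 h)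

def t22 (b : Bx) : TM := tadd (t4 b) (t9 b)
noncomputable def v22 (x1 x2 x3 : ℝ) : ℝ := v4 x1 x2 x3 + v9 x1 x2 x3
theorem en22 (h : In b E x1 x2 x3) : Enc S E (t22 b) (v22 x1 x2 x3) := enc_add (en4 h) (en9 h)

def t25 (b : Bx) : TM := tadd (t4 b) (t0 b)
noncomputable def v25 (x1 x2 x3 : ℝ) : ℝ := v4 x1 x2 x3 + v0 x1 x2 x3
theorem en25 (h : In b E x1 x2 x3) : Enc S E (t25 b) (v25 x1 x2 x3) := enc_add (en4 h) (en0 h)

def t26 (b : Bx) : TM := tadd (t1 b) (t18 b)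
noncomputable def v26 (x1 x2 x3 : ℝ) : ℝ := v1 x1 x2 x3 + v18 x1 x2 x3
theorem en26 (h : In b E x1 x2 x3) : Enc S E (t26 b) (v26 x1 x2 x3) := enc_add (en1 h) (en18 h)

def t27 (_b : Bx) : TM := tconst (Nat.div (Nat.mul 3 S) 200) 0 1
noncomputable def v27 (_x1 _x2 _x3 : ℝ) : ℝ := ((3 : ℕ) : ℝ) / ((200 : ℕ) : ℝ)
theorem en27 (_h : In b E x1 x2 x3) : Enc S E (t27 b) (v27 x1 x2 x3) := enc_rat E 3 (by norm_num)

def t28 (b : Bx) : TM := tsub (t18 b) (t27 b)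
noncomputable def v28 (x1 x2 x3 : ℝ) : ℝ := v18 x1 x2 x3 - v27 x1 x2 x3
theorem en28 (h : In b E x1 x2 x3) : Enc S E (t28 b) (v28 x1 x2 x3) := enc_sub (en18 h) (en27 h)

def t29 (b : Bx) : TM := tadd (t1 b) (t27 b)
noncomputable def v29 (x1 x2 x3 : ℝ) : ℝ := v1 x1 x2 x3 + v27 x1 x2 x3
theorem en29 (h : In b E x1 x2 x3) : Enc S E (t29 b) (v29 x1 x2 x3) := enc_add (en1 h) (en27 h)

def t30 (b : Bx) : TM := tsq S (t29 b)
noncomputable def v30 (x1 x2 x3 : ℝ) : ℝ := (v29 x1 x2 x3) ^ 2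
theorem en30 (h : In b E x1 x2 x3) : Enc S E (t30 b) (v30 x1 x2 x3) := enc_sq hS (en29 h)

def t31 (b : Bx) : TM := tsub (t6 b) (t30 b)
noncomputable def v31 (x1 x2 x3 : ℝ) : ℝ := v6 x1 x2 x3 - v30 x1 x2 x3
theorem en31 (h : In b E x1 x2 x3) : Enc S E (t31 b) (v31 x1 x2 x3) := enc_sub (en6 h) (en30 h)

def t32 (b : Bx) : TM := tsqrt S (t31 b)
noncomputable def v32 (x1 x2 x3 : ℝ) : ℝ := Real.sqrt (v31 x1 x2 x3)
theorem en32 (h : In b E x1 x2 x3) : Enc S E (t32 b) (v32 x1 x2 x3) := enc_sqrt hS (en31 h)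

def t33 (b : Bx) : TM := tsq S (t1 b)
noncomputable def v33 (x1 x2 x3 : ℝ) : ℝ := (v1 x1 x2 x3) ^ 2
theorem en33 (h : In b E x1 x2 x3) : Enc S E (t33 b) (v33 x1 x2 x3) := enc_sq hS (en1 h)

def t34 (b : Bx) : TM := tsub (t6 b) (t33 b)
noncomputable def v34 (x1 x2 x3 : ℝ) : ℝ := v6 x1 x2 x3 - v33 x1 x2 x3
theorem en34 (h : In b E x1 x2 x3) : Enc S E (t34 b) (v34 x1 x2 x3) := enc_sub (en6 h) (en33 h)

def t35 (b : Bx) : TM := tsqrt S (t34 b)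
noncomputable def v35 (x1 x2 x3 : ℝ) : ℝ := Real.sqrt (v34 x1 x2 x3)
theorem en35 (h : In b E x1 x2 x3) : Enc S E (t35 b) (v35 x1 x2 x3) := enc_sqrt hS (en34 h)

def t36 (b : Bx) : TM := tnat 8 (t35 b)
noncomputable def v36 (x1 x2 x3 : ℝ) : ℝ := ((8 : ℕ) : ℝ) * v35 x1 x2 x3
theorem en36 (h : In b E x1 x2 x3) : Enc S E (t36 b) (v36 x1 x2 x3) := enc_nat 8 (en35 h)

def t37 (_b : Bx) : TM := tconst (Nat.mul 4 S) 0 0
noncomputable def v37 (_x1 _x2 _x3 : ℝ) : ℝ := ((4 : ℕ) : ℝ)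
theorem en37 (_h : In b E x1 x2 x3) : Enc S E (t37 b) (v37 x1 x2 x3) := enc_nc E 4

def t38 (b : Bx) : TM := tsub (t36 b) (t37 b)
noncomputable def v38 (x1 x2 x3 : ℝ) : ℝ := v36 x1 x2 x3 - v37 x1 x2 x3
theorem en38 (h : In b E x1 x2 x3) : Enc S E (t38 b) (v38 x1 x2 x3) := enc_sub (en36 h) (en37 h)

def t39 (b : Bx) : TM := tnat 4 (t8 b)
noncomputable def v39 (x1 x2 x3 : ℝ) : ℝ := ((4 : ℕ) : ℝ) * v8 x1 x2 x3
theorem en39 (h : In b E x1 x2 x3) : Enc S E (t39 b) (v39 x1 x2 x3) := enc_nat 4 (en8 h)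

def t40 (b : Bx) : TM := tsub (t38 b) (t39 b)
noncomputable def v40 (x1 x2 x3 : ℝ) : ℝ := v38 x1 x2 x3 - v39 x1 x2 x3
theorem en40 (h : In b E x1 x2 x3) : Enc S E (t40 b) (v40 x1 x2 x3) := enc_sub (en38 h) (en39 h)

def t41 (b : Bx) : TM := tadd (t6 b) (t32 b)
noncomputable def v41 (x1 x2 x3 : ℝ) : ℝ := v6 x1 x2 x3 + v32 x1 x2 x3
theorem en41 (h : In b E x1 x2 x3) : Enc S E (t41 b) (v41 x1 x2 x3) := enc_add (en6 h) (en32 h)

def t42 (b : Bx) : TM := tsub (t26 b) (t0 b)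
noncomputable def v42 (x1 x2 x3 : ℝ) : ℝ := v26 x1 x2 x3 - v0 x1 x2 x3
theorem en42 (h : In b E x1 x2 x3) : Enc S E (t42 b) (v42 x1 x2 x3) := enc_sub (en26 h) (en0 h)

def t43 (b : Bx) : TM := tsq S (t42 b)
noncomputable def v43 (x1 x2 x3 : ℝ) : ℝ := (v42 x1 x2 x3) ^ 2
theorem en43 (h : In b E x1 x2 x3) : Enc S E (t43 b) (v43 x1 x2 x3) := enc_sq hS (en42 h)

def t44 (b : Bx) : TM := tsub (t6 b) (t43 b)
noncomputable def v44 (x1 x2 x3 : ℝ) : ℝ := v6 x1 x2 x3 - v43 x1 x2 x3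
theorem en44 (h : In b E x1 x2 x3) : Enc S E (t44 b) (v44 x1 x2 x3) := enc_sub (en6 h) (en43 h)

def t45 (b : Bx) : TM := tsqrt S (t44 b)
noncomputable def v45 (x1 x2 x3 : ℝ) : ℝ := Real.sqrt (v44 x1 x2 x3)
theorem en45 (h : In b E x1 x2 x3) : Enc S E (t45 b) (v45 x1 x2 x3) := enc_sqrt hS (en44 h)

def t46 (b : Bx) : TM := tadd (t45 b) (t8 b)
noncomputable def v46 (x1 x2 x3 : ℝ) : ℝ := v45 x1 x2 x3 + v8 x1 x2 x3
theorem en46 (h : In b E x1 x2 x3) : Enc S E (t46 b) (v46 x1 x2 x3) := enc_add (en45 h) (en8 h)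

def t47 (_b : Bx) : TM := tconst (Nat.div (Nat.mul 1 S) 2) 0 1
noncomputable def v47 (_x1 _x2 _x3 : ℝ) : ℝ := ((1 : ℕ) : ℝ) / ((2 : ℕ) : ℝ)
theorem en47 (_h : In b E x1 x2 x3) : Enc S E (t47 b) (v47 x1 x2 x3) := enc_rat E 1 (by norm_num)

def t48 (b : Bx) : TM := tadd (t46 b) (t47 b)
noncomputable def v48 (x1 x2 x3 : ℝ) : ℝ := v46 x1 x2 x3 + v47 x1 x2 x3
theorem en48 (h : In b E x1 x2 x3) : Enc S E (t48 b) (v48 x1 x2 x3) := enc_add (en46 h) (en47 h)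

def t49 (b : Bx) : TM := tsub (t48 b) (t12 b)
noncomputable def v49 (x1 x2 x3 : ℝ) : ℝ := v48 x1 x2 x3 - v12 x1 x2 x3
theorem en49 (h : In b E x1 x2 x3) : Enc S E (t49 b) (v49 x1 x2 x3) := enc_sub (en48 h) (en12 h)

def t50 (b : Bx) : TM := tsub (t41 b) (t49 b)
noncomputable def v50 (x1 x2 x3 : ℝ) : ℝ := v41 x1 x2 x3 - v49 x1 x2 x3
theorem en50 (h : In b E x1 x2 x3) : Enc S E (t50 b) (v50 x1 x2 x3) := enc_sub (en41 h) (en49 h)

def t51 (b : Bx) : TM := tsub (t22 b) (t28 b)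
noncomputable def v51 (x1 x2 x3 : ℝ) : ℝ := v22 x1 x2 x3 - v28 x1 x2 x3
theorem en51 (h : In b E x1 x2 x3) : Enc S E (t51 b) (v51 x1 x2 x3) := enc_sub (en22 h) (en28 h)

def t52 (b : Bx) : TM := tsq S (t51 b)
noncomputable def v52 (x1 x2 x3 : ℝ) : ℝ := (v51 x1 x2 x3) ^ 2
theorem en52 (h : In b E x1 x2 x3) : Enc S E (t52 b) (v52 x1 x2 x3) := enc_sq hS (en51 h)

def t53 (b : Bx) : TM := tsub (t6 b) (t52 b)
noncomputable def v53 (x1 x2 x3 : ℝ) : ℝ := v6 x1 x2 x3 - v52 x1 x2 x3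
theorem en53 (h : In b E x1 x2 x3) : Enc S E (t53 b) (v53 x1 x2 x3) := enc_sub (en6 h) (en52 h)

def t54 (b : Bx) : TM := tsqrt S (t53 b)
noncomputable def v54 (x1 x2 x3 : ℝ) : ℝ := Real.sqrt (v53 x1 x2 x3)
theorem en54 (h : In b E x1 x2 x3) : Enc S E (t54 b) (v54 x1 x2 x3) := enc_sqrt hS (en53 h)

def t55 (b : Bx) : TM := tsub (t50 b) (t54 b)
noncomputable def v55 (x1 x2 x3 : ℝ) : ℝ := v50 x1 x2 x3 - v54 x1 x2 x3
theorem en55 (h : In b E x1 x2 x3) : Enc S E (t55 b) (v55 x1 x2 x3) := enc_sub (en50 h) (en54 h)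

def t56 (b : Bx) : TM := tadd (t32 b) (t8 b)
noncomputable def v56 (x1 x2 x3 : ℝ) : ℝ := v32 x1 x2 x3 + v8 x1 x2 x3
theorem en56 (h : In b E x1 x2 x3) : Enc S E (t56 b) (v56 x1 x2 x3) := enc_add (en32 h) (en8 h)

def t57 (b : Bx) : TM := tsub (t26 b) (t4 b)
noncomputable def v57 (x1 x2 x3 : ℝ) : ℝ := v26 x1 x2 x3 - v4 x1 x2 x3
theorem en57 (h : In b E x1 x2 x3) : Enc S E (t57 b) (v57 x1 x2 x3) := enc_sub (en26 h) (en4 h)

def t58 (b : Bx) : TM := tsq S (t57 b)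
noncomputable def v58 (x1 x2 x3 : ℝ) : ℝ := (v57 x1 x2 x3) ^ 2
theorem en58 (h : In b E x1 x2 x3) : Enc S E (t58 b) (v58 x1 x2 x3) := enc_sq hS (en57 h)

def t59 (b : Bx) : TM := tsub (t6 b) (t58 b)
noncomputable def v59 (x1 x2 x3 : ℝ) : ℝ := v6 x1 x2 x3 - v58 x1 x2 x3
theorem en59 (h : In b E x1 x2 x3) : Enc S E (t59 b) (v59 x1 x2 x3) := enc_sub (en6 h) (en58 h)

def t60 (b : Bx) : TM := tsqrt S (t59 b)
noncomputable def v60 (x1 x2 x3 : ℝ) : ℝ := Real.sqrt (v59 x1 x2 x3)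
theorem en60 (h : In b E x1 x2 x3) : Enc S E (t60 b) (v60 x1 x2 x3) := enc_sqrt hS (en59 h)

def t61 (b : Bx) : TM := tsub (t56 b) (t60 b)
noncomputable def v61 (x1 x2 x3 : ℝ) : ℝ := v56 x1 x2 x3 - v60 x1 x2 x3
theorem en61 (h : In b E x1 x2 x3) : Enc S E (t61 b) (v61 x1 x2 x3) := enc_sub (en56 h) (en60 h)

def t62 (b : Bx) : TM := tsub (t25 b) (t28 b)
noncomputable def v62 (x1 x2 x3 : ℝ) : ℝ := v25 x1 x2 x3 - v28 x1 x2 x3
theorem en62 (h : In b E x1 x2 x3) : Enc S E (t62 b) (v62 x1 x2 x3) := enc_sub (en25 h) (en28 h)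

def t63 (b : Bx) : TM := tsq S (t62 b)
noncomputable def v63 (x1 x2 x3 : ℝ) : ℝ := (v62 x1 x2 x3) ^ 2
theorem en63 (h : In b E x1 x2 x3) : Enc S E (t63 b) (v63 x1 x2 x3) := enc_sq hS (en62 h)

def t64 (b : Bx) : TM := tsub (t6 b) (t63 b)
noncomputable def v64 (x1 x2 x3 : ℝ) : ℝ := v6 x1 x2 x3 - v63 x1 x2 x3
theorem en64 (h : In b E x1 x2 x3) : Enc S E (t64 b) (v64 x1 x2 x3) := enc_sub (en6 h) (en63 h)

def t65 (b : Bx) : TM := tsqrt S (t64 b)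
noncomputable def v65 (x1 x2 x3 : ℝ) : ℝ := Real.sqrt (v64 x1 x2 x3)
theorem en65 (h : In b E x1 x2 x3) : Enc S E (t65 b) (v65 x1 x2 x3) := enc_sqrt hS (en64 h)

def t66 (b : Bx) : TM := tsub (t61 b) (t65 b)
noncomputable def v66 (x1 x2 x3 : ℝ) : ℝ := v61 x1 x2 x3 - v65 x1 x2 x3
theorem en66 (h : In b E x1 x2 x3) : Enc S E (t66 b) (v66 x1 x2 x3) := enc_sub (en61 h) (en65 h)

def t67 (b : Bx) : TM := tsub (t25 b) (t1 b)
noncomputable def v67 (x1 x2 x3 : ℝ) : ℝ := v25 x1 x2 x3 - v1 x1 x2 x3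
theorem en67 (h : In b E x1 x2 x3) : Enc S E (t67 b) (v67 x1 x2 x3) := enc_sub (en25 h) (en1 h)

def t68 (b : Bx) : TM := tsq S (t67 b)
noncomputable def v68 (x1 x2 x3 : ℝ) : ℝ := (v67 x1 x2 x3) ^ 2
theorem en68 (h : In b E x1 x2 x3) : Enc S E (t68 b) (v68 x1 x2 x3) := enc_sq hS (en67 h)

def t69 (b : Bx) : TM := tsub (t6 b) (t68 b)
noncomputable def v69 (x1 x2 x3 : ℝ) : ℝ := v6 x1 x2 x3 - v68 x1 x2 x3
theorem en69 (h : In b E x1 x2 x3) : Enc S E (t69 b) (v69 x1 x2 x3) := enc_sub (en6 h) (en68 h)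

def t70 (b : Bx) : TM := tsqrtg S (t69 b)
noncomputable def v70 (x1 x2 x3 : ℝ) : ℝ := Real.sqrt (v69 x1 x2 x3)
theorem en70 (h : In b E x1 x2 x3) : Enc S E (t70 b) (v70 x1 x2 x3) := enc_sqrtg hS (en69 h)

def t71 (b : Bx) : TM := tsub (t70 b) (t8 b)
noncomputable def v71 (x1 x2 x3 : ℝ) : ℝ := v70 x1 x2 x3 - v8 x1 x2 x3
theorem en71 (h : In b E x1 x2 x3) : Enc S E (t71 b) (v71 x1 x2 x3) := enc_sub (en70 h) (en8 h)

def t72 (b : Bx) : TM := tsub (t28 b) (t4 b)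
noncomputable def v72 (x1 x2 x3 : ℝ) : ℝ := v28 x1 x2 x3 - v4 x1 x2 x3
theorem en72 (h : In b E x1 x2 x3) : Enc S E (t72 b) (v72 x1 x2 x3) := enc_sub (en28 h) (en4 h)

def t73 (b : Bx) : TM := tsq S (t72 b)
noncomputable def v73 (x1 x2 x3 : ℝ) : ℝ := (v72 x1 x2 x3) ^ 2
theorem en73 (h : In b E x1 x2 x3) : Enc S E (t73 b) (v73 x1 x2 x3) := enc_sq hS (en72 h)

def t74 (b : Bx) : TM := tsub (t6 b) (t73 b)
noncomputable def v74 (x1 x2 x3 : ℝ) : ℝ := v6 x1 x2 x3 - v73 x1 x2 x3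
theorem en74 (h : In b E x1 x2 x3) : Enc S E (t74 b) (v74 x1 x2 x3) := enc_sub (en6 h) (en73 h)

def t75 (b : Bx) : TM := tsqrt S (t74 b)
noncomputable def v75 (x1 x2 x3 : ℝ) : ℝ := Real.sqrt (v74 x1 x2 x3)
theorem en75 (h : In b E x1 x2 x3) : Enc S E (t75 b) (v75 x1 x2 x3) := enc_sqrt hS (en74 h)

def t76 (b : Bx) : TM := tsub (t71 b) (t75 b)
noncomputable def v76 (x1 x2 x3 : ℝ) : ℝ := v71 x1 x2 x3 - v75 x1 x2 x3
theorem en76 (h : In b E x1 x2 x3) : Enc S E (t76 b) (v76 x1 x2 x3) := enc_sub (en71 h) (en75 h)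

def t77 (b : Bx) : TM := tadd (t76 b) (t32 b)
noncomputable def v77 (x1 x2 x3 : ℝ) : ℝ := v76 x1 x2 x3 + v32 x1 x2 x3
theorem en77 (h : In b E x1 x2 x3) : Enc S E (t77 b) (v77 x1 x2 x3) := enc_add (en76 h) (en32 h)

def t78 (b : Bx) : TM := tsub (t77 b) (t21 b)
noncomputable def v78 (x1 x2 x3 : ℝ) : ℝ := v77 x1 x2 x3 - v21 x1 x2 x3
theorem en78 (h : In b E x1 x2 x3) : Enc S E (t78 b) (v78 x1 x2 x3) := enc_sub (en77 h) (en21 h)

def t79 (b : Bx) : TM := tadd (t78 b) (t6 b)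
noncomputable def v79 (x1 x2 x3 : ℝ) : ℝ := v78 x1 x2 x3 + v6 x1 x2 x3
theorem en79 (h : In b E x1 x2 x3) : Enc S E (t79 b) (v79 x1 x2 x3) := enc_add (en78 h) (en6 h)

def t80 (b : Bx) : TM := tsub (t25 b) (t26 b)
noncomputable def v80 (x1 x2 x3 : ℝ) : ℝ := v25 x1 x2 x3 - v26 x1 x2 x3
theorem en80 (h : In b E x1 x2 x3) : Enc S E (t80 b) (v80 x1 x2 x3) := enc_sub (en25 h) (en26 h)

def t81 (b : Bx) : TM := tadd (t55 b) (t66 b)
noncomputable def v81 (x1 x2 x3 : ℝ) : ℝ := v55 x1 x2 x3 + v66 x1 x2 x3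
theorem en81 (h : In b E x1 x2 x3) : Enc S E (t81 b) (v81 x1 x2 x3) := enc_add (en55 h) (en66 h)

def t82 (b : Bx) : TM := tscale 9 5 (t81 b)
noncomputable def v82 (x1 x2 x3 : ℝ) : ℝ := ((9 : ℕ) : ℝ) / ((5 : ℕ) : ℝ) * v81 x1 x2 x3
theorem en82 (h : In b E x1 x2 x3) : Enc S E (t82 b) (v82 x1 x2 x3) := enc_scale 9 (by norm_num) (en81 h)

def t83 (b : Bx) : TM := tadd (t40 b) (t82 b)
noncomputable def v83 (x1 x2 x3 : ℝ) : ℝ := v40 x1 x2 x3 + v82 x1 x2 x3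
theorem en83 (h : In b E x1 x2 x3) : Enc S E (t83 b) (v83 x1 x2 x3) := enc_add (en40 h) (en82 h)

def t84 (b : Bx) : TM := tadd (t79 b) (t66 b)
noncomputable def v84 (x1 x2 x3 : ℝ) : ℝ := v79 x1 x2 x3 + v66 x1 x2 x3
theorem en84 (h : In b E x1 x2 x3) : Enc S E (t84 b) (v84 x1 x2 x3) := enc_add (en79 h) (en66 h)

def t85 (b : Bx) : TM := tscale 1 5 (t84 b)
noncomputable def v85 (x1 x2 x3 : ℝ) : ℝ := ((1 : ℕ) : ℝ) / ((5 : ℕ) : ℝ) * v84 x1 x2 x3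
theorem en85 (h : In b E x1 x2 x3) : Enc S E (t85 b) (v85 x1 x2 x3) := enc_scale 1 (by norm_num) (en84 h)

def t86 (b : Bx) : TM := tadd (t83 b) (t85 b)
noncomputable def v86 (x1 x2 x3 : ℝ) : ℝ := v83 x1 x2 x3 + v85 x1 x2 x3
theorem en86 (h : In b E x1 x2 x3) : Enc S E (t86 b) (v86 x1 x2 x3) := enc_add (en83 h) (en85 h)

def t87 (b : Bx) : TM := tmul S (t4 b) (t35 b)
noncomputable def v87 (x1 x2 x3 : ℝ) : ℝ := v4 x1 x2 x3 * v35 x1 x2 x3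
theorem en87 (h : In b E x1 x2 x3) : Enc S E (t87 b) (v87 x1 x2 x3) := enc_mul hS (en4 h) (en35 h)

def t88 (b : Bx) : TM := tscale 1 2 (t1 b)
noncomputable def v88 (x1 x2 x3 : ℝ) : ℝ := ((1 : ℕ) : ℝ) / ((2 : ℕ) : ℝ) * v1 x1 x2 x3
theorem en88 (h : In b E x1 x2 x3) : Enc S E (t88 b) (v88 x1 x2 x3) := enc_scale 1 (by norm_num) (en1 h)

def t89 (b : Bx) : TM := tsub (t87 b) (t88 b)
noncomputable def v89 (x1 x2 x3 : ℝ) : ℝ := v87 x1 x2 x3 - v88 x1 x2 x3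
theorem en89 (h : In b E x1 x2 x3) : Enc S E (t89 b) (v89 x1 x2 x3) := enc_sub (en87 h) (en88 h)

def t90 (b : Bx) : TM := tsub (t2 b) (t89 b)
noncomputable def v90 (x1 x2 x3 : ℝ) : ℝ := v2 x1 x2 x3 - v89 x1 x2 x3
theorem en90 (h : In b E x1 x2 x3) : Enc S E (t90 b) (v90 x1 x2 x3) := enc_sub (en2 h) (en89 h)

def t91 (b : Bx) : TM := tsub (t18 b) (t1 b)
noncomputable def v91 (x1 x2 x3 : ℝ) : ℝ := v18 x1 x2 x3 - v1 x1 x2 x3
theorem en91 (h : In b E x1 x2 x3) : Enc S E (t91 b) (v91 x1 x2 x3) := enc_sub (en18 h) (en1 h)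

def t92 (b : Bx) : TM := tsub (t91 b) (t27 b)
noncomputable def v92 (x1 x2 x3 : ℝ) : ℝ := v91 x1 x2 x3 - v27 x1 x2 x3
theorem en92 (h : In b E x1 x2 x3) : Enc S E (t92 b) (v92 x1 x2 x3) := enc_sub (en91 h) (en27 h)

def t93 (b : Bx) : TM := tsub (t2 b) (t92 b)
noncomputable def v93 (x1 x2 x3 : ℝ) : ℝ := v2 x1 x2 x3 - v92 x1 x2 x3
theorem en93 (h : In b E x1 x2 x3) : Enc S E (t93 b) (v93 x1 x2 x3) := enc_sub (en2 h) (en92 h)

def t94 (b : Bx) : TM := tnat 2 (t35 b)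
noncomputable def v94 (x1 x2 x3 : ℝ) : ℝ := ((2 : ℕ) : ℝ) * v35 x1 x2 x3
theorem en94 (h : In b E x1 x2 x3) : Enc S E (t94 b) (v94 x1 x2 x3) := enc_nat 2 (en35 h)

def t95 (b : Bx) : TM := tsub (t94 b) (t6 b)
noncomputable def v95 (x1 x2 x3 : ℝ) : ℝ := v94 x1 x2 x3 - v6 x1 x2 x3
theorem en95 (h : In b E x1 x2 x3) : Enc S E (t95 b) (v95 x1 x2 x3) := enc_sub (en94 h) (en6 h)

def t96 (b : Bx) : TM := tsub (t95 b) (t8 b)
noncomputable def v96 (x1 x2 x3 : ℝ) : ℝ := v95 x1 x2 x3 - v8 x1 x2 x3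
theorem en96 (h : In b E x1 x2 x3) : Enc S E (t96 b) (v96 x1 x2 x3) := enc_sub (en95 h) (en8 h)

def t97 (_b : Bx) : TM := tconst (Nat.div (Nat.mul 57 S) 100) 0 1
noncomputable def v97 (_x1 _x2 _x3 : ℝ) : ℝ := ((57 : ℕ) : ℝ) / ((100 : ℕ) : ℝ)
theorem en97 (_h : In b E x1 x2 x3) : Enc S E (t97 b) (v97 x1 x2 x3) := enc_rat E 57 (by norm_num)

def t98 (b : Bx) : TM := tsub (t97 b) (t0 b)
noncomputable def v98 (x1 x2 x3 : ℝ) : ℝ := v97 x1 x2 x3 - v0 x1 x2 x3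
theorem en98 (h : In b E x1 x2 x3) : Enc S E (t98 b) (v98 x1 x2 x3) := enc_sub (en97 h) (en0 h)

def t99 (b : Bx) : TM := tscale 1 20 (t98 b)
noncomputable def v99 (x1 x2 x3 : ℝ) : ℝ := ((1 : ℕ) : ℝ) / ((20 : ℕ) : ℝ) * v98 x1 x2 x3
theorem en99 (h : In b E x1 x2 x3) : Enc S E (t99 b) (v99 x1 x2 x3) := enc_scale 1 (by norm_num) (en98 h)

def t100 (_b : Bx) : TM := tconst (Nat.div (Nat.mul 197 S) 10000) 0 1
noncomputable def v100 (_x1 _x2 _x3 : ℝ) : ℝ := ((197 : ℕ) : ℝ) / ((10000 : ℕ) : ℝ)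
theorem en100 (_h : In b E x1 x2 x3) : Enc S E (t100 b) (v100 x1 x2 x3) := enc_rat E 197 (by norm_num)

def t101 (b : Bx) : TM := tadd (t100 b) (t99 b)
noncomputable def v101 (x1 x2 x3 : ℝ) : ℝ := v100 x1 x2 x3 + v99 x1 x2 x3
theorem en101 (h : In b E x1 x2 x3) : Enc S E (t101 b) (v101 x1 x2 x3) := enc_add (en100 h) (en99 h)

def t102 (b : Bx) : TM := tsub (t86 b) (t101 b)
noncomputable def v102 (x1 x2 x3 : ℝ) : ℝ := v86 x1 x2 x3 - v101 x1 x2 x3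
theorem en102 (h : In b E x1 x2 x3) : Enc S E (t102 b) (v102 x1 x2 x3) := enc_sub (en86 h) (en101 h)

end

def tstD (b : Bx) : Bool := or (pos (t102 b)) (or (pos (t80 b)) (or (pos (t90 b)) (or (pos (t93 b)) (pos (t96 b)))))

def fD (b : Bx) : Nat := go (tstD b) 1 (t102 b) b

def QD (x1 x2 x3 : ℝ) : Prop := 0 < v102 x1 x2 x3 ∨ 0 < v80 x1 x2 x3 ∨ 0 < v90 x1 x2 x3 ∨ 0 < v93 x1 x2 x3 ∨ 0 < v96 x1 x2 x3

theorem f_soundD (b : Bx) (hb : fD b = 0) (x1 x2 x3 : ℝ) (hm : Mem S b x1 x2 x3) : QD x1 x2 x3 := by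
  obtain ⟨E, h⟩ := pt_of_mem hm
  have h : In b E x1 x2 x3 := h
  have ht := go_sound hb
  unfold tstD at ht
  unfold QD
  rcases Bool.or_eq_true_iff.mp ht with ht | ht
  · exact Or.inl (pos_sound hS (en102 h) ht)
  · refine Or.inr ?_
    rcases Bool.or_eq_true_iff.mp ht with ht | ht
    · exact Or.inl (pos_sound hS (en80 h) ht)
    · refine Or.inr ?_
      rcases Bool.or_eq_true_iff.mp ht with ht | ht
      · exact Or.inl (pos_sound hS (en90 h) ht)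
      · refine Or.inr ?_
        rcases Bool.or_eq_true_iff.mp ht with ht | ht
        · exact Or.inl (pos_sound hS (en93 h) ht)
        · refine Or.inr ?_
          exact pos_sound hS (en96 h) ht

section

variable (s y r : ℝ)

theorem w0 : v0 s y r = s := rfl

theorem w1 : v1 s y r = y := rfl

theorem w2 : v2 s y r = r := rfl

theorem w3 : v3 s y r = (2 * h0) := by unfold v3 h0; push_cast; ring

theorem w4 : v4 s y r = h0 := by unfold v4; rw [w3]; unfold h0; push_cast; ring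

theorem w5 : v5 s y r = (s ^ 2) := by rw [v5, w0]

theorem w6 : v6 s y r = 1 := by unfold v6; norm_num

theorem w7 : v7 s y r = (1 - (s ^ 2)) := by rw [v7, w6, w5]

theorem w8 : v8 s y r = (g s) := by unfold v8; rw [w7]; rfl

theorem w9 : v9 s y r = (17 / 50 * s) := by simp only [v9, w0, Nat.cast_ofNat, Nat.cast_one]

theorem w10 : v10 s y r = ((17 / 50 * s) ^ 2) := by rw [v10, w9]

theorem w11 : v11 s y r = (1 - ((17 / 50 * s) ^ 2)) := by rw [v11, w6, w10]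

theorem w12 : v12 s y r = (g (17 / 50 * s)) := by unfold v12; rw [w11]; rfl

theorem w13 : v13 s y r = (r ^ 2) := by rw [v13, w2]

theorem w14 : v14 s y r = (1 - (r ^ 2)) := by rw [v14, w6, w13]

theorem w15 : v15 s y r = (g r) := by unfold v15; rw [w14]; rfl

theorem w16 : v16 s y r = (1 / 2 * r) := by simp only [v16, w2, Nat.cast_ofNat, Nat.cast_one]

theorem w17 : v17 s y r = (h0 * (g r)) := by rw [v17, w4, w15]

theorem w18 : v18 s y r = (ext r) := by rw [v18, w16, w17]; unfold ext; ring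

theorem w19 : v19 s y r = (h0 * r) := by rw [v19, w4, w2]

theorem w20 : v20 s y r = (1 / 2 * (g r)) := by simp only [v20, w15, Nat.cast_ofNat, Nat.cast_one]

theorem w21 : v21 s y r = ((h0 * r) - (1 / 2 * (g r))) := by rw [v21, w19, w20]

theorem w22 : v22 s y r = (h0 + (17 / 50 * s)) := by rw [v22, w4, w9]

theorem w25 : v25 s y r = (h0 + s) := by rw [v25, w4, w0]

theorem w26 : v26 s y r = (y + (ext r)) := by rw [v26, w1, w18]

theorem w27 : v27 s y r = (3 / 200) := by unfold v27; norm_num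

theorem w28 : v28 s y r = ((ext r) - (3 / 200)) := by rw [v28, w18, w27]

theorem w29 : v29 s y r = (y + (3 / 200)) := by rw [v29, w1, w27]

theorem w30 : v30 s y r = ((y + (3 / 200)) ^ 2) := by rw [v30, w29]

theorem w31 : v31 s y r = (1 - ((y + (3 / 200)) ^ 2)) := by rw [v31, w6, w30]

theorem w32 : v32 s y r = (g (y + (3 / 200))) := by unfold v32; rw [w31]; rfl

theorem w33 : v33 s y r = (y ^ 2) := by rw [v33, w1]

theorem w34 : v34 s y r = (1 - (y ^ 2)) := by rw [v34, w6, w33]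

theorem w35 : v35 s y r = (g y) := by unfold v35; rw [w34]; rfl

theorem w36 : v36 s y r = (8 * (g y)) := by simp only [v36, w35, Nat.cast_ofNat, Nat.cast_one]

theorem w37 : v37 s y r = 4 := by unfold v37; norm_num

theorem w38 : v38 s y r = ((8 * (g y)) - 4) := by rw [v38, w36, w37]

theorem w39 : v39 s y r = (4 * (g s)) := by simp only [v39, w8, Nat.cast_ofNat, Nat.cast_one]

theorem w40 : v40 s y r = (((8 * (g y)) - 4) - (4 * (g s))) := by rw [v40, w38, w39]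

theorem w41 : v41 s y r = (1 + (g (y + (3 / 200)))) := by rw [v41, w6, w32]

theorem w42 : v42 s y r = ((y + (ext r)) - s) := by rw [v42, w26, w0]

theorem w43 : v43 s y r = (((y + (ext r)) - s) ^ 2) := by rw [v43, w42]

theorem w44 : v44 s y r = (1 - (((y + (ext r)) - s) ^ 2)) := by rw [v44, w6, w43]

theorem w45 : v45 s y r = (g ((y + (ext r)) - s)) := by unfold v45; rw [w44]; rfl

theorem w46 : v46 s y r = ((g ((y + (ext r)) - s)) + (g s)) := by rw [v46, w45, w8]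

theorem w47 : v47 s y r = (1 / 2) := by unfold v47; norm_num

theorem w48 : v48 s y r = (((g ((y + (ext r)) - s)) + (g s)) + (1 / 2)) := by rw [v48, w46, w47]

theorem w49 : v49 s y r = ((((g ((y + (ext r)) - s)) + (g s)) + (1 / 2)) - (g (17 / 50 * s))) := by rw [v49, w48, w12]

theorem w50 : v50 s y r = ((1 + (g (y + (3 / 200)))) - ((((g ((y + (ext r)) - s)) + (g s)) + (1 / 2)) - (g (17 / 50 * s)))) := by rw [v50, w41, w49]

theorem w51 : v51 s y r = ((h0 + (17 / 50 * s)) - ((ext r) - (3 / 200))) := by rw [v51, w22, w28]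

theorem w52 : v52 s y r = (((h0 + (17 / 50 * s)) - ((ext r) - (3 / 200))) ^ 2) := by rw [v52, w51]

theorem w53 : v53 s y r = (1 - (((h0 + (17 / 50 * s)) - ((ext r) - (3 / 200))) ^ 2)) := by rw [v53, w6, w52]

theorem w54 : v54 s y r = (g ((h0 + (17 / 50 * s)) - ((ext r) - (3 / 200)))) := by unfold v54; rw [w53]; rfl

theorem w55 : v55 s y r = (((1 + (g (y + (3 / 200)))) - ((((g ((y + (ext r)) - s)) + (g s)) + (1 / 2)) - (g (17 / 50 * s)))) - (g ((h0 + (17 / 50 * s)) - ((ext r) - (3 / 200))))) := by rw [v55, w50, w54]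

theorem w56 : v56 s y r = ((g (y + (3 / 200))) + (g s)) := by rw [v56, w32, w8]

theorem w57 : v57 s y r = ((y + (ext r)) - h0) := by rw [v57, w26, w4]

theorem w58 : v58 s y r = (((y + (ext r)) - h0) ^ 2) := by rw [v58, w57]

theorem w59 : v59 s y r = (1 - (((y + (ext r)) - h0) ^ 2)) := by rw [v59, w6, w58]

theorem w60 : v60 s y r = (g ((y + (ext r)) - h0)) := by unfold v60; rw [w59]; rfl

theorem w61 : v61 s y r = (((g (y + (3 / 200))) + (g s)) - (g ((y + (ext r)) - h0))) := by rw [v61, w56, w60]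

theorem w62 : v62 s y r = ((h0 + s) - ((ext r) - (3 / 200))) := by rw [v62, w25, w28]

theorem w63 : v63 s y r = (((h0 + s) - ((ext r) - (3 / 200))) ^ 2) := by rw [v63, w62]

theorem w64 : v64 s y r = (1 - (((h0 + s) - ((ext r) - (3 / 200))) ^ 2)) := by rw [v64, w6, w63]

theorem w65 : v65 s y r = (g ((h0 + s) - ((ext r) - (3 / 200)))) := by unfold v65; rw [w64]; rfl

theorem w66 : v66 s y r = ((((g (y + (3 / 200))) + (g s)) - (g ((y + (ext r)) - h0))) - (g ((h0 + s) - ((ext r) - (3 / 200))))) := by rw [v66, w61, w65]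

theorem w67 : v67 s y r = ((h0 + s) - y) := by rw [v67, w25, w1]

theorem w68 : v68 s y r = (((h0 + s) - y) ^ 2) := by rw [v68, w67]

theorem w69 : v69 s y r = (1 - (((h0 + s) - y) ^ 2)) := by rw [v69, w6, w68]

theorem w70 : v70 s y r = (g ((h0 + s) - y)) := by unfold v70; rw [w69]; rfl

theorem w71 : v71 s y r = ((g ((h0 + s) - y)) - (g s)) := by rw [v71, w70, w8]

theorem w72 : v72 s y r = (((ext r) - (3 / 200)) - h0) := by rw [v72, w28, w4]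

theorem w73 : v73 s y r = ((((ext r) - (3 / 200)) - h0) ^ 2) := by rw [v73, w72]

theorem w74 : v74 s y r = (1 - ((((ext r) - (3 / 200)) - h0) ^ 2)) := by rw [v74, w6, w73]

theorem w75 : v75 s y r = (g (((ext r) - (3 / 200)) - h0)) := by unfold v75; rw [w74]; rfl

theorem w76 : v76 s y r = (((g ((h0 + s) - y)) - (g s)) - (g (((ext r) - (3 / 200)) - h0))) := by rw [v76, w71, w75]

theorem w77 : v77 s y r = ((((g ((h0 + s) - y)) - (g s)) - (g (((ext r) - (3 / 200)) - h0))) + (g (y + (3 / 200)))) := by rw [v77, w76, w32]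

theorem w78 : v78 s y r = (((((g ((h0 + s) - y)) - (g s)) - (g (((ext r) - (3 / 200)) - h0))) + (g (y + (3 / 200)))) - ((h0 * r) - (1 / 2 * (g r)))) := by rw [v78, w77, w21]

theorem w79 : v79 s y r = ((((((g ((h0 + s) - y)) - (g s)) - (g (((ext r) - (3 / 200)) - h0))) + (g (y + (3 / 200)))) - ((h0 * r) - (1 / 2 * (g r)))) + 1) := by rw [v79, w78, w6]

theorem w80 : v80 s y r = ((h0 + s) - (y + (ext r))) := by rw [v80, w25, w26]

theorem w81 : v81 s y r = ((((1 + (g (y + (3 / 200)))) - ((((g ((y + (ext r)) - s)) + (g s)) + (1 / 2)) - (g (17 / 50 * s)))) - (g ((h0 + (17 / 50 * s)) - ((ext r) - (3 / 200))))) + ((((g (y + (3 / 200))) + (g s)) - (g ((y + (ext r)) - h0))) - (g ((h0 + s) - ((ext r) - (3 / 200)))))) := by rw [v81, w55, w66]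

theorem w82 : v82 s y r = (9 / 5 * ((((1 + (g (y + (3 / 200)))) - ((((g ((y + (ext r)) - s)) + (g s)) + (1 / 2)) - (g (17 / 50 * s)))) - (g ((h0 + (17 / 50 * s)) - ((ext r) - (3 / 200))))) + ((((g (y + (3 / 200))) + (g s)) - (g ((y + (ext r)) - h0))) - (g ((h0 + s) - ((ext r) - (3 / 200))))))) := by simp only [v82, w81, Nat.cast_ofNat, Nat.cast_one]

theorem w83 : v83 s y r = ((((8 * (g y)) - 4) - (4 * (g s))) + (9 / 5 * ((((1 + (g (y + (3 / 200)))) - ((((g ((y + (ext r)) - s)) + (g s)) + (1 / 2)) - (g (17 / 50 * s)))) - (g ((h0 + (17 / 50 * s)) - ((ext r) - (3 / 200))))) + ((((g (y + (3 / 200))) + (g s)) - (g ((y + (ext r)) - h0))) - (g ((h0 + s) - ((ext r) - (3 / 200)))))))) := by rw [v83, w40, w82]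

theorem w84 : v84 s y r = (((((((g ((h0 + s) - y)) - (g s)) - (g (((ext r) - (3 / 200)) - h0))) + (g (y + (3 / 200)))) - ((h0 * r) - (1 / 2 * (g r)))) + 1) + ((((g (y + (3 / 200))) + (g s)) - (g ((y + (ext r)) - h0))) - (g ((h0 + s) - ((ext r) - (3 / 200)))))) := by rw [v84, w79, w66]

theorem w85 : v85 s y r = (1 / 5 * (((((((g ((h0 + s) - y)) - (g s)) - (g (((ext r) - (3 / 200)) - h0))) + (g (y + (3 / 200)))) - ((h0 * r) - (1 / 2 * (g r)))) + 1) + ((((g (y + (3 / 200))) + (g s)) - (g ((y + (ext r)) - h0))) - (g ((h0 + s) - ((ext r) - (3 / 200))))))) := by simp only [v85, w84, Nat.cast_ofNat, Nat.cast_one]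

theorem w86 : v86 s y r = (((((8 * (g y)) - 4) - (4 * (g s))) + (9 / 5 * ((((1 + (g (y + (3 / 200)))) - ((((g ((y + (ext r)) - s)) + (g s)) + (1 / 2)) - (g (17 / 50 * s)))) - (g ((h0 + (17 / 50 * s)) - ((ext r) - (3 / 200))))) + ((((g (y + (3 / 200))) + (g s)) - (g ((y + (ext r)) - h0))) - (g ((h0 + s) - ((ext r) - (3 / 200)))))))) + (1 / 5 * (((((((g ((h0 + s) - y)) - (g s)) - (g (((ext r) - (3 / 200)) - h0))) + (g (y + (3 / 200)))) - ((h0 * r) - (1 / 2 * (g r)))) + 1) + ((((g (y + (3 / 200))) + (g s)) - (g ((y + (ext r)) - h0))) - (g ((h0 + s) - ((ext r) - (3 / 200)))))))) := by rw [v86, w83, w85]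

theorem w87 : v87 s y r = (h0 * (g y)) := by rw [v87, w4, w35]

theorem w88 : v88 s y r = (1 / 2 * y) := by simp only [v88, w1, Nat.cast_ofNat, Nat.cast_one]

theorem w89 : v89 s y r = ((h0 * (g y)) - (1 / 2 * y)) := by rw [v89, w87, w88]

theorem w90 : v90 s y r = (r - ((h0 * (g y)) - (1 / 2 * y))) := by rw [v90, w2, w89]

theorem w91 : v91 s y r = ((ext r) - y) := by rw [v91, w18, w1]

theorem w92 : v92 s y r = (((ext r) - y) - (3 / 200)) := by rw [v92, w91, w27]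

theorem w93 : v93 s y r = (r - (((ext r) - y) - (3 / 200))) := by rw [v93, w2, w92]

theorem w94 : v94 s y r = (2 * (g y)) := by simp only [v94, w35, Nat.cast_ofNat, Nat.cast_one]

theorem w95 : v95 s y r = ((2 * (g y)) - 1) := by rw [v95, w94, w6]

theorem w96 : v96 s y r = (((2 * (g y)) - 1) - (g s)) := by rw [v96, w95, w8]

theorem w97 : v97 s y r = (57 / 100) := by unfold v97; norm_num

theorem w98 : v98 s y r = ((57 / 100) - s) := by rw [v98, w97, w0]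

theorem w99 : v99 s y r = (1 / 20 * ((57 / 100) - s)) := by simp only [v99, w98, Nat.cast_ofNat, Nat.cast_one]

theorem w100 : v100 s y r = (197 / 10000) := by unfold v100; norm_num

theorem w101 : v101 s y r = ((197 / 10000) + (1 / 20 * ((57 / 100) - s))) := by rw [v101, w100, w99]

theorem w102 : v102 s y r = ((((((8 * (g y)) - 4) - (4 * (g s))) + (9 / 5 * ((((1 + (g (y + (3 / 200)))) - ((((g ((y + (ext r)) - s)) + (g s)) + (1 / 2)) - (g (17 / 50 * s)))) - (g ((h0 + (17 / 50 * s)) - ((ext r) - (3 / 200))))) + ((((g (y + (3 / 200))) + (g s)) - (g ((y + (ext r)) - h0))) - (g ((h0 + s) - ((ext r) - (3 / 200)))))))) + (1 / 5 * (((((((g ((h0 + s) - y)) - (g s)) - (g (((ext r) - (3 / 200)) - h0))) + (g (y + (3 / 200)))) - ((h0 * r) - (1 / 2 * (g r)))) + 1) + ((((g (y + (3 / 200))) + (g s)) - (g ((y + (ext r)) - h0))) - (g ((h0 + s) - ((ext r) - (3 / 200)))))))) - ((197 /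 10000) + (1 / 20 * ((57 / 100) - s)))) := by rw [v102, w86, w101]

end

theorem cD_ok : chk fD 60 ⟨610422226, 0, 1610614, 445602856, 0, 37580965, 601295421, 0, 64424510⟩ = true := by decide +kernel

theorem mainD {s y r : ℝ} (hl1 : 567 / 1000 ≤ s) (hu1 : s ≤ 57 / 100) (hl2 : 19 / 50 ≤ y) (hu2 : y ≤ 9 / 20) (hl3 : 1 / 2 ≤ r) (hu3 : r ≤ 31 / 50) :
    (0 < ((((((8 * (g y)) - 4) - (4 * (g s))) + (9 / 5 * ((((1 + (g (y + (3 / 200)))) - ((((g ((y + (ext r)) - s)) + (g s)) + (1 / 2)) - (g (17 / 50 * s)))) - (g ((h0 + (17 / 50 * s)) - ((ext r) - (3 / 200))))) + ((((g (y + (3 / 200))) + (g s)) - (g ((y + (ext r)) - h0))) - (g ((h0 + s) - ((ext r) - (3 / 200)))))))) + (1 / 5 * (((((((g ((h0 + s) - y)) - (g s)) - (g (((ext r) - (3 / 200)) - h0))) + (g (y + (3 / 200)))) - ((h0 * r) - (1 / 2 * (g r)))) + 1) + ((((g (y + (3 / 200))) + (g s)) - (g ((y + (ext r)) - h0))) - (g ((h0 +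 s) - ((ext r) - (3 / 200)))))))) - ((197 / 10000) + (1 / 20 * ((57 / 100) - s))))) ∨ (0 < ((h0 + s) - (y + (ext r)))) ∨ (0 < (r - ((h0 * (g y)) - (1 / 2 * y)))) ∨ (0 < (r - (((ext r) - y) - (3 / 200)))) ∨ (0 < (((2 * (g y)) - 1) - (g s))) := by
  have hm : Mem S ⟨610422226, 0, 1610614, 445602856, 0, 37580965, 601295421, 0, 64424510⟩ s y r := by
    refine ⟨?_, ?_, ?_⟩ <;> norm_num only [S] <;> rw [abs_le] <;> constructor <;> linarith
  have h := chk_sound f_soundD 60 _ cD_ok s y r hm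
  unfold QD at h
  rw [w102, w80, w90, w93, w96] at h
  exact h


end Pool.Agent.Strip051.FourE.Crb4
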