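import Pool.Agent.Strip051.Four.Defs

/-! # Slopes of straight line programs -/

namespace Pool.Agent.Strip051.FourE

open Pool.Agent.StripNear Pool.Agent.StripSquare Pool.Agent.Strip051

theorem svar (x : ℝ) : x = ((0 : ℕ) : ℝ) + x * ((1 : ℕ) : ℝ) := by
  push_cast
  ring

theorem sadd {x f a p f' a' p' : ℝ} (h : f = a + x * p) (h' : f' = a' + x * p') :
    f + f' = (a + a') + x * (p + p') := by
  rw [h, h']
  ring

theorem saddl {x f a p k : ℝ} (h : f = a + x * p) : f + k = (a + k) + x * p := by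
  rw [h]
  ring

theorem saddr {x f a p k : ℝ} (h : f = a + x * p) : k + f = (k + a) + x * p := by
  rw [h]
  ring

theorem ssub {x f a p f' a' p' : ℝ} (h : f = a + x * p) (h' : f' = a' + x * p') :
    f - f' = (a - a') + x * (p - p') := by
  rw [h, h']
  ring

theorem ssubl {x f a p k : ℝ} (h : f = a + x * p) : f - k = (a - k) + x * p := by
  rw [h]
  ring

theorem ssubr {x f a p k : ℝ} (h : f = a + x * p) : k - f = (k - a) + x * (-p) := by
  rw [h]
  ring

theorem sneg {x f a p : ℝ} (h : f = a + x * p) : -f = -a + x * (-p) := by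
  rw [h]
  ring

theorem smul {x f a p f' a' p' : ℝ} (h : f = a + x * p) (h' : f' = a' + x * p') :
    f * f' = a * a' + x * (p * f' + a * p') := by
  rw [h, h']
  ring

theorem smull {x f a p k : ℝ} (h : f = a + x * p) : f * k = a * k + x * (p * k) := by
  rw [h]
  ring

theorem smulr {x f a p k : ℝ} (h : f = a + x * p) : k * f = k * a + x * (k * p) := by
  rw [h]
  ring

theorem ssq {x f a p : ℝ} (h : f = a + x * p) : f ^ 2 = a ^ 2 + x * (p * (f + a)) := by
  rw [h]
  ring

theorem ssqrt {x f a p : ℝ} (h : f = a + x * p) (hf : 0 < f) (ha : 0 < a) :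
    √f = √a + x * (p * (√f + √a)⁻¹) := by
  have h1 := Real.sqrt_pos.2 hf
  have h2 := Real.sqrt_nonneg a
  have h3 : √f + √a ≠ 0 := by positivity
  have h4 := Real.sq_sqrt hf.le
  have h5 := Real.sq_sqrt ha.le
  have h6 : (√f - √a) * (√f + √a) = x * p := by linear_combination h + h4 - h5
  calc √f = √a + (√f - √a) * (√f + √a) * (√f + √a)⁻¹ := by
        rw [mul_assoc, mul_inv_cancel₀ h3]
        ring
    _ = _ := by
        rw [h6]
        ring

/-! ### Values at the corner -/

theorem gh0 : g h0 = 1 / 2 := g_h0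

theorem qh0 : 1 / 2 * h0 + h0 * (1 / 2) = h0 := by ring

theorem Gh0 : 1 / 2 * (1 / 2) + h0 * h0 = 1 := by
  have := h0_sq
  rw [pow_two] at this
  rw [this]
  norm_num

theorem gg {u : ℝ} (h1 : 0 ≤ u) (h2 : u ≤ 1) : g (g u) = u := by
  have hu := g_sq (r := u) (by linear_combination h2 + (mul_nonneg (sub_nonneg.mpr h1) (sub_nonneg.mpr h2)))
  have e : g (g u) = √(1 - (g u) ^ 2) := rfl
  rw [e, hu, show 1 - (1 - u ^ 2) = u ^ 2 by ring, Real.sqrt_sq h1]

/-- The arc at the exit. -/
theorem gext {p : ℝ} (h1 : 1 / 2 ≤ p) (h2 : p ≤ 1) : g (ext p) = h0 * p - 1 / 2 * g p := by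
  have hh := h0_sq
  have hp := h0_pos
  obtain ⟨a1, a2, a3, a4, a5, a6⟩ := ext_spec h1 h2
  have e : ext p = p / 2 + h0 * g p := rfl
  have h3 : h0 * g (ext p) = h0 * (h0 * p - 1 / 2 * g p) := by
    have : p = ext p / 2 + h0 * g (ext p) := by
      rw [e]
      exact a4.symm
    have h4 : h0 * g (ext p) = p - ext p / 2 := by linear_combination -this
    rw [h4, e]
    have : h0 * (h0 * p - 1 / 2 * g p) = h0 ^ 2 * p - h0 * g p / 2 := by ring
    rw [this, hh]
    ring
  exact mul_left_cancel₀ hp.ne' h3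

end Pool.Agent.Strip051.FourE
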