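import Pool.Agent.Strip051.Box.B3
import Pool.Agent.Strip051.FourE.Slope

/-! # Generated boxes: THi  -/

set_option maxRecDepth 100000
set_option linter.unusedVariables false

namespace Pool.Agent.Strip051.FourE.THi

open Pool.Agent.Strip051.Box Pool.Agent.Strip051.Box3
open Pool.Agent.StripNear (h0)
open Pool.Agent.StripSquare (g g_zero)
open Pool.Agent.Strip051 (ext)

abbrev S : Nat := 1073741824

theorem hS : 0 < S := by decide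

def In (b : Bx) (E : Pt) (x1 x2 x3 : ℝ) : Prop :=
  (S : ℝ) * x1 = ((b.p1 : ℝ) - b.n1) + b.q1 * E.e1 ∧ (S : ℝ) * x2 = ((b.p2 : ℝ) - b.n2) + b.q2 * E.e2 ∧ (S : ℝ) * x3 = ((b.p3 : ℝ) - b.n3) + b.q3 * E.e3

section

variable {b : Bx} {E : Pt} {x1 x2 x3 : ℝ}

def t0 (_b : Bx) : TM := tconst 1859775393 0 1
noncomputable def v0 (_x1 _x2 _x3 : ℝ) : ℝ := Real.sqrt ((3 : ℕ) : ℝ)
theorem en0 (_h : In b E x1 x2 x3) : Enc S E (t0 b) (v0 x1 x2 x3) := enc_sqrtn E (by decide) (by decide)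

def t1 (b : Bx) : TM := tscale 1 2 (t0 b)
noncomputable def v1 (x1 x2 x3 : ℝ) : ℝ := ((1 : ℕ) : ℝ) / ((2 : ℕ) : ℝ) * v0 x1 x2 x3
theorem en1 (h : In b E x1 x2 x3) : Enc S E (t1 b) (v1 x1 x2 x3) := enc_scale 1 (by norm_num) (en0 h)

def t2 (b : Bx) : TM := X1 b
noncomputable def v2 (x1 _x2 _x3 : ℝ) : ℝ := x1
theorem en2 (h : In b E x1 x2 x3) : Enc S E (t2 b) (v2 x1 x2 x3) := enc_X1 h.1

def t3 (b : Bx) : TM := X2 b
noncomputable def v3 (_x1 x2 _x3 : ℝ) : ℝ := x2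
theorem en3 (h : In b E x1 x2 x3) : Enc S E (t3 b) (v3 x1 x2 x3) := enc_X2 h.2.1

def t4 (b : Bx) : TM := X3 b
noncomputable def v4 (_x1 _x2 x3 : ℝ) : ℝ := x3
theorem en4 (h : In b E x1 x2 x3) : Enc S E (t4 b) (v4 x1 x2 x3) := enc_X3 h.2.2

def t5 (b : Bx) : TM := tsub (t1 b) (t4 b)
noncomputable def v5 (x1 x2 x3 : ℝ) : ℝ := v1 x1 x2 x3 - v4 x1 x2 x3
theorem en5 (h : In b E x1 x2 x3) : Enc S E (t5 b) (v5 x1 x2 x3) := enc_sub (en1 h) (en4 h)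

def t6 (b : Bx) : TM := tsq S (t5 b)
noncomputable def v6 (x1 x2 x3 : ℝ) : ℝ := (v5 x1 x2 x3) ^ 2
theorem en6 (h : In b E x1 x2 x3) : Enc S E (t6 b) (v6 x1 x2 x3) := enc_sq hS (en5 h)

def t7 (_b : Bx) : TM := tconst (Nat.mul 1 S) 0 0
noncomputable def v7 (_x1 _x2 _x3 : ℝ) : ℝ := ((1 : ℕ) : ℝ)
theorem en7 (_h : In b E x1 x2 x3) : Enc S E (t7 b) (v7 x1 x2 x3) := enc_nc E 1

def t8 (b : Bx) : TM := tsub (t7 b) (t6 b)
noncomputable def v8 (x1 x2 x3 : ℝ) : ℝ := v7 x1 x2 x3 - v6 x1 x2 x3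
theorem en8 (h : In b E x1 x2 x3) : Enc S E (t8 b) (v8 x1 x2 x3) := enc_sub (en7 h) (en6 h)

def t9 (b : Bx) : TM := tsqrt S (t8 b)
noncomputable def v9 (x1 x2 x3 : ℝ) : ℝ := Real.sqrt (v8 x1 x2 x3)
theorem en9 (h : In b E x1 x2 x3) : Enc S E (t9 b) (v9 x1 x2 x3) := enc_sqrt hS (en8 h)

def t10 (b : Bx) : TM := tmul S (t1 b) (t9 b)
noncomputable def v10 (x1 x2 x3 : ℝ) : ℝ := v1 x1 x2 x3 * v9 x1 x2 x3
theorem en10 (h : In b E x1 x2 x3) : Enc S E (t10 b) (v10 x1 x2 x3) := enc_mul hS (en1 h) (en9 h)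

def t11 (b : Bx) : TM := tscale 1 2 (t5 b)
noncomputable def v11 (x1 x2 x3 : ℝ) : ℝ := ((1 : ℕ) : ℝ) / ((2 : ℕ) : ℝ) * v5 x1 x2 x3
theorem en11 (h : In b E x1 x2 x3) : Enc S E (t11 b) (v11 x1 x2 x3) := enc_scale 1 (by norm_num) (en5 h)

def t13 (b : Bx) : TM := tadd (t11 b) (t10 b)
noncomputable def v13 (x1 x2 x3 : ℝ) : ℝ := v11 x1 x2 x3 + v10 x1 x2 x3
theorem en13 (h : In b E x1 x2 x3) : Enc S E (t13 b) (v13 x1 x2 x3) := enc_add (en11 h) (en10 h)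

def t14 (b : Bx) : TM := tscale 1 2 (t9 b)
noncomputable def v14 (x1 x2 x3 : ℝ) : ℝ := ((1 : ℕ) : ℝ) / ((2 : ℕ) : ℝ) * v9 x1 x2 x3
theorem en14 (h : In b E x1 x2 x3) : Enc S E (t14 b) (v14 x1 x2 x3) := enc_scale 1 (by norm_num) (en9 h)

def t15 (b : Bx) : TM := tmul S (t1 b) (t5 b)
noncomputable def v15 (x1 x2 x3 : ℝ) : ℝ := v1 x1 x2 x3 * v5 x1 x2 x3
theorem en15 (h : In b E x1 x2 x3) : Enc S E (t15 b) (v15 x1 x2 x3) := enc_mul hS (en1 h) (en5 h)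

def t17 (b : Bx) : TM := tsub (t15 b) (t14 b)
noncomputable def v17 (x1 x2 x3 : ℝ) : ℝ := v15 x1 x2 x3 - v14 x1 x2 x3
theorem en17 (h : In b E x1 x2 x3) : Enc S E (t17 b) (v17 x1 x2 x3) := enc_sub (en15 h) (en14 h)

def t18 (b : Bx) : TM := tadd (t13 b) (t3 b)
noncomputable def v18 (x1 x2 x3 : ℝ) : ℝ := v13 x1 x2 x3 + v3 x1 x2 x3
theorem en18 (h : In b E x1 x2 x3) : Enc S E (t18 b) (v18 x1 x2 x3) := enc_add (en13 h) (en3 h)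

def t19 (b : Bx) : TM := tsq S (t2 b)
noncomputable def v19 (x1 x2 x3 : ℝ) : ℝ := (v2 x1 x2 x3) ^ 2
theorem en19 (h : In b E x1 x2 x3) : Enc S E (t19 b) (v19 x1 x2 x3) := enc_sq hS (en2 h)

def t20 (b : Bx) : TM := tsub (t7 b) (t19 b)
noncomputable def v20 (x1 x2 x3 : ℝ) : ℝ := v7 x1 x2 x3 - v19 x1 x2 x3
theorem en20 (h : In b E x1 x2 x3) : Enc S E (t20 b) (v20 x1 x2 x3) := enc_sub (en7 h) (en19 h)

def t21 (b : Bx) : TM := tsqrt S (t20 b)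
noncomputable def v21 (x1 x2 x3 : ℝ) : ℝ := Real.sqrt (v20 x1 x2 x3)
theorem en21 (h : In b E x1 x2 x3) : Enc S E (t21 b) (v21 x1 x2 x3) := enc_sqrt hS (en20 h)

def t22 (b : Bx) : TM := tscale 17 50 (t2 b)
noncomputable def v22 (x1 x2 x3 : ℝ) : ℝ := ((17 : ℕ) : ℝ) / ((50 : ℕ) : ℝ) * v2 x1 x2 x3
theorem en22 (h : In b E x1 x2 x3) : Enc S E (t22 b) (v22 x1 x2 x3) := enc_scale 17 (by norm_num) (en2 h)

def t23 (b : Bx) : TM := tsq S (t22 b)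
noncomputable def v23 (x1 x2 x3 : ℝ) : ℝ := (v22 x1 x2 x3) ^ 2
theorem en23 (h : In b E x1 x2 x3) : Enc S E (t23 b) (v23 x1 x2 x3) := enc_sq hS (en22 h)

def t24 (b : Bx) : TM := tsub (t7 b) (t23 b)
noncomputable def v24 (x1 x2 x3 : ℝ) : ℝ := v7 x1 x2 x3 - v23 x1 x2 x3
theorem en24 (h : In b E x1 x2 x3) : Enc S E (t24 b) (v24 x1 x2 x3) := enc_sub (en7 h) (en23 h)

def t25 (b : Bx) : TM := tsqrt S (t24 b)
noncomputable def v25 (x1 x2 x3 : ℝ) : ℝ := Real.sqrt (v24 x1 x2 x3)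
theorem en25 (h : In b E x1 x2 x3) : Enc S E (t25 b) (v25 x1 x2 x3) := enc_sqrt hS (en24 h)

def t26 (b : Bx) : TM := tadd (t1 b) (t2 b)
noncomputable def v26 (x1 x2 x3 : ℝ) : ℝ := v1 x1 x2 x3 + v2 x1 x2 x3
theorem en26 (h : In b E x1 x2 x3) : Enc S E (t26 b) (v26 x1 x2 x3) := enc_add (en1 h) (en2 h)

def t27 (b : Bx) : TM := tadd (t1 b) (t22 b)
noncomputable def v27 (x1 x2 x3 : ℝ) : ℝ := v1 x1 x2 x3 + v22 x1 x2 x3
theorem en27 (h : In b E x1 x2 x3) : Enc S E (t27 b) (v27 x1 x2 x3) := enc_add (en1 h) (en22 h)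

def t28 (b : Bx) : TM := tsub (t27 b) (t18 b)
noncomputable def v28 (x1 x2 x3 : ℝ) : ℝ := v27 x1 x2 x3 - v18 x1 x2 x3
theorem en28 (h : In b E x1 x2 x3) : Enc S E (t28 b) (v28 x1 x2 x3) := enc_sub (en27 h) (en18 h)

def t29 (b : Bx) : TM := tsq S (t28 b)
noncomputable def v29 (x1 x2 x3 : ℝ) : ℝ := (v28 x1 x2 x3) ^ 2
theorem en29 (h : In b E x1 x2 x3) : Enc S E (t29 b) (v29 x1 x2 x3) := enc_sq hS (en28 h)

def t30 (b : Bx) : TM := tsub (t7 b) (t29 b)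
noncomputable def v30 (x1 x2 x3 : ℝ) : ℝ := v7 x1 x2 x3 - v29 x1 x2 x3
theorem en30 (h : In b E x1 x2 x3) : Enc S E (t30 b) (v30 x1 x2 x3) := enc_sub (en7 h) (en29 h)

def t31 (b : Bx) : TM := tsqrt S (t30 b)
noncomputable def v31 (x1 x2 x3 : ℝ) : ℝ := Real.sqrt (v30 x1 x2 x3)
theorem en31 (h : In b E x1 x2 x3) : Enc S E (t31 b) (v31 x1 x2 x3) := enc_sqrt hS (en30 h)

def t32 (b : Bx) : TM := tnat 2 (t31 b)
noncomputable def v32 (x1 x2 x3 : ℝ) : ℝ := ((2 : ℕ) : ℝ) * v31 x1 x2 x3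
theorem en32 (h : In b E x1 x2 x3) : Enc S E (t32 b) (v32 x1 x2 x3) := enc_nat 2 (en31 h)

def t33 (b : Bx) : TM := tsub (t32 b) (t7 b)
noncomputable def v33 (x1 x2 x3 : ℝ) : ℝ := v32 x1 x2 x3 - v7 x1 x2 x3
theorem en33 (h : In b E x1 x2 x3) : Enc S E (t33 b) (v33 x1 x2 x3) := enc_sub (en32 h) (en7 h)

def t34 (b : Bx) : TM := tsub (t26 b) (t18 b)
noncomputable def v34 (x1 x2 x3 : ℝ) : ℝ := v26 x1 x2 x3 - v18 x1 x2 x3
theorem en34 (h : In b E x1 x2 x3) : Enc S E (t34 b) (v34 x1 x2 x3) := enc_sub (en26 h) (en18 h)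

def t35 (b : Bx) : TM := tsq S (t34 b)
noncomputable def v35 (x1 x2 x3 : ℝ) : ℝ := (v34 x1 x2 x3) ^ 2
theorem en35 (h : In b E x1 x2 x3) : Enc S E (t35 b) (v35 x1 x2 x3) := enc_sq hS (en34 h)

def t36 (b : Bx) : TM := tsub (t7 b) (t35 b)
noncomputable def v36 (x1 x2 x3 : ℝ) : ℝ := v7 x1 x2 x3 - v35 x1 x2 x3
theorem en36 (h : In b E x1 x2 x3) : Enc S E (t36 b) (v36 x1 x2 x3) := enc_sub (en7 h) (en35 h)

def t37 (b : Bx) : TM := tsqrt S (t36 b)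
noncomputable def v37 (x1 x2 x3 : ℝ) : ℝ := Real.sqrt (v36 x1 x2 x3)
theorem en37 (h : In b E x1 x2 x3) : Enc S E (t37 b) (v37 x1 x2 x3) := enc_sqrt hS (en36 h)

def t38 (b : Bx) : TM := tnat 2 (t37 b)
noncomputable def v38 (x1 x2 x3 : ℝ) : ℝ := ((2 : ℕ) : ℝ) * v37 x1 x2 x3
theorem en38 (h : In b E x1 x2 x3) : Enc S E (t38 b) (v38 x1 x2 x3) := enc_nat 2 (en37 h)

def t39 (b : Bx) : TM := tadd (t38 b) (t7 b)
noncomputable def v39 (x1 x2 x3 : ℝ) : ℝ := v38 x1 x2 x3 + v7 x1 x2 x3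
theorem en39 (h : In b E x1 x2 x3) : Enc S E (t39 b) (v39 x1 x2 x3) := enc_add (en38 h) (en7 h)

def t40 (b : Bx) : TM := tnat 2 (t25 b)
noncomputable def v40 (x1 x2 x3 : ℝ) : ℝ := ((2 : ℕ) : ℝ) * v25 x1 x2 x3
theorem en40 (h : In b E x1 x2 x3) : Enc S E (t40 b) (v40 x1 x2 x3) := enc_nat 2 (en25 h)

def t41 (b : Bx) : TM := tsub (t39 b) (t40 b)
noncomputable def v41 (x1 x2 x3 : ℝ) : ℝ := v39 x1 x2 x3 - v40 x1 x2 x3
theorem en41 (h : In b E x1 x2 x3) : Enc S E (t41 b) (v41 x1 x2 x3) := enc_sub (en39 h) (en40 h)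

def t42 (b : Bx) : TM := tsub (t18 b) (t1 b)
noncomputable def v42 (x1 x2 x3 : ℝ) : ℝ := v18 x1 x2 x3 - v1 x1 x2 x3
theorem en42 (h : In b E x1 x2 x3) : Enc S E (t42 b) (v42 x1 x2 x3) := enc_sub (en18 h) (en1 h)

def t43 (b : Bx) : TM := tsq S (t42 b)
noncomputable def v43 (x1 x2 x3 : ℝ) : ℝ := (v42 x1 x2 x3) ^ 2
theorem en43 (h : In b E x1 x2 x3) : Enc S E (t43 b) (v43 x1 x2 x3) := enc_sq hS (en42 h)

def t44 (b : Bx) : TM := tsub (t7 b) (t43 b)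
noncomputable def v44 (x1 x2 x3 : ℝ) : ℝ := v7 x1 x2 x3 - v43 x1 x2 x3
theorem en44 (h : In b E x1 x2 x3) : Enc S E (t44 b) (v44 x1 x2 x3) := enc_sub (en7 h) (en43 h)

def t45 (b : Bx) : TM := tsqrt S (t44 b)
noncomputable def v45 (x1 x2 x3 : ℝ) : ℝ := Real.sqrt (v44 x1 x2 x3)
theorem en45 (h : In b E x1 x2 x3) : Enc S E (t45 b) (v45 x1 x2 x3) := enc_sqrt hS (en44 h)

def t46 (b : Bx) : TM := tnat 2 (t45 b)
noncomputable def v46 (x1 x2 x3 : ℝ) : ℝ := ((2 : ℕ) : ℝ) * v45 x1 x2 x3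
theorem en46 (h : In b E x1 x2 x3) : Enc S E (t46 b) (v46 x1 x2 x3) := enc_nat 2 (en45 h)

def t47 (b : Bx) : TM := tsub (t46 b) (t7 b)
noncomputable def v47 (x1 x2 x3 : ℝ) : ℝ := v46 x1 x2 x3 - v7 x1 x2 x3
theorem en47 (h : In b E x1 x2 x3) : Enc S E (t47 b) (v47 x1 x2 x3) := enc_sub (en46 h) (en7 h)

def t48 (b : Bx) : TM := tsub (t38 b) (t7 b)
noncomputable def v48 (x1 x2 x3 : ℝ) : ℝ := v38 x1 x2 x3 - v7 x1 x2 x3
theorem en48 (h : In b E x1 x2 x3) : Enc S E (t48 b) (v48 x1 x2 x3) := enc_sub (en38 h) (en7 h)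

def t49 (b : Bx) : TM := tadd (t33 b) (t41 b)
noncomputable def v49 (x1 x2 x3 : ℝ) : ℝ := v33 x1 x2 x3 + v41 x1 x2 x3
theorem en49 (h : In b E x1 x2 x3) : Enc S E (t49 b) (v49 x1 x2 x3) := enc_add (en33 h) (en41 h)

def t50 (b : Bx) : TM := tscale 9 5 (t49 b)
noncomputable def v50 (x1 x2 x3 : ℝ) : ℝ := ((9 : ℕ) : ℝ) / ((5 : ℕ) : ℝ) * v49 x1 x2 x3
theorem en50 (h : In b E x1 x2 x3) : Enc S E (t50 b) (v50 x1 x2 x3) := enc_scale 9 (by norm_num) (en49 h)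

def t51 (b : Bx) : TM := tadd (t47 b) (t48 b)
noncomputable def v51 (x1 x2 x3 : ℝ) : ℝ := v47 x1 x2 x3 + v48 x1 x2 x3
theorem en51 (h : In b E x1 x2 x3) : Enc S E (t51 b) (v51 x1 x2 x3) := enc_add (en47 h) (en48 h)

def t52 (b : Bx) : TM := tscale 1 5 (t51 b)
noncomputable def v52 (x1 x2 x3 : ℝ) : ℝ := ((1 : ℕ) : ℝ) / ((5 : ℕ) : ℝ) * v51 x1 x2 x3
theorem en52 (h : In b E x1 x2 x3) : Enc S E (t52 b) (v52 x1 x2 x3) := enc_scale 1 (by norm_num) (en51 h)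

def t53 (b : Bx) : TM := tadd (t50 b) (t52 b)
noncomputable def v53 (x1 x2 x3 : ℝ) : ℝ := v50 x1 x2 x3 + v52 x1 x2 x3
theorem en53 (h : In b E x1 x2 x3) : Enc S E (t53 b) (v53 x1 x2 x3) := enc_add (en50 h) (en52 h)

def t54 (_b : Bx) : TM := tconst (Nat.mul 2 S) 0 0
noncomputable def v54 (_x1 _x2 _x3 : ℝ) : ℝ := ((2 : ℕ) : ℝ)
theorem en54 (_h : In b E x1 x2 x3) : Enc S E (t54 b) (v54 x1 x2 x3) := enc_nc E 2

def t55 (b : Bx) : TM := tsub (t53 b) (t54 b)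
noncomputable def v55 (x1 x2 x3 : ℝ) : ℝ := v53 x1 x2 x3 - v54 x1 x2 x3
theorem en55 (h : In b E x1 x2 x3) : Enc S E (t55 b) (v55 x1 x2 x3) := enc_sub (en53 h) (en54 h)

def t56 (b : Bx) : TM := tnat 2 (t21 b)
noncomputable def v56 (x1 x2 x3 : ℝ) : ℝ := ((2 : ℕ) : ℝ) * v21 x1 x2 x3
theorem en56 (h : In b E x1 x2 x3) : Enc S E (t56 b) (v56 x1 x2 x3) := enc_nat 2 (en21 h)

def t57 (b : Bx) : TM := tsub (t55 b) (t56 b)
noncomputable def v57 (x1 x2 x3 : ℝ) : ℝ := v55 x1 x2 x3 - v56 x1 x2 x3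
theorem en57 (h : In b E x1 x2 x3) : Enc S E (t57 b) (v57 x1 x2 x3) := enc_sub (en55 h) (en56 h)

def t58 (b : Bx) : TM := tadd (t21 b) (t7 b)
noncomputable def v58 (x1 x2 x3 : ℝ) : ℝ := v21 x1 x2 x3 + v7 x1 x2 x3
theorem en58 (h : In b E x1 x2 x3) : Enc S E (t58 b) (v58 x1 x2 x3) := enc_add (en21 h) (en7 h)

def t59 (b : Bx) : TM := tscale 1 2 (t58 b)
noncomputable def v59 (x1 x2 x3 : ℝ) : ℝ := ((1 : ℕ) : ℝ) / ((2 : ℕ) : ℝ) * v58 x1 x2 x3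
theorem en59 (h : In b E x1 x2 x3) : Enc S E (t59 b) (v59 x1 x2 x3) := enc_scale 1 (by norm_num) (en58 h)

def t60 (b : Bx) : TM := tsq S (t59 b)
noncomputable def v60 (x1 x2 x3 : ℝ) : ℝ := (v59 x1 x2 x3) ^ 2
theorem en60 (h : In b E x1 x2 x3) : Enc S E (t60 b) (v60 x1 x2 x3) := enc_sq hS (en59 h)

def t61 (b : Bx) : TM := tsub (t7 b) (t60 b)
noncomputable def v61 (x1 x2 x3 : ℝ) : ℝ := v7 x1 x2 x3 - v60 x1 x2 x3
theorem en61 (h : In b E x1 x2 x3) : Enc S E (t61 b) (v61 x1 x2 x3) := enc_sub (en7 h) (en60 h)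

def t62 (b : Bx) : TM := tsqrt S (t61 b)
noncomputable def v62 (x1 x2 x3 : ℝ) : ℝ := Real.sqrt (v61 x1 x2 x3)
theorem en62 (h : In b E x1 x2 x3) : Enc S E (t62 b) (v62 x1 x2 x3) := enc_sqrt hS (en61 h)

def t63 (b : Bx) : TM := tadd (t9 b) (t17 b)
noncomputable def v63 (x1 x2 x3 : ℝ) : ℝ := v9 x1 x2 x3 + v17 x1 x2 x3
theorem en63 (h : In b E x1 x2 x3) : Enc S E (t63 b) (v63 x1 x2 x3) := enc_add (en9 h) (en17 h)

def t64 (b : Bx) : TM := tadd (t63 b) (t7 b)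
noncomputable def v64 (x1 x2 x3 : ℝ) : ℝ := v63 x1 x2 x3 + v7 x1 x2 x3
theorem en64 (h : In b E x1 x2 x3) : Enc S E (t64 b) (v64 x1 x2 x3) := enc_add (en63 h) (en7 h)

def t65 (b : Bx) : TM := tsub (t5 b) (t18 b)
noncomputable def v65 (x1 x2 x3 : ℝ) : ℝ := v5 x1 x2 x3 - v18 x1 x2 x3
theorem en65 (h : In b E x1 x2 x3) : Enc S E (t65 b) (v65 x1 x2 x3) := enc_sub (en5 h) (en18 h)

def t66 (b : Bx) : TM := tadd (t65 b) (t62 b)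
noncomputable def v66 (x1 x2 x3 : ℝ) : ℝ := v65 x1 x2 x3 + v62 x1 x2 x3
theorem en66 (h : In b E x1 x2 x3) : Enc S E (t66 b) (v66 x1 x2 x3) := enc_add (en65 h) (en62 h)

def t67 (b : Bx) : TM := tsq S (t66 b)
noncomputable def v67 (x1 x2 x3 : ℝ) : ℝ := (v66 x1 x2 x3) ^ 2
theorem en67 (h : In b E x1 x2 x3) : Enc S E (t67 b) (v67 x1 x2 x3) := enc_sq hS (en66 h)

def t68 (b : Bx) : TM := tsub (t7 b) (t67 b)
noncomputable def v68 (x1 x2 x3 : ℝ) : ℝ := v7 x1 x2 x3 - v67 x1 x2 x3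
theorem en68 (h : In b E x1 x2 x3) : Enc S E (t68 b) (v68 x1 x2 x3) := enc_sub (en7 h) (en67 h)

def t69 (b : Bx) : TM := tsqrt S (t68 b)
noncomputable def v69 (x1 x2 x3 : ℝ) : ℝ := Real.sqrt (v68 x1 x2 x3)
theorem en69 (h : In b E x1 x2 x3) : Enc S E (t69 b) (v69 x1 x2 x3) := enc_sqrt hS (en68 h)

def t70 (b : Bx) : TM := tsub (t64 b) (t69 b)
noncomputable def v70 (x1 x2 x3 : ℝ) : ℝ := v64 x1 x2 x3 - v69 x1 x2 x3
theorem en70 (h : In b E x1 x2 x3) : Enc S E (t70 b) (v70 x1 x2 x3) := enc_sub (en64 h) (en69 h)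

def t71 (b : Bx) : TM := tsub (t13 b) (t18 b)
noncomputable def v71 (x1 x2 x3 : ℝ) : ℝ := v13 x1 x2 x3 - v18 x1 x2 x3
theorem en71 (h : In b E x1 x2 x3) : Enc S E (t71 b) (v71 x1 x2 x3) := enc_sub (en13 h) (en18 h)

def t72 (b : Bx) : TM := tadd (t71 b) (t62 b)
noncomputable def v72 (x1 x2 x3 : ℝ) : ℝ := v71 x1 x2 x3 + v62 x1 x2 x3
theorem en72 (h : In b E x1 x2 x3) : Enc S E (t72 b) (v72 x1 x2 x3) := enc_add (en71 h) (en62 h)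

def t73 (b : Bx) : TM := tsq S (t72 b)
noncomputable def v73 (x1 x2 x3 : ℝ) : ℝ := (v72 x1 x2 x3) ^ 2
theorem en73 (h : In b E x1 x2 x3) : Enc S E (t73 b) (v73 x1 x2 x3) := enc_sq hS (en72 h)

def t74 (b : Bx) : TM := tsub (t7 b) (t73 b)
noncomputable def v74 (x1 x2 x3 : ℝ) : ℝ := v7 x1 x2 x3 - v73 x1 x2 x3
theorem en74 (h : In b E x1 x2 x3) : Enc S E (t74 b) (v74 x1 x2 x3) := enc_sub (en7 h) (en73 h)

def t75 (b : Bx) : TM := tsqrt S (t74 b)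
noncomputable def v75 (x1 x2 x3 : ℝ) : ℝ := Real.sqrt (v74 x1 x2 x3)
theorem en75 (h : In b E x1 x2 x3) : Enc S E (t75 b) (v75 x1 x2 x3) := enc_sqrt hS (en74 h)

def t76 (b : Bx) : TM := tsub (t70 b) (t75 b)
noncomputable def v76 (x1 x2 x3 : ℝ) : ℝ := v70 x1 x2 x3 - v75 x1 x2 x3
theorem en76 (h : In b E x1 x2 x3) : Enc S E (t76 b) (v76 x1 x2 x3) := enc_sub (en70 h) (en75 h)

def t77 (b : Bx) : TM := tnat 2 (t76 b)
noncomputable def v77 (x1 x2 x3 : ℝ) : ℝ := ((2 : ℕ) : ℝ) * v76 x1 x2 x3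
theorem en77 (h : In b E x1 x2 x3) : Enc S E (t77 b) (v77 x1 x2 x3) := enc_nat 2 (en76 h)

def t78 (b : Bx) : TM := tadd (t57 b) (t77 b)
noncomputable def v78 (x1 x2 x3 : ℝ) : ℝ := v57 x1 x2 x3 + v77 x1 x2 x3
theorem en78 (h : In b E x1 x2 x3) : Enc S E (t78 b) (v78 x1 x2 x3) := enc_add (en57 h) (en77 h)

def t79 (_b : Bx) : TM := tconst (Nat.mul 0 S) 0 0
noncomputable def v79 (_x1 _x2 _x3 : ℝ) : ℝ := ((0 : ℕ) : ℝ)
theorem en79 (_h : In b E x1 x2 x3) : Enc S E (t79 b) (v79 x1 x2 x3) := enc_nc E 0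

def t80 (b : Bx) : TM := tadd (t13 b) (t79 b)
noncomputable def v80 (x1 x2 x3 : ℝ) : ℝ := v13 x1 x2 x3 + v79 x1 x2 x3
theorem en80 (h : In b E x1 x2 x3) : Enc S E (t80 b) (v80 x1 x2 x3) := enc_add (en13 h) (en79 h)

def t81 (b : Bx) : TM := tsub (t27 b) (t80 b)
noncomputable def v81 (x1 x2 x3 : ℝ) : ℝ := v27 x1 x2 x3 - v80 x1 x2 x3
theorem en81 (h : In b E x1 x2 x3) : Enc S E (t81 b) (v81 x1 x2 x3) := enc_sub (en27 h) (en80 h)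

def t82 (b : Bx) : TM := tneg (t7 b)
noncomputable def v82 (x1 x2 x3 : ℝ) : ℝ := -(v7 x1 x2 x3)
theorem en82 (h : In b E x1 x2 x3) : Enc S E (t82 b) (v82 x1 x2 x3) := enc_neg (en7 h)

def t83 (b : Bx) : TM := tsq S (t81 b)
noncomputable def v83 (x1 x2 x3 : ℝ) : ℝ := (v81 x1 x2 x3) ^ 2
theorem en83 (h : In b E x1 x2 x3) : Enc S E (t83 b) (v83 x1 x2 x3) := enc_sq hS (en81 h)

def t84 (b : Bx) : TM := tadd (t28 b) (t81 b)
noncomputable def v84 (x1 x2 x3 : ℝ) : ℝ := v28 x1 x2 x3 + v81 x1 x2 x3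
theorem en84 (h : In b E x1 x2 x3) : Enc S E (t84 b) (v84 x1 x2 x3) := enc_add (en28 h) (en81 h)

def t85 (b : Bx) : TM := tmul S (t82 b) (t84 b)
noncomputable def v85 (x1 x2 x3 : ℝ) : ℝ := v82 x1 x2 x3 * v84 x1 x2 x3
theorem en85 (h : In b E x1 x2 x3) : Enc S E (t85 b) (v85 x1 x2 x3) := enc_mul hS (en82 h) (en84 h)

def t86 (b : Bx) : TM := tsub (t7 b) (t83 b)
noncomputable def v86 (x1 x2 x3 : ℝ) : ℝ := v7 x1 x2 x3 - v83 x1 x2 x3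
theorem en86 (h : In b E x1 x2 x3) : Enc S E (t86 b) (v86 x1 x2 x3) := enc_sub (en7 h) (en83 h)

def t87 (b : Bx) : TM := tneg (t85 b)
noncomputable def v87 (x1 x2 x3 : ℝ) : ℝ := -(v85 x1 x2 x3)
theorem en87 (h : In b E x1 x2 x3) : Enc S E (t87 b) (v87 x1 x2 x3) := enc_neg (en85 h)

def t88 (b : Bx) : TM := tsqrt S (t86 b)
noncomputable def v88 (x1 x2 x3 : ℝ) : ℝ := Real.sqrt (v86 x1 x2 x3)
theorem en88 (h : In b E x1 x2 x3) : Enc S E (t88 b) (v88 x1 x2 x3) := enc_sqrt hS (en86 h)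

def t89 (b : Bx) : TM := tadd (t31 b) (t88 b)
noncomputable def v89 (x1 x2 x3 : ℝ) : ℝ := v31 x1 x2 x3 + v88 x1 x2 x3
theorem en89 (h : In b E x1 x2 x3) : Enc S E (t89 b) (v89 x1 x2 x3) := enc_add (en31 h) (en88 h)

def t90 (b : Bx) : TM := tinv S (t89 b)
noncomputable def v90 (x1 x2 x3 : ℝ) : ℝ := (v89 x1 x2 x3)⁻¹
theorem en90 (h : In b E x1 x2 x3) : Enc S E (t90 b) (v90 x1 x2 x3) := enc_inv hS (en89 h)

def t91 (b : Bx) : TM := tmul S (t87 b) (t90 b)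
noncomputable def v91 (x1 x2 x3 : ℝ) : ℝ := v87 x1 x2 x3 * v90 x1 x2 x3
theorem en91 (h : In b E x1 x2 x3) : Enc S E (t91 b) (v91 x1 x2 x3) := enc_mul hS (en87 h) (en90 h)

def t92 (b : Bx) : TM := tnat 2 (t88 b)
noncomputable def v92 (x1 x2 x3 : ℝ) : ℝ := ((2 : ℕ) : ℝ) * v88 x1 x2 x3
theorem en92 (h : In b E x1 x2 x3) : Enc S E (t92 b) (v92 x1 x2 x3) := enc_nat 2 (en88 h)

def t93 (b : Bx) : TM := tnat 2 (t91 b)
noncomputable def v93 (x1 x2 x3 : ℝ) : ℝ := ((2 : ℕ) : ℝ) * v91 x1 x2 x3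
theorem en93 (h : In b E x1 x2 x3) : Enc S E (t93 b) (v93 x1 x2 x3) := enc_nat 2 (en91 h)

def t94 (b : Bx) : TM := tsub (t92 b) (t7 b)
noncomputable def v94 (x1 x2 x3 : ℝ) : ℝ := v92 x1 x2 x3 - v7 x1 x2 x3
theorem en94 (h : In b E x1 x2 x3) : Enc S E (t94 b) (v94 x1 x2 x3) := enc_sub (en92 h) (en7 h)

def t95 (b : Bx) : TM := tsub (t26 b) (t80 b)
noncomputable def v95 (x1 x2 x3 : ℝ) : ℝ := v26 x1 x2 x3 - v80 x1 x2 x3
theorem en95 (h : In b E x1 x2 x3) : Enc S E (t95 b) (v95 x1 x2 x3) := enc_sub (en26 h) (en80 h)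

def t96 (b : Bx) : TM := tsq S (t95 b)
noncomputable def v96 (x1 x2 x3 : ℝ) : ℝ := (v95 x1 x2 x3) ^ 2
theorem en96 (h : In b E x1 x2 x3) : Enc S E (t96 b) (v96 x1 x2 x3) := enc_sq hS (en95 h)

def t97 (b : Bx) : TM := tadd (t34 b) (t95 b)
noncomputable def v97 (x1 x2 x3 : ℝ) : ℝ := v34 x1 x2 x3 + v95 x1 x2 x3
theorem en97 (h : In b E x1 x2 x3) : Enc S E (t97 b) (v97 x1 x2 x3) := enc_add (en34 h) (en95 h)

def t98 (b : Bx) : TM := tmul S (t82 b) (t97 b)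
noncomputable def v98 (x1 x2 x3 : ℝ) : ℝ := v82 x1 x2 x3 * v97 x1 x2 x3
theorem en98 (h : In b E x1 x2 x3) : Enc S E (t98 b) (v98 x1 x2 x3) := enc_mul hS (en82 h) (en97 h)

def t99 (b : Bx) : TM := tsub (t7 b) (t96 b)
noncomputable def v99 (x1 x2 x3 : ℝ) : ℝ := v7 x1 x2 x3 - v96 x1 x2 x3
theorem en99 (h : In b E x1 x2 x3) : Enc S E (t99 b) (v99 x1 x2 x3) := enc_sub (en7 h) (en96 h)

def t100 (b : Bx) : TM := tneg (t98 b)
noncomputable def v100 (x1 x2 x3 : ℝ) : ℝ := -(v98 x1 x2 x3)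
theorem en100 (h : In b E x1 x2 x3) : Enc S E (t100 b) (v100 x1 x2 x3) := enc_neg (en98 h)

def t101 (b : Bx) : TM := tsqrt S (t99 b)
noncomputable def v101 (x1 x2 x3 : ℝ) : ℝ := Real.sqrt (v99 x1 x2 x3)
theorem en101 (h : In b E x1 x2 x3) : Enc S E (t101 b) (v101 x1 x2 x3) := enc_sqrt hS (en99 h)

def t102 (b : Bx) : TM := tadd (t37 b) (t101 b)
noncomputable def v102 (x1 x2 x3 : ℝ) : ℝ := v37 x1 x2 x3 + v101 x1 x2 x3
theorem en102 (h : In b E x1 x2 x3) : Enc S E (t102 b) (v102 x1 x2 x3) := enc_add (en37 h) (en101 h)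

def t103 (b : Bx) : TM := tinv S (t102 b)
noncomputable def v103 (x1 x2 x3 : ℝ) : ℝ := (v102 x1 x2 x3)⁻¹
theorem en103 (h : In b E x1 x2 x3) : Enc S E (t103 b) (v103 x1 x2 x3) := enc_inv hS (en102 h)

def t104 (b : Bx) : TM := tmul S (t100 b) (t103 b)
noncomputable def v104 (x1 x2 x3 : ℝ) : ℝ := v100 x1 x2 x3 * v103 x1 x2 x3
theorem en104 (h : In b E x1 x2 x3) : Enc S E (t104 b) (v104 x1 x2 x3) := enc_mul hS (en100 h) (en103 h)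

def t105 (b : Bx) : TM := tnat 2 (t101 b)
noncomputable def v105 (x1 x2 x3 : ℝ) : ℝ := ((2 : ℕ) : ℝ) * v101 x1 x2 x3
theorem en105 (h : In b E x1 x2 x3) : Enc S E (t105 b) (v105 x1 x2 x3) := enc_nat 2 (en101 h)

def t106 (b : Bx) : TM := tnat 2 (t104 b)
noncomputable def v106 (x1 x2 x3 : ℝ) : ℝ := ((2 : ℕ) : ℝ) * v104 x1 x2 x3
theorem en106 (h : In b E x1 x2 x3) : Enc S E (t106 b) (v106 x1 x2 x3) := enc_nat 2 (en104 h)

def t107 (b : Bx) : TM := tadd (t105 b) (t7 b)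
noncomputable def v107 (x1 x2 x3 : ℝ) : ℝ := v105 x1 x2 x3 + v7 x1 x2 x3
theorem en107 (h : In b E x1 x2 x3) : Enc S E (t107 b) (v107 x1 x2 x3) := enc_add (en105 h) (en7 h)

def t108 (b : Bx) : TM := tsub (t107 b) (t40 b)
noncomputable def v108 (x1 x2 x3 : ℝ) : ℝ := v107 x1 x2 x3 - v40 x1 x2 x3
theorem en108 (h : In b E x1 x2 x3) : Enc S E (t108 b) (v108 x1 x2 x3) := enc_sub (en107 h) (en40 h)

def t109 (b : Bx) : TM := tadd (t94 b) (t108 b)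
noncomputable def v109 (x1 x2 x3 : ℝ) : ℝ := v94 x1 x2 x3 + v108 x1 x2 x3
theorem en109 (h : In b E x1 x2 x3) : Enc S E (t109 b) (v109 x1 x2 x3) := enc_add (en94 h) (en108 h)

def t110 (b : Bx) : TM := tadd (t93 b) (t106 b)
noncomputable def v110 (x1 x2 x3 : ℝ) : ℝ := v93 x1 x2 x3 + v106 x1 x2 x3
theorem en110 (h : In b E x1 x2 x3) : Enc S E (t110 b) (v110 x1 x2 x3) := enc_add (en93 h) (en106 h)

def t111 (b : Bx) : TM := tscale 9 5 (t109 b)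
noncomputable def v111 (x1 x2 x3 : ℝ) : ℝ := ((9 : ℕ) : ℝ) / ((5 : ℕ) : ℝ) * v109 x1 x2 x3
theorem en111 (h : In b E x1 x2 x3) : Enc S E (t111 b) (v111 x1 x2 x3) := enc_scale 9 (by norm_num) (en109 h)

def t112 (b : Bx) : TM := tscale 9 5 (t110 b)
noncomputable def v112 (x1 x2 x3 : ℝ) : ℝ := ((9 : ℕ) : ℝ) / ((5 : ℕ) : ℝ) * v110 x1 x2 x3
theorem en112 (h : In b E x1 x2 x3) : Enc S E (t112 b) (v112 x1 x2 x3) := enc_scale 9 (by norm_num) (en110 h)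

def t113 (b : Bx) : TM := tsub (t80 b) (t1 b)
noncomputable def v113 (x1 x2 x3 : ℝ) : ℝ := v80 x1 x2 x3 - v1 x1 x2 x3
theorem en113 (h : In b E x1 x2 x3) : Enc S E (t113 b) (v113 x1 x2 x3) := enc_sub (en80 h) (en1 h)

def t114 (b : Bx) : TM := tsq S (t113 b)
noncomputable def v114 (x1 x2 x3 : ℝ) : ℝ := (v113 x1 x2 x3) ^ 2
theorem en114 (h : In b E x1 x2 x3) : Enc S E (t114 b) (v114 x1 x2 x3) := enc_sq hS (en113 h)

def t115 (b : Bx) : TM := tadd (t42 b) (t113 b)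
noncomputable def v115 (x1 x2 x3 : ℝ) : ℝ := v42 x1 x2 x3 + v113 x1 x2 x3
theorem en115 (h : In b E x1 x2 x3) : Enc S E (t115 b) (v115 x1 x2 x3) := enc_add (en42 h) (en113 h)

def t116 (b : Bx) : TM := tmul S (t7 b) (t115 b)
noncomputable def v116 (x1 x2 x3 : ℝ) : ℝ := v7 x1 x2 x3 * v115 x1 x2 x3
theorem en116 (h : In b E x1 x2 x3) : Enc S E (t116 b) (v116 x1 x2 x3) := enc_mul hS (en7 h) (en115 h)

def t117 (b : Bx) : TM := tsub (t7 b) (t114 b)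
noncomputable def v117 (x1 x2 x3 : ℝ) : ℝ := v7 x1 x2 x3 - v114 x1 x2 x3
theorem en117 (h : In b E x1 x2 x3) : Enc S E (t117 b) (v117 x1 x2 x3) := enc_sub (en7 h) (en114 h)

def t118 (b : Bx) : TM := tneg (t116 b)
noncomputable def v118 (x1 x2 x3 : ℝ) : ℝ := -(v116 x1 x2 x3)
theorem en118 (h : In b E x1 x2 x3) : Enc S E (t118 b) (v118 x1 x2 x3) := enc_neg (en116 h)

def t119 (b : Bx) : TM := tsqrt S (t117 b)
noncomputable def v119 (x1 x2 x3 : ℝ) : ℝ := Real.sqrt (v117 x1 x2 x3)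
theorem en119 (h : In b E x1 x2 x3) : Enc S E (t119 b) (v119 x1 x2 x3) := enc_sqrt hS (en117 h)

def t120 (b : Bx) : TM := tadd (t45 b) (t119 b)
noncomputable def v120 (x1 x2 x3 : ℝ) : ℝ := v45 x1 x2 x3 + v119 x1 x2 x3
theorem en120 (h : In b E x1 x2 x3) : Enc S E (t120 b) (v120 x1 x2 x3) := enc_add (en45 h) (en119 h)

def t121 (b : Bx) : TM := tinv S (t120 b)
noncomputable def v121 (x1 x2 x3 : ℝ) : ℝ := (v120 x1 x2 x3)⁻¹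
theorem en121 (h : In b E x1 x2 x3) : Enc S E (t121 b) (v121 x1 x2 x3) := enc_inv hS (en120 h)

def t122 (b : Bx) : TM := tmul S (t118 b) (t121 b)
noncomputable def v122 (x1 x2 x3 : ℝ) : ℝ := v118 x1 x2 x3 * v121 x1 x2 x3
theorem en122 (h : In b E x1 x2 x3) : Enc S E (t122 b) (v122 x1 x2 x3) := enc_mul hS (en118 h) (en121 h)

def t123 (b : Bx) : TM := tnat 2 (t119 b)
noncomputable def v123 (x1 x2 x3 : ℝ) : ℝ := ((2 : ℕ) : ℝ) * v119 x1 x2 x3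
theorem en123 (h : In b E x1 x2 x3) : Enc S E (t123 b) (v123 x1 x2 x3) := enc_nat 2 (en119 h)

def t124 (b : Bx) : TM := tnat 2 (t122 b)
noncomputable def v124 (x1 x2 x3 : ℝ) : ℝ := ((2 : ℕ) : ℝ) * v122 x1 x2 x3
theorem en124 (h : In b E x1 x2 x3) : Enc S E (t124 b) (v124 x1 x2 x3) := enc_nat 2 (en122 h)

def t125 (b : Bx) : TM := tsub (t123 b) (t7 b)
noncomputable def v125 (x1 x2 x3 : ℝ) : ℝ := v123 x1 x2 x3 - v7 x1 x2 x3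
theorem en125 (h : In b E x1 x2 x3) : Enc S E (t125 b) (v125 x1 x2 x3) := enc_sub (en123 h) (en7 h)

def t126 (b : Bx) : TM := tsub (t105 b) (t7 b)
noncomputable def v126 (x1 x2 x3 : ℝ) : ℝ := v105 x1 x2 x3 - v7 x1 x2 x3
theorem en126 (h : In b E x1 x2 x3) : Enc S E (t126 b) (v126 x1 x2 x3) := enc_sub (en105 h) (en7 h)

def t127 (b : Bx) : TM := tadd (t125 b) (t126 b)
noncomputable def v127 (x1 x2 x3 : ℝ) : ℝ := v125 x1 x2 x3 + v126 x1 x2 x3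
theorem en127 (h : In b E x1 x2 x3) : Enc S E (t127 b) (v127 x1 x2 x3) := enc_add (en125 h) (en126 h)

def t128 (b : Bx) : TM := tadd (t124 b) (t106 b)
noncomputable def v128 (x1 x2 x3 : ℝ) : ℝ := v124 x1 x2 x3 + v106 x1 x2 x3
theorem en128 (h : In b E x1 x2 x3) : Enc S E (t128 b) (v128 x1 x2 x3) := enc_add (en124 h) (en106 h)

def t129 (b : Bx) : TM := tscale 1 5 (t127 b)
noncomputable def v129 (x1 x2 x3 : ℝ) : ℝ := ((1 : ℕ) : ℝ) / ((5 : ℕ) : ℝ) * v127 x1 x2 x3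
theorem en129 (h : In b E x1 x2 x3) : Enc S E (t129 b) (v129 x1 x2 x3) := enc_scale 1 (by norm_num) (en127 h)

def t130 (b : Bx) : TM := tscale 1 5 (t128 b)
noncomputable def v130 (x1 x2 x3 : ℝ) : ℝ := ((1 : ℕ) : ℝ) / ((5 : ℕ) : ℝ) * v128 x1 x2 x3
theorem en130 (h : In b E x1 x2 x3) : Enc S E (t130 b) (v130 x1 x2 x3) := enc_scale 1 (by norm_num) (en128 h)

def t131 (b : Bx) : TM := tadd (t111 b) (t129 b)
noncomputable def v131 (x1 x2 x3 : ℝ) : ℝ := v111 x1 x2 x3 + v129 x1 x2 x3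
theorem en131 (h : In b E x1 x2 x3) : Enc S E (t131 b) (v131 x1 x2 x3) := enc_add (en111 h) (en129 h)

def t132 (b : Bx) : TM := tadd (t112 b) (t130 b)
noncomputable def v132 (x1 x2 x3 : ℝ) : ℝ := v112 x1 x2 x3 + v130 x1 x2 x3
theorem en132 (h : In b E x1 x2 x3) : Enc S E (t132 b) (v132 x1 x2 x3) := enc_add (en112 h) (en130 h)

def t133 (b : Bx) : TM := tsub (t131 b) (t54 b)
noncomputable def v133 (x1 x2 x3 : ℝ) : ℝ := v131 x1 x2 x3 - v54 x1 x2 x3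
theorem en133 (h : In b E x1 x2 x3) : Enc S E (t133 b) (v133 x1 x2 x3) := enc_sub (en131 h) (en54 h)

def t134 (b : Bx) : TM := tsub (t133 b) (t56 b)
noncomputable def v134 (x1 x2 x3 : ℝ) : ℝ := v133 x1 x2 x3 - v56 x1 x2 x3
theorem en134 (h : In b E x1 x2 x3) : Enc S E (t134 b) (v134 x1 x2 x3) := enc_sub (en133 h) (en56 h)

def t135 (b : Bx) : TM := tsub (t5 b) (t80 b)
noncomputable def v135 (x1 x2 x3 : ℝ) : ℝ := v5 x1 x2 x3 - v80 x1 x2 x3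
theorem en135 (h : In b E x1 x2 x3) : Enc S E (t135 b) (v135 x1 x2 x3) := enc_sub (en5 h) (en80 h)

def t136 (b : Bx) : TM := tadd (t135 b) (t62 b)
noncomputable def v136 (x1 x2 x3 : ℝ) : ℝ := v135 x1 x2 x3 + v62 x1 x2 x3
theorem en136 (h : In b E x1 x2 x3) : Enc S E (t136 b) (v136 x1 x2 x3) := enc_add (en135 h) (en62 h)

def t137 (b : Bx) : TM := tsq S (t136 b)
noncomputable def v137 (x1 x2 x3 : ℝ) : ℝ := (v136 x1 x2 x3) ^ 2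
theorem en137 (h : In b E x1 x2 x3) : Enc S E (t137 b) (v137 x1 x2 x3) := enc_sq hS (en136 h)

def t138 (b : Bx) : TM := tadd (t66 b) (t136 b)
noncomputable def v138 (x1 x2 x3 : ℝ) : ℝ := v66 x1 x2 x3 + v136 x1 x2 x3
theorem en138 (h : In b E x1 x2 x3) : Enc S E (t138 b) (v138 x1 x2 x3) := enc_add (en66 h) (en136 h)

def t139 (b : Bx) : TM := tmul S (t82 b) (t138 b)
noncomputable def v139 (x1 x2 x3 : ℝ) : ℝ := v82 x1 x2 x3 * v138 x1 x2 x3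
theorem en139 (h : In b E x1 x2 x3) : Enc S E (t139 b) (v139 x1 x2 x3) := enc_mul hS (en82 h) (en138 h)

def t140 (b : Bx) : TM := tsub (t7 b) (t137 b)
noncomputable def v140 (x1 x2 x3 : ℝ) : ℝ := v7 x1 x2 x3 - v137 x1 x2 x3
theorem en140 (h : In b E x1 x2 x3) : Enc S E (t140 b) (v140 x1 x2 x3) := enc_sub (en7 h) (en137 h)

def t141 (b : Bx) : TM := tneg (t139 b)
noncomputable def v141 (x1 x2 x3 : ℝ) : ℝ := -(v139 x1 x2 x3)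
theorem en141 (h : In b E x1 x2 x3) : Enc S E (t141 b) (v141 x1 x2 x3) := enc_neg (en139 h)

def t142 (b : Bx) : TM := tsqrt S (t140 b)
noncomputable def v142 (x1 x2 x3 : ℝ) : ℝ := Real.sqrt (v140 x1 x2 x3)
theorem en142 (h : In b E x1 x2 x3) : Enc S E (t142 b) (v142 x1 x2 x3) := enc_sqrt hS (en140 h)

def t143 (b : Bx) : TM := tadd (t69 b) (t142 b)
noncomputable def v143 (x1 x2 x3 : ℝ) : ℝ := v69 x1 x2 x3 + v142 x1 x2 x3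
theorem en143 (h : In b E x1 x2 x3) : Enc S E (t143 b) (v143 x1 x2 x3) := enc_add (en69 h) (en142 h)

def t144 (b : Bx) : TM := tinv S (t143 b)
noncomputable def v144 (x1 x2 x3 : ℝ) : ℝ := (v143 x1 x2 x3)⁻¹
theorem en144 (h : In b E x1 x2 x3) : Enc S E (t144 b) (v144 x1 x2 x3) := enc_inv hS (en143 h)

def t145 (b : Bx) : TM := tmul S (t141 b) (t144 b)
noncomputable def v145 (x1 x2 x3 : ℝ) : ℝ := v141 x1 x2 x3 * v144 x1 x2 x3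
theorem en145 (h : In b E x1 x2 x3) : Enc S E (t145 b) (v145 x1 x2 x3) := enc_mul hS (en141 h) (en144 h)

def t146 (b : Bx) : TM := tsub (t64 b) (t142 b)
noncomputable def v146 (x1 x2 x3 : ℝ) : ℝ := v64 x1 x2 x3 - v142 x1 x2 x3
theorem en146 (h : In b E x1 x2 x3) : Enc S E (t146 b) (v146 x1 x2 x3) := enc_sub (en64 h) (en142 h)

def t147 (b : Bx) : TM := tneg (t145 b)
noncomputable def v147 (x1 x2 x3 : ℝ) : ℝ := -(v145 x1 x2 x3)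
theorem en147 (h : In b E x1 x2 x3) : Enc S E (t147 b) (v147 x1 x2 x3) := enc_neg (en145 h)

def t148 (b : Bx) : TM := tsub (t13 b) (t80 b)
noncomputable def v148 (x1 x2 x3 : ℝ) : ℝ := v13 x1 x2 x3 - v80 x1 x2 x3
theorem en148 (h : In b E x1 x2 x3) : Enc S E (t148 b) (v148 x1 x2 x3) := enc_sub (en13 h) (en80 h)

def t149 (b : Bx) : TM := tadd (t148 b) (t62 b)
noncomputable def v149 (x1 x2 x3 : ℝ) : ℝ := v148 x1 x2 x3 + v62 x1 x2 x3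
theorem en149 (h : In b E x1 x2 x3) : Enc S E (t149 b) (v149 x1 x2 x3) := enc_add (en148 h) (en62 h)

def t150 (b : Bx) : TM := tsq S (t149 b)
noncomputable def v150 (x1 x2 x3 : ℝ) : ℝ := (v149 x1 x2 x3) ^ 2
theorem en150 (h : In b E x1 x2 x3) : Enc S E (t150 b) (v150 x1 x2 x3) := enc_sq hS (en149 h)

def t151 (b : Bx) : TM := tadd (t72 b) (t149 b)
noncomputable def v151 (x1 x2 x3 : ℝ) : ℝ := v72 x1 x2 x3 + v149 x1 x2 x3
theorem en151 (h : In b E x1 x2 x3) : Enc S E (t151 b) (v151 x1 x2 x3) := enc_add (en72 h) (en149 h)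

def t152 (b : Bx) : TM := tmul S (t82 b) (t151 b)
noncomputable def v152 (x1 x2 x3 : ℝ) : ℝ := v82 x1 x2 x3 * v151 x1 x2 x3
theorem en152 (h : In b E x1 x2 x3) : Enc S E (t152 b) (v152 x1 x2 x3) := enc_mul hS (en82 h) (en151 h)

def t153 (b : Bx) : TM := tsub (t7 b) (t150 b)
noncomputable def v153 (x1 x2 x3 : ℝ) : ℝ := v7 x1 x2 x3 - v150 x1 x2 x3
theorem en153 (h : In b E x1 x2 x3) : Enc S E (t153 b) (v153 x1 x2 x3) := enc_sub (en7 h) (en150 h)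

def t154 (b : Bx) : TM := tneg (t152 b)
noncomputable def v154 (x1 x2 x3 : ℝ) : ℝ := -(v152 x1 x2 x3)
theorem en154 (h : In b E x1 x2 x3) : Enc S E (t154 b) (v154 x1 x2 x3) := enc_neg (en152 h)

def t155 (b : Bx) : TM := tsqrt S (t153 b)
noncomputable def v155 (x1 x2 x3 : ℝ) : ℝ := Real.sqrt (v153 x1 x2 x3)
theorem en155 (h : In b E x1 x2 x3) : Enc S E (t155 b) (v155 x1 x2 x3) := enc_sqrt hS (en153 h)

def t156 (b : Bx) : TM := tadd (t75 b) (t155 b)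
noncomputable def v156 (x1 x2 x3 : ℝ) : ℝ := v75 x1 x2 x3 + v155 x1 x2 x3
theorem en156 (h : In b E x1 x2 x3) : Enc S E (t156 b) (v156 x1 x2 x3) := enc_add (en75 h) (en155 h)

def t157 (b : Bx) : TM := tinv S (t156 b)
noncomputable def v157 (x1 x2 x3 : ℝ) : ℝ := (v156 x1 x2 x3)⁻¹
theorem en157 (h : In b E x1 x2 x3) : Enc S E (t157 b) (v157 x1 x2 x3) := enc_inv hS (en156 h)

def t158 (b : Bx) : TM := tmul S (t154 b) (t157 b)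
noncomputable def v158 (x1 x2 x3 : ℝ) : ℝ := v154 x1 x2 x3 * v157 x1 x2 x3
theorem en158 (h : In b E x1 x2 x3) : Enc S E (t158 b) (v158 x1 x2 x3) := enc_mul hS (en154 h) (en157 h)

def t159 (b : Bx) : TM := tsub (t146 b) (t155 b)
noncomputable def v159 (x1 x2 x3 : ℝ) : ℝ := v146 x1 x2 x3 - v155 x1 x2 x3
theorem en159 (h : In b E x1 x2 x3) : Enc S E (t159 b) (v159 x1 x2 x3) := enc_sub (en146 h) (en155 h)

def t160 (b : Bx) : TM := tsub (t147 b) (t158 b)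
noncomputable def v160 (x1 x2 x3 : ℝ) : ℝ := v147 x1 x2 x3 - v158 x1 x2 x3
theorem en160 (h : In b E x1 x2 x3) : Enc S E (t160 b) (v160 x1 x2 x3) := enc_sub (en147 h) (en158 h)

def t161 (b : Bx) : TM := tnat 2 (t159 b)
noncomputable def v161 (x1 x2 x3 : ℝ) : ℝ := ((2 : ℕ) : ℝ) * v159 x1 x2 x3
theorem en161 (h : In b E x1 x2 x3) : Enc S E (t161 b) (v161 x1 x2 x3) := enc_nat 2 (en159 h)

def t162 (b : Bx) : TM := tnat 2 (t160 b)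
noncomputable def v162 (x1 x2 x3 : ℝ) : ℝ := ((2 : ℕ) : ℝ) * v160 x1 x2 x3
theorem en162 (h : In b E x1 x2 x3) : Enc S E (t162 b) (v162 x1 x2 x3) := enc_nat 2 (en160 h)

def t163 (b : Bx) : TM := tadd (t134 b) (t161 b)
noncomputable def v163 (x1 x2 x3 : ℝ) : ℝ := v134 x1 x2 x3 + v161 x1 x2 x3
theorem en163 (h : In b E x1 x2 x3) : Enc S E (t163 b) (v163 x1 x2 x3) := enc_add (en134 h) (en161 h)

def t164 (b : Bx) : TM := tadd (t132 b) (t162 b)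
noncomputable def v164 (x1 x2 x3 : ℝ) : ℝ := v132 x1 x2 x3 + v162 x1 x2 x3
theorem en164 (h : In b E x1 x2 x3) : Enc S E (t164 b) (v164 x1 x2 x3) := enc_add (en132 h) (en162 h)

def t165 (b : Bx) : TM := tsub (t1 b) (t79 b)
noncomputable def v165 (x1 x2 x3 : ℝ) : ℝ := v1 x1 x2 x3 - v79 x1 x2 x3
theorem en165 (h : In b E x1 x2 x3) : Enc S E (t165 b) (v165 x1 x2 x3) := enc_sub (en1 h) (en79 h)

def t166 (b : Bx) : TM := tscale 1 2 (t165 b)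
noncomputable def v166 (x1 x2 x3 : ℝ) : ℝ := ((1 : ℕ) : ℝ) / ((2 : ℕ) : ℝ) * v165 x1 x2 x3
theorem en166 (h : In b E x1 x2 x3) : Enc S E (t166 b) (v166 x1 x2 x3) := enc_scale 1 (by norm_num) (en165 h)

def t167 (b : Bx) : TM := tscale 1 2 (t82 b)
noncomputable def v167 (x1 x2 x3 : ℝ) : ℝ := ((1 : ℕ) : ℝ) / ((2 : ℕ) : ℝ) * v82 x1 x2 x3
theorem en167 (h : In b E x1 x2 x3) : Enc S E (t167 b) (v167 x1 x2 x3) := enc_scale 1 (by norm_num) (en82 h)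

def t168 (b : Bx) : TM := tsq S (t165 b)
noncomputable def v168 (x1 x2 x3 : ℝ) : ℝ := (v165 x1 x2 x3) ^ 2
theorem en168 (h : In b E x1 x2 x3) : Enc S E (t168 b) (v168 x1 x2 x3) := enc_sq hS (en165 h)

def t169 (b : Bx) : TM := tadd (t5 b) (t165 b)
noncomputable def v169 (x1 x2 x3 : ℝ) : ℝ := v5 x1 x2 x3 + v165 x1 x2 x3
theorem en169 (h : In b E x1 x2 x3) : Enc S E (t169 b) (v169 x1 x2 x3) := enc_add (en5 h) (en165 h)

def t170 (b : Bx) : TM := tmul S (t82 b) (t169 b)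
noncomputable def v170 (x1 x2 x3 : ℝ) : ℝ := v82 x1 x2 x3 * v169 x1 x2 x3
theorem en170 (h : In b E x1 x2 x3) : Enc S E (t170 b) (v170 x1 x2 x3) := enc_mul hS (en82 h) (en169 h)

def t171 (b : Bx) : TM := tsub (t7 b) (t168 b)
noncomputable def v171 (x1 x2 x3 : ℝ) : ℝ := v7 x1 x2 x3 - v168 x1 x2 x3
theorem en171 (h : In b E x1 x2 x3) : Enc S E (t171 b) (v171 x1 x2 x3) := enc_sub (en7 h) (en168 h)

def t172 (b : Bx) : TM := tneg (t170 b)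
noncomputable def v172 (x1 x2 x3 : ℝ) : ℝ := -(v170 x1 x2 x3)
theorem en172 (h : In b E x1 x2 x3) : Enc S E (t172 b) (v172 x1 x2 x3) := enc_neg (en170 h)

def t173 (b : Bx) : TM := tsqrt S (t171 b)
noncomputable def v173 (x1 x2 x3 : ℝ) : ℝ := Real.sqrt (v171 x1 x2 x3)
theorem en173 (h : In b E x1 x2 x3) : Enc S E (t173 b) (v173 x1 x2 x3) := enc_sqrt hS (en171 h)

def t174 (b : Bx) : TM := tadd (t9 b) (t173 b)
noncomputable def v174 (x1 x2 x3 : ℝ) : ℝ := v9 x1 x2 x3 + v173 x1 x2 x3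
theorem en174 (h : In b E x1 x2 x3) : Enc S E (t174 b) (v174 x1 x2 x3) := enc_add (en9 h) (en173 h)

def t175 (b : Bx) : TM := tinv S (t174 b)
noncomputable def v175 (x1 x2 x3 : ℝ) : ℝ := (v174 x1 x2 x3)⁻¹
theorem en175 (h : In b E x1 x2 x3) : Enc S E (t175 b) (v175 x1 x2 x3) := enc_inv hS (en174 h)

def t176 (b : Bx) : TM := tmul S (t172 b) (t175 b)
noncomputable def v176 (x1 x2 x3 : ℝ) : ℝ := v172 x1 x2 x3 * v175 x1 x2 x3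
theorem en176 (h : In b E x1 x2 x3) : Enc S E (t176 b) (v176 x1 x2 x3) := enc_mul hS (en172 h) (en175 h)

def t177 (b : Bx) : TM := tmul S (t1 b) (t173 b)
noncomputable def v177 (x1 x2 x3 : ℝ) : ℝ := v1 x1 x2 x3 * v173 x1 x2 x3
theorem en177 (h : In b E x1 x2 x3) : Enc S E (t177 b) (v177 x1 x2 x3) := enc_mul hS (en1 h) (en173 h)

def t178 (b : Bx) : TM := tmul S (t1 b) (t176 b)
noncomputable def v178 (x1 x2 x3 : ℝ) : ℝ := v1 x1 x2 x3 * v176 x1 x2 x3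
theorem en178 (h : In b E x1 x2 x3) : Enc S E (t178 b) (v178 x1 x2 x3) := enc_mul hS (en1 h) (en176 h)

def t179 (b : Bx) : TM := tadd (t166 b) (t177 b)
noncomputable def v179 (x1 x2 x3 : ℝ) : ℝ := v166 x1 x2 x3 + v177 x1 x2 x3
theorem en179 (h : In b E x1 x2 x3) : Enc S E (t179 b) (v179 x1 x2 x3) := enc_add (en166 h) (en177 h)

def t180 (b : Bx) : TM := tadd (t167 b) (t178 b)
noncomputable def v180 (x1 x2 x3 : ℝ) : ℝ := v167 x1 x2 x3 + v178 x1 x2 x3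
theorem en180 (h : In b E x1 x2 x3) : Enc S E (t180 b) (v180 x1 x2 x3) := enc_add (en167 h) (en178 h)

def t181 (b : Bx) : TM := tadd (t179 b) (t79 b)
noncomputable def v181 (x1 x2 x3 : ℝ) : ℝ := v179 x1 x2 x3 + v79 x1 x2 x3
theorem en181 (h : In b E x1 x2 x3) : Enc S E (t181 b) (v181 x1 x2 x3) := enc_add (en179 h) (en79 h)

def t182 (b : Bx) : TM := tsub (t27 b) (t181 b)
noncomputable def v182 (x1 x2 x3 : ℝ) : ℝ := v27 x1 x2 x3 - v181 x1 x2 x3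
theorem en182 (h : In b E x1 x2 x3) : Enc S E (t182 b) (v182 x1 x2 x3) := enc_sub (en27 h) (en181 h)

def t183 (b : Bx) : TM := tneg (t180 b)
noncomputable def v183 (x1 x2 x3 : ℝ) : ℝ := -(v180 x1 x2 x3)
theorem en183 (h : In b E x1 x2 x3) : Enc S E (t183 b) (v183 x1 x2 x3) := enc_neg (en180 h)

def t184 (b : Bx) : TM := tsq S (t182 b)
noncomputable def v184 (x1 x2 x3 : ℝ) : ℝ := (v182 x1 x2 x3) ^ 2
theorem en184 (h : In b E x1 x2 x3) : Enc S E (t184 b) (v184 x1 x2 x3) := enc_sq hS (en182 h)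

def t185 (b : Bx) : TM := tadd (t81 b) (t182 b)
noncomputable def v185 (x1 x2 x3 : ℝ) : ℝ := v81 x1 x2 x3 + v182 x1 x2 x3
theorem en185 (h : In b E x1 x2 x3) : Enc S E (t185 b) (v185 x1 x2 x3) := enc_add (en81 h) (en182 h)

def t186 (b : Bx) : TM := tmul S (t183 b) (t185 b)
noncomputable def v186 (x1 x2 x3 : ℝ) : ℝ := v183 x1 x2 x3 * v185 x1 x2 x3
theorem en186 (h : In b E x1 x2 x3) : Enc S E (t186 b) (v186 x1 x2 x3) := enc_mul hS (en183 h) (en185 h)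

def t187 (b : Bx) : TM := tsub (t7 b) (t184 b)
noncomputable def v187 (x1 x2 x3 : ℝ) : ℝ := v7 x1 x2 x3 - v184 x1 x2 x3
theorem en187 (h : In b E x1 x2 x3) : Enc S E (t187 b) (v187 x1 x2 x3) := enc_sub (en7 h) (en184 h)

def t188 (b : Bx) : TM := tneg (t186 b)
noncomputable def v188 (x1 x2 x3 : ℝ) : ℝ := -(v186 x1 x2 x3)
theorem en188 (h : In b E x1 x2 x3) : Enc S E (t188 b) (v188 x1 x2 x3) := enc_neg (en186 h)

def t189 (b : Bx) : TM := tsqrt S (t187 b)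
noncomputable def v189 (x1 x2 x3 : ℝ) : ℝ := Real.sqrt (v187 x1 x2 x3)
theorem en189 (h : In b E x1 x2 x3) : Enc S E (t189 b) (v189 x1 x2 x3) := enc_sqrt hS (en187 h)

def t190 (b : Bx) : TM := tadd (t88 b) (t189 b)
noncomputable def v190 (x1 x2 x3 : ℝ) : ℝ := v88 x1 x2 x3 + v189 x1 x2 x3
theorem en190 (h : In b E x1 x2 x3) : Enc S E (t190 b) (v190 x1 x2 x3) := enc_add (en88 h) (en189 h)

def t191 (b : Bx) : TM := tinv S (t190 b)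
noncomputable def v191 (x1 x2 x3 : ℝ) : ℝ := (v190 x1 x2 x3)⁻¹
theorem en191 (h : In b E x1 x2 x3) : Enc S E (t191 b) (v191 x1 x2 x3) := enc_inv hS (en190 h)

def t192 (b : Bx) : TM := tmul S (t188 b) (t191 b)
noncomputable def v192 (x1 x2 x3 : ℝ) : ℝ := v188 x1 x2 x3 * v191 x1 x2 x3
theorem en192 (h : In b E x1 x2 x3) : Enc S E (t192 b) (v192 x1 x2 x3) := enc_mul hS (en188 h) (en191 h)

def t193 (b : Bx) : TM := tnat 2 (t189 b)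
noncomputable def v193 (x1 x2 x3 : ℝ) : ℝ := ((2 : ℕ) : ℝ) * v189 x1 x2 x3
theorem en193 (h : In b E x1 x2 x3) : Enc S E (t193 b) (v193 x1 x2 x3) := enc_nat 2 (en189 h)

def t194 (b : Bx) : TM := tnat 2 (t192 b)
noncomputable def v194 (x1 x2 x3 : ℝ) : ℝ := ((2 : ℕ) : ℝ) * v192 x1 x2 x3
theorem en194 (h : In b E x1 x2 x3) : Enc S E (t194 b) (v194 x1 x2 x3) := enc_nat 2 (en192 h)

def t195 (b : Bx) : TM := tsub (t193 b) (t7 b)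
noncomputable def v195 (x1 x2 x3 : ℝ) : ℝ := v193 x1 x2 x3 - v7 x1 x2 x3
theorem en195 (h : In b E x1 x2 x3) : Enc S E (t195 b) (v195 x1 x2 x3) := enc_sub (en193 h) (en7 h)

def t196 (b : Bx) : TM := tsub (t26 b) (t181 b)
noncomputable def v196 (x1 x2 x3 : ℝ) : ℝ := v26 x1 x2 x3 - v181 x1 x2 x3
theorem en196 (h : In b E x1 x2 x3) : Enc S E (t196 b) (v196 x1 x2 x3) := enc_sub (en26 h) (en181 h)

def t197 (b : Bx) : TM := tsq S (t196 b)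
noncomputable def v197 (x1 x2 x3 : ℝ) : ℝ := (v196 x1 x2 x3) ^ 2
theorem en197 (h : In b E x1 x2 x3) : Enc S E (t197 b) (v197 x1 x2 x3) := enc_sq hS (en196 h)

def t198 (b : Bx) : TM := tadd (t95 b) (t196 b)
noncomputable def v198 (x1 x2 x3 : ℝ) : ℝ := v95 x1 x2 x3 + v196 x1 x2 x3
theorem en198 (h : In b E x1 x2 x3) : Enc S E (t198 b) (v198 x1 x2 x3) := enc_add (en95 h) (en196 h)

def t199 (b : Bx) : TM := tmul S (t183 b) (t198 b)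
noncomputable def v199 (x1 x2 x3 : ℝ) : ℝ := v183 x1 x2 x3 * v198 x1 x2 x3
theorem en199 (h : In b E x1 x2 x3) : Enc S E (t199 b) (v199 x1 x2 x3) := enc_mul hS (en183 h) (en198 h)

def t200 (b : Bx) : TM := tsub (t7 b) (t197 b)
noncomputable def v200 (x1 x2 x3 : ℝ) : ℝ := v7 x1 x2 x3 - v197 x1 x2 x3
theorem en200 (h : In b E x1 x2 x3) : Enc S E (t200 b) (v200 x1 x2 x3) := enc_sub (en7 h) (en197 h)

def t201 (b : Bx) : TM := tneg (t199 b)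
noncomputable def v201 (x1 x2 x3 : ℝ) : ℝ := -(v199 x1 x2 x3)
theorem en201 (h : In b E x1 x2 x3) : Enc S E (t201 b) (v201 x1 x2 x3) := enc_neg (en199 h)

def t202 (b : Bx) : TM := tsqrt S (t200 b)
noncomputable def v202 (x1 x2 x3 : ℝ) : ℝ := Real.sqrt (v200 x1 x2 x3)
theorem en202 (h : In b E x1 x2 x3) : Enc S E (t202 b) (v202 x1 x2 x3) := enc_sqrt hS (en200 h)

def t203 (b : Bx) : TM := tadd (t101 b) (t202 b)
noncomputable def v203 (x1 x2 x3 : ℝ) : ℝ := v101 x1 x2 x3 + v202 x1 x2 x3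
theorem en203 (h : In b E x1 x2 x3) : Enc S E (t203 b) (v203 x1 x2 x3) := enc_add (en101 h) (en202 h)

def t204 (b : Bx) : TM := tinv S (t203 b)
noncomputable def v204 (x1 x2 x3 : ℝ) : ℝ := (v203 x1 x2 x3)⁻¹
theorem en204 (h : In b E x1 x2 x3) : Enc S E (t204 b) (v204 x1 x2 x3) := enc_inv hS (en203 h)

def t205 (b : Bx) : TM := tmul S (t201 b) (t204 b)
noncomputable def v205 (x1 x2 x3 : ℝ) : ℝ := v201 x1 x2 x3 * v204 x1 x2 x3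
theorem en205 (h : In b E x1 x2 x3) : Enc S E (t205 b) (v205 x1 x2 x3) := enc_mul hS (en201 h) (en204 h)

def t206 (b : Bx) : TM := tnat 2 (t202 b)
noncomputable def v206 (x1 x2 x3 : ℝ) : ℝ := ((2 : ℕ) : ℝ) * v202 x1 x2 x3
theorem en206 (h : In b E x1 x2 x3) : Enc S E (t206 b) (v206 x1 x2 x3) := enc_nat 2 (en202 h)

def t207 (b : Bx) : TM := tnat 2 (t205 b)
noncomputable def v207 (x1 x2 x3 : ℝ) : ℝ := ((2 : ℕ) : ℝ) * v205 x1 x2 x3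
theorem en207 (h : In b E x1 x2 x3) : Enc S E (t207 b) (v207 x1 x2 x3) := enc_nat 2 (en205 h)

def t208 (b : Bx) : TM := tadd (t206 b) (t7 b)
noncomputable def v208 (x1 x2 x3 : ℝ) : ℝ := v206 x1 x2 x3 + v7 x1 x2 x3
theorem en208 (h : In b E x1 x2 x3) : Enc S E (t208 b) (v208 x1 x2 x3) := enc_add (en206 h) (en7 h)

def t209 (b : Bx) : TM := tsub (t208 b) (t40 b)
noncomputable def v209 (x1 x2 x3 : ℝ) : ℝ := v208 x1 x2 x3 - v40 x1 x2 x3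
theorem en209 (h : In b E x1 x2 x3) : Enc S E (t209 b) (v209 x1 x2 x3) := enc_sub (en208 h) (en40 h)

def t210 (b : Bx) : TM := tadd (t195 b) (t209 b)
noncomputable def v210 (x1 x2 x3 : ℝ) : ℝ := v195 x1 x2 x3 + v209 x1 x2 x3
theorem en210 (h : In b E x1 x2 x3) : Enc S E (t210 b) (v210 x1 x2 x3) := enc_add (en195 h) (en209 h)

def t211 (b : Bx) : TM := tadd (t194 b) (t207 b)
noncomputable def v211 (x1 x2 x3 : ℝ) : ℝ := v194 x1 x2 x3 + v207 x1 x2 x3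
theorem en211 (h : In b E x1 x2 x3) : Enc S E (t211 b) (v211 x1 x2 x3) := enc_add (en194 h) (en207 h)

def t212 (b : Bx) : TM := tscale 9 5 (t210 b)
noncomputable def v212 (x1 x2 x3 : ℝ) : ℝ := ((9 : ℕ) : ℝ) / ((5 : ℕ) : ℝ) * v210 x1 x2 x3
theorem en212 (h : In b E x1 x2 x3) : Enc S E (t212 b) (v212 x1 x2 x3) := enc_scale 9 (by norm_num) (en210 h)

def t213 (b : Bx) : TM := tscale 9 5 (t211 b)
noncomputable def v213 (x1 x2 x3 : ℝ) : ℝ := ((9 : ℕ) : ℝ) / ((5 : ℕ) : ℝ) * v211 x1 x2 x3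
theorem en213 (h : In b E x1 x2 x3) : Enc S E (t213 b) (v213 x1 x2 x3) := enc_scale 9 (by norm_num) (en211 h)

def t214 (b : Bx) : TM := tsub (t181 b) (t1 b)
noncomputable def v214 (x1 x2 x3 : ℝ) : ℝ := v181 x1 x2 x3 - v1 x1 x2 x3
theorem en214 (h : In b E x1 x2 x3) : Enc S E (t214 b) (v214 x1 x2 x3) := enc_sub (en181 h) (en1 h)

def t215 (b : Bx) : TM := tsq S (t214 b)
noncomputable def v215 (x1 x2 x3 : ℝ) : ℝ := (v214 x1 x2 x3) ^ 2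
theorem en215 (h : In b E x1 x2 x3) : Enc S E (t215 b) (v215 x1 x2 x3) := enc_sq hS (en214 h)

def t216 (b : Bx) : TM := tadd (t113 b) (t214 b)
noncomputable def v216 (x1 x2 x3 : ℝ) : ℝ := v113 x1 x2 x3 + v214 x1 x2 x3
theorem en216 (h : In b E x1 x2 x3) : Enc S E (t216 b) (v216 x1 x2 x3) := enc_add (en113 h) (en214 h)

def t217 (b : Bx) : TM := tmul S (t180 b) (t216 b)
noncomputable def v217 (x1 x2 x3 : ℝ) : ℝ := v180 x1 x2 x3 * v216 x1 x2 x3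
theorem en217 (h : In b E x1 x2 x3) : Enc S E (t217 b) (v217 x1 x2 x3) := enc_mul hS (en180 h) (en216 h)

def t218 (b : Bx) : TM := tsub (t7 b) (t215 b)
noncomputable def v218 (x1 x2 x3 : ℝ) : ℝ := v7 x1 x2 x3 - v215 x1 x2 x3
theorem en218 (h : In b E x1 x2 x3) : Enc S E (t218 b) (v218 x1 x2 x3) := enc_sub (en7 h) (en215 h)

def t219 (b : Bx) : TM := tneg (t217 b)
noncomputable def v219 (x1 x2 x3 : ℝ) : ℝ := -(v217 x1 x2 x3)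
theorem en219 (h : In b E x1 x2 x3) : Enc S E (t219 b) (v219 x1 x2 x3) := enc_neg (en217 h)

def t220 (b : Bx) : TM := tsqrt S (t218 b)
noncomputable def v220 (x1 x2 x3 : ℝ) : ℝ := Real.sqrt (v218 x1 x2 x3)
theorem en220 (h : In b E x1 x2 x3) : Enc S E (t220 b) (v220 x1 x2 x3) := enc_sqrt hS (en218 h)

def t221 (b : Bx) : TM := tadd (t119 b) (t220 b)
noncomputable def v221 (x1 x2 x3 : ℝ) : ℝ := v119 x1 x2 x3 + v220 x1 x2 x3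
theorem en221 (h : In b E x1 x2 x3) : Enc S E (t221 b) (v221 x1 x2 x3) := enc_add (en119 h) (en220 h)

def t222 (b : Bx) : TM := tinv S (t221 b)
noncomputable def v222 (x1 x2 x3 : ℝ) : ℝ := (v221 x1 x2 x3)⁻¹
theorem en222 (h : In b E x1 x2 x3) : Enc S E (t222 b) (v222 x1 x2 x3) := enc_inv hS (en221 h)

def t223 (b : Bx) : TM := tmul S (t219 b) (t222 b)
noncomputable def v223 (x1 x2 x3 : ℝ) : ℝ := v219 x1 x2 x3 * v222 x1 x2 x3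
theorem en223 (h : In b E x1 x2 x3) : Enc S E (t223 b) (v223 x1 x2 x3) := enc_mul hS (en219 h) (en222 h)

def t224 (b : Bx) : TM := tnat 2 (t220 b)
noncomputable def v224 (x1 x2 x3 : ℝ) : ℝ := ((2 : ℕ) : ℝ) * v220 x1 x2 x3
theorem en224 (h : In b E x1 x2 x3) : Enc S E (t224 b) (v224 x1 x2 x3) := enc_nat 2 (en220 h)

def t225 (b : Bx) : TM := tnat 2 (t223 b)
noncomputable def v225 (x1 x2 x3 : ℝ) : ℝ := ((2 : ℕ) : ℝ) * v223 x1 x2 x3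
theorem en225 (h : In b E x1 x2 x3) : Enc S E (t225 b) (v225 x1 x2 x3) := enc_nat 2 (en223 h)

def t226 (b : Bx) : TM := tsub (t224 b) (t7 b)
noncomputable def v226 (x1 x2 x3 : ℝ) : ℝ := v224 x1 x2 x3 - v7 x1 x2 x3
theorem en226 (h : In b E x1 x2 x3) : Enc S E (t226 b) (v226 x1 x2 x3) := enc_sub (en224 h) (en7 h)

def t227 (b : Bx) : TM := tsub (t206 b) (t7 b)
noncomputable def v227 (x1 x2 x3 : ℝ) : ℝ := v206 x1 x2 x3 - v7 x1 x2 x3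
theorem en227 (h : In b E x1 x2 x3) : Enc S E (t227 b) (v227 x1 x2 x3) := enc_sub (en206 h) (en7 h)

def t228 (b : Bx) : TM := tadd (t226 b) (t227 b)
noncomputable def v228 (x1 x2 x3 : ℝ) : ℝ := v226 x1 x2 x3 + v227 x1 x2 x3
theorem en228 (h : In b E x1 x2 x3) : Enc S E (t228 b) (v228 x1 x2 x3) := enc_add (en226 h) (en227 h)

def t229 (b : Bx) : TM := tadd (t225 b) (t207 b)
noncomputable def v229 (x1 x2 x3 : ℝ) : ℝ := v225 x1 x2 x3 + v207 x1 x2 x3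
theorem en229 (h : In b E x1 x2 x3) : Enc S E (t229 b) (v229 x1 x2 x3) := enc_add (en225 h) (en207 h)

def t230 (b : Bx) : TM := tscale 1 5 (t228 b)
noncomputable def v230 (x1 x2 x3 : ℝ) : ℝ := ((1 : ℕ) : ℝ) / ((5 : ℕ) : ℝ) * v228 x1 x2 x3
theorem en230 (h : In b E x1 x2 x3) : Enc S E (t230 b) (v230 x1 x2 x3) := enc_scale 1 (by norm_num) (en228 h)

def t231 (b : Bx) : TM := tscale 1 5 (t229 b)
noncomputable def v231 (x1 x2 x3 : ℝ) : ℝ := ((1 : ℕ) : ℝ) / ((5 : ℕ) : ℝ) * v229 x1 x2 x3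
theorem en231 (h : In b E x1 x2 x3) : Enc S E (t231 b) (v231 x1 x2 x3) := enc_scale 1 (by norm_num) (en229 h)

def t232 (b : Bx) : TM := tadd (t212 b) (t230 b)
noncomputable def v232 (x1 x2 x3 : ℝ) : ℝ := v212 x1 x2 x3 + v230 x1 x2 x3
theorem en232 (h : In b E x1 x2 x3) : Enc S E (t232 b) (v232 x1 x2 x3) := enc_add (en212 h) (en230 h)

def t233 (b : Bx) : TM := tadd (t213 b) (t231 b)
noncomputable def v233 (x1 x2 x3 : ℝ) : ℝ := v213 x1 x2 x3 + v231 x1 x2 x3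
theorem en233 (h : In b E x1 x2 x3) : Enc S E (t233 b) (v233 x1 x2 x3) := enc_add (en213 h) (en231 h)

def t234 (b : Bx) : TM := tsub (t232 b) (t54 b)
noncomputable def v234 (x1 x2 x3 : ℝ) : ℝ := v232 x1 x2 x3 - v54 x1 x2 x3
theorem en234 (h : In b E x1 x2 x3) : Enc S E (t234 b) (v234 x1 x2 x3) := enc_sub (en232 h) (en54 h)

def t235 (b : Bx) : TM := tsub (t234 b) (t56 b)
noncomputable def v235 (x1 x2 x3 : ℝ) : ℝ := v234 x1 x2 x3 - v56 x1 x2 x3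
theorem en235 (h : In b E x1 x2 x3) : Enc S E (t235 b) (v235 x1 x2 x3) := enc_sub (en234 h) (en56 h)

def t236 (b : Bx) : TM := tmul S (t1 b) (t165 b)
noncomputable def v236 (x1 x2 x3 : ℝ) : ℝ := v1 x1 x2 x3 * v165 x1 x2 x3
theorem en236 (h : In b E x1 x2 x3) : Enc S E (t236 b) (v236 x1 x2 x3) := enc_mul hS (en1 h) (en165 h)

def t237 (b : Bx) : TM := tmul S (t1 b) (t82 b)
noncomputable def v237 (x1 x2 x3 : ℝ) : ℝ := v1 x1 x2 x3 * v82 x1 x2 x3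
theorem en237 (h : In b E x1 x2 x3) : Enc S E (t237 b) (v237 x1 x2 x3) := enc_mul hS (en1 h) (en82 h)

def t238 (b : Bx) : TM := tscale 1 2 (t173 b)
noncomputable def v238 (x1 x2 x3 : ℝ) : ℝ := ((1 : ℕ) : ℝ) / ((2 : ℕ) : ℝ) * v173 x1 x2 x3
theorem en238 (h : In b E x1 x2 x3) : Enc S E (t238 b) (v238 x1 x2 x3) := enc_scale 1 (by norm_num) (en173 h)

def t239 (b : Bx) : TM := tscale 1 2 (t176 b)
noncomputable def v239 (x1 x2 x3 : ℝ) : ℝ := ((1 : ℕ) : ℝ) / ((2 : ℕ) : ℝ) * v176 x1 x2 x3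
theorem en239 (h : In b E x1 x2 x3) : Enc S E (t239 b) (v239 x1 x2 x3) := enc_scale 1 (by norm_num) (en176 h)

def t240 (b : Bx) : TM := tsub (t236 b) (t238 b)
noncomputable def v240 (x1 x2 x3 : ℝ) : ℝ := v236 x1 x2 x3 - v238 x1 x2 x3
theorem en240 (h : In b E x1 x2 x3) : Enc S E (t240 b) (v240 x1 x2 x3) := enc_sub (en236 h) (en238 h)

def t241 (b : Bx) : TM := tsub (t237 b) (t239 b)
noncomputable def v241 (x1 x2 x3 : ℝ) : ℝ := v237 x1 x2 x3 - v239 x1 x2 x3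
theorem en241 (h : In b E x1 x2 x3) : Enc S E (t241 b) (v241 x1 x2 x3) := enc_sub (en237 h) (en239 h)

def t242 (b : Bx) : TM := tadd (t173 b) (t240 b)
noncomputable def v242 (x1 x2 x3 : ℝ) : ℝ := v173 x1 x2 x3 + v240 x1 x2 x3
theorem en242 (h : In b E x1 x2 x3) : Enc S E (t242 b) (v242 x1 x2 x3) := enc_add (en173 h) (en240 h)

def t243 (b : Bx) : TM := tadd (t176 b) (t241 b)
noncomputable def v243 (x1 x2 x3 : ℝ) : ℝ := v176 x1 x2 x3 + v241 x1 x2 x3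
theorem en243 (h : In b E x1 x2 x3) : Enc S E (t243 b) (v243 x1 x2 x3) := enc_add (en176 h) (en241 h)

def t244 (b : Bx) : TM := tadd (t242 b) (t7 b)
noncomputable def v244 (x1 x2 x3 : ℝ) : ℝ := v242 x1 x2 x3 + v7 x1 x2 x3
theorem en244 (h : In b E x1 x2 x3) : Enc S E (t244 b) (v244 x1 x2 x3) := enc_add (en242 h) (en7 h)

def t245 (b : Bx) : TM := tsub (t165 b) (t181 b)
noncomputable def v245 (x1 x2 x3 : ℝ) : ℝ := v165 x1 x2 x3 - v181 x1 x2 x3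
theorem en245 (h : In b E x1 x2 x3) : Enc S E (t245 b) (v245 x1 x2 x3) := enc_sub (en165 h) (en181 h)

def t246 (b : Bx) : TM := tsub (t82 b) (t180 b)
noncomputable def v246 (x1 x2 x3 : ℝ) : ℝ := v82 x1 x2 x3 - v180 x1 x2 x3
theorem en246 (h : In b E x1 x2 x3) : Enc S E (t246 b) (v246 x1 x2 x3) := enc_sub (en82 h) (en180 h)

def t247 (b : Bx) : TM := tadd (t245 b) (t62 b)
noncomputable def v247 (x1 x2 x3 : ℝ) : ℝ := v245 x1 x2 x3 + v62 x1 x2 x3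
theorem en247 (h : In b E x1 x2 x3) : Enc S E (t247 b) (v247 x1 x2 x3) := enc_add (en245 h) (en62 h)

def t248 (b : Bx) : TM := tsq S (t247 b)
noncomputable def v248 (x1 x2 x3 : ℝ) : ℝ := (v247 x1 x2 x3) ^ 2
theorem en248 (h : In b E x1 x2 x3) : Enc S E (t248 b) (v248 x1 x2 x3) := enc_sq hS (en247 h)

def t249 (b : Bx) : TM := tadd (t136 b) (t247 b)
noncomputable def v249 (x1 x2 x3 : ℝ) : ℝ := v136 x1 x2 x3 + v247 x1 x2 x3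
theorem en249 (h : In b E x1 x2 x3) : Enc S E (t249 b) (v249 x1 x2 x3) := enc_add (en136 h) (en247 h)

def t250 (b : Bx) : TM := tmul S (t246 b) (t249 b)
noncomputable def v250 (x1 x2 x3 : ℝ) : ℝ := v246 x1 x2 x3 * v249 x1 x2 x3
theorem en250 (h : In b E x1 x2 x3) : Enc S E (t250 b) (v250 x1 x2 x3) := enc_mul hS (en246 h) (en249 h)

def t251 (b : Bx) : TM := tsub (t7 b) (t248 b)
noncomputable def v251 (x1 x2 x3 : ℝ) : ℝ := v7 x1 x2 x3 - v248 x1 x2 x3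
theorem en251 (h : In b E x1 x2 x3) : Enc S E (t251 b) (v251 x1 x2 x3) := enc_sub (en7 h) (en248 h)

def t252 (b : Bx) : TM := tneg (t250 b)
noncomputable def v252 (x1 x2 x3 : ℝ) : ℝ := -(v250 x1 x2 x3)
theorem en252 (h : In b E x1 x2 x3) : Enc S E (t252 b) (v252 x1 x2 x3) := enc_neg (en250 h)

def t253 (b : Bx) : TM := tsqrt S (t251 b)
noncomputable def v253 (x1 x2 x3 : ℝ) : ℝ := Real.sqrt (v251 x1 x2 x3)
theorem en253 (h : In b E x1 x2 x3) : Enc S E (t253 b) (v253 x1 x2 x3) := enc_sqrt hS (en251 h)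

def t254 (b : Bx) : TM := tadd (t142 b) (t253 b)
noncomputable def v254 (x1 x2 x3 : ℝ) : ℝ := v142 x1 x2 x3 + v253 x1 x2 x3
theorem en254 (h : In b E x1 x2 x3) : Enc S E (t254 b) (v254 x1 x2 x3) := enc_add (en142 h) (en253 h)

def t255 (b : Bx) : TM := tinv S (t254 b)
noncomputable def v255 (x1 x2 x3 : ℝ) : ℝ := (v254 x1 x2 x3)⁻¹
theorem en255 (h : In b E x1 x2 x3) : Enc S E (t255 b) (v255 x1 x2 x3) := enc_inv hS (en254 h)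

def t256 (b : Bx) : TM := tmul S (t252 b) (t255 b)
noncomputable def v256 (x1 x2 x3 : ℝ) : ℝ := v252 x1 x2 x3 * v255 x1 x2 x3
theorem en256 (h : In b E x1 x2 x3) : Enc S E (t256 b) (v256 x1 x2 x3) := enc_mul hS (en252 h) (en255 h)

def t257 (b : Bx) : TM := tsub (t244 b) (t253 b)
noncomputable def v257 (x1 x2 x3 : ℝ) : ℝ := v244 x1 x2 x3 - v253 x1 x2 x3
theorem en257 (h : In b E x1 x2 x3) : Enc S E (t257 b) (v257 x1 x2 x3) := enc_sub (en244 h) (en253 h)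

def t258 (b : Bx) : TM := tsub (t243 b) (t256 b)
noncomputable def v258 (x1 x2 x3 : ℝ) : ℝ := v243 x1 x2 x3 - v256 x1 x2 x3
theorem en258 (h : In b E x1 x2 x3) : Enc S E (t258 b) (v258 x1 x2 x3) := enc_sub (en243 h) (en256 h)

def t259 (b : Bx) : TM := tsub (t179 b) (t181 b)
noncomputable def v259 (x1 x2 x3 : ℝ) : ℝ := v179 x1 x2 x3 - v181 x1 x2 x3
theorem en259 (h : In b E x1 x2 x3) : Enc S E (t259 b) (v259 x1 x2 x3) := enc_sub (en179 h) (en181 h)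

def t260 (b : Bx) : TM := tsub (t180 b) (t180 b)
noncomputable def v260 (x1 x2 x3 : ℝ) : ℝ := v180 x1 x2 x3 - v180 x1 x2 x3
theorem en260 (h : In b E x1 x2 x3) : Enc S E (t260 b) (v260 x1 x2 x3) := enc_sub (en180 h) (en180 h)

def t261 (b : Bx) : TM := tadd (t259 b) (t62 b)
noncomputable def v261 (x1 x2 x3 : ℝ) : ℝ := v259 x1 x2 x3 + v62 x1 x2 x3
theorem en261 (h : In b E x1 x2 x3) : Enc S E (t261 b) (v261 x1 x2 x3) := enc_add (en259 h) (en62 h)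

def t262 (b : Bx) : TM := tsq S (t261 b)
noncomputable def v262 (x1 x2 x3 : ℝ) : ℝ := (v261 x1 x2 x3) ^ 2
theorem en262 (h : In b E x1 x2 x3) : Enc S E (t262 b) (v262 x1 x2 x3) := enc_sq hS (en261 h)

def t263 (b : Bx) : TM := tadd (t149 b) (t261 b)
noncomputable def v263 (x1 x2 x3 : ℝ) : ℝ := v149 x1 x2 x3 + v261 x1 x2 x3
theorem en263 (h : In b E x1 x2 x3) : Enc S E (t263 b) (v263 x1 x2 x3) := enc_add (en149 h) (en261 h)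

def t264 (b : Bx) : TM := tmul S (t260 b) (t263 b)
noncomputable def v264 (x1 x2 x3 : ℝ) : ℝ := v260 x1 x2 x3 * v263 x1 x2 x3
theorem en264 (h : In b E x1 x2 x3) : Enc S E (t264 b) (v264 x1 x2 x3) := enc_mul hS (en260 h) (en263 h)

def t265 (b : Bx) : TM := tsub (t7 b) (t262 b)
noncomputable def v265 (x1 x2 x3 : ℝ) : ℝ := v7 x1 x2 x3 - v262 x1 x2 x3
theorem en265 (h : In b E x1 x2 x3) : Enc S E (t265 b) (v265 x1 x2 x3) := enc_sub (en7 h) (en262 h)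

def t266 (b : Bx) : TM := tneg (t264 b)
noncomputable def v266 (x1 x2 x3 : ℝ) : ℝ := -(v264 x1 x2 x3)
theorem en266 (h : In b E x1 x2 x3) : Enc S E (t266 b) (v266 x1 x2 x3) := enc_neg (en264 h)

def t267 (b : Bx) : TM := tsqrt S (t265 b)
noncomputable def v267 (x1 x2 x3 : ℝ) : ℝ := Real.sqrt (v265 x1 x2 x3)
theorem en267 (h : In b E x1 x2 x3) : Enc S E (t267 b) (v267 x1 x2 x3) := enc_sqrt hS (en265 h)

def t268 (b : Bx) : TM := tadd (t155 b) (t267 b)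
noncomputable def v268 (x1 x2 x3 : ℝ) : ℝ := v155 x1 x2 x3 + v267 x1 x2 x3
theorem en268 (h : In b E x1 x2 x3) : Enc S E (t268 b) (v268 x1 x2 x3) := enc_add (en155 h) (en267 h)

def t269 (b : Bx) : TM := tinv S (t268 b)
noncomputable def v269 (x1 x2 x3 : ℝ) : ℝ := (v268 x1 x2 x3)⁻¹
theorem en269 (h : In b E x1 x2 x3) : Enc S E (t269 b) (v269 x1 x2 x3) := enc_inv hS (en268 h)

def t270 (b : Bx) : TM := tmul S (t266 b) (t269 b)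
noncomputable def v270 (x1 x2 x3 : ℝ) : ℝ := v266 x1 x2 x3 * v269 x1 x2 x3
theorem en270 (h : In b E x1 x2 x3) : Enc S E (t270 b) (v270 x1 x2 x3) := enc_mul hS (en266 h) (en269 h)

def t271 (b : Bx) : TM := tsub (t257 b) (t267 b)
noncomputable def v271 (x1 x2 x3 : ℝ) : ℝ := v257 x1 x2 x3 - v267 x1 x2 x3
theorem en271 (h : In b E x1 x2 x3) : Enc S E (t271 b) (v271 x1 x2 x3) := enc_sub (en257 h) (en267 h)

def t272 (b : Bx) : TM := tsub (t258 b) (t270 b)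
noncomputable def v272 (x1 x2 x3 : ℝ) : ℝ := v258 x1 x2 x3 - v270 x1 x2 x3
theorem en272 (h : In b E x1 x2 x3) : Enc S E (t272 b) (v272 x1 x2 x3) := enc_sub (en258 h) (en270 h)

def t273 (b : Bx) : TM := tnat 2 (t271 b)
noncomputable def v273 (x1 x2 x3 : ℝ) : ℝ := ((2 : ℕ) : ℝ) * v271 x1 x2 x3
theorem en273 (h : In b E x1 x2 x3) : Enc S E (t273 b) (v273 x1 x2 x3) := enc_nat 2 (en271 h)

def t274 (b : Bx) : TM := tnat 2 (t272 b)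
noncomputable def v274 (x1 x2 x3 : ℝ) : ℝ := ((2 : ℕ) : ℝ) * v272 x1 x2 x3
theorem en274 (h : In b E x1 x2 x3) : Enc S E (t274 b) (v274 x1 x2 x3) := enc_nat 2 (en272 h)

def t275 (b : Bx) : TM := tadd (t235 b) (t273 b)
noncomputable def v275 (x1 x2 x3 : ℝ) : ℝ := v235 x1 x2 x3 + v273 x1 x2 x3
theorem en275 (h : In b E x1 x2 x3) : Enc S E (t275 b) (v275 x1 x2 x3) := enc_add (en235 h) (en273 h)

def t276 (b : Bx) : TM := tadd (t233 b) (t274 b)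
noncomputable def v276 (x1 x2 x3 : ℝ) : ℝ := v233 x1 x2 x3 + v274 x1 x2 x3
theorem en276 (h : In b E x1 x2 x3) : Enc S E (t276 b) (v276 x1 x2 x3) := enc_add (en233 h) (en274 h)

end

def tst (b : Bx) : Bool := and (pos (t164 b)) (and (pos (t276 b)) (and (pos (t30 b)) (and (pos (t86 b)) (and (pos (t36 b)) (and (pos (t99 b)) (and (pos (t44 b)) (and (pos (t117 b)) (and (pos (t68 b)) (and (pos (t140 b)) (and (pos (t74 b)) (and (pos (t153 b)) (and (pos (t8 b)) (and (pos (t171 b)) (and (pos (t187 b)) (and (pos (t200 b)) (and (pos (t218 b)) (and (pos (t251 b)) (pos (t265 b)))))))))))))))))))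

def f (b : Bx) : Nat := go (tst b) 1 (t78 b) b

/-- the conditions -/
def Cnd (x1 x2 x3 : ℝ) : Prop := 0 < v30 x1 x2 x3 ∧ 0 < v86 x1 x2 x3 ∧ 0 < v36 x1 x2 x3 ∧ 0 < v99 x1 x2 x3 ∧ 0 < v44 x1 x2 x3 ∧ 0 < v117 x1 x2 x3 ∧ 0 < v68 x1 x2 x3 ∧ 0 < v140 x1 x2 x3 ∧ 0 < v74 x1 x2 x3 ∧ 0 < v153 x1 x2 x3 ∧ 0 < v8 x1 x2 x3 ∧ 0 < v171 x1 x2 x3 ∧ 0 < v187 x1 x2 x3 ∧ 0 < v200 x1 x2 x3 ∧ 0 < v218 x1 x2 x3 ∧ 0 < v251 x1 x2 x3 ∧ 0 < v265 x1 x2 x3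

def Q (x1 x2 x3 : ℝ) : Prop := (0 < v164 x1 x2 x3 ∧ 0 < v276 x1 x2 x3 ∧ Cnd x1 x2 x3)

theorem f_sound (b : Bx) (hb : f b = 0) (x1 x2 x3 : ℝ) (hm : Mem S b x1 x2 x3) : Q x1 x2 x3 := by
  obtain ⟨E, h⟩ := pt_of_mem hm
  have h : In b E x1 x2 x3 := h
  have ht := go_sound hb
  unfold tst at ht
  unfold Q
  obtain ⟨k1, ht⟩ := Bool.and_eq_true_iff.mp ht
  have k1164 := pos_sound hS (en164 h) k1
  obtain ⟨k1, ht⟩ := Bool.and_eq_true_iff.mp ht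
  have k1276 := pos_sound hS (en276 h) k1
  obtain ⟨k1, ht⟩ := Bool.and_eq_true_iff.mp ht
  have k1030 := pos_sound hS (en30 h) k1
  obtain ⟨k1, ht⟩ := Bool.and_eq_true_iff.mp ht
  have k1086 := pos_sound hS (en86 h) k1
  obtain ⟨k1, ht⟩ := Bool.and_eq_true_iff.mp ht
  have k1036 := pos_sound hS (en36 h) k1
  obtain ⟨k1, ht⟩ := Bool.and_eq_true_iff.mp ht
  have k1099 := pos_sound hS (en99 h) k1
  obtain ⟨k1, ht⟩ := Bool.and_eq_true_iff.mp ht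
  have k1044 := pos_sound hS (en44 h) k1
  obtain ⟨k1, ht⟩ := Bool.and_eq_true_iff.mp ht
  have k1117 := pos_sound hS (en117 h) k1
  obtain ⟨k1, ht⟩ := Bool.and_eq_true_iff.mp ht
  have k1068 := pos_sound hS (en68 h) k1
  obtain ⟨k1, ht⟩ := Bool.and_eq_true_iff.mp ht
  have k1140 := pos_sound hS (en140 h) k1
  obtain ⟨k1, ht⟩ := Bool.and_eq_true_iff.mp ht
  have k1074 := pos_sound hS (en74 h) k1
  obtain ⟨k1, ht⟩ := Bool.and_eq_true_iff.mp ht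
  have k1153 := pos_sound hS (en153 h) k1
  obtain ⟨k1, ht⟩ := Bool.and_eq_true_iff.mp ht
  have k1008 := pos_sound hS (en8 h) k1
  obtain ⟨k1, ht⟩ := Bool.and_eq_true_iff.mp ht
  have k1171 := pos_sound hS (en171 h) k1
  obtain ⟨k1, ht⟩ := Bool.and_eq_true_iff.mp ht
  have k1187 := pos_sound hS (en187 h) k1
  obtain ⟨k1, ht⟩ := Bool.and_eq_true_iff.mp ht
  have k1200 := pos_sound hS (en200 h) k1
  obtain ⟨k1, ht⟩ := Bool.and_eq_true_iff.mp ht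
  have k1218 := pos_sound hS (en218 h) k1
  obtain ⟨k1, ht⟩ := Bool.and_eq_true_iff.mp ht
  have k1251 := pos_sound hS (en251 h) k1
  have k1265 := pos_sound hS (en265 h) ht
  exact ⟨k1164, k1276, k1030, k1086, k1036, k1099, k1044, k1117, k1068, k1140, k1074, k1153, k1008, k1171, k1187, k1200, k1218, k1251, k1265⟩

theorem sa_3 {x1 x2 x3 : ℝ} (_hc : Cnd x1 x2 x3) :
    v3 x1 x2 x3 = v79 x1 x2 x3 + x2 * v7 x1 x2 x3 := svar _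

theorem sa_18 {x1 x2 x3 : ℝ} (hc : Cnd x1 x2 x3) :
    v18 x1 x2 x3 = v80 x1 x2 x3 + x2 * v7 x1 x2 x3 := saddr (sa_3 hc)

theorem sa_28 {x1 x2 x3 : ℝ} (hc : Cnd x1 x2 x3) :
    v28 x1 x2 x3 = v81 x1 x2 x3 + x2 * v82 x1 x2 x3 := ssubr (sa_18 hc)

theorem sa_29 {x1 x2 x3 : ℝ} (hc : Cnd x1 x2 x3) :
    v29 x1 x2 x3 = v83 x1 x2 x3 + x2 * v85 x1 x2 x3 := ssq (sa_28 hc)

theorem sa_30 {x1 x2 x3 : ℝ} (hc : Cnd x1 x2 x3) :
    v30 x1 x2 x3 = v86 x1 x2 x3 + x2 * v87 x1 x2 x3 := ssubr (sa_29 hc)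

theorem sa_31 {x1 x2 x3 : ℝ} (hc : Cnd x1 x2 x3) :
    v31 x1 x2 x3 = v88 x1 x2 x3 + x2 * v91 x1 x2 x3 := ssqrt (sa_30 hc) hc.1 hc.2.1

theorem sa_32 {x1 x2 x3 : ℝ} (hc : Cnd x1 x2 x3) :
    v32 x1 x2 x3 = v92 x1 x2 x3 + x2 * v93 x1 x2 x3 := smulr (sa_31 hc)

theorem sa_33 {x1 x2 x3 : ℝ} (hc : Cnd x1 x2 x3) :
    v33 x1 x2 x3 = v94 x1 x2 x3 + x2 * v93 x1 x2 x3 := ssubl (sa_32 hc)

theorem sa_34 {x1 x2 x3 : ℝ} (hc : Cnd x1 x2 x3) :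
    v34 x1 x2 x3 = v95 x1 x2 x3 + x2 * v82 x1 x2 x3 := ssubr (sa_18 hc)

theorem sa_35 {x1 x2 x3 : ℝ} (hc : Cnd x1 x2 x3) :
    v35 x1 x2 x3 = v96 x1 x2 x3 + x2 * v98 x1 x2 x3 := ssq (sa_34 hc)

theorem sa_36 {x1 x2 x3 : ℝ} (hc : Cnd x1 x2 x3) :
    v36 x1 x2 x3 = v99 x1 x2 x3 + x2 * v100 x1 x2 x3 := ssubr (sa_35 hc)

theorem sa_37 {x1 x2 x3 : ℝ} (hc : Cnd x1 x2 x3) :
    v37 x1 x2 x3 = v101 x1 x2 x3 + x2 * v104 x1 x2 x3 := ssqrt (sa_36 hc) hc.2.2.1 hc.2.2.2.1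

theorem sa_38 {x1 x2 x3 : ℝ} (hc : Cnd x1 x2 x3) :
    v38 x1 x2 x3 = v105 x1 x2 x3 + x2 * v106 x1 x2 x3 := smulr (sa_37 hc)

theorem sa_39 {x1 x2 x3 : ℝ} (hc : Cnd x1 x2 x3) :
    v39 x1 x2 x3 = v107 x1 x2 x3 + x2 * v106 x1 x2 x3 := saddl (sa_38 hc)

theorem sa_41 {x1 x2 x3 : ℝ} (hc : Cnd x1 x2 x3) :
    v41 x1 x2 x3 = v108 x1 x2 x3 + x2 * v106 x1 x2 x3 := ssubl (sa_39 hc)

theorem sa_49 {x1 x2 x3 : ℝ} (hc : Cnd x1 x2 x3) :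
    v49 x1 x2 x3 = v109 x1 x2 x3 + x2 * v110 x1 x2 x3 := sadd (sa_33 hc) (sa_41 hc)

theorem sa_50 {x1 x2 x3 : ℝ} (hc : Cnd x1 x2 x3) :
    v50 x1 x2 x3 = v111 x1 x2 x3 + x2 * v112 x1 x2 x3 := smulr (sa_49 hc)

theorem sa_42 {x1 x2 x3 : ℝ} (hc : Cnd x1 x2 x3) :
    v42 x1 x2 x3 = v113 x1 x2 x3 + x2 * v7 x1 x2 x3 := ssubl (sa_18 hc)

theorem sa_43 {x1 x2 x3 : ℝ} (hc : Cnd x1 x2 x3) :
    v43 x1 x2 x3 = v114 x1 x2 x3 + x2 * v116 x1 x2 x3 := ssq (sa_42 hc)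

theorem sa_44 {x1 x2 x3 : ℝ} (hc : Cnd x1 x2 x3) :
    v44 x1 x2 x3 = v117 x1 x2 x3 + x2 * v118 x1 x2 x3 := ssubr (sa_43 hc)

theorem sa_45 {x1 x2 x3 : ℝ} (hc : Cnd x1 x2 x3) :
    v45 x1 x2 x3 = v119 x1 x2 x3 + x2 * v122 x1 x2 x3 := ssqrt (sa_44 hc) hc.2.2.2.2.1 hc.2.2.2.2.2.1

theorem sa_46 {x1 x2 x3 : ℝ} (hc : Cnd x1 x2 x3) :
    v46 x1 x2 x3 = v123 x1 x2 x3 + x2 * v124 x1 x2 x3 := smulr (sa_45 hc)

theorem sa_47 {x1 x2 x3 : ℝ} (hc : Cnd x1 x2 x3) :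
    v47 x1 x2 x3 = v125 x1 x2 x3 + x2 * v124 x1 x2 x3 := ssubl (sa_46 hc)

theorem sa_48 {x1 x2 x3 : ℝ} (hc : Cnd x1 x2 x3) :
    v48 x1 x2 x3 = v126 x1 x2 x3 + x2 * v106 x1 x2 x3 := ssubl (sa_38 hc)

theorem sa_51 {x1 x2 x3 : ℝ} (hc : Cnd x1 x2 x3) :
    v51 x1 x2 x3 = v127 x1 x2 x3 + x2 * v128 x1 x2 x3 := sadd (sa_47 hc) (sa_48 hc)

theorem sa_52 {x1 x2 x3 : ℝ} (hc : Cnd x1 x2 x3) :
    v52 x1 x2 x3 = v129 x1 x2 x3 + x2 * v130 x1 x2 x3 := smulr (sa_51 hc)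

theorem sa_53 {x1 x2 x3 : ℝ} (hc : Cnd x1 x2 x3) :
    v53 x1 x2 x3 = v131 x1 x2 x3 + x2 * v132 x1 x2 x3 := sadd (sa_50 hc) (sa_52 hc)

theorem sa_55 {x1 x2 x3 : ℝ} (hc : Cnd x1 x2 x3) :
    v55 x1 x2 x3 = v133 x1 x2 x3 + x2 * v132 x1 x2 x3 := ssubl (sa_53 hc)

theorem sa_57 {x1 x2 x3 : ℝ} (hc : Cnd x1 x2 x3) :
    v57 x1 x2 x3 = v134 x1 x2 x3 + x2 * v132 x1 x2 x3 := ssubl (sa_55 hc)

theorem sa_65 {x1 x2 x3 : ℝ} (hc : Cnd x1 x2 x3) :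
    v65 x1 x2 x3 = v135 x1 x2 x3 + x2 * v82 x1 x2 x3 := ssubr (sa_18 hc)

theorem sa_66 {x1 x2 x3 : ℝ} (hc : Cnd x1 x2 x3) :
    v66 x1 x2 x3 = v136 x1 x2 x3 + x2 * v82 x1 x2 x3 := saddl (sa_65 hc)

theorem sa_67 {x1 x2 x3 : ℝ} (hc : Cnd x1 x2 x3) :
    v67 x1 x2 x3 = v137 x1 x2 x3 + x2 * v139 x1 x2 x3 := ssq (sa_66 hc)

theorem sa_68 {x1 x2 x3 : ℝ} (hc : Cnd x1 x2 x3) :
    v68 x1 x2 x3 = v140 x1 x2 x3 + x2 * v141 x1 x2 x3 := ssubr (sa_67 hc)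

theorem sa_69 {x1 x2 x3 : ℝ} (hc : Cnd x1 x2 x3) :
    v69 x1 x2 x3 = v142 x1 x2 x3 + x2 * v145 x1 x2 x3 := ssqrt (sa_68 hc) hc.2.2.2.2.2.2.1 hc.2.2.2.2.2.2.2.1

theorem sa_70 {x1 x2 x3 : ℝ} (hc : Cnd x1 x2 x3) :
    v70 x1 x2 x3 = v146 x1 x2 x3 + x2 * v147 x1 x2 x3 := ssubr (sa_69 hc)

theorem sa_71 {x1 x2 x3 : ℝ} (hc : Cnd x1 x2 x3) :
    v71 x1 x2 x3 = v148 x1 x2 x3 + x2 * v82 x1 x2 x3 := ssubr (sa_18 hc)

theorem sa_72 {x1 x2 x3 : ℝ} (hc : Cnd x1 x2 x3) :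
    v72 x1 x2 x3 = v149 x1 x2 x3 + x2 * v82 x1 x2 x3 := saddl (sa_71 hc)

theorem sa_73 {x1 x2 x3 : ℝ} (hc : Cnd x1 x2 x3) :
    v73 x1 x2 x3 = v150 x1 x2 x3 + x2 * v152 x1 x2 x3 := ssq (sa_72 hc)

theorem sa_74 {x1 x2 x3 : ℝ} (hc : Cnd x1 x2 x3) :
    v74 x1 x2 x3 = v153 x1 x2 x3 + x2 * v154 x1 x2 x3 := ssubr (sa_73 hc)

theorem sa_75 {x1 x2 x3 : ℝ} (hc : Cnd x1 x2 x3) :
    v75 x1 x2 x3 = v155 x1 x2 x3 + x2 * v158 x1 x2 x3 := ssqrt (sa_74 hc) hc.2.2.2.2.2.2.2.2.1 hc.2.2.2.2.2.2.2.2.2.1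

theorem sa_76 {x1 x2 x3 : ℝ} (hc : Cnd x1 x2 x3) :
    v76 x1 x2 x3 = v159 x1 x2 x3 + x2 * v160 x1 x2 x3 := ssub (sa_70 hc) (sa_75 hc)

theorem sa_77 {x1 x2 x3 : ℝ} (hc : Cnd x1 x2 x3) :
    v77 x1 x2 x3 = v161 x1 x2 x3 + x2 * v162 x1 x2 x3 := smulr (sa_76 hc)

theorem sa_78 {x1 x2 x3 : ℝ} (hc : Cnd x1 x2 x3) :
    v78 x1 x2 x3 = v163 x1 x2 x3 + x2 * v164 x1 x2 x3 := sadd (sa_57 hc) (sa_77 hc)

theorem sb_4 {x1 x2 x3 : ℝ} (_hc : Cnd x1 x2 x3) :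
    v4 x1 x2 x3 = v79 x1 x2 x3 + x3 * v7 x1 x2 x3 := svar _

theorem sb_5 {x1 x2 x3 : ℝ} (hc : Cnd x1 x2 x3) :
    v5 x1 x2 x3 = v165 x1 x2 x3 + x3 * v82 x1 x2 x3 := ssubr (sb_4 hc)

theorem sb_11 {x1 x2 x3 : ℝ} (hc : Cnd x1 x2 x3) :
    v11 x1 x2 x3 = v166 x1 x2 x3 + x3 * v167 x1 x2 x3 := smulr (sb_5 hc)

theorem sb_6 {x1 x2 x3 : ℝ} (hc : Cnd x1 x2 x3) :
    v6 x1 x2 x3 = v168 x1 x2 x3 + x3 * v170 x1 x2 x3 := ssq (sb_5 hc)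

theorem sb_8 {x1 x2 x3 : ℝ} (hc : Cnd x1 x2 x3) :
    v8 x1 x2 x3 = v171 x1 x2 x3 + x3 * v172 x1 x2 x3 := ssubr (sb_6 hc)

theorem sb_9 {x1 x2 x3 : ℝ} (hc : Cnd x1 x2 x3) :
    v9 x1 x2 x3 = v173 x1 x2 x3 + x3 * v176 x1 x2 x3 := ssqrt (sb_8 hc) hc.2.2.2.2.2.2.2.2.2.2.1 hc.2.2.2.2.2.2.2.2.2.2.2.1

theorem sb_10 {x1 x2 x3 : ℝ} (hc : Cnd x1 x2 x3) :
    v10 x1 x2 x3 = v177 x1 x2 x3 + x3 * v178 x1 x2 x3 := smulr (sb_9 hc)

theorem sb_13 {x1 x2 x3 : ℝ} (hc : Cnd x1 x2 x3) :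
    v13 x1 x2 x3 = v179 x1 x2 x3 + x3 * v180 x1 x2 x3 := sadd (sb_11 hc) (sb_10 hc)

theorem sb_80 {x1 x2 x3 : ℝ} (hc : Cnd x1 x2 x3) :
    v80 x1 x2 x3 = v181 x1 x2 x3 + x3 * v180 x1 x2 x3 := saddl (sb_13 hc)

theorem sb_81 {x1 x2 x3 : ℝ} (hc : Cnd x1 x2 x3) :
    v81 x1 x2 x3 = v182 x1 x2 x3 + x3 * v183 x1 x2 x3 := ssubr (sb_80 hc)

theorem sb_83 {x1 x2 x3 : ℝ} (hc : Cnd x1 x2 x3) :
    v83 x1 x2 x3 = v184 x1 x2 x3 + x3 * v186 x1 x2 x3 := ssq (sb_81 hc)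

theorem sb_86 {x1 x2 x3 : ℝ} (hc : Cnd x1 x2 x3) :
    v86 x1 x2 x3 = v187 x1 x2 x3 + x3 * v188 x1 x2 x3 := ssubr (sb_83 hc)

theorem sb_88 {x1 x2 x3 : ℝ} (hc : Cnd x1 x2 x3) :
    v88 x1 x2 x3 = v189 x1 x2 x3 + x3 * v192 x1 x2 x3 := ssqrt (sb_86 hc) hc.2.1 hc.2.2.2.2.2.2.2.2.2.2.2.2.1

theorem sb_92 {x1 x2 x3 : ℝ} (hc : Cnd x1 x2 x3) :
    v92 x1 x2 x3 = v193 x1 x2 x3 + x3 * v194 x1 x2 x3 := smulr (sb_88 hc)

theorem sb_94 {x1 x2 x3 : ℝ} (hc : Cnd x1 x2 x3) :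
    v94 x1 x2 x3 = v195 x1 x2 x3 + x3 * v194 x1 x2 x3 := ssubl (sb_92 hc)

theorem sb_95 {x1 x2 x3 : ℝ} (hc : Cnd x1 x2 x3) :
    v95 x1 x2 x3 = v196 x1 x2 x3 + x3 * v183 x1 x2 x3 := ssubr (sb_80 hc)

theorem sb_96 {x1 x2 x3 : ℝ} (hc : Cnd x1 x2 x3) :
    v96 x1 x2 x3 = v197 x1 x2 x3 + x3 * v199 x1 x2 x3 := ssq (sb_95 hc)

theorem sb_99 {x1 x2 x3 : ℝ} (hc : Cnd x1 x2 x3) :
    v99 x1 x2 x3 = v200 x1 x2 x3 + x3 * v201 x1 x2 x3 := ssubr (sb_96 hc)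

theorem sb_101 {x1 x2 x3 : ℝ} (hc : Cnd x1 x2 x3) :
    v101 x1 x2 x3 = v202 x1 x2 x3 + x3 * v205 x1 x2 x3 := ssqrt (sb_99 hc) hc.2.2.2.1 hc.2.2.2.2.2.2.2.2.2.2.2.2.2.1

theorem sb_105 {x1 x2 x3 : ℝ} (hc : Cnd x1 x2 x3) :
    v105 x1 x2 x3 = v206 x1 x2 x3 + x3 * v207 x1 x2 x3 := smulr (sb_101 hc)

theorem sb_107 {x1 x2 x3 : ℝ} (hc : Cnd x1 x2 x3) :
    v107 x1 x2 x3 = v208 x1 x2 x3 + x3 * v207 x1 x2 x3 := saddl (sb_105 hc)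

theorem sb_108 {x1 x2 x3 : ℝ} (hc : Cnd x1 x2 x3) :
    v108 x1 x2 x3 = v209 x1 x2 x3 + x3 * v207 x1 x2 x3 := ssubl (sb_107 hc)

theorem sb_109 {x1 x2 x3 : ℝ} (hc : Cnd x1 x2 x3) :
    v109 x1 x2 x3 = v210 x1 x2 x3 + x3 * v211 x1 x2 x3 := sadd (sb_94 hc) (sb_108 hc)

theorem sb_111 {x1 x2 x3 : ℝ} (hc : Cnd x1 x2 x3) :
    v111 x1 x2 x3 = v212 x1 x2 x3 + x3 * v213 x1 x2 x3 := smulr (sb_109 hc)

theorem sb_113 {x1 x2 x3 : ℝ} (hc : Cnd x1 x2 x3) :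
    v113 x1 x2 x3 = v214 x1 x2 x3 + x3 * v180 x1 x2 x3 := ssubl (sb_80 hc)

theorem sb_114 {x1 x2 x3 : ℝ} (hc : Cnd x1 x2 x3) :
    v114 x1 x2 x3 = v215 x1 x2 x3 + x3 * v217 x1 x2 x3 := ssq (sb_113 hc)

theorem sb_117 {x1 x2 x3 : ℝ} (hc : Cnd x1 x2 x3) :
    v117 x1 x2 x3 = v218 x1 x2 x3 + x3 * v219 x1 x2 x3 := ssubr (sb_114 hc)

theorem sb_119 {x1 x2 x3 : ℝ} (hc : Cnd x1 x2 x3) :
    v119 x1 x2 x3 = v220 x1 x2 x3 + x3 * v223 x1 x2 x3 := ssqrt (sb_117 hc) hc.2.2.2.2.2.1 hc.2.2.2.2.2.2.2.2.2.2.2.2.2.2.1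

theorem sb_123 {x1 x2 x3 : ℝ} (hc : Cnd x1 x2 x3) :
    v123 x1 x2 x3 = v224 x1 x2 x3 + x3 * v225 x1 x2 x3 := smulr (sb_119 hc)

theorem sb_125 {x1 x2 x3 : ℝ} (hc : Cnd x1 x2 x3) :
    v125 x1 x2 x3 = v226 x1 x2 x3 + x3 * v225 x1 x2 x3 := ssubl (sb_123 hc)

theorem sb_126 {x1 x2 x3 : ℝ} (hc : Cnd x1 x2 x3) :
    v126 x1 x2 x3 = v227 x1 x2 x3 + x3 * v207 x1 x2 x3 := ssubl (sb_105 hc)

theorem sb_127 {x1 x2 x3 : ℝ} (hc : Cnd x1 x2 x3) :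
    v127 x1 x2 x3 = v228 x1 x2 x3 + x3 * v229 x1 x2 x3 := sadd (sb_125 hc) (sb_126 hc)

theorem sb_129 {x1 x2 x3 : ℝ} (hc : Cnd x1 x2 x3) :
    v129 x1 x2 x3 = v230 x1 x2 x3 + x3 * v231 x1 x2 x3 := smulr (sb_127 hc)

theorem sb_131 {x1 x2 x3 : ℝ} (hc : Cnd x1 x2 x3) :
    v131 x1 x2 x3 = v232 x1 x2 x3 + x3 * v233 x1 x2 x3 := sadd (sb_111 hc) (sb_129 hc)

theorem sb_133 {x1 x2 x3 : ℝ} (hc : Cnd x1 x2 x3) :
    v133 x1 x2 x3 = v234 x1 x2 x3 + x3 * v233 x1 x2 x3 := ssubl (sb_131 hc)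

theorem sb_134 {x1 x2 x3 : ℝ} (hc : Cnd x1 x2 x3) :
    v134 x1 x2 x3 = v235 x1 x2 x3 + x3 * v233 x1 x2 x3 := ssubl (sb_133 hc)

theorem sb_15 {x1 x2 x3 : ℝ} (hc : Cnd x1 x2 x3) :
    v15 x1 x2 x3 = v236 x1 x2 x3 + x3 * v237 x1 x2 x3 := smulr (sb_5 hc)

theorem sb_14 {x1 x2 x3 : ℝ} (hc : Cnd x1 x2 x3) :
    v14 x1 x2 x3 = v238 x1 x2 x3 + x3 * v239 x1 x2 x3 := smulr (sb_9 hc)

theorem sb_17 {x1 x2 x3 : ℝ} (hc : Cnd x1 x2 x3) :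
    v17 x1 x2 x3 = v240 x1 x2 x3 + x3 * v241 x1 x2 x3 := ssub (sb_15 hc) (sb_14 hc)

theorem sb_63 {x1 x2 x3 : ℝ} (hc : Cnd x1 x2 x3) :
    v63 x1 x2 x3 = v242 x1 x2 x3 + x3 * v243 x1 x2 x3 := sadd (sb_9 hc) (sb_17 hc)

theorem sb_64 {x1 x2 x3 : ℝ} (hc : Cnd x1 x2 x3) :
    v64 x1 x2 x3 = v244 x1 x2 x3 + x3 * v243 x1 x2 x3 := saddl (sb_63 hc)

theorem sb_135 {x1 x2 x3 : ℝ} (hc : Cnd x1 x2 x3) :
    v135 x1 x2 x3 = v245 x1 x2 x3 + x3 * v246 x1 x2 x3 := ssub (sb_5 hc) (sb_80 hc)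

theorem sb_136 {x1 x2 x3 : ℝ} (hc : Cnd x1 x2 x3) :
    v136 x1 x2 x3 = v247 x1 x2 x3 + x3 * v246 x1 x2 x3 := saddl (sb_135 hc)

theorem sb_137 {x1 x2 x3 : ℝ} (hc : Cnd x1 x2 x3) :
    v137 x1 x2 x3 = v248 x1 x2 x3 + x3 * v250 x1 x2 x3 := ssq (sb_136 hc)

theorem sb_140 {x1 x2 x3 : ℝ} (hc : Cnd x1 x2 x3) :
    v140 x1 x2 x3 = v251 x1 x2 x3 + x3 * v252 x1 x2 x3 := ssubr (sb_137 hc)

theorem sb_142 {x1 x2 x3 : ℝ} (hc : Cnd x1 x2 x3) :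
    v142 x1 x2 x3 = v253 x1 x2 x3 + x3 * v256 x1 x2 x3 := ssqrt (sb_140 hc) hc.2.2.2.2.2.2.2.1 hc.2.2.2.2.2.2.2.2.2.2.2.2.2.2.2.1

theorem sb_146 {x1 x2 x3 : ℝ} (hc : Cnd x1 x2 x3) :
    v146 x1 x2 x3 = v257 x1 x2 x3 + x3 * v258 x1 x2 x3 := ssub (sb_64 hc) (sb_142 hc)

theorem sb_148 {x1 x2 x3 : ℝ} (hc : Cnd x1 x2 x3) :
    v148 x1 x2 x3 = v259 x1 x2 x3 + x3 * v260 x1 x2 x3 := ssub (sb_13 hc) (sb_80 hc)

theorem sb_149 {x1 x2 x3 : ℝ} (hc : Cnd x1 x2 x3) :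
    v149 x1 x2 x3 = v261 x1 x2 x3 + x3 * v260 x1 x2 x3 := saddl (sb_148 hc)

theorem sb_150 {x1 x2 x3 : ℝ} (hc : Cnd x1 x2 x3) :
    v150 x1 x2 x3 = v262 x1 x2 x3 + x3 * v264 x1 x2 x3 := ssq (sb_149 hc)

theorem sb_153 {x1 x2 x3 : ℝ} (hc : Cnd x1 x2 x3) :
    v153 x1 x2 x3 = v265 x1 x2 x3 + x3 * v266 x1 x2 x3 := ssubr (sb_150 hc)

theorem sb_155 {x1 x2 x3 : ℝ} (hc : Cnd x1 x2 x3) :
    v155 x1 x2 x3 = v267 x1 x2 x3 + x3 * v270 x1 x2 x3 := ssqrt (sb_153 hc) hc.2.2.2.2.2.2.2.2.2.1 hc.2.2.2.2.2.2.2.2.2.2.2.2.2.2.2.2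

theorem sb_159 {x1 x2 x3 : ℝ} (hc : Cnd x1 x2 x3) :
    v159 x1 x2 x3 = v271 x1 x2 x3 + x3 * v272 x1 x2 x3 := ssub (sb_146 hc) (sb_155 hc)

theorem sb_161 {x1 x2 x3 : ℝ} (hc : Cnd x1 x2 x3) :
    v161 x1 x2 x3 = v273 x1 x2 x3 + x3 * v274 x1 x2 x3 := smulr (sb_159 hc)

theorem sb_163 {x1 x2 x3 : ℝ} (hc : Cnd x1 x2 x3) :
    v163 x1 x2 x3 = v275 x1 x2 x3 + x3 * v276 x1 x2 x3 := sadd (sb_134 hc) (sb_161 hc)

section

variable (s x w : ℝ)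

theorem w0 : v0 s x w = (2 * h0) := by unfold v0 h0; push_cast; ring

theorem w1 : v1 s x w = h0 := by unfold v1; rw [w0]; unfold h0; push_cast; ring

theorem w2 : v2 s x w = s := rfl

theorem w3 : v3 s x w = x := rfl

theorem w4 : v4 s x w = w := rfl

theorem w5 : v5 s x w = (h0 - w) := by rw [v5, w1, w4]

theorem w6 : v6 s x w = ((h0 - w) ^ 2) := by rw [v6, w5]

theorem w7 : v7 s x w = 1 := by unfold v7; norm_num

theorem w8 : v8 s x w = (1 - ((h0 - w) ^ 2)) := by rw [v8, w7, w6]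

theorem w9 : v9 s x w = (g (h0 - w)) := by unfold v9; rw [w8]; rfl

theorem w10 : v10 s x w = (h0 * (g (h0 - w))) := by rw [v10, w1, w9]

theorem w11 : v11 s x w = (1 / 2 * (h0 - w)) := by simp only [v11, w5, Nat.cast_ofNat, Nat.cast_one]

theorem w13 : v13 s x w = (ext (h0 - w)) := by rw [v13, w11, w10]; unfold ext; ring

theorem w14 : v14 s x w = (1 / 2 * (g (h0 - w))) := by simp only [v14, w9, Nat.cast_ofNat, Nat.cast_one]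

theorem w15 : v15 s x w = (h0 * (h0 - w)) := by rw [v15, w1, w5]

theorem w17 : v17 s x w = ((h0 * (h0 - w)) - (1 / 2 * (g (h0 - w)))) := by rw [v17, w15, w14]

theorem w18 : v18 s x w = ((ext (h0 - w)) + x) := by rw [v18, w13, w3]

theorem w19 : v19 s x w = (s ^ 2) := by rw [v19, w2]

theorem w20 : v20 s x w = (1 - (s ^ 2)) := by rw [v20, w7, w19]

theorem w21 : v21 s x w = (g s) := by unfold v21; rw [w20]; rfl

theorem w22 : v22 s x w = (17 / 50 * s) := by simp only [v22, w2, Nat.cast_ofNat, Nat.cast_one]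

theorem w23 : v23 s x w = ((17 / 50 * s) ^ 2) := by rw [v23, w22]

theorem w24 : v24 s x w = (1 - ((17 / 50 * s) ^ 2)) := by rw [v24, w7, w23]

theorem w25 : v25 s x w = (g (17 / 50 * s)) := by unfold v25; rw [w24]; rfl

theorem w26 : v26 s x w = (h0 + s) := by rw [v26, w1, w2]

theorem w27 : v27 s x w = (h0 + (17 / 50 * s)) := by rw [v27, w1, w22]

theorem w28 : v28 s x w = ((h0 + (17 / 50 * s)) - ((ext (h0 - w)) + x)) := by rw [v28, w27, w18]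

theorem w29 : v29 s x w = (((h0 + (17 / 50 * s)) - ((ext (h0 - w)) + x)) ^ 2) := by rw [v29, w28]

theorem w30 : v30 s x w = (1 - (((h0 + (17 / 50 * s)) - ((ext (h0 - w)) + x)) ^ 2)) := by rw [v30, w7, w29]

theorem w31 : v31 s x w = (g ((h0 + (17 / 50 * s)) - ((ext (h0 - w)) + x))) := by unfold v31; rw [w30]; rfl

theorem w32 : v32 s x w = (2 * (g ((h0 + (17 / 50 * s)) - ((ext (h0 - w)) + x)))) := by simp only [v32, w31, Nat.cast_ofNat, Nat.cast_one]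

theorem w33 : v33 s x w = ((2 * (g ((h0 + (17 / 50 * s)) - ((ext (h0 - w)) + x)))) - 1) := by rw [v33, w32, w7]

theorem w34 : v34 s x w = ((h0 + s) - ((ext (h0 - w)) + x)) := by rw [v34, w26, w18]

theorem w35 : v35 s x w = (((h0 + s) - ((ext (h0 - w)) + x)) ^ 2) := by rw [v35, w34]

theorem w36 : v36 s x w = (1 - (((h0 + s) - ((ext (h0 - w)) + x)) ^ 2)) := by rw [v36, w7, w35]

theorem w37 : v37 s x w = (g ((h0 + s) - ((ext (h0 - w)) + x))) := by unfold v37; rw [w36]; rfl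

theorem w38 : v38 s x w = (2 * (g ((h0 + s) - ((ext (h0 - w)) + x)))) := by simp only [v38, w37, Nat.cast_ofNat, Nat.cast_one]

theorem w39 : v39 s x w = ((2 * (g ((h0 + s) - ((ext (h0 - w)) + x)))) + 1) := by rw [v39, w38, w7]

theorem w40 : v40 s x w = (2 * (g (17 / 50 * s))) := by simp only [v40, w25, Nat.cast_ofNat, Nat.cast_one]

theorem w41 : v41 s x w = (((2 * (g ((h0 + s) - ((ext (h0 - w)) + x)))) + 1) - (2 * (g (17 / 50 * s)))) := by rw [v41, w39, w40]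

theorem w42 : v42 s x w = (((ext (h0 - w)) + x) - h0) := by rw [v42, w18, w1]

theorem w43 : v43 s x w = ((((ext (h0 - w)) + x) - h0) ^ 2) := by rw [v43, w42]

theorem w44 : v44 s x w = (1 - ((((ext (h0 - w)) + x) - h0) ^ 2)) := by rw [v44, w7, w43]

theorem w45 : v45 s x w = (g (((ext (h0 - w)) + x) - h0)) := by unfold v45; rw [w44]; rfl

theorem w46 : v46 s x w = (2 * (g (((ext (h0 - w)) + x) - h0))) := by simp only [v46, w45, Nat.cast_ofNat, Nat.cast_one]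

theorem w47 : v47 s x w = ((2 * (g (((ext (h0 - w)) + x) - h0))) - 1) := by rw [v47, w46, w7]

theorem w48 : v48 s x w = ((2 * (g ((h0 + s) - ((ext (h0 - w)) + x)))) - 1) := by rw [v48, w38, w7]

theorem w49 : v49 s x w = (((2 * (g ((h0 + (17 / 50 * s)) - ((ext (h0 - w)) + x)))) - 1) + (((2 * (g ((h0 + s) - ((ext (h0 - w)) + x)))) + 1) - (2 * (g (17 / 50 * s))))) := by rw [v49, w33, w41]

theorem w50 : v50 s x w = (9 / 5 * (((2 * (g ((h0 + (17 / 50 * s)) - ((ext (h0 - w)) + x)))) - 1) + (((2 * (g ((h0 + s) - ((ext (h0 - w)) + x)))) + 1) - (2 * (g (17 / 50 * s)))))) := by simp only [v50, w49, Nat.cast_ofNat, Nat.cast_one]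

theorem w51 : v51 s x w = (((2 * (g (((ext (h0 - w)) + x) - h0))) - 1) + ((2 * (g ((h0 + s) - ((ext (h0 - w)) + x)))) - 1)) := by rw [v51, w47, w48]

theorem w52 : v52 s x w = (1 / 5 * (((2 * (g (((ext (h0 - w)) + x) - h0))) - 1) + ((2 * (g ((h0 + s) - ((ext (h0 - w)) + x)))) - 1))) := by simp only [v52, w51, Nat.cast_ofNat, Nat.cast_one]

theorem w53 : v53 s x w = ((9 / 5 * (((2 * (g ((h0 + (17 / 50 * s)) - ((ext (h0 - w)) + x)))) - 1) + (((2 * (g ((h0 + s) - ((ext (h0 - w)) + x)))) + 1) - (2 * (g (17 / 50 * s)))))) + (1 / 5 * (((2 * (g (((ext (h0 - w)) + x) - h0))) - 1) + ((2 * (g ((h0 + s) - ((ext (h0 - w)) + x)))) - 1)))) := by rw [v53, w50, w52]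

theorem w54 : v54 s x w = 2 := by unfold v54; norm_num

theorem w55 : v55 s x w = (((9 / 5 * (((2 * (g ((h0 + (17 / 50 * s)) - ((ext (h0 - w)) + x)))) - 1) + (((2 * (g ((h0 + s) - ((ext (h0 - w)) + x)))) + 1) - (2 * (g (17 / 50 * s)))))) + (1 / 5 * (((2 * (g (((ext (h0 - w)) + x) - h0))) - 1) + ((2 * (g ((h0 + s) - ((ext (h0 - w)) + x)))) - 1)))) - 2) := by rw [v55, w53, w54]

theorem w56 : v56 s x w = (2 * (g s)) := by simp only [v56, w21, Nat.cast_ofNat, Nat.cast_one]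

theorem w57 : v57 s x w = ((((9 / 5 * (((2 * (g ((h0 + (17 / 50 * s)) - ((ext (h0 - w)) + x)))) - 1) + (((2 * (g ((h0 + s) - ((ext (h0 - w)) + x)))) + 1) - (2 * (g (17 / 50 * s)))))) + (1 / 5 * (((2 * (g (((ext (h0 - w)) + x) - h0))) - 1) + ((2 * (g ((h0 + s) - ((ext (h0 - w)) + x)))) - 1)))) - 2) - (2 * (g s))) := by rw [v57, w55, w56]

theorem w58 : v58 s x w = ((g s) + 1) := by rw [v58, w21, w7]

theorem w59 : v59 s x w = (1 / 2 * ((g s) + 1)) := by simp only [v59, w58, Nat.cast_ofNat, Nat.cast_one]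

theorem w60 : v60 s x w = ((1 / 2 * ((g s) + 1)) ^ 2) := by rw [v60, w59]

theorem w61 : v61 s x w = (1 - ((1 / 2 * ((g s) + 1)) ^ 2)) := by rw [v61, w7, w60]

theorem w62 : v62 s x w = (g (1 / 2 * ((g s) + 1))) := by unfold v62; rw [w61]; rfl

theorem w63 : v63 s x w = ((g (h0 - w)) + ((h0 * (h0 - w)) - (1 / 2 * (g (h0 - w))))) := by rw [v63, w9, w17]

theorem w64 : v64 s x w = (((g (h0 - w)) + ((h0 * (h0 - w)) - (1 / 2 * (g (h0 - w))))) + 1) := by rw [v64, w63, w7]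

theorem w65 : v65 s x w = ((h0 - w) - ((ext (h0 - w)) + x)) := by rw [v65, w5, w18]

theorem w66 : v66 s x w = (((h0 - w) - ((ext (h0 - w)) + x)) + (g (1 / 2 * ((g s) + 1)))) := by rw [v66, w65, w62]

theorem w67 : v67 s x w = ((((h0 - w) - ((ext (h0 - w)) + x)) + (g (1 / 2 * ((g s) + 1)))) ^ 2) := by rw [v67, w66]

theorem w68 : v68 s x w = (1 - ((((h0 - w) - ((ext (h0 - w)) + x)) + (g (1 / 2 * ((g s) + 1)))) ^ 2)) := by rw [v68, w7, w67]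

theorem w69 : v69 s x w = (g (((h0 - w) - ((ext (h0 - w)) + x)) + (g (1 / 2 * ((g s) + 1))))) := by unfold v69; rw [w68]; rfl

theorem w70 : v70 s x w = ((((g (h0 - w)) + ((h0 * (h0 - w)) - (1 / 2 * (g (h0 - w))))) + 1) - (g (((h0 - w) - ((ext (h0 - w)) + x)) + (g (1 / 2 * ((g s) + 1)))))) := by rw [v70, w64, w69]

theorem w71 : v71 s x w = ((ext (h0 - w)) - ((ext (h0 - w)) + x)) := by rw [v71, w13, w18]

theorem w72 : v72 s x w = (((ext (h0 - w)) - ((ext (h0 - w)) + x)) + (g (1 / 2 * ((g s) + 1)))) := by rw [v72, w71, w62]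

theorem w73 : v73 s x w = ((((ext (h0 - w)) - ((ext (h0 - w)) + x)) + (g (1 / 2 * ((g s) + 1)))) ^ 2) := by rw [v73, w72]

theorem w74 : v74 s x w = (1 - ((((ext (h0 - w)) - ((ext (h0 - w)) + x)) + (g (1 / 2 * ((g s) + 1)))) ^ 2)) := by rw [v74, w7, w73]

theorem w75 : v75 s x w = (g (((ext (h0 - w)) - ((ext (h0 - w)) + x)) + (g (1 / 2 * ((g s) + 1))))) := by unfold v75; rw [w74]; rfl

theorem w76 : v76 s x w = (((((g (h0 - w)) + ((h0 * (h0 - w)) - (1 / 2 * (g (h0 - w))))) + 1) - (g (((h0 - w) - ((ext (h0 - w)) + x)) + (g (1 / 2 * ((g s) + 1)))))) - (g (((ext (h0 - w)) - ((ext (h0 - w)) + x)) + (g (1 / 2 * ((g s) + 1)))))) := by rw [v76, w70, w75]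

theorem w77 : v77 s x w = (2 * (((((g (h0 - w)) + ((h0 * (h0 - w)) - (1 / 2 * (g (h0 - w))))) + 1) - (g (((h0 - w) - ((ext (h0 - w)) + x)) + (g (1 / 2 * ((g s) + 1)))))) - (g (((ext (h0 - w)) - ((ext (h0 - w)) + x)) + (g (1 / 2 * ((g s) + 1))))))) := by simp only [v77, w76, Nat.cast_ofNat, Nat.cast_one]

theorem w78 : v78 s x w = (((((9 / 5 * (((2 * (g ((h0 + (17 / 50 * s)) - ((ext (h0 - w)) + x)))) - 1) + (((2 * (g ((h0 + s) - ((ext (h0 - w)) + x)))) + 1) - (2 * (g (17 / 50 * s)))))) + (1 / 5 * (((2 * (g (((ext (h0 - w)) + x) - h0))) - 1) + ((2 * (g ((h0 + s) - ((ext (h0 - w)) + x)))) - 1)))) - 2) - (2 * (g s))) + (2 * (((((g (h0 - w)) + ((h0 * (h0 - w)) - (1 / 2 * (g (h0 - w))))) + 1) - (g (((h0 - w) - ((ext (h0 - w)) + x)) + (g (1 / 2 * ((g s) + 1)))))) - (g (((ext (h0 - w)) - ((ext (h0 - w)) + x)) + (g (1 / 2 * ((g s) + 1)))))))) := by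 rw [v78, w57, w77]

theorem w79 : v79 s x w = 0 := by unfold v79; norm_num

theorem w165 : v165 s x w = (h0 - 0) := by rw [v165, w1, w79]

theorem w166 : v166 s x w = (1 / 2 * (h0 - 0)) := by simp only [v166, w165, Nat.cast_ofNat, Nat.cast_one]

theorem w168 : v168 s x w = ((h0 - 0) ^ 2) := by rw [v168, w165]

theorem w171 : v171 s x w = (1 - ((h0 - 0) ^ 2)) := by rw [v171, w7, w168]

theorem w173 : v173 s x w = (g (h0 - 0)) := by unfold v173; rw [w171]; rfl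

theorem w177 : v177 s x w = (h0 * (g (h0 - 0))) := by rw [v177, w1, w173]

theorem w179 : v179 s x w = ((1 / 2 * (h0 - 0)) + (h0 * (g (h0 - 0)))) := by rw [v179, w166, w177]

theorem w181 : v181 s x w = (((1 / 2 * (h0 - 0)) + (h0 * (g (h0 - 0)))) + 0) := by rw [v181, w179, w79]

theorem w182 : v182 s x w = ((h0 + (17 / 50 * s)) - (((1 / 2 * (h0 - 0)) + (h0 * (g (h0 - 0)))) + 0)) := by rw [v182, w27, w181]

theorem w184 : v184 s x w = (((h0 + (17 / 50 * s)) - (((1 / 2 * (h0 - 0)) + (h0 * (g (h0 - 0)))) + 0)) ^ 2) := by rw [v184, w182]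

theorem w187 : v187 s x w = (1 - (((h0 + (17 / 50 * s)) - (((1 / 2 * (h0 - 0)) + (h0 * (g (h0 - 0)))) + 0)) ^ 2)) := by rw [v187, w7, w184]

theorem w189 : v189 s x w = (g ((h0 + (17 / 50 * s)) - (((1 / 2 * (h0 - 0)) + (h0 * (g (h0 - 0)))) + 0))) := by unfold v189; rw [w187]; rfl

theorem w193 : v193 s x w = (2 * (g ((h0 + (17 / 50 * s)) - (((1 / 2 * (h0 - 0)) + (h0 * (g (h0 - 0)))) + 0)))) := by simp only [v193, w189, Nat.cast_ofNat, Nat.cast_one]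

theorem w195 : v195 s x w = ((2 * (g ((h0 + (17 / 50 * s)) - (((1 / 2 * (h0 - 0)) + (h0 * (g (h0 - 0)))) + 0)))) - 1) := by rw [v195, w193, w7]

theorem w196 : v196 s x w = ((h0 + s) - (((1 / 2 * (h0 - 0)) + (h0 * (g (h0 - 0)))) + 0)) := by rw [v196, w26, w181]

theorem w197 : v197 s x w = (((h0 + s) - (((1 / 2 * (h0 - 0)) + (h0 * (g (h0 - 0)))) + 0)) ^ 2) := by rw [v197, w196]

theorem w200 : v200 s x w = (1 - (((h0 + s) - (((1 / 2 * (h0 - 0)) + (h0 * (g (h0 - 0)))) + 0)) ^ 2)) := by rw [v200, w7, w197]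

theorem w202 : v202 s x w = (g ((h0 + s) - (((1 / 2 * (h0 - 0)) + (h0 * (g (h0 - 0)))) + 0))) := by unfold v202; rw [w200]; rfl

theorem w206 : v206 s x w = (2 * (g ((h0 + s) - (((1 / 2 * (h0 - 0)) + (h0 * (g (h0 - 0)))) + 0)))) := by simp only [v206, w202, Nat.cast_ofNat, Nat.cast_one]

theorem w208 : v208 s x w = ((2 * (g ((h0 + s) - (((1 / 2 * (h0 - 0)) + (h0 * (g (h0 - 0)))) + 0)))) + 1) := by rw [v208, w206, w7]

theorem w209 : v209 s x w = (((2 * (g ((h0 + s) - (((1 / 2 * (h0 - 0)) + (h0 * (g (h0 - 0)))) + 0)))) + 1) - (2 * (g (17 / 50 * s)))) := by rw [v209, w208, w40]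

theorem w210 : v210 s x w = (((2 * (g ((h0 + (17 / 50 * s)) - (((1 / 2 * (h0 - 0)) + (h0 * (g (h0 - 0)))) + 0)))) - 1) + (((2 * (g ((h0 + s) - (((1 / 2 * (h0 - 0)) + (h0 * (g (h0 - 0)))) + 0)))) + 1) - (2 * (g (17 / 50 * s))))) := by rw [v210, w195, w209]

theorem w212 : v212 s x w = (9 / 5 * (((2 * (g ((h0 + (17 / 50 * s)) - (((1 / 2 * (h0 - 0)) + (h0 * (g (h0 - 0)))) + 0)))) - 1) + (((2 * (g ((h0 + s) - (((1 / 2 * (h0 - 0)) + (h0 * (g (h0 - 0)))) + 0)))) + 1) - (2 * (g (17 / 50 * s)))))) := by simp only [v212, w210, Nat.cast_ofNat, Nat.cast_one]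

theorem w214 : v214 s x w = ((((1 / 2 * (h0 - 0)) + (h0 * (g (h0 - 0)))) + 0) - h0) := by rw [v214, w181, w1]

theorem w215 : v215 s x w = (((((1 / 2 * (h0 - 0)) + (h0 * (g (h0 - 0)))) + 0) - h0) ^ 2) := by rw [v215, w214]

theorem w218 : v218 s x w = (1 - (((((1 / 2 * (h0 - 0)) + (h0 * (g (h0 - 0)))) + 0) - h0) ^ 2)) := by rw [v218, w7, w215]

theorem w220 : v220 s x w = (g ((((1 / 2 * (h0 - 0)) + (h0 * (g (h0 - 0)))) + 0) - h0)) := by unfold v220; rw [w218]; rfl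

theorem w224 : v224 s x w = (2 * (g ((((1 / 2 * (h0 - 0)) + (h0 * (g (h0 - 0)))) + 0) - h0))) := by simp only [v224, w220, Nat.cast_ofNat, Nat.cast_one]

theorem w226 : v226 s x w = ((2 * (g ((((1 / 2 * (h0 - 0)) + (h0 * (g (h0 - 0)))) + 0) - h0))) - 1) := by rw [v226, w224, w7]

theorem w227 : v227 s x w = ((2 * (g ((h0 + s) - (((1 / 2 * (h0 - 0)) + (h0 * (g (h0 - 0)))) + 0)))) - 1) := by rw [v227, w206, w7]

theorem w228 : v228 s x w = (((2 * (g ((((1 / 2 * (h0 - 0)) + (h0 * (g (h0 - 0)))) + 0) - h0))) - 1) + ((2 * (g ((h0 + s) - (((1 / 2 * (h0 - 0)) + (h0 * (g (h0 - 0)))) + 0)))) - 1)) := by rw [v228, w226, w227]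

theorem w230 : v230 s x w = (1 / 5 * (((2 * (g ((((1 / 2 * (h0 - 0)) + (h0 * (g (h0 - 0)))) + 0) - h0))) - 1) + ((2 * (g ((h0 + s) - (((1 / 2 * (h0 - 0)) + (h0 * (g (h0 - 0)))) + 0)))) - 1))) := by simp only [v230, w228, Nat.cast_ofNat, Nat.cast_one]

theorem w232 : v232 s x w = ((9 / 5 * (((2 * (g ((h0 + (17 / 50 * s)) - (((1 / 2 * (h0 - 0)) + (h0 * (g (h0 - 0)))) + 0)))) - 1) + (((2 * (g ((h0 + s) - (((1 / 2 * (h0 - 0)) + (h0 * (g (h0 - 0)))) + 0)))) + 1) - (2 * (g (17 / 50 * s)))))) + (1 / 5 * (((2 * (g ((((1 / 2 * (h0 - 0)) + (h0 * (g (h0 - 0)))) + 0) - h0))) - 1) + ((2 * (g ((h0 + s) - (((1 / 2 * (h0 - 0)) + (h0 * (g (h0 - 0)))) + 0)))) - 1)))) := by rw [v232, w212, w230]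

theorem w234 : v234 s x w = (((9 / 5 * (((2 * (g ((h0 + (17 / 50 * s)) - (((1 / 2 * (h0 - 0)) + (h0 * (g (h0 - 0)))) + 0)))) - 1) + (((2 * (g ((h0 + s) - (((1 / 2 * (h0 - 0)) + (h0 * (g (h0 - 0)))) + 0)))) + 1) - (2 * (g (17 / 50 * s)))))) + (1 / 5 * (((2 * (g ((((1 / 2 * (h0 - 0)) + (h0 * (g (h0 - 0)))) + 0) - h0))) - 1) + ((2 * (g ((h0 + s) - (((1 / 2 * (h0 - 0)) + (h0 * (g (h0 - 0)))) + 0)))) - 1)))) - 2) := by rw [v234, w232, w54]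

theorem w235 : v235 s x w = ((((9 / 5 * (((2 * (g ((h0 + (17 / 50 * s)) - (((1 / 2 * (h0 - 0)) + (h0 * (g (h0 - 0)))) + 0)))) - 1) + (((2 * (g ((h0 + s) - (((1 / 2 * (h0 - 0)) + (h0 * (g (h0 - 0)))) + 0)))) + 1) - (2 * (g (17 / 50 * s)))))) + (1 / 5 * (((2 * (g ((((1 / 2 * (h0 - 0)) + (h0 * (g (h0 - 0)))) + 0) - h0))) - 1) + ((2 * (g ((h0 + s) - (((1 / 2 * (h0 - 0)) + (h0 * (g (h0 - 0)))) + 0)))) - 1)))) - 2) - (2 * (g s))) := by rw [v235, w234, w56]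

theorem w236 : v236 s x w = (h0 * (h0 - 0)) := by rw [v236, w1, w165]

theorem w238 : v238 s x w = (1 / 2 * (g (h0 - 0))) := by simp only [v238, w173, Nat.cast_ofNat, Nat.cast_one]

theorem w240 : v240 s x w = ((h0 * (h0 - 0)) - (1 / 2 * (g (h0 - 0)))) := by rw [v240, w236, w238]

theorem w242 : v242 s x w = ((g (h0 - 0)) + ((h0 * (h0 - 0)) - (1 / 2 * (g (h0 - 0))))) := by rw [v242, w173, w240]

theorem w244 : v244 s x w = (((g (h0 - 0)) + ((h0 * (h0 - 0)) - (1 / 2 * (g (h0 - 0))))) + 1) := by rw [v244, w242, w7]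

theorem w245 : v245 s x w = ((h0 - 0) - (((1 / 2 * (h0 - 0)) + (h0 * (g (h0 - 0)))) + 0)) := by rw [v245, w165, w181]

theorem w247 : v247 s x w = (((h0 - 0) - (((1 / 2 * (h0 - 0)) + (h0 * (g (h0 - 0)))) + 0)) + (g (1 / 2 * ((g s) + 1)))) := by rw [v247, w245, w62]

theorem w248 : v248 s x w = ((((h0 - 0) - (((1 / 2 * (h0 - 0)) + (h0 * (g (h0 - 0)))) + 0)) + (g (1 / 2 * ((g s) + 1)))) ^ 2) := by rw [v248, w247]

theorem w251 : v251 s x w = (1 - ((((h0 - 0) - (((1 / 2 * (h0 - 0)) + (h0 * (g (h0 - 0)))) + 0)) + (g (1 / 2 * ((g s) + 1)))) ^ 2)) := by rw [v251, w7, w248]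

theorem w253 : v253 s x w = (g (((h0 - 0) - (((1 / 2 * (h0 - 0)) + (h0 * (g (h0 - 0)))) + 0)) + (g (1 / 2 * ((g s) + 1))))) := by unfold v253; rw [w251]; rfl

theorem w257 : v257 s x w = ((((g (h0 - 0)) + ((h0 * (h0 - 0)) - (1 / 2 * (g (h0 - 0))))) + 1) - (g (((h0 - 0) - (((1 / 2 * (h0 - 0)) + (h0 * (g (h0 - 0)))) + 0)) + (g (1 / 2 * ((g s) + 1)))))) := by rw [v257, w244, w253]

theorem w259 : v259 s x w = (((1 / 2 * (h0 - 0)) + (h0 * (g (h0 - 0)))) - (((1 / 2 * (h0 - 0)) + (h0 * (g (h0 - 0)))) + 0)) := by rw [v259, w179, w181]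

theorem w261 : v261 s x w = ((((1 / 2 * (h0 - 0)) + (h0 * (g (h0 - 0)))) - (((1 / 2 * (h0 - 0)) + (h0 * (g (h0 - 0)))) + 0)) + (g (1 / 2 * ((g s) + 1)))) := by rw [v261, w259, w62]

theorem w262 : v262 s x w = (((((1 / 2 * (h0 - 0)) + (h0 * (g (h0 - 0)))) - (((1 / 2 * (h0 - 0)) + (h0 * (g (h0 - 0)))) + 0)) + (g (1 / 2 * ((g s) + 1)))) ^ 2) := by rw [v262, w261]

theorem w265 : v265 s x w = (1 - (((((1 / 2 * (h0 - 0)) + (h0 * (g (h0 - 0)))) - (((1 / 2 * (h0 - 0)) + (h0 * (g (h0 - 0)))) + 0)) + (g (1 / 2 * ((g s) + 1)))) ^ 2)) := by rw [v265, w7, w262]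

theorem w267 : v267 s x w = (g ((((1 / 2 * (h0 - 0)) + (h0 * (g (h0 - 0)))) - (((1 / 2 * (h0 - 0)) + (h0 * (g (h0 - 0)))) + 0)) + (g (1 / 2 * ((g s) + 1))))) := by unfold v267; rw [w265]; rfl

theorem w271 : v271 s x w = (((((g (h0 - 0)) + ((h0 * (h0 - 0)) - (1 / 2 * (g (h0 - 0))))) + 1) - (g (((h0 - 0) - (((1 / 2 * (h0 - 0)) + (h0 * (g (h0 - 0)))) + 0)) + (g (1 / 2 * ((g s) + 1)))))) - (g ((((1 / 2 * (h0 - 0)) + (h0 * (g (h0 - 0)))) - (((1 / 2 * (h0 - 0)) + (h0 * (g (h0 - 0)))) + 0)) + (g (1 / 2 * ((g s) + 1)))))) := by rw [v271, w257, w267]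

theorem w273 : v273 s x w = (2 * (((((g (h0 - 0)) + ((h0 * (h0 - 0)) - (1 / 2 * (g (h0 - 0))))) + 1) - (g (((h0 - 0) - (((1 / 2 * (h0 - 0)) + (h0 * (g (h0 - 0)))) + 0)) + (g (1 / 2 * ((g s) + 1)))))) - (g ((((1 / 2 * (h0 - 0)) + (h0 * (g (h0 - 0)))) - (((1 / 2 * (h0 - 0)) + (h0 * (g (h0 - 0)))) + 0)) + (g (1 / 2 * ((g s) + 1))))))) := by simp only [v273, w271, Nat.cast_ofNat, Nat.cast_one]

theorem w275 : v275 s x w = (((((9 / 5 * (((2 * (g ((h0 + (17 / 50 * s)) - (((1 / 2 * (h0 - 0)) + (h0 * (g (h0 - 0)))) + 0)))) - 1) + (((2 * (g ((h0 + s) - (((1 / 2 * (h0 - 0)) + (h0 * (g (h0 - 0)))) + 0)))) + 1) - (2 * (g (17 / 50 * s)))))) + (1 / 5 * (((2 * (g ((((1 / 2 * (h0 - 0)) + (h0 * (g (h0 - 0)))) + 0) - h0))) - 1) + ((2 * (g ((h0 + s) - (((1 / 2 * (h0 - 0)) + (h0 * (g (h0 - 0)))) + 0)))) - 1)))) - 2) - (2 * (g s))) + (2 * (((((g (h0 - 0)) + ((h0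 * (h0 - 0)) - (1 / 2 * (g (h0 - 0))))) + 1) - (g (((h0 - 0) - (((1 / 2 * (h0 - 0)) + (h0 * (g (h0 - 0)))) + 0)) + (g (1 / 2 * ((g s) + 1)))))) - (g ((((1 / 2 * (h0 - 0)) + (h0 * (g (h0 - 0)))) - (((1 / 2 * (h0 - 0)) + (h0 * (g (h0 - 0)))) + 0)) + (g (1 / 2 * ((g s) + 1)))))))) := by rw [v275, w235, w273]

end

theorem f00 {s x w : ℝ} (hl1 : 66 / 125 ≤ s) (hu1 : s ≤ 57 / 100) (hl2 : 0 ≤ x) (hu2 : x ≤ 1 / 50) (hl3 : 0 ≤ w) (hu3 : w ≤ 3 / 100) (hp1 : 0 ≤ x) (hp2 : 0 ≤ w) : 0 ≤ v275 s x w := by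
  rw [w275]
  have c0 := Pool.Agent.StripSquare.g_nonneg s
  have c1 := Pool.Agent.StripSquare.g_le_one s
  simp only [add_zero, sub_zero, mul_zero, zero_mul, zero_add, gh0, qh0, Gh0, sub_self, add_sub_cancel_right, add_sub_cancel_left]
  rw [gg (u := 1 / 2 * (g s + 1)) (by linarith) (by linarith)]
  apply le_of_eq
  ring_nf
  rw [g_zero]
  linarith [Pool.Agent.StripNear.h0_sq]

theorem c_ok : chk f 60 ⟨589484261, 0, 22548579, 10737418, 0, 10737419, 16106127, 0, 16106128⟩ = true := by decide +kernel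

theorem main {s x w : ℝ} (hl1 : 66 / 125 ≤ s) (hu1 : s ≤ 57 / 100) (hl2 : 0 ≤ x) (hu2 : x ≤ 1 / 50) (hl3 : 0 ≤ w) (hu3 : w ≤ 3 / 100) (hp1 : 0 ≤ x) (hp2 : 0 ≤ w) :
    0 ≤ (((((9 / 5 * (((2 * (g ((h0 + (17 / 50 * s)) - ((ext (h0 - w)) + x)))) - 1) + (((2 * (g ((h0 + s) - ((ext (h0 - w)) + x)))) + 1) - (2 * (g (17 / 50 * s)))))) + (1 / 5 * (((2 * (g (((ext (h0 - w)) + x) - h0))) - 1) + ((2 * (g ((h0 + s) - ((ext (h0 - w)) + x)))) - 1)))) - 2) - (2 * (g s))) + (2 * (((((g (h0 - w)) + ((h0 * (h0 - w)) - (1 / 2 * (g (h0 - w))))) + 1) - (g (((h0 - w) - ((ext (h0 - w)) + x)) + (g (1 / 2 * ((g s) + 1)))))) - (g (((ext (h0 - w)) - ((ext (h0 - w)) + x)) + (g (1 / 2 * ((g s) + 1)))))))) := by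
  have hm : Mem S ⟨589484261, 0, 22548579, 10737418, 0, 10737419, 16106127, 0, 16106128⟩ s x w := by
    refine ⟨?_, ?_, ?_⟩ <;> norm_num only [S] <;> rw [abs_le] <;> constructor <;> linarith
  have h := chk_sound f_sound 60 _ c_ok s x w hm
  unfold Q at h
  obtain ⟨q1, q2, hc⟩ := h
  rw [← w78]
  have e0 := f00 hl1 hu1 hl2 hu2 hl3 hu3 hp1 hp2
  rw [sa_78 hc]
  rw [sb_163 hc]
  have m1 := mul_nonneg hp1 q1.le
  have m2 := mul_nonneg hp2 q2.le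
  linarith
end Pool.Agent.Strip051.FourE.THi
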