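import Pool.Agent.Strip051.FourE.Defs
import Pool.Agent.Strip051.FourE.Hi1
import Pool.Agent.Strip051.FourE.Hi2
import Pool.Agent.Strip051.FourE.THi

/-! # The row when the new point is between `h0` and `h0 + s / 2` -/

namespace Pool.Agent.Strip051.FourE

open Pool.Agent.StripNear Pool.Agent.StripSquare Pool.Agent.Strip051
open Pool.Agent.Strip051.Four (mirP j1 gn mirP_gn arc_sub le_gn gn_nonneg g_le_of_abs)

variable {s t r q u y : ℝ}

theorem mid_j2a (P : Par s t) (h1 : h0 ≤ y) (h2 : y ≤ h0 + 17 / 50 * s) :
    2 * g (h0 + 17 / 50 * s - y) - 1 ≤ gn (j2 s) r u y := by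
  have hh := h0_lt
  have hg := h0_gt
  have hs0 := P.s0
  have hs1 := P.s1
  have h3 := alone_self (r := r) (u := u) (y := y) (v := g (h0 + 17 / 50 * s - y) - 1)
    (β := g (h0 + 17 / 50 * s - y)) (j2_ok P)
    (by
      intro z k1 k2
      simp only [j2] at k1 k2 ⊢
      rcases le_total z (h0 + 17 / 50 * s) with k3 | k3
      · have e1 := arc_sub (a := y) (b := h0 + 17 / 50 * s) (x := z) (y := h0 + 17 / 50 * s) h2 k3
          (by linear_combination hh + (33 / 50) * hs0 + k1) (by linear_combination h1 + (17 / 50) * hs1)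
        rw [sub_self, g_zero] at e1
        have e2 := a2_le2 (s := s) (z := z)
        linear_combination e1 + e2
      · have e1 := arc_sub (a := h0) (b := y) (x := h0 + 17 / 50 * s) (y := z) h1 k3
          (by linear_combination h2) (by linear_combination hg + hs1 + k2)
        rw [add_sub_cancel_left] at e1
        have e2 := a2_le3 (s := s) (z := z)
        linear_combination e1 + e2)
    (by simp only [j2]; linear_combination h1 + hg + hs1) (by simp only [j2]; linear_combination (33 / 17) * h1 + (50 / 17) * h2 + hh)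
    (by
      simp only [j2]
      rw [a2_eq2 P h1 h2, show y - (h0 + 17 / 50 * s) = -(h0 + 17 / 50 * s - y) by ring, g_neg])
  linear_combination h3

theorem mid_j2b (P : Par s t) (h1 : h0 + 17 / 50 * s ≤ y) (h2 : y ≤ h0 + s) :
    2 * g (y - h0) + 1 - 2 * g (17 / 50 * s) ≤ gn (j2 s) r u y := by
  have hh := h0_lt
  have hg := h0_gt
  have hs0 := P.s0
  have hs1 := P.s1
  have h3 := alone_self (r := r) (u := u) (y := y) (v := g (y - h0) - g (17 / 50 * s))
    (β := g (y - h0) + (1 - g (17 / 50 * s))) (j2_ok P)
    (by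
      intro z k1 k2
      simp only [j2] at k1 k2 ⊢
      rcases le_total z h0 with k3 | k3
      · have e1 := arc_sub (a := y) (b := h0 + s) (x := z) (y := h0) h2 k3
          (by linear_combination hh + k1) (by linear_combination (50 / 33) * h1 + (17 / 33) * h2)
        rw [show h0 - y = -(y - h0) by ring, show h0 - (h0 + s) = -s by ring, g_neg, g_neg] at e1
        have e2 := a2_le1 (s := s) (z := z)
        linear_combination e1 + e2
      · have e1 := arc_sub (a := h0 + 17 / 50 * s) (b := y) (x := h0) (y := z) h1 k3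
          (by linear_combination h2 + hs1) (by linear_combination hg + (33 / 50) * hs1 + k2)
        rw [show h0 - y = -(y - h0) by ring, show h0 - (h0 + 17 / 50 * s) = -(17 / 50 * s) by ring,
          g_neg, g_neg] at e1
        have e2 := a2_le2 (s := s) (z := z)
        linear_combination e1 + e2)
    (by simp only [j2]; linear_combination h1 + hg + (33 / 50) * hs1) (by simp only [j2]; linear_combination h2 + hh)
    (by
      simp only [j2]
      rw [a2_eq3 P h1 h2])
  linear_combination h3

theorem mid_j3 (P : Par s t) (h1 : h0 ≤ y) (h2 : y ≤ h0 + s / 2) :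
    2 * g (h0 + s - y) + 1 - 2 * g (17 / 50 * s) ≤ gn (j3 s) r u y := by
  have hs0 := P.s0
  have h3 := mid_j2b P (r := u) (u := r) (y := 2 * h0 + s - y) (by linear_combination (8 / 25) * h1 + (33 / 25) * h2) (by linear_combination h1)
  rw [show 2 * h0 + s - y - h0 = h0 + s - y by ring] at h3
  have e : gn (j3 s) r u y = gn (j2 s) u r (2 * h0 + s - y) := mirP_gn _ _ _ _ _
  rw [e]
  exact h3

theorem mid_j6 (P : Par s t) (h1 : h0 ≤ y) (h2 : y ≤ h0 + s) :
    2 * g (y - h0) - 1 ≤ gn (j6 s) r u y := by
  have hh := h0_lt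
  have hg := h0_gt
  have hs0 := P.s0
  have hs1 := P.s1
  have h3 := alone_self (r := r) (u := u) (y := y) (v := g (y - h0) - 1)
    (β := g (y - h0)) (j6_ok P)
    (by
      intro z k1 k2
      simp only [j6] at k1 k2 ⊢
      rcases le_total z h0 with k3 | k3
      · have e1 := arc_sub (a := y) (b := h0 + s) (x := z) (y := h0) h2 k3
          (by linear_combination k1) (by linear_combination h1)
        rw [show h0 - y = -(y - h0) by ring, show h0 - (h0 + s) = -s by ring, g_neg, g_neg] at e1
        have e2 := a6_le1 (s := s) (z := z)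
        linear_combination e1 + e2
      · have e1 := arc_sub (a := h0) (b := y) (x := h0) (y := z) h1 k3
          (by linear_combination h2 + hs1) (by linear_combination hs1 + k2)
        rw [sub_self, g_zero, show h0 - y = -(y - h0) by ring, g_neg] at e1
        have e2 := a6_le2 (s := s) (z := z)
        linear_combination e1 + e2)
    (by simp only [j6]; linear_combination h1 + hs1) (by simp only [j6]; linear_combination h2)
    (by
      simp only [j6]
      rw [a6_eq2 P h1 h2])
  linear_combination h3

theorem mid_j7 (P : Par s t) (h1 : h0 ≤ y) (h2 : y ≤ h0 + s) :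
    2 * g (h0 + s - y) - 1 ≤ gn (j7 s) r u y := by
  have h3 := mid_j6 P (r := u) (u := r) (y := 2 * h0 + s - y) (by linear_combination h2) (by linear_combination h1)
  rw [show 2 * h0 + s - y - h0 = h0 + s - y by ring] at h3
  have e : gn (j7 s) r u y = gn (j6 s) u r (2 * h0 + s - y) := mirP_gn _ _ _ _ _
  rw [e]
  exact h3

/-- The lower wall probe and a virtual disc whose centre is not above `t`. -/
theorem wall_hi (P : Par s t) (h1 : t < y) (hq0 : 1 / 2 ≤ q) (hq1 : q ≤ 1) (hq : y - q ≤ t) :
    1 + g q + g (ext q) - g (q - y + t) - g (ext q - y + t) ≤ gn (j1 t) r q y := by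
  have hh := h0_lt
  have hg := h0_gt
  have hs0 := P.s0
  have hs1 := P.s1
  have ht0 := P.t0
  have hts := P.ts
  obtain ⟨a1, a2, a3, a4, a5, a6⟩ := ext_spec hq0 hq1
  have a7 := ext_meet hq0 hq1
  have a8 : q / 2 + h0 * g q = ext q := rfl
  rw [a8] at a5 a6 a7
  have h3 := le_gn (r := r) (q := q) (y := y) (z0 := t) (v := g (ext q) - g (y - ext q - t))
    (j1_ok P) P.t0 le_rfl
    (by
      intro z k1 k2
      simp only [j1] at k1 k2 ⊢
      rcases le_total (y - ext q) z with k3 | k3
      · right
        have e1 := arc_sub (a := t) (b := y) (x := y - ext q) (y := z) h1.le k3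
          (by linear_combination a6) (by linear_combination k2)
        rw [show y - ext q - y = -ext q by ring, g_neg] at e1
        linear_combination e1
      · left
        have e1 := arc_sub (a := y - q) (b := t) (x := z) (y := y - ext q) hq k3
          (by linear_combination hs1 + hts + k1) (by linear_combination hq1 + a5)
        rw [show y - ext q - (y - q) = q - ext q by ring] at e1
        have e2 : g (z - (y - q)) - g q ≤ gam r q (z - y) := by
          unfold gam
          rw [if_neg (by exact not_le.mpr (by linear_combination h1 + k2))]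
          unfold vir
          refine le_trans ?_ (le_max_right _ _)
          rw [show -(z - y) - q = -(z - (y - q)) by ring, g_neg]
        linear_combination -a7 + e1 + e2)
  have e3 : gam r q (t - y) ≤ g (q - y + t) - g q := by
    unfold gam
    rw [if_neg (by exact not_le.mpr (by linear_combination h1))]
    unfold vir
    rw [show -(t - y) - q = -(q - y + t) by ring, g_neg]
    apply max_le _ le_rfl
    have : g q ≤ g (q - y + t) := g_anti (by linear_combination hq) (by linear_combination h1)
    linear_combination this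
  simp only [j1, sub_self, g_zero] at h3
  rw [show y - ext q - t = -(ext q - y + t) by ring, g_neg] at h3
  simp only [j1]
  linear_combination e3 + h3

theorem t_eq (P : Par s t) : g (1 / 2 * (g s + 1)) = t := by
  have h := P.gt
  have ht0 := P.t0
  have hts := P.ts
  have hs1 := P.s1
  rw [show 1 / 2 * (g s + 1) = g t by linear_combination -(1 / 2) * h]
  exact gg ht0 (by linear_combination hts + hs1)

theorem t_gt (P : Par s t) : 19 / 50 ≤ t := by
  have h := P.gt
  have h0' := P.s0
  have h1 := P.s1
  have ht0 := P.t0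
  have hts := P.ts
  by_contra hc
  have hc := not_le.1 hc
  have e1 := g_sq (r := s) (by linear_combination (549 / 500) * h1 + (mul_nonneg (sub_nonneg.mpr h0') (sub_nonneg.mpr h1)))
  have e2 := g_sq (r := t) (by linear_combination (sq_nonneg (g s)) + (66 / 125) * h0' + (66 / 125) * hc + e1 + (mul_nonneg (sub_nonneg.mpr h0') (sub_nonneg.mpr hts)) +
    (mul_nonneg (sub_nonneg.mpr ht0) (sub_nonneg.mpr hts)))
  have g0 := g_nonneg s
  have g1 := g_nonneg t
  have k1 : g s ≤ 84926 / 100000 := by exact not_lt.mp (fun hg__ => absurd h0' (not_le.mpr (by linear_combination (42463 / 26400) * hg__ + (125 / 132) * e1 + (125 / 132) * (mul_nonneg (sub_nonneg.mpr h0') (sub_nonneg.mpr h0')) + (125 / 132) * (mul_pos (sub_pos.mpr hg__) (sub_pos.mpr hg__)))))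
  have k2 : 92498 / 100000 ≤ g t := by linear_combination (33 / 125) * h0' + (19 / 50) * hc + (1 / 4) * e1 - e2 + (1 / 4) * (mul_nonneg (sub_nonneg.mpr (ge_of_eq h)) (sub_nonneg.mpr (le_of_eq h))) +
    (1 / 2) * (mul_nonneg (sub_nonneg.mpr (le_of_eq h)) (sub_nonneg.mpr g0)) + (1 / 4) * (mul_nonneg (sub_nonneg.mpr h0') (sub_nonneg.mpr h0')) +
    (mul_nonneg (sub_nonneg.mpr ht0) (sub_nonneg.mpr (le_of_lt hc)))
  exact absurd k1 (not_le.mpr (by linear_combination h + 2 * k2))

/-- The row when the new point is between `h0` and `h0 + s / 2`. -/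
theorem highC (P : Par s t) {p q v : ℝ} (hs : Side p q v) (h1 : h0 ≤ y) (h2 : y ≤ h0 + s / 2)
    (hq : q ≤ y) : 2 + 2 * g s ≤ 2 * gn (j1 t) r v y + mg s (gam r v) y := by
  have hh := h0_lt
  have hg := h0_gt
  have s0 := P.s0
  have s1 := P.s1
  have ht0 := P.t0
  have hts := P.ts
  have htg := t_gt P
  have te := t_eq P
  have p0 := hs.p0
  have p1 := hs.p1
  have q0 := hs.q0
  have q1 := hs.q1
  have e2 := hs.gq
  have k3 := mid_j3 P (r := r) (u := v) h1 h2
  have k6 := mid_j6 P (r := r) (u := v) h1 (by linear_combination h1 + 2 * h2)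
  have k7 := mid_j7 P (r := r) (u := v) h1 (by linear_combination h1 + 2 * h2)
  have kn := gn_nonneg (r := r) (q := v) (y := y) (j1_ok P)
  have kw : y - p ≤ t → 1 + g p + g q - g (p - y + t) - g (q - y + t) ≤ gn (j1 t) r v y := by
    intro h
    have := wall_hi P (r := r) (q := v) (y := y) (by linear_combination h1 + hg + s1 + hts) hs.r0 hs.r1 (by
      rcases hs.hr with h5 | h5 <;> rw [h5] <;> linarith)
    rcases hs.hr with h5 | h5
    · rw [h5, ← hs.pq] at this
      rw [h5]
      linear_combination this
    · rw [h5, ← hs.qp] at this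
      rw [h5]
      linear_combination this
  rw [mg_def]
  rcases le_total y (219 / 250) with h3 | h3
  · -- near the corner
    have k2 := mid_j2a P (r := r) (u := v) h1 (by linear_combination hg + (17 / 50) * s0 + h3)
    have hg1 : 48 / 100 ≤ g q := by
      have e := g_sq (r := q) (by linear_combination (101 / 10000) * h2 + (1 / 10000) * hh + (101 / 20000) * s1 + (433 / 250) * q1 +
        (mul_nonneg (sub_nonneg.mpr h1) (sub_nonneg.mpr hq)) + (mul_nonneg (sub_nonneg.mpr h1) (sub_nonneg.mpr (le_of_lt hh))) +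
        (mul_nonneg (sub_nonneg.mpr h1) (sub_nonneg.mpr h3)) + 2 * (mul_nonneg (sub_nonneg.mpr hq) (sub_nonneg.mpr (le_of_lt hg))) +
        (mul_nonneg (sub_nonneg.mpr hq) (sub_nonneg.mpr q0)) + (mul_pos (sub_pos.mpr hh) (sub_pos.mpr hg)))
      have := g_nonneg q
      exact not_lt.mp (fun hg__ => absurd h3 (not_le.mpr (by linear_combination (4800 / 18661) * hg__ + (17320 / 18661) * hq - (10000 / 18661) * e + (10000 / 18661) * (mul_nonneg (sub_nonneg.mpr h1) (sub_nonneg.mpr (le_of_lt hh))) + (10000 / 18661) * (mul_nonneg (sub_nonneg.mpr h1) (sub_nonneg.mpr q1)) + (20000 / 18661) * (mul_nonneg (sub_nonneg.mpr hq) (sub_nonneg.mpr (le_of_lt hg))) + (10000 / 18661) * (mul_nonneg (sub_nonneg.mpr hq) (sub_nonneg.mpr q0)) + (13410000 / 18661) * (mul_pos (sub_pos.mpr hh) (sub_pos.mpr hg)) + (13400000 / 18661) * (mul_pos (sub_pos.mpr hg) (sub_pos.mpr hg)) + (10000 / 18661) * (mul_nonneg (sub_nonneg.mpr (le_of_lt hg__)) (sub_nonneg.mpr this)))))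
    have hp2 : 848 / 1000 ≤ p := by
      have : p = q / 2 + h0 * g q := hs.qp
      linear_combination (1 / 2) * q0 + (433 / 500) * hg1 - this + 9800 * (mul_pos (sub_pos.mpr hh) (sub_pos.mpr hg)) +
        9800 * (mul_pos (sub_pos.mpr hg) (sub_pos.mpr hg)) + (mul_nonneg (sub_nonneg.mpr (le_of_lt hg)) (sub_nonneg.mpr hg1))
    obtain ⟨w, hw⟩ : ∃ w, w = h0 - p := ⟨_, rfl⟩
    have ep : h0 - w = p := by rw [hw]; ring
    obtain ⟨x, hx⟩ : ∃ x, x = y - q := ⟨_, rfl⟩
    have b := THi.main (s := s) (x := x) (w := w) s0 s1 (by linear_combination hq - hx) (by linear_combination hg + q0 + h3 + hx) (by linear_combination p1 - hw)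
      (by linear_combination hh + hp2 + hw) (by linear_combination hq - hx) (by linear_combination p1 - hw)
    rw [ep, ← hs.pq, te, show q + x = y by rw [hx]; ring] at b
    have := kw (by linear_combination htg + p0 + h3)
    linear_combination -2 * e2 + (9 / 5) * k3 + (1 / 5) * k6 + (1 / 5) * k7 + (9 / 5) * k2 +
      b + 2 * this
  · rcases le_total y (h0 + 17 / 50 * s) with h4 | h4
    · have k2 := mid_j2a P (r := r) (u := v) h1 h4
      have fin : ∀ b : (0 < ((((9 / 5 * (((2 * (g ((h0 + (17 / 50 * s)) - y))) - 1) +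
          (((2 * (g ((h0 + s) - y))) + 1) - (2 * (g (17 / 50 * s)))))) +
          (1 / 5 * (((2 * (g (y - h0))) - 1) + ((2 * (g ((h0 + s) - y))) - 1)))) - 2) -
          (2 * (g s)))) ∨ (0 < (((((9 / 5 * (((2 * (g ((h0 + (17 / 50 * s)) - y))) - 1) +
          (((2 * (g ((h0 + s) - y))) + 1) - (2 * (g (17 / 50 * s)))))) +
          (1 / 5 * (((2 * (g (y - h0))) - 1) + ((2 * (g ((h0 + s) - y))) - 1)))) - 2) -
          (2 * (g s))) + (2 * (((((g p) + ((h0 * p) - (1 / 2 * (g p)))) + 1) -
          (g ((p - y) + t))) - (g ((q - y) + t))))) ∧ 0 < (t - (y - p))) ∨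
          (0 < (q - y)) ∨ (0 < (y - (h0 + (17 / 50 * s)))) ∨ (0 < (y - (h0 + (1 / 2 * s)))),
          2 + 2 * g s ≤ 2 * gn (j1 t) r v y + (9 / 5 * (gn (j2 s) r v y + gn (j3 s) r v y) +
            1 / 5 * (gn (j6 s) r v y + gn (j7 s) r v y)) := by
        intro b
        rcases b with b | ⟨b, b'⟩ | b | b | b
        · linear_combination (9 / 5) * k3 + (1 / 5) * k6 + (1 / 5) * k7 + 2 * kn + (9 / 5) * k2 + b
        · have := kw (by linear_combination b')
          linear_combination -2 * e2 + (9 / 5) * k3 + (1 / 5) * k6 + (1 / 5) * k7 + (9 / 5) * k2 +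
            b + 2 * this
        all_goals linarith
      apply fin
      rcases le_total y (49 / 50) with h5 | h5
      · have b := Hi1.mainA s0 s1 h3 h5 p0 (by linear_combination hh + p1)
        rw [← hs.pq, te] at b
        exact b
      · have b := Hi1.mainB s0 s1 h5 (by linear_combination h2 + hh + (1 / 2) * s1) p0 (by linear_combination hh + p1)
        rw [← hs.pq, te] at b
        exact b
    · have k2 := mid_j2b P (r := r) (u := v) h4 (by linear_combination h1 + 2 * h2)
      have b := Hi2.mainB (y := y) s0 s1 (by linear_combination hg + (17 / 50) * s0 + h4) (by linear_combination h2 + hh + (1 / 2) * s1) p0 (by linear_combination hh + p1)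
      rw [← hs.pq, te] at b
      rcases b with b | ⟨b, b'⟩ | b | b | b
      · linear_combination (9 / 5) * k3 + (1 / 5) * k6 + (1 / 5) * k7 + 2 * kn + (9 / 5) * k2 + b
      · have := kw (by linear_combination b')
        linear_combination -2 * e2 + (9 / 5) * k3 + (1 / 5) * k6 + (1 / 5) * k7 + (9 / 5) * k2 +
          b + 2 * this
      all_goals linarith

end Pool.Agent.Strip051.FourE
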