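import Pool.Agent.Strip051.FourE.Gain
import Pool.Agent.Strip051.FourE.High
import Pool.Agent.Strip051.FourE.Cra
import Pool.Agent.Strip051.FourE.Crb1
import Pool.Agent.Strip051.FourE.Crb2
import Pool.Agent.Strip051.FourE.Crb3
import Pool.Agent.Strip051.FourE.Crb4

/-! # The row of a crude side with a higher upper disc -/

namespace Pool.Agent.Strip051.FourE

open Pool.Agent.StripNear Pool.Agent.StripSquare Pool.Agent.Strip051
open Pool.Agent.Strip051.Four (mirP j1 gn arc_sub le_gn gn_nonneg g_le_of_abs ext_facts)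
open Pool.Agent.Strip051.FourC (ga le_ga ga_nonneg)

section

variable {j : Probe} {H e w y : ℝ}

/-- The value of the front at a node. -/
theorem gamH_at {C : ℝ} (a1 : y ≤ C) (a2 : C ≤ y + e) (a3 : y + 2 * w - e ≤ C)
    (he : 0 ≤ g e) : gamH e w y (C - y) = g (y + w - C) - g (e - w) + g e := by
  have h6 : g (e - w) ≤ g (C - y - w) := g_le_of_abs (by linear_combination a2) (by linear_combination a3)
  unfold gamH
  rw [if_pos (by linear_combination a1)]
  unfold hi
  rw [max_eq_right (by linear_combination he + h6), ← g_neg (C - y - w), show -(C - y - w) = y + w - C by ring]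
  ring

/-- Two nodes before the front with a higher upper disc. -/
theorem node_hi {C1 α1 C2 α2 : ℝ} (hj : j.Ok H) (e1 : e ≤ 1) (h0' : 0 ≤ w) (h1 : w ≤ e)
    (N1 : Node j C1 α1) (N2 : Node j C2 α2) (a1 : y ≤ C1) (a2 : C1 ≤ y + w) (a3 : y ≤ C2)
    (a4 : C2 ≤ y + e) (a5 : y + 2 * w - e ≤ C2) :
    g (e - w) + 1 - (g (y + e - C1) + α1) - (g (y + w - C2) + α2) ≤ ga j (gamH e w y) y := by
  have h4 : g e ≤ g (y + e - C1) := g_le_of_abs (by linear_combination a1) (by linear_combination h0' + 2 * h1 + a2)
  have h3 := le_ga (y := y) (z0 := C2) (v := g e - g (y + e - C1) - α1) hj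
    (fun v => gamH_nonneg e w y v) N2.lo N2.hi (by
      intro z k1 k2
      have h3 := N1.arc z k1 k2
      have hg0 := g_nonneg (z - y)
      rcases le_total (z - y) e with hz | hz
      · right
        rcases le_total (-1) (z - C1) with h5 | h5
        · have := four (x := z - C1) (y := z - y) (z := y + e - C1) (w := e) h5
            (by linear_combination e1) (by linear_combination a1) (by linear_combination hz) (by ring)
          linear_combination h3 + this
        · have : g (z - C1) = 0 := g_far (by rw [abs_of_nonpos (by linear_combination h5)]; linear_combination h5)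
          linear_combination h4 + h3 + hg0 + this
      · left
        unfold gamH
        rw [if_pos (by linear_combination h0' + h1 + hz)]
        unfold hi
        rcases le_total (z - C1) 1 with h5 | h5
        · refine le_trans ?_ (le_max_right _ _)
          have := four (x := e - w) (y := z - y - w) (z := y + e - C1) (w := z - C1)
            (by linear_combination h1) (by linear_combination h5) (by linear_combination hz) (by linear_combination a2) (by ring)
          linear_combination h3 + this
        · have : g (z - C1) = 0 := g_far (h5.trans (le_abs_self _))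
          refine le_trans ?_ (le_max_left _ _)
          linear_combination h4 + h3 + this)
  rw [gamH_at a3 a4 a5 (g_nonneg e)] at h3
  have := N2.val
  linear_combination h3 + this

/-- The new arc is above the body, before the front with a higher upper disc. -/
theorem alone_hi {v C2 α2 : ℝ} (hj : j.Ok H)
    (ha : ∀ z, j.lo ≤ z → z ≤ j.hi → j.a z + v ≤ g (z - y))
    (N2 : Node j C2 α2) (a3 : y ≤ C2) (a4 : C2 ≤ y + e) (a5 : y + 2 * w - e ≤ C2) :
    v + g (e - w) - g e + 1 - (g (y + w - C2) + α2) ≤ ga j (gamH e w y) y := by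
  have h3 := le_ga (y := y) (z0 := C2) (v := v) hj
    (fun v => gamH_nonneg e w y v) N2.lo N2.hi (fun z k1 k2 => Or.inr (ha z k1 k2))
  rw [gamH_at a3 a4 a5 (g_nonneg e)] at h3
  have := N2.val
  linear_combination h3 + this

end

variable {s t r y : ℝ} (P : Par s t)

include P

theorem crude_a (y0 : 19 / 50 ≤ y) (y1 : y ≤ 1 / 2) (r0 : 1 / 2 ≤ r) (r1 : r ≤ 31 / 50) :
    9 / 5 * (1 + g (y + 3 / 200) - (g (y + ext r - h0) + 1 - g (17 / 50 * s)) -
      g (h0 + 17 / 50 * s - (ext r - 3 / 200))) +
    1 / 5 * (1 + g (y + 3 / 200) - g (y + ext r - h0) - g (ext r - 3 / 200 - h0)) ≤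
      mg s (gamH (ext r) (ext r - y - 3 / 200) y) y := by
  have hh := h0_lt
  have hg := h0_gt
  have s0 := P.s0
  have s1 := P.s1
  obtain ⟨a1, a2, a3, a4, a5⟩ := ext_facts r0 (by linear_combination r1)
  have hr : 9 / 10 ≤ ext r := by
    have h6 : 76 / 100 ≤ g r := by
      have e := g_sq (r := r) (by linear_combination (28 / 25) * r1 + (mul_nonneg (sub_nonneg.mpr r0) (sub_nonneg.mpr r1)))
      have := g_nonneg r
      exact not_lt.mp (fun hg__ => absurd r1 (not_le.mpr (by linear_combination (19 / 28) * hg__ - (25 / 28) * e + (25 / 28) * (mul_nonneg (sub_nonneg.mpr r0) (sub_nonneg.mpr r1)) + (25 / 28) * (mul_nonneg (sub_nonneg.mpr (le_of_lt hg__)) (sub_nonneg.mpr this)))))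
    have h7 : ext r = r / 2 + h0 * g r := rfl
    linear_combination (1 / 2) * r0 + (433 / 500) * h6 - h7 + 7600 * (mul_pos (sub_pos.mpr hh) (sub_pos.mpr hg)) +
      7600 * (mul_pos (sub_pos.mpr hg) (sub_pos.mpr hg)) + (mul_nonneg (sub_nonneg.mpr (le_of_lt hg)) (sub_nonneg.mpr h6))
  have k2 := node_hi (y := y) (e := ext r) (w := ext r - y - 3 / 200) (j2_ok P) a2 (by linear_combination y1 + hr)
    (by linear_combination y0) (n23 P) (n22 P) (by linear_combination y1 + hg) (by linear_combination hh + hr) (by linear_combination y1 + hg + (17 / 50) * s0) (by linear_combination y0 + hh + (17 / 50) * s1 + hr)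
    (by linear_combination y0 + hg + (17 / 50) * s0 + a2)
  have k6 := node_hi (y := y) (e := ext r) (w := ext r - y - 3 / 200) (j6_ok P) a2 (by linear_combination y1 + hr)
    (by linear_combination y0) (n62 P) (n62 P) (by linear_combination y1 + hg) (by linear_combination hh + hr) (by linear_combination y1 + hg) (by linear_combination y0 + hh + a1)
    (by linear_combination y0 + hg + a2)
  have k3 := ga_nonneg (y := y) (j3_ok P) (fun v => gamH_nonneg (ext r) (ext r - y - 3 / 200) y v)
  have k7 := ga_nonneg (y := y) (j7_ok P) (fun v => gamH_nonneg (ext r) (ext r - y - 3 / 200) y v)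
  rw [show ext r - (ext r - y - 3 / 200) = y + 3 / 200 by ring,
    show y + (ext r - y - 3 / 200) - (h0 + 17 / 50 * s) =
      -(h0 + 17 / 50 * s - (ext r - 3 / 200)) by ring, g_neg] at k2
  rw [show ext r - (ext r - y - 3 / 200) = y + 3 / 200 by ring,
    show y + (ext r - y - 3 / 200) - h0 = ext r - 3 / 200 - h0 by ring] at k6
  unfold mg
  linear_combination (9 / 5) * k2 + (1 / 5) * k6 + (9 / 5) * k3 + (1 / 5) * k7

theorem crude_b (y0 : 19 / 50 ≤ y) (y1 : y ≤ 1 / 2) (r0 : 1 / 2 ≤ r) (r1 : r ≤ 31 / 50)
    (hX : h0 + s ≤ y + ext r) :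
    9 / 5 * (1 + g (y + 3 / 200) - (g (y + ext r - s) + g s + 1 / 2 - g (17 / 50 * s)) -
      g (h0 + 17 / 50 * s - (ext r - 3 / 200)) +
      (g (y + 3 / 200) + g s - g (y + ext r - h0) - g (h0 + s - (ext r - 3 / 200)))) +
    1 / 5 * (g (h0 + s - y) - g s - g (ext r - 3 / 200 - h0) + g (y + 3 / 200) -
      (h0 * r - 1 / 2 * g r) + 1 +
      (g (y + 3 / 200) + g s - g (y + ext r - h0) - g (h0 + s - (ext r - 3 / 200)))) ≤
      mg s (gamH (ext r) (ext r - y - 3 / 200) y) y := by
  have hh := h0_lt
  have hg := h0_gt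
  have s0 := P.s0
  have s1 := P.s1
  have ge := gext r0 (by linear_combination r1)
  obtain ⟨a1, a2, a3, a4, a5⟩ := ext_facts r0 (by linear_combination r1)
  have hr : 9 / 10 ≤ ext r := by
    have h6 : 76 / 100 ≤ g r := by
      have e := g_sq (r := r) (by linear_combination (28 / 25) * r1 + (mul_nonneg (sub_nonneg.mpr r0) (sub_nonneg.mpr r1)))
      have := g_nonneg r
      exact not_lt.mp (fun hg__ => absurd r1 (not_le.mpr (by linear_combination (19 / 28) * hg__ - (25 / 28) * e + (25 / 28) * (mul_nonneg (sub_nonneg.mpr r0) (sub_nonneg.mpr r1)) + (25 / 28) * (mul_nonneg (sub_nonneg.mpr (le_of_lt hg__)) (sub_nonneg.mpr this)))))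
    have h7 : ext r = r / 2 + h0 * g r := rfl
    linear_combination (1 / 2) * r0 + (433 / 500) * h6 - h7 + 7600 * (mul_pos (sub_pos.mpr hh) (sub_pos.mpr hg)) +
      7600 * (mul_pos (sub_pos.mpr hg) (sub_pos.mpr hg)) + (mul_nonneg (sub_nonneg.mpr (le_of_lt hg)) (sub_nonneg.mpr h6))
  have k2 := node_hi (y := y) (e := ext r) (w := ext r - y - 3 / 200) (j2_ok P) a2 (by linear_combination 2 * y1 + hX + hg + s0)
    (by linear_combination y0) (n24 P) (n22 P) (by linear_combination y1 + s0) (by linear_combination y1 + hX + hg) (by linear_combination y1 + hg + (17 / 50) * s0) (by linear_combination hX + (33 / 50) * s0)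
    (by linear_combination y0 + hg + (17 / 50) * s0 + a2)
  have k3 := node_hi (y := y) (e := ext r) (w := ext r - y - 3 / 200) (j3_ok P) a2 (by linear_combination 2 * y1 + hX + hg + s0)
    (by linear_combination y0) (n31 P) (n33 P) (by linear_combination y1 + hg) (by linear_combination y1 + hX + s0) (by linear_combination y1 + hg + s0) (by linear_combination hX)
    (by linear_combination y0 + hg + s0 + a2)
  have k6 := alone_hi (y := y) (e := ext r) (w := ext r - y - 3 / 200) (j6_ok P)
    (al6 P (y := y) (by linear_combination hX + a2) (by linear_combination y1 + hg)) (n62 P) (by linear_combination y1 + hg) (by linear_combination hX + s0)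
    (by linear_combination y0 + hg + a2)
  have k7 := node_hi (y := y) (e := ext r) (w := ext r - y - 3 / 200) (j7_ok P) a2 (by linear_combination 2 * y1 + hX + hg + s0)
    (by linear_combination y0) (n71 P) (n72 P) (by linear_combination y1 + hg) (by linear_combination y1 + hX + s0) (by linear_combination y1 + hg + s0) (by linear_combination hX)
    (by linear_combination y0 + hg + s0 + a2)
  rw [show ext r - (ext r - y - 3 / 200) = y + 3 / 200 by ring,
    show y + (ext r - y - 3 / 200) - (h0 + 17 / 50 * s) =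
      -(h0 + 17 / 50 * s - (ext r - 3 / 200)) by ring, g_neg] at k2
  rw [show ext r - (ext r - y - 3 / 200) = y + 3 / 200 by ring,
    show y + (ext r - y - 3 / 200) - (h0 + s) = -(h0 + s - (ext r - 3 / 200)) by ring,
    g_neg] at k3 k7
  rw [show ext r - (ext r - y - 3 / 200) = y + 3 / 200 by ring,
    show y + (ext r - y - 3 / 200) - h0 = ext r - 3 / 200 - h0 by ring] at k6
  unfold mg
  linear_combination (1 / 5) * ge + (9 / 5) * k2 + (9 / 5) * k3 + (1 / 5) * k6 + (1 / 5) * k7

/-- The crude row, the new point between `t` and `9 / 20`. -/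
theorem crudeD (y0 : t ≤ y) (y1 : y ≤ 9 / 20) (r0 : 1 / 2 ≤ r) (r1 : r < h0 * g y - y / 2)
    (r2 : r ≤ ext r - y - 3 / 200) :
    197 / 10000 + 1 / 20 * (57 / 100 - s) ≤ 8 * g y - 4 - 4 * g s +
      mg s (gamH (ext r) (ext r - y - 3 / 200) y) y := by
  have hh := h0_lt
  have hg := h0_gt
  have s0 := P.s0
  have s1 := P.s1
  have t0 := t_gt P
  have tn : 2 * g y - 1 - g s ≤ 0 := by
    have h := P.gt
    have := g_anti P.t0 y0
    linear_combination h + 2 * this
  have gy : g y ≤ 9251 / 10000 := by
    have e := g_sq (r := y) (by linear_combination (83 / 100) * y1 + (mul_nonneg (sub_nonneg.mpr y0) (sub_nonneg.mpr y1)) +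
      (mul_nonneg (sub_nonneg.mpr y1) (sub_nonneg.mpr t0)))
    have := g_nonneg y
    exact not_lt.mp (fun hg__ => absurd t0 (not_le.mpr (by linear_combination (9251 / 3800) * hg__ + y0 + (25 / 19) * e + (25 / 19) * (mul_nonneg (sub_nonneg.mpr y0) (sub_nonneg.mpr y0)) + (50 / 19) * (mul_nonneg (sub_nonneg.mpr y0) (sub_nonneg.mpr t0)) + (25 / 19) * (mul_nonneg (sub_nonneg.mpr t0) (sub_nonneg.mpr t0)) + (25 / 19) * (mul_pos (sub_pos.mpr hg__) (sub_pos.mpr hg__)))))
  have r3 : r ≤ 31 / 50 := by linear_combination (1 / 2) * y0 + (1 / 2) * t0 + (433 / 500) * gy + 10000 * (mul_pos (sub_pos.mpr r1) (sub_pos.mpr hh)) +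
    10000 * (mul_pos (sub_pos.mpr r1) (sub_pos.mpr hg)) + 9251 * (mul_pos (sub_pos.mpr hh) (sub_pos.mpr hh)) +
    9251 * (mul_pos (sub_pos.mpr hh) (sub_pos.mpr hg)) + (mul_nonneg (sub_nonneg.mpr (le_of_lt hg)) (sub_nonneg.mpr gy))
  rcases le_total (y + ext r) (h0 + s) with hX | hX
  · have k := crude_a P (y := y) (r := r) (by linear_combination y0 + t0) (by linear_combination y1) r0 r3
    have b := Cra.mainD (y := y) (r := r) s0 s1 (by linear_combination y0 + t0) y1 r0 r3
    rcases b with b | b | b | b | b <;> linarith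
  · have k := crude_b P (y := y) (r := r) (by linear_combination y0 + t0) (by linear_combination y1) r0 r3 hX
    rcases le_total s (139 / 250) with c1 | c1
    · have b := Crb1.mainD (y := y) (r := r) s0 c1 (by linear_combination y0 + t0) y1 r0 r3
      rcases b with b | b | b | b | b <;> linarith
    rcases le_total s (141 / 250) with c2 | c2
    · have b := Crb2.mainD (y := y) (r := r) c1 c2 (by linear_combination y0 + t0) y1 r0 r3
      rcases b with b | b | b | b | b <;> linarith
    rcases le_total s (567 / 1000) with c3 | c3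
    · have b := Crb3.mainD (y := y) (r := r) c2 c3 (by linear_combination y0 + t0) y1 r0 r3
      rcases b with b | b | b | b | b <;> linarith
    · have b := Crb4.mainD (y := y) (r := r) c3 s1 (by linear_combination y0 + t0) y1 r0 r3
      rcases b with b | b | b | b | b <;> linarith

/-- The crude row, the new point between `9 / 20` and `1 / 2`. -/
theorem crudeH (y0 : 9 / 20 ≤ y) (y1 : y ≤ 1 / 2) (r0 : 1 / 2 ≤ r) (r1 : r < h0 * g y - y / 2)
    (r2 : r ≤ ext r - y - 3 / 200) :
    0 ≤ 8 * g y - 4 - 4 * g s + mg s (gamH (ext r) (ext r - y - 3 / 200) y) y := by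
  have hh := h0_lt
  have hg := h0_gt
  have s0 := P.s0
  have s1 := P.s1
  have gy : g y ≤ 9251 / 10000 := by
    have e := g_sq (r := y) (by linear_combination (19 / 20) * y1 + (mul_nonneg (sub_nonneg.mpr y0) (sub_nonneg.mpr y1)))
    have := g_nonneg y
    exact not_lt.mp (fun hg__ => absurd y0 (not_le.mpr (by linear_combination (9251 / 5000) * hg__ + e + (mul_nonneg (sub_nonneg.mpr y1) (sub_nonneg.mpr y1)) + (mul_pos (sub_pos.mpr hg__) (sub_pos.mpr hg__)))))
  have r3 : r ≤ 31 / 50 := by linear_combination (1 / 2) * y0 + (433 / 500) * gy + 10000 * (mul_pos (sub_pos.mpr r1) (sub_pos.mpr hh)) +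
    10000 * (mul_pos (sub_pos.mpr r1) (sub_pos.mpr hg)) + 9251 * (mul_pos (sub_pos.mpr hh) (sub_pos.mpr hh)) +
    9251 * (mul_pos (sub_pos.mpr hh) (sub_pos.mpr hg)) + (mul_nonneg (sub_nonneg.mpr (le_of_lt hg)) (sub_nonneg.mpr gy))
  rcases le_total (y + ext r) (h0 + s) with hX | hX
  · have k := crude_a P (y := y) (r := r) (by linear_combination y0) (by linear_combination y1) r0 r3
    have b := Cra.mainH (y := y) (r := r) s0 s1 (by linear_combination y0) y1 r0 r3
    rcases b with b | b | b | b <;> linarith
  · have k := crude_b P (y := y) (r := r) (by linear_combination y0) (by linear_combination y1) r0 r3 hX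
    have b := Crb1.mainH (y := y) (r := r) s0 s1 (by linear_combination y0) y1 r0 r3
    rcases b with b | b | b | b <;> linarith

end Pool.Agent.Strip051.FourE
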