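import Pool.Agent.Strip051.FourC.Fronts
import Pool.Agent.Strip051.FourE.Slope

/-! # Eight probes for the strip of height `2 h0 + s`, `66 / 125 ≤ s ≤ 57 / 100`

The probes are the point of the floor, a unit arc at the floor, a body of four unit arcs, a body of
two unit arcs and their mirror images. -/

namespace Pool.Agent.Strip051.FourE

open Pool.Agent.StripNear Pool.Agent.StripSquare Pool.Agent.Strip051
open Pool.Agent.Strip051.Four (mirP j1 gn mirP_ok mirP_val mirP_gn mirP_mirP gam_neg arc_sub le_gn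
  gn_nonneg adm_low g_le_of_abs ext_facts gain_ge)
open Pool.Agent.Strip051.FourC (ga gn_eq le_ga ga_nonneg k0 k5 j4)

/-- The body of the middle probe: four unit arcs. -/
noncomputable def a2 (s z : ℝ) : ℝ :=
  min (min (g (z - (h0 + s)) + (g (17 / 50 * s) - g s)) (g (z - (h0 + 17 / 50 * s))))
    (min (g (z - h0) + (1 - g (17 / 50 * s))) (g (z - s) + (g s + 1 / 2 - g (17 / 50 * s))))

/-- The middle probe. -/
noncomputable def j2 (s : ℝ) : Probe := ⟨s, s + 1, a2 s⟩

/-- The mirror image of the middle probe. -/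
noncomputable def j3 (s : ℝ) : Probe := mirP (2 * h0 + s) (j2 s)

/-- The small body: two unit arcs. -/
noncomputable def a6 (s z : ℝ) : ℝ := min (g (z - (h0 + s)) + (1 - g s)) (g (z - h0))

/-- The small probe. -/
noncomputable def j6 (s : ℝ) : Probe := ⟨h0 + s - 1, h0 + s, a6 s⟩

/-- The mirror image of the small probe. -/
noncomputable def j7 (s : ℝ) : Probe := mirP (2 * h0 + s) (j6 s)

/-- The parameters. -/
structure Par (s t : ℝ) : Prop where
  s0 : 66 / 125 ≤ s
  s1 : s ≤ 57 / 100
  t0 : 0 ≤ t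
  ts : t ≤ s
  gt : 2 * g t = 1 + g s

theorem par_exists {s : ℝ} (h1 : 66 / 125 ≤ s) (h2 : s ≤ 57 / 100) : ∃ t, Par s t := by
  have hc0 := g_nonneg s
  have hc1 := g_le_one s
  have hc := g_sq (r := s) (by linear_combination (549 / 500) * h2 + (mul_nonneg (sub_nonneg.mpr h1) (sub_nonneg.mpr h2)))
  have hu := g_sq (r := (1 + g s) / 2) (by linear_combination (1 / 4) * (sq_nonneg (s)) + (1 / 2) * hc1 + (1 / 4) * hc)
  refine ⟨g ((1 + g s) / 2), h1, h2, g_nonneg _, ?_, ?_⟩
  · apply abs_le_of_sq_le_sq' _ (by linear_combination h1) |>.2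
    linear_combination -(9 / 8) * hc + hu + (mul_nonneg (sub_nonneg.mpr (sq_nonneg (g ((1 + g s) / 2)))) (sub_nonneg.mpr hc0)) +
      (1 / 2) * (mul_nonneg (sub_nonneg.mpr (sq_nonneg (g ((1 + g s) / 2)))) (sub_nonneg.mpr (le_of_eq hc))) +
      (1 / 4) * (mul_nonneg (sub_nonneg.mpr (sq_nonneg (s))) (sub_nonneg.mpr hc1)) + (1 / 2) * (mul_nonneg (sub_nonneg.mpr (sq_nonneg (s))) (sub_nonneg.mpr (ge_of_eq hu))) +
      (1 / 8) * (mul_nonneg (sub_nonneg.mpr (sq_nonneg (g s))) (sub_nonneg.mpr (le_of_eq hc))) +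
      (mul_nonneg (sub_nonneg.mpr (sq_nonneg (g s))) (sub_nonneg.mpr (ge_of_eq hu))) + 2 * (mul_nonneg (sub_nonneg.mpr (sq_nonneg ((1 + g s) / 2))) (sub_nonneg.mpr (le_of_eq hu)))
  · unfold g at *
    rw [show 1 - (√(1 - ((1 + √(1 - s ^ 2)) / 2) ^ 2)) ^ 2 = ((1 + √(1 - s ^ 2)) / 2) ^ 2 by
      rw [hu]; ring, Real.sqrt_sq (by positivity)]
    ring

/-! ### Nodes of a body -/

/-- The unit arc with centre `C` and height `α` is above the body and touches it at a point whose
old value is best at `C`. -/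
structure Node (j : Probe) (C α : ℝ) : Prop where
  lo : j.lo ≤ C
  hi : C ≤ j.hi
  arc : ∀ z, j.lo ≤ z → z ≤ j.hi → j.a z ≤ g (z - C) + α
  val : 1 - α ≤ j.a C

theorem Node.mir {j : Probe} {C α : ℝ} (h : Node j C α) (H : ℝ) : Node (mirP H j) (H - C) α := by
  refine ⟨by simp only [mirP]; linear_combination h.hi, by simp only [mirP]; linear_combination h.lo, ?_, ?_⟩
  · intro z h1 h2
    simp only [mirP] at h1 h2 ⊢
    have := h.arc (H - z) (by linear_combination h2) (by linear_combination h1)
    rwa [← g_neg (H - z - C), show -(H - z - C) = z - (H - C) by ring] at this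
  · simp only [mirP, sub_sub_cancel]
    exact h.val

/-! ### The middle body -/

section

variable {s t z : ℝ}

theorem a2_le1 : a2 s z ≤ g (z - (h0 + s)) + (g (17 / 50 * s) - g s) :=
  (min_le_left _ _).trans (min_le_left _ _)

theorem a2_le2 : a2 s z ≤ g (z - (h0 + 17 / 50 * s)) :=
  (min_le_left _ _).trans (min_le_right _ _)

theorem a2_le3 : a2 s z ≤ g (z - h0) + (1 - g (17 / 50 * s)) :=
  (min_le_right _ _).trans (min_le_left _ _)

theorem a2_le4 : a2 s z ≤ g (z - s) + (g s + 1 / 2 - g (17 / 50 * s)) :=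
  (min_le_right _ _).trans (min_le_right _ _)

theorem arc12 (P : Par s t) (h1 : s ≤ z) (h2 : z ≤ h0) :
    g (z - (h0 + s)) + (g (17 / 50 * s) - g s) ≤ g (z - (h0 + 17 / 50 * s)) := by
  have hh := h0_lt
  have hg := h0_gt
  have := P.s0
  have := P.s1
  have e1 := arc_sub (a := h0 + 17 / 50 * s) (b := h0 + s) (x := z) (y := h0) (by linear_combination (33 / 50) * (‹66 / 125 ≤ s›)) h2
    (by linear_combination h1 + hh) (by linear_combination (17 / 50) * (‹66 / 125 ≤ s›))
  rw [show h0 - (h0 + 17 / 50 * s) = -(17 / 50 * s) by ring, show h0 - (h0 + s) = -s by ring,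
    g_neg, g_neg] at e1
  linear_combination e1

theorem arc21 (P : Par s t) (h1 : h0 ≤ z) (h2 : z ≤ s + 1) :
    g (z - (h0 + 17 / 50 * s)) ≤ g (z - (h0 + s)) + (g (17 / 50 * s) - g s) := by
  have hh := h0_lt
  have hg := h0_gt
  have := P.s0
  have := P.s1
  have e1 := arc_sub (a := h0 + 17 / 50 * s) (b := h0 + s) (x := h0) (y := z) (by linear_combination (33 / 50) * (‹66 / 125 ≤ s›)) h1
    (by linear_combination this) (by linear_combination h2 + hg + (33 / 50) * this)
  rw [show h0 - (h0 + 17 / 50 * s) = -(17 / 50 * s) by ring, show h0 - (h0 + s) = -s by ring,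
    g_neg, g_neg] at e1
  linear_combination e1

theorem arc23 (P : Par s t) (h1 : s ≤ z) (h2 : z ≤ h0 + 17 / 50 * s) :
    g (z - (h0 + 17 / 50 * s)) ≤ g (z - h0) + (1 - g (17 / 50 * s)) := by
  have hh := h0_lt
  have hg := h0_gt
  have := P.s0
  have := P.s1
  have e1 := arc_sub (a := h0) (b := h0 + 17 / 50 * s) (x := z) (y := h0 + 17 / 50 * s)
    (by linear_combination (17 / 50) * (‹66 / 125 ≤ s›)) h2 (by linear_combination h1 + hh + (33 / 50) * (‹66 / 125 ≤ s›)) (by linear_combination (17 / 33) * h1 + (17 / 33) * h2 + (17 / 33) * hh)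
  rw [add_sub_cancel_left, sub_self, g_zero] at e1
  linear_combination e1

theorem arc32 (P : Par s t) (h1 : h0 + 17 / 50 * s ≤ z) (h2 : z ≤ s + 1) :
    g (z - h0) + (1 - g (17 / 50 * s)) ≤ g (z - (h0 + 17 / 50 * s)) := by
  have hh := h0_lt
  have hg := h0_gt
  have := P.s0
  have := P.s1
  have e1 := arc_sub (a := h0) (b := h0 + 17 / 50 * s) (x := h0 + 17 / 50 * s) (y := z)
    (by linear_combination (17 / 50) * (‹66 / 125 ≤ s›)) h1 (by linear_combination) (by linear_combination h2 + hg + this)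
  rw [add_sub_cancel_left, sub_self, g_zero] at e1
  linear_combination e1

theorem arc34 (P : Par s t) (h1 : s ≤ z) (h2 : z ≤ h0 + s) :
    g (z - h0) + (1 - g (17 / 50 * s)) ≤ g (z - s) + (g s + 1 / 2 - g (17 / 50 * s)) := by
  have hh := h0_lt
  have hg := h0_gt
  have := P.s0
  have := P.s1
  have e1 := arc_sub (a := s) (b := h0) (x := z) (y := h0 + s) (by linear_combination hg + this) h2
    (by linear_combination h1 + hh + (‹66 / 125 ≤ s›)) (by linear_combination hh)
  rw [add_sub_cancel_left, add_sub_cancel_right, g_h0] at e1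
  linear_combination e1

theorem arc43 (P : Par s t) (h1 : h0 + s ≤ z) (h2 : z ≤ s + 1) :
    g (z - s) + (g s + 1 / 2 - g (17 / 50 * s)) ≤ g (z - h0) + (1 - g (17 / 50 * s)) := by
  have hh := h0_lt
  have hg := h0_gt
  have := P.s0
  have := P.s1
  have e1 := arc_sub (a := s) (b := h0) (x := h0 + s) (y := z) (by linear_combination hg + this) h1
    (by linear_combination (‹66 / 125 ≤ s›)) (by linear_combination h2)
  rw [add_sub_cancel_left, add_sub_cancel_right, g_h0] at e1
  linear_combination e1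

/-- The cell `[s, h0]`. -/
theorem a2_eq1 (P : Par s t) (h1 : s ≤ z) (h2 : z ≤ h0) :
    a2 s z = g (z - (h0 + s)) + (g (17 / 50 * s) - g s) := by
  have := P.s0
  have e1 := arc12 P h1 h2
  have e2 := arc23 P h1 (by linear_combination h2 + (17 / 50) * this)
  have e3 := arc34 P h1 (by linear_combination h2 + this)
  unfold a2
  rw [min_eq_left e1, min_eq_left e3, min_eq_left (by linear_combination e1 + e2)]

/-- The cell `[h0, h0 + 17 / 50 s]`. -/
theorem a2_eq2 (P : Par s t) (h1 : h0 ≤ z) (h2 : z ≤ h0 + 17 / 50 * s) :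
    a2 s z = g (z - (h0 + 17 / 50 * s)) := by
  have hh := h0_lt
  have hg := h0_gt
  have := P.s0
  have := P.s1
  have e1 := arc21 P h1 (by linear_combination (33 / 17) * h1 + (50 / 17) * h2 + hh)
  have e2 := arc23 P (by linear_combination h1 + hg + this) h2
  have e3 := arc34 P (z := z) (by linear_combination h1 + hg + this) (by linear_combination (33 / 17) * h1 + (50 / 17) * h2)
  unfold a2
  rw [min_eq_right e1, min_eq_left e3, min_eq_left (by linarith)]

/-- The cell `[h0 + 17 / 50 s, h0 + s]`. -/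
theorem a2_eq3 (P : Par s t) (h1 : h0 + 17 / 50 * s ≤ z) (h2 : z ≤ h0 + s) :
    a2 s z = g (z - h0) + (1 - g (17 / 50 * s)) := by
  have hh := h0_lt
  have hg := h0_gt
  have := P.s0
  have := P.s1
  have e1 := arc21 P (by linarith) (by linarith)
  have e2 := arc32 P h1 (by linear_combination h2 + hh)
  have e3 := arc34 P (by linear_combination h1 + hg + (33 / 50) * this) h2
  unfold a2
  rw [min_eq_right e1, min_eq_left e3, min_eq_right (by linarith)]

/-- The cell `[h0 + s, s + 1]`. -/
theorem a2_eq4 (P : Par s t) (h1 : h0 + s ≤ z) (h2 : z ≤ s + 1) :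
    a2 s z = g (z - s) + (g s + 1 / 2 - g (17 / 50 * s)) := by
  have hh := h0_lt
  have := P.s0
  have := P.s1
  have e1 := arc21 P (z := z) (by linear_combination h1 + (‹66 / 125 ≤ s›)) (by linear_combination h2)
  have e2 := arc32 P (z := z) (by linear_combination h1 + (33 / 50) * (‹66 / 125 ≤ s›)) (by linear_combination h2)
  have e3 := arc43 P h1 h2
  unfold a2
  rw [min_eq_right e1, min_eq_right e3, min_eq_right (by linear_combination e2 + e3)]

theorem n21 (P : Par s t) : Node (j2 s) (h0 + s) (g (17 / 50 * s) - g s) := by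
  have hh := h0_lt
  have := P.s0
  have := P.s1
  refine ⟨by simp only [j2]; linear_combination h0_gt, by simp only [j2]; linear_combination hh, ?_, ?_⟩
  · intro z _ _
    exact a2_le1
  · simp only [j2]
    rw [a2_eq3 P (by linear_combination (33 / 50) * (‹66 / 125 ≤ s›)) le_rfl, add_sub_cancel_left]
    linear_combination

theorem n22 (P : Par s t) : Node (j2 s) (h0 + 17 / 50 * s) 0 := by
  have hh := h0_lt
  have hg := h0_gt
  have := P.s0
  have := P.s1
  refine ⟨by simp only [j2]; linear_combination hg + (33 / 50) * this, by simp only [j2]; linear_combination hh + (33 / 50) * (‹66 / 125 ≤ s›), ?_, ?_⟩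
  · intro z _ _
    rw [add_zero]
    exact a2_le2
  · simp only [j2]
    rw [a2_eq2 P (by linear_combination (17 / 50) * (‹66 / 125 ≤ s›)) le_rfl, sub_self, g_zero]
    linear_combination

theorem n23 (P : Par s t) : Node (j2 s) h0 (1 - g (17 / 50 * s)) := by
  have hh := h0_lt
  have hg := h0_gt
  have := P.s0
  have := P.s1
  refine ⟨by simp only [j2]; linear_combination hg + this, by simp only [j2]; linear_combination hh + (‹66 / 125 ≤ s›), ?_, ?_⟩
  · intro z _ _
    exact a2_le3
  · simp only [j2]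
    rw [a2_eq2 P le_rfl (by linear_combination (17 / 50) * (‹66 / 125 ≤ s›)), show h0 - (h0 + 17 / 50 * s) = -(17 / 50 * s) by ring, g_neg]
    linear_combination

theorem n24 (P : Par s t) : Node (j2 s) s (g s + 1 / 2 - g (17 / 50 * s)) := by
  have hh := h0_lt
  have hg := h0_gt
  have := P.s0
  have := P.s1
  refine ⟨by simp only [j2]; linear_combination, by simp only [j2]; linear_combination, ?_, ?_⟩
  · intro z _ _
    exact a2_le4
  · simp only [j2]
    rw [a2_eq1 P le_rfl (by linear_combination hg + this), show s - (h0 + s) = -h0 by ring, g_neg, g_h0]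
    linear_combination

theorem n31 (P : Par s t) : Node (j3 s) h0 (g (17 / 50 * s) - g s) := by
  have := (n21 P).mir (2 * h0 + s)
  rwa [show 2 * h0 + s - (h0 + s) = h0 by ring] at this

theorem n32 (P : Par s t) : Node (j3 s) (h0 + 33 / 50 * s) 0 := by
  have := (n22 P).mir (2 * h0 + s)
  rwa [show 2 * h0 + s - (h0 + 17 / 50 * s) = h0 + 33 / 50 * s by ring] at this

theorem n33 (P : Par s t) : Node (j3 s) (h0 + s) (1 - g (17 / 50 * s)) := by
  have := (n23 P).mir (2 * h0 + s)
  rwa [show 2 * h0 + s - h0 = h0 + s by ring] at this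

/-! ### The small body -/

theorem a6_le1 : a6 s z ≤ g (z - (h0 + s)) + (1 - g s) := min_le_left _ _

theorem a6_le2 : a6 s z ≤ g (z - h0) := min_le_right _ _

theorem a6_eq1 (P : Par s t) (h1 : h0 + s - 1 ≤ z) (h2 : z ≤ h0) :
    a6 s z = g (z - (h0 + s)) + (1 - g s) := by
  have := P.s0
  have := P.s1
  have e1 := arc_sub (a := h0) (b := h0 + s) (x := z) (y := h0) (by linear_combination (‹66 / 125 ≤ s›)) h2
    (by linear_combination h1) (by linear_combination)
  rw [sub_self, g_zero, show h0 - (h0 + s) = -s by ring, g_neg] at e1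
  exact min_eq_left (by linear_combination e1)

theorem a6_eq2 (P : Par s t) (h1 : h0 ≤ z) (h2 : z ≤ h0 + s) : a6 s z = g (z - h0) := by
  have := P.s0
  have := P.s1
  have e1 := arc_sub (a := h0) (b := h0 + s) (x := h0) (y := z) (by linear_combination h1 + h2) h1
    (by linear_combination this) (by linear_combination h2 + this)
  rw [sub_self, g_zero, show h0 - (h0 + s) = -s by ring, g_neg] at e1
  exact min_eq_right (by linear_combination e1)

theorem n61 (P : Par s t) : Node (j6 s) (h0 + s) (1 - g s) := by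
  have := P.s0
  refine ⟨by simp only [j6]; linear_combination, by simp only [j6]; linear_combination, ?_, ?_⟩
  · intro z _ _
    exact a6_le1
  · simp only [j6]
    rw [a6_eq2 P (by linear_combination this) le_rfl, add_sub_cancel_left]
    linear_combination

theorem n62 (P : Par s t) : Node (j6 s) h0 0 := by
  have := P.s0
  have := P.s1
  refine ⟨by simp only [j6]; linear_combination this, by simp only [j6]; linear_combination (‹66 / 125 ≤ s›), ?_, ?_⟩
  · intro z _ _
    rw [add_zero]
    exact a6_le2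
  · simp only [j6]
    rw [a6_eq2 P le_rfl (by linear_combination (‹66 / 125 ≤ s›)), sub_self, g_zero]
    linear_combination

theorem n71 (P : Par s t) : Node (j7 s) h0 (1 - g s) := by
  have := (n61 P).mir (2 * h0 + s)
  rwa [show 2 * h0 + s - (h0 + s) = h0 by ring] at this

theorem n72 (P : Par s t) : Node (j7 s) (h0 + s) 0 := by
  have := (n62 P).mir (2 * h0 + s)
  rwa [show 2 * h0 + s - h0 = h0 + s by ring] at this

end

/-! ### The probes lie in the strip -/

section

variable {s t : ℝ}

theorem k0_ok (P : Par s t) : k0.Ok (2 * h0 + s) := by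
  have hh := h0_pos
  have := P.s0
  refine ⟨le_rfl, le_rfl, by simp only [k0]; linear_combination 2 * hh + this, 0, fun z _ _ => le_rfl⟩

theorem j1_ok (P : Par s t) : (j1 t).Ok (2 * h0 + s) := by
  have hh := h0_pos
  have := P.s0
  have := P.t0
  have := P.ts
  refine ⟨le_rfl, P.t0, by simp only [j1]; linear_combination 2 * hh + this, 1, fun z _ _ => g_le_one _⟩

theorem j2_ok (P : Par s t) : (j2 s).Ok (2 * h0 + s) := by
  have hh := h0_gt
  have := P.s0
  refine ⟨by simp only [j2]; linear_combination this, by simp only [j2]; linear_combination, by simp only [j2]; linear_combination 2 * hh, 1,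
    fun z _ _ => ?_⟩
  exact a2_le2.trans (g_le_one _)

theorem j3_ok (P : Par s t) : (j3 s).Ok (2 * h0 + s) := mirP_ok (j2_ok P)

theorem j4_ok (P : Par s t) : (j4 s t).Ok (2 * h0 + s) := mirP_ok (j1_ok P)

theorem k5_ok (P : Par s t) : (k5 s).Ok (2 * h0 + s) := mirP_ok (k0_ok P)

theorem j6_ok (P : Par s t) : (j6 s).Ok (2 * h0 + s) := by
  have hh := h0_gt
  have := P.s0
  refine ⟨by simp only [j6]; linear_combination hh + this, by simp only [j6]; linear_combination, by simp only [j6]; linear_combination hh, 1,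
    fun z _ _ => ?_⟩
  exact a6_le2.trans (g_le_one _)

theorem j7_ok (P : Par s t) : (j7 s).Ok (2 * h0 + s) := mirP_ok (j6_ok P)

/-- The two lower wall probes when the new point is not above `t`. -/
theorem wall_low (P : Par s t) {γ : ℝ → ℝ} {y : ℝ} (hγ : ∀ v, 0 ≤ γ v) (h0' : γ 0 = 0)
    (h1 : 0 ≤ y) (h2 : y ≤ t) (h3 : γ (-y) ≤ 1 - g y) :
    1 + g s ≤ ga k0 γ y + ga (j1 t) γ y := by
  have hs0 := P.s0
  have hs1 := P.s1
  have ht0 := P.t0
  have hts := P.ts
  have hgt := P.gt
  have a1 := le_ga (y := y) (z0 := 0) (v := g y) (k0_ok P) hγ le_rfl le_rfl (by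
    intro z k1 k2
    simp only [k0] at k1 k2 ⊢
    right
    rw [show z = 0 by exact le_antisymm (by linear_combination k2) (by linear_combination k1), zero_sub, g_neg]
    linear_combination)
  have a2 := le_ga (y := y) (z0 := y) (v := g (t - y) - 1) (j1_ok P) hγ h1 h2 (by
    intro z k1 k2
    simp only [j1] at k1 k2 ⊢
    right
    have := arc_sub (a := y) (b := t) (x := z) (y := t) h2 k2 (by linear_combination hs1 + hts + k1) (by linear_combination h1 + hs1 + hts)
    rw [sub_self, g_zero] at this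
    linear_combination this)
  simp only [k0, zero_sub] at a1
  simp only [j1, sub_self, h0'] at a2
  have a3 : g (y - t) = g (t - y) := by rw [← g_neg, neg_sub]
  have a4 := four (x := 0) (y := y) (z := t - y) (w := t) (by linear_combination) (by linear_combination hs1 + hts)
    (by linear_combination h1) (by linear_combination h2) (by ring)
  rw [g_zero] at a4
  rw [a3] at a2
  simp only [j1, k0]
  linear_combination h3 - hgt + a1 + a2 + 2 * a4

/-- The two lower wall probes when the new point is between `t` and `h0`. -/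
theorem wall_high (P : Par s t) {γ : ℝ → ℝ} {y A B : ℝ} (hγ : ∀ v, 0 ≤ γ v)
    (h1 : t ≤ y) (h2 : y ≤ h0) (h3 : γ (-y) ≤ A) (h4 : γ (t - y) ≤ B) :
    1 + 2 * g y - g t - A - B ≤ ga k0 γ y + ga (j1 t) γ y := by
  have hh := h0_lt
  have hs0 := P.s0
  have hs1 := P.s1
  have ht0 := P.t0
  have hts := P.ts
  have a1 := le_ga (y := y) (z0 := 0) (v := g y) (k0_ok P) hγ le_rfl le_rfl (by
    intro z k1 k2
    simp only [k0] at k1 k2 ⊢
    right
    rw [show z = 0 by exact le_antisymm (by linear_combination k2) (by linear_combination k1), zero_sub, g_neg]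
    linear_combination)
  have a2 := le_ga (y := y) (z0 := t) (v := g y - g t) (j1_ok P) hγ P.t0 le_rfl (by
    intro z k1 k2
    simp only [j1] at k1 k2 ⊢
    right
    have := arc_sub (a := t) (b := y) (x := 0) (y := z) h1 k1 (by linear_combination h2 + hh) (by linear_combination k2)
    rw [zero_sub, zero_sub, g_neg, g_neg] at this
    linear_combination this)
  simp only [k0, zero_sub] at a1
  simp only [j1, sub_self, g_zero] at a2
  simp only [j1, k0]
  linear_combination h3 + h4 + a1 + a2

/-! ### The gains -/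

/-- The gain of the four middle probes. -/
noncomputable def mg (s : ℝ) (γ : ℝ → ℝ) (y : ℝ) : ℝ :=
  9 / 5 * (ga (j2 s) γ y + ga (j3 s) γ y) + 1 / 5 * (ga (j6 s) γ y + ga (j7 s) γ y)

theorem mg_def (s r u y : ℝ) : mg s (gam r u) y =
    9 / 5 * (gn (j2 s) r u y + gn (j3 s) r u y) + 1 / 5 * (gn (j6 s) r u y + gn (j7 s) r u y) :=
  rfl

variable {r q p u y : ℝ}

/-- The two nodes of a body: the disc is at the distance `r`, the exit at the distance `ext r`. -/
theorem node_ge {j : Probe} {H C1 α1 C2 α2 : ℝ} (hj : j.Ok H) (h1 : 1 / 2 ≤ r) (h2 : r ≤ 1)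
    (N1 : Node j C1 α1) (N2 : Node j C2 α2) (a1 : y ≤ C1) (a2 : C1 ≤ y + r) (a3 : y ≤ C2)
    (a4 : C2 ≤ y + 2 * r) :
    g (ext r - r) + 1 - (g (y + ext r - C1) + α1) - (g (y + r - C2) + α2) ≤ gn j r u y := by
  have := gain_ge (q := u) hj h1 h2 a1 a2 N1.arc N2.lo N2.hi a3 a4 N2.val
  linear_combination this

/-- The new arc is everywhere above the body. -/
theorem alone_ge {j : Probe} {H v z0 β : ℝ} (hj : j.Ok H) (h1 : 1 / 2 ≤ r) (h2 : r ≤ 1)
    (ha : ∀ z, j.lo ≤ z → z ≤ j.hi → j.a z + v ≤ g (z - y)) (hlo : j.lo ≤ z0) (hhi : z0 ≤ j.hi)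
    (hz1 : y ≤ z0) (hz2 : z0 ≤ y + 2 * r) (hβ : β ≤ j.a z0) :
    v + g r - g (y + r - z0) + β ≤ gn j r u y := by
  have h3 := le_gn (r := r) (q := u) (y := y) (z0 := z0) (v := v) hj hlo hhi
    (fun z k1 k2 => Or.inr (ha z k1 k2))
  have h5 : gam r u (z0 - y) = g (y + r - z0) - g r := by
    unfold gam
    rw [if_pos (by linear_combination hz1)]
    unfold vir
    have h6 : g r ≤ g (z0 - y - r) := g_le_of_abs (by linear_combination hz2) (by linear_combination hz1)
    rw [max_eq_right (by linear_combination h6), ← g_neg (z0 - y - r),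
      show -(z0 - y - r) = y + r - z0 by ring]
  rw [h5] at h3
  linear_combination hβ + h3

/-- The new arc is everywhere above the body, the old value at the new point. -/
theorem alone_self {j : Probe} {H v β : ℝ} (hj : j.Ok H)
    (ha : ∀ z, j.lo ≤ z → z ≤ j.hi → j.a z + v ≤ g (z - y)) (hlo : j.lo ≤ y) (hhi : y ≤ j.hi)
    (hβ : β ≤ j.a y) : v + β ≤ gn j r u y := by
  have h3 := le_gn (r := r) (q := u) (y := y) (z0 := y) (v := v) hj hlo hhi
    (fun z k1 k2 => Or.inr (ha z k1 k2))
  rw [sub_self, show gam r u 0 = 0 by unfold gam; rw [if_pos le_rfl, vir_zero]] at h3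
  linear_combination hβ + h3

/-- The data of the upper side: `p` is the lower and `q` the higher one of the disc and of the
exit. -/
structure Side (p q r : ℝ) : Prop where
  p0 : 1 / 2 ≤ p
  p1 : p ≤ h0
  q0 : h0 ≤ q
  q1 : q ≤ 1
  pq : q = ext p
  qp : p = ext q
  hr : r = p ∨ r = q
  sum : g (q - p) = g p + g q
  gq : g q = h0 * p - 1 / 2 * g p

theorem side_exists {r : ℝ} (h1 : 1 / 2 ≤ r) (h2 : r ≤ 1) :
    ∃ p q, Side p q r ∧ (r ≤ ext r → r = p) ∧ (ext r ≤ r → r = q) := by
  obtain ⟨e1, e2, e3, e4, e5⟩ := ext_facts h1 h2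
  have hh := h0_lt
  have hg := h0_gt
  have eh : ext h0 = h0 := by
    unfold ext
    rw [g_h0]
    ring
  have key : ∀ {r : ℝ}, 1 / 2 ≤ r → r ≤ 1 → r ≤ h0 → h0 ≤ ext r := by
    intro r a1 a2 a3
    have := ext_anti a1 a3 (by linear_combination hh)
    rwa [eh] at this
  have key2 : ∀ {r : ℝ}, 1 / 2 ≤ r → r ≤ 1 → h0 ≤ r → ext r ≤ h0 := by
    intro r a1 a2 a3
    have := ext_anti (by linear_combination hg) a3 a2
    rwa [eh] at this
  rcases le_total r h0 with h | h
  · have k := key h1 h2 h
    refine ⟨r, ext r, ⟨h1, h, k, e2, rfl, e5.symm, Or.inl rfl, by rw [e3, add_comm], gext h1 h2⟩,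
      fun _ => rfl, fun k2 => by exact le_antisymm (by linear_combination h + k) (by linear_combination k2)⟩
  · have k := key2 h1 h2 h
    obtain ⟨f1, f2, f3, f4, f5⟩ := ext_facts e1 e2
    refine ⟨ext r, r, ⟨e1, k, h, h2, e5.symm, rfl, Or.inr rfl, ?_, ?_⟩, fun k2 => by exact le_antisymm (by linear_combination k2) (by linear_combination h + k),
      fun _ => rfl⟩
    · rw [e5] at f3
      rw [f3, add_comm]
    · have := gext e1 e2
      rwa [e5] at this

variable (hs : Side p q r)

include hs

theorem Side.r0 : 1 / 2 ≤ r := by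
  have := hs.p0
  have := hs.p1
  have := hs.q0
  rcases hs.hr with h | h <;> rw [h] <;> linarith

theorem Side.r1 : r ≤ 1 := by
  have := hs.p1
  have := hs.q0
  have := hs.q1
  rcases hs.hr with h | h <;> rw [h] <;> linarith

/-- Two nodes, both orders of the disc and of the exit. -/
theorem node_pair {j : Probe} {H C1 α1 C2 α2 : ℝ} (hj : j.Ok H)
    (N1 : Node j C1 α1) (N2 : Node j C2 α2) (a1 : y ≤ C1) (a2 : C1 ≤ y + p) (a3 : y ≤ C2)
    (a4 : C2 ≤ y + q) :
    g (q - p) + 1 - (g (y + q - C1) + α1) - (g (y + p - C2) + α2) ≤ gn j r u y := by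
  have p0 := hs.p0
  have p1 := hs.p1
  have q0 := hs.q0
  have q1 := hs.q1
  have hh := h0_lt
  have hg := h0_gt
  rcases hs.hr with h | h
  · rw [h, hs.pq]
    exact node_ge hj p0 (by linear_combination p1 + q0 + q1) N1 N2 a1 a2 a3 (by linear_combination a4 + 2 * p0 + q1)
  · have k := node_ge (u := u) hj (r := q) (by linear_combination p0 + p1 + q0) q1 N2 N1 a3 a4 a1 (by linear_combination a2 + a3 + a4 + p1 + q0)
    rw [← hs.qp, show g (p - q) = g (q - p) by rw [← g_neg, neg_sub]] at k
    rw [h]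
    linear_combination k

/-- The new arc alone and one node. -/
theorem alone_pair {j : Probe} {H v C2 α2 : ℝ} (hj : j.Ok H)
    (ha : ∀ z, j.lo ≤ z → z ≤ j.hi → j.a z + v ≤ g (z - y)) (hlo : j.lo ≤ y) (hhi : y ≤ j.hi)
    (hv : v + 1 ≤ j.a y) (N2 : Node j C2 α2) (a3 : y ≤ C2) (a4 : C2 ≤ y + q) :
    v + 1 + g p - (g (y + p - C2) + α2) ≤ gn j r u y := by
  have p0 := hs.p0
  have p1 := hs.p1
  have q0 := hs.q0
  have q1 := hs.q1
  have hh := h0_lt
  have hg := h0_gt
  rcases hs.hr with h | h
  · rw [h]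
    have := alone_ge (u := u) hj p0 (by linear_combination p1 + q0 + q1) ha N2.lo N2.hi a3 (by linear_combination a4 + 2 * p0 + q1) N2.val
    linear_combination this
  · have k := gain_ge (q := u) (r := q) hj (by linear_combination p0 + p1 + q0) q1 a3 a4 N2.arc hlo hhi le_rfl
      (by linear_combination 2 * a3 + 2 * a4) hv
    rw [← hs.qp, show g (p - q) = g (q - p) by rw [← g_neg, neg_sub],
      show y + q - y = q by ring, hs.sum] at k
    rw [h]
    linear_combination k

end

end Pool.Agent.Strip051.FourE
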