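import Pool.Agent.Strip051.FourE.Defs

/-! # The gains of the middle probes, zone by zone -/

namespace Pool.Agent.Strip051.FourE

open Pool.Agent.StripNear Pool.Agent.StripSquare Pool.Agent.Strip051
open Pool.Agent.Strip051.Four (mirP j1 gn mirP_ok mirP_val mirP_gn mirP_mirP gam_neg arc_sub le_gn
  gn_nonneg adm_low g_le_of_abs ext_facts gain_ge)
open Pool.Agent.Strip051.FourC (ga gn_eq le_ga ga_nonneg k0 k5 j4)

variable {s t r q p u y : ℝ}

/-! ### The new arc is above the bodies -/

theorem al2 (P : Par s t) (y0 : s ≤ y) (y1 : y ≤ h0) (z : ℝ) (k1 : (j2 s).lo ≤ z)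
    (k2 : z ≤ (j2 s).hi) :
    (j2 s).a z + (g (h0 + s - y) - g s - 1 + g (17 / 50 * s)) ≤ g (z - y) := by
  have hh := h0_lt
  have hg := h0_gt
  have := P.s0
  have := P.s1
  simp only [j2] at k1 k2 ⊢
  rcases le_total z (h0 + s) with k | k
  · have e1 := arc_sub (a := y) (b := h0) (x := z) (y := h0 + s) y1 k (by linear_combination k1 + hh + (‹66 / 125 ≤ s›)) (by linear_combination y0 + hh)
    rw [add_sub_cancel_left] at e1
    have e2 := a2_le3 (s := s) (z := z)
    linear_combination e1 + e2
  · have e1 := arc_sub (a := s) (b := y) (x := h0 + s) (y := z) y0 k (by linear_combination y1 + (‹66 / 125 ≤ s›)) (by linear_combination k2)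
    rw [add_sub_cancel_right, g_h0] at e1
    have e2 := a2_le4 (s := s) (z := z)
    linear_combination e1 + e2

theorem al2v (P : Par s t) (y0 : s ≤ y) (y1 : y ≤ h0) :
    g (h0 + s - y) - g s - 1 + g (17 / 50 * s) + 1 ≤ (j2 s).a y := by
  simp only [j2]
  rw [a2_eq1 P y0 y1, show y - (h0 + s) = -(h0 + s - y) by ring, g_neg]
  linear_combination

theorem al3 (P : Par s t) (y0 : 2 * h0 - 1 ≤ y) (y1 : y ≤ h0) (z : ℝ) (k1 : (j3 s).lo ≤ z)
    (k2 : z ≤ (j3 s).hi) :
    (j3 s).a z + (g (2 * h0 - y) - 1 / 2 - g (17 / 50 * s) + g s) ≤ g (z - y) := by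
  have hh := h0_lt
  have hg := h0_gt
  have := P.s0
  have := P.s1
  have e2 := (n31 P).arc z k1 k2
  simp only [j3, mirP, j2] at k1 k2
  have e1 := arc_sub (a := y) (b := h0) (x := z) (y := 2 * h0) y1 (by linear_combination k2) (by linear_combination k1 + hg)
    (by linear_combination y0)
  rw [show 2 * h0 - h0 = h0 by ring, g_h0] at e1
  linear_combination e2 + e1

theorem al3v (P : Par s t) (y0 : 2 * h0 - 1 ≤ y) (y1 : y ≤ h0) :
    g (2 * h0 - y) - 1 / 2 - g (17 / 50 * s) + g s + 1 ≤ (j3 s).a y := by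
  simp only [j3, mirP, j2]
  rw [a2_eq4 P (by linear_combination y1) (by linear_combination y0), show 2 * h0 + s - y - s = 2 * h0 - y by ring]
  linear_combination

theorem al6 (P : Par s t) (y0 : h0 + s - 1 ≤ y) (y1 : y ≤ h0) (z : ℝ) (k1 : (j6 s).lo ≤ z)
    (k2 : z ≤ (j6 s).hi) : (j6 s).a z + (g (h0 + s - y) - g s) ≤ g (z - y) := by
  have hh := h0_lt
  have hg := h0_gt
  have := P.s0
  have := P.s1
  simp only [j6] at k1 k2 ⊢
  have e1 := arc_sub (a := y) (b := h0) (x := z) (y := h0 + s) y1 k2 (by linear_combination k1 + (‹66 / 125 ≤ s›)) (by linear_combination y0)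
  rw [add_sub_cancel_left] at e1
  have e2 := a6_le2 (s := s) (z := z)
  linear_combination e1 + e2

theorem al6v (P : Par s t) (y0 : h0 + s - 1 ≤ y) (y1 : y ≤ h0) :
    g (h0 + s - y) - g s + 1 ≤ (j6 s).a y := by
  simp only [j6]
  rw [a6_eq1 P y0 y1, show y - (h0 + s) = -(h0 + s - y) by ring, g_neg]
  linear_combination

section

variable (P : Par s t) (hs : Side p q r)

include P hs

/-! ### The middle probe -/

theorem g2a (y0 : 19 / 50 ≤ y) (y1 : y ≤ h0) :
    g (q - p) + 1 - (g (y + q - h0) + (1 - g (17 / 50 * s))) -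
      min (g (y + p - (h0 + 17 / 50 * s))) (g (y + p - h0) + 1 - g (17 / 50 * s)) ≤
        gn (j2 s) r u y := by
  have hh := h0_lt
  have hg := h0_gt
  have := P.s0
  have := P.s1
  have p0 := hs.p0
  have q0 := hs.q0
  have k1 := node_pair hs (u := u) (j2_ok P) (n23 P) (n22 P) (y := y) y1 (by linear_combination y0 + hh + p0)
    (by linear_combination y1 + (17 / 50) * (‹66 / 125 ≤ s›)) (by linear_combination y0 + (17 / 50) * this + q0)
  have k2 := node_pair hs (u := u) (j2_ok P) (n23 P) (n23 P) (y := y) y1 (by linear_combination y0 + hh + p0)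
    (by linear_combination y1) (by linear_combination y0 + q0)
  rcases min_choice (g (y + p - (h0 + 17 / 50 * s))) (g (y + p - h0) + 1 - g (17 / 50 * s))
    with h | h <;> rw [h] <;> linarith

theorem g2b (y0 : 19 / 50 ≤ y) (y1 : y ≤ s) :
    g (q - p) + 1 - (g (y + q - s) + (g s + 1 / 2 - g (17 / 50 * s))) -
      min (g (y + p - (h0 + 17 / 50 * s))) (g (y + p - h0) + 1 - g (17 / 50 * s)) ≤
        gn (j2 s) r u y := by
  have hh := h0_lt
  have hg := h0_gt
  have := P.s0
  have := P.s1
  have p0 := hs.p0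
  have q0 := hs.q0
  have k1 := node_pair hs (u := u) (j2_ok P) (n24 P) (n22 P) (y := y) y1 (by linear_combination y0 + this + p0)
    (by linear_combination y1 + hg + (33 / 50) * this) (by linear_combination y0 + (17 / 50) * this + q0)
  have k2 := node_pair hs (u := u) (j2_ok P) (n24 P) (n23 P) (y := y) y1 (by linear_combination y0 + this + p0)
    (by linear_combination y1 + hg + this) (by linear_combination y0 + q0)
  rcases min_choice (g (y + p - (h0 + 17 / 50 * s))) (g (y + p - h0) + 1 - g (17 / 50 * s))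
    with h | h <;> rw [h] <;> linarith

theorem g2u (y0 : s ≤ y) (y1 : y ≤ h0) :
    g (h0 + s - y) - g s - 1 + g (17 / 50 * s) + g p + 1 -
      min (g (y + p - (h0 + 17 / 50 * s))) (g (y + p - h0) + 1 - g (17 / 50 * s)) ≤
        gn (j2 s) r u y := by
  have hh := h0_lt
  have hg := h0_gt
  have := P.s0
  have := P.s1
  have p0 := hs.p0
  have q0 := hs.q0
  have k1 := alone_pair hs (u := u) (j2_ok P) (al2 P y0 y1) (by simp only [j2]; linear_combination y0)
    (by simp only [j2]; linear_combination y1 + hh + (‹66 / 125 ≤ s›)) (al2v P y0 y1) (n22 P) (by linear_combination y1 + (17 / 50) * (‹66 / 125 ≤ s›)) (by linear_combination y0 + q0 + (33 / 50) * (‹66 / 125 ≤ s›))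
  have k2 := alone_pair hs (u := u) (j2_ok P) (al2 P y0 y1) (by simp only [j2]; linear_combination y0)
    (by simp only [j2]; linear_combination y1 + hh + (‹66 / 125 ≤ s›)) (al2v P y0 y1) (n23 P) (by linear_combination y1) (by linear_combination y0 + q0 + (‹66 / 125 ≤ s›))
  rcases min_choice (g (y + p - (h0 + 17 / 50 * s))) (g (y + p - h0) + 1 - g (17 / 50 * s))
    with h | h <;> rw [h] <;> linarith

omit hs in
theorem g2c (y0 : s ≤ y) (y1 : y ≤ h0) :
    2 * g (h0 + s - y) - 2 * g s - 1 + 2 * g (17 / 50 * s) ≤ gn (j2 s) r u y := by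
  have hh := h0_lt
  have := P.s0
  have k1 := alone_self (r := r) (u := u) (j2_ok P) (al2 P y0 y1) (by simp only [j2]; linear_combination y0)
    (by simp only [j2]; linear_combination y1 + hh + this) (al2v P y0 y1)
  linear_combination k1

/-! ### The mirror image of the middle probe -/

theorem g3ba (y0 : 19 / 50 ≤ y) (y1 : y ≤ h0) (hE : h0 + s ≤ y + q) :
    g (q - p) + 1 - (g (y + q - h0) + (g (17 / 50 * s) - g s)) -
      (g (h0 + s - (y + p)) + (1 - g (17 / 50 * s))) ≤ gn (j3 s) r u y := by
  have hg := h0_gt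
  have hh := h0_lt
  have := P.s0
  have p0 := hs.p0
  have k1 := node_pair hs (u := u) (j3_ok P) (n31 P) (n33 P) (y := y) y1 (by linear_combination y0 + hh + p0)
    (by linear_combination y1 + this) hE
  rw [show y + p - (h0 + s) = -(h0 + s - (y + p)) by ring, g_neg] at k1
  exact k1

theorem g3bb (y1 : y ≤ h0) (y0 : 19 / 50 ≤ y) :
    g (q - p) + 1 - (g (y + q - h0) + (g (17 / 50 * s) - g s)) -
      g (y + p - (h0 + 33 / 50 * s)) ≤ gn (j3 s) r u y := by
  have hg := h0_gt
  have hh := h0_lt
  have := P.s0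
  have := P.s1
  have p0 := hs.p0
  have q0 := hs.q0
  have k1 := node_pair hs (u := u) (j3_ok P) (n31 P) (n32 P) (y := y) y1 (by linear_combination y0 + hh + p0)
    (by linear_combination y1 + (33 / 50) * (‹66 / 125 ≤ s›)) (by linear_combination y0 + (33 / 50) * this + q0)
  linear_combination k1

theorem g3cc (y1 : y ≤ h0) (y0 : 19 / 50 ≤ y) :
    g (q - p) + 1 - (g (y + q - h0) + (g (17 / 50 * s) - g s)) -
      (g (y + p - h0) + (g (17 / 50 * s) - g s)) ≤ gn (j3 s) r u y := by
  have hg := h0_gt
  have hh := h0_lt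
  have := P.s0
  have := P.s1
  have p0 := hs.p0
  have q0 := hs.q0
  exact node_pair hs (u := u) (j3_ok P) (n31 P) (n31 P) (y := y) y1 (by linear_combination y0 + hh + p0)
    (by linear_combination y1) (by linear_combination y0 + q0)

theorem g3l (y1 : y ≤ h0) (hM : h0 + 33 / 50 * s ≤ y + p) :
    g (q - p) + 1 - g (y + q - (h0 + 33 / 50 * s)) -
      g (y + p - (h0 + 33 / 50 * s)) ≤ gn (j3 s) r u y := by
  have hg := h0_gt
  have hh := h0_lt
  have := P.s0
  have := P.s1
  have p1 := hs.p1
  have q0 := hs.q0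
  have k1 := node_pair hs (u := u) (j3_ok P) (n32 P) (n32 P) (y := y) (by linear_combination y1 + (33 / 50) * (‹66 / 125 ≤ s›)) hM
    (by linear_combination y1 + (33 / 50) * (‹66 / 125 ≤ s›)) (by linear_combination hM + p1 + q0)
  linear_combination k1

theorem g3ua (y1 : y ≤ h0) (hE : 2 * h0 ≤ y + q) :
    g (2 * h0 - y) - 1 / 2 - g (17 / 50 * s) + g s + g p + 1 -
      (g (h0 + s - (y + p)) + (1 - g (17 / 50 * s))) ≤ gn (j3 s) r u y := by
  have hg := h0_gt
  have hh := h0_lt
  have := P.s0
  have := P.s1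
  have q1 := hs.q1
  have k1 := alone_pair hs (u := u) (j3_ok P) (al3 P (by linear_combination hE + q1) y1)
    (by simp only [j3, mirP, j2]; linear_combination hE + q1) (by simp only [j3, mirP, j2]; linear_combination y1 + hg)
    (al3v P (by linear_combination hE + q1) y1) (n33 P) (by linear_combination y1 + (‹66 / 125 ≤ s›)) (by linear_combination hE + hg + this)
  rw [show y + p - (h0 + s) = -(h0 + s - (y + p)) by ring, g_neg] at k1
  linear_combination k1

theorem g3ub (y1 : y ≤ h0) (hE : 2 * h0 ≤ y + q) :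
    g (2 * h0 - y) - 1 / 2 - g (17 / 50 * s) + g s + g p + 1 -
      g (y + p - (h0 + 33 / 50 * s)) ≤ gn (j3 s) r u y := by
  have hg := h0_gt
  have hh := h0_lt
  have := P.s0
  have := P.s1
  have q1 := hs.q1
  have k1 := alone_pair hs (u := u) (j3_ok P) (al3 P (by linear_combination hE + q1) y1)
    (by simp only [j3, mirP, j2]; linear_combination hE + q1) (by simp only [j3, mirP, j2]; linear_combination y1 + hg)
    (al3v P (by linear_combination hE + q1) y1) (n32 P) (by linear_combination y1 + (33 / 50) * (‹66 / 125 ≤ s›)) (by linear_combination hE + hg + (33 / 50) * this)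
  linear_combination k1

theorem g3uc (y1 : y ≤ h0) (hE : 2 * h0 ≤ y + q) :
    g (2 * h0 - y) - 1 / 2 - g (17 / 50 * s) + g s + g p + 1 -
      (g (y + p - h0) + (g (17 / 50 * s) - g s)) ≤ gn (j3 s) r u y := by
  have hg := h0_gt
  have hh := h0_lt
  have := P.s0
  have := P.s1
  have q1 := hs.q1
  have k1 := alone_pair hs (u := u) (j3_ok P) (al3 P (by linear_combination hE + q1) y1)
    (by simp only [j3, mirP, j2]; linear_combination hE + q1) (by simp only [j3, mirP, j2]; linear_combination y1 + hg)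
    (al3v P (by linear_combination hE + q1) y1) (n31 P) (by linear_combination y1) (by linear_combination hE + hg)
  linear_combination k1

/-! ### The small probe -/

theorem g6a (y0 : 19 / 50 ≤ y) (y1 : y ≤ h0) :
    g (q - p) + 1 - g (y + q - h0) - g (y + p - h0) ≤ gn (j6 s) r u y := by
  have hg := h0_gt
  have hh := h0_lt
  have p0 := hs.p0
  have q0 := hs.q0
  have k1 := node_pair hs (u := u) (j6_ok P) (n62 P) (n62 P) (y := y) y1 (by linear_combination y0 + hh + p0)
    (by linear_combination y1) (by linear_combination y0 + q0)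
  linear_combination k1

theorem g6b (y1 : y ≤ h0) (hE : h0 + s ≤ y + q) :
    g (h0 + s - y) - g s + 1 + g p - g (y + p - h0) ≤ gn (j6 s) r u y := by
  have hg := h0_gt
  have hh := h0_lt
  have := P.s0
  have q1 := hs.q1
  have k1 := alone_pair hs (u := u) (j6_ok P) (al6 P (by linear_combination hE + q1) y1)
    (by simp only [j6]; linear_combination hE + q1) (by simp only [j6]; linear_combination y1 + this)
    (al6v P (by linear_combination hE + q1) y1) (n62 P) (by linear_combination y1) (by linear_combination hE + this)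
  linear_combination k1

omit hs in
theorem g6c (y0 : s ≤ y) (y1 : y ≤ h0) :
    2 * g (h0 + s - y) - 2 * g s + 1 ≤ gn (j6 s) r u y := by
  have hh := h0_lt
  have := P.s0
  have k1 := alone_self (r := r) (u := u) (j6_ok P) (al6 P (by linear_combination y0 + hh) y1)
    (by simp only [j6]; linear_combination y0 + hh) (by simp only [j6]; linear_combination y1 + this) (al6v P (by linear_combination y0 + hh) y1)
  linear_combination k1

/-! ### The mirror image of the small probe -/

theorem g7b (y0 : 19 / 50 ≤ y) (y1 : y ≤ h0) (hE : h0 + s ≤ y + q) :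
    g (q - p) + g s - g (y + q - h0) - g (h0 + s - (y + p)) ≤ gn (j7 s) r u y := by
  have hg := h0_gt
  have hh := h0_lt
  have := P.s0
  have p0 := hs.p0
  have k1 := node_pair hs (u := u) (j7_ok P) (n71 P) (n72 P) (y := y) y1 (by linear_combination y0 + hh + p0)
    (by linear_combination y1 + this) hE
  rw [show y + p - (h0 + s) = -(h0 + s - (y + p)) by ring, g_neg] at k1
  linear_combination k1

theorem g7c (y0 : 19 / 50 ≤ y) (y1 : y ≤ h0) :
    g (q - p) - 1 + 2 * g s - g (y + q - h0) - g (y + p - h0) ≤ gn (j7 s) r u y := by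
  have hg := h0_gt
  have hh := h0_lt
  have p0 := hs.p0
  have q0 := hs.q0
  have k1 := node_pair hs (u := u) (j7_ok P) (n71 P) (n71 P) (y := y) y1 (by linear_combination y0 + hh + p0)
    (by linear_combination y1) (by linear_combination y0 + q0)
  linear_combination k1

end

theorem mg_eq (s r u y : ℝ) : mg s (gam r u) y =
    9 / 5 * (gn (j2 s) r u y + gn (j3 s) r u y) + 1 / 5 * (gn (j6 s) r u y + gn (j7 s) r u y) :=
  rfl

end Pool.Agent.Strip051.FourE
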