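import Pool.Agent.Strip051.Box.B3
import Pool.Agent.Strip051.Four.Defs

/-! # Generated boxes: Laa  -/

set_option maxRecDepth 100000
set_option linter.unusedVariables false

namespace Pool.Agent.Strip051.FourE.Laa

open Pool.Agent.Strip051.Box Pool.Agent.Strip051.Box3
open Pool.Agent.StripNear (h0)
open Pool.Agent.StripSquare (g)
open Pool.Agent.Strip051 (ext)

abbrev S : Nat := 1073741824

theorem hS : 0 < S := by decide

def In (b : Bx) (E : Pt) (x1 x2 x3 : ℝ) : Prop :=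
  (S : ℝ) * x1 = ((b.p1 : ℝ) - b.n1) + b.q1 * E.e1 ∧ (S : ℝ) * x2 = ((b.p2 : ℝ) - b.n2) + b.q2 * E.e2 ∧ (S : ℝ) * x3 = ((b.p3 : ℝ) - b.n3) + b.q3 * E.e3

section

variable {b : Bx} {E : Pt} {x1 x2 x3 : ℝ}

def t0 (_b : Bx) : TM := tconst 1859775393 0 1
noncomputable def v0 (_x1 _x2 _x3 : ℝ) : ℝ := Real.sqrt ((3 : ℕ) : ℝ)
theorem en0 (_h : In b E x1 x2 x3) : Enc S E (t0 b) (v0 x1 x2 x3) := enc_sqrtn E (by decide) (by decide)

def t1 (b : Bx) : TM := tscale 1 2 (t0 b)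
noncomputable def v1 (x1 x2 x3 : ℝ) : ℝ := ((1 : ℕ) : ℝ) / ((2 : ℕ) : ℝ) * v0 x1 x2 x3
theorem en1 (h : In b E x1 x2 x3) : Enc S E (t1 b) (v1 x1 x2 x3) := enc_scale 1 (by norm_num) (en0 h)

def t2 (b : Bx) : TM := X1 b
noncomputable def v2 (x1 _x2 _x3 : ℝ) : ℝ := x1
theorem en2 (h : In b E x1 x2 x3) : Enc S E (t2 b) (v2 x1 x2 x3) := enc_X1 h.1

def t3 (b : Bx) : TM := X2 b
noncomputable def v3 (_x1 x2 _x3 : ℝ) : ℝ := x2
theorem en3 (h : In b E x1 x2 x3) : Enc S E (t3 b) (v3 x1 x2 x3) := enc_X2 h.2.1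

def t4 (b : Bx) : TM := X3 b
noncomputable def v4 (_x1 _x2 x3 : ℝ) : ℝ := x3
theorem en4 (h : In b E x1 x2 x3) : Enc S E (t4 b) (v4 x1 x2 x3) := enc_X3 h.2.2

def t5 (b : Bx) : TM := tsq S (t4 b)
noncomputable def v5 (x1 x2 x3 : ℝ) : ℝ := (v4 x1 x2 x3) ^ 2
theorem en5 (h : In b E x1 x2 x3) : Enc S E (t5 b) (v5 x1 x2 x3) := enc_sq hS (en4 h)

def t6 (_b : Bx) : TM := tconst (Nat.mul 1 S) 0 0
noncomputable def v6 (_x1 _x2 _x3 : ℝ) : ℝ := ((1 : ℕ) : ℝ)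
theorem en6 (_h : In b E x1 x2 x3) : Enc S E (t6 b) (v6 x1 x2 x3) := enc_nc E 1

def t7 (b : Bx) : TM := tsub (t6 b) (t5 b)
noncomputable def v7 (x1 x2 x3 : ℝ) : ℝ := v6 x1 x2 x3 - v5 x1 x2 x3
theorem en7 (h : In b E x1 x2 x3) : Enc S E (t7 b) (v7 x1 x2 x3) := enc_sub (en6 h) (en5 h)

def t8 (b : Bx) : TM := tsqrt S (t7 b)
noncomputable def v8 (x1 x2 x3 : ℝ) : ℝ := Real.sqrt (v7 x1 x2 x3)
theorem en8 (h : In b E x1 x2 x3) : Enc S E (t8 b) (v8 x1 x2 x3) := enc_sqrt hS (en7 h)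

def t9 (b : Bx) : TM := tmul S (t1 b) (t8 b)
noncomputable def v9 (x1 x2 x3 : ℝ) : ℝ := v1 x1 x2 x3 * v8 x1 x2 x3
theorem en9 (h : In b E x1 x2 x3) : Enc S E (t9 b) (v9 x1 x2 x3) := enc_mul hS (en1 h) (en8 h)

def t10 (b : Bx) : TM := tscale 1 2 (t4 b)
noncomputable def v10 (x1 x2 x3 : ℝ) : ℝ := ((1 : ℕ) : ℝ) / ((2 : ℕ) : ℝ) * v4 x1 x2 x3
theorem en10 (h : In b E x1 x2 x3) : Enc S E (t10 b) (v10 x1 x2 x3) := enc_scale 1 (by norm_num) (en4 h)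

def t11 (b : Bx) : TM := tsub (t9 b) (t10 b)
noncomputable def v11 (x1 x2 x3 : ℝ) : ℝ := v9 x1 x2 x3 - v10 x1 x2 x3
theorem en11 (h : In b E x1 x2 x3) : Enc S E (t11 b) (v11 x1 x2 x3) := enc_sub (en9 h) (en10 h)

def t12 (b : Bx) : TM := tadd (t9 b) (t10 b)
noncomputable def v12 (x1 x2 x3 : ℝ) : ℝ := v9 x1 x2 x3 + v10 x1 x2 x3
theorem en12 (h : In b E x1 x2 x3) : Enc S E (t12 b) (v12 x1 x2 x3) := enc_add (en9 h) (en10 h)

def t17 (b : Bx) : TM := tsq S (t2 b)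
noncomputable def v17 (x1 x2 x3 : ℝ) : ℝ := (v2 x1 x2 x3) ^ 2
theorem en17 (h : In b E x1 x2 x3) : Enc S E (t17 b) (v17 x1 x2 x3) := enc_sq hS (en2 h)

def t18 (b : Bx) : TM := tsub (t6 b) (t17 b)
noncomputable def v18 (x1 x2 x3 : ℝ) : ℝ := v6 x1 x2 x3 - v17 x1 x2 x3
theorem en18 (h : In b E x1 x2 x3) : Enc S E (t18 b) (v18 x1 x2 x3) := enc_sub (en6 h) (en17 h)

def t19 (b : Bx) : TM := tsqrt S (t18 b)
noncomputable def v19 (x1 x2 x3 : ℝ) : ℝ := Real.sqrt (v18 x1 x2 x3)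
theorem en19 (h : In b E x1 x2 x3) : Enc S E (t19 b) (v19 x1 x2 x3) := enc_sqrt hS (en18 h)

def t20 (b : Bx) : TM := tscale 17 50 (t2 b)
noncomputable def v20 (x1 x2 x3 : ℝ) : ℝ := ((17 : ℕ) : ℝ) / ((50 : ℕ) : ℝ) * v2 x1 x2 x3
theorem en20 (h : In b E x1 x2 x3) : Enc S E (t20 b) (v20 x1 x2 x3) := enc_scale 17 (by norm_num) (en2 h)

def t21 (b : Bx) : TM := tsq S (t20 b)
noncomputable def v21 (x1 x2 x3 : ℝ) : ℝ := (v20 x1 x2 x3) ^ 2
theorem en21 (h : In b E x1 x2 x3) : Enc S E (t21 b) (v21 x1 x2 x3) := enc_sq hS (en20 h)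

def t22 (b : Bx) : TM := tsub (t6 b) (t21 b)
noncomputable def v22 (x1 x2 x3 : ℝ) : ℝ := v6 x1 x2 x3 - v21 x1 x2 x3
theorem en22 (h : In b E x1 x2 x3) : Enc S E (t22 b) (v22 x1 x2 x3) := enc_sub (en6 h) (en21 h)

def t23 (b : Bx) : TM := tsqrt S (t22 b)
noncomputable def v23 (x1 x2 x3 : ℝ) : ℝ := Real.sqrt (v22 x1 x2 x3)
theorem en23 (h : In b E x1 x2 x3) : Enc S E (t23 b) (v23 x1 x2 x3) := enc_sqrt hS (en22 h)

def t24 (b : Bx) : TM := tadd (t3 b) (t12 b)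
noncomputable def v24 (x1 x2 x3 : ℝ) : ℝ := v3 x1 x2 x3 + v12 x1 x2 x3
theorem en24 (h : In b E x1 x2 x3) : Enc S E (t24 b) (v24 x1 x2 x3) := enc_add (en3 h) (en12 h)

def t25 (b : Bx) : TM := tadd (t3 b) (t11 b)
noncomputable def v25 (x1 x2 x3 : ℝ) : ℝ := v3 x1 x2 x3 + v11 x1 x2 x3
theorem en25 (h : In b E x1 x2 x3) : Enc S E (t25 b) (v25 x1 x2 x3) := enc_add (en3 h) (en11 h)

def t26 (b : Bx) : TM := tadd (t1 b) (t20 b)
noncomputable def v26 (x1 x2 x3 : ℝ) : ℝ := v1 x1 x2 x3 + v20 x1 x2 x3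
theorem en26 (h : In b E x1 x2 x3) : Enc S E (t26 b) (v26 x1 x2 x3) := enc_add (en1 h) (en20 h)

def t27 (b : Bx) : TM := tscale 33 50 (t2 b)
noncomputable def v27 (x1 x2 x3 : ℝ) : ℝ := ((33 : ℕ) : ℝ) / ((50 : ℕ) : ℝ) * v2 x1 x2 x3
theorem en27 (h : In b E x1 x2 x3) : Enc S E (t27 b) (v27 x1 x2 x3) := enc_scale 33 (by norm_num) (en2 h)

def t28 (b : Bx) : TM := tadd (t1 b) (t27 b)
noncomputable def v28 (x1 x2 x3 : ℝ) : ℝ := v1 x1 x2 x3 + v27 x1 x2 x3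
theorem en28 (h : In b E x1 x2 x3) : Enc S E (t28 b) (v28 x1 x2 x3) := enc_add (en1 h) (en27 h)

def t29 (b : Bx) : TM := tadd (t1 b) (t2 b)
noncomputable def v29 (x1 x2 x3 : ℝ) : ℝ := v1 x1 x2 x3 + v2 x1 x2 x3
theorem en29 (h : In b E x1 x2 x3) : Enc S E (t29 b) (v29 x1 x2 x3) := enc_add (en1 h) (en2 h)

def t30 (b : Bx) : TM := tsq S (t3 b)
noncomputable def v30 (x1 x2 x3 : ℝ) : ℝ := (v3 x1 x2 x3) ^ 2
theorem en30 (h : In b E x1 x2 x3) : Enc S E (t30 b) (v30 x1 x2 x3) := enc_sq hS (en3 h)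

def t31 (b : Bx) : TM := tsub (t6 b) (t30 b)
noncomputable def v31 (x1 x2 x3 : ℝ) : ℝ := v6 x1 x2 x3 - v30 x1 x2 x3
theorem en31 (h : In b E x1 x2 x3) : Enc S E (t31 b) (v31 x1 x2 x3) := enc_sub (en6 h) (en30 h)

def t32 (b : Bx) : TM := tsqrt S (t31 b)
noncomputable def v32 (x1 x2 x3 : ℝ) : ℝ := Real.sqrt (v31 x1 x2 x3)
theorem en32 (h : In b E x1 x2 x3) : Enc S E (t32 b) (v32 x1 x2 x3) := enc_sqrt hS (en31 h)

def t33 (b : Bx) : TM := tnat 8 (t32 b)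
noncomputable def v33 (x1 x2 x3 : ℝ) : ℝ := ((8 : ℕ) : ℝ) * v32 x1 x2 x3
theorem en33 (h : In b E x1 x2 x3) : Enc S E (t33 b) (v33 x1 x2 x3) := enc_nat 8 (en32 h)

def t34 (_b : Bx) : TM := tconst (Nat.mul 4 S) 0 0
noncomputable def v34 (_x1 _x2 _x3 : ℝ) : ℝ := ((4 : ℕ) : ℝ)
theorem en34 (_h : In b E x1 x2 x3) : Enc S E (t34 b) (v34 x1 x2 x3) := enc_nc E 4

def t35 (b : Bx) : TM := tsub (t33 b) (t34 b)
noncomputable def v35 (x1 x2 x3 : ℝ) : ℝ := v33 x1 x2 x3 - v34 x1 x2 x3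
theorem en35 (h : In b E x1 x2 x3) : Enc S E (t35 b) (v35 x1 x2 x3) := enc_sub (en33 h) (en34 h)

def t36 (b : Bx) : TM := tnat 4 (t19 b)
noncomputable def v36 (x1 x2 x3 : ℝ) : ℝ := ((4 : ℕ) : ℝ) * v19 x1 x2 x3
theorem en36 (h : In b E x1 x2 x3) : Enc S E (t36 b) (v36 x1 x2 x3) := enc_nat 4 (en19 h)

def t37 (b : Bx) : TM := tsub (t35 b) (t36 b)
noncomputable def v37 (x1 x2 x3 : ℝ) : ℝ := v35 x1 x2 x3 - v36 x1 x2 x3
theorem en37 (h : In b E x1 x2 x3) : Enc S E (t37 b) (v37 x1 x2 x3) := enc_sub (en35 h) (en36 h)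

def t38 (b : Bx) : TM := tsub (t25 b) (t26 b)
noncomputable def v38 (x1 x2 x3 : ℝ) : ℝ := v25 x1 x2 x3 - v26 x1 x2 x3
theorem en38 (h : In b E x1 x2 x3) : Enc S E (t38 b) (v38 x1 x2 x3) := enc_sub (en25 h) (en26 h)

def t39 (b : Bx) : TM := tsq S (t38 b)
noncomputable def v39 (x1 x2 x3 : ℝ) : ℝ := (v38 x1 x2 x3) ^ 2
theorem en39 (h : In b E x1 x2 x3) : Enc S E (t39 b) (v39 x1 x2 x3) := enc_sq hS (en38 h)

def t40 (b : Bx) : TM := tsub (t6 b) (t39 b)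
noncomputable def v40 (x1 x2 x3 : ℝ) : ℝ := v6 x1 x2 x3 - v39 x1 x2 x3
theorem en40 (h : In b E x1 x2 x3) : Enc S E (t40 b) (v40 x1 x2 x3) := enc_sub (en6 h) (en39 h)

def t41 (b : Bx) : TM := tsqrt S (t40 b)
noncomputable def v41 (x1 x2 x3 : ℝ) : ℝ := Real.sqrt (v40 x1 x2 x3)
theorem en41 (h : In b E x1 x2 x3) : Enc S E (t41 b) (v41 x1 x2 x3) := enc_sqrt hS (en40 h)

def t42 (b : Bx) : TM := tsub (t25 b) (t1 b)
noncomputable def v42 (x1 x2 x3 : ℝ) : ℝ := v25 x1 x2 x3 - v1 x1 x2 x3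
theorem en42 (h : In b E x1 x2 x3) : Enc S E (t42 b) (v42 x1 x2 x3) := enc_sub (en25 h) (en1 h)

def t43 (b : Bx) : TM := tsq S (t42 b)
noncomputable def v43 (x1 x2 x3 : ℝ) : ℝ := (v42 x1 x2 x3) ^ 2
theorem en43 (h : In b E x1 x2 x3) : Enc S E (t43 b) (v43 x1 x2 x3) := enc_sq hS (en42 h)

def t44 (b : Bx) : TM := tsub (t6 b) (t43 b)
noncomputable def v44 (x1 x2 x3 : ℝ) : ℝ := v6 x1 x2 x3 - v43 x1 x2 x3
theorem en44 (h : In b E x1 x2 x3) : Enc S E (t44 b) (v44 x1 x2 x3) := enc_sub (en6 h) (en43 h)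

def t45 (b : Bx) : TM := tsqrt S (t44 b)
noncomputable def v45 (x1 x2 x3 : ℝ) : ℝ := Real.sqrt (v44 x1 x2 x3)
theorem en45 (h : In b E x1 x2 x3) : Enc S E (t45 b) (v45 x1 x2 x3) := enc_sqrt hS (en44 h)

def t46 (b : Bx) : TM := tadd (t45 b) (t6 b)
noncomputable def v46 (x1 x2 x3 : ℝ) : ℝ := v45 x1 x2 x3 + v6 x1 x2 x3
theorem en46 (h : In b E x1 x2 x3) : Enc S E (t46 b) (v46 x1 x2 x3) := enc_add (en45 h) (en6 h)

def t47 (b : Bx) : TM := tsub (t46 b) (t23 b)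
noncomputable def v47 (x1 x2 x3 : ℝ) : ℝ := v46 x1 x2 x3 - v23 x1 x2 x3
theorem en47 (h : In b E x1 x2 x3) : Enc S E (t47 b) (v47 x1 x2 x3) := enc_sub (en46 h) (en23 h)

def t48 (b : Bx) : TM := tmin (t41 b) (t47 b)
noncomputable def v48 (x1 x2 x3 : ℝ) : ℝ := min (v41 x1 x2 x3) (v47 x1 x2 x3)
theorem en48 (h : In b E x1 x2 x3) : Enc S E (t48 b) (v48 x1 x2 x3) := enc_min hS (en41 h) (en47 h)

def t53 (b : Bx) : TM := tsub (t24 b) (t1 b)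
noncomputable def v53 (x1 x2 x3 : ℝ) : ℝ := v24 x1 x2 x3 - v1 x1 x2 x3
theorem en53 (h : In b E x1 x2 x3) : Enc S E (t53 b) (v53 x1 x2 x3) := enc_sub (en24 h) (en1 h)

def t54 (b : Bx) : TM := tsq S (t53 b)
noncomputable def v54 (x1 x2 x3 : ℝ) : ℝ := (v53 x1 x2 x3) ^ 2
theorem en54 (h : In b E x1 x2 x3) : Enc S E (t54 b) (v54 x1 x2 x3) := enc_sq hS (en53 h)

def t55 (b : Bx) : TM := tsub (t6 b) (t54 b)
noncomputable def v55 (x1 x2 x3 : ℝ) : ℝ := v6 x1 x2 x3 - v54 x1 x2 x3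
theorem en55 (h : In b E x1 x2 x3) : Enc S E (t55 b) (v55 x1 x2 x3) := enc_sub (en6 h) (en54 h)

def t56 (b : Bx) : TM := tsqrt S (t55 b)
noncomputable def v56 (x1 x2 x3 : ℝ) : ℝ := Real.sqrt (v55 x1 x2 x3)
theorem en56 (h : In b E x1 x2 x3) : Enc S E (t56 b) (v56 x1 x2 x3) := enc_sqrt hS (en55 h)

def t57 (b : Bx) : TM := tadd (t56 b) (t6 b)
noncomputable def v57 (x1 x2 x3 : ℝ) : ℝ := v56 x1 x2 x3 + v6 x1 x2 x3
theorem en57 (h : In b E x1 x2 x3) : Enc S E (t57 b) (v57 x1 x2 x3) := enc_add (en56 h) (en6 h)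

def t58 (b : Bx) : TM := tsub (t57 b) (t23 b)
noncomputable def v58 (x1 x2 x3 : ℝ) : ℝ := v57 x1 x2 x3 - v23 x1 x2 x3
theorem en58 (h : In b E x1 x2 x3) : Enc S E (t58 b) (v58 x1 x2 x3) := enc_sub (en57 h) (en23 h)

def t59 (b : Bx) : TM := tadd (t8 b) (t6 b)
noncomputable def v59 (x1 x2 x3 : ℝ) : ℝ := v8 x1 x2 x3 + v6 x1 x2 x3
theorem en59 (h : In b E x1 x2 x3) : Enc S E (t59 b) (v59 x1 x2 x3) := enc_add (en8 h) (en6 h)

def t60 (b : Bx) : TM := tsub (t59 b) (t58 b)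
noncomputable def v60 (x1 x2 x3 : ℝ) : ℝ := v59 x1 x2 x3 - v58 x1 x2 x3
theorem en60 (h : In b E x1 x2 x3) : Enc S E (t60 b) (v60 x1 x2 x3) := enc_sub (en59 h) (en58 h)

def t61 (b : Bx) : TM := tsub (t60 b) (t48 b)
noncomputable def v61 (x1 x2 x3 : ℝ) : ℝ := v60 x1 x2 x3 - v48 x1 x2 x3
theorem en61 (h : In b E x1 x2 x3) : Enc S E (t61 b) (v61 x1 x2 x3) := enc_sub (en60 h) (en48 h)

def t73 (b : Bx) : TM := tsub (t59 b) (t56 b)
noncomputable def v73 (x1 x2 x3 : ℝ) : ℝ := v59 x1 x2 x3 - v56 x1 x2 x3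
theorem en73 (h : In b E x1 x2 x3) : Enc S E (t73 b) (v73 x1 x2 x3) := enc_sub (en59 h) (en56 h)

def t74 (b : Bx) : TM := tsub (t73 b) (t45 b)
noncomputable def v74 (x1 x2 x3 : ℝ) : ℝ := v73 x1 x2 x3 - v45 x1 x2 x3
theorem en74 (h : In b E x1 x2 x3) : Enc S E (t74 b) (v74 x1 x2 x3) := enc_sub (en73 h) (en45 h)

def t75 (b : Bx) : TM := tscale 9 5 (t61 b)
noncomputable def v75 (x1 x2 x3 : ℝ) : ℝ := ((9 : ℕ) : ℝ) / ((5 : ℕ) : ℝ) * v61 x1 x2 x3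
theorem en75 (h : In b E x1 x2 x3) : Enc S E (t75 b) (v75 x1 x2 x3) := enc_scale 9 (by norm_num) (en61 h)

def t76 (b : Bx) : TM := tadd (t37 b) (t75 b)
noncomputable def v76 (x1 x2 x3 : ℝ) : ℝ := v37 x1 x2 x3 + v75 x1 x2 x3
theorem en76 (h : In b E x1 x2 x3) : Enc S E (t76 b) (v76 x1 x2 x3) := enc_add (en37 h) (en75 h)

def t77 (b : Bx) : TM := tscale 1 5 (t74 b)
noncomputable def v77 (x1 x2 x3 : ℝ) : ℝ := ((1 : ℕ) : ℝ) / ((5 : ℕ) : ℝ) * v74 x1 x2 x3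
theorem en77 (h : In b E x1 x2 x3) : Enc S E (t77 b) (v77 x1 x2 x3) := enc_scale 1 (by norm_num) (en74 h)

def t78 (b : Bx) : TM := tadd (t76 b) (t77 b)
noncomputable def v78 (x1 x2 x3 : ℝ) : ℝ := v76 x1 x2 x3 + v77 x1 x2 x3
theorem en78 (h : In b E x1 x2 x3) : Enc S E (t78 b) (v78 x1 x2 x3) := enc_add (en76 h) (en77 h)

def t79 (b : Bx) : TM := tsub (t25 b) (t28 b)
noncomputable def v79 (x1 x2 x3 : ℝ) : ℝ := v25 x1 x2 x3 - v28 x1 x2 x3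
theorem en79 (h : In b E x1 x2 x3) : Enc S E (t79 b) (v79 x1 x2 x3) := enc_sub (en25 h) (en28 h)

def t80 (b : Bx) : TM := tsub (t24 b) (t29 b)
noncomputable def v80 (x1 x2 x3 : ℝ) : ℝ := v24 x1 x2 x3 - v29 x1 x2 x3
theorem en80 (h : In b E x1 x2 x3) : Enc S E (t80 b) (v80 x1 x2 x3) := enc_sub (en24 h) (en29 h)

def t81 (b : Bx) : TM := tsub (t3 b) (t2 b)
noncomputable def v81 (x1 x2 x3 : ℝ) : ℝ := v3 x1 x2 x3 - v2 x1 x2 x3
theorem en81 (h : In b E x1 x2 x3) : Enc S E (t81 b) (v81 x1 x2 x3) := enc_sub (en3 h) (en2 h)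

def t82 (b : Bx) : TM := tnat 2 (t32 b)
noncomputable def v82 (x1 x2 x3 : ℝ) : ℝ := ((2 : ℕ) : ℝ) * v32 x1 x2 x3
theorem en82 (h : In b E x1 x2 x3) : Enc S E (t82 b) (v82 x1 x2 x3) := enc_nat 2 (en32 h)

def t83 (b : Bx) : TM := tsub (t82 b) (t6 b)
noncomputable def v83 (x1 x2 x3 : ℝ) : ℝ := v82 x1 x2 x3 - v6 x1 x2 x3
theorem en83 (h : In b E x1 x2 x3) : Enc S E (t83 b) (v83 x1 x2 x3) := enc_sub (en82 h) (en6 h)

def t84 (b : Bx) : TM := tsub (t83 b) (t19 b)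
noncomputable def v84 (x1 x2 x3 : ℝ) : ℝ := v83 x1 x2 x3 - v19 x1 x2 x3
theorem en84 (h : In b E x1 x2 x3) : Enc S E (t84 b) (v84 x1 x2 x3) := enc_sub (en83 h) (en19 h)

def t85 (_b : Bx) : TM := tconst (Nat.div (Nat.mul 57 S) 100) 0 1
noncomputable def v85 (_x1 _x2 _x3 : ℝ) : ℝ := ((57 : ℕ) : ℝ) / ((100 : ℕ) : ℝ)
theorem en85 (_h : In b E x1 x2 x3) : Enc S E (t85 b) (v85 x1 x2 x3) := enc_rat E 57 (by norm_num)

def t86 (b : Bx) : TM := tsub (t85 b) (t2 b)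
noncomputable def v86 (x1 x2 x3 : ℝ) : ℝ := v85 x1 x2 x3 - v2 x1 x2 x3
theorem en86 (h : In b E x1 x2 x3) : Enc S E (t86 b) (v86 x1 x2 x3) := enc_sub (en85 h) (en2 h)

def t87 (b : Bx) : TM := tscale 1 20 (t86 b)
noncomputable def v87 (x1 x2 x3 : ℝ) : ℝ := ((1 : ℕ) : ℝ) / ((20 : ℕ) : ℝ) * v86 x1 x2 x3
theorem en87 (h : In b E x1 x2 x3) : Enc S E (t87 b) (v87 x1 x2 x3) := enc_scale 1 (by norm_num) (en86 h)

def t88 (_b : Bx) : TM := tconst (Nat.div (Nat.mul 197 S) 10000) 0 1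
noncomputable def v88 (_x1 _x2 _x3 : ℝ) : ℝ := ((197 : ℕ) : ℝ) / ((10000 : ℕ) : ℝ)
theorem en88 (_h : In b E x1 x2 x3) : Enc S E (t88 b) (v88 x1 x2 x3) := enc_rat E 197 (by norm_num)

def t89 (b : Bx) : TM := tadd (t88 b) (t87 b)
noncomputable def v89 (x1 x2 x3 : ℝ) : ℝ := v88 x1 x2 x3 + v87 x1 x2 x3
theorem en89 (h : In b E x1 x2 x3) : Enc S E (t89 b) (v89 x1 x2 x3) := enc_add (en88 h) (en87 h)

def t90 (b : Bx) : TM := tadd (t78 b) (t89 b)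
noncomputable def v90 (x1 x2 x3 : ℝ) : ℝ := v78 x1 x2 x3 + v89 x1 x2 x3
theorem en90 (h : In b E x1 x2 x3) : Enc S E (t90 b) (v90 x1 x2 x3) := enc_add (en78 h) (en89 h)

def t91 (b : Bx) : TM := tsub (t4 b) (t3 b)
noncomputable def v91 (x1 x2 x3 : ℝ) : ℝ := v4 x1 x2 x3 - v3 x1 x2 x3
theorem en91 (h : In b E x1 x2 x3) : Enc S E (t91 b) (v91 x1 x2 x3) := enc_sub (en4 h) (en3 h)

def t92 (b : Bx) : TM := tsub (t78 b) (t89 b)
noncomputable def v92 (x1 x2 x3 : ℝ) : ℝ := v78 x1 x2 x3 - v89 x1 x2 x3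
theorem en92 (h : In b E x1 x2 x3) : Enc S E (t92 b) (v92 x1 x2 x3) := enc_sub (en78 h) (en89 h)

def t93 (b : Bx) : TM := tsub (t3 b) (t4 b)
noncomputable def v93 (x1 x2 x3 : ℝ) : ℝ := v3 x1 x2 x3 - v4 x1 x2 x3
theorem en93 (h : In b E x1 x2 x3) : Enc S E (t93 b) (v93 x1 x2 x3) := enc_sub (en3 h) (en4 h)

def t94 (_b : Bx) : TM := tconst (Nat.div (Nat.mul 3 S) 200) 0 1
noncomputable def v94 (_x1 _x2 _x3 : ℝ) : ℝ := ((3 : ℕ) : ℝ) / ((200 : ℕ) : ℝ)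
theorem en94 (_h : In b E x1 x2 x3) : Enc S E (t94 b) (v94 x1 x2 x3) := enc_rat E 3 (by norm_num)

def t95 (b : Bx) : TM := tsub (t91 b) (t94 b)
noncomputable def v95 (x1 x2 x3 : ℝ) : ℝ := v91 x1 x2 x3 - v94 x1 x2 x3
theorem en95 (h : In b E x1 x2 x3) : Enc S E (t95 b) (v95 x1 x2 x3) := enc_sub (en91 h) (en94 h)

end

def tstO (b : Bx) : Bool := or (pos (t90 b)) (or (pos (t79 b)) (or (pos (t80 b)) (or (pos (t81 b)) (pos (t84 b)))))

def fO (b : Bx) : Nat := go (tstO b) 1 (t90 b) b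

def QO (x1 x2 x3 : ℝ) : Prop := 0 < v90 x1 x2 x3 ∨ 0 < v79 x1 x2 x3 ∨ 0 < v80 x1 x2 x3 ∨ 0 < v81 x1 x2 x3 ∨ 0 < v84 x1 x2 x3

theorem f_soundO (b : Bx) (hb : fO b = 0) (x1 x2 x3 : ℝ) (hm : Mem S b x1 x2 x3) : QO x1 x2 x3 := by
  obtain ⟨E, h⟩ := pt_of_mem hm
  have h : In b E x1 x2 x3 := h
  have ht := go_sound hb
  unfold tstO at ht
  unfold QO
  rcases Bool.or_eq_true_iff.mp ht with ht | ht
  · exact Or.inl (pos_sound hS (en90 h) ht)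
  · refine Or.inr ?_
    rcases Bool.or_eq_true_iff.mp ht with ht | ht
    · exact Or.inl (pos_sound hS (en79 h) ht)
    · refine Or.inr ?_
      rcases Bool.or_eq_true_iff.mp ht with ht | ht
      · exact Or.inl (pos_sound hS (en80 h) ht)
      · refine Or.inr ?_
        rcases Bool.or_eq_true_iff.mp ht with ht | ht
        · exact Or.inl (pos_sound hS (en81 h) ht)
        · refine Or.inr ?_
          exact pos_sound hS (en84 h) ht

def tstW (b : Bx) : Bool := or (pos (t78 b)) (or (pos (t79 b)) (or (pos (t80 b)) (or (pos (t81 b)) (or (pos (t84 b)) (pos (t91 b))))))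

def fW (b : Bx) : Nat := go (tstW b) 1 (t78 b) b

def QW (x1 x2 x3 : ℝ) : Prop := 0 < v78 x1 x2 x3 ∨ 0 < v79 x1 x2 x3 ∨ 0 < v80 x1 x2 x3 ∨ 0 < v81 x1 x2 x3 ∨ 0 < v84 x1 x2 x3 ∨ 0 < v91 x1 x2 x3

theorem f_soundW (b : Bx) (hb : fW b = 0) (x1 x2 x3 : ℝ) (hm : Mem S b x1 x2 x3) : QW x1 x2 x3 := by
  obtain ⟨E, h⟩ := pt_of_mem hm
  have h : In b E x1 x2 x3 := h
  have ht := go_sound hb
  unfold tstW at ht
  unfold QW
  rcases Bool.or_eq_true_iff.mp ht with ht | ht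
  · exact Or.inl (pos_sound hS (en78 h) ht)
  · refine Or.inr ?_
    rcases Bool.or_eq_true_iff.mp ht with ht | ht
    · exact Or.inl (pos_sound hS (en79 h) ht)
    · refine Or.inr ?_
      rcases Bool.or_eq_true_iff.mp ht with ht | ht
      · exact Or.inl (pos_sound hS (en80 h) ht)
      · refine Or.inr ?_
        rcases Bool.or_eq_true_iff.mp ht with ht | ht
        · exact Or.inl (pos_sound hS (en81 h) ht)
        · refine Or.inr ?_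
          rcases Bool.or_eq_true_iff.mp ht with ht | ht
          · exact Or.inl (pos_sound hS (en84 h) ht)
          · refine Or.inr ?_
            exact pos_sound hS (en91 h) ht

def tstH (b : Bx) : Bool := or (pos (t78 b)) (or (pos (t79 b)) (or (pos (t80 b)) (pos (t81 b))))

def fH (b : Bx) : Nat := go (tstH b) 1 (t78 b) b

def QH (x1 x2 x3 : ℝ) : Prop := 0 < v78 x1 x2 x3 ∨ 0 < v79 x1 x2 x3 ∨ 0 < v80 x1 x2 x3 ∨ 0 < v81 x1 x2 x3

theorem f_soundH (b : Bx) (hb : fH b = 0) (x1 x2 x3 : ℝ) (hm : Mem S b x1 x2 x3) : QH x1 x2 x3 := by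
  obtain ⟨E, h⟩ := pt_of_mem hm
  have h : In b E x1 x2 x3 := h
  have ht := go_sound hb
  unfold tstH at ht
  unfold QH
  rcases Bool.or_eq_true_iff.mp ht with ht | ht
  · exact Or.inl (pos_sound hS (en78 h) ht)
  · refine Or.inr ?_
    rcases Bool.or_eq_true_iff.mp ht with ht | ht
    · exact Or.inl (pos_sound hS (en79 h) ht)
    · refine Or.inr ?_
      rcases Bool.or_eq_true_iff.mp ht with ht | ht
      · exact Or.inl (pos_sound hS (en80 h) ht)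
      · refine Or.inr ?_
        exact pos_sound hS (en81 h) ht

def tstR (b : Bx) : Bool := or (pos (t92 b)) (or (pos (t79 b)) (or (pos (t80 b)) (or (pos (t81 b)) (or (pos (t84 b)) (or (pos (t93 b)) (pos (t95 b)))))))

def fR (b : Bx) : Nat := go (tstR b) 1 (t92 b) b

def QR (x1 x2 x3 : ℝ) : Prop := 0 < v92 x1 x2 x3 ∨ 0 < v79 x1 x2 x3 ∨ 0 < v80 x1 x2 x3 ∨ 0 < v81 x1 x2 x3 ∨ 0 < v84 x1 x2 x3 ∨ 0 < v93 x1 x2 x3 ∨ 0 < v95 x1 x2 x3

theorem f_soundR (b : Bx) (hb : fR b = 0) (x1 x2 x3 : ℝ) (hm : Mem S b x1 x2 x3) : QR x1 x2 x3 := by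
  obtain ⟨E, h⟩ := pt_of_mem hm
  have h : In b E x1 x2 x3 := h
  have ht := go_sound hb
  unfold tstR at ht
  unfold QR
  rcases Bool.or_eq_true_iff.mp ht with ht | ht
  · exact Or.inl (pos_sound hS (en92 h) ht)
  · refine Or.inr ?_
    rcases Bool.or_eq_true_iff.mp ht with ht | ht
    · exact Or.inl (pos_sound hS (en79 h) ht)
    · refine Or.inr ?_
      rcases Bool.or_eq_true_iff.mp ht with ht | ht
      · exact Or.inl (pos_sound hS (en80 h) ht)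
      · refine Or.inr ?_
        rcases Bool.or_eq_true_iff.mp ht with ht | ht
        · exact Or.inl (pos_sound hS (en81 h) ht)
        · refine Or.inr ?_
          rcases Bool.or_eq_true_iff.mp ht with ht | ht
          · exact Or.inl (pos_sound hS (en84 h) ht)
          · refine Or.inr ?_
            rcases Bool.or_eq_true_iff.mp ht with ht | ht
            · exact Or.inl (pos_sound hS (en93 h) ht)
            · refine Or.inr ?_
              exact pos_sound hS (en95 h) ht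

section

variable (s y b : ℝ)

theorem w0 : v0 s y b = (2 * h0) := by unfold v0 h0; push_cast; ring

theorem w1 : v1 s y b = h0 := by unfold v1; rw [w0]; unfold h0; push_cast; ring

theorem w2 : v2 s y b = s := rfl

theorem w3 : v3 s y b = y := rfl

theorem w4 : v4 s y b = b := rfl

theorem w5 : v5 s y b = (b ^ 2) := by rw [v5, w4]

theorem w6 : v6 s y b = 1 := by unfold v6; norm_num

theorem w7 : v7 s y b = (1 - (b ^ 2)) := by rw [v7, w6, w5]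

theorem w8 : v8 s y b = (g b) := by unfold v8; rw [w7]; rfl

theorem w9 : v9 s y b = (h0 * (g b)) := by rw [v9, w1, w8]

theorem w10 : v10 s y b = (1 / 2 * b) := by simp only [v10, w4, Nat.cast_ofNat, Nat.cast_one]

theorem w11 : v11 s y b = ((h0 * (g b)) - (1 / 2 * b)) := by rw [v11, w9, w10]

theorem w12 : v12 s y b = ((h0 * (g b)) + (1 / 2 * b)) := by rw [v12, w9, w10]

theorem w17 : v17 s y b = (s ^ 2) := by rw [v17, w2]

theorem w18 : v18 s y b = (1 - (s ^ 2)) := by rw [v18, w6, w17]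

theorem w19 : v19 s y b = (g s) := by unfold v19; rw [w18]; rfl

theorem w20 : v20 s y b = (17 / 50 * s) := by simp only [v20, w2, Nat.cast_ofNat, Nat.cast_one]

theorem w21 : v21 s y b = ((17 / 50 * s) ^ 2) := by rw [v21, w20]

theorem w22 : v22 s y b = (1 - ((17 / 50 * s) ^ 2)) := by rw [v22, w6, w21]

theorem w23 : v23 s y b = (g (17 / 50 * s)) := by unfold v23; rw [w22]; rfl

theorem w24 : v24 s y b = (y + ((h0 * (g b)) + (1 / 2 * b))) := by rw [v24, w3, w12]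

theorem w25 : v25 s y b = (y + ((h0 * (g b)) - (1 / 2 * b))) := by rw [v25, w3, w11]

theorem w26 : v26 s y b = (h0 + (17 / 50 * s)) := by rw [v26, w1, w20]

theorem w27 : v27 s y b = (33 / 50 * s) := by simp only [v27, w2, Nat.cast_ofNat, Nat.cast_one]

theorem w28 : v28 s y b = (h0 + (33 / 50 * s)) := by rw [v28, w1, w27]

theorem w29 : v29 s y b = (h0 + s) := by rw [v29, w1, w2]

theorem w30 : v30 s y b = (y ^ 2) := by rw [v30, w3]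

theorem w31 : v31 s y b = (1 - (y ^ 2)) := by rw [v31, w6, w30]

theorem w32 : v32 s y b = (g y) := by unfold v32; rw [w31]; rfl

theorem w33 : v33 s y b = (8 * (g y)) := by simp only [v33, w32, Nat.cast_ofNat, Nat.cast_one]

theorem w34 : v34 s y b = 4 := by unfold v34; norm_num

theorem w35 : v35 s y b = ((8 * (g y)) - 4) := by rw [v35, w33, w34]

theorem w36 : v36 s y b = (4 * (g s)) := by simp only [v36, w19, Nat.cast_ofNat, Nat.cast_one]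

theorem w37 : v37 s y b = (((8 * (g y)) - 4) - (4 * (g s))) := by rw [v37, w35, w36]

theorem w38 : v38 s y b = ((y + ((h0 * (g b)) - (1 / 2 * b))) - (h0 + (17 / 50 * s))) := by rw [v38, w25, w26]

theorem w39 : v39 s y b = (((y + ((h0 * (g b)) - (1 / 2 * b))) - (h0 + (17 / 50 * s))) ^ 2) := by rw [v39, w38]

theorem w40 : v40 s y b = (1 - (((y + ((h0 * (g b)) - (1 / 2 * b))) - (h0 + (17 / 50 * s))) ^ 2)) := by rw [v40, w6, w39]

theorem w41 : v41 s y b = (g ((y + ((h0 * (g b)) - (1 / 2 * b))) - (h0 + (17 / 50 * s)))) := by unfold v41; rw [w40]; rfl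

theorem w42 : v42 s y b = ((y + ((h0 * (g b)) - (1 / 2 * b))) - h0) := by rw [v42, w25, w1]

theorem w43 : v43 s y b = (((y + ((h0 * (g b)) - (1 / 2 * b))) - h0) ^ 2) := by rw [v43, w42]

theorem w44 : v44 s y b = (1 - (((y + ((h0 * (g b)) - (1 / 2 * b))) - h0) ^ 2)) := by rw [v44, w6, w43]

theorem w45 : v45 s y b = (g ((y + ((h0 * (g b)) - (1 / 2 * b))) - h0)) := by unfold v45; rw [w44]; rfl

theorem w46 : v46 s y b = ((g ((y + ((h0 * (g b)) - (1 / 2 * b))) - h0)) + 1) := by rw [v46, w45, w6]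

theorem w47 : v47 s y b = (((g ((y + ((h0 * (g b)) - (1 / 2 * b))) - h0)) + 1) - (g (17 / 50 * s))) := by rw [v47, w46, w23]

theorem w48 : v48 s y b = (min (g ((y + ((h0 * (g b)) - (1 / 2 * b))) - (h0 + (17 / 50 * s)))) (((g ((y + ((h0 * (g b)) - (1 / 2 * b))) - h0)) + 1) - (g (17 / 50 * s)))) := by rw [v48, w41, w47]

theorem w53 : v53 s y b = ((y + ((h0 * (g b)) + (1 / 2 * b))) - h0) := by rw [v53, w24, w1]

theorem w54 : v54 s y b = (((y + ((h0 * (g b)) + (1 / 2 * b))) - h0) ^ 2) := by rw [v54, w53]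

theorem w55 : v55 s y b = (1 - (((y + ((h0 * (g b)) + (1 / 2 * b))) - h0) ^ 2)) := by rw [v55, w6, w54]

theorem w56 : v56 s y b = (g ((y + ((h0 * (g b)) + (1 / 2 * b))) - h0)) := by unfold v56; rw [w55]; rfl

theorem w57 : v57 s y b = ((g ((y + ((h0 * (g b)) + (1 / 2 * b))) - h0)) + 1) := by rw [v57, w56, w6]

theorem w58 : v58 s y b = (((g ((y + ((h0 * (g b)) + (1 / 2 * b))) - h0)) + 1) - (g (17 / 50 * s))) := by rw [v58, w57, w23]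

theorem w59 : v59 s y b = ((g b) + 1) := by rw [v59, w8, w6]

theorem w60 : v60 s y b = (((g b) + 1) - (((g ((y + ((h0 * (g b)) + (1 / 2 * b))) - h0)) + 1) - (g (17 / 50 * s)))) := by rw [v60, w59, w58]

theorem w61 : v61 s y b = ((((g b) + 1) - (((g ((y + ((h0 * (g b)) + (1 / 2 * b))) - h0)) + 1) - (g (17 / 50 * s)))) - (min (g ((y + ((h0 * (g b)) - (1 / 2 * b))) - (h0 + (17 / 50 * s)))) (((g ((y + ((h0 * (g b)) - (1 / 2 * b))) - h0)) + 1) - (g (17 / 50 * s))))) := by rw [v61, w60, w48]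

theorem w73 : v73 s y b = (((g b) + 1) - (g ((y + ((h0 * (g b)) + (1 / 2 * b))) - h0))) := by rw [v73, w59, w56]

theorem w74 : v74 s y b = ((((g b) + 1) - (g ((y + ((h0 * (g b)) + (1 / 2 * b))) - h0))) - (g ((y + ((h0 * (g b)) - (1 / 2 * b))) - h0))) := by rw [v74, w73, w45]

theorem w75 : v75 s y b = (9 / 5 * ((((g b) + 1) - (((g ((y + ((h0 * (g b)) + (1 / 2 * b))) - h0)) + 1) - (g (17 / 50 * s)))) - (min (g ((y + ((h0 * (g b)) - (1 / 2 * b))) - (h0 + (17 / 50 * s)))) (((g ((y + ((h0 * (g b)) - (1 / 2 * b))) - h0)) + 1) - (g (17 / 50 * s)))))) := by simp only [v75, w61, Nat.cast_ofNat, Nat.cast_one]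

theorem w76 : v76 s y b = ((((8 * (g y)) - 4) - (4 * (g s))) + (9 / 5 * ((((g b) + 1) - (((g ((y + ((h0 * (g b)) + (1 / 2 * b))) - h0)) + 1) - (g (17 / 50 * s)))) - (min (g ((y + ((h0 * (g b)) - (1 / 2 * b))) - (h0 + (17 / 50 * s)))) (((g ((y + ((h0 * (g b)) - (1 / 2 * b))) - h0)) + 1) - (g (17 / 50 * s))))))) := by rw [v76, w37, w75]

theorem w77 : v77 s y b = (1 / 5 * ((((g b) + 1) - (g ((y + ((h0 * (g b)) + (1 / 2 * b))) - h0))) - (g ((y + ((h0 * (g b)) - (1 / 2 * b))) - h0)))) := by simp only [v77, w74, Nat.cast_ofNat, Nat.cast_one]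

theorem w78 : v78 s y b = (((((8 * (g y)) - 4) - (4 * (g s))) + (9 / 5 * ((((g b) + 1) - (((g ((y + ((h0 * (g b)) + (1 / 2 * b))) - h0)) + 1) - (g (17 / 50 * s)))) - (min (g ((y + ((h0 * (g b)) - (1 / 2 * b))) - (h0 + (17 / 50 * s)))) (((g ((y + ((h0 * (g b)) - (1 / 2 * b))) - h0)) + 1) - (g (17 / 50 * s))))))) + (1 / 5 * ((((g b) + 1) - (g ((y + ((h0 * (g b)) + (1 / 2 * b))) - h0))) - (g ((y + ((h0 * (g b)) - (1 / 2 * b))) - h0))))) := by rw [v78, w76, w77]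

theorem w79 : v79 s y b = ((y + ((h0 * (g b)) - (1 / 2 * b))) - (h0 + (33 / 50 * s))) := by rw [v79, w25, w28]

theorem w80 : v80 s y b = ((y + ((h0 * (g b)) + (1 / 2 * b))) - (h0 + s)) := by rw [v80, w24, w29]

theorem w81 : v81 s y b = (y - s) := by rw [v81, w3, w2]

theorem w82 : v82 s y b = (2 * (g y)) := by simp only [v82, w32, Nat.cast_ofNat, Nat.cast_one]

theorem w83 : v83 s y b = ((2 * (g y)) - 1) := by rw [v83, w82, w6]

theorem w84 : v84 s y b = (((2 * (g y)) - 1) - (g s)) := by rw [v84, w83, w19]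

theorem w85 : v85 s y b = (57 / 100) := by unfold v85; norm_num

theorem w86 : v86 s y b = ((57 / 100) - s) := by rw [v86, w85, w2]

theorem w87 : v87 s y b = (1 / 20 * ((57 / 100) - s)) := by simp only [v87, w86, Nat.cast_ofNat, Nat.cast_one]

theorem w88 : v88 s y b = (197 / 10000) := by unfold v88; norm_num

theorem w89 : v89 s y b = ((197 / 10000) + (1 / 20 * ((57 / 100) - s))) := by rw [v89, w88, w87]

theorem w90 : v90 s y b = ((((((8 * (g y)) - 4) - (4 * (g s))) + (9 / 5 * ((((g b) + 1) - (((g ((y + ((h0 * (g b)) + (1 / 2 * b))) - h0)) + 1) - (g (17 / 50 * s)))) - (min (g ((y + ((h0 * (g b)) - (1 / 2 * b))) - (h0 + (17 / 50 * s)))) (((g ((y + ((h0 * (g b)) - (1 / 2 * b))) - h0)) + 1) - (g (17 / 50 * s))))))) + (1 / 5 * ((((g b) + 1) - (g ((y + ((h0 * (g b)) + (1 / 2 * b))) - h0))) - (g ((y + ((h0 * (g b)) - (1 / 2 * b))) - h0))))) + ((197 / 10000) + (1 / 20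 * ((57 / 100) - s)))) := by rw [v90, w78, w89]

theorem w91 : v91 s y b = (b - y) := by rw [v91, w4, w3]

theorem w92 : v92 s y b = ((((((8 * (g y)) - 4) - (4 * (g s))) + (9 / 5 * ((((g b) + 1) - (((g ((y + ((h0 * (g b)) + (1 / 2 * b))) - h0)) + 1) - (g (17 / 50 * s)))) - (min (g ((y + ((h0 * (g b)) - (1 / 2 * b))) - (h0 + (17 / 50 * s)))) (((g ((y + ((h0 * (g b)) - (1 / 2 * b))) - h0)) + 1) - (g (17 / 50 * s))))))) + (1 / 5 * ((((g b) + 1) - (g ((y + ((h0 * (g b)) + (1 / 2 * b))) - h0))) - (g ((y + ((h0 * (g b)) - (1 / 2 * b))) - h0))))) - ((197 / 10000) + (1 / 20 * ((57 / 100) - s)))) := by rw [v92, w78, w89]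

theorem w93 : v93 s y b = (y - b) := by rw [v93, w3, w4]

theorem w94 : v94 s y b = (3 / 200) := by unfold v94; norm_num

theorem w95 : v95 s y b = ((b - y) - (3 / 200)) := by rw [v95, w91, w94]

end

theorem cO_ok : chk fO 60 ⟨589484261, 0, 22548579, 445602856, 0, 37580965, 268435456, 0, 268435456⟩ = true := by decide +kernel

theorem mainO {s y b : ℝ} (hl1 : 66 / 125 ≤ s) (hu1 : s ≤ 57 / 100) (hl2 : 19 / 50 ≤ y) (hu2 : y ≤ 9 / 20) (hl3 : 0 ≤ b) (hu3 : b ≤ 1 / 2) :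
    (0 < ((((((8 * (g y)) - 4) - (4 * (g s))) + (9 / 5 * ((((g b) + 1) - (((g ((y + ((h0 * (g b)) + (1 / 2 * b))) - h0)) + 1) - (g (17 / 50 * s)))) - (min (g ((y + ((h0 * (g b)) - (1 / 2 * b))) - (h0 + (17 / 50 * s)))) (((g ((y + ((h0 * (g b)) - (1 / 2 * b))) - h0)) + 1) - (g (17 / 50 * s))))))) + (1 / 5 * ((((g b) + 1) - (g ((y + ((h0 * (g b)) + (1 / 2 * b))) - h0))) - (g ((y + ((h0 * (g b)) - (1 / 2 * b))) - h0))))) + ((197 / 10000) + (1 / 20 * ((57 / 100) - s))))) ∨ (0 < ((y + ((h0 * (g b)) - (1 / 2 * b))) - (h0 + (33 / 50 * s)))) ∨ (0 < ((y + ((h0 * (g b)) + (1 / 2 * b))) - (h0 + s))) ∨ (0 < (y - s)) ∨ (0 < (((2 * (g y)) - 1) - (g s))) := by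
  have hm : Mem S ⟨589484261, 0, 22548579, 445602856, 0, 37580965, 268435456, 0, 268435456⟩ s y b := by
    refine ⟨?_, ?_, ?_⟩ <;> norm_num only [S] <;> rw [abs_le] <;> constructor <;> linarith
  have h := chk_sound f_soundO 60 _ cO_ok s y b hm
  unfold QO at h
  rw [w90, w79, w80, w81, w84] at h
  exact h

theorem cW_ok : chk fW 60 ⟨589484261, 0, 22548579, 445602856, 0, 37580965, 241591910, 0, 241591911⟩ = true := by decide +kernel

theorem mainW {s y b : ℝ} (hl1 : 66 / 125 ≤ s) (hu1 : s ≤ 57 / 100) (hl2 : 19 / 50 ≤ y) (hu2 : y ≤ 9 / 20) (hl3 : 0 ≤ b) (hu3 : b ≤ 9 / 20) :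
    (0 < (((((8 * (g y)) - 4) - (4 * (g s))) + (9 / 5 * ((((g b) + 1) - (((g ((y + ((h0 * (g b)) + (1 / 2 * b))) - h0)) + 1) - (g (17 / 50 * s)))) - (min (g ((y + ((h0 * (g b)) - (1 / 2 * b))) - (h0 + (17 / 50 * s)))) (((g ((y + ((h0 * (g b)) - (1 / 2 * b))) - h0)) + 1) - (g (17 / 50 * s))))))) + (1 / 5 * ((((g b) + 1) - (g ((y + ((h0 * (g b)) + (1 / 2 * b))) - h0))) - (g ((y + ((h0 * (g b)) - (1 / 2 * b))) - h0)))))) ∨ (0 < ((y + ((h0 * (g b)) - (1 / 2 * b))) - (h0 + (33 / 50 * s)))) ∨ (0 < ((y + ((h0 * (g b)) + (1 / 2 * b))) - (h0 + s))) ∨ (0 < (y - s)) ∨ (0 < (((2 * (g y)) - 1) - (g s))) ∨ (0 < (b - y)) := by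
  have hm : Mem S ⟨589484261, 0, 22548579, 445602856, 0, 37580965, 241591910, 0, 241591911⟩ s y b := by
    refine ⟨?_, ?_, ?_⟩ <;> norm_num only [S] <;> rw [abs_le] <;> constructor <;> linarith
  have h := chk_sound f_soundW 60 _ cW_ok s y b hm
  unfold QW at h
  rw [w78, w79, w80, w81, w84, w91] at h
  exact h

theorem cH_ok : chk fH 60 ⟨589484261, 0, 22548579, 510027366, 0, 26843546, 268435456, 0, 268435456⟩ = true := by decide +kernel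

theorem mainH {s y b : ℝ} (hl1 : 66 / 125 ≤ s) (hu1 : s ≤ 57 / 100) (hl2 : 9 / 20 ≤ y) (hu2 : y ≤ 1 / 2) (hl3 : 0 ≤ b) (hu3 : b ≤ 1 / 2) :
    (0 < (((((8 * (g y)) - 4) - (4 * (g s))) + (9 / 5 * ((((g b) + 1) - (((g ((y + ((h0 * (g b)) + (1 / 2 * b))) - h0)) + 1) - (g (17 / 50 * s)))) - (min (g ((y + ((h0 * (g b)) - (1 / 2 * b))) - (h0 + (17 / 50 * s)))) (((g ((y + ((h0 * (g b)) - (1 / 2 * b))) - h0)) + 1) - (g (17 / 50 * s))))))) + (1 / 5 * ((((g b) + 1) - (g ((y + ((h0 * (g b)) + (1 / 2 * b))) - h0))) - (g ((y + ((h0 * (g b)) - (1 / 2 * b))) - h0)))))) ∨ (0 < ((y + ((h0 * (g b)) - (1 / 2 * b))) - (h0 + (33 / 50 * s)))) ∨ (0 < ((y + ((h0 * (g b)) + (1 / 2 * b))) - (h0 + s))) ∨ (0 < (y - s)) := by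
  have hm : Mem S ⟨589484261, 0, 22548579, 510027366, 0, 26843546, 268435456, 0, 268435456⟩ s y b := by
    refine ⟨?_, ?_, ?_⟩ <;> norm_num only [S] <;> rw [abs_le] <;> constructor <;> linarith
  have h := chk_sound f_soundH 60 _ cH_ok s y b hm
  unfold QH at h
  rw [w78, w79, w80, w81] at h
  exact h

theorem cR_ok : chk fR 60 ⟨589484261, 0, 22548579, 445602856, 0, 37580965, 456340275, 0, 48318383⟩ = true := by decide +kernel

theorem mainR {s y b : ℝ} (hl1 : 66 / 125 ≤ s) (hu1 : s ≤ 57 / 100) (hl2 : 19 / 50 ≤ y) (hu2 : y ≤ 9 / 20) (hl3 : 19 / 50 ≤ b) (hu3 : b ≤ 47 / 100) :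
    (0 < ((((((8 * (g y)) - 4) - (4 * (g s))) + (9 / 5 * ((((g b) + 1) - (((g ((y + ((h0 * (g b)) + (1 / 2 * b))) - h0)) + 1) - (g (17 / 50 * s)))) - (min (g ((y + ((h0 * (g b)) - (1 / 2 * b))) - (h0 + (17 / 50 * s)))) (((g ((y + ((h0 * (g b)) - (1 / 2 * b))) - h0)) + 1) - (g (17 / 50 * s))))))) + (1 / 5 * ((((g b) + 1) - (g ((y + ((h0 * (g b)) + (1 / 2 * b))) - h0))) - (g ((y + ((h0 * (g b)) - (1 / 2 * b))) - h0))))) - ((197 / 10000) + (1 / 20 * ((57 / 100) - s))))) ∨ (0 < ((y + ((h0 * (g b)) - (1 / 2 * b))) - (h0 + (33 / 50 * s)))) ∨ (0 < ((y + ((h0 * (g b)) + (1 / 2 * b))) - (h0 + s))) ∨ (0 < (y - s)) ∨ (0 < (((2 * (g y)) - 1) - (g s))) ∨ (0 < (y - b)) ∨ (0 < ((b - y) - (3 / 200))) := by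
  have hm : Mem S ⟨589484261, 0, 22548579, 445602856, 0, 37580965, 456340275, 0, 48318383⟩ s y b := by
    refine ⟨?_, ?_, ?_⟩ <;> norm_num only [S] <;> rw [abs_le] <;> constructor <;> linarith
  have h := chk_sound f_soundR 60 _ cR_ok s y b hm
  unfold QR at h
  rw [w92, w79, w80, w81, w84, w93, w95] at h
  exact h


end Pool.Agent.Strip051.FourE.Laa
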