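import Pool.Agent.Strip051.Box.B3
import Pool.Agent.Strip051.Four.Defs

/-! # Generated boxes: Lba  -/

set_option maxRecDepth 100000
set_option linter.unusedVariables false

namespace Pool.Agent.Strip051.FourE.Lba

open Pool.Agent.Strip051.Box Pool.Agent.Strip051.Box3
open Pool.Agent.StripNear (h0)
open Pool.Agent.StripSquare (g)
open Pool.Agent.Strip051 (ext)

abbrev S : Nat := 1073741824

theorem hS : 0 < S := by decide

def In (b : Bx) (E : Pt) (x1 x2 x3 : ℝ) : Prop :=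
  (S : ℝ) * x1 = ((b.p1 : ℝ) - b.n1) + b.q1 * E.e1 ∧ (S : ℝ) * x2 = ((b.p2 : ℝ) - b.n2) + b.q2 * E.e2 ∧ (S : ℝ) * x3 = ((b.p3 : ℝ) - b.n3) + b.q3 * E.e3

section

variable {b : Bx} {E : Pt} {x1 x2 x3 : ℝ}

def t0 (_b : Bx) : TM := tconst 1859775393 0 1
noncomputable def v0 (_x1 _x2 _x3 : ℝ) : ℝ := Real.sqrt ((3 : ℕ) : ℝ)
theorem en0 (_h : In b E x1 x2 x3) : Enc S E (t0 b) (v0 x1 x2 x3) := enc_sqrtn E (by decide) (by decide)

def t1 (b : Bx) : TM := tscale 1 2 (t0 b)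
noncomputable def v1 (x1 x2 x3 : ℝ) : ℝ := ((1 : ℕ) : ℝ) / ((2 : ℕ) : ℝ) * v0 x1 x2 x3
theorem en1 (h : In b E x1 x2 x3) : Enc S E (t1 b) (v1 x1 x2 x3) := enc_scale 1 (by norm_num) (en0 h)

def t2 (b : Bx) : TM := X1 b
noncomputable def v2 (x1 _x2 _x3 : ℝ) : ℝ := x1
theorem en2 (h : In b E x1 x2 x3) : Enc S E (t2 b) (v2 x1 x2 x3) := enc_X1 h.1

def t3 (b : Bx) : TM := X2 b
noncomputable def v3 (_x1 x2 _x3 : ℝ) : ℝ := x2
theorem en3 (h : In b E x1 x2 x3) : Enc S E (t3 b) (v3 x1 x2 x3) := enc_X2 h.2.1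

def t4 (b : Bx) : TM := X3 b
noncomputable def v4 (_x1 _x2 x3 : ℝ) : ℝ := x3
theorem en4 (h : In b E x1 x2 x3) : Enc S E (t4 b) (v4 x1 x2 x3) := enc_X3 h.2.2

def t5 (b : Bx) : TM := tsq S (t4 b)
noncomputable def v5 (x1 x2 x3 : ℝ) : ℝ := (v4 x1 x2 x3) ^ 2
theorem en5 (h : In b E x1 x2 x3) : Enc S E (t5 b) (v5 x1 x2 x3) := enc_sq hS (en4 h)

def t6 (_b : Bx) : TM := tconst (Nat.mul 1 S) 0 0
noncomputable def v6 (_x1 _x2 _x3 : ℝ) : ℝ := ((1 : ℕ) : ℝ)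
theorem en6 (_h : In b E x1 x2 x3) : Enc S E (t6 b) (v6 x1 x2 x3) := enc_nc E 1

def t7 (b : Bx) : TM := tsub (t6 b) (t5 b)
noncomputable def v7 (x1 x2 x3 : ℝ) : ℝ := v6 x1 x2 x3 - v5 x1 x2 x3
theorem en7 (h : In b E x1 x2 x3) : Enc S E (t7 b) (v7 x1 x2 x3) := enc_sub (en6 h) (en5 h)

def t8 (b : Bx) : TM := tsqrt S (t7 b)
noncomputable def v8 (x1 x2 x3 : ℝ) : ℝ := Real.sqrt (v7 x1 x2 x3)
theorem en8 (h : In b E x1 x2 x3) : Enc S E (t8 b) (v8 x1 x2 x3) := enc_sqrt hS (en7 h)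

def t9 (b : Bx) : TM := tmul S (t1 b) (t8 b)
noncomputable def v9 (x1 x2 x3 : ℝ) : ℝ := v1 x1 x2 x3 * v8 x1 x2 x3
theorem en9 (h : In b E x1 x2 x3) : Enc S E (t9 b) (v9 x1 x2 x3) := enc_mul hS (en1 h) (en8 h)

def t10 (b : Bx) : TM := tscale 1 2 (t4 b)
noncomputable def v10 (x1 x2 x3 : ℝ) : ℝ := ((1 : ℕ) : ℝ) / ((2 : ℕ) : ℝ) * v4 x1 x2 x3
theorem en10 (h : In b E x1 x2 x3) : Enc S E (t10 b) (v10 x1 x2 x3) := enc_scale 1 (by norm_num) (en4 h)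

def t11 (b : Bx) : TM := tsub (t9 b) (t10 b)
noncomputable def v11 (x1 x2 x3 : ℝ) : ℝ := v9 x1 x2 x3 - v10 x1 x2 x3
theorem en11 (h : In b E x1 x2 x3) : Enc S E (t11 b) (v11 x1 x2 x3) := enc_sub (en9 h) (en10 h)

def t12 (b : Bx) : TM := tadd (t9 b) (t10 b)
noncomputable def v12 (x1 x2 x3 : ℝ) : ℝ := v9 x1 x2 x3 + v10 x1 x2 x3
theorem en12 (h : In b E x1 x2 x3) : Enc S E (t12 b) (v12 x1 x2 x3) := enc_add (en9 h) (en10 h)

def t17 (b : Bx) : TM := tsq S (t2 b)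
noncomputable def v17 (x1 x2 x3 : ℝ) : ℝ := (v2 x1 x2 x3) ^ 2
theorem en17 (h : In b E x1 x2 x3) : Enc S E (t17 b) (v17 x1 x2 x3) := enc_sq hS (en2 h)

def t18 (b : Bx) : TM := tsub (t6 b) (t17 b)
noncomputable def v18 (x1 x2 x3 : ℝ) : ℝ := v6 x1 x2 x3 - v17 x1 x2 x3
theorem en18 (h : In b E x1 x2 x3) : Enc S E (t18 b) (v18 x1 x2 x3) := enc_sub (en6 h) (en17 h)

def t19 (b : Bx) : TM := tsqrt S (t18 b)
noncomputable def v19 (x1 x2 x3 : ℝ) : ℝ := Real.sqrt (v18 x1 x2 x3)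
theorem en19 (h : In b E x1 x2 x3) : Enc S E (t19 b) (v19 x1 x2 x3) := enc_sqrt hS (en18 h)

def t20 (b : Bx) : TM := tscale 17 50 (t2 b)
noncomputable def v20 (x1 x2 x3 : ℝ) : ℝ := ((17 : ℕ) : ℝ) / ((50 : ℕ) : ℝ) * v2 x1 x2 x3
theorem en20 (h : In b E x1 x2 x3) : Enc S E (t20 b) (v20 x1 x2 x3) := enc_scale 17 (by norm_num) (en2 h)

def t21 (b : Bx) : TM := tsq S (t20 b)
noncomputable def v21 (x1 x2 x3 : ℝ) : ℝ := (v20 x1 x2 x3) ^ 2
theorem en21 (h : In b E x1 x2 x3) : Enc S E (t21 b) (v21 x1 x2 x3) := enc_sq hS (en20 h)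

def t22 (b : Bx) : TM := tsub (t6 b) (t21 b)
noncomputable def v22 (x1 x2 x3 : ℝ) : ℝ := v6 x1 x2 x3 - v21 x1 x2 x3
theorem en22 (h : In b E x1 x2 x3) : Enc S E (t22 b) (v22 x1 x2 x3) := enc_sub (en6 h) (en21 h)

def t23 (b : Bx) : TM := tsqrt S (t22 b)
noncomputable def v23 (x1 x2 x3 : ℝ) : ℝ := Real.sqrt (v22 x1 x2 x3)
theorem en23 (h : In b E x1 x2 x3) : Enc S E (t23 b) (v23 x1 x2 x3) := enc_sqrt hS (en22 h)

def t24 (b : Bx) : TM := tadd (t3 b) (t12 b)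
noncomputable def v24 (x1 x2 x3 : ℝ) : ℝ := v3 x1 x2 x3 + v12 x1 x2 x3
theorem en24 (h : In b E x1 x2 x3) : Enc S E (t24 b) (v24 x1 x2 x3) := enc_add (en3 h) (en12 h)

def t25 (b : Bx) : TM := tadd (t3 b) (t11 b)
noncomputable def v25 (x1 x2 x3 : ℝ) : ℝ := v3 x1 x2 x3 + v11 x1 x2 x3
theorem en25 (h : In b E x1 x2 x3) : Enc S E (t25 b) (v25 x1 x2 x3) := enc_add (en3 h) (en11 h)

def t26 (b : Bx) : TM := tadd (t1 b) (t20 b)
noncomputable def v26 (x1 x2 x3 : ℝ) : ℝ := v1 x1 x2 x3 + v20 x1 x2 x3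
theorem en26 (h : In b E x1 x2 x3) : Enc S E (t26 b) (v26 x1 x2 x3) := enc_add (en1 h) (en20 h)

def t27 (b : Bx) : TM := tscale 33 50 (t2 b)
noncomputable def v27 (x1 x2 x3 : ℝ) : ℝ := ((33 : ℕ) : ℝ) / ((50 : ℕ) : ℝ) * v2 x1 x2 x3
theorem en27 (h : In b E x1 x2 x3) : Enc S E (t27 b) (v27 x1 x2 x3) := enc_scale 33 (by norm_num) (en2 h)

def t28 (b : Bx) : TM := tadd (t1 b) (t27 b)
noncomputable def v28 (x1 x2 x3 : ℝ) : ℝ := v1 x1 x2 x3 + v27 x1 x2 x3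
theorem en28 (h : In b E x1 x2 x3) : Enc S E (t28 b) (v28 x1 x2 x3) := enc_add (en1 h) (en27 h)

def t29 (b : Bx) : TM := tadd (t1 b) (t2 b)
noncomputable def v29 (x1 x2 x3 : ℝ) : ℝ := v1 x1 x2 x3 + v2 x1 x2 x3
theorem en29 (h : In b E x1 x2 x3) : Enc S E (t29 b) (v29 x1 x2 x3) := enc_add (en1 h) (en2 h)

def t30 (b : Bx) : TM := tsq S (t3 b)
noncomputable def v30 (x1 x2 x3 : ℝ) : ℝ := (v3 x1 x2 x3) ^ 2
theorem en30 (h : In b E x1 x2 x3) : Enc S E (t30 b) (v30 x1 x2 x3) := enc_sq hS (en3 h)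

def t31 (b : Bx) : TM := tsub (t6 b) (t30 b)
noncomputable def v31 (x1 x2 x3 : ℝ) : ℝ := v6 x1 x2 x3 - v30 x1 x2 x3
theorem en31 (h : In b E x1 x2 x3) : Enc S E (t31 b) (v31 x1 x2 x3) := enc_sub (en6 h) (en30 h)

def t32 (b : Bx) : TM := tsqrt S (t31 b)
noncomputable def v32 (x1 x2 x3 : ℝ) : ℝ := Real.sqrt (v31 x1 x2 x3)
theorem en32 (h : In b E x1 x2 x3) : Enc S E (t32 b) (v32 x1 x2 x3) := enc_sqrt hS (en31 h)

def t33 (b : Bx) : TM := tnat 8 (t32 b)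
noncomputable def v33 (x1 x2 x3 : ℝ) : ℝ := ((8 : ℕ) : ℝ) * v32 x1 x2 x3
theorem en33 (h : In b E x1 x2 x3) : Enc S E (t33 b) (v33 x1 x2 x3) := enc_nat 8 (en32 h)

def t34 (_b : Bx) : TM := tconst (Nat.mul 4 S) 0 0
noncomputable def v34 (_x1 _x2 _x3 : ℝ) : ℝ := ((4 : ℕ) : ℝ)
theorem en34 (_h : In b E x1 x2 x3) : Enc S E (t34 b) (v34 x1 x2 x3) := enc_nc E 4

def t35 (b : Bx) : TM := tsub (t33 b) (t34 b)
noncomputable def v35 (x1 x2 x3 : ℝ) : ℝ := v33 x1 x2 x3 - v34 x1 x2 x3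
theorem en35 (h : In b E x1 x2 x3) : Enc S E (t35 b) (v35 x1 x2 x3) := enc_sub (en33 h) (en34 h)

def t36 (b : Bx) : TM := tnat 4 (t19 b)
noncomputable def v36 (x1 x2 x3 : ℝ) : ℝ := ((4 : ℕ) : ℝ) * v19 x1 x2 x3
theorem en36 (h : In b E x1 x2 x3) : Enc S E (t36 b) (v36 x1 x2 x3) := enc_nat 4 (en19 h)

def t37 (b : Bx) : TM := tsub (t35 b) (t36 b)
noncomputable def v37 (x1 x2 x3 : ℝ) : ℝ := v35 x1 x2 x3 - v36 x1 x2 x3
theorem en37 (h : In b E x1 x2 x3) : Enc S E (t37 b) (v37 x1 x2 x3) := enc_sub (en35 h) (en36 h)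

def t38 (b : Bx) : TM := tsub (t25 b) (t26 b)
noncomputable def v38 (x1 x2 x3 : ℝ) : ℝ := v25 x1 x2 x3 - v26 x1 x2 x3
theorem en38 (h : In b E x1 x2 x3) : Enc S E (t38 b) (v38 x1 x2 x3) := enc_sub (en25 h) (en26 h)

def t39 (b : Bx) : TM := tsq S (t38 b)
noncomputable def v39 (x1 x2 x3 : ℝ) : ℝ := (v38 x1 x2 x3) ^ 2
theorem en39 (h : In b E x1 x2 x3) : Enc S E (t39 b) (v39 x1 x2 x3) := enc_sq hS (en38 h)

def t40 (b : Bx) : TM := tsub (t6 b) (t39 b)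
noncomputable def v40 (x1 x2 x3 : ℝ) : ℝ := v6 x1 x2 x3 - v39 x1 x2 x3
theorem en40 (h : In b E x1 x2 x3) : Enc S E (t40 b) (v40 x1 x2 x3) := enc_sub (en6 h) (en39 h)

def t41 (b : Bx) : TM := tsqrt S (t40 b)
noncomputable def v41 (x1 x2 x3 : ℝ) : ℝ := Real.sqrt (v40 x1 x2 x3)
theorem en41 (h : In b E x1 x2 x3) : Enc S E (t41 b) (v41 x1 x2 x3) := enc_sqrt hS (en40 h)

def t42 (b : Bx) : TM := tsub (t25 b) (t1 b)
noncomputable def v42 (x1 x2 x3 : ℝ) : ℝ := v25 x1 x2 x3 - v1 x1 x2 x3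
theorem en42 (h : In b E x1 x2 x3) : Enc S E (t42 b) (v42 x1 x2 x3) := enc_sub (en25 h) (en1 h)

def t43 (b : Bx) : TM := tsq S (t42 b)
noncomputable def v43 (x1 x2 x3 : ℝ) : ℝ := (v42 x1 x2 x3) ^ 2
theorem en43 (h : In b E x1 x2 x3) : Enc S E (t43 b) (v43 x1 x2 x3) := enc_sq hS (en42 h)

def t44 (b : Bx) : TM := tsub (t6 b) (t43 b)
noncomputable def v44 (x1 x2 x3 : ℝ) : ℝ := v6 x1 x2 x3 - v43 x1 x2 x3
theorem en44 (h : In b E x1 x2 x3) : Enc S E (t44 b) (v44 x1 x2 x3) := enc_sub (en6 h) (en43 h)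

def t45 (b : Bx) : TM := tsqrt S (t44 b)
noncomputable def v45 (x1 x2 x3 : ℝ) : ℝ := Real.sqrt (v44 x1 x2 x3)
theorem en45 (h : In b E x1 x2 x3) : Enc S E (t45 b) (v45 x1 x2 x3) := enc_sqrt hS (en44 h)

def t46 (b : Bx) : TM := tadd (t45 b) (t6 b)
noncomputable def v46 (x1 x2 x3 : ℝ) : ℝ := v45 x1 x2 x3 + v6 x1 x2 x3
theorem en46 (h : In b E x1 x2 x3) : Enc S E (t46 b) (v46 x1 x2 x3) := enc_add (en45 h) (en6 h)

def t47 (b : Bx) : TM := tsub (t46 b) (t23 b)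
noncomputable def v47 (x1 x2 x3 : ℝ) : ℝ := v46 x1 x2 x3 - v23 x1 x2 x3
theorem en47 (h : In b E x1 x2 x3) : Enc S E (t47 b) (v47 x1 x2 x3) := enc_sub (en46 h) (en23 h)

def t48 (b : Bx) : TM := tmin (t41 b) (t47 b)
noncomputable def v48 (x1 x2 x3 : ℝ) : ℝ := min (v41 x1 x2 x3) (v47 x1 x2 x3)
theorem en48 (h : In b E x1 x2 x3) : Enc S E (t48 b) (v48 x1 x2 x3) := enc_min hS (en41 h) (en47 h)

def t53 (b : Bx) : TM := tsub (t24 b) (t1 b)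
noncomputable def v53 (x1 x2 x3 : ℝ) : ℝ := v24 x1 x2 x3 - v1 x1 x2 x3
theorem en53 (h : In b E x1 x2 x3) : Enc S E (t53 b) (v53 x1 x2 x3) := enc_sub (en24 h) (en1 h)

def t54 (b : Bx) : TM := tsq S (t53 b)
noncomputable def v54 (x1 x2 x3 : ℝ) : ℝ := (v53 x1 x2 x3) ^ 2
theorem en54 (h : In b E x1 x2 x3) : Enc S E (t54 b) (v54 x1 x2 x3) := enc_sq hS (en53 h)

def t55 (b : Bx) : TM := tsub (t6 b) (t54 b)
noncomputable def v55 (x1 x2 x3 : ℝ) : ℝ := v6 x1 x2 x3 - v54 x1 x2 x3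
theorem en55 (h : In b E x1 x2 x3) : Enc S E (t55 b) (v55 x1 x2 x3) := enc_sub (en6 h) (en54 h)

def t56 (b : Bx) : TM := tsqrt S (t55 b)
noncomputable def v56 (x1 x2 x3 : ℝ) : ℝ := Real.sqrt (v55 x1 x2 x3)
theorem en56 (h : In b E x1 x2 x3) : Enc S E (t56 b) (v56 x1 x2 x3) := enc_sqrt hS (en55 h)

def t57 (b : Bx) : TM := tadd (t56 b) (t6 b)
noncomputable def v57 (x1 x2 x3 : ℝ) : ℝ := v56 x1 x2 x3 + v6 x1 x2 x3
theorem en57 (h : In b E x1 x2 x3) : Enc S E (t57 b) (v57 x1 x2 x3) := enc_add (en56 h) (en6 h)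

def t58 (b : Bx) : TM := tsub (t57 b) (t23 b)
noncomputable def v58 (x1 x2 x3 : ℝ) : ℝ := v57 x1 x2 x3 - v23 x1 x2 x3
theorem en58 (h : In b E x1 x2 x3) : Enc S E (t58 b) (v58 x1 x2 x3) := enc_sub (en57 h) (en23 h)

def t59 (b : Bx) : TM := tadd (t8 b) (t6 b)
noncomputable def v59 (x1 x2 x3 : ℝ) : ℝ := v8 x1 x2 x3 + v6 x1 x2 x3
theorem en59 (h : In b E x1 x2 x3) : Enc S E (t59 b) (v59 x1 x2 x3) := enc_add (en8 h) (en6 h)

def t60 (b : Bx) : TM := tsub (t59 b) (t58 b)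
noncomputable def v60 (x1 x2 x3 : ℝ) : ℝ := v59 x1 x2 x3 - v58 x1 x2 x3
theorem en60 (h : In b E x1 x2 x3) : Enc S E (t60 b) (v60 x1 x2 x3) := enc_sub (en59 h) (en58 h)

def t61 (b : Bx) : TM := tsub (t60 b) (t48 b)
noncomputable def v61 (x1 x2 x3 : ℝ) : ℝ := v60 x1 x2 x3 - v48 x1 x2 x3
theorem en61 (h : In b E x1 x2 x3) : Enc S E (t61 b) (v61 x1 x2 x3) := enc_sub (en60 h) (en48 h)

def t62 (b : Bx) : TM := tsub (t24 b) (t28 b)
noncomputable def v62 (x1 x2 x3 : ℝ) : ℝ := v24 x1 x2 x3 - v28 x1 x2 x3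
theorem en62 (h : In b E x1 x2 x3) : Enc S E (t62 b) (v62 x1 x2 x3) := enc_sub (en24 h) (en28 h)

def t63 (b : Bx) : TM := tsq S (t62 b)
noncomputable def v63 (x1 x2 x3 : ℝ) : ℝ := (v62 x1 x2 x3) ^ 2
theorem en63 (h : In b E x1 x2 x3) : Enc S E (t63 b) (v63 x1 x2 x3) := enc_sq hS (en62 h)

def t64 (b : Bx) : TM := tsub (t6 b) (t63 b)
noncomputable def v64 (x1 x2 x3 : ℝ) : ℝ := v6 x1 x2 x3 - v63 x1 x2 x3
theorem en64 (h : In b E x1 x2 x3) : Enc S E (t64 b) (v64 x1 x2 x3) := enc_sub (en6 h) (en63 h)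

def t65 (b : Bx) : TM := tsqrt S (t64 b)
noncomputable def v65 (x1 x2 x3 : ℝ) : ℝ := Real.sqrt (v64 x1 x2 x3)
theorem en65 (h : In b E x1 x2 x3) : Enc S E (t65 b) (v65 x1 x2 x3) := enc_sqrt hS (en64 h)

def t66 (b : Bx) : TM := tsub (t25 b) (t28 b)
noncomputable def v66 (x1 x2 x3 : ℝ) : ℝ := v25 x1 x2 x3 - v28 x1 x2 x3
theorem en66 (h : In b E x1 x2 x3) : Enc S E (t66 b) (v66 x1 x2 x3) := enc_sub (en25 h) (en28 h)

def t67 (b : Bx) : TM := tsq S (t66 b)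
noncomputable def v67 (x1 x2 x3 : ℝ) : ℝ := (v66 x1 x2 x3) ^ 2
theorem en67 (h : In b E x1 x2 x3) : Enc S E (t67 b) (v67 x1 x2 x3) := enc_sq hS (en66 h)

def t68 (b : Bx) : TM := tsub (t6 b) (t67 b)
noncomputable def v68 (x1 x2 x3 : ℝ) : ℝ := v6 x1 x2 x3 - v67 x1 x2 x3
theorem en68 (h : In b E x1 x2 x3) : Enc S E (t68 b) (v68 x1 x2 x3) := enc_sub (en6 h) (en67 h)

def t69 (b : Bx) : TM := tsqrt S (t68 b)
noncomputable def v69 (x1 x2 x3 : ℝ) : ℝ := Real.sqrt (v68 x1 x2 x3)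
theorem en69 (h : In b E x1 x2 x3) : Enc S E (t69 b) (v69 x1 x2 x3) := enc_sqrt hS (en68 h)

def t70 (b : Bx) : TM := tsub (t59 b) (t65 b)
noncomputable def v70 (x1 x2 x3 : ℝ) : ℝ := v59 x1 x2 x3 - v65 x1 x2 x3
theorem en70 (h : In b E x1 x2 x3) : Enc S E (t70 b) (v70 x1 x2 x3) := enc_sub (en59 h) (en65 h)

def t71 (b : Bx) : TM := tsub (t70 b) (t69 b)
noncomputable def v71 (x1 x2 x3 : ℝ) : ℝ := v70 x1 x2 x3 - v69 x1 x2 x3
theorem en71 (h : In b E x1 x2 x3) : Enc S E (t71 b) (v71 x1 x2 x3) := enc_sub (en70 h) (en69 h)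

def t72 (b : Bx) : TM := tsub (t59 b) (t56 b)
noncomputable def v72 (x1 x2 x3 : ℝ) : ℝ := v59 x1 x2 x3 - v56 x1 x2 x3
theorem en72 (h : In b E x1 x2 x3) : Enc S E (t72 b) (v72 x1 x2 x3) := enc_sub (en59 h) (en56 h)

def t73 (b : Bx) : TM := tsub (t72 b) (t45 b)
noncomputable def v73 (x1 x2 x3 : ℝ) : ℝ := v72 x1 x2 x3 - v45 x1 x2 x3
theorem en73 (h : In b E x1 x2 x3) : Enc S E (t73 b) (v73 x1 x2 x3) := enc_sub (en72 h) (en45 h)

def t75 (b : Bx) : TM := tadd (t61 b) (t71 b)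
noncomputable def v75 (x1 x2 x3 : ℝ) : ℝ := v61 x1 x2 x3 + v71 x1 x2 x3
theorem en75 (h : In b E x1 x2 x3) : Enc S E (t75 b) (v75 x1 x2 x3) := enc_add (en61 h) (en71 h)

def t76 (b : Bx) : TM := tscale 9 5 (t75 b)
noncomputable def v76 (x1 x2 x3 : ℝ) : ℝ := ((9 : ℕ) : ℝ) / ((5 : ℕ) : ℝ) * v75 x1 x2 x3
theorem en76 (h : In b E x1 x2 x3) : Enc S E (t76 b) (v76 x1 x2 x3) := enc_scale 9 (by norm_num) (en75 h)

def t77 (b : Bx) : TM := tadd (t37 b) (t76 b)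
noncomputable def v77 (x1 x2 x3 : ℝ) : ℝ := v37 x1 x2 x3 + v76 x1 x2 x3
theorem en77 (h : In b E x1 x2 x3) : Enc S E (t77 b) (v77 x1 x2 x3) := enc_add (en37 h) (en76 h)

def t78 (b : Bx) : TM := tscale 1 5 (t73 b)
noncomputable def v78 (x1 x2 x3 : ℝ) : ℝ := ((1 : ℕ) : ℝ) / ((5 : ℕ) : ℝ) * v73 x1 x2 x3
theorem en78 (h : In b E x1 x2 x3) : Enc S E (t78 b) (v78 x1 x2 x3) := enc_scale 1 (by norm_num) (en73 h)

def t79 (b : Bx) : TM := tadd (t77 b) (t78 b)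
noncomputable def v79 (x1 x2 x3 : ℝ) : ℝ := v77 x1 x2 x3 + v78 x1 x2 x3
theorem en79 (h : In b E x1 x2 x3) : Enc S E (t79 b) (v79 x1 x2 x3) := enc_add (en77 h) (en78 h)

def t80 (b : Bx) : TM := tsub (t28 b) (t25 b)
noncomputable def v80 (x1 x2 x3 : ℝ) : ℝ := v28 x1 x2 x3 - v25 x1 x2 x3
theorem en80 (h : In b E x1 x2 x3) : Enc S E (t80 b) (v80 x1 x2 x3) := enc_sub (en28 h) (en25 h)

def t81 (b : Bx) : TM := tsub (t25 b) (t29 b)
noncomputable def v81 (x1 x2 x3 : ℝ) : ℝ := v25 x1 x2 x3 - v29 x1 x2 x3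
theorem en81 (h : In b E x1 x2 x3) : Enc S E (t81 b) (v81 x1 x2 x3) := enc_sub (en25 h) (en29 h)

def t82 (b : Bx) : TM := tsub (t24 b) (t29 b)
noncomputable def v82 (x1 x2 x3 : ℝ) : ℝ := v24 x1 x2 x3 - v29 x1 x2 x3
theorem en82 (h : In b E x1 x2 x3) : Enc S E (t82 b) (v82 x1 x2 x3) := enc_sub (en24 h) (en29 h)

def t83 (b : Bx) : TM := tsub (t3 b) (t2 b)
noncomputable def v83 (x1 x2 x3 : ℝ) : ℝ := v3 x1 x2 x3 - v2 x1 x2 x3
theorem en83 (h : In b E x1 x2 x3) : Enc S E (t83 b) (v83 x1 x2 x3) := enc_sub (en3 h) (en2 h)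

def t84 (b : Bx) : TM := tnat 2 (t32 b)
noncomputable def v84 (x1 x2 x3 : ℝ) : ℝ := ((2 : ℕ) : ℝ) * v32 x1 x2 x3
theorem en84 (h : In b E x1 x2 x3) : Enc S E (t84 b) (v84 x1 x2 x3) := enc_nat 2 (en32 h)

def t85 (b : Bx) : TM := tsub (t84 b) (t6 b)
noncomputable def v85 (x1 x2 x3 : ℝ) : ℝ := v84 x1 x2 x3 - v6 x1 x2 x3
theorem en85 (h : In b E x1 x2 x3) : Enc S E (t85 b) (v85 x1 x2 x3) := enc_sub (en84 h) (en6 h)

def t86 (b : Bx) : TM := tsub (t85 b) (t19 b)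
noncomputable def v86 (x1 x2 x3 : ℝ) : ℝ := v85 x1 x2 x3 - v19 x1 x2 x3
theorem en86 (h : In b E x1 x2 x3) : Enc S E (t86 b) (v86 x1 x2 x3) := enc_sub (en85 h) (en19 h)

def t87 (_b : Bx) : TM := tconst (Nat.div (Nat.mul 57 S) 100) 0 1
noncomputable def v87 (_x1 _x2 _x3 : ℝ) : ℝ := ((57 : ℕ) : ℝ) / ((100 : ℕ) : ℝ)
theorem en87 (_h : In b E x1 x2 x3) : Enc S E (t87 b) (v87 x1 x2 x3) := enc_rat E 57 (by norm_num)

def t88 (b : Bx) : TM := tsub (t87 b) (t2 b)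
noncomputable def v88 (x1 x2 x3 : ℝ) : ℝ := v87 x1 x2 x3 - v2 x1 x2 x3
theorem en88 (h : In b E x1 x2 x3) : Enc S E (t88 b) (v88 x1 x2 x3) := enc_sub (en87 h) (en2 h)

def t89 (b : Bx) : TM := tscale 1 20 (t88 b)
noncomputable def v89 (x1 x2 x3 : ℝ) : ℝ := ((1 : ℕ) : ℝ) / ((20 : ℕ) : ℝ) * v88 x1 x2 x3
theorem en89 (h : In b E x1 x2 x3) : Enc S E (t89 b) (v89 x1 x2 x3) := enc_scale 1 (by norm_num) (en88 h)

def t90 (_b : Bx) : TM := tconst (Nat.div (Nat.mul 197 S) 10000) 0 1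
noncomputable def v90 (_x1 _x2 _x3 : ℝ) : ℝ := ((197 : ℕ) : ℝ) / ((10000 : ℕ) : ℝ)
theorem en90 (_h : In b E x1 x2 x3) : Enc S E (t90 b) (v90 x1 x2 x3) := enc_rat E 197 (by norm_num)

def t91 (b : Bx) : TM := tadd (t90 b) (t89 b)
noncomputable def v91 (x1 x2 x3 : ℝ) : ℝ := v90 x1 x2 x3 + v89 x1 x2 x3
theorem en91 (h : In b E x1 x2 x3) : Enc S E (t91 b) (v91 x1 x2 x3) := enc_add (en90 h) (en89 h)

def t92 (b : Bx) : TM := tadd (t79 b) (t91 b)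
noncomputable def v92 (x1 x2 x3 : ℝ) : ℝ := v79 x1 x2 x3 + v91 x1 x2 x3
theorem en92 (h : In b E x1 x2 x3) : Enc S E (t92 b) (v92 x1 x2 x3) := enc_add (en79 h) (en91 h)

def t93 (b : Bx) : TM := tsub (t4 b) (t3 b)
noncomputable def v93 (x1 x2 x3 : ℝ) : ℝ := v4 x1 x2 x3 - v3 x1 x2 x3
theorem en93 (h : In b E x1 x2 x3) : Enc S E (t93 b) (v93 x1 x2 x3) := enc_sub (en4 h) (en3 h)

def t94 (b : Bx) : TM := tsub (t79 b) (t91 b)
noncomputable def v94 (x1 x2 x3 : ℝ) : ℝ := v79 x1 x2 x3 - v91 x1 x2 x3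
theorem en94 (h : In b E x1 x2 x3) : Enc S E (t94 b) (v94 x1 x2 x3) := enc_sub (en79 h) (en91 h)

def t95 (b : Bx) : TM := tsub (t3 b) (t4 b)
noncomputable def v95 (x1 x2 x3 : ℝ) : ℝ := v3 x1 x2 x3 - v4 x1 x2 x3
theorem en95 (h : In b E x1 x2 x3) : Enc S E (t95 b) (v95 x1 x2 x3) := enc_sub (en3 h) (en4 h)

def t96 (_b : Bx) : TM := tconst (Nat.div (Nat.mul 3 S) 200) 0 1
noncomputable def v96 (_x1 _x2 _x3 : ℝ) : ℝ := ((3 : ℕ) : ℝ) / ((200 : ℕ) : ℝ)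
theorem en96 (_h : In b E x1 x2 x3) : Enc S E (t96 b) (v96 x1 x2 x3) := enc_rat E 3 (by norm_num)

def t97 (b : Bx) : TM := tsub (t93 b) (t96 b)
noncomputable def v97 (x1 x2 x3 : ℝ) : ℝ := v93 x1 x2 x3 - v96 x1 x2 x3
theorem en97 (h : In b E x1 x2 x3) : Enc S E (t97 b) (v97 x1 x2 x3) := enc_sub (en93 h) (en96 h)

end

def tstO (b : Bx) : Bool := or (pos (t92 b)) (or (pos (t80 b)) (or (pos (t81 b)) (or (pos (t82 b)) (or (pos (t83 b)) (pos (t86 b))))))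

def fO (b : Bx) : Nat := go (tstO b) 1 (t92 b) b

def QO (x1 x2 x3 : ℝ) : Prop := 0 < v92 x1 x2 x3 ∨ 0 < v80 x1 x2 x3 ∨ 0 < v81 x1 x2 x3 ∨ 0 < v82 x1 x2 x3 ∨ 0 < v83 x1 x2 x3 ∨ 0 < v86 x1 x2 x3

theorem f_soundO (b : Bx) (hb : fO b = 0) (x1 x2 x3 : ℝ) (hm : Mem S b x1 x2 x3) : QO x1 x2 x3 := by
  obtain ⟨E, h⟩ := pt_of_mem hm
  have h : In b E x1 x2 x3 := h
  have ht := go_sound hb
  unfold tstO at ht
  unfold QO
  rcases Bool.or_eq_true_iff.mp ht with ht | ht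
  · exact Or.inl (pos_sound hS (en92 h) ht)
  · refine Or.inr ?_
    rcases Bool.or_eq_true_iff.mp ht with ht | ht
    · exact Or.inl (pos_sound hS (en80 h) ht)
    · refine Or.inr ?_
      rcases Bool.or_eq_true_iff.mp ht with ht | ht
      · exact Or.inl (pos_sound hS (en81 h) ht)
      · refine Or.inr ?_
        rcases Bool.or_eq_true_iff.mp ht with ht | ht
        · exact Or.inl (pos_sound hS (en82 h) ht)
        · refine Or.inr ?_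
          rcases Bool.or_eq_true_iff.mp ht with ht | ht
          · exact Or.inl (pos_sound hS (en83 h) ht)
          · refine Or.inr ?_
            exact pos_sound hS (en86 h) ht

def tstW (b : Bx) : Bool := or (pos (t79 b)) (or (pos (t80 b)) (or (pos (t81 b)) (or (pos (t82 b)) (or (pos (t83 b)) (or (pos (t86 b)) (pos (t93 b)))))))

def fW (b : Bx) : Nat := go (tstW b) 1 (t79 b) b

def QW (x1 x2 x3 : ℝ) : Prop := 0 < v79 x1 x2 x3 ∨ 0 < v80 x1 x2 x3 ∨ 0 < v81 x1 x2 x3 ∨ 0 < v82 x1 x2 x3 ∨ 0 < v83 x1 x2 x3 ∨ 0 < v86 x1 x2 x3 ∨ 0 < v93 x1 x2 x3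

theorem f_soundW (b : Bx) (hb : fW b = 0) (x1 x2 x3 : ℝ) (hm : Mem S b x1 x2 x3) : QW x1 x2 x3 := by
  obtain ⟨E, h⟩ := pt_of_mem hm
  have h : In b E x1 x2 x3 := h
  have ht := go_sound hb
  unfold tstW at ht
  unfold QW
  rcases Bool.or_eq_true_iff.mp ht with ht | ht
  · exact Or.inl (pos_sound hS (en79 h) ht)
  · refine Or.inr ?_
    rcases Bool.or_eq_true_iff.mp ht with ht | ht
    · exact Or.inl (pos_sound hS (en80 h) ht)
    · refine Or.inr ?_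
      rcases Bool.or_eq_true_iff.mp ht with ht | ht
      · exact Or.inl (pos_sound hS (en81 h) ht)
      · refine Or.inr ?_
        rcases Bool.or_eq_true_iff.mp ht with ht | ht
        · exact Or.inl (pos_sound hS (en82 h) ht)
        · refine Or.inr ?_
          rcases Bool.or_eq_true_iff.mp ht with ht | ht
          · exact Or.inl (pos_sound hS (en83 h) ht)
          · refine Or.inr ?_
            rcases Bool.or_eq_true_iff.mp ht with ht | ht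
            · exact Or.inl (pos_sound hS (en86 h) ht)
            · refine Or.inr ?_
              exact pos_sound hS (en93 h) ht

def tstH (b : Bx) : Bool := or (pos (t79 b)) (or (pos (t80 b)) (or (pos (t81 b)) (or (pos (t82 b)) (pos (t83 b)))))

def fH (b : Bx) : Nat := go (tstH b) 1 (t79 b) b

def QH (x1 x2 x3 : ℝ) : Prop := 0 < v79 x1 x2 x3 ∨ 0 < v80 x1 x2 x3 ∨ 0 < v81 x1 x2 x3 ∨ 0 < v82 x1 x2 x3 ∨ 0 < v83 x1 x2 x3

theorem f_soundH (b : Bx) (hb : fH b = 0) (x1 x2 x3 : ℝ) (hm : Mem S b x1 x2 x3) : QH x1 x2 x3 := by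
  obtain ⟨E, h⟩ := pt_of_mem hm
  have h : In b E x1 x2 x3 := h
  have ht := go_sound hb
  unfold tstH at ht
  unfold QH
  rcases Bool.or_eq_true_iff.mp ht with ht | ht
  · exact Or.inl (pos_sound hS (en79 h) ht)
  · refine Or.inr ?_
    rcases Bool.or_eq_true_iff.mp ht with ht | ht
    · exact Or.inl (pos_sound hS (en80 h) ht)
    · refine Or.inr ?_
      rcases Bool.or_eq_true_iff.mp ht with ht | ht
      · exact Or.inl (pos_sound hS (en81 h) ht)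
      · refine Or.inr ?_
        rcases Bool.or_eq_true_iff.mp ht with ht | ht
        · exact Or.inl (pos_sound hS (en82 h) ht)
        · refine Or.inr ?_
          exact pos_sound hS (en83 h) ht

def tstR (b : Bx) : Bool := or (pos (t94 b)) (or (pos (t80 b)) (or (pos (t81 b)) (or (pos (t82 b)) (or (pos (t83 b)) (or (pos (t86 b)) (or (pos (t95 b)) (pos (t97 b))))))))

def fR (b : Bx) : Nat := go (tstR b) 1 (t94 b) b

def QR (x1 x2 x3 : ℝ) : Prop := 0 < v94 x1 x2 x3 ∨ 0 < v80 x1 x2 x3 ∨ 0 < v81 x1 x2 x3 ∨ 0 < v82 x1 x2 x3 ∨ 0 < v83 x1 x2 x3 ∨ 0 < v86 x1 x2 x3 ∨ 0 < v95 x1 x2 x3 ∨ 0 < v97 x1 x2 x3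

theorem f_soundR (b : Bx) (hb : fR b = 0) (x1 x2 x3 : ℝ) (hm : Mem S b x1 x2 x3) : QR x1 x2 x3 := by
  obtain ⟨E, h⟩ := pt_of_mem hm
  have h : In b E x1 x2 x3 := h
  have ht := go_sound hb
  unfold tstR at ht
  unfold QR
  rcases Bool.or_eq_true_iff.mp ht with ht | ht
  · exact Or.inl (pos_sound hS (en94 h) ht)
  · refine Or.inr ?_
    rcases Bool.or_eq_true_iff.mp ht with ht | ht
    · exact Or.inl (pos_sound hS (en80 h) ht)
    · refine Or.inr ?_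
      rcases Bool.or_eq_true_iff.mp ht with ht | ht
      · exact Or.inl (pos_sound hS (en81 h) ht)
      · refine Or.inr ?_
        rcases Bool.or_eq_true_iff.mp ht with ht | ht
        · exact Or.inl (pos_sound hS (en82 h) ht)
        · refine Or.inr ?_
          rcases Bool.or_eq_true_iff.mp ht with ht | ht
          · exact Or.inl (pos_sound hS (en83 h) ht)
          · refine Or.inr ?_
            rcases Bool.or_eq_true_iff.mp ht with ht | ht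
            · exact Or.inl (pos_sound hS (en86 h) ht)
            · refine Or.inr ?_
              rcases Bool.or_eq_true_iff.mp ht with ht | ht
              · exact Or.inl (pos_sound hS (en95 h) ht)
              · refine Or.inr ?_
                exact pos_sound hS (en97 h) ht

section

variable (s y b : ℝ)

theorem w0 : v0 s y b = (2 * h0) := by unfold v0 h0; push_cast; ring

theorem w1 : v1 s y b = h0 := by unfold v1; rw [w0]; unfold h0; push_cast; ring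

theorem w2 : v2 s y b = s := rfl

theorem w3 : v3 s y b = y := rfl

theorem w4 : v4 s y b = b := rfl

theorem w5 : v5 s y b = (b ^ 2) := by rw [v5, w4]

theorem w6 : v6 s y b = 1 := by unfold v6; norm_num

theorem w7 : v7 s y b = (1 - (b ^ 2)) := by rw [v7, w6, w5]

theorem w8 : v8 s y b = (g b) := by unfold v8; rw [w7]; rfl

theorem w9 : v9 s y b = (h0 * (g b)) := by rw [v9, w1, w8]

theorem w10 : v10 s y b = (1 / 2 * b) := by simp only [v10, w4, Nat.cast_ofNat, Nat.cast_one]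

theorem w11 : v11 s y b = ((h0 * (g b)) - (1 / 2 * b)) := by rw [v11, w9, w10]

theorem w12 : v12 s y b = ((h0 * (g b)) + (1 / 2 * b)) := by rw [v12, w9, w10]

theorem w17 : v17 s y b = (s ^ 2) := by rw [v17, w2]

theorem w18 : v18 s y b = (1 - (s ^ 2)) := by rw [v18, w6, w17]

theorem w19 : v19 s y b = (g s) := by unfold v19; rw [w18]; rfl

theorem w20 : v20 s y b = (17 / 50 * s) := by simp only [v20, w2, Nat.cast_ofNat, Nat.cast_one]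

theorem w21 : v21 s y b = ((17 / 50 * s) ^ 2) := by rw [v21, w20]

theorem w22 : v22 s y b = (1 - ((17 / 50 * s) ^ 2)) := by rw [v22, w6, w21]

theorem w23 : v23 s y b = (g (17 / 50 * s)) := by unfold v23; rw [w22]; rfl

theorem w24 : v24 s y b = (y + ((h0 * (g b)) + (1 / 2 * b))) := by rw [v24, w3, w12]

theorem w25 : v25 s y b = (y + ((h0 * (g b)) - (1 / 2 * b))) := by rw [v25, w3, w11]

theorem w26 : v26 s y b = (h0 + (17 / 50 * s)) := by rw [v26, w1, w20]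

theorem w27 : v27 s y b = (33 / 50 * s) := by simp only [v27, w2, Nat.cast_ofNat, Nat.cast_one]

theorem w28 : v28 s y b = (h0 + (33 / 50 * s)) := by rw [v28, w1, w27]

theorem w29 : v29 s y b = (h0 + s) := by rw [v29, w1, w2]

theorem w30 : v30 s y b = (y ^ 2) := by rw [v30, w3]

theorem w31 : v31 s y b = (1 - (y ^ 2)) := by rw [v31, w6, w30]

theorem w32 : v32 s y b = (g y) := by unfold v32; rw [w31]; rfl

theorem w33 : v33 s y b = (8 * (g y)) := by simp only [v33, w32, Nat.cast_ofNat, Nat.cast_one]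

theorem w34 : v34 s y b = 4 := by unfold v34; norm_num

theorem w35 : v35 s y b = ((8 * (g y)) - 4) := by rw [v35, w33, w34]

theorem w36 : v36 s y b = (4 * (g s)) := by simp only [v36, w19, Nat.cast_ofNat, Nat.cast_one]

theorem w37 : v37 s y b = (((8 * (g y)) - 4) - (4 * (g s))) := by rw [v37, w35, w36]

theorem w38 : v38 s y b = ((y + ((h0 * (g b)) - (1 / 2 * b))) - (h0 + (17 / 50 * s))) := by rw [v38, w25, w26]

theorem w39 : v39 s y b = (((y + ((h0 * (g b)) - (1 / 2 * b))) - (h0 + (17 / 50 * s))) ^ 2) := by rw [v39, w38]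

theorem w40 : v40 s y b = (1 - (((y + ((h0 * (g b)) - (1 / 2 * b))) - (h0 + (17 / 50 * s))) ^ 2)) := by rw [v40, w6, w39]

theorem w41 : v41 s y b = (g ((y + ((h0 * (g b)) - (1 / 2 * b))) - (h0 + (17 / 50 * s)))) := by unfold v41; rw [w40]; rfl

theorem w42 : v42 s y b = ((y + ((h0 * (g b)) - (1 / 2 * b))) - h0) := by rw [v42, w25, w1]

theorem w43 : v43 s y b = (((y + ((h0 * (g b)) - (1 / 2 * b))) - h0) ^ 2) := by rw [v43, w42]

theorem w44 : v44 s y b = (1 - (((y + ((h0 * (g b)) - (1 / 2 * b))) - h0) ^ 2)) := by rw [v44, w6, w43]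

theorem w45 : v45 s y b = (g ((y + ((h0 * (g b)) - (1 / 2 * b))) - h0)) := by unfold v45; rw [w44]; rfl

theorem w46 : v46 s y b = ((g ((y + ((h0 * (g b)) - (1 / 2 * b))) - h0)) + 1) := by rw [v46, w45, w6]

theorem w47 : v47 s y b = (((g ((y + ((h0 * (g b)) - (1 / 2 * b))) - h0)) + 1) - (g (17 / 50 * s))) := by rw [v47, w46, w23]

theorem w48 : v48 s y b = (min (g ((y + ((h0 * (g b)) - (1 / 2 * b))) - (h0 + (17 / 50 * s)))) (((g ((y + ((h0 * (g b)) - (1 / 2 * b))) - h0)) + 1) - (g (17 / 50 * s)))) := by rw [v48, w41, w47]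

theorem w53 : v53 s y b = ((y + ((h0 * (g b)) + (1 / 2 * b))) - h0) := by rw [v53, w24, w1]

theorem w54 : v54 s y b = (((y + ((h0 * (g b)) + (1 / 2 * b))) - h0) ^ 2) := by rw [v54, w53]

theorem w55 : v55 s y b = (1 - (((y + ((h0 * (g b)) + (1 / 2 * b))) - h0) ^ 2)) := by rw [v55, w6, w54]

theorem w56 : v56 s y b = (g ((y + ((h0 * (g b)) + (1 / 2 * b))) - h0)) := by unfold v56; rw [w55]; rfl

theorem w57 : v57 s y b = ((g ((y + ((h0 * (g b)) + (1 / 2 * b))) - h0)) + 1) := by rw [v57, w56, w6]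

theorem w58 : v58 s y b = (((g ((y + ((h0 * (g b)) + (1 / 2 * b))) - h0)) + 1) - (g (17 / 50 * s))) := by rw [v58, w57, w23]

theorem w59 : v59 s y b = ((g b) + 1) := by rw [v59, w8, w6]

theorem w60 : v60 s y b = (((g b) + 1) - (((g ((y + ((h0 * (g b)) + (1 / 2 * b))) - h0)) + 1) - (g (17 / 50 * s)))) := by rw [v60, w59, w58]

theorem w61 : v61 s y b = ((((g b) + 1) - (((g ((y + ((h0 * (g b)) + (1 / 2 * b))) - h0)) + 1) - (g (17 / 50 * s)))) - (min (g ((y + ((h0 * (g b)) - (1 / 2 * b))) - (h0 + (17 / 50 * s)))) (((g ((y + ((h0 * (g b)) - (1 / 2 * b))) - h0)) + 1) - (g (17 / 50 * s))))) := by rw [v61, w60, w48]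

theorem w62 : v62 s y b = ((y + ((h0 * (g b)) + (1 / 2 * b))) - (h0 + (33 / 50 * s))) := by rw [v62, w24, w28]

theorem w63 : v63 s y b = (((y + ((h0 * (g b)) + (1 / 2 * b))) - (h0 + (33 / 50 * s))) ^ 2) := by rw [v63, w62]

theorem w64 : v64 s y b = (1 - (((y + ((h0 * (g b)) + (1 / 2 * b))) - (h0 + (33 / 50 * s))) ^ 2)) := by rw [v64, w6, w63]

theorem w65 : v65 s y b = (g ((y + ((h0 * (g b)) + (1 / 2 * b))) - (h0 + (33 / 50 * s)))) := by unfold v65; rw [w64]; rfl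

theorem w66 : v66 s y b = ((y + ((h0 * (g b)) - (1 / 2 * b))) - (h0 + (33 / 50 * s))) := by rw [v66, w25, w28]

theorem w67 : v67 s y b = (((y + ((h0 * (g b)) - (1 / 2 * b))) - (h0 + (33 / 50 * s))) ^ 2) := by rw [v67, w66]

theorem w68 : v68 s y b = (1 - (((y + ((h0 * (g b)) - (1 / 2 * b))) - (h0 + (33 / 50 * s))) ^ 2)) := by rw [v68, w6, w67]

theorem w69 : v69 s y b = (g ((y + ((h0 * (g b)) - (1 / 2 * b))) - (h0 + (33 / 50 * s)))) := by unfold v69; rw [w68]; rfl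

theorem w70 : v70 s y b = (((g b) + 1) - (g ((y + ((h0 * (g b)) + (1 / 2 * b))) - (h0 + (33 / 50 * s))))) := by rw [v70, w59, w65]

theorem w71 : v71 s y b = ((((g b) + 1) - (g ((y + ((h0 * (g b)) + (1 / 2 * b))) - (h0 + (33 / 50 * s))))) - (g ((y + ((h0 * (g b)) - (1 / 2 * b))) - (h0 + (33 / 50 * s))))) := by rw [v71, w70, w69]

theorem w72 : v72 s y b = (((g b) + 1) - (g ((y + ((h0 * (g b)) + (1 / 2 * b))) - h0))) := by rw [v72, w59, w56]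

theorem w73 : v73 s y b = ((((g b) + 1) - (g ((y + ((h0 * (g b)) + (1 / 2 * b))) - h0))) - (g ((y + ((h0 * (g b)) - (1 / 2 * b))) - h0))) := by rw [v73, w72, w45]

theorem w75 : v75 s y b = (((((g b) + 1) - (((g ((y + ((h0 * (g b)) + (1 / 2 * b))) - h0)) + 1) - (g (17 / 50 * s)))) - (min (g ((y + ((h0 * (g b)) - (1 / 2 * b))) - (h0 + (17 / 50 * s)))) (((g ((y + ((h0 * (g b)) - (1 / 2 * b))) - h0)) + 1) - (g (17 / 50 * s))))) + ((((g b) + 1) - (g ((y + ((h0 * (g b)) + (1 / 2 * b))) - (h0 + (33 / 50 * s))))) - (g ((y + ((h0 * (g b)) - (1 / 2 * b))) - (h0 + (33 / 50 * s)))))) := by rw [v75, w61, w71]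

theorem w76 : v76 s y b = (9 / 5 * (((((g b) + 1) - (((g ((y + ((h0 * (g b)) + (1 / 2 * b))) - h0)) + 1) - (g (17 / 50 * s)))) - (min (g ((y + ((h0 * (g b)) - (1 / 2 * b))) - (h0 + (17 / 50 * s)))) (((g ((y + ((h0 * (g b)) - (1 / 2 * b))) - h0)) + 1) - (g (17 / 50 * s))))) + ((((g b) + 1) - (g ((y + ((h0 * (g b)) + (1 / 2 * b))) - (h0 + (33 / 50 * s))))) - (g ((y + ((h0 * (g b)) - (1 / 2 * b))) - (h0 + (33 / 50 * s))))))) := by simp only [v76, w75, Nat.cast_ofNat, Nat.cast_one]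

theorem w77 : v77 s y b = ((((8 * (g y)) - 4) - (4 * (g s))) + (9 / 5 * (((((g b) + 1) - (((g ((y + ((h0 * (g b)) + (1 / 2 * b))) - h0)) + 1) - (g (17 / 50 * s)))) - (min (g ((y + ((h0 * (g b)) - (1 / 2 * b))) - (h0 + (17 / 50 * s)))) (((g ((y + ((h0 * (g b)) - (1 / 2 * b))) - h0)) + 1) - (g (17 / 50 * s))))) + ((((g b) + 1) - (g ((y + ((h0 * (g b)) + (1 / 2 * b))) - (h0 + (33 / 50 * s))))) - (g ((y + ((h0 * (g b)) - (1 / 2 * b))) - (h0 + (33 / 50 * s)))))))) := by rw [v77, w37, w76]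

theorem w78 : v78 s y b = (1 / 5 * ((((g b) + 1) - (g ((y + ((h0 * (g b)) + (1 / 2 * b))) - h0))) - (g ((y + ((h0 * (g b)) - (1 / 2 * b))) - h0)))) := by simp only [v78, w73, Nat.cast_ofNat, Nat.cast_one]

theorem w79 : v79 s y b = (((((8 * (g y)) - 4) - (4 * (g s))) + (9 / 5 * (((((g b) + 1) - (((g ((y + ((h0 * (g b)) + (1 / 2 * b))) - h0)) + 1) - (g (17 / 50 * s)))) - (min (g ((y + ((h0 * (g b)) - (1 / 2 * b))) - (h0 + (17 / 50 * s)))) (((g ((y + ((h0 * (g b)) - (1 / 2 * b))) - h0)) + 1) - (g (17 / 50 * s))))) + ((((g b) + 1) - (g ((y + ((h0 * (g b)) + (1 / 2 * b))) - (h0 + (33 / 50 * s))))) - (g ((y + ((h0 * (g b)) - (1 / 2 * b))) - (h0 + (33 / 50 * s)))))))) + (1 / 5 * ((((g b) + 1) - (g ((y + ((h0 * (g b)) + (1 / 2 * b))) - h0))) - (g ((y + ((h0 * (g b)) - (1 / 2 * b))) - h0))))) := by rw [v79, w77, w78]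

theorem w80 : v80 s y b = ((h0 + (33 / 50 * s)) - (y + ((h0 * (g b)) - (1 / 2 * b)))) := by rw [v80, w28, w25]

theorem w81 : v81 s y b = ((y + ((h0 * (g b)) - (1 / 2 * b))) - (h0 + s)) := by rw [v81, w25, w29]

theorem w82 : v82 s y b = ((y + ((h0 * (g b)) + (1 / 2 * b))) - (h0 + s)) := by rw [v82, w24, w29]

theorem w83 : v83 s y b = (y - s) := by rw [v83, w3, w2]

theorem w84 : v84 s y b = (2 * (g y)) := by simp only [v84, w32, Nat.cast_ofNat, Nat.cast_one]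

theorem w85 : v85 s y b = ((2 * (g y)) - 1) := by rw [v85, w84, w6]

theorem w86 : v86 s y b = (((2 * (g y)) - 1) - (g s)) := by rw [v86, w85, w19]

theorem w87 : v87 s y b = (57 / 100) := by unfold v87; norm_num

theorem w88 : v88 s y b = ((57 / 100) - s) := by rw [v88, w87, w2]

theorem w89 : v89 s y b = (1 / 20 * ((57 / 100) - s)) := by simp only [v89, w88, Nat.cast_ofNat, Nat.cast_one]

theorem w90 : v90 s y b = (197 / 10000) := by unfold v90; norm_num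

theorem w91 : v91 s y b = ((197 / 10000) + (1 / 20 * ((57 / 100) - s))) := by rw [v91, w90, w89]

theorem w92 : v92 s y b = ((((((8 * (g y)) - 4) - (4 * (g s))) + (9 / 5 * (((((g b) + 1) - (((g ((y + ((h0 * (g b)) + (1 / 2 * b))) - h0)) + 1) - (g (17 / 50 * s)))) - (min (g ((y + ((h0 * (g b)) - (1 / 2 * b))) - (h0 + (17 / 50 * s)))) (((g ((y + ((h0 * (g b)) - (1 / 2 * b))) - h0)) + 1) - (g (17 / 50 * s))))) + ((((g b) + 1) - (g ((y + ((h0 * (g b)) + (1 / 2 * b))) - (h0 + (33 / 50 * s))))) - (g ((y + ((h0 * (g b)) - (1 / 2 * b))) - (h0 + (33 / 50 * s)))))))) + (1 / 5 * ((((g b) + 1) - (g ((y + ((h0 * (g b)) + (1 / 2 * b))) - h0))) - (g ((y + ((h0 * (g b)) - (1 / 2 * b))) - h0))))) + ((197 / 10000) + (1 / 20 * ((57 / 100) - s)))) := by rw [v92, w79, w91]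

theorem w93 : v93 s y b = (b - y) := by rw [v93, w4, w3]

theorem w94 : v94 s y b = ((((((8 * (g y)) - 4) - (4 * (g s))) + (9 / 5 * (((((g b) + 1) - (((g ((y + ((h0 * (g b)) + (1 / 2 * b))) - h0)) + 1) - (g (17 / 50 * s)))) - (min (g ((y + ((h0 * (g b)) - (1 / 2 * b))) - (h0 + (17 / 50 * s)))) (((g ((y + ((h0 * (g b)) - (1 / 2 * b))) - h0)) + 1) - (g (17 / 50 * s))))) + ((((g b) + 1) - (g ((y + ((h0 * (g b)) + (1 / 2 * b))) - (h0 + (33 / 50 * s))))) - (g ((y + ((h0 * (g b)) - (1 / 2 * b))) - (h0 + (33 / 50 * s)))))))) + (1 / 5 * ((((g b) + 1) - (g ((y + ((h0 * (g b)) + (1 / 2 * b))) - h0))) - (g ((y + ((h0 * (g b)) - (1 / 2 * b))) - h0))))) - ((197 / 10000) + (1 / 20 * ((57 / 100) - s)))) := by rw [v94, w79, w91]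

theorem w95 : v95 s y b = (y - b) := by rw [v95, w3, w4]

theorem w96 : v96 s y b = (3 / 200) := by unfold v96; norm_num

theorem w97 : v97 s y b = ((b - y) - (3 / 200)) := by rw [v97, w93, w96]

end

theorem cO_ok : chk fO 60 ⟨589484261, 0, 22548579, 445602856, 0, 37580965, 268435456, 0, 268435456⟩ = true := by decide +kernel

theorem mainO {s y b : ℝ} (hl1 : 66 / 125 ≤ s) (hu1 : s ≤ 57 / 100) (hl2 : 19 / 50 ≤ y) (hu2 : y ≤ 9 / 20) (hl3 : 0 ≤ b) (hu3 : b ≤ 1 / 2) :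
    (0 < ((((((8 * (g y)) - 4) - (4 * (g s))) + (9 / 5 * (((((g b) + 1) - (((g ((y + ((h0 * (g b)) + (1 / 2 * b))) - h0)) + 1) - (g (17 / 50 * s)))) - (min (g ((y + ((h0 * (g b)) - (1 / 2 * b))) - (h0 + (17 / 50 * s)))) (((g ((y + ((h0 * (g b)) - (1 / 2 * b))) - h0)) + 1) - (g (17 / 50 * s))))) + ((((g b) + 1) - (g ((y + ((h0 * (g b)) + (1 / 2 * b))) - (h0 + (33 / 50 * s))))) - (g ((y + ((h0 * (g b)) - (1 / 2 * b))) - (h0 + (33 / 50 * s)))))))) + (1 / 5 * ((((g b) + 1) - (g ((y + ((h0 * (g b)) + (1 / 2 * b))) - h0))) - (g ((y + ((h0 * (g b)) - (1 / 2 * b))) - h0))))) + ((197 / 10000) + (1 / 20 * ((57 / 100) - s))))) ∨ (0 < ((h0 + (33 / 50 * s)) - (y + ((h0 * (g b)) - (1 / 2 * b))))) ∨ (0 < ((y + ((h0 * (g b)) - (1 / 2 * b))) - (h0 + s))) ∨ (0 < ((y + ((h0 * (g b)) + (1 / 2 * b))) - (h0 + s))) ∨ (0 < (y - s)) ∨ (0 < (((2 * (g y)) - 1) - (g s))) := by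
  have hm : Mem S ⟨589484261, 0, 22548579, 445602856, 0, 37580965, 268435456, 0, 268435456⟩ s y b := by
    refine ⟨?_, ?_, ?_⟩ <;> norm_num only [S] <;> rw [abs_le] <;> constructor <;> linarith
  have h := chk_sound f_soundO 60 _ cO_ok s y b hm
  unfold QO at h
  rw [w92, w80, w81, w82, w83, w86] at h
  exact h

theorem cW_ok : chk fW 60 ⟨589484261, 0, 22548579, 445602856, 0, 37580965, 241591910, 0, 241591911⟩ = true := by decide +kernel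

theorem mainW {s y b : ℝ} (hl1 : 66 / 125 ≤ s) (hu1 : s ≤ 57 / 100) (hl2 : 19 / 50 ≤ y) (hu2 : y ≤ 9 / 20) (hl3 : 0 ≤ b) (hu3 : b ≤ 9 / 20) :
    (0 < (((((8 * (g y)) - 4) - (4 * (g s))) + (9 / 5 * (((((g b) + 1) - (((g ((y + ((h0 * (g b)) + (1 / 2 * b))) - h0)) + 1) - (g (17 / 50 * s)))) - (min (g ((y + ((h0 * (g b)) - (1 / 2 * b))) - (h0 + (17 / 50 * s)))) (((g ((y + ((h0 * (g b)) - (1 / 2 * b))) - h0)) + 1) - (g (17 / 50 * s))))) + ((((g b) + 1) - (g ((y + ((h0 * (g b)) + (1 / 2 * b))) - (h0 + (33 / 50 * s))))) - (g ((y + ((h0 * (g b)) - (1 / 2 * b))) - (h0 + (33 / 50 * s)))))))) + (1 / 5 * ((((g b) + 1) - (g ((y + ((h0 * (g b)) + (1 / 2 * b))) - h0))) - (g ((y + ((h0 * (g b)) - (1 / 2 * b))) - h0)))))) ∨ (0 < ((h0 + (33 / 50 * s)) - (y + ((h0 * (g b)) - (1 / 2 * b))))) ∨ (0 < ((y + ((h0 * (g b)) - (1 / 2 * b))) - (h0 + s))) ∨ (0 < ((y + ((h0 * (g b)) + (1 / 2 *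 b))) - (h0 + s))) ∨ (0 < (y - s)) ∨ (0 < (((2 * (g y)) - 1) - (g s))) ∨ (0 < (b - y)) := by
  have hm : Mem S ⟨589484261, 0, 22548579, 445602856, 0, 37580965, 241591910, 0, 241591911⟩ s y b := by
    refine ⟨?_, ?_, ?_⟩ <;> norm_num only [S] <;> rw [abs_le] <;> constructor <;> linarith
  have h := chk_sound f_soundW 60 _ cW_ok s y b hm
  unfold QW at h
  rw [w79, w80, w81, w82, w83, w86, w93] at h
  exact h

theorem cH_ok : chk fH 60 ⟨589484261, 0, 22548579, 510027366, 0, 26843546, 268435456, 0, 268435456⟩ = true := by decide +kernel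

theorem mainH {s y b : ℝ} (hl1 : 66 / 125 ≤ s) (hu1 : s ≤ 57 / 100) (hl2 : 9 / 20 ≤ y) (hu2 : y ≤ 1 / 2) (hl3 : 0 ≤ b) (hu3 : b ≤ 1 / 2) :
    (0 < (((((8 * (g y)) - 4) - (4 * (g s))) + (9 / 5 * (((((g b) + 1) - (((g ((y + ((h0 * (g b)) + (1 / 2 * b))) - h0)) + 1) - (g (17 / 50 * s)))) - (min (g ((y + ((h0 * (g b)) - (1 / 2 * b))) - (h0 + (17 / 50 * s)))) (((g ((y + ((h0 * (g b)) - (1 / 2 * b))) - h0)) + 1) - (g (17 / 50 * s))))) + ((((g b) + 1) - (g ((y + ((h0 * (g b)) + (1 / 2 * b))) - (h0 + (33 / 50 * s))))) - (g ((y + ((h0 * (g b)) - (1 / 2 * b))) - (h0 + (33 / 50 * s)))))))) + (1 / 5 * ((((g b) + 1) - (g ((y + ((h0 * (g b)) + (1 / 2 * b))) - h0))) - (g ((y + ((h0 * (g b)) - (1 / 2 * b))) - h0)))))) ∨ (0 < ((h0 + (33 / 50 * s)) - (y + ((h0 * (g b)) - (1 / 2 * b))))) ∨ (0 < ((y + ((h0 * (g b)) - (1 / 2 * b))) - (h0 + s))) ∨ (0 < ((y + ((h0 * (g b)) + (1 / 2 * b)))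 - (h0 + s))) ∨ (0 < (y - s)) := by
  have hm : Mem S ⟨589484261, 0, 22548579, 510027366, 0, 26843546, 268435456, 0, 268435456⟩ s y b := by
    refine ⟨?_, ?_, ?_⟩ <;> norm_num only [S] <;> rw [abs_le] <;> constructor <;> linarith
  have h := chk_sound f_soundH 60 _ cH_ok s y b hm
  unfold QH at h
  rw [w79, w80, w81, w82, w83] at h
  exact h

theorem cR_ok : chk fR 60 ⟨589484261, 0, 22548579, 445602856, 0, 37580965, 456340275, 0, 48318383⟩ = true := by decide +kernel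

theorem mainR {s y b : ℝ} (hl1 : 66 / 125 ≤ s) (hu1 : s ≤ 57 / 100) (hl2 : 19 / 50 ≤ y) (hu2 : y ≤ 9 / 20) (hl3 : 19 / 50 ≤ b) (hu3 : b ≤ 47 / 100) :
    (0 < ((((((8 * (g y)) - 4) - (4 * (g s))) + (9 / 5 * (((((g b) + 1) - (((g ((y + ((h0 * (g b)) + (1 / 2 * b))) - h0)) + 1) - (g (17 / 50 * s)))) - (min (g ((y + ((h0 * (g b)) - (1 / 2 * b))) - (h0 + (17 / 50 * s)))) (((g ((y + ((h0 * (g b)) - (1 / 2 * b))) - h0)) + 1) - (g (17 / 50 * s))))) + ((((g b) + 1) - (g ((y + ((h0 * (g b)) + (1 / 2 * b))) - (h0 + (33 / 50 * s))))) - (g ((y + ((h0 * (g b)) - (1 / 2 * b))) - (h0 + (33 / 50 * s)))))))) + (1 / 5 * ((((g b) + 1) - (g ((y + ((h0 * (g b)) + (1 / 2 * b))) - h0))) - (g ((y + ((h0 * (g b)) - (1 / 2 * b))) - h0))))) - ((197 / 10000) + (1 / 20 * ((57 / 100) - s))))) ∨ (0 < ((h0 + (33 / 50 * s)) - (y + ((h0 * (g b)) - (1 / 2 * b))))) ∨ (0 < ((y + ((h0 * (g b)) - (1 / 2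 * b))) - (h0 + s))) ∨ (0 < ((y + ((h0 * (g b)) + (1 / 2 * b))) - (h0 + s))) ∨ (0 < (y - s)) ∨ (0 < (((2 * (g y)) - 1) - (g s))) ∨ (0 < (y - b)) ∨ (0 < ((b - y) - (3 / 200))) := by
  have hm : Mem S ⟨589484261, 0, 22548579, 445602856, 0, 37580965, 456340275, 0, 48318383⟩ s y b := by
    refine ⟨?_, ?_, ?_⟩ <;> norm_num only [S] <;> rw [abs_le] <;> constructor <;> linarith
  have h := chk_sound f_soundR 60 _ cR_ok s y b hm
  unfold QR at h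
  rw [w94, w80, w81, w82, w83, w86, w95, w97] at h
  exact h


end Pool.Agent.Strip051.FourE.Lba
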