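import Pool.Agent.Strip051.FourE.Zone
import Pool.Agent.Strip051.FourE.High
import Pool.Agent.Strip051.FourE.Laa
import Pool.Agent.Strip051.FourE.Lab
import Pool.Agent.Strip051.FourE.LabR1
import Pool.Agent.Strip051.FourE.LabR2
import Pool.Agent.Strip051.FourE.Lba
import Pool.Agent.Strip051.FourE.Lbb

/-! # The row of a real side, the new point between `t` and `1 / 2` -/

namespace Pool.Agent.Strip051.FourE

open Pool.Agent.StripNear Pool.Agent.StripSquare Pool.Agent.Strip051

section

variable {p q r : ℝ} (hs : Side p q r)

include hs

theorem Side.sum2 : h0 * g (q - p) = (p + q) / 2 := by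
  have e1 : q = p / 2 + h0 * g p := hs.pq
  have e2 : p = q / 2 + h0 * g q := hs.qp
  rw [hs.sum, mul_add]
  linear_combination -e1 - e2

theorem Side.bq : h0 * g (q - p) + 1 / 2 * (q - p) = q := by
  rw [hs.sum2]
  ring

theorem Side.bp : h0 * g (q - p) - 1 / 2 * (q - p) = p := by
  rw [hs.sum2]
  ring

theorem Side.gp : 1 / 2 * g (q - p) + h0 * (q - p) = g p := by
  have e1 : q = p / 2 + h0 * g p := hs.pq
  have hh := h0_sq
  rw [hs.sum, hs.gq]
  have e2 : h0 * (q - p) = h0 ^ 2 * g p - h0 * p / 2 := by
    conv_lhs => rw [e1]
    ring
  rw [e2, hh]
  ring

end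

variable {s t r q p u y : ℝ} (P : Par s t) (hs : Side p q r)

include P hs

/-- The new point is between `9 / 20` and `1 / 2`. -/
theorem lowH (y0 : 9 / 20 ≤ y) (y1 : y ≤ 1 / 2) :
    0 ≤ 8 * g y - 4 - 4 * g s + mg s (gam r u) y := by
  have hh := h0_lt
  have hg := h0_gt
  have s0 := P.s0
  have s1 := P.s1
  have p0 := hs.p0
  have p1 := hs.p1
  have q0 := hs.q0
  have q1 := hs.q1
  have eq := hs.bq
  have ep := hs.bp
  have eg := hs.gp
  rcases le_total (y + p) (h0 + 33 / 50 * s) with hM | hM
  · rcases le_total (y + q) (h0 + s) with hE | hE
    · have z := zlaa P hs (u := u) (y := y) (by linear_combination y0) (by linear_combination y1 + hg)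
      have b := Laa.mainH (b := q - p) s0 s1 y0 y1 (by linear_combination p1 + q0) (by linear_combination p0 + q1)
      rw [eq, ep] at b
      rcases b with b | b | b | b <;> linarith
    · have z := zlab P hs (u := u) (y := y) (by linear_combination y0) (by linear_combination y1 + s0) hE
      have b := Lab.mainH (b := q - p) s0 s1 y0 y1 (by linear_combination p1 + q0) (by linear_combination p0 + q1)
      rw [eq, ep, eg] at b
      rcases b with b | b | b | b | b <;> linarith
  · rcases le_total (y + q) (h0 + s) with hE | hE
    · have z := zlba P hs (u := u) (y := y) (by linear_combination y0) (by linear_combination y1 + hg) hM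
      have b := Lba.mainH (b := q - p) s0 s1 y0 y1 (by linear_combination p1 + q0) (by linear_combination p0 + q1)
      rw [eq, ep] at b
      rcases b with b | b | b | b | b <;> linarith
    · have z := zlbb P hs (u := u) (y := y) (by linear_combination y0) (by linear_combination y1 + s0) hE
      have b := Lbb.mainH (b := q - p) s0 s1 y0 y1 (by linear_combination p1 + q0) (by linear_combination p0 + q1)
      rw [eq, ep, eg] at b
      rcases b with b | b | b | b | b | b <;> linarith

theorem tau_no (y0 : t ≤ y) : 2 * g y - 1 - g s ≤ 0 := by
  have h := P.gt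
  have := g_anti P.t0 y0
  linear_combination h + 2 * this

/-- The new point is between `t` and `9 / 20`, all virtual discs. -/
theorem lowO (y0 : t ≤ y) (y1 : y ≤ 9 / 20) :
    0 ≤ 8 * g y - 4 - 4 * g s + mg s (gam r u) y + (197 / 10000 + 1 / 20 * (57 / 100 - s)) := by
  have hh := h0_lt
  have hg := h0_gt
  have s0 := P.s0
  have s1 := P.s1
  have t0 := t_gt P
  have tn := tau_no P hs y0
  have p0 := hs.p0
  have p1 := hs.p1
  have q0 := hs.q0
  have q1 := hs.q1
  have eq := hs.bq
  have ep := hs.bp
  have eg := hs.gp
  rcases le_total (y + p) (h0 + 33 / 50 * s) with hM | hM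
  · rcases le_total (y + q) (h0 + s) with hE | hE
    · have z := zlaa P hs (u := u) (y := y) (by linear_combination y0 + t0) (by linear_combination y1 + hg)
      have b := Laa.mainO (b := q - p) (y := y) s0 s1 (by linear_combination y0 + t0) y1 (by linear_combination p1 + q0) (by linear_combination p0 + q1)
      rw [eq, ep] at b
      rcases b with b | b | b | b | b <;> linarith
    · have z := zlab P hs (u := u) (y := y) (by linear_combination y0 + t0) (by linear_combination y1 + s0) hE
      have b := Lab.mainO (b := q - p) (y := y) s0 s1 (by linear_combination y0 + t0) y1 (by linear_combination p1 + q0) (by linear_combination p0 + q1)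
      rw [eq, ep, eg] at b
      rcases b with b | b | b | b | b | b <;> linarith
  · rcases le_total (y + q) (h0 + s) with hE | hE
    · have z := zlba P hs (u := u) (y := y) (by linear_combination y0 + t0) (by linear_combination y1 + hg) hM
      have b := Lba.mainO (b := q - p) (y := y) s0 s1 (by linear_combination y0 + t0) y1 (by linear_combination p1 + q0) (by linear_combination p0 + q1)
      rw [eq, ep] at b
      rcases b with b | b | b | b | b | b <;> linarith
    · have z := zlbb P hs (u := u) (y := y) (by linear_combination y0 + t0) (by linear_combination y1 + s0) hE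
      have b := Lbb.mainO (b := q - p) (y := y) s0 s1 (by linear_combination y0 + t0) y1 (by linear_combination p1 + q0) (by linear_combination p0 + q1)
      rw [eq, ep, eg] at b
      rcases b with b | b | b | b | b | b | b <;> linarith

/-- The new point is between `t` and `9 / 20`, the window. -/
theorem lowW (y0 : t ≤ y) (y1 : y ≤ 9 / 20) (hw : q - p ≤ y) :
    0 ≤ 8 * g y - 4 - 4 * g s + mg s (gam r u) y := by
  have hh := h0_lt
  have hg := h0_gt
  have s0 := P.s0
  have s1 := P.s1
  have t0 := t_gt P
  have tn := tau_no P hs y0
  have p0 := hs.p0
  have p1 := hs.p1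
  have q0 := hs.q0
  have q1 := hs.q1
  have eq := hs.bq
  have ep := hs.bp
  have eg := hs.gp
  rcases le_total (y + p) (h0 + 33 / 50 * s) with hM | hM
  · rcases le_total (y + q) (h0 + s) with hE | hE
    · have z := zlaa P hs (u := u) (y := y) (by linear_combination y0 + t0) (by linear_combination y1 + hg)
      have b := Laa.mainW (b := q - p) (y := y) s0 s1 (by linear_combination y0 + t0) y1 (by linear_combination p1 + q0) (by linear_combination y1 + hw)
      rw [eq, ep] at b
      rcases b with b | b | b | b | b | b <;> linarith
    · have z := zlab P hs (u := u) (y := y) (by linear_combination y0 + t0) (by linear_combination y1 + s0) hE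
      have b := Lab.mainW (b := q - p) (y := y) s0 s1 (by linear_combination y0 + t0) y1 (by linear_combination p1 + q0) (by linear_combination y1 + hw)
      rw [eq, ep, eg] at b
      rcases b with b | b | b | b | b | b | b <;> linarith
  · rcases le_total (y + q) (h0 + s) with hE | hE
    · have z := zlba P hs (u := u) (y := y) (by linear_combination y0 + t0) (by linear_combination y1 + hg) hM
      have b := Lba.mainW (b := q - p) (y := y) s0 s1 (by linear_combination y0 + t0) y1 (by linear_combination p1 + q0) (by linear_combination y1 + hw)
      rw [eq, ep] at b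
      rcases b with b | b | b | b | b | b | b <;> linarith
    · have z := zlbb P hs (u := u) (y := y) (by linear_combination y0 + t0) (by linear_combination y1 + s0) hE
      have b := Lbb.mainW (b := q - p) (y := y) s0 s1 (by linear_combination y0 + t0) y1 (by linear_combination p1 + q0) (by linear_combination y1 + hw)
      rw [eq, ep, eg] at b
      rcases b with b | b | b | b | b | b | b | b <;> linarith

/-- The new point is between `t` and `9 / 20`, just outside of the window. -/
theorem lowR (y0 : t ≤ y) (y1 : y ≤ 9 / 20) (hw : y ≤ q - p) (hw2 : q - p ≤ y + 3 / 200) :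
    197 / 10000 + 1 / 20 * (57 / 100 - s) ≤ 8 * g y - 4 - 4 * g s + mg s (gam r u) y := by
  have hh := h0_lt
  have hg := h0_gt
  have s0 := P.s0
  have s1 := P.s1
  have t0 := t_gt P
  have tn := tau_no P hs y0
  have p0 := hs.p0
  have p1 := hs.p1
  have q0 := hs.q0
  have q1 := hs.q1
  have eq := hs.bq
  have ep := hs.bp
  have eg := hs.gp
  rcases le_total (y + p) (h0 + 33 / 50 * s) with hM | hM
  · rcases le_total (y + q) (h0 + s) with hE | hE
    · have z := zlaa P hs (u := u) (y := y) (by linear_combination y0 + t0) (by linear_combination y1 + hg)
      have b := Laa.mainR (b := q - p) (y := y) s0 s1 (by linear_combination y0 + t0) y1 (by linear_combination y0 + hw + t0) (by linear_combination y1 + hw2)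
      rw [eq, ep] at b
      rcases b with b | b | b | b | b | b | b <;> linarith
    · have z := zlab P hs (u := u) (y := y) (by linear_combination y0 + t0) (by linear_combination y1 + s0) hE
      rcases le_total s (14 / 25) with c1 | c1
      · have b := LabR1.mainR (b := q - p) (y := y) s0 c1 (by linear_combination y0 + t0) y1 (by linear_combination y0 + hw + t0)
          (by linear_combination y1 + hw2)
        rw [eq, ep, eg] at b
        rcases b with b | b | b | b | b | b | b | b <;> linarith
      · have b := LabR2.mainR (b := q - p) (y := y) c1 s1 (by linear_combination y0 + t0) y1 (by linear_combination y0 + hw + t0)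
          (by linear_combination y1 + hw2)
        rw [eq, ep, eg] at b
        rcases b with b | b | b | b | b | b | b | b <;> linarith
  · rcases le_total (y + q) (h0 + s) with hE | hE
    · have z := zlba P hs (u := u) (y := y) (by linear_combination y0 + t0) (by linear_combination y1 + hg) hM
      have b := Lba.mainR (b := q - p) (y := y) s0 s1 (by linear_combination y0 + t0) y1 (by linear_combination y0 + hw + t0) (by linear_combination y1 + hw2)
      rw [eq, ep] at b
      rcases b with b | b | b | b | b | b | b | b <;> exact absurd hM (not_le.mpr (by linear_combination hw + hg + (33 / 50) * s0 + q1))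
    · have z := zlbb P hs (u := u) (y := y) (by linear_combination y0 + t0) (by linear_combination y1 + s0) hE
      have b := Lbb.mainR (b := q - p) (y := y) s0 s1 (by linear_combination y0 + t0) y1 (by linear_combination y0 + hw + t0) (by linear_combination y1 + hw2)
      rw [eq, ep, eg] at b
      rcases b with b | b | b | b | b | b | b | b | b <;> exact absurd hM (not_le.mpr (by linear_combination hw + hg + (33 / 50) * s0 + q1))

end Pool.Agent.Strip051.FourE
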