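import Pool.Agent.Strip051.Box.B3
import Pool.Agent.Strip051.Four.Defs

/-! # Generated boxes: MUab  -/

set_option maxRecDepth 100000
set_option linter.unusedVariables false

namespace Pool.Agent.Strip051.FourE.MUab

open Pool.Agent.Strip051.Box Pool.Agent.Strip051.Box3
open Pool.Agent.StripNear (h0)
open Pool.Agent.StripSquare (g)
open Pool.Agent.Strip051 (ext)

abbrev S : Nat := 1073741824

theorem hS : 0 < S := by decide

def In (b : Bx) (E : Pt) (x1 x2 x3 : ℝ) : Prop :=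
  (S : ℝ) * x1 = ((b.p1 : ℝ) - b.n1) + b.q1 * E.e1 ∧ (S : ℝ) * x2 = ((b.p2 : ℝ) - b.n2) + b.q2 * E.e2 ∧ (S : ℝ) * x3 = ((b.p3 : ℝ) - b.n3) + b.q3 * E.e3

section

variable {b : Bx} {E : Pt} {x1 x2 x3 : ℝ}

def t0 (_b : Bx) : TM := tconst 1859775393 0 1
noncomputable def v0 (_x1 _x2 _x3 : ℝ) : ℝ := Real.sqrt ((3 : ℕ) : ℝ)
theorem en0 (_h : In b E x1 x2 x3) : Enc S E (t0 b) (v0 x1 x2 x3) := enc_sqrtn E (by decide) (by decide)

def t1 (b : Bx) : TM := tscale 1 2 (t0 b)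
noncomputable def v1 (x1 x2 x3 : ℝ) : ℝ := ((1 : ℕ) : ℝ) / ((2 : ℕ) : ℝ) * v0 x1 x2 x3
theorem en1 (h : In b E x1 x2 x3) : Enc S E (t1 b) (v1 x1 x2 x3) := enc_scale 1 (by norm_num) (en0 h)

def t2 (b : Bx) : TM := X1 b
noncomputable def v2 (x1 _x2 _x3 : ℝ) : ℝ := x1
theorem en2 (h : In b E x1 x2 x3) : Enc S E (t2 b) (v2 x1 x2 x3) := enc_X1 h.1

def t3 (b : Bx) : TM := X2 b
noncomputable def v3 (_x1 x2 _x3 : ℝ) : ℝ := x2
theorem en3 (h : In b E x1 x2 x3) : Enc S E (t3 b) (v3 x1 x2 x3) := enc_X2 h.2.1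

def t4 (b : Bx) : TM := X3 b
noncomputable def v4 (_x1 _x2 x3 : ℝ) : ℝ := x3
theorem en4 (h : In b E x1 x2 x3) : Enc S E (t4 b) (v4 x1 x2 x3) := enc_X3 h.2.2

def t5 (b : Bx) : TM := tsq S (t4 b)
noncomputable def v5 (x1 x2 x3 : ℝ) : ℝ := (v4 x1 x2 x3) ^ 2
theorem en5 (h : In b E x1 x2 x3) : Enc S E (t5 b) (v5 x1 x2 x3) := enc_sq hS (en4 h)

def t6 (_b : Bx) : TM := tconst (Nat.mul 1 S) 0 0
noncomputable def v6 (_x1 _x2 _x3 : ℝ) : ℝ := ((1 : ℕ) : ℝ)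
theorem en6 (_h : In b E x1 x2 x3) : Enc S E (t6 b) (v6 x1 x2 x3) := enc_nc E 1

def t7 (b : Bx) : TM := tsub (t6 b) (t5 b)
noncomputable def v7 (x1 x2 x3 : ℝ) : ℝ := v6 x1 x2 x3 - v5 x1 x2 x3
theorem en7 (h : In b E x1 x2 x3) : Enc S E (t7 b) (v7 x1 x2 x3) := enc_sub (en6 h) (en5 h)

def t8 (b : Bx) : TM := tsqrt S (t7 b)
noncomputable def v8 (x1 x2 x3 : ℝ) : ℝ := Real.sqrt (v7 x1 x2 x3)
theorem en8 (h : In b E x1 x2 x3) : Enc S E (t8 b) (v8 x1 x2 x3) := enc_sqrt hS (en7 h)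

def t9 (b : Bx) : TM := tmul S (t1 b) (t8 b)
noncomputable def v9 (x1 x2 x3 : ℝ) : ℝ := v1 x1 x2 x3 * v8 x1 x2 x3
theorem en9 (h : In b E x1 x2 x3) : Enc S E (t9 b) (v9 x1 x2 x3) := enc_mul hS (en1 h) (en8 h)

def t10 (b : Bx) : TM := tscale 1 2 (t4 b)
noncomputable def v10 (x1 x2 x3 : ℝ) : ℝ := ((1 : ℕ) : ℝ) / ((2 : ℕ) : ℝ) * v4 x1 x2 x3
theorem en10 (h : In b E x1 x2 x3) : Enc S E (t10 b) (v10 x1 x2 x3) := enc_scale 1 (by norm_num) (en4 h)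

def t12 (b : Bx) : TM := tadd (t10 b) (t9 b)
noncomputable def v12 (x1 x2 x3 : ℝ) : ℝ := v10 x1 x2 x3 + v9 x1 x2 x3
theorem en12 (h : In b E x1 x2 x3) : Enc S E (t12 b) (v12 x1 x2 x3) := enc_add (en10 h) (en9 h)

def t13 (b : Bx) : TM := tscale 1 2 (t8 b)
noncomputable def v13 (x1 x2 x3 : ℝ) : ℝ := ((1 : ℕ) : ℝ) / ((2 : ℕ) : ℝ) * v8 x1 x2 x3
theorem en13 (h : In b E x1 x2 x3) : Enc S E (t13 b) (v13 x1 x2 x3) := enc_scale 1 (by norm_num) (en8 h)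

def t14 (b : Bx) : TM := tmul S (t1 b) (t4 b)
noncomputable def v14 (x1 x2 x3 : ℝ) : ℝ := v1 x1 x2 x3 * v4 x1 x2 x3
theorem en14 (h : In b E x1 x2 x3) : Enc S E (t14 b) (v14 x1 x2 x3) := enc_mul hS (en1 h) (en4 h)

def t15 (b : Bx) : TM := tadd (t13 b) (t14 b)
noncomputable def v15 (x1 x2 x3 : ℝ) : ℝ := v13 x1 x2 x3 + v14 x1 x2 x3
theorem en15 (h : In b E x1 x2 x3) : Enc S E (t15 b) (v15 x1 x2 x3) := enc_add (en13 h) (en14 h)

def t17 (b : Bx) : TM := tsq S (t2 b)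
noncomputable def v17 (x1 x2 x3 : ℝ) : ℝ := (v2 x1 x2 x3) ^ 2
theorem en17 (h : In b E x1 x2 x3) : Enc S E (t17 b) (v17 x1 x2 x3) := enc_sq hS (en2 h)

def t18 (b : Bx) : TM := tsub (t6 b) (t17 b)
noncomputable def v18 (x1 x2 x3 : ℝ) : ℝ := v6 x1 x2 x3 - v17 x1 x2 x3
theorem en18 (h : In b E x1 x2 x3) : Enc S E (t18 b) (v18 x1 x2 x3) := enc_sub (en6 h) (en17 h)

def t19 (b : Bx) : TM := tsqrt S (t18 b)
noncomputable def v19 (x1 x2 x3 : ℝ) : ℝ := Real.sqrt (v18 x1 x2 x3)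
theorem en19 (h : In b E x1 x2 x3) : Enc S E (t19 b) (v19 x1 x2 x3) := enc_sqrt hS (en18 h)

def t20 (b : Bx) : TM := tscale 17 50 (t2 b)
noncomputable def v20 (x1 x2 x3 : ℝ) : ℝ := ((17 : ℕ) : ℝ) / ((50 : ℕ) : ℝ) * v2 x1 x2 x3
theorem en20 (h : In b E x1 x2 x3) : Enc S E (t20 b) (v20 x1 x2 x3) := enc_scale 17 (by norm_num) (en2 h)

def t21 (b : Bx) : TM := tsq S (t20 b)
noncomputable def v21 (x1 x2 x3 : ℝ) : ℝ := (v20 x1 x2 x3) ^ 2
theorem en21 (h : In b E x1 x2 x3) : Enc S E (t21 b) (v21 x1 x2 x3) := enc_sq hS (en20 h)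

def t22 (b : Bx) : TM := tsub (t6 b) (t21 b)
noncomputable def v22 (x1 x2 x3 : ℝ) : ℝ := v6 x1 x2 x3 - v21 x1 x2 x3
theorem en22 (h : In b E x1 x2 x3) : Enc S E (t22 b) (v22 x1 x2 x3) := enc_sub (en6 h) (en21 h)

def t23 (b : Bx) : TM := tsqrt S (t22 b)
noncomputable def v23 (x1 x2 x3 : ℝ) : ℝ := Real.sqrt (v22 x1 x2 x3)
theorem en23 (h : In b E x1 x2 x3) : Enc S E (t23 b) (v23 x1 x2 x3) := enc_sqrt hS (en22 h)

def t24 (b : Bx) : TM := tadd (t3 b) (t12 b)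
noncomputable def v24 (x1 x2 x3 : ℝ) : ℝ := v3 x1 x2 x3 + v12 x1 x2 x3
theorem en24 (h : In b E x1 x2 x3) : Enc S E (t24 b) (v24 x1 x2 x3) := enc_add (en3 h) (en12 h)

def t25 (b : Bx) : TM := tadd (t3 b) (t4 b)
noncomputable def v25 (x1 x2 x3 : ℝ) : ℝ := v3 x1 x2 x3 + v4 x1 x2 x3
theorem en25 (h : In b E x1 x2 x3) : Enc S E (t25 b) (v25 x1 x2 x3) := enc_add (en3 h) (en4 h)

def t26 (b : Bx) : TM := tadd (t1 b) (t20 b)
noncomputable def v26 (x1 x2 x3 : ℝ) : ℝ := v1 x1 x2 x3 + v20 x1 x2 x3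
theorem en26 (h : In b E x1 x2 x3) : Enc S E (t26 b) (v26 x1 x2 x3) := enc_add (en1 h) (en20 h)

def t27 (b : Bx) : TM := tscale 33 50 (t2 b)
noncomputable def v27 (x1 x2 x3 : ℝ) : ℝ := ((33 : ℕ) : ℝ) / ((50 : ℕ) : ℝ) * v2 x1 x2 x3
theorem en27 (h : In b E x1 x2 x3) : Enc S E (t27 b) (v27 x1 x2 x3) := enc_scale 33 (by norm_num) (en2 h)

def t28 (b : Bx) : TM := tadd (t1 b) (t27 b)
noncomputable def v28 (x1 x2 x3 : ℝ) : ℝ := v1 x1 x2 x3 + v27 x1 x2 x3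
theorem en28 (h : In b E x1 x2 x3) : Enc S E (t28 b) (v28 x1 x2 x3) := enc_add (en1 h) (en27 h)

def t29 (b : Bx) : TM := tadd (t1 b) (t2 b)
noncomputable def v29 (x1 x2 x3 : ℝ) : ℝ := v1 x1 x2 x3 + v2 x1 x2 x3
theorem en29 (h : In b E x1 x2 x3) : Enc S E (t29 b) (v29 x1 x2 x3) := enc_add (en1 h) (en2 h)

def t30 (b : Bx) : TM := tsq S (t3 b)
noncomputable def v30 (x1 x2 x3 : ℝ) : ℝ := (v3 x1 x2 x3) ^ 2
theorem en30 (h : In b E x1 x2 x3) : Enc S E (t30 b) (v30 x1 x2 x3) := enc_sq hS (en3 h)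

def t31 (b : Bx) : TM := tsub (t6 b) (t30 b)
noncomputable def v31 (x1 x2 x3 : ℝ) : ℝ := v6 x1 x2 x3 - v30 x1 x2 x3
theorem en31 (h : In b E x1 x2 x3) : Enc S E (t31 b) (v31 x1 x2 x3) := enc_sub (en6 h) (en30 h)

def t32 (b : Bx) : TM := tsqrt S (t31 b)
noncomputable def v32 (x1 x2 x3 : ℝ) : ℝ := Real.sqrt (v31 x1 x2 x3)
theorem en32 (h : In b E x1 x2 x3) : Enc S E (t32 b) (v32 x1 x2 x3) := enc_sqrt hS (en31 h)

def t33 (b : Bx) : TM := tnat 8 (t32 b)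
noncomputable def v33 (x1 x2 x3 : ℝ) : ℝ := ((8 : ℕ) : ℝ) * v32 x1 x2 x3
theorem en33 (h : In b E x1 x2 x3) : Enc S E (t33 b) (v33 x1 x2 x3) := enc_nat 8 (en32 h)

def t34 (_b : Bx) : TM := tconst (Nat.mul 4 S) 0 0
noncomputable def v34 (_x1 _x2 _x3 : ℝ) : ℝ := ((4 : ℕ) : ℝ)
theorem en34 (_h : In b E x1 x2 x3) : Enc S E (t34 b) (v34 x1 x2 x3) := enc_nc E 4

def t35 (b : Bx) : TM := tsub (t33 b) (t34 b)
noncomputable def v35 (x1 x2 x3 : ℝ) : ℝ := v33 x1 x2 x3 - v34 x1 x2 x3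
theorem en35 (h : In b E x1 x2 x3) : Enc S E (t35 b) (v35 x1 x2 x3) := enc_sub (en33 h) (en34 h)

def t36 (b : Bx) : TM := tnat 4 (t19 b)
noncomputable def v36 (x1 x2 x3 : ℝ) : ℝ := ((4 : ℕ) : ℝ) * v19 x1 x2 x3
theorem en36 (h : In b E x1 x2 x3) : Enc S E (t36 b) (v36 x1 x2 x3) := enc_nat 4 (en19 h)

def t37 (b : Bx) : TM := tsub (t35 b) (t36 b)
noncomputable def v37 (x1 x2 x3 : ℝ) : ℝ := v35 x1 x2 x3 - v36 x1 x2 x3
theorem en37 (h : In b E x1 x2 x3) : Enc S E (t37 b) (v37 x1 x2 x3) := enc_sub (en35 h) (en36 h)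

def t38 (b : Bx) : TM := tsub (t25 b) (t26 b)
noncomputable def v38 (x1 x2 x3 : ℝ) : ℝ := v25 x1 x2 x3 - v26 x1 x2 x3
theorem en38 (h : In b E x1 x2 x3) : Enc S E (t38 b) (v38 x1 x2 x3) := enc_sub (en25 h) (en26 h)

def t39 (b : Bx) : TM := tsq S (t38 b)
noncomputable def v39 (x1 x2 x3 : ℝ) : ℝ := (v38 x1 x2 x3) ^ 2
theorem en39 (h : In b E x1 x2 x3) : Enc S E (t39 b) (v39 x1 x2 x3) := enc_sq hS (en38 h)

def t40 (b : Bx) : TM := tsub (t6 b) (t39 b)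
noncomputable def v40 (x1 x2 x3 : ℝ) : ℝ := v6 x1 x2 x3 - v39 x1 x2 x3
theorem en40 (h : In b E x1 x2 x3) : Enc S E (t40 b) (v40 x1 x2 x3) := enc_sub (en6 h) (en39 h)

def t41 (b : Bx) : TM := tsqrt S (t40 b)
noncomputable def v41 (x1 x2 x3 : ℝ) : ℝ := Real.sqrt (v40 x1 x2 x3)
theorem en41 (h : In b E x1 x2 x3) : Enc S E (t41 b) (v41 x1 x2 x3) := enc_sqrt hS (en40 h)

def t42 (b : Bx) : TM := tsub (t25 b) (t1 b)
noncomputable def v42 (x1 x2 x3 : ℝ) : ℝ := v25 x1 x2 x3 - v1 x1 x2 x3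
theorem en42 (h : In b E x1 x2 x3) : Enc S E (t42 b) (v42 x1 x2 x3) := enc_sub (en25 h) (en1 h)

def t43 (b : Bx) : TM := tsq S (t42 b)
noncomputable def v43 (x1 x2 x3 : ℝ) : ℝ := (v42 x1 x2 x3) ^ 2
theorem en43 (h : In b E x1 x2 x3) : Enc S E (t43 b) (v43 x1 x2 x3) := enc_sq hS (en42 h)

def t44 (b : Bx) : TM := tsub (t6 b) (t43 b)
noncomputable def v44 (x1 x2 x3 : ℝ) : ℝ := v6 x1 x2 x3 - v43 x1 x2 x3
theorem en44 (h : In b E x1 x2 x3) : Enc S E (t44 b) (v44 x1 x2 x3) := enc_sub (en6 h) (en43 h)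

def t45 (b : Bx) : TM := tsqrt S (t44 b)
noncomputable def v45 (x1 x2 x3 : ℝ) : ℝ := Real.sqrt (v44 x1 x2 x3)
theorem en45 (h : In b E x1 x2 x3) : Enc S E (t45 b) (v45 x1 x2 x3) := enc_sqrt hS (en44 h)

def t46 (b : Bx) : TM := tadd (t45 b) (t6 b)
noncomputable def v46 (x1 x2 x3 : ℝ) : ℝ := v45 x1 x2 x3 + v6 x1 x2 x3
theorem en46 (h : In b E x1 x2 x3) : Enc S E (t46 b) (v46 x1 x2 x3) := enc_add (en45 h) (en6 h)

def t47 (b : Bx) : TM := tsub (t46 b) (t23 b)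
noncomputable def v47 (x1 x2 x3 : ℝ) : ℝ := v46 x1 x2 x3 - v23 x1 x2 x3
theorem en47 (h : In b E x1 x2 x3) : Enc S E (t47 b) (v47 x1 x2 x3) := enc_sub (en46 h) (en23 h)

def t48 (b : Bx) : TM := tmin (t41 b) (t47 b)
noncomputable def v48 (x1 x2 x3 : ℝ) : ℝ := min (v41 x1 x2 x3) (v47 x1 x2 x3)
theorem en48 (h : In b E x1 x2 x3) : Enc S E (t48 b) (v48 x1 x2 x3) := enc_min hS (en41 h) (en47 h)

def t49 (b : Bx) : TM := tsub (t29 b) (t3 b)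
noncomputable def v49 (x1 x2 x3 : ℝ) : ℝ := v29 x1 x2 x3 - v3 x1 x2 x3
theorem en49 (h : In b E x1 x2 x3) : Enc S E (t49 b) (v49 x1 x2 x3) := enc_sub (en29 h) (en3 h)

def t50 (b : Bx) : TM := tsq S (t49 b)
noncomputable def v50 (x1 x2 x3 : ℝ) : ℝ := (v49 x1 x2 x3) ^ 2
theorem en50 (h : In b E x1 x2 x3) : Enc S E (t50 b) (v50 x1 x2 x3) := enc_sq hS (en49 h)

def t51 (b : Bx) : TM := tsub (t6 b) (t50 b)
noncomputable def v51 (x1 x2 x3 : ℝ) : ℝ := v6 x1 x2 x3 - v50 x1 x2 x3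
theorem en51 (h : In b E x1 x2 x3) : Enc S E (t51 b) (v51 x1 x2 x3) := enc_sub (en6 h) (en50 h)

def t52 (b : Bx) : TM := tsqrt S (t51 b)
noncomputable def v52 (x1 x2 x3 : ℝ) : ℝ := Real.sqrt (v51 x1 x2 x3)
theorem en52 (h : In b E x1 x2 x3) : Enc S E (t52 b) (v52 x1 x2 x3) := enc_sqrt hS (en51 h)

def t53 (b : Bx) : TM := tsub (t24 b) (t1 b)
noncomputable def v53 (x1 x2 x3 : ℝ) : ℝ := v24 x1 x2 x3 - v1 x1 x2 x3
theorem en53 (h : In b E x1 x2 x3) : Enc S E (t53 b) (v53 x1 x2 x3) := enc_sub (en24 h) (en1 h)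

def t54 (b : Bx) : TM := tsq S (t53 b)
noncomputable def v54 (x1 x2 x3 : ℝ) : ℝ := (v53 x1 x2 x3) ^ 2
theorem en54 (h : In b E x1 x2 x3) : Enc S E (t54 b) (v54 x1 x2 x3) := enc_sq hS (en53 h)

def t55 (b : Bx) : TM := tsub (t6 b) (t54 b)
noncomputable def v55 (x1 x2 x3 : ℝ) : ℝ := v6 x1 x2 x3 - v54 x1 x2 x3
theorem en55 (h : In b E x1 x2 x3) : Enc S E (t55 b) (v55 x1 x2 x3) := enc_sub (en6 h) (en54 h)

def t56 (b : Bx) : TM := tsqrt S (t55 b)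
noncomputable def v56 (x1 x2 x3 : ℝ) : ℝ := Real.sqrt (v55 x1 x2 x3)
theorem en56 (h : In b E x1 x2 x3) : Enc S E (t56 b) (v56 x1 x2 x3) := enc_sqrt hS (en55 h)

def t57 (b : Bx) : TM := tsub (t52 b) (t19 b)
noncomputable def v57 (x1 x2 x3 : ℝ) : ℝ := v52 x1 x2 x3 - v19 x1 x2 x3
theorem en57 (h : In b E x1 x2 x3) : Enc S E (t57 b) (v57 x1 x2 x3) := enc_sub (en52 h) (en19 h)

def t58 (b : Bx) : TM := tsub (t57 b) (t6 b)
noncomputable def v58 (x1 x2 x3 : ℝ) : ℝ := v57 x1 x2 x3 - v6 x1 x2 x3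
theorem en58 (h : In b E x1 x2 x3) : Enc S E (t58 b) (v58 x1 x2 x3) := enc_sub (en57 h) (en6 h)

def t59 (b : Bx) : TM := tadd (t58 b) (t23 b)
noncomputable def v59 (x1 x2 x3 : ℝ) : ℝ := v58 x1 x2 x3 + v23 x1 x2 x3
theorem en59 (h : In b E x1 x2 x3) : Enc S E (t59 b) (v59 x1 x2 x3) := enc_add (en58 h) (en23 h)

def t60 (b : Bx) : TM := tadd (t59 b) (t8 b)
noncomputable def v60 (x1 x2 x3 : ℝ) : ℝ := v59 x1 x2 x3 + v8 x1 x2 x3
theorem en60 (h : In b E x1 x2 x3) : Enc S E (t60 b) (v60 x1 x2 x3) := enc_add (en59 h) (en8 h)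

def t61 (b : Bx) : TM := tadd (t60 b) (t6 b)
noncomputable def v61 (x1 x2 x3 : ℝ) : ℝ := v60 x1 x2 x3 + v6 x1 x2 x3
theorem en61 (h : In b E x1 x2 x3) : Enc S E (t61 b) (v61 x1 x2 x3) := enc_add (en60 h) (en6 h)

def t62 (b : Bx) : TM := tsub (t61 b) (t48 b)
noncomputable def v62 (x1 x2 x3 : ℝ) : ℝ := v61 x1 x2 x3 - v48 x1 x2 x3
theorem en62 (h : In b E x1 x2 x3) : Enc S E (t62 b) (v62 x1 x2 x3) := enc_sub (en61 h) (en48 h)

def t63 (b : Bx) : TM := tadd (t56 b) (t23 b)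
noncomputable def v63 (x1 x2 x3 : ℝ) : ℝ := v56 x1 x2 x3 + v23 x1 x2 x3
theorem en63 (h : In b E x1 x2 x3) : Enc S E (t63 b) (v63 x1 x2 x3) := enc_add (en56 h) (en23 h)

def t64 (b : Bx) : TM := tsub (t63 b) (t19 b)
noncomputable def v64 (x1 x2 x3 : ℝ) : ℝ := v63 x1 x2 x3 - v19 x1 x2 x3
theorem en64 (h : In b E x1 x2 x3) : Enc S E (t64 b) (v64 x1 x2 x3) := enc_sub (en63 h) (en19 h)

def t65 (b : Bx) : TM := tsub (t29 b) (t25 b)
noncomputable def v65 (x1 x2 x3 : ℝ) : ℝ := v29 x1 x2 x3 - v25 x1 x2 x3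
theorem en65 (h : In b E x1 x2 x3) : Enc S E (t65 b) (v65 x1 x2 x3) := enc_sub (en29 h) (en25 h)

def t66 (b : Bx) : TM := tsq S (t65 b)
noncomputable def v66 (x1 x2 x3 : ℝ) : ℝ := (v65 x1 x2 x3) ^ 2
theorem en66 (h : In b E x1 x2 x3) : Enc S E (t66 b) (v66 x1 x2 x3) := enc_sq hS (en65 h)

def t67 (b : Bx) : TM := tsub (t6 b) (t66 b)
noncomputable def v67 (x1 x2 x3 : ℝ) : ℝ := v6 x1 x2 x3 - v66 x1 x2 x3
theorem en67 (h : In b E x1 x2 x3) : Enc S E (t67 b) (v67 x1 x2 x3) := enc_sub (en6 h) (en66 h)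

def t68 (b : Bx) : TM := tsqrt S (t67 b)
noncomputable def v68 (x1 x2 x3 : ℝ) : ℝ := Real.sqrt (v67 x1 x2 x3)
theorem en68 (h : In b E x1 x2 x3) : Enc S E (t68 b) (v68 x1 x2 x3) := enc_sqrt hS (en67 h)

def t69 (b : Bx) : TM := tadd (t68 b) (t6 b)
noncomputable def v69 (x1 x2 x3 : ℝ) : ℝ := v68 x1 x2 x3 + v6 x1 x2 x3
theorem en69 (h : In b E x1 x2 x3) : Enc S E (t69 b) (v69 x1 x2 x3) := enc_add (en68 h) (en6 h)

def t70 (b : Bx) : TM := tsub (t69 b) (t23 b)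
noncomputable def v70 (x1 x2 x3 : ℝ) : ℝ := v69 x1 x2 x3 - v23 x1 x2 x3
theorem en70 (h : In b E x1 x2 x3) : Enc S E (t70 b) (v70 x1 x2 x3) := enc_sub (en69 h) (en23 h)

def t71 (b : Bx) : TM := tadd (t15 b) (t6 b)
noncomputable def v71 (x1 x2 x3 : ℝ) : ℝ := v15 x1 x2 x3 + v6 x1 x2 x3
theorem en71 (h : In b E x1 x2 x3) : Enc S E (t71 b) (v71 x1 x2 x3) := enc_add (en15 h) (en6 h)

def t72 (b : Bx) : TM := tsub (t71 b) (t64 b)
noncomputable def v72 (x1 x2 x3 : ℝ) : ℝ := v71 x1 x2 x3 - v64 x1 x2 x3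
theorem en72 (h : In b E x1 x2 x3) : Enc S E (t72 b) (v72 x1 x2 x3) := enc_sub (en71 h) (en64 h)

def t73 (b : Bx) : TM := tsub (t72 b) (t70 b)
noncomputable def v73 (x1 x2 x3 : ℝ) : ℝ := v72 x1 x2 x3 - v70 x1 x2 x3
theorem en73 (h : In b E x1 x2 x3) : Enc S E (t73 b) (v73 x1 x2 x3) := enc_sub (en72 h) (en70 h)

def t74 (b : Bx) : TM := tadd (t57 b) (t6 b)
noncomputable def v74 (x1 x2 x3 : ℝ) : ℝ := v57 x1 x2 x3 + v6 x1 x2 x3
theorem en74 (h : In b E x1 x2 x3) : Enc S E (t74 b) (v74 x1 x2 x3) := enc_add (en57 h) (en6 h)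

def t75 (b : Bx) : TM := tadd (t74 b) (t8 b)
noncomputable def v75 (x1 x2 x3 : ℝ) : ℝ := v74 x1 x2 x3 + v8 x1 x2 x3
theorem en75 (h : In b E x1 x2 x3) : Enc S E (t75 b) (v75 x1 x2 x3) := enc_add (en74 h) (en8 h)

def t76 (b : Bx) : TM := tsub (t75 b) (t45 b)
noncomputable def v76 (x1 x2 x3 : ℝ) : ℝ := v75 x1 x2 x3 - v45 x1 x2 x3
theorem en76 (h : In b E x1 x2 x3) : Enc S E (t76 b) (v76 x1 x2 x3) := enc_sub (en75 h) (en45 h)

def t77 (b : Bx) : TM := tadd (t15 b) (t19 b)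
noncomputable def v77 (x1 x2 x3 : ℝ) : ℝ := v15 x1 x2 x3 + v19 x1 x2 x3
theorem en77 (h : In b E x1 x2 x3) : Enc S E (t77 b) (v77 x1 x2 x3) := enc_add (en15 h) (en19 h)

def t78 (b : Bx) : TM := tsub (t77 b) (t56 b)
noncomputable def v78 (x1 x2 x3 : ℝ) : ℝ := v77 x1 x2 x3 - v56 x1 x2 x3
theorem en78 (h : In b E x1 x2 x3) : Enc S E (t78 b) (v78 x1 x2 x3) := enc_sub (en77 h) (en56 h)

def t79 (b : Bx) : TM := tsub (t78 b) (t68 b)
noncomputable def v79 (x1 x2 x3 : ℝ) : ℝ := v78 x1 x2 x3 - v68 x1 x2 x3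
theorem en79 (h : In b E x1 x2 x3) : Enc S E (t79 b) (v79 x1 x2 x3) := enc_sub (en78 h) (en68 h)

def t80 (b : Bx) : TM := tadd (t62 b) (t73 b)
noncomputable def v80 (x1 x2 x3 : ℝ) : ℝ := v62 x1 x2 x3 + v73 x1 x2 x3
theorem en80 (h : In b E x1 x2 x3) : Enc S E (t80 b) (v80 x1 x2 x3) := enc_add (en62 h) (en73 h)

def t81 (b : Bx) : TM := tscale 9 5 (t80 b)
noncomputable def v81 (x1 x2 x3 : ℝ) : ℝ := ((9 : ℕ) : ℝ) / ((5 : ℕ) : ℝ) * v80 x1 x2 x3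
theorem en81 (h : In b E x1 x2 x3) : Enc S E (t81 b) (v81 x1 x2 x3) := enc_scale 9 (by norm_num) (en80 h)

def t82 (b : Bx) : TM := tadd (t37 b) (t81 b)
noncomputable def v82 (x1 x2 x3 : ℝ) : ℝ := v37 x1 x2 x3 + v81 x1 x2 x3
theorem en82 (h : In b E x1 x2 x3) : Enc S E (t82 b) (v82 x1 x2 x3) := enc_add (en37 h) (en81 h)

def t83 (b : Bx) : TM := tadd (t76 b) (t79 b)
noncomputable def v83 (x1 x2 x3 : ℝ) : ℝ := v76 x1 x2 x3 + v79 x1 x2 x3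
theorem en83 (h : In b E x1 x2 x3) : Enc S E (t83 b) (v83 x1 x2 x3) := enc_add (en76 h) (en79 h)

def t84 (b : Bx) : TM := tscale 1 5 (t83 b)
noncomputable def v84 (x1 x2 x3 : ℝ) : ℝ := ((1 : ℕ) : ℝ) / ((5 : ℕ) : ℝ) * v83 x1 x2 x3
theorem en84 (h : In b E x1 x2 x3) : Enc S E (t84 b) (v84 x1 x2 x3) := enc_scale 1 (by norm_num) (en83 h)

def t85 (b : Bx) : TM := tadd (t82 b) (t84 b)
noncomputable def v85 (x1 x2 x3 : ℝ) : ℝ := v82 x1 x2 x3 + v84 x1 x2 x3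
theorem en85 (h : In b E x1 x2 x3) : Enc S E (t85 b) (v85 x1 x2 x3) := enc_add (en82 h) (en84 h)

def t86 (b : Bx) : TM := tsub (t25 b) (t28 b)
noncomputable def v86 (x1 x2 x3 : ℝ) : ℝ := v25 x1 x2 x3 - v28 x1 x2 x3
theorem en86 (h : In b E x1 x2 x3) : Enc S E (t86 b) (v86 x1 x2 x3) := enc_sub (en25 h) (en28 h)

def t87 (b : Bx) : TM := tsub (t29 b) (t24 b)
noncomputable def v87 (x1 x2 x3 : ℝ) : ℝ := v29 x1 x2 x3 - v24 x1 x2 x3
theorem en87 (h : In b E x1 x2 x3) : Enc S E (t87 b) (v87 x1 x2 x3) := enc_sub (en29 h) (en24 h)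

def t88 (b : Bx) : TM := tsub (t24 b) (t0 b)
noncomputable def v88 (x1 x2 x3 : ℝ) : ℝ := v24 x1 x2 x3 - v0 x1 x2 x3
theorem en88 (h : In b E x1 x2 x3) : Enc S E (t88 b) (v88 x1 x2 x3) := enc_sub (en24 h) (en0 h)

def t89 (b : Bx) : TM := tsub (t2 b) (t3 b)
noncomputable def v89 (x1 x2 x3 : ℝ) : ℝ := v2 x1 x2 x3 - v3 x1 x2 x3
theorem en89 (h : In b E x1 x2 x3) : Enc S E (t89 b) (v89 x1 x2 x3) := enc_sub (en2 h) (en3 h)

end

def tst (b : Bx) : Bool := or (pos (t85 b)) (or (pos (t86 b)) (or (pos (t87 b)) (or (pos (t88 b)) (pos (t89 b)))))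

def f (b : Bx) : Nat := go (tst b) 1 (t85 b) b

def Q (x1 x2 x3 : ℝ) : Prop := 0 < v85 x1 x2 x3 ∨ 0 < v86 x1 x2 x3 ∨ 0 < v87 x1 x2 x3 ∨ 0 < v88 x1 x2 x3 ∨ 0 < v89 x1 x2 x3

theorem f_sound (b : Bx) (hb : f b = 0) (x1 x2 x3 : ℝ) (hm : Mem S b x1 x2 x3) : Q x1 x2 x3 := by
  obtain ⟨E, h⟩ := pt_of_mem hm
  have h : In b E x1 x2 x3 := h
  have ht := go_sound hb
  unfold tst at ht
  unfold Q
  rcases Bool.or_eq_true_iff.mp ht with ht | ht
  · exact Or.inl (pos_sound hS (en85 h) ht)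
  · refine Or.inr ?_
    rcases Bool.or_eq_true_iff.mp ht with ht | ht
    · exact Or.inl (pos_sound hS (en86 h) ht)
    · refine Or.inr ?_
      rcases Bool.or_eq_true_iff.mp ht with ht | ht
      · exact Or.inl (pos_sound hS (en87 h) ht)
      · refine Or.inr ?_
        rcases Bool.or_eq_true_iff.mp ht with ht | ht
        · exact Or.inl (pos_sound hS (en88 h) ht)
        · refine Or.inr ?_
          exact pos_sound hS (en89 h) ht

section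

variable (s y p : ℝ)

theorem w0 : v0 s y p = (2 * h0) := by unfold v0 h0; push_cast; ring

theorem w1 : v1 s y p = h0 := by unfold v1; rw [w0]; unfold h0; push_cast; ring

theorem w2 : v2 s y p = s := rfl

theorem w3 : v3 s y p = y := rfl

theorem w4 : v4 s y p = p := rfl

theorem w5 : v5 s y p = (p ^ 2) := by rw [v5, w4]

theorem w6 : v6 s y p = 1 := by unfold v6; norm_num

theorem w7 : v7 s y p = (1 - (p ^ 2)) := by rw [v7, w6, w5]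

theorem w8 : v8 s y p = (g p) := by unfold v8; rw [w7]; rfl

theorem w9 : v9 s y p = (h0 * (g p)) := by rw [v9, w1, w8]

theorem w10 : v10 s y p = (1 / 2 * p) := by simp only [v10, w4, Nat.cast_ofNat, Nat.cast_one]

theorem w12 : v12 s y p = (ext p) := by rw [v12, w10, w9]; unfold ext; ring

theorem w13 : v13 s y p = (1 / 2 * (g p)) := by simp only [v13, w8, Nat.cast_ofNat, Nat.cast_one]

theorem w14 : v14 s y p = (h0 * p) := by rw [v14, w1, w4]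

theorem w15 : v15 s y p = ((1 / 2 * (g p)) + (h0 * p)) := by rw [v15, w13, w14]

theorem w17 : v17 s y p = (s ^ 2) := by rw [v17, w2]

theorem w18 : v18 s y p = (1 - (s ^ 2)) := by rw [v18, w6, w17]

theorem w19 : v19 s y p = (g s) := by unfold v19; rw [w18]; rfl

theorem w20 : v20 s y p = (17 / 50 * s) := by simp only [v20, w2, Nat.cast_ofNat, Nat.cast_one]

theorem w21 : v21 s y p = ((17 / 50 * s) ^ 2) := by rw [v21, w20]

theorem w22 : v22 s y p = (1 - ((17 / 50 * s) ^ 2)) := by rw [v22, w6, w21]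

theorem w23 : v23 s y p = (g (17 / 50 * s)) := by unfold v23; rw [w22]; rfl

theorem w24 : v24 s y p = (y + (ext p)) := by rw [v24, w3, w12]

theorem w25 : v25 s y p = (y + p) := by rw [v25, w3, w4]

theorem w26 : v26 s y p = (h0 + (17 / 50 * s)) := by rw [v26, w1, w20]

theorem w27 : v27 s y p = (33 / 50 * s) := by simp only [v27, w2, Nat.cast_ofNat, Nat.cast_one]

theorem w28 : v28 s y p = (h0 + (33 / 50 * s)) := by rw [v28, w1, w27]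

theorem w29 : v29 s y p = (h0 + s) := by rw [v29, w1, w2]

theorem w30 : v30 s y p = (y ^ 2) := by rw [v30, w3]

theorem w31 : v31 s y p = (1 - (y ^ 2)) := by rw [v31, w6, w30]

theorem w32 : v32 s y p = (g y) := by unfold v32; rw [w31]; rfl

theorem w33 : v33 s y p = (8 * (g y)) := by simp only [v33, w32, Nat.cast_ofNat, Nat.cast_one]

theorem w34 : v34 s y p = 4 := by unfold v34; norm_num

theorem w35 : v35 s y p = ((8 * (g y)) - 4) := by rw [v35, w33, w34]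

theorem w36 : v36 s y p = (4 * (g s)) := by simp only [v36, w19, Nat.cast_ofNat, Nat.cast_one]

theorem w37 : v37 s y p = (((8 * (g y)) - 4) - (4 * (g s))) := by rw [v37, w35, w36]

theorem w38 : v38 s y p = ((y + p) - (h0 + (17 / 50 * s))) := by rw [v38, w25, w26]

theorem w39 : v39 s y p = (((y + p) - (h0 + (17 / 50 * s))) ^ 2) := by rw [v39, w38]

theorem w40 : v40 s y p = (1 - (((y + p) - (h0 + (17 / 50 * s))) ^ 2)) := by rw [v40, w6, w39]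

theorem w41 : v41 s y p = (g ((y + p) - (h0 + (17 / 50 * s)))) := by unfold v41; rw [w40]; rfl

theorem w42 : v42 s y p = ((y + p) - h0) := by rw [v42, w25, w1]

theorem w43 : v43 s y p = (((y + p) - h0) ^ 2) := by rw [v43, w42]

theorem w44 : v44 s y p = (1 - (((y + p) - h0) ^ 2)) := by rw [v44, w6, w43]

theorem w45 : v45 s y p = (g ((y + p) - h0)) := by unfold v45; rw [w44]; rfl

theorem w46 : v46 s y p = ((g ((y + p) - h0)) + 1) := by rw [v46, w45, w6]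

theorem w47 : v47 s y p = (((g ((y + p) - h0)) + 1) - (g (17 / 50 * s))) := by rw [v47, w46, w23]

theorem w48 : v48 s y p = (min (g ((y + p) - (h0 + (17 / 50 * s)))) (((g ((y + p) - h0)) + 1) - (g (17 / 50 * s)))) := by rw [v48, w41, w47]

theorem w49 : v49 s y p = ((h0 + s) - y) := by rw [v49, w29, w3]

theorem w50 : v50 s y p = (((h0 + s) - y) ^ 2) := by rw [v50, w49]

theorem w51 : v51 s y p = (1 - (((h0 + s) - y) ^ 2)) := by rw [v51, w6, w50]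

theorem w52 : v52 s y p = (g ((h0 + s) - y)) := by unfold v52; rw [w51]; rfl

theorem w53 : v53 s y p = ((y + (ext p)) - h0) := by rw [v53, w24, w1]

theorem w54 : v54 s y p = (((y + (ext p)) - h0) ^ 2) := by rw [v54, w53]

theorem w55 : v55 s y p = (1 - (((y + (ext p)) - h0) ^ 2)) := by rw [v55, w6, w54]

theorem w56 : v56 s y p = (g ((y + (ext p)) - h0)) := by unfold v56; rw [w55]; rfl

theorem w57 : v57 s y p = ((g ((h0 + s) - y)) - (g s)) := by rw [v57, w52, w19]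

theorem w58 : v58 s y p = (((g ((h0 + s) - y)) - (g s)) - 1) := by rw [v58, w57, w6]

theorem w59 : v59 s y p = ((((g ((h0 + s) - y)) - (g s)) - 1) + (g (17 / 50 * s))) := by rw [v59, w58, w23]

theorem w60 : v60 s y p = (((((g ((h0 + s) - y)) - (g s)) - 1) + (g (17 / 50 * s))) + (g p)) := by rw [v60, w59, w8]

theorem w61 : v61 s y p = ((((((g ((h0 + s) - y)) - (g s)) - 1) + (g (17 / 50 * s))) + (g p)) + 1) := by rw [v61, w60, w6]

theorem w62 : v62 s y p = (((((((g ((h0 + s) - y)) - (g s)) - 1) + (g (17 / 50 * s))) + (g p)) + 1) - (min (g ((y + p) - (h0 + (17 / 50 * s)))) (((g ((y + p) - h0)) + 1) - (g (17 / 50 * s))))) := by rw [v62, w61, w48]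

theorem w63 : v63 s y p = ((g ((y + (ext p)) - h0)) + (g (17 / 50 * s))) := by rw [v63, w56, w23]

theorem w64 : v64 s y p = (((g ((y + (ext p)) - h0)) + (g (17 / 50 * s))) - (g s)) := by rw [v64, w63, w19]

theorem w65 : v65 s y p = ((h0 + s) - (y + p)) := by rw [v65, w29, w25]

theorem w66 : v66 s y p = (((h0 + s) - (y + p)) ^ 2) := by rw [v66, w65]

theorem w67 : v67 s y p = (1 - (((h0 + s) - (y + p)) ^ 2)) := by rw [v67, w6, w66]

theorem w68 : v68 s y p = (g ((h0 + s) - (y + p))) := by unfold v68; rw [w67]; rfl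

theorem w69 : v69 s y p = ((g ((h0 + s) - (y + p))) + 1) := by rw [v69, w68, w6]

theorem w70 : v70 s y p = (((g ((h0 + s) - (y + p))) + 1) - (g (17 / 50 * s))) := by rw [v70, w69, w23]

theorem w71 : v71 s y p = (((1 / 2 * (g p)) + (h0 * p)) + 1) := by rw [v71, w15, w6]

theorem w72 : v72 s y p = ((((1 / 2 * (g p)) + (h0 * p)) + 1) - (((g ((y + (ext p)) - h0)) + (g (17 / 50 * s))) - (g s))) := by rw [v72, w71, w64]

theorem w73 : v73 s y p = (((((1 / 2 * (g p)) + (h0 * p)) + 1) - (((g ((y + (ext p)) - h0)) + (g (17 / 50 * s))) - (g s))) - (((g ((h0 + s) - (y + p))) + 1) - (g (17 / 50 * s)))) := by rw [v73, w72, w70]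

theorem w74 : v74 s y p = (((g ((h0 + s) - y)) - (g s)) + 1) := by rw [v74, w57, w6]

theorem w75 : v75 s y p = ((((g ((h0 + s) - y)) - (g s)) + 1) + (g p)) := by rw [v75, w74, w8]

theorem w76 : v76 s y p = (((((g ((h0 + s) - y)) - (g s)) + 1) + (g p)) - (g ((y + p) - h0))) := by rw [v76, w75, w45]

theorem w77 : v77 s y p = (((1 / 2 * (g p)) + (h0 * p)) + (g s)) := by rw [v77, w15, w19]

theorem w78 : v78 s y p = ((((1 / 2 * (g p)) + (h0 * p)) + (g s)) - (g ((y + (ext p)) - h0))) := by rw [v78, w77, w56]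

theorem w79 : v79 s y p = (((((1 / 2 * (g p)) + (h0 * p)) + (g s)) - (g ((y + (ext p)) - h0))) - (g ((h0 + s) - (y + p)))) := by rw [v79, w78, w68]

theorem w80 : v80 s y p = ((((((((g ((h0 + s) - y)) - (g s)) - 1) + (g (17 / 50 * s))) + (g p)) + 1) - (min (g ((y + p) - (h0 + (17 / 50 * s)))) (((g ((y + p) - h0)) + 1) - (g (17 / 50 * s))))) + (((((1 / 2 * (g p)) + (h0 * p)) + 1) - (((g ((y + (ext p)) - h0)) + (g (17 / 50 * s))) - (g s))) - (((g ((h0 + s) - (y + p))) + 1) - (g (17 / 50 * s))))) := by rw [v80, w62, w73]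

theorem w81 : v81 s y p = (9 / 5 * ((((((((g ((h0 + s) - y)) - (g s)) - 1) + (g (17 / 50 * s))) + (g p)) + 1) - (min (g ((y + p) - (h0 + (17 / 50 * s)))) (((g ((y + p) - h0)) + 1) - (g (17 / 50 * s))))) + (((((1 / 2 * (g p)) + (h0 * p)) + 1) - (((g ((y + (ext p)) - h0)) + (g (17 / 50 * s))) - (g s))) - (((g ((h0 + s) - (y + p))) + 1) - (g (17 / 50 * s)))))) := by simp only [v81, w80, Nat.cast_ofNat, Nat.cast_one]

theorem w82 : v82 s y p = ((((8 * (g y)) - 4) - (4 * (g s))) + (9 / 5 * ((((((((g ((h0 + s) - y)) - (g s)) - 1) + (g (17 / 50 * s))) + (g p)) + 1) - (min (g ((y + p) - (h0 + (17 / 50 * s)))) (((g ((y + p) - h0)) + 1) - (g (17 / 50 * s))))) + (((((1 / 2 * (g p)) + (h0 * p)) + 1) - (((g ((y + (ext p)) - h0)) + (g (17 / 50 * s))) - (g s))) - (((g ((h0 + s) - (y + p))) + 1) - (g (17 / 50 * s))))))) := by rw [v82, w37, w81]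

theorem w83 : v83 s y p = ((((((g ((h0 + s) - y)) - (g s)) + 1) + (g p)) - (g ((y + p) - h0))) + (((((1 / 2 * (g p)) + (h0 * p)) + (g s)) - (g ((y + (ext p)) - h0))) - (g ((h0 + s) - (y + p))))) := by rw [v83, w76, w79]

theorem w84 : v84 s y p = (1 / 5 * ((((((g ((h0 + s) - y)) - (g s)) + 1) + (g p)) - (g ((y + p) - h0))) + (((((1 / 2 * (g p)) + (h0 * p)) + (g s)) - (g ((y + (ext p)) - h0))) - (g ((h0 + s) - (y + p)))))) := by simp only [v84, w83, Nat.cast_ofNat, Nat.cast_one]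

theorem w85 : v85 s y p = (((((8 * (g y)) - 4) - (4 * (g s))) + (9 / 5 * ((((((((g ((h0 + s) - y)) - (g s)) - 1) + (g (17 / 50 * s))) + (g p)) + 1) - (min (g ((y + p) - (h0 + (17 / 50 * s)))) (((g ((y + p) - h0)) + 1) - (g (17 / 50 * s))))) + (((((1 / 2 * (g p)) + (h0 * p)) + 1) - (((g ((y + (ext p)) - h0)) + (g (17 / 50 * s))) - (g s))) - (((g ((h0 + s) - (y + p))) + 1) - (g (17 / 50 * s))))))) + (1 / 5 * ((((((g ((h0 + s) - y)) - (g s)) + 1) + (g p)) - (g ((y + p) - h0))) + (((((1 / 2 * (g p)) + (h0 * p)) + (g s)) - (g ((y + (ext p)) - h0))) - (g ((h0 + s) - (y + p))))))) := by rw [v85, w82, w84]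

theorem w86 : v86 s y p = ((y + p) - (h0 + (33 / 50 * s))) := by rw [v86, w25, w28]

theorem w87 : v87 s y p = ((h0 + s) - (y + (ext p))) := by rw [v87, w29, w24]

theorem w88 : v88 s y p = ((y + (ext p)) - (2 * h0)) := by rw [v88, w24, w0]

theorem w89 : v89 s y p = (s - y) := by rw [v89, w2, w3]

end

theorem c_ok : chk f 60 ⟨589484261, 0, 22548579, 743029342, 0, 176093660, 724775731, 0, 187904820⟩ = true := by decide +kernel

theorem main {s y p : ℝ} (hl1 : 66 / 125 ≤ s) (hu1 : s ≤ 57 / 100) (hl2 : 66 / 125 ≤ y) (hu2 : y ≤ 107 / 125) (hl3 : 1 / 2 ≤ p) (hu3 : p ≤ 17 / 20) :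
    (0 < (((((8 * (g y)) - 4) - (4 * (g s))) + (9 / 5 * ((((((((g ((h0 + s) - y)) - (g s)) - 1) + (g (17 / 50 * s))) + (g p)) + 1) - (min (g ((y + p) - (h0 + (17 / 50 * s)))) (((g ((y + p) - h0)) + 1) - (g (17 / 50 * s))))) + (((((1 / 2 * (g p)) + (h0 * p)) + 1) - (((g ((y + (ext p)) - h0)) + (g (17 / 50 * s))) - (g s))) - (((g ((h0 + s) - (y + p))) + 1) - (g (17 / 50 * s))))))) + (1 / 5 * ((((((g ((h0 + s) - y)) - (g s)) + 1) + (g p)) - (g ((y + p) - h0))) + (((((1 / 2 * (g p)) + (h0 * p)) + (g s)) - (g ((y + (ext p)) - h0))) - (g ((h0 + s) - (y + p)))))))) ∨ (0 < ((y + p) - (h0 + (33 / 50 * s)))) ∨ (0 < ((h0 + s) - (y + (ext p)))) ∨ (0 < ((y + (ext p)) - (2 * h0))) ∨ (0 < (s - y)) := by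
  have hm : Mem S ⟨589484261, 0, 22548579, 743029342, 0, 176093660, 724775731, 0, 187904820⟩ s y p := by
    refine ⟨?_, ?_, ?_⟩ <;> norm_num only [S] <;> rw [abs_le] <;> constructor <;> linarith
  have h := chk_sound f_sound 60 _ c_ok s y p hm
  unfold Q at h
  rw [w85, w86, w87, w88, w89] at h
  exact h


end Pool.Agent.Strip051.FourE.MUab
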