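import Pool.Agent.Strip051.Box.B3
import Pool.Agent.Strip051.FourE.Slope

/-! # Generated boxes: NUbc  -/

set_option maxRecDepth 100000
set_option linter.unusedVariables false

namespace Pool.Agent.Strip051.FourE.NUbc

open Pool.Agent.Strip051.Box Pool.Agent.Strip051.Box3
open Pool.Agent.StripNear (h0)
open Pool.Agent.StripSquare (g g_zero)
open Pool.Agent.Strip051 (ext)

abbrev S : Nat := 1073741824

theorem hS : 0 < S := by decide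

def In (b : Bx) (E : Pt) (x1 x2 x3 : ℝ) : Prop :=
  (S : ℝ) * x1 = ((b.p1 : ℝ) - b.n1) + b.q1 * E.e1 ∧ (S : ℝ) * x2 = ((b.p2 : ℝ) - b.n2) + b.q2 * E.e2 ∧ (S : ℝ) * x3 = ((b.p3 : ℝ) - b.n3) + b.q3 * E.e3

section

variable {b : Bx} {E : Pt} {x1 x2 x3 : ℝ}

def t0 (_b : Bx) : TM := tconst 1859775393 0 1
noncomputable def v0 (_x1 _x2 _x3 : ℝ) : ℝ := Real.sqrt ((3 : ℕ) : ℝ)
theorem en0 (_h : In b E x1 x2 x3) : Enc S E (t0 b) (v0 x1 x2 x3) := enc_sqrtn E (by decide) (by decide)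

def t1 (b : Bx) : TM := tscale 1 2 (t0 b)
noncomputable def v1 (x1 x2 x3 : ℝ) : ℝ := ((1 : ℕ) : ℝ) / ((2 : ℕ) : ℝ) * v0 x1 x2 x3
theorem en1 (h : In b E x1 x2 x3) : Enc S E (t1 b) (v1 x1 x2 x3) := enc_scale 1 (by norm_num) (en0 h)

def t2 (b : Bx) : TM := X1 b
noncomputable def v2 (x1 _x2 _x3 : ℝ) : ℝ := x1
theorem en2 (h : In b E x1 x2 x3) : Enc S E (t2 b) (v2 x1 x2 x3) := enc_X1 h.1

def t3 (b : Bx) : TM := X2 b
noncomputable def v3 (_x1 x2 _x3 : ℝ) : ℝ := x2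
theorem en3 (h : In b E x1 x2 x3) : Enc S E (t3 b) (v3 x1 x2 x3) := enc_X2 h.2.1

def t4 (b : Bx) : TM := X3 b
noncomputable def v4 (_x1 _x2 x3 : ℝ) : ℝ := x3
theorem en4 (h : In b E x1 x2 x3) : Enc S E (t4 b) (v4 x1 x2 x3) := enc_X3 h.2.2

def t5 (b : Bx) : TM := tadd (t2 b) (t3 b)
noncomputable def v5 (x1 x2 x3 : ℝ) : ℝ := v2 x1 x2 x3 + v3 x1 x2 x3
theorem en5 (h : In b E x1 x2 x3) : Enc S E (t5 b) (v5 x1 x2 x3) := enc_add (en2 h) (en3 h)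

def t6 (b : Bx) : TM := tsub (t5 b) (t4 b)
noncomputable def v6 (x1 x2 x3 : ℝ) : ℝ := v5 x1 x2 x3 - v4 x1 x2 x3
theorem en6 (h : In b E x1 x2 x3) : Enc S E (t6 b) (v6 x1 x2 x3) := enc_sub (en5 h) (en4 h)

def t7 (b : Bx) : TM := tsq S (t6 b)
noncomputable def v7 (x1 x2 x3 : ℝ) : ℝ := (v6 x1 x2 x3) ^ 2
theorem en7 (h : In b E x1 x2 x3) : Enc S E (t7 b) (v7 x1 x2 x3) := enc_sq hS (en6 h)

def t8 (_b : Bx) : TM := tconst (Nat.mul 1 S) 0 0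
noncomputable def v8 (_x1 _x2 _x3 : ℝ) : ℝ := ((1 : ℕ) : ℝ)
theorem en8 (_h : In b E x1 x2 x3) : Enc S E (t8 b) (v8 x1 x2 x3) := enc_nc E 1

def t9 (b : Bx) : TM := tsub (t8 b) (t7 b)
noncomputable def v9 (x1 x2 x3 : ℝ) : ℝ := v8 x1 x2 x3 - v7 x1 x2 x3
theorem en9 (h : In b E x1 x2 x3) : Enc S E (t9 b) (v9 x1 x2 x3) := enc_sub (en8 h) (en7 h)

def t10 (b : Bx) : TM := tsqrt S (t9 b)
noncomputable def v10 (x1 x2 x3 : ℝ) : ℝ := Real.sqrt (v9 x1 x2 x3)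
theorem en10 (h : In b E x1 x2 x3) : Enc S E (t10 b) (v10 x1 x2 x3) := enc_sqrt hS (en9 h)

def t11 (b : Bx) : TM := tmul S (t1 b) (t10 b)
noncomputable def v11 (x1 x2 x3 : ℝ) : ℝ := v1 x1 x2 x3 * v10 x1 x2 x3
theorem en11 (h : In b E x1 x2 x3) : Enc S E (t11 b) (v11 x1 x2 x3) := enc_mul hS (en1 h) (en10 h)

def t12 (b : Bx) : TM := tscale 1 2 (t6 b)
noncomputable def v12 (x1 x2 x3 : ℝ) : ℝ := ((1 : ℕ) : ℝ) / ((2 : ℕ) : ℝ) * v6 x1 x2 x3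
theorem en12 (h : In b E x1 x2 x3) : Enc S E (t12 b) (v12 x1 x2 x3) := enc_scale 1 (by norm_num) (en6 h)

def t14 (b : Bx) : TM := tadd (t12 b) (t11 b)
noncomputable def v14 (x1 x2 x3 : ℝ) : ℝ := v12 x1 x2 x3 + v11 x1 x2 x3
theorem en14 (h : In b E x1 x2 x3) : Enc S E (t14 b) (v14 x1 x2 x3) := enc_add (en12 h) (en11 h)

def t15 (b : Bx) : TM := tscale 1 2 (t10 b)
noncomputable def v15 (x1 x2 x3 : ℝ) : ℝ := ((1 : ℕ) : ℝ) / ((2 : ℕ) : ℝ) * v10 x1 x2 x3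
theorem en15 (h : In b E x1 x2 x3) : Enc S E (t15 b) (v15 x1 x2 x3) := enc_scale 1 (by norm_num) (en10 h)

def t16 (b : Bx) : TM := tmul S (t1 b) (t6 b)
noncomputable def v16 (x1 x2 x3 : ℝ) : ℝ := v1 x1 x2 x3 * v6 x1 x2 x3
theorem en16 (h : In b E x1 x2 x3) : Enc S E (t16 b) (v16 x1 x2 x3) := enc_mul hS (en1 h) (en6 h)

def t17 (b : Bx) : TM := tadd (t15 b) (t16 b)
noncomputable def v17 (x1 x2 x3 : ℝ) : ℝ := v15 x1 x2 x3 + v16 x1 x2 x3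
theorem en17 (h : In b E x1 x2 x3) : Enc S E (t17 b) (v17 x1 x2 x3) := enc_add (en15 h) (en16 h)

def t19 (b : Bx) : TM := tsub (t1 b) (t3 b)
noncomputable def v19 (x1 x2 x3 : ℝ) : ℝ := v1 x1 x2 x3 - v3 x1 x2 x3
theorem en19 (h : In b E x1 x2 x3) : Enc S E (t19 b) (v19 x1 x2 x3) := enc_sub (en1 h) (en3 h)

def t20 (b : Bx) : TM := tsq S (t2 b)
noncomputable def v20 (x1 x2 x3 : ℝ) : ℝ := (v2 x1 x2 x3) ^ 2
theorem en20 (h : In b E x1 x2 x3) : Enc S E (t20 b) (v20 x1 x2 x3) := enc_sq hS (en2 h)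

def t21 (b : Bx) : TM := tsub (t8 b) (t20 b)
noncomputable def v21 (x1 x2 x3 : ℝ) : ℝ := v8 x1 x2 x3 - v20 x1 x2 x3
theorem en21 (h : In b E x1 x2 x3) : Enc S E (t21 b) (v21 x1 x2 x3) := enc_sub (en8 h) (en20 h)

def t22 (b : Bx) : TM := tsqrt S (t21 b)
noncomputable def v22 (x1 x2 x3 : ℝ) : ℝ := Real.sqrt (v21 x1 x2 x3)
theorem en22 (h : In b E x1 x2 x3) : Enc S E (t22 b) (v22 x1 x2 x3) := enc_sqrt hS (en21 h)

def t23 (b : Bx) : TM := tscale 17 50 (t2 b)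
noncomputable def v23 (x1 x2 x3 : ℝ) : ℝ := ((17 : ℕ) : ℝ) / ((50 : ℕ) : ℝ) * v2 x1 x2 x3
theorem en23 (h : In b E x1 x2 x3) : Enc S E (t23 b) (v23 x1 x2 x3) := enc_scale 17 (by norm_num) (en2 h)

def t24 (b : Bx) : TM := tsq S (t23 b)
noncomputable def v24 (x1 x2 x3 : ℝ) : ℝ := (v23 x1 x2 x3) ^ 2
theorem en24 (h : In b E x1 x2 x3) : Enc S E (t24 b) (v24 x1 x2 x3) := enc_sq hS (en23 h)

def t25 (b : Bx) : TM := tsub (t8 b) (t24 b)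
noncomputable def v25 (x1 x2 x3 : ℝ) : ℝ := v8 x1 x2 x3 - v24 x1 x2 x3
theorem en25 (h : In b E x1 x2 x3) : Enc S E (t25 b) (v25 x1 x2 x3) := enc_sub (en8 h) (en24 h)

def t26 (b : Bx) : TM := tsqrt S (t25 b)
noncomputable def v26 (x1 x2 x3 : ℝ) : ℝ := Real.sqrt (v25 x1 x2 x3)
theorem en26 (h : In b E x1 x2 x3) : Enc S E (t26 b) (v26 x1 x2 x3) := enc_sqrt hS (en25 h)

def t27 (b : Bx) : TM := tadd (t19 b) (t14 b)
noncomputable def v27 (x1 x2 x3 : ℝ) : ℝ := v19 x1 x2 x3 + v14 x1 x2 x3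
theorem en27 (h : In b E x1 x2 x3) : Enc S E (t27 b) (v27 x1 x2 x3) := enc_add (en19 h) (en14 h)

def t28 (b : Bx) : TM := tadd (t19 b) (t6 b)
noncomputable def v28 (x1 x2 x3 : ℝ) : ℝ := v19 x1 x2 x3 + v6 x1 x2 x3
theorem en28 (h : In b E x1 x2 x3) : Enc S E (t28 b) (v28 x1 x2 x3) := enc_add (en19 h) (en6 h)

def t30 (b : Bx) : TM := tscale 33 50 (t2 b)
noncomputable def v30 (x1 x2 x3 : ℝ) : ℝ := ((33 : ℕ) : ℝ) / ((50 : ℕ) : ℝ) * v2 x1 x2 x3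
theorem en30 (h : In b E x1 x2 x3) : Enc S E (t30 b) (v30 x1 x2 x3) := enc_scale 33 (by norm_num) (en2 h)

def t31 (b : Bx) : TM := tadd (t1 b) (t30 b)
noncomputable def v31 (x1 x2 x3 : ℝ) : ℝ := v1 x1 x2 x3 + v30 x1 x2 x3
theorem en31 (h : In b E x1 x2 x3) : Enc S E (t31 b) (v31 x1 x2 x3) := enc_add (en1 h) (en30 h)

def t32 (b : Bx) : TM := tadd (t1 b) (t2 b)
noncomputable def v32 (x1 x2 x3 : ℝ) : ℝ := v1 x1 x2 x3 + v2 x1 x2 x3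
theorem en32 (h : In b E x1 x2 x3) : Enc S E (t32 b) (v32 x1 x2 x3) := enc_add (en1 h) (en2 h)

def t33 (b : Bx) : TM := tsq S (t19 b)
noncomputable def v33 (x1 x2 x3 : ℝ) : ℝ := (v19 x1 x2 x3) ^ 2
theorem en33 (h : In b E x1 x2 x3) : Enc S E (t33 b) (v33 x1 x2 x3) := enc_sq hS (en19 h)

def t34 (b : Bx) : TM := tsub (t8 b) (t33 b)
noncomputable def v34 (x1 x2 x3 : ℝ) : ℝ := v8 x1 x2 x3 - v33 x1 x2 x3
theorem en34 (h : In b E x1 x2 x3) : Enc S E (t34 b) (v34 x1 x2 x3) := enc_sub (en8 h) (en33 h)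

def t35 (b : Bx) : TM := tsqrt S (t34 b)
noncomputable def v35 (x1 x2 x3 : ℝ) : ℝ := Real.sqrt (v34 x1 x2 x3)
theorem en35 (h : In b E x1 x2 x3) : Enc S E (t35 b) (v35 x1 x2 x3) := enc_sqrt hS (en34 h)

def t36 (b : Bx) : TM := tnat 8 (t35 b)
noncomputable def v36 (x1 x2 x3 : ℝ) : ℝ := ((8 : ℕ) : ℝ) * v35 x1 x2 x3
theorem en36 (h : In b E x1 x2 x3) : Enc S E (t36 b) (v36 x1 x2 x3) := enc_nat 8 (en35 h)

def t37 (_b : Bx) : TM := tconst (Nat.mul 4 S) 0 0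
noncomputable def v37 (_x1 _x2 _x3 : ℝ) : ℝ := ((4 : ℕ) : ℝ)
theorem en37 (_h : In b E x1 x2 x3) : Enc S E (t37 b) (v37 x1 x2 x3) := enc_nc E 4

def t38 (b : Bx) : TM := tsub (t36 b) (t37 b)
noncomputable def v38 (x1 x2 x3 : ℝ) : ℝ := v36 x1 x2 x3 - v37 x1 x2 x3
theorem en38 (h : In b E x1 x2 x3) : Enc S E (t38 b) (v38 x1 x2 x3) := enc_sub (en36 h) (en37 h)

def t39 (b : Bx) : TM := tnat 4 (t22 b)
noncomputable def v39 (x1 x2 x3 : ℝ) : ℝ := ((4 : ℕ) : ℝ) * v22 x1 x2 x3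
theorem en39 (h : In b E x1 x2 x3) : Enc S E (t39 b) (v39 x1 x2 x3) := enc_nat 4 (en22 h)

def t40 (b : Bx) : TM := tsub (t38 b) (t39 b)
noncomputable def v40 (x1 x2 x3 : ℝ) : ℝ := v38 x1 x2 x3 - v39 x1 x2 x3
theorem en40 (h : In b E x1 x2 x3) : Enc S E (t40 b) (v40 x1 x2 x3) := enc_sub (en38 h) (en39 h)

def t41 (b : Bx) : TM := tsub (t28 b) (t1 b)
noncomputable def v41 (x1 x2 x3 : ℝ) : ℝ := v28 x1 x2 x3 - v1 x1 x2 x3
theorem en41 (h : In b E x1 x2 x3) : Enc S E (t41 b) (v41 x1 x2 x3) := enc_sub (en28 h) (en1 h)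

def t42 (b : Bx) : TM := tsq S (t41 b)
noncomputable def v42 (x1 x2 x3 : ℝ) : ℝ := (v41 x1 x2 x3) ^ 2
theorem en42 (h : In b E x1 x2 x3) : Enc S E (t42 b) (v42 x1 x2 x3) := enc_sq hS (en41 h)

def t43 (b : Bx) : TM := tsub (t8 b) (t42 b)
noncomputable def v43 (x1 x2 x3 : ℝ) : ℝ := v8 x1 x2 x3 - v42 x1 x2 x3
theorem en43 (h : In b E x1 x2 x3) : Enc S E (t43 b) (v43 x1 x2 x3) := enc_sub (en8 h) (en42 h)

def t44 (b : Bx) : TM := tsqrt S (t43 b)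
noncomputable def v44 (x1 x2 x3 : ℝ) : ℝ := Real.sqrt (v43 x1 x2 x3)
theorem en44 (h : In b E x1 x2 x3) : Enc S E (t44 b) (v44 x1 x2 x3) := enc_sqrt hS (en43 h)

def t45 (b : Bx) : TM := tadd (t44 b) (t8 b)
noncomputable def v45 (x1 x2 x3 : ℝ) : ℝ := v44 x1 x2 x3 + v8 x1 x2 x3
theorem en45 (h : In b E x1 x2 x3) : Enc S E (t45 b) (v45 x1 x2 x3) := enc_add (en44 h) (en8 h)

def t46 (b : Bx) : TM := tsub (t45 b) (t26 b)
noncomputable def v46 (x1 x2 x3 : ℝ) : ℝ := v45 x1 x2 x3 - v26 x1 x2 x3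
theorem en46 (h : In b E x1 x2 x3) : Enc S E (t46 b) (v46 x1 x2 x3) := enc_sub (en45 h) (en26 h)

def t47 (b : Bx) : TM := tsub (t32 b) (t19 b)
noncomputable def v47 (x1 x2 x3 : ℝ) : ℝ := v32 x1 x2 x3 - v19 x1 x2 x3
theorem en47 (h : In b E x1 x2 x3) : Enc S E (t47 b) (v47 x1 x2 x3) := enc_sub (en32 h) (en19 h)

def t48 (b : Bx) : TM := tsq S (t47 b)
noncomputable def v48 (x1 x2 x3 : ℝ) : ℝ := (v47 x1 x2 x3) ^ 2
theorem en48 (h : In b E x1 x2 x3) : Enc S E (t48 b) (v48 x1 x2 x3) := enc_sq hS (en47 h)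

def t49 (b : Bx) : TM := tsub (t8 b) (t48 b)
noncomputable def v49 (x1 x2 x3 : ℝ) : ℝ := v8 x1 x2 x3 - v48 x1 x2 x3
theorem en49 (h : In b E x1 x2 x3) : Enc S E (t49 b) (v49 x1 x2 x3) := enc_sub (en8 h) (en48 h)

def t50 (b : Bx) : TM := tsqrt S (t49 b)
noncomputable def v50 (x1 x2 x3 : ℝ) : ℝ := Real.sqrt (v49 x1 x2 x3)
theorem en50 (h : In b E x1 x2 x3) : Enc S E (t50 b) (v50 x1 x2 x3) := enc_sqrt hS (en49 h)

def t51 (b : Bx) : TM := tsub (t27 b) (t1 b)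
noncomputable def v51 (x1 x2 x3 : ℝ) : ℝ := v27 x1 x2 x3 - v1 x1 x2 x3
theorem en51 (h : In b E x1 x2 x3) : Enc S E (t51 b) (v51 x1 x2 x3) := enc_sub (en27 h) (en1 h)

def t52 (b : Bx) : TM := tsq S (t51 b)
noncomputable def v52 (x1 x2 x3 : ℝ) : ℝ := (v51 x1 x2 x3) ^ 2
theorem en52 (h : In b E x1 x2 x3) : Enc S E (t52 b) (v52 x1 x2 x3) := enc_sq hS (en51 h)

def t53 (b : Bx) : TM := tsub (t8 b) (t52 b)
noncomputable def v53 (x1 x2 x3 : ℝ) : ℝ := v8 x1 x2 x3 - v52 x1 x2 x3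
theorem en53 (h : In b E x1 x2 x3) : Enc S E (t53 b) (v53 x1 x2 x3) := enc_sub (en8 h) (en52 h)

def t54 (b : Bx) : TM := tsqrt S (t53 b)
noncomputable def v54 (x1 x2 x3 : ℝ) : ℝ := Real.sqrt (v53 x1 x2 x3)
theorem en54 (h : In b E x1 x2 x3) : Enc S E (t54 b) (v54 x1 x2 x3) := enc_sqrt hS (en53 h)

def t55 (b : Bx) : TM := tsub (t50 b) (t22 b)
noncomputable def v55 (x1 x2 x3 : ℝ) : ℝ := v50 x1 x2 x3 - v22 x1 x2 x3
theorem en55 (h : In b E x1 x2 x3) : Enc S E (t55 b) (v55 x1 x2 x3) := enc_sub (en50 h) (en22 h)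

def t56 (b : Bx) : TM := tsub (t55 b) (t8 b)
noncomputable def v56 (x1 x2 x3 : ℝ) : ℝ := v55 x1 x2 x3 - v8 x1 x2 x3
theorem en56 (h : In b E x1 x2 x3) : Enc S E (t56 b) (v56 x1 x2 x3) := enc_sub (en55 h) (en8 h)

def t57 (b : Bx) : TM := tadd (t56 b) (t26 b)
noncomputable def v57 (x1 x2 x3 : ℝ) : ℝ := v56 x1 x2 x3 + v26 x1 x2 x3
theorem en57 (h : In b E x1 x2 x3) : Enc S E (t57 b) (v57 x1 x2 x3) := enc_add (en56 h) (en26 h)

def t58 (b : Bx) : TM := tadd (t57 b) (t10 b)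
noncomputable def v58 (x1 x2 x3 : ℝ) : ℝ := v57 x1 x2 x3 + v10 x1 x2 x3
theorem en58 (h : In b E x1 x2 x3) : Enc S E (t58 b) (v58 x1 x2 x3) := enc_add (en57 h) (en10 h)

def t59 (b : Bx) : TM := tadd (t58 b) (t8 b)
noncomputable def v59 (x1 x2 x3 : ℝ) : ℝ := v58 x1 x2 x3 + v8 x1 x2 x3
theorem en59 (h : In b E x1 x2 x3) : Enc S E (t59 b) (v59 x1 x2 x3) := enc_add (en58 h) (en8 h)

def t60 (b : Bx) : TM := tsub (t59 b) (t46 b)
noncomputable def v60 (x1 x2 x3 : ℝ) : ℝ := v59 x1 x2 x3 - v46 x1 x2 x3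
theorem en60 (h : In b E x1 x2 x3) : Enc S E (t60 b) (v60 x1 x2 x3) := enc_sub (en59 h) (en46 h)

def t63 (b : Bx) : TM := tsub (t28 b) (t31 b)
noncomputable def v63 (x1 x2 x3 : ℝ) : ℝ := v28 x1 x2 x3 - v31 x1 x2 x3
theorem en63 (h : In b E x1 x2 x3) : Enc S E (t63 b) (v63 x1 x2 x3) := enc_sub (en28 h) (en31 h)

def t64 (b : Bx) : TM := tsq S (t63 b)
noncomputable def v64 (x1 x2 x3 : ℝ) : ℝ := (v63 x1 x2 x3) ^ 2
theorem en64 (h : In b E x1 x2 x3) : Enc S E (t64 b) (v64 x1 x2 x3) := enc_sq hS (en63 h)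

def t65 (b : Bx) : TM := tsub (t8 b) (t64 b)
noncomputable def v65 (x1 x2 x3 : ℝ) : ℝ := v8 x1 x2 x3 - v64 x1 x2 x3
theorem en65 (h : In b E x1 x2 x3) : Enc S E (t65 b) (v65 x1 x2 x3) := enc_sub (en8 h) (en64 h)

def t66 (b : Bx) : TM := tsqrt S (t65 b)
noncomputable def v66 (x1 x2 x3 : ℝ) : ℝ := Real.sqrt (v65 x1 x2 x3)
theorem en66 (h : In b E x1 x2 x3) : Enc S E (t66 b) (v66 x1 x2 x3) := enc_sqrt hS (en65 h)

def t67 (b : Bx) : TM := tsub (t0 b) (t19 b)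
noncomputable def v67 (x1 x2 x3 : ℝ) : ℝ := v0 x1 x2 x3 - v19 x1 x2 x3
theorem en67 (h : In b E x1 x2 x3) : Enc S E (t67 b) (v67 x1 x2 x3) := enc_sub (en0 h) (en19 h)

def t68 (b : Bx) : TM := tsq S (t67 b)
noncomputable def v68 (x1 x2 x3 : ℝ) : ℝ := (v67 x1 x2 x3) ^ 2
theorem en68 (h : In b E x1 x2 x3) : Enc S E (t68 b) (v68 x1 x2 x3) := enc_sq hS (en67 h)

def t69 (b : Bx) : TM := tsub (t8 b) (t68 b)
noncomputable def v69 (x1 x2 x3 : ℝ) : ℝ := v8 x1 x2 x3 - v68 x1 x2 x3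
theorem en69 (h : In b E x1 x2 x3) : Enc S E (t69 b) (v69 x1 x2 x3) := enc_sub (en8 h) (en68 h)

def t70 (b : Bx) : TM := tsqrt S (t69 b)
noncomputable def v70 (x1 x2 x3 : ℝ) : ℝ := Real.sqrt (v69 x1 x2 x3)
theorem en70 (h : In b E x1 x2 x3) : Enc S E (t70 b) (v70 x1 x2 x3) := enc_sqrt hS (en69 h)

def t71 (_b : Bx) : TM := tconst (Nat.div (Nat.mul 1 S) 2) 0 1
noncomputable def v71 (_x1 _x2 _x3 : ℝ) : ℝ := ((1 : ℕ) : ℝ) / ((2 : ℕ) : ℝ)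
theorem en71 (_h : In b E x1 x2 x3) : Enc S E (t71 b) (v71 x1 x2 x3) := enc_rat E 1 (by norm_num)

def t72 (b : Bx) : TM := tsub (t70 b) (t71 b)
noncomputable def v72 (x1 x2 x3 : ℝ) : ℝ := v70 x1 x2 x3 - v71 x1 x2 x3
theorem en72 (h : In b E x1 x2 x3) : Enc S E (t72 b) (v72 x1 x2 x3) := enc_sub (en70 h) (en71 h)

def t73 (b : Bx) : TM := tsub (t72 b) (t26 b)
noncomputable def v73 (x1 x2 x3 : ℝ) : ℝ := v72 x1 x2 x3 - v26 x1 x2 x3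
theorem en73 (h : In b E x1 x2 x3) : Enc S E (t73 b) (v73 x1 x2 x3) := enc_sub (en72 h) (en26 h)

def t74 (b : Bx) : TM := tadd (t73 b) (t22 b)
noncomputable def v74 (x1 x2 x3 : ℝ) : ℝ := v73 x1 x2 x3 + v22 x1 x2 x3
theorem en74 (h : In b E x1 x2 x3) : Enc S E (t74 b) (v74 x1 x2 x3) := enc_add (en73 h) (en22 h)

def t75 (b : Bx) : TM := tadd (t74 b) (t10 b)
noncomputable def v75 (x1 x2 x3 : ℝ) : ℝ := v74 x1 x2 x3 + v10 x1 x2 x3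
theorem en75 (h : In b E x1 x2 x3) : Enc S E (t75 b) (v75 x1 x2 x3) := enc_add (en74 h) (en10 h)

def t76 (b : Bx) : TM := tadd (t75 b) (t8 b)
noncomputable def v76 (x1 x2 x3 : ℝ) : ℝ := v75 x1 x2 x3 + v8 x1 x2 x3
theorem en76 (h : In b E x1 x2 x3) : Enc S E (t76 b) (v76 x1 x2 x3) := enc_add (en75 h) (en8 h)

def t77 (b : Bx) : TM := tsub (t76 b) (t66 b)
noncomputable def v77 (x1 x2 x3 : ℝ) : ℝ := v76 x1 x2 x3 - v66 x1 x2 x3
theorem en77 (h : In b E x1 x2 x3) : Enc S E (t77 b) (v77 x1 x2 x3) := enc_sub (en76 h) (en66 h)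

def t78 (b : Bx) : TM := tadd (t55 b) (t8 b)
noncomputable def v78 (x1 x2 x3 : ℝ) : ℝ := v55 x1 x2 x3 + v8 x1 x2 x3
theorem en78 (h : In b E x1 x2 x3) : Enc S E (t78 b) (v78 x1 x2 x3) := enc_add (en55 h) (en8 h)

def t79 (b : Bx) : TM := tadd (t78 b) (t10 b)
noncomputable def v79 (x1 x2 x3 : ℝ) : ℝ := v78 x1 x2 x3 + v10 x1 x2 x3
theorem en79 (h : In b E x1 x2 x3) : Enc S E (t79 b) (v79 x1 x2 x3) := enc_add (en78 h) (en10 h)

def t80 (b : Bx) : TM := tsub (t79 b) (t44 b)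
noncomputable def v80 (x1 x2 x3 : ℝ) : ℝ := v79 x1 x2 x3 - v44 x1 x2 x3
theorem en80 (h : In b E x1 x2 x3) : Enc S E (t80 b) (v80 x1 x2 x3) := enc_sub (en79 h) (en44 h)

def t81 (b : Bx) : TM := tadd (t17 b) (t22 b)
noncomputable def v81 (x1 x2 x3 : ℝ) : ℝ := v17 x1 x2 x3 + v22 x1 x2 x3
theorem en81 (h : In b E x1 x2 x3) : Enc S E (t81 b) (v81 x1 x2 x3) := enc_add (en17 h) (en22 h)

def t82 (b : Bx) : TM := tsub (t81 b) (t54 b)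
noncomputable def v82 (x1 x2 x3 : ℝ) : ℝ := v81 x1 x2 x3 - v54 x1 x2 x3
theorem en82 (h : In b E x1 x2 x3) : Enc S E (t82 b) (v82 x1 x2 x3) := enc_sub (en81 h) (en54 h)

def t83 (b : Bx) : TM := tsub (t32 b) (t28 b)
noncomputable def v83 (x1 x2 x3 : ℝ) : ℝ := v32 x1 x2 x3 - v28 x1 x2 x3
theorem en83 (h : In b E x1 x2 x3) : Enc S E (t83 b) (v83 x1 x2 x3) := enc_sub (en32 h) (en28 h)

def t84 (b : Bx) : TM := tsq S (t83 b)
noncomputable def v84 (x1 x2 x3 : ℝ) : ℝ := (v83 x1 x2 x3) ^ 2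
theorem en84 (h : In b E x1 x2 x3) : Enc S E (t84 b) (v84 x1 x2 x3) := enc_sq hS (en83 h)

def t85 (b : Bx) : TM := tsub (t8 b) (t84 b)
noncomputable def v85 (x1 x2 x3 : ℝ) : ℝ := v8 x1 x2 x3 - v84 x1 x2 x3
theorem en85 (h : In b E x1 x2 x3) : Enc S E (t85 b) (v85 x1 x2 x3) := enc_sub (en8 h) (en84 h)

def t86 (b : Bx) : TM := tsqrt S (t85 b)
noncomputable def v86 (x1 x2 x3 : ℝ) : ℝ := Real.sqrt (v85 x1 x2 x3)
theorem en86 (h : In b E x1 x2 x3) : Enc S E (t86 b) (v86 x1 x2 x3) := enc_sqrt hS (en85 h)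

def t87 (b : Bx) : TM := tsub (t82 b) (t86 b)
noncomputable def v87 (x1 x2 x3 : ℝ) : ℝ := v82 x1 x2 x3 - v86 x1 x2 x3
theorem en87 (h : In b E x1 x2 x3) : Enc S E (t87 b) (v87 x1 x2 x3) := enc_sub (en82 h) (en86 h)

def t88 (b : Bx) : TM := tadd (t60 b) (t77 b)
noncomputable def v88 (x1 x2 x3 : ℝ) : ℝ := v60 x1 x2 x3 + v77 x1 x2 x3
theorem en88 (h : In b E x1 x2 x3) : Enc S E (t88 b) (v88 x1 x2 x3) := enc_add (en60 h) (en77 h)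

def t89 (b : Bx) : TM := tscale 9 5 (t88 b)
noncomputable def v89 (x1 x2 x3 : ℝ) : ℝ := ((9 : ℕ) : ℝ) / ((5 : ℕ) : ℝ) * v88 x1 x2 x3
theorem en89 (h : In b E x1 x2 x3) : Enc S E (t89 b) (v89 x1 x2 x3) := enc_scale 9 (by norm_num) (en88 h)

def t90 (b : Bx) : TM := tadd (t40 b) (t89 b)
noncomputable def v90 (x1 x2 x3 : ℝ) : ℝ := v40 x1 x2 x3 + v89 x1 x2 x3
theorem en90 (h : In b E x1 x2 x3) : Enc S E (t90 b) (v90 x1 x2 x3) := enc_add (en40 h) (en89 h)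

def t91 (b : Bx) : TM := tadd (t80 b) (t87 b)
noncomputable def v91 (x1 x2 x3 : ℝ) : ℝ := v80 x1 x2 x3 + v87 x1 x2 x3
theorem en91 (h : In b E x1 x2 x3) : Enc S E (t91 b) (v91 x1 x2 x3) := enc_add (en80 h) (en87 h)

def t92 (b : Bx) : TM := tscale 1 5 (t91 b)
noncomputable def v92 (x1 x2 x3 : ℝ) : ℝ := ((1 : ℕ) : ℝ) / ((5 : ℕ) : ℝ) * v91 x1 x2 x3
theorem en92 (h : In b E x1 x2 x3) : Enc S E (t92 b) (v92 x1 x2 x3) := enc_scale 1 (by norm_num) (en91 h)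

def t93 (b : Bx) : TM := tadd (t90 b) (t92 b)
noncomputable def v93 (x1 x2 x3 : ℝ) : ℝ := v90 x1 x2 x3 + v92 x1 x2 x3
theorem en93 (h : In b E x1 x2 x3) : Enc S E (t93 b) (v93 x1 x2 x3) := enc_add (en90 h) (en92 h)

def t98 (_b : Bx) : TM := tconst (Nat.mul 0 S) 0 0
noncomputable def v98 (_x1 _x2 _x3 : ℝ) : ℝ := ((0 : ℕ) : ℝ)
theorem en98 (_h : In b E x1 x2 x3) : Enc S E (t98 b) (v98 x1 x2 x3) := enc_nc E 0

def t99 (b : Bx) : TM := tsub (t1 b) (t98 b)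
noncomputable def v99 (x1 x2 x3 : ℝ) : ℝ := v1 x1 x2 x3 - v98 x1 x2 x3
theorem en99 (h : In b E x1 x2 x3) : Enc S E (t99 b) (v99 x1 x2 x3) := enc_sub (en1 h) (en98 h)

def t100 (b : Bx) : TM := tneg (t8 b)
noncomputable def v100 (x1 x2 x3 : ℝ) : ℝ := -(v8 x1 x2 x3)
theorem en100 (h : In b E x1 x2 x3) : Enc S E (t100 b) (v100 x1 x2 x3) := enc_neg (en8 h)

def t101 (b : Bx) : TM := tsq S (t99 b)
noncomputable def v101 (x1 x2 x3 : ℝ) : ℝ := (v99 x1 x2 x3) ^ 2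
theorem en101 (h : In b E x1 x2 x3) : Enc S E (t101 b) (v101 x1 x2 x3) := enc_sq hS (en99 h)

def t102 (b : Bx) : TM := tadd (t19 b) (t99 b)
noncomputable def v102 (x1 x2 x3 : ℝ) : ℝ := v19 x1 x2 x3 + v99 x1 x2 x3
theorem en102 (h : In b E x1 x2 x3) : Enc S E (t102 b) (v102 x1 x2 x3) := enc_add (en19 h) (en99 h)

def t103 (b : Bx) : TM := tmul S (t100 b) (t102 b)
noncomputable def v103 (x1 x2 x3 : ℝ) : ℝ := v100 x1 x2 x3 * v102 x1 x2 x3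
theorem en103 (h : In b E x1 x2 x3) : Enc S E (t103 b) (v103 x1 x2 x3) := enc_mul hS (en100 h) (en102 h)

def t104 (b : Bx) : TM := tsub (t8 b) (t101 b)
noncomputable def v104 (x1 x2 x3 : ℝ) : ℝ := v8 x1 x2 x3 - v101 x1 x2 x3
theorem en104 (h : In b E x1 x2 x3) : Enc S E (t104 b) (v104 x1 x2 x3) := enc_sub (en8 h) (en101 h)

def t105 (b : Bx) : TM := tneg (t103 b)
noncomputable def v105 (x1 x2 x3 : ℝ) : ℝ := -(v103 x1 x2 x3)
theorem en105 (h : In b E x1 x2 x3) : Enc S E (t105 b) (v105 x1 x2 x3) := enc_neg (en103 h)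

def t106 (b : Bx) : TM := tsqrt S (t104 b)
noncomputable def v106 (x1 x2 x3 : ℝ) : ℝ := Real.sqrt (v104 x1 x2 x3)
theorem en106 (h : In b E x1 x2 x3) : Enc S E (t106 b) (v106 x1 x2 x3) := enc_sqrt hS (en104 h)

def t107 (b : Bx) : TM := tadd (t35 b) (t106 b)
noncomputable def v107 (x1 x2 x3 : ℝ) : ℝ := v35 x1 x2 x3 + v106 x1 x2 x3
theorem en107 (h : In b E x1 x2 x3) : Enc S E (t107 b) (v107 x1 x2 x3) := enc_add (en35 h) (en106 h)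

def t108 (b : Bx) : TM := tinv S (t107 b)
noncomputable def v108 (x1 x2 x3 : ℝ) : ℝ := (v107 x1 x2 x3)⁻¹
theorem en108 (h : In b E x1 x2 x3) : Enc S E (t108 b) (v108 x1 x2 x3) := enc_inv hS (en107 h)

def t109 (b : Bx) : TM := tmul S (t105 b) (t108 b)
noncomputable def v109 (x1 x2 x3 : ℝ) : ℝ := v105 x1 x2 x3 * v108 x1 x2 x3
theorem en109 (h : In b E x1 x2 x3) : Enc S E (t109 b) (v109 x1 x2 x3) := enc_mul hS (en105 h) (en108 h)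

def t110 (b : Bx) : TM := tnat 8 (t106 b)
noncomputable def v110 (x1 x2 x3 : ℝ) : ℝ := ((8 : ℕ) : ℝ) * v106 x1 x2 x3
theorem en110 (h : In b E x1 x2 x3) : Enc S E (t110 b) (v110 x1 x2 x3) := enc_nat 8 (en106 h)

def t111 (b : Bx) : TM := tnat 8 (t109 b)
noncomputable def v111 (x1 x2 x3 : ℝ) : ℝ := ((8 : ℕ) : ℝ) * v109 x1 x2 x3
theorem en111 (h : In b E x1 x2 x3) : Enc S E (t111 b) (v111 x1 x2 x3) := enc_nat 8 (en109 h)

def t112 (b : Bx) : TM := tsub (t110 b) (t37 b)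
noncomputable def v112 (x1 x2 x3 : ℝ) : ℝ := v110 x1 x2 x3 - v37 x1 x2 x3
theorem en112 (h : In b E x1 x2 x3) : Enc S E (t112 b) (v112 x1 x2 x3) := enc_sub (en110 h) (en37 h)

def t113 (b : Bx) : TM := tsub (t112 b) (t39 b)
noncomputable def v113 (x1 x2 x3 : ℝ) : ℝ := v112 x1 x2 x3 - v39 x1 x2 x3
theorem en113 (h : In b E x1 x2 x3) : Enc S E (t113 b) (v113 x1 x2 x3) := enc_sub (en112 h) (en39 h)

def t114 (b : Bx) : TM := tsub (t32 b) (t99 b)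
noncomputable def v114 (x1 x2 x3 : ℝ) : ℝ := v32 x1 x2 x3 - v99 x1 x2 x3
theorem en114 (h : In b E x1 x2 x3) : Enc S E (t114 b) (v114 x1 x2 x3) := enc_sub (en32 h) (en99 h)

def t115 (b : Bx) : TM := tneg (t100 b)
noncomputable def v115 (x1 x2 x3 : ℝ) : ℝ := -(v100 x1 x2 x3)
theorem en115 (h : In b E x1 x2 x3) : Enc S E (t115 b) (v115 x1 x2 x3) := enc_neg (en100 h)

def t116 (b : Bx) : TM := tsq S (t114 b)
noncomputable def v116 (x1 x2 x3 : ℝ) : ℝ := (v114 x1 x2 x3) ^ 2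
theorem en116 (h : In b E x1 x2 x3) : Enc S E (t116 b) (v116 x1 x2 x3) := enc_sq hS (en114 h)

def t117 (b : Bx) : TM := tadd (t47 b) (t114 b)
noncomputable def v117 (x1 x2 x3 : ℝ) : ℝ := v47 x1 x2 x3 + v114 x1 x2 x3
theorem en117 (h : In b E x1 x2 x3) : Enc S E (t117 b) (v117 x1 x2 x3) := enc_add (en47 h) (en114 h)

def t118 (b : Bx) : TM := tmul S (t115 b) (t117 b)
noncomputable def v118 (x1 x2 x3 : ℝ) : ℝ := v115 x1 x2 x3 * v117 x1 x2 x3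
theorem en118 (h : In b E x1 x2 x3) : Enc S E (t118 b) (v118 x1 x2 x3) := enc_mul hS (en115 h) (en117 h)

def t119 (b : Bx) : TM := tsub (t8 b) (t116 b)
noncomputable def v119 (x1 x2 x3 : ℝ) : ℝ := v8 x1 x2 x3 - v116 x1 x2 x3
theorem en119 (h : In b E x1 x2 x3) : Enc S E (t119 b) (v119 x1 x2 x3) := enc_sub (en8 h) (en116 h)

def t120 (b : Bx) : TM := tneg (t118 b)
noncomputable def v120 (x1 x2 x3 : ℝ) : ℝ := -(v118 x1 x2 x3)
theorem en120 (h : In b E x1 x2 x3) : Enc S E (t120 b) (v120 x1 x2 x3) := enc_neg (en118 h)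

def t121 (b : Bx) : TM := tsqrt S (t119 b)
noncomputable def v121 (x1 x2 x3 : ℝ) : ℝ := Real.sqrt (v119 x1 x2 x3)
theorem en121 (h : In b E x1 x2 x3) : Enc S E (t121 b) (v121 x1 x2 x3) := enc_sqrt hS (en119 h)

def t122 (b : Bx) : TM := tadd (t50 b) (t121 b)
noncomputable def v122 (x1 x2 x3 : ℝ) : ℝ := v50 x1 x2 x3 + v121 x1 x2 x3
theorem en122 (h : In b E x1 x2 x3) : Enc S E (t122 b) (v122 x1 x2 x3) := enc_add (en50 h) (en121 h)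

def t123 (b : Bx) : TM := tinv S (t122 b)
noncomputable def v123 (x1 x2 x3 : ℝ) : ℝ := (v122 x1 x2 x3)⁻¹
theorem en123 (h : In b E x1 x2 x3) : Enc S E (t123 b) (v123 x1 x2 x3) := enc_inv hS (en122 h)

def t124 (b : Bx) : TM := tmul S (t120 b) (t123 b)
noncomputable def v124 (x1 x2 x3 : ℝ) : ℝ := v120 x1 x2 x3 * v123 x1 x2 x3
theorem en124 (h : In b E x1 x2 x3) : Enc S E (t124 b) (v124 x1 x2 x3) := enc_mul hS (en120 h) (en123 h)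

def t125 (b : Bx) : TM := tsub (t121 b) (t22 b)
noncomputable def v125 (x1 x2 x3 : ℝ) : ℝ := v121 x1 x2 x3 - v22 x1 x2 x3
theorem en125 (h : In b E x1 x2 x3) : Enc S E (t125 b) (v125 x1 x2 x3) := enc_sub (en121 h) (en22 h)

def t126 (b : Bx) : TM := tsub (t125 b) (t8 b)
noncomputable def v126 (x1 x2 x3 : ℝ) : ℝ := v125 x1 x2 x3 - v8 x1 x2 x3
theorem en126 (h : In b E x1 x2 x3) : Enc S E (t126 b) (v126 x1 x2 x3) := enc_sub (en125 h) (en8 h)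

def t127 (b : Bx) : TM := tadd (t126 b) (t26 b)
noncomputable def v127 (x1 x2 x3 : ℝ) : ℝ := v126 x1 x2 x3 + v26 x1 x2 x3
theorem en127 (h : In b E x1 x2 x3) : Enc S E (t127 b) (v127 x1 x2 x3) := enc_add (en126 h) (en26 h)

def t128 (b : Bx) : TM := tadd (t2 b) (t98 b)
noncomputable def v128 (x1 x2 x3 : ℝ) : ℝ := v2 x1 x2 x3 + v98 x1 x2 x3
theorem en128 (h : In b E x1 x2 x3) : Enc S E (t128 b) (v128 x1 x2 x3) := enc_add (en2 h) (en98 h)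

def t129 (b : Bx) : TM := tsub (t128 b) (t4 b)
noncomputable def v129 (x1 x2 x3 : ℝ) : ℝ := v128 x1 x2 x3 - v4 x1 x2 x3
theorem en129 (h : In b E x1 x2 x3) : Enc S E (t129 b) (v129 x1 x2 x3) := enc_sub (en128 h) (en4 h)

def t130 (b : Bx) : TM := tsq S (t129 b)
noncomputable def v130 (x1 x2 x3 : ℝ) : ℝ := (v129 x1 x2 x3) ^ 2
theorem en130 (h : In b E x1 x2 x3) : Enc S E (t130 b) (v130 x1 x2 x3) := enc_sq hS (en129 h)

def t131 (b : Bx) : TM := tadd (t6 b) (t129 b)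
noncomputable def v131 (x1 x2 x3 : ℝ) : ℝ := v6 x1 x2 x3 + v129 x1 x2 x3
theorem en131 (h : In b E x1 x2 x3) : Enc S E (t131 b) (v131 x1 x2 x3) := enc_add (en6 h) (en129 h)

def t132 (b : Bx) : TM := tmul S (t8 b) (t131 b)
noncomputable def v132 (x1 x2 x3 : ℝ) : ℝ := v8 x1 x2 x3 * v131 x1 x2 x3
theorem en132 (h : In b E x1 x2 x3) : Enc S E (t132 b) (v132 x1 x2 x3) := enc_mul hS (en8 h) (en131 h)

def t133 (b : Bx) : TM := tsub (t8 b) (t130 b)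
noncomputable def v133 (x1 x2 x3 : ℝ) : ℝ := v8 x1 x2 x3 - v130 x1 x2 x3
theorem en133 (h : In b E x1 x2 x3) : Enc S E (t133 b) (v133 x1 x2 x3) := enc_sub (en8 h) (en130 h)

def t134 (b : Bx) : TM := tneg (t132 b)
noncomputable def v134 (x1 x2 x3 : ℝ) : ℝ := -(v132 x1 x2 x3)
theorem en134 (h : In b E x1 x2 x3) : Enc S E (t134 b) (v134 x1 x2 x3) := enc_neg (en132 h)

def t135 (b : Bx) : TM := tsqrt S (t133 b)
noncomputable def v135 (x1 x2 x3 : ℝ) : ℝ := Real.sqrt (v133 x1 x2 x3)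
theorem en135 (h : In b E x1 x2 x3) : Enc S E (t135 b) (v135 x1 x2 x3) := enc_sqrt hS (en133 h)

def t136 (b : Bx) : TM := tadd (t10 b) (t135 b)
noncomputable def v136 (x1 x2 x3 : ℝ) : ℝ := v10 x1 x2 x3 + v135 x1 x2 x3
theorem en136 (h : In b E x1 x2 x3) : Enc S E (t136 b) (v136 x1 x2 x3) := enc_add (en10 h) (en135 h)

def t137 (b : Bx) : TM := tinv S (t136 b)
noncomputable def v137 (x1 x2 x3 : ℝ) : ℝ := (v136 x1 x2 x3)⁻¹
theorem en137 (h : In b E x1 x2 x3) : Enc S E (t137 b) (v137 x1 x2 x3) := enc_inv hS (en136 h)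

def t138 (b : Bx) : TM := tmul S (t134 b) (t137 b)
noncomputable def v138 (x1 x2 x3 : ℝ) : ℝ := v134 x1 x2 x3 * v137 x1 x2 x3
theorem en138 (h : In b E x1 x2 x3) : Enc S E (t138 b) (v138 x1 x2 x3) := enc_mul hS (en134 h) (en137 h)

def t139 (b : Bx) : TM := tadd (t127 b) (t135 b)
noncomputable def v139 (x1 x2 x3 : ℝ) : ℝ := v127 x1 x2 x3 + v135 x1 x2 x3
theorem en139 (h : In b E x1 x2 x3) : Enc S E (t139 b) (v139 x1 x2 x3) := enc_add (en127 h) (en135 h)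

def t140 (b : Bx) : TM := tadd (t124 b) (t138 b)
noncomputable def v140 (x1 x2 x3 : ℝ) : ℝ := v124 x1 x2 x3 + v138 x1 x2 x3
theorem en140 (h : In b E x1 x2 x3) : Enc S E (t140 b) (v140 x1 x2 x3) := enc_add (en124 h) (en138 h)

def t141 (b : Bx) : TM := tadd (t139 b) (t8 b)
noncomputable def v141 (x1 x2 x3 : ℝ) : ℝ := v139 x1 x2 x3 + v8 x1 x2 x3
theorem en141 (h : In b E x1 x2 x3) : Enc S E (t141 b) (v141 x1 x2 x3) := enc_add (en139 h) (en8 h)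

def t142 (b : Bx) : TM := tadd (t99 b) (t129 b)
noncomputable def v142 (x1 x2 x3 : ℝ) : ℝ := v99 x1 x2 x3 + v129 x1 x2 x3
theorem en142 (h : In b E x1 x2 x3) : Enc S E (t142 b) (v142 x1 x2 x3) := enc_add (en99 h) (en129 h)

def t143 (b : Bx) : TM := tadd (t100 b) (t8 b)
noncomputable def v143 (x1 x2 x3 : ℝ) : ℝ := v100 x1 x2 x3 + v8 x1 x2 x3
theorem en143 (h : In b E x1 x2 x3) : Enc S E (t143 b) (v143 x1 x2 x3) := enc_add (en100 h) (en8 h)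

def t144 (b : Bx) : TM := tsub (t142 b) (t1 b)
noncomputable def v144 (x1 x2 x3 : ℝ) : ℝ := v142 x1 x2 x3 - v1 x1 x2 x3
theorem en144 (h : In b E x1 x2 x3) : Enc S E (t144 b) (v144 x1 x2 x3) := enc_sub (en142 h) (en1 h)

def t145 (b : Bx) : TM := tsq S (t144 b)
noncomputable def v145 (x1 x2 x3 : ℝ) : ℝ := (v144 x1 x2 x3) ^ 2
theorem en145 (h : In b E x1 x2 x3) : Enc S E (t145 b) (v145 x1 x2 x3) := enc_sq hS (en144 h)

def t146 (b : Bx) : TM := tadd (t41 b) (t144 b)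
noncomputable def v146 (x1 x2 x3 : ℝ) : ℝ := v41 x1 x2 x3 + v144 x1 x2 x3
theorem en146 (h : In b E x1 x2 x3) : Enc S E (t146 b) (v146 x1 x2 x3) := enc_add (en41 h) (en144 h)

def t147 (b : Bx) : TM := tmul S (t143 b) (t146 b)
noncomputable def v147 (x1 x2 x3 : ℝ) : ℝ := v143 x1 x2 x3 * v146 x1 x2 x3
theorem en147 (h : In b E x1 x2 x3) : Enc S E (t147 b) (v147 x1 x2 x3) := enc_mul hS (en143 h) (en146 h)

def t148 (b : Bx) : TM := tsub (t8 b) (t145 b)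
noncomputable def v148 (x1 x2 x3 : ℝ) : ℝ := v8 x1 x2 x3 - v145 x1 x2 x3
theorem en148 (h : In b E x1 x2 x3) : Enc S E (t148 b) (v148 x1 x2 x3) := enc_sub (en8 h) (en145 h)

def t149 (b : Bx) : TM := tneg (t147 b)
noncomputable def v149 (x1 x2 x3 : ℝ) : ℝ := -(v147 x1 x2 x3)
theorem en149 (h : In b E x1 x2 x3) : Enc S E (t149 b) (v149 x1 x2 x3) := enc_neg (en147 h)

def t150 (b : Bx) : TM := tsqrt S (t148 b)
noncomputable def v150 (x1 x2 x3 : ℝ) : ℝ := Real.sqrt (v148 x1 x2 x3)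
theorem en150 (h : In b E x1 x2 x3) : Enc S E (t150 b) (v150 x1 x2 x3) := enc_sqrt hS (en148 h)

def t151 (b : Bx) : TM := tadd (t44 b) (t150 b)
noncomputable def v151 (x1 x2 x3 : ℝ) : ℝ := v44 x1 x2 x3 + v150 x1 x2 x3
theorem en151 (h : In b E x1 x2 x3) : Enc S E (t151 b) (v151 x1 x2 x3) := enc_add (en44 h) (en150 h)

def t152 (b : Bx) : TM := tinv S (t151 b)
noncomputable def v152 (x1 x2 x3 : ℝ) : ℝ := (v151 x1 x2 x3)⁻¹
theorem en152 (h : In b E x1 x2 x3) : Enc S E (t152 b) (v152 x1 x2 x3) := enc_inv hS (en151 h)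

def t153 (b : Bx) : TM := tmul S (t149 b) (t152 b)
noncomputable def v153 (x1 x2 x3 : ℝ) : ℝ := v149 x1 x2 x3 * v152 x1 x2 x3
theorem en153 (h : In b E x1 x2 x3) : Enc S E (t153 b) (v153 x1 x2 x3) := enc_mul hS (en149 h) (en152 h)

def t154 (b : Bx) : TM := tadd (t150 b) (t8 b)
noncomputable def v154 (x1 x2 x3 : ℝ) : ℝ := v150 x1 x2 x3 + v8 x1 x2 x3
theorem en154 (h : In b E x1 x2 x3) : Enc S E (t154 b) (v154 x1 x2 x3) := enc_add (en150 h) (en8 h)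

def t155 (b : Bx) : TM := tsub (t154 b) (t26 b)
noncomputable def v155 (x1 x2 x3 : ℝ) : ℝ := v154 x1 x2 x3 - v26 x1 x2 x3
theorem en155 (h : In b E x1 x2 x3) : Enc S E (t155 b) (v155 x1 x2 x3) := enc_sub (en154 h) (en26 h)

def t156 (b : Bx) : TM := tsub (t141 b) (t155 b)
noncomputable def v156 (x1 x2 x3 : ℝ) : ℝ := v141 x1 x2 x3 - v155 x1 x2 x3
theorem en156 (h : In b E x1 x2 x3) : Enc S E (t156 b) (v156 x1 x2 x3) := enc_sub (en141 h) (en155 h)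

def t157 (b : Bx) : TM := tsub (t140 b) (t153 b)
noncomputable def v157 (x1 x2 x3 : ℝ) : ℝ := v140 x1 x2 x3 - v153 x1 x2 x3
theorem en157 (h : In b E x1 x2 x3) : Enc S E (t157 b) (v157 x1 x2 x3) := enc_sub (en140 h) (en153 h)

def t158 (b : Bx) : TM := tsub (t0 b) (t99 b)
noncomputable def v158 (x1 x2 x3 : ℝ) : ℝ := v0 x1 x2 x3 - v99 x1 x2 x3
theorem en158 (h : In b E x1 x2 x3) : Enc S E (t158 b) (v158 x1 x2 x3) := enc_sub (en0 h) (en99 h)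

def t159 (b : Bx) : TM := tsq S (t158 b)
noncomputable def v159 (x1 x2 x3 : ℝ) : ℝ := (v158 x1 x2 x3) ^ 2
theorem en159 (h : In b E x1 x2 x3) : Enc S E (t159 b) (v159 x1 x2 x3) := enc_sq hS (en158 h)

def t160 (b : Bx) : TM := tadd (t67 b) (t158 b)
noncomputable def v160 (x1 x2 x3 : ℝ) : ℝ := v67 x1 x2 x3 + v158 x1 x2 x3
theorem en160 (h : In b E x1 x2 x3) : Enc S E (t160 b) (v160 x1 x2 x3) := enc_add (en67 h) (en158 h)

def t161 (b : Bx) : TM := tmul S (t115 b) (t160 b)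
noncomputable def v161 (x1 x2 x3 : ℝ) : ℝ := v115 x1 x2 x3 * v160 x1 x2 x3
theorem en161 (h : In b E x1 x2 x3) : Enc S E (t161 b) (v161 x1 x2 x3) := enc_mul hS (en115 h) (en160 h)

def t162 (b : Bx) : TM := tsub (t8 b) (t159 b)
noncomputable def v162 (x1 x2 x3 : ℝ) : ℝ := v8 x1 x2 x3 - v159 x1 x2 x3
theorem en162 (h : In b E x1 x2 x3) : Enc S E (t162 b) (v162 x1 x2 x3) := enc_sub (en8 h) (en159 h)

def t163 (b : Bx) : TM := tneg (t161 b)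
noncomputable def v163 (x1 x2 x3 : ℝ) : ℝ := -(v161 x1 x2 x3)
theorem en163 (h : In b E x1 x2 x3) : Enc S E (t163 b) (v163 x1 x2 x3) := enc_neg (en161 h)

def t164 (b : Bx) : TM := tsqrt S (t162 b)
noncomputable def v164 (x1 x2 x3 : ℝ) : ℝ := Real.sqrt (v162 x1 x2 x3)
theorem en164 (h : In b E x1 x2 x3) : Enc S E (t164 b) (v164 x1 x2 x3) := enc_sqrt hS (en162 h)

def t165 (b : Bx) : TM := tadd (t70 b) (t164 b)
noncomputable def v165 (x1 x2 x3 : ℝ) : ℝ := v70 x1 x2 x3 + v164 x1 x2 x3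
theorem en165 (h : In b E x1 x2 x3) : Enc S E (t165 b) (v165 x1 x2 x3) := enc_add (en70 h) (en164 h)

def t166 (b : Bx) : TM := tinv S (t165 b)
noncomputable def v166 (x1 x2 x3 : ℝ) : ℝ := (v165 x1 x2 x3)⁻¹
theorem en166 (h : In b E x1 x2 x3) : Enc S E (t166 b) (v166 x1 x2 x3) := enc_inv hS (en165 h)

def t167 (b : Bx) : TM := tmul S (t163 b) (t166 b)
noncomputable def v167 (x1 x2 x3 : ℝ) : ℝ := v163 x1 x2 x3 * v166 x1 x2 x3
theorem en167 (h : In b E x1 x2 x3) : Enc S E (t167 b) (v167 x1 x2 x3) := enc_mul hS (en163 h) (en166 h)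

def t168 (b : Bx) : TM := tsub (t164 b) (t71 b)
noncomputable def v168 (x1 x2 x3 : ℝ) : ℝ := v164 x1 x2 x3 - v71 x1 x2 x3
theorem en168 (h : In b E x1 x2 x3) : Enc S E (t168 b) (v168 x1 x2 x3) := enc_sub (en164 h) (en71 h)

def t169 (b : Bx) : TM := tsub (t168 b) (t26 b)
noncomputable def v169 (x1 x2 x3 : ℝ) : ℝ := v168 x1 x2 x3 - v26 x1 x2 x3
theorem en169 (h : In b E x1 x2 x3) : Enc S E (t169 b) (v169 x1 x2 x3) := enc_sub (en168 h) (en26 h)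

def t170 (b : Bx) : TM := tadd (t169 b) (t22 b)
noncomputable def v170 (x1 x2 x3 : ℝ) : ℝ := v169 x1 x2 x3 + v22 x1 x2 x3
theorem en170 (h : In b E x1 x2 x3) : Enc S E (t170 b) (v170 x1 x2 x3) := enc_add (en169 h) (en22 h)

def t171 (b : Bx) : TM := tadd (t170 b) (t135 b)
noncomputable def v171 (x1 x2 x3 : ℝ) : ℝ := v170 x1 x2 x3 + v135 x1 x2 x3
theorem en171 (h : In b E x1 x2 x3) : Enc S E (t171 b) (v171 x1 x2 x3) := enc_add (en170 h) (en135 h)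

def t172 (b : Bx) : TM := tadd (t167 b) (t138 b)
noncomputable def v172 (x1 x2 x3 : ℝ) : ℝ := v167 x1 x2 x3 + v138 x1 x2 x3
theorem en172 (h : In b E x1 x2 x3) : Enc S E (t172 b) (v172 x1 x2 x3) := enc_add (en167 h) (en138 h)

def t173 (b : Bx) : TM := tadd (t171 b) (t8 b)
noncomputable def v173 (x1 x2 x3 : ℝ) : ℝ := v171 x1 x2 x3 + v8 x1 x2 x3
theorem en173 (h : In b E x1 x2 x3) : Enc S E (t173 b) (v173 x1 x2 x3) := enc_add (en171 h) (en8 h)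

def t174 (b : Bx) : TM := tsub (t142 b) (t31 b)
noncomputable def v174 (x1 x2 x3 : ℝ) : ℝ := v142 x1 x2 x3 - v31 x1 x2 x3
theorem en174 (h : In b E x1 x2 x3) : Enc S E (t174 b) (v174 x1 x2 x3) := enc_sub (en142 h) (en31 h)

def t175 (b : Bx) : TM := tsq S (t174 b)
noncomputable def v175 (x1 x2 x3 : ℝ) : ℝ := (v174 x1 x2 x3) ^ 2
theorem en175 (h : In b E x1 x2 x3) : Enc S E (t175 b) (v175 x1 x2 x3) := enc_sq hS (en174 h)

def t176 (b : Bx) : TM := tadd (t63 b) (t174 b)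
noncomputable def v176 (x1 x2 x3 : ℝ) : ℝ := v63 x1 x2 x3 + v174 x1 x2 x3
theorem en176 (h : In b E x1 x2 x3) : Enc S E (t176 b) (v176 x1 x2 x3) := enc_add (en63 h) (en174 h)

def t177 (b : Bx) : TM := tmul S (t143 b) (t176 b)
noncomputable def v177 (x1 x2 x3 : ℝ) : ℝ := v143 x1 x2 x3 * v176 x1 x2 x3
theorem en177 (h : In b E x1 x2 x3) : Enc S E (t177 b) (v177 x1 x2 x3) := enc_mul hS (en143 h) (en176 h)

def t178 (b : Bx) : TM := tsub (t8 b) (t175 b)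
noncomputable def v178 (x1 x2 x3 : ℝ) : ℝ := v8 x1 x2 x3 - v175 x1 x2 x3
theorem en178 (h : In b E x1 x2 x3) : Enc S E (t178 b) (v178 x1 x2 x3) := enc_sub (en8 h) (en175 h)

def t179 (b : Bx) : TM := tneg (t177 b)
noncomputable def v179 (x1 x2 x3 : ℝ) : ℝ := -(v177 x1 x2 x3)
theorem en179 (h : In b E x1 x2 x3) : Enc S E (t179 b) (v179 x1 x2 x3) := enc_neg (en177 h)

def t180 (b : Bx) : TM := tsqrt S (t178 b)
noncomputable def v180 (x1 x2 x3 : ℝ) : ℝ := Real.sqrt (v178 x1 x2 x3)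
theorem en180 (h : In b E x1 x2 x3) : Enc S E (t180 b) (v180 x1 x2 x3) := enc_sqrt hS (en178 h)

def t181 (b : Bx) : TM := tadd (t66 b) (t180 b)
noncomputable def v181 (x1 x2 x3 : ℝ) : ℝ := v66 x1 x2 x3 + v180 x1 x2 x3
theorem en181 (h : In b E x1 x2 x3) : Enc S E (t181 b) (v181 x1 x2 x3) := enc_add (en66 h) (en180 h)

def t182 (b : Bx) : TM := tinv S (t181 b)
noncomputable def v182 (x1 x2 x3 : ℝ) : ℝ := (v181 x1 x2 x3)⁻¹
theorem en182 (h : In b E x1 x2 x3) : Enc S E (t182 b) (v182 x1 x2 x3) := enc_inv hS (en181 h)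

def t183 (b : Bx) : TM := tmul S (t179 b) (t182 b)
noncomputable def v183 (x1 x2 x3 : ℝ) : ℝ := v179 x1 x2 x3 * v182 x1 x2 x3
theorem en183 (h : In b E x1 x2 x3) : Enc S E (t183 b) (v183 x1 x2 x3) := enc_mul hS (en179 h) (en182 h)

def t184 (b : Bx) : TM := tsub (t173 b) (t180 b)
noncomputable def v184 (x1 x2 x3 : ℝ) : ℝ := v173 x1 x2 x3 - v180 x1 x2 x3
theorem en184 (h : In b E x1 x2 x3) : Enc S E (t184 b) (v184 x1 x2 x3) := enc_sub (en173 h) (en180 h)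

def t185 (b : Bx) : TM := tsub (t172 b) (t183 b)
noncomputable def v185 (x1 x2 x3 : ℝ) : ℝ := v172 x1 x2 x3 - v183 x1 x2 x3
theorem en185 (h : In b E x1 x2 x3) : Enc S E (t185 b) (v185 x1 x2 x3) := enc_sub (en172 h) (en183 h)

def t186 (b : Bx) : TM := tadd (t156 b) (t184 b)
noncomputable def v186 (x1 x2 x3 : ℝ) : ℝ := v156 x1 x2 x3 + v184 x1 x2 x3
theorem en186 (h : In b E x1 x2 x3) : Enc S E (t186 b) (v186 x1 x2 x3) := enc_add (en156 h) (en184 h)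

def t187 (b : Bx) : TM := tadd (t157 b) (t185 b)
noncomputable def v187 (x1 x2 x3 : ℝ) : ℝ := v157 x1 x2 x3 + v185 x1 x2 x3
theorem en187 (h : In b E x1 x2 x3) : Enc S E (t187 b) (v187 x1 x2 x3) := enc_add (en157 h) (en185 h)

def t188 (b : Bx) : TM := tscale 9 5 (t186 b)
noncomputable def v188 (x1 x2 x3 : ℝ) : ℝ := ((9 : ℕ) : ℝ) / ((5 : ℕ) : ℝ) * v186 x1 x2 x3
theorem en188 (h : In b E x1 x2 x3) : Enc S E (t188 b) (v188 x1 x2 x3) := enc_scale 9 (by norm_num) (en186 h)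

def t189 (b : Bx) : TM := tscale 9 5 (t187 b)
noncomputable def v189 (x1 x2 x3 : ℝ) : ℝ := ((9 : ℕ) : ℝ) / ((5 : ℕ) : ℝ) * v187 x1 x2 x3
theorem en189 (h : In b E x1 x2 x3) : Enc S E (t189 b) (v189 x1 x2 x3) := enc_scale 9 (by norm_num) (en187 h)

def t190 (b : Bx) : TM := tadd (t113 b) (t188 b)
noncomputable def v190 (x1 x2 x3 : ℝ) : ℝ := v113 x1 x2 x3 + v188 x1 x2 x3
theorem en190 (h : In b E x1 x2 x3) : Enc S E (t190 b) (v190 x1 x2 x3) := enc_add (en113 h) (en188 h)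

def t191 (b : Bx) : TM := tadd (t111 b) (t189 b)
noncomputable def v191 (x1 x2 x3 : ℝ) : ℝ := v111 x1 x2 x3 + v189 x1 x2 x3
theorem en191 (h : In b E x1 x2 x3) : Enc S E (t191 b) (v191 x1 x2 x3) := enc_add (en111 h) (en189 h)

def t192 (b : Bx) : TM := tadd (t125 b) (t8 b)
noncomputable def v192 (x1 x2 x3 : ℝ) : ℝ := v125 x1 x2 x3 + v8 x1 x2 x3
theorem en192 (h : In b E x1 x2 x3) : Enc S E (t192 b) (v192 x1 x2 x3) := enc_add (en125 h) (en8 h)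

def t193 (b : Bx) : TM := tadd (t192 b) (t135 b)
noncomputable def v193 (x1 x2 x3 : ℝ) : ℝ := v192 x1 x2 x3 + v135 x1 x2 x3
theorem en193 (h : In b E x1 x2 x3) : Enc S E (t193 b) (v193 x1 x2 x3) := enc_add (en192 h) (en135 h)

def t194 (b : Bx) : TM := tsub (t193 b) (t150 b)
noncomputable def v194 (x1 x2 x3 : ℝ) : ℝ := v193 x1 x2 x3 - v150 x1 x2 x3
theorem en194 (h : In b E x1 x2 x3) : Enc S E (t194 b) (v194 x1 x2 x3) := enc_sub (en193 h) (en150 h)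

def t195 (b : Bx) : TM := tscale 1 2 (t135 b)
noncomputable def v195 (x1 x2 x3 : ℝ) : ℝ := ((1 : ℕ) : ℝ) / ((2 : ℕ) : ℝ) * v135 x1 x2 x3
theorem en195 (h : In b E x1 x2 x3) : Enc S E (t195 b) (v195 x1 x2 x3) := enc_scale 1 (by norm_num) (en135 h)

def t196 (b : Bx) : TM := tscale 1 2 (t138 b)
noncomputable def v196 (x1 x2 x3 : ℝ) : ℝ := ((1 : ℕ) : ℝ) / ((2 : ℕ) : ℝ) * v138 x1 x2 x3
theorem en196 (h : In b E x1 x2 x3) : Enc S E (t196 b) (v196 x1 x2 x3) := enc_scale 1 (by norm_num) (en138 h)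

def t197 (b : Bx) : TM := tmul S (t1 b) (t129 b)
noncomputable def v197 (x1 x2 x3 : ℝ) : ℝ := v1 x1 x2 x3 * v129 x1 x2 x3
theorem en197 (h : In b E x1 x2 x3) : Enc S E (t197 b) (v197 x1 x2 x3) := enc_mul hS (en1 h) (en129 h)

def t198 (b : Bx) : TM := tmul S (t1 b) (t8 b)
noncomputable def v198 (x1 x2 x3 : ℝ) : ℝ := v1 x1 x2 x3 * v8 x1 x2 x3
theorem en198 (h : In b E x1 x2 x3) : Enc S E (t198 b) (v198 x1 x2 x3) := enc_mul hS (en1 h) (en8 h)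

def t199 (b : Bx) : TM := tadd (t195 b) (t197 b)
noncomputable def v199 (x1 x2 x3 : ℝ) : ℝ := v195 x1 x2 x3 + v197 x1 x2 x3
theorem en199 (h : In b E x1 x2 x3) : Enc S E (t199 b) (v199 x1 x2 x3) := enc_add (en195 h) (en197 h)

def t200 (b : Bx) : TM := tadd (t196 b) (t198 b)
noncomputable def v200 (x1 x2 x3 : ℝ) : ℝ := v196 x1 x2 x3 + v198 x1 x2 x3
theorem en200 (h : In b E x1 x2 x3) : Enc S E (t200 b) (v200 x1 x2 x3) := enc_add (en196 h) (en198 h)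

def t201 (b : Bx) : TM := tadd (t199 b) (t22 b)
noncomputable def v201 (x1 x2 x3 : ℝ) : ℝ := v199 x1 x2 x3 + v22 x1 x2 x3
theorem en201 (h : In b E x1 x2 x3) : Enc S E (t201 b) (v201 x1 x2 x3) := enc_add (en199 h) (en22 h)

def t202 (b : Bx) : TM := tscale 1 2 (t129 b)
noncomputable def v202 (x1 x2 x3 : ℝ) : ℝ := ((1 : ℕ) : ℝ) / ((2 : ℕ) : ℝ) * v129 x1 x2 x3
theorem en202 (h : In b E x1 x2 x3) : Enc S E (t202 b) (v202 x1 x2 x3) := enc_scale 1 (by norm_num) (en129 h)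

def t203 (b : Bx) : TM := tscale 1 2 (t8 b)
noncomputable def v203 (x1 x2 x3 : ℝ) : ℝ := ((1 : ℕ) : ℝ) / ((2 : ℕ) : ℝ) * v8 x1 x2 x3
theorem en203 (h : In b E x1 x2 x3) : Enc S E (t203 b) (v203 x1 x2 x3) := enc_scale 1 (by norm_num) (en8 h)

def t204 (b : Bx) : TM := tmul S (t1 b) (t135 b)
noncomputable def v204 (x1 x2 x3 : ℝ) : ℝ := v1 x1 x2 x3 * v135 x1 x2 x3
theorem en204 (h : In b E x1 x2 x3) : Enc S E (t204 b) (v204 x1 x2 x3) := enc_mul hS (en1 h) (en135 h)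

def t205 (b : Bx) : TM := tmul S (t1 b) (t138 b)
noncomputable def v205 (x1 x2 x3 : ℝ) : ℝ := v1 x1 x2 x3 * v138 x1 x2 x3
theorem en205 (h : In b E x1 x2 x3) : Enc S E (t205 b) (v205 x1 x2 x3) := enc_mul hS (en1 h) (en138 h)

def t206 (b : Bx) : TM := tadd (t202 b) (t204 b)
noncomputable def v206 (x1 x2 x3 : ℝ) : ℝ := v202 x1 x2 x3 + v204 x1 x2 x3
theorem en206 (h : In b E x1 x2 x3) : Enc S E (t206 b) (v206 x1 x2 x3) := enc_add (en202 h) (en204 h)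

def t207 (b : Bx) : TM := tadd (t203 b) (t205 b)
noncomputable def v207 (x1 x2 x3 : ℝ) : ℝ := v203 x1 x2 x3 + v205 x1 x2 x3
theorem en207 (h : In b E x1 x2 x3) : Enc S E (t207 b) (v207 x1 x2 x3) := enc_add (en203 h) (en205 h)

def t208 (b : Bx) : TM := tadd (t99 b) (t206 b)
noncomputable def v208 (x1 x2 x3 : ℝ) : ℝ := v99 x1 x2 x3 + v206 x1 x2 x3
theorem en208 (h : In b E x1 x2 x3) : Enc S E (t208 b) (v208 x1 x2 x3) := enc_add (en99 h) (en206 h)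

def t209 (b : Bx) : TM := tadd (t100 b) (t207 b)
noncomputable def v209 (x1 x2 x3 : ℝ) : ℝ := v100 x1 x2 x3 + v207 x1 x2 x3
theorem en209 (h : In b E x1 x2 x3) : Enc S E (t209 b) (v209 x1 x2 x3) := enc_add (en100 h) (en207 h)

def t210 (b : Bx) : TM := tsub (t208 b) (t1 b)
noncomputable def v210 (x1 x2 x3 : ℝ) : ℝ := v208 x1 x2 x3 - v1 x1 x2 x3
theorem en210 (h : In b E x1 x2 x3) : Enc S E (t210 b) (v210 x1 x2 x3) := enc_sub (en208 h) (en1 h)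

def t211 (b : Bx) : TM := tsq S (t210 b)
noncomputable def v211 (x1 x2 x3 : ℝ) : ℝ := (v210 x1 x2 x3) ^ 2
theorem en211 (h : In b E x1 x2 x3) : Enc S E (t211 b) (v211 x1 x2 x3) := enc_sq hS (en210 h)

def t212 (b : Bx) : TM := tadd (t51 b) (t210 b)
noncomputable def v212 (x1 x2 x3 : ℝ) : ℝ := v51 x1 x2 x3 + v210 x1 x2 x3
theorem en212 (h : In b E x1 x2 x3) : Enc S E (t212 b) (v212 x1 x2 x3) := enc_add (en51 h) (en210 h)

def t213 (b : Bx) : TM := tmul S (t209 b) (t212 b)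
noncomputable def v213 (x1 x2 x3 : ℝ) : ℝ := v209 x1 x2 x3 * v212 x1 x2 x3
theorem en213 (h : In b E x1 x2 x3) : Enc S E (t213 b) (v213 x1 x2 x3) := enc_mul hS (en209 h) (en212 h)

def t214 (b : Bx) : TM := tsub (t8 b) (t211 b)
noncomputable def v214 (x1 x2 x3 : ℝ) : ℝ := v8 x1 x2 x3 - v211 x1 x2 x3
theorem en214 (h : In b E x1 x2 x3) : Enc S E (t214 b) (v214 x1 x2 x3) := enc_sub (en8 h) (en211 h)

def t215 (b : Bx) : TM := tneg (t213 b)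
noncomputable def v215 (x1 x2 x3 : ℝ) : ℝ := -(v213 x1 x2 x3)
theorem en215 (h : In b E x1 x2 x3) : Enc S E (t215 b) (v215 x1 x2 x3) := enc_neg (en213 h)

def t216 (b : Bx) : TM := tsqrt S (t214 b)
noncomputable def v216 (x1 x2 x3 : ℝ) : ℝ := Real.sqrt (v214 x1 x2 x3)
theorem en216 (h : In b E x1 x2 x3) : Enc S E (t216 b) (v216 x1 x2 x3) := enc_sqrt hS (en214 h)

def t217 (b : Bx) : TM := tadd (t54 b) (t216 b)
noncomputable def v217 (x1 x2 x3 : ℝ) : ℝ := v54 x1 x2 x3 + v216 x1 x2 x3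
theorem en217 (h : In b E x1 x2 x3) : Enc S E (t217 b) (v217 x1 x2 x3) := enc_add (en54 h) (en216 h)

def t218 (b : Bx) : TM := tinv S (t217 b)
noncomputable def v218 (x1 x2 x3 : ℝ) : ℝ := (v217 x1 x2 x3)⁻¹
theorem en218 (h : In b E x1 x2 x3) : Enc S E (t218 b) (v218 x1 x2 x3) := enc_inv hS (en217 h)

def t219 (b : Bx) : TM := tmul S (t215 b) (t218 b)
noncomputable def v219 (x1 x2 x3 : ℝ) : ℝ := v215 x1 x2 x3 * v218 x1 x2 x3
theorem en219 (h : In b E x1 x2 x3) : Enc S E (t219 b) (v219 x1 x2 x3) := enc_mul hS (en215 h) (en218 h)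

def t220 (b : Bx) : TM := tsub (t201 b) (t216 b)
noncomputable def v220 (x1 x2 x3 : ℝ) : ℝ := v201 x1 x2 x3 - v216 x1 x2 x3
theorem en220 (h : In b E x1 x2 x3) : Enc S E (t220 b) (v220 x1 x2 x3) := enc_sub (en201 h) (en216 h)

def t221 (b : Bx) : TM := tsub (t200 b) (t219 b)
noncomputable def v221 (x1 x2 x3 : ℝ) : ℝ := v200 x1 x2 x3 - v219 x1 x2 x3
theorem en221 (h : In b E x1 x2 x3) : Enc S E (t221 b) (v221 x1 x2 x3) := enc_sub (en200 h) (en219 h)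

def t222 (b : Bx) : TM := tsub (t32 b) (t142 b)
noncomputable def v222 (x1 x2 x3 : ℝ) : ℝ := v32 x1 x2 x3 - v142 x1 x2 x3
theorem en222 (h : In b E x1 x2 x3) : Enc S E (t222 b) (v222 x1 x2 x3) := enc_sub (en32 h) (en142 h)

def t223 (b : Bx) : TM := tneg (t143 b)
noncomputable def v223 (x1 x2 x3 : ℝ) : ℝ := -(v143 x1 x2 x3)
theorem en223 (h : In b E x1 x2 x3) : Enc S E (t223 b) (v223 x1 x2 x3) := enc_neg (en143 h)

def t224 (b : Bx) : TM := tsq S (t222 b)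
noncomputable def v224 (x1 x2 x3 : ℝ) : ℝ := (v222 x1 x2 x3) ^ 2
theorem en224 (h : In b E x1 x2 x3) : Enc S E (t224 b) (v224 x1 x2 x3) := enc_sq hS (en222 h)

def t225 (b : Bx) : TM := tadd (t83 b) (t222 b)
noncomputable def v225 (x1 x2 x3 : ℝ) : ℝ := v83 x1 x2 x3 + v222 x1 x2 x3
theorem en225 (h : In b E x1 x2 x3) : Enc S E (t225 b) (v225 x1 x2 x3) := enc_add (en83 h) (en222 h)

def t226 (b : Bx) : TM := tmul S (t223 b) (t225 b)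
noncomputable def v226 (x1 x2 x3 : ℝ) : ℝ := v223 x1 x2 x3 * v225 x1 x2 x3
theorem en226 (h : In b E x1 x2 x3) : Enc S E (t226 b) (v226 x1 x2 x3) := enc_mul hS (en223 h) (en225 h)

def t227 (b : Bx) : TM := tsub (t8 b) (t224 b)
noncomputable def v227 (x1 x2 x3 : ℝ) : ℝ := v8 x1 x2 x3 - v224 x1 x2 x3
theorem en227 (h : In b E x1 x2 x3) : Enc S E (t227 b) (v227 x1 x2 x3) := enc_sub (en8 h) (en224 h)

def t228 (b : Bx) : TM := tneg (t226 b)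
noncomputable def v228 (x1 x2 x3 : ℝ) : ℝ := -(v226 x1 x2 x3)
theorem en228 (h : In b E x1 x2 x3) : Enc S E (t228 b) (v228 x1 x2 x3) := enc_neg (en226 h)

def t229 (b : Bx) : TM := tsqrt S (t227 b)
noncomputable def v229 (x1 x2 x3 : ℝ) : ℝ := Real.sqrt (v227 x1 x2 x3)
theorem en229 (h : In b E x1 x2 x3) : Enc S E (t229 b) (v229 x1 x2 x3) := enc_sqrt hS (en227 h)

def t230 (b : Bx) : TM := tadd (t86 b) (t229 b)
noncomputable def v230 (x1 x2 x3 : ℝ) : ℝ := v86 x1 x2 x3 + v229 x1 x2 x3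
theorem en230 (h : In b E x1 x2 x3) : Enc S E (t230 b) (v230 x1 x2 x3) := enc_add (en86 h) (en229 h)

def t231 (b : Bx) : TM := tinv S (t230 b)
noncomputable def v231 (x1 x2 x3 : ℝ) : ℝ := (v230 x1 x2 x3)⁻¹
theorem en231 (h : In b E x1 x2 x3) : Enc S E (t231 b) (v231 x1 x2 x3) := enc_inv hS (en230 h)

def t232 (b : Bx) : TM := tmul S (t228 b) (t231 b)
noncomputable def v232 (x1 x2 x3 : ℝ) : ℝ := v228 x1 x2 x3 * v231 x1 x2 x3
theorem en232 (h : In b E x1 x2 x3) : Enc S E (t232 b) (v232 x1 x2 x3) := enc_mul hS (en228 h) (en231 h)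

def t233 (b : Bx) : TM := tsub (t220 b) (t229 b)
noncomputable def v233 (x1 x2 x3 : ℝ) : ℝ := v220 x1 x2 x3 - v229 x1 x2 x3
theorem en233 (h : In b E x1 x2 x3) : Enc S E (t233 b) (v233 x1 x2 x3) := enc_sub (en220 h) (en229 h)

def t234 (b : Bx) : TM := tsub (t221 b) (t232 b)
noncomputable def v234 (x1 x2 x3 : ℝ) : ℝ := v221 x1 x2 x3 - v232 x1 x2 x3
theorem en234 (h : In b E x1 x2 x3) : Enc S E (t234 b) (v234 x1 x2 x3) := enc_sub (en221 h) (en232 h)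

def t235 (b : Bx) : TM := tadd (t194 b) (t233 b)
noncomputable def v235 (x1 x2 x3 : ℝ) : ℝ := v194 x1 x2 x3 + v233 x1 x2 x3
theorem en235 (h : In b E x1 x2 x3) : Enc S E (t235 b) (v235 x1 x2 x3) := enc_add (en194 h) (en233 h)

def t236 (b : Bx) : TM := tadd (t157 b) (t234 b)
noncomputable def v236 (x1 x2 x3 : ℝ) : ℝ := v157 x1 x2 x3 + v234 x1 x2 x3
theorem en236 (h : In b E x1 x2 x3) : Enc S E (t236 b) (v236 x1 x2 x3) := enc_add (en157 h) (en234 h)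

def t237 (b : Bx) : TM := tscale 1 5 (t235 b)
noncomputable def v237 (x1 x2 x3 : ℝ) : ℝ := ((1 : ℕ) : ℝ) / ((5 : ℕ) : ℝ) * v235 x1 x2 x3
theorem en237 (h : In b E x1 x2 x3) : Enc S E (t237 b) (v237 x1 x2 x3) := enc_scale 1 (by norm_num) (en235 h)

def t238 (b : Bx) : TM := tscale 1 5 (t236 b)
noncomputable def v238 (x1 x2 x3 : ℝ) : ℝ := ((1 : ℕ) : ℝ) / ((5 : ℕ) : ℝ) * v236 x1 x2 x3
theorem en238 (h : In b E x1 x2 x3) : Enc S E (t238 b) (v238 x1 x2 x3) := enc_scale 1 (by norm_num) (en236 h)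

def t239 (b : Bx) : TM := tadd (t190 b) (t237 b)
noncomputable def v239 (x1 x2 x3 : ℝ) : ℝ := v190 x1 x2 x3 + v237 x1 x2 x3
theorem en239 (h : In b E x1 x2 x3) : Enc S E (t239 b) (v239 x1 x2 x3) := enc_add (en190 h) (en237 h)

def t240 (b : Bx) : TM := tadd (t191 b) (t238 b)
noncomputable def v240 (x1 x2 x3 : ℝ) : ℝ := v191 x1 x2 x3 + v238 x1 x2 x3
theorem en240 (h : In b E x1 x2 x3) : Enc S E (t240 b) (v240 x1 x2 x3) := enc_add (en191 h) (en238 h)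

def t241 (b : Bx) : TM := tsub (t128 b) (t98 b)
noncomputable def v241 (x1 x2 x3 : ℝ) : ℝ := v128 x1 x2 x3 - v98 x1 x2 x3
theorem en241 (h : In b E x1 x2 x3) : Enc S E (t241 b) (v241 x1 x2 x3) := enc_sub (en128 h) (en98 h)

def t242 (b : Bx) : TM := tsq S (t241 b)
noncomputable def v242 (x1 x2 x3 : ℝ) : ℝ := (v241 x1 x2 x3) ^ 2
theorem en242 (h : In b E x1 x2 x3) : Enc S E (t242 b) (v242 x1 x2 x3) := enc_sq hS (en241 h)

def t243 (b : Bx) : TM := tadd (t129 b) (t241 b)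
noncomputable def v243 (x1 x2 x3 : ℝ) : ℝ := v129 x1 x2 x3 + v241 x1 x2 x3
theorem en243 (h : In b E x1 x2 x3) : Enc S E (t243 b) (v243 x1 x2 x3) := enc_add (en129 h) (en241 h)

def t244 (b : Bx) : TM := tmul S (t100 b) (t243 b)
noncomputable def v244 (x1 x2 x3 : ℝ) : ℝ := v100 x1 x2 x3 * v243 x1 x2 x3
theorem en244 (h : In b E x1 x2 x3) : Enc S E (t244 b) (v244 x1 x2 x3) := enc_mul hS (en100 h) (en243 h)

def t245 (b : Bx) : TM := tsub (t8 b) (t242 b)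
noncomputable def v245 (x1 x2 x3 : ℝ) : ℝ := v8 x1 x2 x3 - v242 x1 x2 x3
theorem en245 (h : In b E x1 x2 x3) : Enc S E (t245 b) (v245 x1 x2 x3) := enc_sub (en8 h) (en242 h)

def t246 (b : Bx) : TM := tneg (t244 b)
noncomputable def v246 (x1 x2 x3 : ℝ) : ℝ := -(v244 x1 x2 x3)
theorem en246 (h : In b E x1 x2 x3) : Enc S E (t246 b) (v246 x1 x2 x3) := enc_neg (en244 h)

def t247 (b : Bx) : TM := tsqrt S (t245 b)
noncomputable def v247 (x1 x2 x3 : ℝ) : ℝ := Real.sqrt (v245 x1 x2 x3)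
theorem en247 (h : In b E x1 x2 x3) : Enc S E (t247 b) (v247 x1 x2 x3) := enc_sqrt hS (en245 h)

def t248 (b : Bx) : TM := tadd (t135 b) (t247 b)
noncomputable def v248 (x1 x2 x3 : ℝ) : ℝ := v135 x1 x2 x3 + v247 x1 x2 x3
theorem en248 (h : In b E x1 x2 x3) : Enc S E (t248 b) (v248 x1 x2 x3) := enc_add (en135 h) (en247 h)

def t249 (b : Bx) : TM := tinv S (t248 b)
noncomputable def v249 (x1 x2 x3 : ℝ) : ℝ := (v248 x1 x2 x3)⁻¹
theorem en249 (h : In b E x1 x2 x3) : Enc S E (t249 b) (v249 x1 x2 x3) := enc_inv hS (en248 h)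

def t250 (b : Bx) : TM := tmul S (t246 b) (t249 b)
noncomputable def v250 (x1 x2 x3 : ℝ) : ℝ := v246 x1 x2 x3 * v249 x1 x2 x3
theorem en250 (h : In b E x1 x2 x3) : Enc S E (t250 b) (v250 x1 x2 x3) := enc_mul hS (en246 h) (en249 h)

def t251 (b : Bx) : TM := tadd (t127 b) (t247 b)
noncomputable def v251 (x1 x2 x3 : ℝ) : ℝ := v127 x1 x2 x3 + v247 x1 x2 x3
theorem en251 (h : In b E x1 x2 x3) : Enc S E (t251 b) (v251 x1 x2 x3) := enc_add (en127 h) (en247 h)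

def t252 (b : Bx) : TM := tadd (t251 b) (t8 b)
noncomputable def v252 (x1 x2 x3 : ℝ) : ℝ := v251 x1 x2 x3 + v8 x1 x2 x3
theorem en252 (h : In b E x1 x2 x3) : Enc S E (t252 b) (v252 x1 x2 x3) := enc_add (en251 h) (en8 h)

def t253 (b : Bx) : TM := tadd (t99 b) (t241 b)
noncomputable def v253 (x1 x2 x3 : ℝ) : ℝ := v99 x1 x2 x3 + v241 x1 x2 x3
theorem en253 (h : In b E x1 x2 x3) : Enc S E (t253 b) (v253 x1 x2 x3) := enc_add (en99 h) (en241 h)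

def t254 (b : Bx) : TM := tsub (t253 b) (t1 b)
noncomputable def v254 (x1 x2 x3 : ℝ) : ℝ := v253 x1 x2 x3 - v1 x1 x2 x3
theorem en254 (h : In b E x1 x2 x3) : Enc S E (t254 b) (v254 x1 x2 x3) := enc_sub (en253 h) (en1 h)

def t255 (b : Bx) : TM := tsq S (t254 b)
noncomputable def v255 (x1 x2 x3 : ℝ) : ℝ := (v254 x1 x2 x3) ^ 2
theorem en255 (h : In b E x1 x2 x3) : Enc S E (t255 b) (v255 x1 x2 x3) := enc_sq hS (en254 h)

def t256 (b : Bx) : TM := tadd (t144 b) (t254 b)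
noncomputable def v256 (x1 x2 x3 : ℝ) : ℝ := v144 x1 x2 x3 + v254 x1 x2 x3
theorem en256 (h : In b E x1 x2 x3) : Enc S E (t256 b) (v256 x1 x2 x3) := enc_add (en144 h) (en254 h)

def t257 (b : Bx) : TM := tmul S (t100 b) (t256 b)
noncomputable def v257 (x1 x2 x3 : ℝ) : ℝ := v100 x1 x2 x3 * v256 x1 x2 x3
theorem en257 (h : In b E x1 x2 x3) : Enc S E (t257 b) (v257 x1 x2 x3) := enc_mul hS (en100 h) (en256 h)

def t258 (b : Bx) : TM := tsub (t8 b) (t255 b)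
noncomputable def v258 (x1 x2 x3 : ℝ) : ℝ := v8 x1 x2 x3 - v255 x1 x2 x3
theorem en258 (h : In b E x1 x2 x3) : Enc S E (t258 b) (v258 x1 x2 x3) := enc_sub (en8 h) (en255 h)

def t259 (b : Bx) : TM := tneg (t257 b)
noncomputable def v259 (x1 x2 x3 : ℝ) : ℝ := -(v257 x1 x2 x3)
theorem en259 (h : In b E x1 x2 x3) : Enc S E (t259 b) (v259 x1 x2 x3) := enc_neg (en257 h)

def t260 (b : Bx) : TM := tsqrt S (t258 b)
noncomputable def v260 (x1 x2 x3 : ℝ) : ℝ := Real.sqrt (v258 x1 x2 x3)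
theorem en260 (h : In b E x1 x2 x3) : Enc S E (t260 b) (v260 x1 x2 x3) := enc_sqrt hS (en258 h)

def t261 (b : Bx) : TM := tadd (t150 b) (t260 b)
noncomputable def v261 (x1 x2 x3 : ℝ) : ℝ := v150 x1 x2 x3 + v260 x1 x2 x3
theorem en261 (h : In b E x1 x2 x3) : Enc S E (t261 b) (v261 x1 x2 x3) := enc_add (en150 h) (en260 h)

def t262 (b : Bx) : TM := tinv S (t261 b)
noncomputable def v262 (x1 x2 x3 : ℝ) : ℝ := (v261 x1 x2 x3)⁻¹
theorem en262 (h : In b E x1 x2 x3) : Enc S E (t262 b) (v262 x1 x2 x3) := enc_inv hS (en261 h)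

def t263 (b : Bx) : TM := tmul S (t259 b) (t262 b)
noncomputable def v263 (x1 x2 x3 : ℝ) : ℝ := v259 x1 x2 x3 * v262 x1 x2 x3
theorem en263 (h : In b E x1 x2 x3) : Enc S E (t263 b) (v263 x1 x2 x3) := enc_mul hS (en259 h) (en262 h)

def t264 (b : Bx) : TM := tadd (t260 b) (t8 b)
noncomputable def v264 (x1 x2 x3 : ℝ) : ℝ := v260 x1 x2 x3 + v8 x1 x2 x3
theorem en264 (h : In b E x1 x2 x3) : Enc S E (t264 b) (v264 x1 x2 x3) := enc_add (en260 h) (en8 h)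

def t265 (b : Bx) : TM := tsub (t264 b) (t26 b)
noncomputable def v265 (x1 x2 x3 : ℝ) : ℝ := v264 x1 x2 x3 - v26 x1 x2 x3
theorem en265 (h : In b E x1 x2 x3) : Enc S E (t265 b) (v265 x1 x2 x3) := enc_sub (en264 h) (en26 h)

def t266 (b : Bx) : TM := tsub (t252 b) (t265 b)
noncomputable def v266 (x1 x2 x3 : ℝ) : ℝ := v252 x1 x2 x3 - v265 x1 x2 x3
theorem en266 (h : In b E x1 x2 x3) : Enc S E (t266 b) (v266 x1 x2 x3) := enc_sub (en252 h) (en265 h)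

def t267 (b : Bx) : TM := tsub (t250 b) (t263 b)
noncomputable def v267 (x1 x2 x3 : ℝ) : ℝ := v250 x1 x2 x3 - v263 x1 x2 x3
theorem en267 (h : In b E x1 x2 x3) : Enc S E (t267 b) (v267 x1 x2 x3) := enc_sub (en250 h) (en263 h)

def t268 (b : Bx) : TM := tadd (t170 b) (t247 b)
noncomputable def v268 (x1 x2 x3 : ℝ) : ℝ := v170 x1 x2 x3 + v247 x1 x2 x3
theorem en268 (h : In b E x1 x2 x3) : Enc S E (t268 b) (v268 x1 x2 x3) := enc_add (en170 h) (en247 h)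

def t269 (b : Bx) : TM := tadd (t268 b) (t8 b)
noncomputable def v269 (x1 x2 x3 : ℝ) : ℝ := v268 x1 x2 x3 + v8 x1 x2 x3
theorem en269 (h : In b E x1 x2 x3) : Enc S E (t269 b) (v269 x1 x2 x3) := enc_add (en268 h) (en8 h)

def t270 (b : Bx) : TM := tsub (t253 b) (t31 b)
noncomputable def v270 (x1 x2 x3 : ℝ) : ℝ := v253 x1 x2 x3 - v31 x1 x2 x3
theorem en270 (h : In b E x1 x2 x3) : Enc S E (t270 b) (v270 x1 x2 x3) := enc_sub (en253 h) (en31 h)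

def t271 (b : Bx) : TM := tsq S (t270 b)
noncomputable def v271 (x1 x2 x3 : ℝ) : ℝ := (v270 x1 x2 x3) ^ 2
theorem en271 (h : In b E x1 x2 x3) : Enc S E (t271 b) (v271 x1 x2 x3) := enc_sq hS (en270 h)

def t272 (b : Bx) : TM := tadd (t174 b) (t270 b)
noncomputable def v272 (x1 x2 x3 : ℝ) : ℝ := v174 x1 x2 x3 + v270 x1 x2 x3
theorem en272 (h : In b E x1 x2 x3) : Enc S E (t272 b) (v272 x1 x2 x3) := enc_add (en174 h) (en270 h)

def t273 (b : Bx) : TM := tmul S (t100 b) (t272 b)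
noncomputable def v273 (x1 x2 x3 : ℝ) : ℝ := v100 x1 x2 x3 * v272 x1 x2 x3
theorem en273 (h : In b E x1 x2 x3) : Enc S E (t273 b) (v273 x1 x2 x3) := enc_mul hS (en100 h) (en272 h)

def t274 (b : Bx) : TM := tsub (t8 b) (t271 b)
noncomputable def v274 (x1 x2 x3 : ℝ) : ℝ := v8 x1 x2 x3 - v271 x1 x2 x3
theorem en274 (h : In b E x1 x2 x3) : Enc S E (t274 b) (v274 x1 x2 x3) := enc_sub (en8 h) (en271 h)

def t275 (b : Bx) : TM := tneg (t273 b)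
noncomputable def v275 (x1 x2 x3 : ℝ) : ℝ := -(v273 x1 x2 x3)
theorem en275 (h : In b E x1 x2 x3) : Enc S E (t275 b) (v275 x1 x2 x3) := enc_neg (en273 h)

def t276 (b : Bx) : TM := tsqrt S (t274 b)
noncomputable def v276 (x1 x2 x3 : ℝ) : ℝ := Real.sqrt (v274 x1 x2 x3)
theorem en276 (h : In b E x1 x2 x3) : Enc S E (t276 b) (v276 x1 x2 x3) := enc_sqrt hS (en274 h)

def t277 (b : Bx) : TM := tadd (t180 b) (t276 b)
noncomputable def v277 (x1 x2 x3 : ℝ) : ℝ := v180 x1 x2 x3 + v276 x1 x2 x3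
theorem en277 (h : In b E x1 x2 x3) : Enc S E (t277 b) (v277 x1 x2 x3) := enc_add (en180 h) (en276 h)

def t278 (b : Bx) : TM := tinv S (t277 b)
noncomputable def v278 (x1 x2 x3 : ℝ) : ℝ := (v277 x1 x2 x3)⁻¹
theorem en278 (h : In b E x1 x2 x3) : Enc S E (t278 b) (v278 x1 x2 x3) := enc_inv hS (en277 h)

def t279 (b : Bx) : TM := tmul S (t275 b) (t278 b)
noncomputable def v279 (x1 x2 x3 : ℝ) : ℝ := v275 x1 x2 x3 * v278 x1 x2 x3
theorem en279 (h : In b E x1 x2 x3) : Enc S E (t279 b) (v279 x1 x2 x3) := enc_mul hS (en275 h) (en278 h)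

def t280 (b : Bx) : TM := tsub (t269 b) (t276 b)
noncomputable def v280 (x1 x2 x3 : ℝ) : ℝ := v269 x1 x2 x3 - v276 x1 x2 x3
theorem en280 (h : In b E x1 x2 x3) : Enc S E (t280 b) (v280 x1 x2 x3) := enc_sub (en269 h) (en276 h)

def t281 (b : Bx) : TM := tsub (t250 b) (t279 b)
noncomputable def v281 (x1 x2 x3 : ℝ) : ℝ := v250 x1 x2 x3 - v279 x1 x2 x3
theorem en281 (h : In b E x1 x2 x3) : Enc S E (t281 b) (v281 x1 x2 x3) := enc_sub (en250 h) (en279 h)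

def t282 (b : Bx) : TM := tadd (t266 b) (t280 b)
noncomputable def v282 (x1 x2 x3 : ℝ) : ℝ := v266 x1 x2 x3 + v280 x1 x2 x3
theorem en282 (h : In b E x1 x2 x3) : Enc S E (t282 b) (v282 x1 x2 x3) := enc_add (en266 h) (en280 h)

def t283 (b : Bx) : TM := tadd (t267 b) (t281 b)
noncomputable def v283 (x1 x2 x3 : ℝ) : ℝ := v267 x1 x2 x3 + v281 x1 x2 x3
theorem en283 (h : In b E x1 x2 x3) : Enc S E (t283 b) (v283 x1 x2 x3) := enc_add (en267 h) (en281 h)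

def t284 (b : Bx) : TM := tscale 9 5 (t282 b)
noncomputable def v284 (x1 x2 x3 : ℝ) : ℝ := ((9 : ℕ) : ℝ) / ((5 : ℕ) : ℝ) * v282 x1 x2 x3
theorem en284 (h : In b E x1 x2 x3) : Enc S E (t284 b) (v284 x1 x2 x3) := enc_scale 9 (by norm_num) (en282 h)

def t285 (b : Bx) : TM := tscale 9 5 (t283 b)
noncomputable def v285 (x1 x2 x3 : ℝ) : ℝ := ((9 : ℕ) : ℝ) / ((5 : ℕ) : ℝ) * v283 x1 x2 x3
theorem en285 (h : In b E x1 x2 x3) : Enc S E (t285 b) (v285 x1 x2 x3) := enc_scale 9 (by norm_num) (en283 h)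

def t286 (b : Bx) : TM := tadd (t113 b) (t284 b)
noncomputable def v286 (x1 x2 x3 : ℝ) : ℝ := v113 x1 x2 x3 + v284 x1 x2 x3
theorem en286 (h : In b E x1 x2 x3) : Enc S E (t286 b) (v286 x1 x2 x3) := enc_add (en113 h) (en284 h)

def t287 (b : Bx) : TM := tadd (t192 b) (t247 b)
noncomputable def v287 (x1 x2 x3 : ℝ) : ℝ := v192 x1 x2 x3 + v247 x1 x2 x3
theorem en287 (h : In b E x1 x2 x3) : Enc S E (t287 b) (v287 x1 x2 x3) := enc_add (en192 h) (en247 h)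

def t288 (b : Bx) : TM := tsub (t287 b) (t260 b)
noncomputable def v288 (x1 x2 x3 : ℝ) : ℝ := v287 x1 x2 x3 - v260 x1 x2 x3
theorem en288 (h : In b E x1 x2 x3) : Enc S E (t288 b) (v288 x1 x2 x3) := enc_sub (en287 h) (en260 h)

def t289 (b : Bx) : TM := tscale 1 2 (t247 b)
noncomputable def v289 (x1 x2 x3 : ℝ) : ℝ := ((1 : ℕ) : ℝ) / ((2 : ℕ) : ℝ) * v247 x1 x2 x3
theorem en289 (h : In b E x1 x2 x3) : Enc S E (t289 b) (v289 x1 x2 x3) := enc_scale 1 (by norm_num) (en247 h)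

def t290 (b : Bx) : TM := tscale 1 2 (t250 b)
noncomputable def v290 (x1 x2 x3 : ℝ) : ℝ := ((1 : ℕ) : ℝ) / ((2 : ℕ) : ℝ) * v250 x1 x2 x3
theorem en290 (h : In b E x1 x2 x3) : Enc S E (t290 b) (v290 x1 x2 x3) := enc_scale 1 (by norm_num) (en250 h)

def t291 (b : Bx) : TM := tmul S (t1 b) (t241 b)
noncomputable def v291 (x1 x2 x3 : ℝ) : ℝ := v1 x1 x2 x3 * v241 x1 x2 x3
theorem en291 (h : In b E x1 x2 x3) : Enc S E (t291 b) (v291 x1 x2 x3) := enc_mul hS (en1 h) (en241 h)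

def t292 (b : Bx) : TM := tmul S (t1 b) (t100 b)
noncomputable def v292 (x1 x2 x3 : ℝ) : ℝ := v1 x1 x2 x3 * v100 x1 x2 x3
theorem en292 (h : In b E x1 x2 x3) : Enc S E (t292 b) (v292 x1 x2 x3) := enc_mul hS (en1 h) (en100 h)

def t293 (b : Bx) : TM := tadd (t289 b) (t291 b)
noncomputable def v293 (x1 x2 x3 : ℝ) : ℝ := v289 x1 x2 x3 + v291 x1 x2 x3
theorem en293 (h : In b E x1 x2 x3) : Enc S E (t293 b) (v293 x1 x2 x3) := enc_add (en289 h) (en291 h)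

def t294 (b : Bx) : TM := tadd (t290 b) (t292 b)
noncomputable def v294 (x1 x2 x3 : ℝ) : ℝ := v290 x1 x2 x3 + v292 x1 x2 x3
theorem en294 (h : In b E x1 x2 x3) : Enc S E (t294 b) (v294 x1 x2 x3) := enc_add (en290 h) (en292 h)

def t295 (b : Bx) : TM := tadd (t293 b) (t22 b)
noncomputable def v295 (x1 x2 x3 : ℝ) : ℝ := v293 x1 x2 x3 + v22 x1 x2 x3
theorem en295 (h : In b E x1 x2 x3) : Enc S E (t295 b) (v295 x1 x2 x3) := enc_add (en293 h) (en22 h)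

def t296 (b : Bx) : TM := tscale 1 2 (t241 b)
noncomputable def v296 (x1 x2 x3 : ℝ) : ℝ := ((1 : ℕ) : ℝ) / ((2 : ℕ) : ℝ) * v241 x1 x2 x3
theorem en296 (h : In b E x1 x2 x3) : Enc S E (t296 b) (v296 x1 x2 x3) := enc_scale 1 (by norm_num) (en241 h)

def t297 (b : Bx) : TM := tscale 1 2 (t100 b)
noncomputable def v297 (x1 x2 x3 : ℝ) : ℝ := ((1 : ℕ) : ℝ) / ((2 : ℕ) : ℝ) * v100 x1 x2 x3
theorem en297 (h : In b E x1 x2 x3) : Enc S E (t297 b) (v297 x1 x2 x3) := enc_scale 1 (by norm_num) (en100 h)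

def t298 (b : Bx) : TM := tmul S (t1 b) (t247 b)
noncomputable def v298 (x1 x2 x3 : ℝ) : ℝ := v1 x1 x2 x3 * v247 x1 x2 x3
theorem en298 (h : In b E x1 x2 x3) : Enc S E (t298 b) (v298 x1 x2 x3) := enc_mul hS (en1 h) (en247 h)

def t299 (b : Bx) : TM := tmul S (t1 b) (t250 b)
noncomputable def v299 (x1 x2 x3 : ℝ) : ℝ := v1 x1 x2 x3 * v250 x1 x2 x3
theorem en299 (h : In b E x1 x2 x3) : Enc S E (t299 b) (v299 x1 x2 x3) := enc_mul hS (en1 h) (en250 h)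

def t300 (b : Bx) : TM := tadd (t296 b) (t298 b)
noncomputable def v300 (x1 x2 x3 : ℝ) : ℝ := v296 x1 x2 x3 + v298 x1 x2 x3
theorem en300 (h : In b E x1 x2 x3) : Enc S E (t300 b) (v300 x1 x2 x3) := enc_add (en296 h) (en298 h)

def t301 (b : Bx) : TM := tadd (t297 b) (t299 b)
noncomputable def v301 (x1 x2 x3 : ℝ) : ℝ := v297 x1 x2 x3 + v299 x1 x2 x3
theorem en301 (h : In b E x1 x2 x3) : Enc S E (t301 b) (v301 x1 x2 x3) := enc_add (en297 h) (en299 h)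

def t302 (b : Bx) : TM := tadd (t99 b) (t300 b)
noncomputable def v302 (x1 x2 x3 : ℝ) : ℝ := v99 x1 x2 x3 + v300 x1 x2 x3
theorem en302 (h : In b E x1 x2 x3) : Enc S E (t302 b) (v302 x1 x2 x3) := enc_add (en99 h) (en300 h)

def t303 (b : Bx) : TM := tsub (t302 b) (t1 b)
noncomputable def v303 (x1 x2 x3 : ℝ) : ℝ := v302 x1 x2 x3 - v1 x1 x2 x3
theorem en303 (h : In b E x1 x2 x3) : Enc S E (t303 b) (v303 x1 x2 x3) := enc_sub (en302 h) (en1 h)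

def t304 (b : Bx) : TM := tsq S (t303 b)
noncomputable def v304 (x1 x2 x3 : ℝ) : ℝ := (v303 x1 x2 x3) ^ 2
theorem en304 (h : In b E x1 x2 x3) : Enc S E (t304 b) (v304 x1 x2 x3) := enc_sq hS (en303 h)

def t305 (b : Bx) : TM := tadd (t210 b) (t303 b)
noncomputable def v305 (x1 x2 x3 : ℝ) : ℝ := v210 x1 x2 x3 + v303 x1 x2 x3
theorem en305 (h : In b E x1 x2 x3) : Enc S E (t305 b) (v305 x1 x2 x3) := enc_add (en210 h) (en303 h)

def t306 (b : Bx) : TM := tmul S (t301 b) (t305 b)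
noncomputable def v306 (x1 x2 x3 : ℝ) : ℝ := v301 x1 x2 x3 * v305 x1 x2 x3
theorem en306 (h : In b E x1 x2 x3) : Enc S E (t306 b) (v306 x1 x2 x3) := enc_mul hS (en301 h) (en305 h)

def t307 (b : Bx) : TM := tsub (t8 b) (t304 b)
noncomputable def v307 (x1 x2 x3 : ℝ) : ℝ := v8 x1 x2 x3 - v304 x1 x2 x3
theorem en307 (h : In b E x1 x2 x3) : Enc S E (t307 b) (v307 x1 x2 x3) := enc_sub (en8 h) (en304 h)

def t308 (b : Bx) : TM := tneg (t306 b)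
noncomputable def v308 (x1 x2 x3 : ℝ) : ℝ := -(v306 x1 x2 x3)
theorem en308 (h : In b E x1 x2 x3) : Enc S E (t308 b) (v308 x1 x2 x3) := enc_neg (en306 h)

def t309 (b : Bx) : TM := tsqrt S (t307 b)
noncomputable def v309 (x1 x2 x3 : ℝ) : ℝ := Real.sqrt (v307 x1 x2 x3)
theorem en309 (h : In b E x1 x2 x3) : Enc S E (t309 b) (v309 x1 x2 x3) := enc_sqrt hS (en307 h)

def t310 (b : Bx) : TM := tadd (t216 b) (t309 b)
noncomputable def v310 (x1 x2 x3 : ℝ) : ℝ := v216 x1 x2 x3 + v309 x1 x2 x3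
theorem en310 (h : In b E x1 x2 x3) : Enc S E (t310 b) (v310 x1 x2 x3) := enc_add (en216 h) (en309 h)

def t311 (b : Bx) : TM := tinv S (t310 b)
noncomputable def v311 (x1 x2 x3 : ℝ) : ℝ := (v310 x1 x2 x3)⁻¹
theorem en311 (h : In b E x1 x2 x3) : Enc S E (t311 b) (v311 x1 x2 x3) := enc_inv hS (en310 h)

def t312 (b : Bx) : TM := tmul S (t308 b) (t311 b)
noncomputable def v312 (x1 x2 x3 : ℝ) : ℝ := v308 x1 x2 x3 * v311 x1 x2 x3
theorem en312 (h : In b E x1 x2 x3) : Enc S E (t312 b) (v312 x1 x2 x3) := enc_mul hS (en308 h) (en311 h)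

def t313 (b : Bx) : TM := tsub (t295 b) (t309 b)
noncomputable def v313 (x1 x2 x3 : ℝ) : ℝ := v295 x1 x2 x3 - v309 x1 x2 x3
theorem en313 (h : In b E x1 x2 x3) : Enc S E (t313 b) (v313 x1 x2 x3) := enc_sub (en295 h) (en309 h)

def t314 (b : Bx) : TM := tsub (t294 b) (t312 b)
noncomputable def v314 (x1 x2 x3 : ℝ) : ℝ := v294 x1 x2 x3 - v312 x1 x2 x3
theorem en314 (h : In b E x1 x2 x3) : Enc S E (t314 b) (v314 x1 x2 x3) := enc_sub (en294 h) (en312 h)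

def t315 (b : Bx) : TM := tsub (t32 b) (t253 b)
noncomputable def v315 (x1 x2 x3 : ℝ) : ℝ := v32 x1 x2 x3 - v253 x1 x2 x3
theorem en315 (h : In b E x1 x2 x3) : Enc S E (t315 b) (v315 x1 x2 x3) := enc_sub (en32 h) (en253 h)

def t316 (b : Bx) : TM := tsq S (t315 b)
noncomputable def v316 (x1 x2 x3 : ℝ) : ℝ := (v315 x1 x2 x3) ^ 2
theorem en316 (h : In b E x1 x2 x3) : Enc S E (t316 b) (v316 x1 x2 x3) := enc_sq hS (en315 h)

def t317 (b : Bx) : TM := tadd (t222 b) (t315 b)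
noncomputable def v317 (x1 x2 x3 : ℝ) : ℝ := v222 x1 x2 x3 + v315 x1 x2 x3
theorem en317 (h : In b E x1 x2 x3) : Enc S E (t317 b) (v317 x1 x2 x3) := enc_add (en222 h) (en315 h)

def t318 (b : Bx) : TM := tmul S (t115 b) (t317 b)
noncomputable def v318 (x1 x2 x3 : ℝ) : ℝ := v115 x1 x2 x3 * v317 x1 x2 x3
theorem en318 (h : In b E x1 x2 x3) : Enc S E (t318 b) (v318 x1 x2 x3) := enc_mul hS (en115 h) (en317 h)

def t319 (b : Bx) : TM := tsub (t8 b) (t316 b)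
noncomputable def v319 (x1 x2 x3 : ℝ) : ℝ := v8 x1 x2 x3 - v316 x1 x2 x3
theorem en319 (h : In b E x1 x2 x3) : Enc S E (t319 b) (v319 x1 x2 x3) := enc_sub (en8 h) (en316 h)

def t320 (b : Bx) : TM := tneg (t318 b)
noncomputable def v320 (x1 x2 x3 : ℝ) : ℝ := -(v318 x1 x2 x3)
theorem en320 (h : In b E x1 x2 x3) : Enc S E (t320 b) (v320 x1 x2 x3) := enc_neg (en318 h)

def t321 (b : Bx) : TM := tsqrt S (t319 b)
noncomputable def v321 (x1 x2 x3 : ℝ) : ℝ := Real.sqrt (v319 x1 x2 x3)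
theorem en321 (h : In b E x1 x2 x3) : Enc S E (t321 b) (v321 x1 x2 x3) := enc_sqrt hS (en319 h)

def t322 (b : Bx) : TM := tadd (t229 b) (t321 b)
noncomputable def v322 (x1 x2 x3 : ℝ) : ℝ := v229 x1 x2 x3 + v321 x1 x2 x3
theorem en322 (h : In b E x1 x2 x3) : Enc S E (t322 b) (v322 x1 x2 x3) := enc_add (en229 h) (en321 h)

def t323 (b : Bx) : TM := tinv S (t322 b)
noncomputable def v323 (x1 x2 x3 : ℝ) : ℝ := (v322 x1 x2 x3)⁻¹
theorem en323 (h : In b E x1 x2 x3) : Enc S E (t323 b) (v323 x1 x2 x3) := enc_inv hS (en322 h)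

def t324 (b : Bx) : TM := tmul S (t320 b) (t323 b)
noncomputable def v324 (x1 x2 x3 : ℝ) : ℝ := v320 x1 x2 x3 * v323 x1 x2 x3
theorem en324 (h : In b E x1 x2 x3) : Enc S E (t324 b) (v324 x1 x2 x3) := enc_mul hS (en320 h) (en323 h)

def t325 (b : Bx) : TM := tsub (t313 b) (t321 b)
noncomputable def v325 (x1 x2 x3 : ℝ) : ℝ := v313 x1 x2 x3 - v321 x1 x2 x3
theorem en325 (h : In b E x1 x2 x3) : Enc S E (t325 b) (v325 x1 x2 x3) := enc_sub (en313 h) (en321 h)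

def t326 (b : Bx) : TM := tsub (t314 b) (t324 b)
noncomputable def v326 (x1 x2 x3 : ℝ) : ℝ := v314 x1 x2 x3 - v324 x1 x2 x3
theorem en326 (h : In b E x1 x2 x3) : Enc S E (t326 b) (v326 x1 x2 x3) := enc_sub (en314 h) (en324 h)

def t327 (b : Bx) : TM := tadd (t288 b) (t325 b)
noncomputable def v327 (x1 x2 x3 : ℝ) : ℝ := v288 x1 x2 x3 + v325 x1 x2 x3
theorem en327 (h : In b E x1 x2 x3) : Enc S E (t327 b) (v327 x1 x2 x3) := enc_add (en288 h) (en325 h)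

def t328 (b : Bx) : TM := tadd (t267 b) (t326 b)
noncomputable def v328 (x1 x2 x3 : ℝ) : ℝ := v267 x1 x2 x3 + v326 x1 x2 x3
theorem en328 (h : In b E x1 x2 x3) : Enc S E (t328 b) (v328 x1 x2 x3) := enc_add (en267 h) (en326 h)

def t329 (b : Bx) : TM := tscale 1 5 (t327 b)
noncomputable def v329 (x1 x2 x3 : ℝ) : ℝ := ((1 : ℕ) : ℝ) / ((5 : ℕ) : ℝ) * v327 x1 x2 x3
theorem en329 (h : In b E x1 x2 x3) : Enc S E (t329 b) (v329 x1 x2 x3) := enc_scale 1 (by norm_num) (en327 h)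

def t330 (b : Bx) : TM := tscale 1 5 (t328 b)
noncomputable def v330 (x1 x2 x3 : ℝ) : ℝ := ((1 : ℕ) : ℝ) / ((5 : ℕ) : ℝ) * v328 x1 x2 x3
theorem en330 (h : In b E x1 x2 x3) : Enc S E (t330 b) (v330 x1 x2 x3) := enc_scale 1 (by norm_num) (en328 h)

def t331 (b : Bx) : TM := tadd (t286 b) (t329 b)
noncomputable def v331 (x1 x2 x3 : ℝ) : ℝ := v286 x1 x2 x3 + v329 x1 x2 x3
theorem en331 (h : In b E x1 x2 x3) : Enc S E (t331 b) (v331 x1 x2 x3) := enc_add (en286 h) (en329 h)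

def t332 (b : Bx) : TM := tadd (t285 b) (t330 b)
noncomputable def v332 (x1 x2 x3 : ℝ) : ℝ := v285 x1 x2 x3 + v330 x1 x2 x3
theorem en332 (h : In b E x1 x2 x3) : Enc S E (t332 b) (v332 x1 x2 x3) := enc_add (en285 h) (en330 h)

end

def tst (b : Bx) : Bool := and (pos (t240 b)) (and (pos (t332 b)) (and (pos (t34 b)) (and (pos (t104 b)) (and (pos (t49 b)) (and (pos (t119 b)) (and (pos (t9 b)) (and (pos (t133 b)) (and (pos (t43 b)) (and (pos (t148 b)) (and (pos (t69 b)) (and (pos (t162 b)) (and (pos (t65 b)) (and (pos (t178 b)) (and (pos (t53 b)) (and (pos (t214 b)) (and (pos (t85 b)) (and (pos (t227 b)) (and (pos (t245 b)) (and (pos (t258 b)) (and (pos (t274 b)) (and (pos (t307 b)) (pos (t319 b)))))))))))))))))))))))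

def f (b : Bx) : Nat := go (tst b) 1 (t240 b) b

/-- the conditions -/
def Cnd (x1 x2 x3 : ℝ) : Prop := 0 < v34 x1 x2 x3 ∧ 0 < v104 x1 x2 x3 ∧ 0 < v49 x1 x2 x3 ∧ 0 < v119 x1 x2 x3 ∧ 0 < v9 x1 x2 x3 ∧ 0 < v133 x1 x2 x3 ∧ 0 < v43 x1 x2 x3 ∧ 0 < v148 x1 x2 x3 ∧ 0 < v69 x1 x2 x3 ∧ 0 < v162 x1 x2 x3 ∧ 0 < v65 x1 x2 x3 ∧ 0 < v178 x1 x2 x3 ∧ 0 < v53 x1 x2 x3 ∧ 0 < v214 x1 x2 x3 ∧ 0 < v85 x1 x2 x3 ∧ 0 < v227 x1 x2 x3 ∧ 0 < v245 x1 x2 x3 ∧ 0 < v258 x1 x2 x3 ∧ 0 < v274 x1 x2 x3 ∧ 0 < v307 x1 x2 x3 ∧ 0 < v319 x1 x2 x3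

def Q (x1 x2 x3 : ℝ) : Prop := (0 < v240 x1 x2 x3 ∧ 0 < v332 x1 x2 x3 ∧ Cnd x1 x2 x3)

theorem f_sound (b : Bx) (hb : f b = 0) (x1 x2 x3 : ℝ) (hm : Mem S b x1 x2 x3) : Q x1 x2 x3 := by
  obtain ⟨E, h⟩ := pt_of_mem hm
  have h : In b E x1 x2 x3 := h
  have ht := go_sound hb
  unfold tst at ht
  unfold Q
  obtain ⟨k1, ht⟩ := Bool.and_eq_true_iff.mp ht
  have k1240 := pos_sound hS (en240 h) k1
  obtain ⟨k1, ht⟩ := Bool.and_eq_true_iff.mp ht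
  have k1332 := pos_sound hS (en332 h) k1
  obtain ⟨k1, ht⟩ := Bool.and_eq_true_iff.mp ht
  have k1034 := pos_sound hS (en34 h) k1
  obtain ⟨k1, ht⟩ := Bool.and_eq_true_iff.mp ht
  have k1104 := pos_sound hS (en104 h) k1
  obtain ⟨k1, ht⟩ := Bool.and_eq_true_iff.mp ht
  have k1049 := pos_sound hS (en49 h) k1
  obtain ⟨k1, ht⟩ := Bool.and_eq_true_iff.mp ht
  have k1119 := pos_sound hS (en119 h) k1
  obtain ⟨k1, ht⟩ := Bool.and_eq_true_iff.mp ht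
  have k1009 := pos_sound hS (en9 h) k1
  obtain ⟨k1, ht⟩ := Bool.and_eq_true_iff.mp ht
  have k1133 := pos_sound hS (en133 h) k1
  obtain ⟨k1, ht⟩ := Bool.and_eq_true_iff.mp ht
  have k1043 := pos_sound hS (en43 h) k1
  obtain ⟨k1, ht⟩ := Bool.and_eq_true_iff.mp ht
  have k1148 := pos_sound hS (en148 h) k1
  obtain ⟨k1, ht⟩ := Bool.and_eq_true_iff.mp ht
  have k1069 := pos_sound hS (en69 h) k1
  obtain ⟨k1, ht⟩ := Bool.and_eq_true_iff.mp ht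
  have k1162 := pos_sound hS (en162 h) k1
  obtain ⟨k1, ht⟩ := Bool.and_eq_true_iff.mp ht
  have k1065 := pos_sound hS (en65 h) k1
  obtain ⟨k1, ht⟩ := Bool.and_eq_true_iff.mp ht
  have k1178 := pos_sound hS (en178 h) k1
  obtain ⟨k1, ht⟩ := Bool.and_eq_true_iff.mp ht
  have k1053 := pos_sound hS (en53 h) k1
  obtain ⟨k1, ht⟩ := Bool.and_eq_true_iff.mp ht
  have k1214 := pos_sound hS (en214 h) k1
  obtain ⟨k1, ht⟩ := Bool.and_eq_true_iff.mp ht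
  have k1085 := pos_sound hS (en85 h) k1
  obtain ⟨k1, ht⟩ := Bool.and_eq_true_iff.mp ht
  have k1227 := pos_sound hS (en227 h) k1
  obtain ⟨k1, ht⟩ := Bool.and_eq_true_iff.mp ht
  have k1245 := pos_sound hS (en245 h) k1
  obtain ⟨k1, ht⟩ := Bool.and_eq_true_iff.mp ht
  have k1258 := pos_sound hS (en258 h) k1
  obtain ⟨k1, ht⟩ := Bool.and_eq_true_iff.mp ht
  have k1274 := pos_sound hS (en274 h) k1
  obtain ⟨k1, ht⟩ := Bool.and_eq_true_iff.mp ht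
  have k1307 := pos_sound hS (en307 h) k1
  have k1319 := pos_sound hS (en319 h) ht
  exact ⟨k1240, k1332, k1034, k1104, k1049, k1119, k1009, k1133, k1043, k1148, k1069, k1162, k1065, k1178, k1053, k1214, k1085, k1227, k1245, k1258, k1274, k1307, k1319⟩

theorem sa_3 {x1 x2 x3 : ℝ} (_hc : Cnd x1 x2 x3) :
    v3 x1 x2 x3 = v98 x1 x2 x3 + x2 * v8 x1 x2 x3 := svar _

theorem sa_19 {x1 x2 x3 : ℝ} (hc : Cnd x1 x2 x3) :
    v19 x1 x2 x3 = v99 x1 x2 x3 + x2 * v100 x1 x2 x3 := ssubr (sa_3 hc)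

theorem sa_33 {x1 x2 x3 : ℝ} (hc : Cnd x1 x2 x3) :
    v33 x1 x2 x3 = v101 x1 x2 x3 + x2 * v103 x1 x2 x3 := ssq (sa_19 hc)

theorem sa_34 {x1 x2 x3 : ℝ} (hc : Cnd x1 x2 x3) :
    v34 x1 x2 x3 = v104 x1 x2 x3 + x2 * v105 x1 x2 x3 := ssubr (sa_33 hc)

theorem sa_35 {x1 x2 x3 : ℝ} (hc : Cnd x1 x2 x3) :
    v35 x1 x2 x3 = v106 x1 x2 x3 + x2 * v109 x1 x2 x3 := ssqrt (sa_34 hc) hc.1 hc.2.1

theorem sa_36 {x1 x2 x3 : ℝ} (hc : Cnd x1 x2 x3) :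
    v36 x1 x2 x3 = v110 x1 x2 x3 + x2 * v111 x1 x2 x3 := smulr (sa_35 hc)

theorem sa_38 {x1 x2 x3 : ℝ} (hc : Cnd x1 x2 x3) :
    v38 x1 x2 x3 = v112 x1 x2 x3 + x2 * v111 x1 x2 x3 := ssubl (sa_36 hc)

theorem sa_40 {x1 x2 x3 : ℝ} (hc : Cnd x1 x2 x3) :
    v40 x1 x2 x3 = v113 x1 x2 x3 + x2 * v111 x1 x2 x3 := ssubl (sa_38 hc)

theorem sa_47 {x1 x2 x3 : ℝ} (hc : Cnd x1 x2 x3) :
    v47 x1 x2 x3 = v114 x1 x2 x3 + x2 * v115 x1 x2 x3 := ssubr (sa_19 hc)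

theorem sa_48 {x1 x2 x3 : ℝ} (hc : Cnd x1 x2 x3) :
    v48 x1 x2 x3 = v116 x1 x2 x3 + x2 * v118 x1 x2 x3 := ssq (sa_47 hc)

theorem sa_49 {x1 x2 x3 : ℝ} (hc : Cnd x1 x2 x3) :
    v49 x1 x2 x3 = v119 x1 x2 x3 + x2 * v120 x1 x2 x3 := ssubr (sa_48 hc)

theorem sa_50 {x1 x2 x3 : ℝ} (hc : Cnd x1 x2 x3) :
    v50 x1 x2 x3 = v121 x1 x2 x3 + x2 * v124 x1 x2 x3 := ssqrt (sa_49 hc) hc.2.2.1 hc.2.2.2.1

theorem sa_55 {x1 x2 x3 : ℝ} (hc : Cnd x1 x2 x3) :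
    v55 x1 x2 x3 = v125 x1 x2 x3 + x2 * v124 x1 x2 x3 := ssubl (sa_50 hc)

theorem sa_56 {x1 x2 x3 : ℝ} (hc : Cnd x1 x2 x3) :
    v56 x1 x2 x3 = v126 x1 x2 x3 + x2 * v124 x1 x2 x3 := ssubl (sa_55 hc)

theorem sa_57 {x1 x2 x3 : ℝ} (hc : Cnd x1 x2 x3) :
    v57 x1 x2 x3 = v127 x1 x2 x3 + x2 * v124 x1 x2 x3 := saddl (sa_56 hc)

theorem sa_5 {x1 x2 x3 : ℝ} (hc : Cnd x1 x2 x3) :
    v5 x1 x2 x3 = v128 x1 x2 x3 + x2 * v8 x1 x2 x3 := saddr (sa_3 hc)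

theorem sa_6 {x1 x2 x3 : ℝ} (hc : Cnd x1 x2 x3) :
    v6 x1 x2 x3 = v129 x1 x2 x3 + x2 * v8 x1 x2 x3 := ssubl (sa_5 hc)

theorem sa_7 {x1 x2 x3 : ℝ} (hc : Cnd x1 x2 x3) :
    v7 x1 x2 x3 = v130 x1 x2 x3 + x2 * v132 x1 x2 x3 := ssq (sa_6 hc)

theorem sa_9 {x1 x2 x3 : ℝ} (hc : Cnd x1 x2 x3) :
    v9 x1 x2 x3 = v133 x1 x2 x3 + x2 * v134 x1 x2 x3 := ssubr (sa_7 hc)

theorem sa_10 {x1 x2 x3 : ℝ} (hc : Cnd x1 x2 x3) :
    v10 x1 x2 x3 = v135 x1 x2 x3 + x2 * v138 x1 x2 x3 := ssqrt (sa_9 hc) hc.2.2.2.2.1 hc.2.2.2.2.2.1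

theorem sa_58 {x1 x2 x3 : ℝ} (hc : Cnd x1 x2 x3) :
    v58 x1 x2 x3 = v139 x1 x2 x3 + x2 * v140 x1 x2 x3 := sadd (sa_57 hc) (sa_10 hc)

theorem sa_59 {x1 x2 x3 : ℝ} (hc : Cnd x1 x2 x3) :
    v59 x1 x2 x3 = v141 x1 x2 x3 + x2 * v140 x1 x2 x3 := saddl (sa_58 hc)

theorem sa_28 {x1 x2 x3 : ℝ} (hc : Cnd x1 x2 x3) :
    v28 x1 x2 x3 = v142 x1 x2 x3 + x2 * v143 x1 x2 x3 := sadd (sa_19 hc) (sa_6 hc)

theorem sa_41 {x1 x2 x3 : ℝ} (hc : Cnd x1 x2 x3) :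
    v41 x1 x2 x3 = v144 x1 x2 x3 + x2 * v143 x1 x2 x3 := ssubl (sa_28 hc)

theorem sa_42 {x1 x2 x3 : ℝ} (hc : Cnd x1 x2 x3) :
    v42 x1 x2 x3 = v145 x1 x2 x3 + x2 * v147 x1 x2 x3 := ssq (sa_41 hc)

theorem sa_43 {x1 x2 x3 : ℝ} (hc : Cnd x1 x2 x3) :
    v43 x1 x2 x3 = v148 x1 x2 x3 + x2 * v149 x1 x2 x3 := ssubr (sa_42 hc)

theorem sa_44 {x1 x2 x3 : ℝ} (hc : Cnd x1 x2 x3) :
    v44 x1 x2 x3 = v150 x1 x2 x3 + x2 * v153 x1 x2 x3 := ssqrt (sa_43 hc) hc.2.2.2.2.2.2.1 hc.2.2.2.2.2.2.2.1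

theorem sa_45 {x1 x2 x3 : ℝ} (hc : Cnd x1 x2 x3) :
    v45 x1 x2 x3 = v154 x1 x2 x3 + x2 * v153 x1 x2 x3 := saddl (sa_44 hc)

theorem sa_46 {x1 x2 x3 : ℝ} (hc : Cnd x1 x2 x3) :
    v46 x1 x2 x3 = v155 x1 x2 x3 + x2 * v153 x1 x2 x3 := ssubl (sa_45 hc)

theorem sa_60 {x1 x2 x3 : ℝ} (hc : Cnd x1 x2 x3) :
    v60 x1 x2 x3 = v156 x1 x2 x3 + x2 * v157 x1 x2 x3 := ssub (sa_59 hc) (sa_46 hc)

theorem sa_67 {x1 x2 x3 : ℝ} (hc : Cnd x1 x2 x3) :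
    v67 x1 x2 x3 = v158 x1 x2 x3 + x2 * v115 x1 x2 x3 := ssubr (sa_19 hc)

theorem sa_68 {x1 x2 x3 : ℝ} (hc : Cnd x1 x2 x3) :
    v68 x1 x2 x3 = v159 x1 x2 x3 + x2 * v161 x1 x2 x3 := ssq (sa_67 hc)

theorem sa_69 {x1 x2 x3 : ℝ} (hc : Cnd x1 x2 x3) :
    v69 x1 x2 x3 = v162 x1 x2 x3 + x2 * v163 x1 x2 x3 := ssubr (sa_68 hc)

theorem sa_70 {x1 x2 x3 : ℝ} (hc : Cnd x1 x2 x3) :
    v70 x1 x2 x3 = v164 x1 x2 x3 + x2 * v167 x1 x2 x3 := ssqrt (sa_69 hc) hc.2.2.2.2.2.2.2.2.1 hc.2.2.2.2.2.2.2.2.2.1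

theorem sa_72 {x1 x2 x3 : ℝ} (hc : Cnd x1 x2 x3) :
    v72 x1 x2 x3 = v168 x1 x2 x3 + x2 * v167 x1 x2 x3 := ssubl (sa_70 hc)

theorem sa_73 {x1 x2 x3 : ℝ} (hc : Cnd x1 x2 x3) :
    v73 x1 x2 x3 = v169 x1 x2 x3 + x2 * v167 x1 x2 x3 := ssubl (sa_72 hc)

theorem sa_74 {x1 x2 x3 : ℝ} (hc : Cnd x1 x2 x3) :
    v74 x1 x2 x3 = v170 x1 x2 x3 + x2 * v167 x1 x2 x3 := saddl (sa_73 hc)

theorem sa_75 {x1 x2 x3 : ℝ} (hc : Cnd x1 x2 x3) :
    v75 x1 x2 x3 = v171 x1 x2 x3 + x2 * v172 x1 x2 x3 := sadd (sa_74 hc) (sa_10 hc)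

theorem sa_76 {x1 x2 x3 : ℝ} (hc : Cnd x1 x2 x3) :
    v76 x1 x2 x3 = v173 x1 x2 x3 + x2 * v172 x1 x2 x3 := saddl (sa_75 hc)

theorem sa_63 {x1 x2 x3 : ℝ} (hc : Cnd x1 x2 x3) :
    v63 x1 x2 x3 = v174 x1 x2 x3 + x2 * v143 x1 x2 x3 := ssubl (sa_28 hc)

theorem sa_64 {x1 x2 x3 : ℝ} (hc : Cnd x1 x2 x3) :
    v64 x1 x2 x3 = v175 x1 x2 x3 + x2 * v177 x1 x2 x3 := ssq (sa_63 hc)

theorem sa_65 {x1 x2 x3 : ℝ} (hc : Cnd x1 x2 x3) :
    v65 x1 x2 x3 = v178 x1 x2 x3 + x2 * v179 x1 x2 x3 := ssubr (sa_64 hc)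

theorem sa_66 {x1 x2 x3 : ℝ} (hc : Cnd x1 x2 x3) :
    v66 x1 x2 x3 = v180 x1 x2 x3 + x2 * v183 x1 x2 x3 := ssqrt (sa_65 hc) hc.2.2.2.2.2.2.2.2.2.2.1 hc.2.2.2.2.2.2.2.2.2.2.2.1

theorem sa_77 {x1 x2 x3 : ℝ} (hc : Cnd x1 x2 x3) :
    v77 x1 x2 x3 = v184 x1 x2 x3 + x2 * v185 x1 x2 x3 := ssub (sa_76 hc) (sa_66 hc)

theorem sa_88 {x1 x2 x3 : ℝ} (hc : Cnd x1 x2 x3) :
    v88 x1 x2 x3 = v186 x1 x2 x3 + x2 * v187 x1 x2 x3 := sadd (sa_60 hc) (sa_77 hc)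

theorem sa_89 {x1 x2 x3 : ℝ} (hc : Cnd x1 x2 x3) :
    v89 x1 x2 x3 = v188 x1 x2 x3 + x2 * v189 x1 x2 x3 := smulr (sa_88 hc)

theorem sa_90 {x1 x2 x3 : ℝ} (hc : Cnd x1 x2 x3) :
    v90 x1 x2 x3 = v190 x1 x2 x3 + x2 * v191 x1 x2 x3 := sadd (sa_40 hc) (sa_89 hc)

theorem sa_78 {x1 x2 x3 : ℝ} (hc : Cnd x1 x2 x3) :
    v78 x1 x2 x3 = v192 x1 x2 x3 + x2 * v124 x1 x2 x3 := saddl (sa_55 hc)

theorem sa_79 {x1 x2 x3 : ℝ} (hc : Cnd x1 x2 x3) :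
    v79 x1 x2 x3 = v193 x1 x2 x3 + x2 * v140 x1 x2 x3 := sadd (sa_78 hc) (sa_10 hc)

theorem sa_80 {x1 x2 x3 : ℝ} (hc : Cnd x1 x2 x3) :
    v80 x1 x2 x3 = v194 x1 x2 x3 + x2 * v157 x1 x2 x3 := ssub (sa_79 hc) (sa_44 hc)

theorem sa_15 {x1 x2 x3 : ℝ} (hc : Cnd x1 x2 x3) :
    v15 x1 x2 x3 = v195 x1 x2 x3 + x2 * v196 x1 x2 x3 := smulr (sa_10 hc)

theorem sa_16 {x1 x2 x3 : ℝ} (hc : Cnd x1 x2 x3) :
    v16 x1 x2 x3 = v197 x1 x2 x3 + x2 * v198 x1 x2 x3 := smulr (sa_6 hc)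

theorem sa_17 {x1 x2 x3 : ℝ} (hc : Cnd x1 x2 x3) :
    v17 x1 x2 x3 = v199 x1 x2 x3 + x2 * v200 x1 x2 x3 := sadd (sa_15 hc) (sa_16 hc)

theorem sa_81 {x1 x2 x3 : ℝ} (hc : Cnd x1 x2 x3) :
    v81 x1 x2 x3 = v201 x1 x2 x3 + x2 * v200 x1 x2 x3 := saddl (sa_17 hc)

theorem sa_12 {x1 x2 x3 : ℝ} (hc : Cnd x1 x2 x3) :
    v12 x1 x2 x3 = v202 x1 x2 x3 + x2 * v203 x1 x2 x3 := smulr (sa_6 hc)

theorem sa_11 {x1 x2 x3 : ℝ} (hc : Cnd x1 x2 x3) :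
    v11 x1 x2 x3 = v204 x1 x2 x3 + x2 * v205 x1 x2 x3 := smulr (sa_10 hc)

theorem sa_14 {x1 x2 x3 : ℝ} (hc : Cnd x1 x2 x3) :
    v14 x1 x2 x3 = v206 x1 x2 x3 + x2 * v207 x1 x2 x3 := sadd (sa_12 hc) (sa_11 hc)

theorem sa_27 {x1 x2 x3 : ℝ} (hc : Cnd x1 x2 x3) :
    v27 x1 x2 x3 = v208 x1 x2 x3 + x2 * v209 x1 x2 x3 := sadd (sa_19 hc) (sa_14 hc)

theorem sa_51 {x1 x2 x3 : ℝ} (hc : Cnd x1 x2 x3) :
    v51 x1 x2 x3 = v210 x1 x2 x3 + x2 * v209 x1 x2 x3 := ssubl (sa_27 hc)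

theorem sa_52 {x1 x2 x3 : ℝ} (hc : Cnd x1 x2 x3) :
    v52 x1 x2 x3 = v211 x1 x2 x3 + x2 * v213 x1 x2 x3 := ssq (sa_51 hc)

theorem sa_53 {x1 x2 x3 : ℝ} (hc : Cnd x1 x2 x3) :
    v53 x1 x2 x3 = v214 x1 x2 x3 + x2 * v215 x1 x2 x3 := ssubr (sa_52 hc)

theorem sa_54 {x1 x2 x3 : ℝ} (hc : Cnd x1 x2 x3) :
    v54 x1 x2 x3 = v216 x1 x2 x3 + x2 * v219 x1 x2 x3 := ssqrt (sa_53 hc) hc.2.2.2.2.2.2.2.2.2.2.2.2.1 hc.2.2.2.2.2.2.2.2.2.2.2.2.2.1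

theorem sa_82 {x1 x2 x3 : ℝ} (hc : Cnd x1 x2 x3) :
    v82 x1 x2 x3 = v220 x1 x2 x3 + x2 * v221 x1 x2 x3 := ssub (sa_81 hc) (sa_54 hc)

theorem sa_83 {x1 x2 x3 : ℝ} (hc : Cnd x1 x2 x3) :
    v83 x1 x2 x3 = v222 x1 x2 x3 + x2 * v223 x1 x2 x3 := ssubr (sa_28 hc)

theorem sa_84 {x1 x2 x3 : ℝ} (hc : Cnd x1 x2 x3) :
    v84 x1 x2 x3 = v224 x1 x2 x3 + x2 * v226 x1 x2 x3 := ssq (sa_83 hc)

theorem sa_85 {x1 x2 x3 : ℝ} (hc : Cnd x1 x2 x3) :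
    v85 x1 x2 x3 = v227 x1 x2 x3 + x2 * v228 x1 x2 x3 := ssubr (sa_84 hc)

theorem sa_86 {x1 x2 x3 : ℝ} (hc : Cnd x1 x2 x3) :
    v86 x1 x2 x3 = v229 x1 x2 x3 + x2 * v232 x1 x2 x3 := ssqrt (sa_85 hc) hc.2.2.2.2.2.2.2.2.2.2.2.2.2.2.1 hc.2.2.2.2.2.2.2.2.2.2.2.2.2.2.2.1

theorem sa_87 {x1 x2 x3 : ℝ} (hc : Cnd x1 x2 x3) :
    v87 x1 x2 x3 = v233 x1 x2 x3 + x2 * v234 x1 x2 x3 := ssub (sa_82 hc) (sa_86 hc)

theorem sa_91 {x1 x2 x3 : ℝ} (hc : Cnd x1 x2 x3) :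
    v91 x1 x2 x3 = v235 x1 x2 x3 + x2 * v236 x1 x2 x3 := sadd (sa_80 hc) (sa_87 hc)

theorem sa_92 {x1 x2 x3 : ℝ} (hc : Cnd x1 x2 x3) :
    v92 x1 x2 x3 = v237 x1 x2 x3 + x2 * v238 x1 x2 x3 := smulr (sa_91 hc)

theorem sa_93 {x1 x2 x3 : ℝ} (hc : Cnd x1 x2 x3) :
    v93 x1 x2 x3 = v239 x1 x2 x3 + x2 * v240 x1 x2 x3 := sadd (sa_90 hc) (sa_92 hc)

theorem sb_4 {x1 x2 x3 : ℝ} (_hc : Cnd x1 x2 x3) :
    v4 x1 x2 x3 = v98 x1 x2 x3 + x3 * v8 x1 x2 x3 := svar _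

theorem sb_129 {x1 x2 x3 : ℝ} (hc : Cnd x1 x2 x3) :
    v129 x1 x2 x3 = v241 x1 x2 x3 + x3 * v100 x1 x2 x3 := ssubr (sb_4 hc)

theorem sb_130 {x1 x2 x3 : ℝ} (hc : Cnd x1 x2 x3) :
    v130 x1 x2 x3 = v242 x1 x2 x3 + x3 * v244 x1 x2 x3 := ssq (sb_129 hc)

theorem sb_133 {x1 x2 x3 : ℝ} (hc : Cnd x1 x2 x3) :
    v133 x1 x2 x3 = v245 x1 x2 x3 + x3 * v246 x1 x2 x3 := ssubr (sb_130 hc)

theorem sb_135 {x1 x2 x3 : ℝ} (hc : Cnd x1 x2 x3) :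
    v135 x1 x2 x3 = v247 x1 x2 x3 + x3 * v250 x1 x2 x3 := ssqrt (sb_133 hc) hc.2.2.2.2.2.1 hc.2.2.2.2.2.2.2.2.2.2.2.2.2.2.2.2.1

theorem sb_139 {x1 x2 x3 : ℝ} (hc : Cnd x1 x2 x3) :
    v139 x1 x2 x3 = v251 x1 x2 x3 + x3 * v250 x1 x2 x3 := saddr (sb_135 hc)

theorem sb_141 {x1 x2 x3 : ℝ} (hc : Cnd x1 x2 x3) :
    v141 x1 x2 x3 = v252 x1 x2 x3 + x3 * v250 x1 x2 x3 := saddl (sb_139 hc)

theorem sb_142 {x1 x2 x3 : ℝ} (hc : Cnd x1 x2 x3) :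
    v142 x1 x2 x3 = v253 x1 x2 x3 + x3 * v100 x1 x2 x3 := saddr (sb_129 hc)

theorem sb_144 {x1 x2 x3 : ℝ} (hc : Cnd x1 x2 x3) :
    v144 x1 x2 x3 = v254 x1 x2 x3 + x3 * v100 x1 x2 x3 := ssubl (sb_142 hc)

theorem sb_145 {x1 x2 x3 : ℝ} (hc : Cnd x1 x2 x3) :
    v145 x1 x2 x3 = v255 x1 x2 x3 + x3 * v257 x1 x2 x3 := ssq (sb_144 hc)

theorem sb_148 {x1 x2 x3 : ℝ} (hc : Cnd x1 x2 x3) :
    v148 x1 x2 x3 = v258 x1 x2 x3 + x3 * v259 x1 x2 x3 := ssubr (sb_145 hc)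

theorem sb_150 {x1 x2 x3 : ℝ} (hc : Cnd x1 x2 x3) :
    v150 x1 x2 x3 = v260 x1 x2 x3 + x3 * v263 x1 x2 x3 := ssqrt (sb_148 hc) hc.2.2.2.2.2.2.2.1 hc.2.2.2.2.2.2.2.2.2.2.2.2.2.2.2.2.2.1

theorem sb_154 {x1 x2 x3 : ℝ} (hc : Cnd x1 x2 x3) :
    v154 x1 x2 x3 = v264 x1 x2 x3 + x3 * v263 x1 x2 x3 := saddl (sb_150 hc)

theorem sb_155 {x1 x2 x3 : ℝ} (hc : Cnd x1 x2 x3) :
    v155 x1 x2 x3 = v265 x1 x2 x3 + x3 * v263 x1 x2 x3 := ssubl (sb_154 hc)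

theorem sb_156 {x1 x2 x3 : ℝ} (hc : Cnd x1 x2 x3) :
    v156 x1 x2 x3 = v266 x1 x2 x3 + x3 * v267 x1 x2 x3 := ssub (sb_141 hc) (sb_155 hc)

theorem sb_171 {x1 x2 x3 : ℝ} (hc : Cnd x1 x2 x3) :
    v171 x1 x2 x3 = v268 x1 x2 x3 + x3 * v250 x1 x2 x3 := saddr (sb_135 hc)

theorem sb_173 {x1 x2 x3 : ℝ} (hc : Cnd x1 x2 x3) :
    v173 x1 x2 x3 = v269 x1 x2 x3 + x3 * v250 x1 x2 x3 := saddl (sb_171 hc)

theorem sb_174 {x1 x2 x3 : ℝ} (hc : Cnd x1 x2 x3) :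
    v174 x1 x2 x3 = v270 x1 x2 x3 + x3 * v100 x1 x2 x3 := ssubl (sb_142 hc)

theorem sb_175 {x1 x2 x3 : ℝ} (hc : Cnd x1 x2 x3) :
    v175 x1 x2 x3 = v271 x1 x2 x3 + x3 * v273 x1 x2 x3 := ssq (sb_174 hc)

theorem sb_178 {x1 x2 x3 : ℝ} (hc : Cnd x1 x2 x3) :
    v178 x1 x2 x3 = v274 x1 x2 x3 + x3 * v275 x1 x2 x3 := ssubr (sb_175 hc)

theorem sb_180 {x1 x2 x3 : ℝ} (hc : Cnd x1 x2 x3) :
    v180 x1 x2 x3 = v276 x1 x2 x3 + x3 * v279 x1 x2 x3 := ssqrt (sb_178 hc) hc.2.2.2.2.2.2.2.2.2.2.2.1 hc.2.2.2.2.2.2.2.2.2.2.2.2.2.2.2.2.2.2.1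

theorem sb_184 {x1 x2 x3 : ℝ} (hc : Cnd x1 x2 x3) :
    v184 x1 x2 x3 = v280 x1 x2 x3 + x3 * v281 x1 x2 x3 := ssub (sb_173 hc) (sb_180 hc)

theorem sb_186 {x1 x2 x3 : ℝ} (hc : Cnd x1 x2 x3) :
    v186 x1 x2 x3 = v282 x1 x2 x3 + x3 * v283 x1 x2 x3 := sadd (sb_156 hc) (sb_184 hc)

theorem sb_188 {x1 x2 x3 : ℝ} (hc : Cnd x1 x2 x3) :
    v188 x1 x2 x3 = v284 x1 x2 x3 + x3 * v285 x1 x2 x3 := smulr (sb_186 hc)

theorem sb_190 {x1 x2 x3 : ℝ} (hc : Cnd x1 x2 x3) :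
    v190 x1 x2 x3 = v286 x1 x2 x3 + x3 * v285 x1 x2 x3 := saddr (sb_188 hc)

theorem sb_193 {x1 x2 x3 : ℝ} (hc : Cnd x1 x2 x3) :
    v193 x1 x2 x3 = v287 x1 x2 x3 + x3 * v250 x1 x2 x3 := saddr (sb_135 hc)

theorem sb_194 {x1 x2 x3 : ℝ} (hc : Cnd x1 x2 x3) :
    v194 x1 x2 x3 = v288 x1 x2 x3 + x3 * v267 x1 x2 x3 := ssub (sb_193 hc) (sb_150 hc)

theorem sb_195 {x1 x2 x3 : ℝ} (hc : Cnd x1 x2 x3) :
    v195 x1 x2 x3 = v289 x1 x2 x3 + x3 * v290 x1 x2 x3 := smulr (sb_135 hc)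

theorem sb_197 {x1 x2 x3 : ℝ} (hc : Cnd x1 x2 x3) :
    v197 x1 x2 x3 = v291 x1 x2 x3 + x3 * v292 x1 x2 x3 := smulr (sb_129 hc)

theorem sb_199 {x1 x2 x3 : ℝ} (hc : Cnd x1 x2 x3) :
    v199 x1 x2 x3 = v293 x1 x2 x3 + x3 * v294 x1 x2 x3 := sadd (sb_195 hc) (sb_197 hc)

theorem sb_201 {x1 x2 x3 : ℝ} (hc : Cnd x1 x2 x3) :
    v201 x1 x2 x3 = v295 x1 x2 x3 + x3 * v294 x1 x2 x3 := saddl (sb_199 hc)

theorem sb_202 {x1 x2 x3 : ℝ} (hc : Cnd x1 x2 x3) :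
    v202 x1 x2 x3 = v296 x1 x2 x3 + x3 * v297 x1 x2 x3 := smulr (sb_129 hc)

theorem sb_204 {x1 x2 x3 : ℝ} (hc : Cnd x1 x2 x3) :
    v204 x1 x2 x3 = v298 x1 x2 x3 + x3 * v299 x1 x2 x3 := smulr (sb_135 hc)

theorem sb_206 {x1 x2 x3 : ℝ} (hc : Cnd x1 x2 x3) :
    v206 x1 x2 x3 = v300 x1 x2 x3 + x3 * v301 x1 x2 x3 := sadd (sb_202 hc) (sb_204 hc)

theorem sb_208 {x1 x2 x3 : ℝ} (hc : Cnd x1 x2 x3) :
    v208 x1 x2 x3 = v302 x1 x2 x3 + x3 * v301 x1 x2 x3 := saddr (sb_206 hc)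

theorem sb_210 {x1 x2 x3 : ℝ} (hc : Cnd x1 x2 x3) :
    v210 x1 x2 x3 = v303 x1 x2 x3 + x3 * v301 x1 x2 x3 := ssubl (sb_208 hc)

theorem sb_211 {x1 x2 x3 : ℝ} (hc : Cnd x1 x2 x3) :
    v211 x1 x2 x3 = v304 x1 x2 x3 + x3 * v306 x1 x2 x3 := ssq (sb_210 hc)

theorem sb_214 {x1 x2 x3 : ℝ} (hc : Cnd x1 x2 x3) :
    v214 x1 x2 x3 = v307 x1 x2 x3 + x3 * v308 x1 x2 x3 := ssubr (sb_211 hc)

theorem sb_216 {x1 x2 x3 : ℝ} (hc : Cnd x1 x2 x3) :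
    v216 x1 x2 x3 = v309 x1 x2 x3 + x3 * v312 x1 x2 x3 := ssqrt (sb_214 hc) hc.2.2.2.2.2.2.2.2.2.2.2.2.2.1 hc.2.2.2.2.2.2.2.2.2.2.2.2.2.2.2.2.2.2.2.1

theorem sb_220 {x1 x2 x3 : ℝ} (hc : Cnd x1 x2 x3) :
    v220 x1 x2 x3 = v313 x1 x2 x3 + x3 * v314 x1 x2 x3 := ssub (sb_201 hc) (sb_216 hc)

theorem sb_222 {x1 x2 x3 : ℝ} (hc : Cnd x1 x2 x3) :
    v222 x1 x2 x3 = v315 x1 x2 x3 + x3 * v115 x1 x2 x3 := ssubr (sb_142 hc)

theorem sb_224 {x1 x2 x3 : ℝ} (hc : Cnd x1 x2 x3) :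
    v224 x1 x2 x3 = v316 x1 x2 x3 + x3 * v318 x1 x2 x3 := ssq (sb_222 hc)

theorem sb_227 {x1 x2 x3 : ℝ} (hc : Cnd x1 x2 x3) :
    v227 x1 x2 x3 = v319 x1 x2 x3 + x3 * v320 x1 x2 x3 := ssubr (sb_224 hc)

theorem sb_229 {x1 x2 x3 : ℝ} (hc : Cnd x1 x2 x3) :
    v229 x1 x2 x3 = v321 x1 x2 x3 + x3 * v324 x1 x2 x3 := ssqrt (sb_227 hc) hc.2.2.2.2.2.2.2.2.2.2.2.2.2.2.2.1 hc.2.2.2.2.2.2.2.2.2.2.2.2.2.2.2.2.2.2.2.2

theorem sb_233 {x1 x2 x3 : ℝ} (hc : Cnd x1 x2 x3) :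
    v233 x1 x2 x3 = v325 x1 x2 x3 + x3 * v326 x1 x2 x3 := ssub (sb_220 hc) (sb_229 hc)

theorem sb_235 {x1 x2 x3 : ℝ} (hc : Cnd x1 x2 x3) :
    v235 x1 x2 x3 = v327 x1 x2 x3 + x3 * v328 x1 x2 x3 := sadd (sb_194 hc) (sb_233 hc)

theorem sb_237 {x1 x2 x3 : ℝ} (hc : Cnd x1 x2 x3) :
    v237 x1 x2 x3 = v329 x1 x2 x3 + x3 * v330 x1 x2 x3 := smulr (sb_235 hc)

theorem sb_239 {x1 x2 x3 : ℝ} (hc : Cnd x1 x2 x3) :
    v239 x1 x2 x3 = v331 x1 x2 x3 + x3 * v332 x1 x2 x3 := sadd (sb_190 hc) (sb_237 hc)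

section

variable (s a w : ℝ)

theorem w0 : v0 s a w = (2 * h0) := by unfold v0 h0; push_cast; ring

theorem w1 : v1 s a w = h0 := by unfold v1; rw [w0]; unfold h0; push_cast; ring

theorem w2 : v2 s a w = s := rfl

theorem w3 : v3 s a w = a := rfl

theorem w4 : v4 s a w = w := rfl

theorem w5 : v5 s a w = (s + a) := by rw [v5, w2, w3]

theorem w6 : v6 s a w = ((s + a) - w) := by rw [v6, w5, w4]

theorem w7 : v7 s a w = (((s + a) - w) ^ 2) := by rw [v7, w6]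

theorem w8 : v8 s a w = 1 := by unfold v8; norm_num

theorem w9 : v9 s a w = (1 - (((s + a) - w) ^ 2)) := by rw [v9, w8, w7]

theorem w10 : v10 s a w = (g ((s + a) - w)) := by unfold v10; rw [w9]; rfl

theorem w11 : v11 s a w = (h0 * (g ((s + a) - w))) := by rw [v11, w1, w10]

theorem w12 : v12 s a w = (1 / 2 * ((s + a) - w)) := by simp only [v12, w6, Nat.cast_ofNat, Nat.cast_one]

theorem w14 : v14 s a w = (ext ((s + a) - w)) := by rw [v14, w12, w11]; unfold ext; ring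

theorem w15 : v15 s a w = (1 / 2 * (g ((s + a) - w))) := by simp only [v15, w10, Nat.cast_ofNat, Nat.cast_one]

theorem w16 : v16 s a w = (h0 * ((s + a) - w)) := by rw [v16, w1, w6]

theorem w17 : v17 s a w = ((1 / 2 * (g ((s + a) - w))) + (h0 * ((s + a) - w))) := by rw [v17, w15, w16]

theorem w19 : v19 s a w = (h0 - a) := by rw [v19, w1, w3]

theorem w20 : v20 s a w = (s ^ 2) := by rw [v20, w2]

theorem w21 : v21 s a w = (1 - (s ^ 2)) := by rw [v21, w8, w20]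

theorem w22 : v22 s a w = (g s) := by unfold v22; rw [w21]; rfl

theorem w23 : v23 s a w = (17 / 50 * s) := by simp only [v23, w2, Nat.cast_ofNat, Nat.cast_one]

theorem w24 : v24 s a w = ((17 / 50 * s) ^ 2) := by rw [v24, w23]

theorem w25 : v25 s a w = (1 - ((17 / 50 * s) ^ 2)) := by rw [v25, w8, w24]

theorem w26 : v26 s a w = (g (17 / 50 * s)) := by unfold v26; rw [w25]; rfl

theorem w27 : v27 s a w = ((h0 - a) + (ext ((s + a) - w))) := by rw [v27, w19, w14]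

theorem w28 : v28 s a w = ((h0 - a) + ((s + a) - w)) := by rw [v28, w19, w6]

theorem w30 : v30 s a w = (33 / 50 * s) := by simp only [v30, w2, Nat.cast_ofNat, Nat.cast_one]

theorem w31 : v31 s a w = (h0 + (33 / 50 * s)) := by rw [v31, w1, w30]

theorem w32 : v32 s a w = (h0 + s) := by rw [v32, w1, w2]

theorem w33 : v33 s a w = ((h0 - a) ^ 2) := by rw [v33, w19]

theorem w34 : v34 s a w = (1 - ((h0 - a) ^ 2)) := by rw [v34, w8, w33]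

theorem w35 : v35 s a w = (g (h0 - a)) := by unfold v35; rw [w34]; rfl

theorem w36 : v36 s a w = (8 * (g (h0 - a))) := by simp only [v36, w35, Nat.cast_ofNat, Nat.cast_one]

theorem w37 : v37 s a w = 4 := by unfold v37; norm_num

theorem w38 : v38 s a w = ((8 * (g (h0 - a))) - 4) := by rw [v38, w36, w37]

theorem w39 : v39 s a w = (4 * (g s)) := by simp only [v39, w22, Nat.cast_ofNat, Nat.cast_one]

theorem w40 : v40 s a w = (((8 * (g (h0 - a))) - 4) - (4 * (g s))) := by rw [v40, w38, w39]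

theorem w41 : v41 s a w = (((h0 - a) + ((s + a) - w)) - h0) := by rw [v41, w28, w1]

theorem w42 : v42 s a w = ((((h0 - a) + ((s + a) - w)) - h0) ^ 2) := by rw [v42, w41]

theorem w43 : v43 s a w = (1 - ((((h0 - a) + ((s + a) - w)) - h0) ^ 2)) := by rw [v43, w8, w42]

theorem w44 : v44 s a w = (g (((h0 - a) + ((s + a) - w)) - h0)) := by unfold v44; rw [w43]; rfl

theorem w45 : v45 s a w = ((g (((h0 - a) + ((s + a) - w)) - h0)) + 1) := by rw [v45, w44, w8]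

theorem w46 : v46 s a w = (((g (((h0 - a) + ((s + a) - w)) - h0)) + 1) - (g (17 / 50 * s))) := by rw [v46, w45, w26]

theorem w47 : v47 s a w = ((h0 + s) - (h0 - a)) := by rw [v47, w32, w19]

theorem w48 : v48 s a w = (((h0 + s) - (h0 - a)) ^ 2) := by rw [v48, w47]

theorem w49 : v49 s a w = (1 - (((h0 + s) - (h0 - a)) ^ 2)) := by rw [v49, w8, w48]

theorem w50 : v50 s a w = (g ((h0 + s) - (h0 - a))) := by unfold v50; rw [w49]; rfl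

theorem w51 : v51 s a w = (((h0 - a) + (ext ((s + a) - w))) - h0) := by rw [v51, w27, w1]

theorem w52 : v52 s a w = ((((h0 - a) + (ext ((s + a) - w))) - h0) ^ 2) := by rw [v52, w51]

theorem w53 : v53 s a w = (1 - ((((h0 - a) + (ext ((s + a) - w))) - h0) ^ 2)) := by rw [v53, w8, w52]

theorem w54 : v54 s a w = (g (((h0 - a) + (ext ((s + a) - w))) - h0)) := by unfold v54; rw [w53]; rfl

theorem w55 : v55 s a w = ((g ((h0 + s) - (h0 - a))) - (g s)) := by rw [v55, w50, w22]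

theorem w56 : v56 s a w = (((g ((h0 + s) - (h0 - a))) - (g s)) - 1) := by rw [v56, w55, w8]

theorem w57 : v57 s a w = ((((g ((h0 + s) - (h0 - a))) - (g s)) - 1) + (g (17 / 50 * s))) := by rw [v57, w56, w26]

theorem w58 : v58 s a w = (((((g ((h0 + s) - (h0 - a))) - (g s)) - 1) + (g (17 / 50 * s))) + (g ((s + a) - w))) := by rw [v58, w57, w10]

theorem w59 : v59 s a w = ((((((g ((h0 + s) - (h0 - a))) - (g s)) - 1) + (g (17 / 50 * s))) + (g ((s + a) - w))) + 1) := by rw [v59, w58, w8]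

theorem w60 : v60 s a w = (((((((g ((h0 + s) - (h0 - a))) - (g s)) - 1) + (g (17 / 50 * s))) + (g ((s + a) - w))) + 1) - (((g (((h0 - a) + ((s + a) - w)) - h0)) + 1) - (g (17 / 50 * s)))) := by rw [v60, w59, w46]

theorem w63 : v63 s a w = (((h0 - a) + ((s + a) - w)) - (h0 + (33 / 50 * s))) := by rw [v63, w28, w31]

theorem w64 : v64 s a w = ((((h0 - a) + ((s + a) - w)) - (h0 + (33 / 50 * s))) ^ 2) := by rw [v64, w63]

theorem w65 : v65 s a w = (1 - ((((h0 - a) + ((s + a) - w)) - (h0 + (33 / 50 * s))) ^ 2)) := by rw [v65, w8, w64]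

theorem w66 : v66 s a w = (g (((h0 - a) + ((s + a) - w)) - (h0 + (33 / 50 * s)))) := by unfold v66; rw [w65]; rfl

theorem w67 : v67 s a w = ((2 * h0) - (h0 - a)) := by rw [v67, w0, w19]

theorem w68 : v68 s a w = (((2 * h0) - (h0 - a)) ^ 2) := by rw [v68, w67]

theorem w69 : v69 s a w = (1 - (((2 * h0) - (h0 - a)) ^ 2)) := by rw [v69, w8, w68]

theorem w70 : v70 s a w = (g ((2 * h0) - (h0 - a))) := by unfold v70; rw [w69]; rfl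

theorem w71 : v71 s a w = (1 / 2) := by unfold v71; norm_num

theorem w72 : v72 s a w = ((g ((2 * h0) - (h0 - a))) - (1 / 2)) := by rw [v72, w70, w71]

theorem w73 : v73 s a w = (((g ((2 * h0) - (h0 - a))) - (1 / 2)) - (g (17 / 50 * s))) := by rw [v73, w72, w26]

theorem w74 : v74 s a w = ((((g ((2 * h0) - (h0 - a))) - (1 / 2)) - (g (17 / 50 * s))) + (g s)) := by rw [v74, w73, w22]

theorem w75 : v75 s a w = (((((g ((2 * h0) - (h0 - a))) - (1 / 2)) - (g (17 / 50 * s))) + (g s)) + (g ((s + a) - w))) := by rw [v75, w74, w10]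

theorem w76 : v76 s a w = ((((((g ((2 * h0) - (h0 - a))) - (1 / 2)) - (g (17 / 50 * s))) + (g s)) + (g ((s + a) - w))) + 1) := by rw [v76, w75, w8]

theorem w77 : v77 s a w = (((((((g ((2 * h0) - (h0 - a))) - (1 / 2)) - (g (17 / 50 * s))) + (g s)) + (g ((s + a) - w))) + 1) - (g (((h0 - a) + ((s + a) - w)) - (h0 + (33 / 50 * s))))) := by rw [v77, w76, w66]

theorem w78 : v78 s a w = (((g ((h0 + s) - (h0 - a))) - (g s)) + 1) := by rw [v78, w55, w8]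

theorem w79 : v79 s a w = ((((g ((h0 + s) - (h0 - a))) - (g s)) + 1) + (g ((s + a) - w))) := by rw [v79, w78, w10]

theorem w80 : v80 s a w = (((((g ((h0 + s) - (h0 - a))) - (g s)) + 1) + (g ((s + a) - w))) - (g (((h0 - a) + ((s + a) - w)) - h0))) := by rw [v80, w79, w44]

theorem w81 : v81 s a w = (((1 / 2 * (g ((s + a) - w))) + (h0 * ((s + a) - w))) + (g s)) := by rw [v81, w17, w22]

theorem w82 : v82 s a w = ((((1 / 2 * (g ((s + a) - w))) + (h0 * ((s + a) - w))) + (g s)) - (g (((h0 - a) + (ext ((s + a) - w))) - h0))) := by rw [v82, w81, w54]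

theorem w83 : v83 s a w = ((h0 + s) - ((h0 - a) + ((s + a) - w))) := by rw [v83, w32, w28]

theorem w84 : v84 s a w = (((h0 + s) - ((h0 - a) + ((s + a) - w))) ^ 2) := by rw [v84, w83]

theorem w85 : v85 s a w = (1 - (((h0 + s) - ((h0 - a) + ((s + a) - w))) ^ 2)) := by rw [v85, w8, w84]

theorem w86 : v86 s a w = (g ((h0 + s) - ((h0 - a) + ((s + a) - w)))) := by unfold v86; rw [w85]; rfl

theorem w87 : v87 s a w = (((((1 / 2 * (g ((s + a) - w))) + (h0 * ((s + a) - w))) + (g s)) - (g (((h0 - a) + (ext ((s + a) - w))) - h0))) - (g ((h0 + s) - ((h0 - a) + ((s + a) - w))))) := by rw [v87, w82, w86]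

theorem w88 : v88 s a w = ((((((((g ((h0 + s) - (h0 - a))) - (g s)) - 1) + (g (17 / 50 * s))) + (g ((s + a) - w))) + 1) - (((g (((h0 - a) + ((s + a) - w)) - h0)) + 1) - (g (17 / 50 * s)))) + (((((((g ((2 * h0) - (h0 - a))) - (1 / 2)) - (g (17 / 50 * s))) + (g s)) + (g ((s + a) - w))) + 1) - (g (((h0 - a) + ((s + a) - w)) - (h0 + (33 / 50 * s)))))) := by rw [v88, w60, w77]

theorem w89 : v89 s a w = (9 / 5 * ((((((((g ((h0 + s) - (h0 - a))) - (g s)) - 1) + (g (17 / 50 * s))) + (g ((s + a) - w))) + 1) - (((g (((h0 - a) + ((s + a) - w)) - h0)) + 1) - (g (17 / 50 * s)))) + (((((((g ((2 * h0) - (h0 - a))) - (1 / 2)) - (g (17 / 50 * s))) + (g s)) + (g ((s + a) - w))) + 1) - (g (((h0 - a) + ((s + a) - w)) - (h0 + (33 / 50 * s))))))) := by simp only [v89, w88, Nat.cast_ofNat, Nat.cast_one]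

theorem w90 : v90 s a w = ((((8 * (g (h0 - a))) - 4) - (4 * (g s))) + (9 / 5 * ((((((((g ((h0 + s) - (h0 - a))) - (g s)) - 1) + (g (17 / 50 * s))) + (g ((s + a) - w))) + 1) - (((g (((h0 - a) + ((s + a) - w)) - h0)) + 1) - (g (17 / 50 * s)))) + (((((((g ((2 * h0) - (h0 - a))) - (1 / 2)) - (g (17 / 50 * s))) + (g s)) + (g ((s + a) - w))) + 1) - (g (((h0 - a) + ((s + a) - w)) - (h0 + (33 / 50 * s)))))))) := by rw [v90, w40, w89]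

theorem w91 : v91 s a w = ((((((g ((h0 + s) - (h0 - a))) - (g s)) + 1) + (g ((s + a) - w))) - (g (((h0 - a) + ((s + a) - w)) - h0))) + (((((1 / 2 * (g ((s + a) - w))) + (h0 * ((s + a) - w))) + (g s)) - (g (((h0 - a) + (ext ((s + a) - w))) - h0))) - (g ((h0 + s) - ((h0 - a) + ((s + a) - w)))))) := by rw [v91, w80, w87]

theorem w92 : v92 s a w = (1 / 5 * ((((((g ((h0 + s) - (h0 - a))) - (g s)) + 1) + (g ((s + a) - w))) - (g (((h0 - a) + ((s + a) - w)) - h0))) + (((((1 / 2 * (g ((s + a) - w))) + (h0 * ((s + a) - w))) + (g s)) - (g (((h0 - a) + (ext ((s + a) - w))) - h0))) - (g ((h0 + s) - ((h0 - a) + ((s + a) - w))))))) := by simp only [v92, w91, Nat.cast_ofNat, Nat.cast_one]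

theorem w93 : v93 s a w = (((((8 * (g (h0 - a))) - 4) - (4 * (g s))) + (9 / 5 * ((((((((g ((h0 + s) - (h0 - a))) - (g s)) - 1) + (g (17 / 50 * s))) + (g ((s + a) - w))) + 1) - (((g (((h0 - a) + ((s + a) - w)) - h0)) + 1) - (g (17 / 50 * s)))) + (((((((g ((2 * h0) - (h0 - a))) - (1 / 2)) - (g (17 / 50 * s))) + (g s)) + (g ((s + a) - w))) + 1) - (g (((h0 - a) + ((s + a) - w)) - (h0 + (33 / 50 * s)))))))) + (1 / 5 * ((((((g ((h0 + s) - (h0 - a))) - (g s)) + 1) + (g ((s + a) - w))) - (g (((h0 - a) + ((s + a) - w)) - h0))) + (((((1 / 2 * (g ((s + a) - w))) + (h0 * ((s + a) - w))) + (g s)) - (g (((h0 - a) + (ext ((s + a) - w))) - h0))) - (g ((h0 + s) - ((h0 - a) + ((s + a) - w)))))))) := by rw [v93, w90, w92]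

theorem w98 : v98 s a w = 0 := by unfold v98; norm_num

theorem w99 : v99 s a w = (h0 - 0) := by rw [v99, w1, w98]

theorem w101 : v101 s a w = ((h0 - 0) ^ 2) := by rw [v101, w99]

theorem w104 : v104 s a w = (1 - ((h0 - 0) ^ 2)) := by rw [v104, w8, w101]

theorem w106 : v106 s a w = (g (h0 - 0)) := by unfold v106; rw [w104]; rfl

theorem w110 : v110 s a w = (8 * (g (h0 - 0))) := by simp only [v110, w106, Nat.cast_ofNat, Nat.cast_one]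

theorem w112 : v112 s a w = ((8 * (g (h0 - 0))) - 4) := by rw [v112, w110, w37]

theorem w113 : v113 s a w = (((8 * (g (h0 - 0))) - 4) - (4 * (g s))) := by rw [v113, w112, w39]

theorem w114 : v114 s a w = ((h0 + s) - (h0 - 0)) := by rw [v114, w32, w99]

theorem w116 : v116 s a w = (((h0 + s) - (h0 - 0)) ^ 2) := by rw [v116, w114]

theorem w119 : v119 s a w = (1 - (((h0 + s) - (h0 - 0)) ^ 2)) := by rw [v119, w8, w116]

theorem w121 : v121 s a w = (g ((h0 + s) - (h0 - 0))) := by unfold v121; rw [w119]; rfl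

theorem w125 : v125 s a w = ((g ((h0 + s) - (h0 - 0))) - (g s)) := by rw [v125, w121, w22]

theorem w126 : v126 s a w = (((g ((h0 + s) - (h0 - 0))) - (g s)) - 1) := by rw [v126, w125, w8]

theorem w127 : v127 s a w = ((((g ((h0 + s) - (h0 - 0))) - (g s)) - 1) + (g (17 / 50 * s))) := by rw [v127, w126, w26]

theorem w128 : v128 s a w = (s + 0) := by rw [v128, w2, w98]

theorem w158 : v158 s a w = ((2 * h0) - (h0 - 0)) := by rw [v158, w0, w99]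

theorem w159 : v159 s a w = (((2 * h0) - (h0 - 0)) ^ 2) := by rw [v159, w158]

theorem w162 : v162 s a w = (1 - (((2 * h0) - (h0 - 0)) ^ 2)) := by rw [v162, w8, w159]

theorem w164 : v164 s a w = (g ((2 * h0) - (h0 - 0))) := by unfold v164; rw [w162]; rfl

theorem w168 : v168 s a w = ((g ((2 * h0) - (h0 - 0))) - (1 / 2)) := by rw [v168, w164, w71]

theorem w169 : v169 s a w = (((g ((2 * h0) - (h0 - 0))) - (1 / 2)) - (g (17 / 50 * s))) := by rw [v169, w168, w26]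

theorem w170 : v170 s a w = ((((g ((2 * h0) - (h0 - 0))) - (1 / 2)) - (g (17 / 50 * s))) + (g s)) := by rw [v170, w169, w22]

theorem w192 : v192 s a w = (((g ((h0 + s) - (h0 - 0))) - (g s)) + 1) := by rw [v192, w125, w8]

theorem w241 : v241 s a w = ((s + 0) - 0) := by rw [v241, w128, w98]

theorem w242 : v242 s a w = (((s + 0) - 0) ^ 2) := by rw [v242, w241]

theorem w245 : v245 s a w = (1 - (((s + 0) - 0) ^ 2)) := by rw [v245, w8, w242]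

theorem w247 : v247 s a w = (g ((s + 0) - 0)) := by unfold v247; rw [w245]; rfl

theorem w251 : v251 s a w = (((((g ((h0 + s) - (h0 - 0))) - (g s)) - 1) + (g (17 / 50 * s))) + (g ((s + 0) - 0))) := by rw [v251, w127, w247]

theorem w252 : v252 s a w = ((((((g ((h0 + s) - (h0 - 0))) - (g s)) - 1) + (g (17 / 50 * s))) + (g ((s + 0) - 0))) + 1) := by rw [v252, w251, w8]

theorem w253 : v253 s a w = ((h0 - 0) + ((s + 0) - 0)) := by rw [v253, w99, w241]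

theorem w254 : v254 s a w = (((h0 - 0) + ((s + 0) - 0)) - h0) := by rw [v254, w253, w1]

theorem w255 : v255 s a w = ((((h0 - 0) + ((s + 0) - 0)) - h0) ^ 2) := by rw [v255, w254]

theorem w258 : v258 s a w = (1 - ((((h0 - 0) + ((s + 0) - 0)) - h0) ^ 2)) := by rw [v258, w8, w255]

theorem w260 : v260 s a w = (g (((h0 - 0) + ((s + 0) - 0)) - h0)) := by unfold v260; rw [w258]; rfl

theorem w264 : v264 s a w = ((g (((h0 - 0) + ((s + 0) - 0)) - h0)) + 1) := by rw [v264, w260, w8]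

theorem w265 : v265 s a w = (((g (((h0 - 0) + ((s + 0) - 0)) - h0)) + 1) - (g (17 / 50 * s))) := by rw [v265, w264, w26]

theorem w266 : v266 s a w = (((((((g ((h0 + s) - (h0 - 0))) - (g s)) - 1) + (g (17 / 50 * s))) + (g ((s + 0) - 0))) + 1) - (((g (((h0 - 0) + ((s + 0) - 0)) - h0)) + 1) - (g (17 / 50 * s)))) := by rw [v266, w252, w265]

theorem w268 : v268 s a w = (((((g ((2 * h0) - (h0 - 0))) - (1 / 2)) - (g (17 / 50 * s))) + (g s)) + (g ((s + 0) - 0))) := by rw [v268, w170, w247]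

theorem w269 : v269 s a w = ((((((g ((2 * h0) - (h0 - 0))) - (1 / 2)) - (g (17 / 50 * s))) + (g s)) + (g ((s + 0) - 0))) + 1) := by rw [v269, w268, w8]

theorem w270 : v270 s a w = (((h0 - 0) + ((s + 0) - 0)) - (h0 + (33 / 50 * s))) := by rw [v270, w253, w31]

theorem w271 : v271 s a w = ((((h0 - 0) + ((s + 0) - 0)) - (h0 + (33 / 50 * s))) ^ 2) := by rw [v271, w270]

theorem w274 : v274 s a w = (1 - ((((h0 - 0) + ((s + 0) - 0)) - (h0 + (33 / 50 * s))) ^ 2)) := by rw [v274, w8, w271]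

theorem w276 : v276 s a w = (g (((h0 - 0) + ((s + 0) - 0)) - (h0 + (33 / 50 * s)))) := by unfold v276; rw [w274]; rfl

theorem w280 : v280 s a w = (((((((g ((2 * h0) - (h0 - 0))) - (1 / 2)) - (g (17 / 50 * s))) + (g s)) + (g ((s + 0) - 0))) + 1) - (g (((h0 - 0) + ((s + 0) - 0)) - (h0 + (33 / 50 * s))))) := by rw [v280, w269, w276]

theorem w282 : v282 s a w = ((((((((g ((h0 + s) - (h0 - 0))) - (g s)) - 1) + (g (17 / 50 * s))) + (g ((s + 0) - 0))) + 1) - (((g (((h0 - 0) + ((s + 0) - 0)) - h0)) + 1) - (g (17 / 50 * s)))) + (((((((g ((2 * h0) - (h0 - 0))) - (1 / 2)) - (g (17 / 50 * s))) + (g s)) + (g ((s + 0) - 0))) + 1) - (g (((h0 - 0) + ((s + 0) - 0)) - (h0 + (33 / 50 * s)))))) := by rw [v282, w266, w280]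

theorem w284 : v284 s a w = (9 / 5 * ((((((((g ((h0 + s) - (h0 - 0))) - (g s)) - 1) + (g (17 / 50 * s))) + (g ((s + 0) - 0))) + 1) - (((g (((h0 - 0) + ((s + 0) - 0)) - h0)) + 1) - (g (17 / 50 * s)))) + (((((((g ((2 * h0) - (h0 - 0))) - (1 / 2)) - (g (17 / 50 * s))) + (g s)) + (g ((s + 0) - 0))) + 1) - (g (((h0 - 0) + ((s + 0) - 0)) - (h0 + (33 / 50 * s))))))) := by simp only [v284, w282, Nat.cast_ofNat, Nat.cast_one]

theorem w286 : v286 s a w = ((((8 * (g (h0 - 0))) - 4) - (4 * (g s))) + (9 / 5 * ((((((((g ((h0 + s) - (h0 - 0))) - (g s)) - 1) + (g (17 / 50 * s))) + (g ((s + 0) - 0))) + 1) - (((g (((h0 - 0) + ((s + 0) - 0)) - h0)) + 1) - (g (17 / 50 * s)))) + (((((((g ((2 * h0) - (h0 - 0))) - (1 / 2)) - (g (17 / 50 * s))) + (g s)) + (g ((s + 0) - 0))) + 1) - (g (((h0 - 0) + ((s + 0) - 0)) - (h0 + (33 / 50 * s)))))))) := by rw [v286, w113, w284]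

theorem w287 : v287 s a w = ((((g ((h0 + s) - (h0 - 0))) - (g s)) + 1) + (g ((s + 0) - 0))) := by rw [v287, w192, w247]

theorem w288 : v288 s a w = (((((g ((h0 + s) - (h0 - 0))) - (g s)) + 1) + (g ((s + 0) - 0))) - (g (((h0 - 0) + ((s + 0) - 0)) - h0))) := by rw [v288, w287, w260]

theorem w289 : v289 s a w = (1 / 2 * (g ((s + 0) - 0))) := by simp only [v289, w247, Nat.cast_ofNat, Nat.cast_one]

theorem w291 : v291 s a w = (h0 * ((s + 0) - 0)) := by rw [v291, w1, w241]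

theorem w293 : v293 s a w = ((1 / 2 * (g ((s + 0) - 0))) + (h0 * ((s + 0) - 0))) := by rw [v293, w289, w291]

theorem w295 : v295 s a w = (((1 / 2 * (g ((s + 0) - 0))) + (h0 * ((s + 0) - 0))) + (g s)) := by rw [v295, w293, w22]

theorem w296 : v296 s a w = (1 / 2 * ((s + 0) - 0)) := by simp only [v296, w241, Nat.cast_ofNat, Nat.cast_one]

theorem w298 : v298 s a w = (h0 * (g ((s + 0) - 0))) := by rw [v298, w1, w247]

theorem w300 : v300 s a w = ((1 / 2 * ((s + 0) - 0)) + (h0 * (g ((s + 0) - 0)))) := by rw [v300, w296, w298]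

theorem w302 : v302 s a w = ((h0 - 0) + ((1 / 2 * ((s + 0) - 0)) + (h0 * (g ((s + 0) - 0))))) := by rw [v302, w99, w300]

theorem w303 : v303 s a w = (((h0 - 0) + ((1 / 2 * ((s + 0) - 0)) + (h0 * (g ((s + 0) - 0))))) - h0) := by rw [v303, w302, w1]

theorem w304 : v304 s a w = ((((h0 - 0) + ((1 / 2 * ((s + 0) - 0)) + (h0 * (g ((s + 0) - 0))))) - h0) ^ 2) := by rw [v304, w303]

theorem w307 : v307 s a w = (1 - ((((h0 - 0) + ((1 / 2 * ((s + 0) - 0)) + (h0 * (g ((s + 0) - 0))))) - h0) ^ 2)) := by rw [v307, w8, w304]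

theorem w309 : v309 s a w = (g (((h0 - 0) + ((1 / 2 * ((s + 0) - 0)) + (h0 * (g ((s + 0) - 0))))) - h0)) := by unfold v309; rw [w307]; rfl

theorem w313 : v313 s a w = ((((1 / 2 * (g ((s + 0) - 0))) + (h0 * ((s + 0) - 0))) + (g s)) - (g (((h0 - 0) + ((1 / 2 * ((s + 0) - 0)) + (h0 * (g ((s + 0) - 0))))) - h0))) := by rw [v313, w295, w309]

theorem w315 : v315 s a w = ((h0 + s) - ((h0 - 0) + ((s + 0) - 0))) := by rw [v315, w32, w253]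

theorem w316 : v316 s a w = (((h0 + s) - ((h0 - 0) + ((s + 0) - 0))) ^ 2) := by rw [v316, w315]

theorem w319 : v319 s a w = (1 - (((h0 + s) - ((h0 - 0) + ((s + 0) - 0))) ^ 2)) := by rw [v319, w8, w316]

theorem w321 : v321 s a w = (g ((h0 + s) - ((h0 - 0) + ((s + 0) - 0)))) := by unfold v321; rw [w319]; rfl

theorem w325 : v325 s a w = (((((1 / 2 * (g ((s + 0) - 0))) + (h0 * ((s + 0) - 0))) + (g s)) - (g (((h0 - 0) + ((1 / 2 * ((s + 0) - 0)) + (h0 * (g ((s + 0) - 0))))) - h0))) - (g ((h0 + s) - ((h0 - 0) + ((s + 0) - 0))))) := by rw [v325, w313, w321]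

theorem w327 : v327 s a w = ((((((g ((h0 + s) - (h0 - 0))) - (g s)) + 1) + (g ((s + 0) - 0))) - (g (((h0 - 0) + ((s + 0) - 0)) - h0))) + (((((1 / 2 * (g ((s + 0) - 0))) + (h0 * ((s + 0) - 0))) + (g s)) - (g (((h0 - 0) + ((1 / 2 * ((s + 0) - 0)) + (h0 * (g ((s + 0) - 0))))) - h0))) - (g ((h0 + s) - ((h0 - 0) + ((s + 0) - 0)))))) := by rw [v327, w288, w325]

theorem w329 : v329 s a w = (1 / 5 * ((((((g ((h0 + s) - (h0 - 0))) - (g s)) + 1) + (g ((s + 0) - 0))) - (g (((h0 - 0) + ((s + 0) - 0)) - h0))) + (((((1 / 2 * (g ((s + 0) - 0))) + (h0 * ((s + 0) - 0))) + (g s)) - (g (((h0 - 0) + ((1 / 2 * ((s + 0) - 0)) + (h0 * (g ((s + 0) - 0))))) - h0))) - (g ((h0 + s) - ((h0 - 0) + ((s + 0) - 0))))))) := by simp only [v329, w327, Nat.cast_ofNat, Nat.cast_one]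

theorem w331 : v331 s a w = (((((8 * (g (h0 - 0))) - 4) - (4 * (g s))) + (9 / 5 * ((((((((g ((h0 + s) - (h0 - 0))) - (g s)) - 1) + (g (17 / 50 * s))) + (g ((s + 0) - 0))) + 1) - (((g (((h0 - 0) + ((s + 0) - 0)) - h0)) + 1) - (g (17 / 50 * s)))) + (((((((g ((2 * h0) - (h0 - 0))) - (1 / 2)) - (g (17 / 50 * s))) + (g s)) + (g ((s + 0) - 0))) + 1) - (g (((h0 - 0) + ((s + 0) - 0)) - (h0 + (33 / 50 * s)))))))) + (1 / 5 * ((((((g ((h0 + s) - (h0 - 0))) - (g s)) + 1) + (g ((s + 0) - 0))) - (g (((h0 - 0) + ((s + 0) - 0)) - h0))) + (((((1 / 2 * (g ((s + 0) - 0))) + (h0 * ((s + 0) - 0))) + (g s)) - (g (((h0 - 0) + ((1 / 2 * ((s + 0) - 0)) + (h0 * (g ((s + 0) - 0))))) - h0))) - (g ((h0 + s) - ((h0 - 0) + ((s + 0) - 0)))))))) := by rw [v331, w286, w329]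

end

theorem f00 {s a w : ℝ} (hl1 : 66 / 125 ≤ s) (hu1 : s ≤ 57 / 100) (hl2 : 0 ≤ a) (hu2 : a ≤ 1 / 80) (hl3 : 0 ≤ w) (hu3 : w ≤ 1 / 500) (hp1 : 0 ≤ a) (hp2 : 0 ≤ w) : 0 ≤ v331 s a w := by
  rw [w331]
  simp only [add_zero, sub_zero, mul_zero, zero_mul, zero_add, gh0, qh0, Gh0, sub_self, add_sub_cancel_right, add_sub_cancel_left, g_zero]
  have e := gext (p := s) (by linarith) (by linarith)
  unfold ext at e
  apply le_of_eq
  ring_nf at e ⊢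
  first
    | linarith [gh0]
    | (rw [g_zero]; linarith [gh0])

theorem c_ok : chk f 60 ⟨589484261, 0, 22548579, 6710886, 0, 6710887, 1073741, 0, 1073743⟩ = true := by decide +kernel

theorem main {s a w : ℝ} (hl1 : 66 / 125 ≤ s) (hu1 : s ≤ 57 / 100) (hl2 : 0 ≤ a) (hu2 : a ≤ 1 / 80) (hl3 : 0 ≤ w) (hu3 : w ≤ 1 / 500) (hp1 : 0 ≤ a) (hp2 : 0 ≤ w) :
    0 ≤ (((((8 * (g (h0 - a))) - 4) - (4 * (g s))) + (9 / 5 * ((((((((g ((h0 + s) - (h0 - a))) - (g s)) - 1) + (g (17 / 50 * s))) + (g ((s + a) - w))) + 1) - (((g (((h0 - a) + ((s + a) - w)) - h0)) + 1) - (g (17 / 50 * s)))) + (((((((g ((2 * h0) - (h0 - a))) - (1 / 2)) - (g (17 / 50 * s))) + (g s)) + (g ((s + a) - w))) + 1) - (g (((h0 - a) + ((s + a) - w)) - (h0 + (33 / 50 * s)))))))) + (1 / 5 * ((((((g ((h0 + s) - (h0 - a))) - (g s)) + 1) + (g ((s + a) - w))) - (g (((h0 - a) + ((s + a) - w)) - h0))) + (((((1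 / 2 * (g ((s + a) - w))) + (h0 * ((s + a) - w))) + (g s)) - (g (((h0 - a) + (ext ((s + a) - w))) - h0))) - (g ((h0 + s) - ((h0 - a) + ((s + a) - w)))))))) := by
  have hm : Mem S ⟨589484261, 0, 22548579, 6710886, 0, 6710887, 1073741, 0, 1073743⟩ s a w := by
    refine ⟨?_, ?_, ?_⟩ <;> norm_num only [S] <;> rw [abs_le] <;> constructor <;> linarith
  have h := chk_sound f_sound 60 _ c_ok s a w hm
  unfold Q at h
  obtain ⟨q1, q2, hc⟩ := h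
  rw [← w93]
  have e0 := f00 hl1 hu1 hl2 hu2 hl3 hu3 hp1 hp2
  rw [sa_93 hc]
  rw [sb_239 hc]
  have m1 := mul_nonneg hp1 q1.le
  have m2 := mul_nonneg hp2 q2.le
  linarith
end Pool.Agent.Strip051.FourE.NUbc
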