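import Pool.Agent.Strip051.Box.B3
import Pool.Agent.Strip051.Four.Defs

/-! # Generated boxes: NUbcD  -/

set_option maxRecDepth 100000
set_option linter.unusedVariables false

namespace Pool.Agent.Strip051.FourE.NUbcD

open Pool.Agent.Strip051.Box Pool.Agent.Strip051.Box3
open Pool.Agent.StripNear (h0)
open Pool.Agent.StripSquare (g)
open Pool.Agent.Strip051 (ext)

abbrev S : Nat := 1073741824

theorem hS : 0 < S := by decide

def In (b : Bx) (E : Pt) (x1 x2 x3 : ℝ) : Prop :=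
  (S : ℝ) * x1 = ((b.p1 : ℝ) - b.n1) + b.q1 * E.e1 ∧ (S : ℝ) * x2 = ((b.p2 : ℝ) - b.n2) + b.q2 * E.e2 ∧ (S : ℝ) * x3 = ((b.p3 : ℝ) - b.n3) + b.q3 * E.e3

section

variable {b : Bx} {E : Pt} {x1 x2 x3 : ℝ}

def t0 (_b : Bx) : TM := tconst 1859775393 0 1
noncomputable def v0 (_x1 _x2 _x3 : ℝ) : ℝ := Real.sqrt ((3 : ℕ) : ℝ)
theorem en0 (_h : In b E x1 x2 x3) : Enc S E (t0 b) (v0 x1 x2 x3) := enc_sqrtn E (by decide) (by decide)

def t1 (b : Bx) : TM := tscale 1 2 (t0 b)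
noncomputable def v1 (x1 x2 x3 : ℝ) : ℝ := ((1 : ℕ) : ℝ) / ((2 : ℕ) : ℝ) * v0 x1 x2 x3
theorem en1 (h : In b E x1 x2 x3) : Enc S E (t1 b) (v1 x1 x2 x3) := enc_scale 1 (by norm_num) (en0 h)

def t2 (b : Bx) : TM := X1 b
noncomputable def v2 (x1 _x2 _x3 : ℝ) : ℝ := x1
theorem en2 (h : In b E x1 x2 x3) : Enc S E (t2 b) (v2 x1 x2 x3) := enc_X1 h.1

def t3 (b : Bx) : TM := X2 b
noncomputable def v3 (_x1 x2 _x3 : ℝ) : ℝ := x2
theorem en3 (h : In b E x1 x2 x3) : Enc S E (t3 b) (v3 x1 x2 x3) := enc_X2 h.2.1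

def t4 (b : Bx) : TM := X3 b
noncomputable def v4 (_x1 _x2 x3 : ℝ) : ℝ := x3
theorem en4 (h : In b E x1 x2 x3) : Enc S E (t4 b) (v4 x1 x2 x3) := enc_X3 h.2.2

def t5 (b : Bx) : TM := tadd (t2 b) (t3 b)
noncomputable def v5 (x1 x2 x3 : ℝ) : ℝ := v2 x1 x2 x3 + v3 x1 x2 x3
theorem en5 (h : In b E x1 x2 x3) : Enc S E (t5 b) (v5 x1 x2 x3) := enc_add (en2 h) (en3 h)

def t6 (b : Bx) : TM := tsub (t5 b) (t4 b)
noncomputable def v6 (x1 x2 x3 : ℝ) : ℝ := v5 x1 x2 x3 - v4 x1 x2 x3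
theorem en6 (h : In b E x1 x2 x3) : Enc S E (t6 b) (v6 x1 x2 x3) := enc_sub (en5 h) (en4 h)

def t7 (b : Bx) : TM := tsq S (t6 b)
noncomputable def v7 (x1 x2 x3 : ℝ) : ℝ := (v6 x1 x2 x3) ^ 2
theorem en7 (h : In b E x1 x2 x3) : Enc S E (t7 b) (v7 x1 x2 x3) := enc_sq hS (en6 h)

def t8 (_b : Bx) : TM := tconst (Nat.mul 1 S) 0 0
noncomputable def v8 (_x1 _x2 _x3 : ℝ) : ℝ := ((1 : ℕ) : ℝ)
theorem en8 (_h : In b E x1 x2 x3) : Enc S E (t8 b) (v8 x1 x2 x3) := enc_nc E 1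

def t9 (b : Bx) : TM := tsub (t8 b) (t7 b)
noncomputable def v9 (x1 x2 x3 : ℝ) : ℝ := v8 x1 x2 x3 - v7 x1 x2 x3
theorem en9 (h : In b E x1 x2 x3) : Enc S E (t9 b) (v9 x1 x2 x3) := enc_sub (en8 h) (en7 h)

def t10 (b : Bx) : TM := tsqrt S (t9 b)
noncomputable def v10 (x1 x2 x3 : ℝ) : ℝ := Real.sqrt (v9 x1 x2 x3)
theorem en10 (h : In b E x1 x2 x3) : Enc S E (t10 b) (v10 x1 x2 x3) := enc_sqrt hS (en9 h)

def t11 (b : Bx) : TM := tmul S (t1 b) (t10 b)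
noncomputable def v11 (x1 x2 x3 : ℝ) : ℝ := v1 x1 x2 x3 * v10 x1 x2 x3
theorem en11 (h : In b E x1 x2 x3) : Enc S E (t11 b) (v11 x1 x2 x3) := enc_mul hS (en1 h) (en10 h)

def t12 (b : Bx) : TM := tscale 1 2 (t6 b)
noncomputable def v12 (x1 x2 x3 : ℝ) : ℝ := ((1 : ℕ) : ℝ) / ((2 : ℕ) : ℝ) * v6 x1 x2 x3
theorem en12 (h : In b E x1 x2 x3) : Enc S E (t12 b) (v12 x1 x2 x3) := enc_scale 1 (by norm_num) (en6 h)

def t14 (b : Bx) : TM := tadd (t12 b) (t11 b)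
noncomputable def v14 (x1 x2 x3 : ℝ) : ℝ := v12 x1 x2 x3 + v11 x1 x2 x3
theorem en14 (h : In b E x1 x2 x3) : Enc S E (t14 b) (v14 x1 x2 x3) := enc_add (en12 h) (en11 h)

def t15 (b : Bx) : TM := tscale 1 2 (t10 b)
noncomputable def v15 (x1 x2 x3 : ℝ) : ℝ := ((1 : ℕ) : ℝ) / ((2 : ℕ) : ℝ) * v10 x1 x2 x3
theorem en15 (h : In b E x1 x2 x3) : Enc S E (t15 b) (v15 x1 x2 x3) := enc_scale 1 (by norm_num) (en10 h)

def t16 (b : Bx) : TM := tmul S (t1 b) (t6 b)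
noncomputable def v16 (x1 x2 x3 : ℝ) : ℝ := v1 x1 x2 x3 * v6 x1 x2 x3
theorem en16 (h : In b E x1 x2 x3) : Enc S E (t16 b) (v16 x1 x2 x3) := enc_mul hS (en1 h) (en6 h)

def t17 (b : Bx) : TM := tadd (t15 b) (t16 b)
noncomputable def v17 (x1 x2 x3 : ℝ) : ℝ := v15 x1 x2 x3 + v16 x1 x2 x3
theorem en17 (h : In b E x1 x2 x3) : Enc S E (t17 b) (v17 x1 x2 x3) := enc_add (en15 h) (en16 h)

def t19 (b : Bx) : TM := tsub (t1 b) (t3 b)
noncomputable def v19 (x1 x2 x3 : ℝ) : ℝ := v1 x1 x2 x3 - v3 x1 x2 x3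
theorem en19 (h : In b E x1 x2 x3) : Enc S E (t19 b) (v19 x1 x2 x3) := enc_sub (en1 h) (en3 h)

def t20 (b : Bx) : TM := tsq S (t2 b)
noncomputable def v20 (x1 x2 x3 : ℝ) : ℝ := (v2 x1 x2 x3) ^ 2
theorem en20 (h : In b E x1 x2 x3) : Enc S E (t20 b) (v20 x1 x2 x3) := enc_sq hS (en2 h)

def t21 (b : Bx) : TM := tsub (t8 b) (t20 b)
noncomputable def v21 (x1 x2 x3 : ℝ) : ℝ := v8 x1 x2 x3 - v20 x1 x2 x3
theorem en21 (h : In b E x1 x2 x3) : Enc S E (t21 b) (v21 x1 x2 x3) := enc_sub (en8 h) (en20 h)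

def t22 (b : Bx) : TM := tsqrt S (t21 b)
noncomputable def v22 (x1 x2 x3 : ℝ) : ℝ := Real.sqrt (v21 x1 x2 x3)
theorem en22 (h : In b E x1 x2 x3) : Enc S E (t22 b) (v22 x1 x2 x3) := enc_sqrt hS (en21 h)

def t23 (b : Bx) : TM := tscale 17 50 (t2 b)
noncomputable def v23 (x1 x2 x3 : ℝ) : ℝ := ((17 : ℕ) : ℝ) / ((50 : ℕ) : ℝ) * v2 x1 x2 x3
theorem en23 (h : In b E x1 x2 x3) : Enc S E (t23 b) (v23 x1 x2 x3) := enc_scale 17 (by norm_num) (en2 h)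

def t24 (b : Bx) : TM := tsq S (t23 b)
noncomputable def v24 (x1 x2 x3 : ℝ) : ℝ := (v23 x1 x2 x3) ^ 2
theorem en24 (h : In b E x1 x2 x3) : Enc S E (t24 b) (v24 x1 x2 x3) := enc_sq hS (en23 h)

def t25 (b : Bx) : TM := tsub (t8 b) (t24 b)
noncomputable def v25 (x1 x2 x3 : ℝ) : ℝ := v8 x1 x2 x3 - v24 x1 x2 x3
theorem en25 (h : In b E x1 x2 x3) : Enc S E (t25 b) (v25 x1 x2 x3) := enc_sub (en8 h) (en24 h)

def t26 (b : Bx) : TM := tsqrt S (t25 b)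
noncomputable def v26 (x1 x2 x3 : ℝ) : ℝ := Real.sqrt (v25 x1 x2 x3)
theorem en26 (h : In b E x1 x2 x3) : Enc S E (t26 b) (v26 x1 x2 x3) := enc_sqrt hS (en25 h)

def t27 (b : Bx) : TM := tadd (t19 b) (t14 b)
noncomputable def v27 (x1 x2 x3 : ℝ) : ℝ := v19 x1 x2 x3 + v14 x1 x2 x3
theorem en27 (h : In b E x1 x2 x3) : Enc S E (t27 b) (v27 x1 x2 x3) := enc_add (en19 h) (en14 h)

def t28 (b : Bx) : TM := tadd (t19 b) (t6 b)
noncomputable def v28 (x1 x2 x3 : ℝ) : ℝ := v19 x1 x2 x3 + v6 x1 x2 x3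
theorem en28 (h : In b E x1 x2 x3) : Enc S E (t28 b) (v28 x1 x2 x3) := enc_add (en19 h) (en6 h)

def t30 (b : Bx) : TM := tscale 33 50 (t2 b)
noncomputable def v30 (x1 x2 x3 : ℝ) : ℝ := ((33 : ℕ) : ℝ) / ((50 : ℕ) : ℝ) * v2 x1 x2 x3
theorem en30 (h : In b E x1 x2 x3) : Enc S E (t30 b) (v30 x1 x2 x3) := enc_scale 33 (by norm_num) (en2 h)

def t31 (b : Bx) : TM := tadd (t1 b) (t30 b)
noncomputable def v31 (x1 x2 x3 : ℝ) : ℝ := v1 x1 x2 x3 + v30 x1 x2 x3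
theorem en31 (h : In b E x1 x2 x3) : Enc S E (t31 b) (v31 x1 x2 x3) := enc_add (en1 h) (en30 h)

def t32 (b : Bx) : TM := tadd (t1 b) (t2 b)
noncomputable def v32 (x1 x2 x3 : ℝ) : ℝ := v1 x1 x2 x3 + v2 x1 x2 x3
theorem en32 (h : In b E x1 x2 x3) : Enc S E (t32 b) (v32 x1 x2 x3) := enc_add (en1 h) (en2 h)

def t33 (b : Bx) : TM := tsq S (t19 b)
noncomputable def v33 (x1 x2 x3 : ℝ) : ℝ := (v19 x1 x2 x3) ^ 2
theorem en33 (h : In b E x1 x2 x3) : Enc S E (t33 b) (v33 x1 x2 x3) := enc_sq hS (en19 h)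

def t34 (b : Bx) : TM := tsub (t8 b) (t33 b)
noncomputable def v34 (x1 x2 x3 : ℝ) : ℝ := v8 x1 x2 x3 - v33 x1 x2 x3
theorem en34 (h : In b E x1 x2 x3) : Enc S E (t34 b) (v34 x1 x2 x3) := enc_sub (en8 h) (en33 h)

def t35 (b : Bx) : TM := tsqrt S (t34 b)
noncomputable def v35 (x1 x2 x3 : ℝ) : ℝ := Real.sqrt (v34 x1 x2 x3)
theorem en35 (h : In b E x1 x2 x3) : Enc S E (t35 b) (v35 x1 x2 x3) := enc_sqrt hS (en34 h)

def t36 (b : Bx) : TM := tnat 8 (t35 b)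
noncomputable def v36 (x1 x2 x3 : ℝ) : ℝ := ((8 : ℕ) : ℝ) * v35 x1 x2 x3
theorem en36 (h : In b E x1 x2 x3) : Enc S E (t36 b) (v36 x1 x2 x3) := enc_nat 8 (en35 h)

def t37 (_b : Bx) : TM := tconst (Nat.mul 4 S) 0 0
noncomputable def v37 (_x1 _x2 _x3 : ℝ) : ℝ := ((4 : ℕ) : ℝ)
theorem en37 (_h : In b E x1 x2 x3) : Enc S E (t37 b) (v37 x1 x2 x3) := enc_nc E 4

def t38 (b : Bx) : TM := tsub (t36 b) (t37 b)
noncomputable def v38 (x1 x2 x3 : ℝ) : ℝ := v36 x1 x2 x3 - v37 x1 x2 x3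
theorem en38 (h : In b E x1 x2 x3) : Enc S E (t38 b) (v38 x1 x2 x3) := enc_sub (en36 h) (en37 h)

def t39 (b : Bx) : TM := tnat 4 (t22 b)
noncomputable def v39 (x1 x2 x3 : ℝ) : ℝ := ((4 : ℕ) : ℝ) * v22 x1 x2 x3
theorem en39 (h : In b E x1 x2 x3) : Enc S E (t39 b) (v39 x1 x2 x3) := enc_nat 4 (en22 h)

def t40 (b : Bx) : TM := tsub (t38 b) (t39 b)
noncomputable def v40 (x1 x2 x3 : ℝ) : ℝ := v38 x1 x2 x3 - v39 x1 x2 x3
theorem en40 (h : In b E x1 x2 x3) : Enc S E (t40 b) (v40 x1 x2 x3) := enc_sub (en38 h) (en39 h)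

def t41 (b : Bx) : TM := tsub (t28 b) (t1 b)
noncomputable def v41 (x1 x2 x3 : ℝ) : ℝ := v28 x1 x2 x3 - v1 x1 x2 x3
theorem en41 (h : In b E x1 x2 x3) : Enc S E (t41 b) (v41 x1 x2 x3) := enc_sub (en28 h) (en1 h)

def t42 (b : Bx) : TM := tsq S (t41 b)
noncomputable def v42 (x1 x2 x3 : ℝ) : ℝ := (v41 x1 x2 x3) ^ 2
theorem en42 (h : In b E x1 x2 x3) : Enc S E (t42 b) (v42 x1 x2 x3) := enc_sq hS (en41 h)

def t43 (b : Bx) : TM := tsub (t8 b) (t42 b)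
noncomputable def v43 (x1 x2 x3 : ℝ) : ℝ := v8 x1 x2 x3 - v42 x1 x2 x3
theorem en43 (h : In b E x1 x2 x3) : Enc S E (t43 b) (v43 x1 x2 x3) := enc_sub (en8 h) (en42 h)

def t44 (b : Bx) : TM := tsqrt S (t43 b)
noncomputable def v44 (x1 x2 x3 : ℝ) : ℝ := Real.sqrt (v43 x1 x2 x3)
theorem en44 (h : In b E x1 x2 x3) : Enc S E (t44 b) (v44 x1 x2 x3) := enc_sqrt hS (en43 h)

def t45 (b : Bx) : TM := tadd (t44 b) (t8 b)
noncomputable def v45 (x1 x2 x3 : ℝ) : ℝ := v44 x1 x2 x3 + v8 x1 x2 x3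
theorem en45 (h : In b E x1 x2 x3) : Enc S E (t45 b) (v45 x1 x2 x3) := enc_add (en44 h) (en8 h)

def t46 (b : Bx) : TM := tsub (t45 b) (t26 b)
noncomputable def v46 (x1 x2 x3 : ℝ) : ℝ := v45 x1 x2 x3 - v26 x1 x2 x3
theorem en46 (h : In b E x1 x2 x3) : Enc S E (t46 b) (v46 x1 x2 x3) := enc_sub (en45 h) (en26 h)

def t47 (b : Bx) : TM := tsub (t32 b) (t19 b)
noncomputable def v47 (x1 x2 x3 : ℝ) : ℝ := v32 x1 x2 x3 - v19 x1 x2 x3
theorem en47 (h : In b E x1 x2 x3) : Enc S E (t47 b) (v47 x1 x2 x3) := enc_sub (en32 h) (en19 h)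

def t48 (b : Bx) : TM := tsq S (t47 b)
noncomputable def v48 (x1 x2 x3 : ℝ) : ℝ := (v47 x1 x2 x3) ^ 2
theorem en48 (h : In b E x1 x2 x3) : Enc S E (t48 b) (v48 x1 x2 x3) := enc_sq hS (en47 h)

def t49 (b : Bx) : TM := tsub (t8 b) (t48 b)
noncomputable def v49 (x1 x2 x3 : ℝ) : ℝ := v8 x1 x2 x3 - v48 x1 x2 x3
theorem en49 (h : In b E x1 x2 x3) : Enc S E (t49 b) (v49 x1 x2 x3) := enc_sub (en8 h) (en48 h)

def t50 (b : Bx) : TM := tsqrt S (t49 b)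
noncomputable def v50 (x1 x2 x3 : ℝ) : ℝ := Real.sqrt (v49 x1 x2 x3)
theorem en50 (h : In b E x1 x2 x3) : Enc S E (t50 b) (v50 x1 x2 x3) := enc_sqrt hS (en49 h)

def t51 (b : Bx) : TM := tsub (t27 b) (t1 b)
noncomputable def v51 (x1 x2 x3 : ℝ) : ℝ := v27 x1 x2 x3 - v1 x1 x2 x3
theorem en51 (h : In b E x1 x2 x3) : Enc S E (t51 b) (v51 x1 x2 x3) := enc_sub (en27 h) (en1 h)

def t52 (b : Bx) : TM := tsq S (t51 b)
noncomputable def v52 (x1 x2 x3 : ℝ) : ℝ := (v51 x1 x2 x3) ^ 2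
theorem en52 (h : In b E x1 x2 x3) : Enc S E (t52 b) (v52 x1 x2 x3) := enc_sq hS (en51 h)

def t53 (b : Bx) : TM := tsub (t8 b) (t52 b)
noncomputable def v53 (x1 x2 x3 : ℝ) : ℝ := v8 x1 x2 x3 - v52 x1 x2 x3
theorem en53 (h : In b E x1 x2 x3) : Enc S E (t53 b) (v53 x1 x2 x3) := enc_sub (en8 h) (en52 h)

def t54 (b : Bx) : TM := tsqrtg S (t53 b)
noncomputable def v54 (x1 x2 x3 : ℝ) : ℝ := Real.sqrt (v53 x1 x2 x3)
theorem en54 (h : In b E x1 x2 x3) : Enc S E (t54 b) (v54 x1 x2 x3) := enc_sqrtg hS (en53 h)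

def t55 (b : Bx) : TM := tsub (t50 b) (t22 b)
noncomputable def v55 (x1 x2 x3 : ℝ) : ℝ := v50 x1 x2 x3 - v22 x1 x2 x3
theorem en55 (h : In b E x1 x2 x3) : Enc S E (t55 b) (v55 x1 x2 x3) := enc_sub (en50 h) (en22 h)

def t56 (b : Bx) : TM := tsub (t55 b) (t8 b)
noncomputable def v56 (x1 x2 x3 : ℝ) : ℝ := v55 x1 x2 x3 - v8 x1 x2 x3
theorem en56 (h : In b E x1 x2 x3) : Enc S E (t56 b) (v56 x1 x2 x3) := enc_sub (en55 h) (en8 h)

def t57 (b : Bx) : TM := tadd (t56 b) (t26 b)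
noncomputable def v57 (x1 x2 x3 : ℝ) : ℝ := v56 x1 x2 x3 + v26 x1 x2 x3
theorem en57 (h : In b E x1 x2 x3) : Enc S E (t57 b) (v57 x1 x2 x3) := enc_add (en56 h) (en26 h)

def t58 (b : Bx) : TM := tadd (t57 b) (t10 b)
noncomputable def v58 (x1 x2 x3 : ℝ) : ℝ := v57 x1 x2 x3 + v10 x1 x2 x3
theorem en58 (h : In b E x1 x2 x3) : Enc S E (t58 b) (v58 x1 x2 x3) := enc_add (en57 h) (en10 h)

def t59 (b : Bx) : TM := tadd (t58 b) (t8 b)
noncomputable def v59 (x1 x2 x3 : ℝ) : ℝ := v58 x1 x2 x3 + v8 x1 x2 x3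
theorem en59 (h : In b E x1 x2 x3) : Enc S E (t59 b) (v59 x1 x2 x3) := enc_add (en58 h) (en8 h)

def t60 (b : Bx) : TM := tsub (t59 b) (t46 b)
noncomputable def v60 (x1 x2 x3 : ℝ) : ℝ := v59 x1 x2 x3 - v46 x1 x2 x3
theorem en60 (h : In b E x1 x2 x3) : Enc S E (t60 b) (v60 x1 x2 x3) := enc_sub (en59 h) (en46 h)

def t63 (b : Bx) : TM := tsub (t28 b) (t31 b)
noncomputable def v63 (x1 x2 x3 : ℝ) : ℝ := v28 x1 x2 x3 - v31 x1 x2 x3
theorem en63 (h : In b E x1 x2 x3) : Enc S E (t63 b) (v63 x1 x2 x3) := enc_sub (en28 h) (en31 h)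

def t64 (b : Bx) : TM := tsq S (t63 b)
noncomputable def v64 (x1 x2 x3 : ℝ) : ℝ := (v63 x1 x2 x3) ^ 2
theorem en64 (h : In b E x1 x2 x3) : Enc S E (t64 b) (v64 x1 x2 x3) := enc_sq hS (en63 h)

def t65 (b : Bx) : TM := tsub (t8 b) (t64 b)
noncomputable def v65 (x1 x2 x3 : ℝ) : ℝ := v8 x1 x2 x3 - v64 x1 x2 x3
theorem en65 (h : In b E x1 x2 x3) : Enc S E (t65 b) (v65 x1 x2 x3) := enc_sub (en8 h) (en64 h)

def t66 (b : Bx) : TM := tsqrt S (t65 b)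
noncomputable def v66 (x1 x2 x3 : ℝ) : ℝ := Real.sqrt (v65 x1 x2 x3)
theorem en66 (h : In b E x1 x2 x3) : Enc S E (t66 b) (v66 x1 x2 x3) := enc_sqrt hS (en65 h)

def t67 (b : Bx) : TM := tsub (t0 b) (t19 b)
noncomputable def v67 (x1 x2 x3 : ℝ) : ℝ := v0 x1 x2 x3 - v19 x1 x2 x3
theorem en67 (h : In b E x1 x2 x3) : Enc S E (t67 b) (v67 x1 x2 x3) := enc_sub (en0 h) (en19 h)

def t68 (b : Bx) : TM := tsq S (t67 b)
noncomputable def v68 (x1 x2 x3 : ℝ) : ℝ := (v67 x1 x2 x3) ^ 2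
theorem en68 (h : In b E x1 x2 x3) : Enc S E (t68 b) (v68 x1 x2 x3) := enc_sq hS (en67 h)

def t69 (b : Bx) : TM := tsub (t8 b) (t68 b)
noncomputable def v69 (x1 x2 x3 : ℝ) : ℝ := v8 x1 x2 x3 - v68 x1 x2 x3
theorem en69 (h : In b E x1 x2 x3) : Enc S E (t69 b) (v69 x1 x2 x3) := enc_sub (en8 h) (en68 h)

def t70 (b : Bx) : TM := tsqrt S (t69 b)
noncomputable def v70 (x1 x2 x3 : ℝ) : ℝ := Real.sqrt (v69 x1 x2 x3)
theorem en70 (h : In b E x1 x2 x3) : Enc S E (t70 b) (v70 x1 x2 x3) := enc_sqrt hS (en69 h)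

def t71 (_b : Bx) : TM := tconst (Nat.div (Nat.mul 1 S) 2) 0 1
noncomputable def v71 (_x1 _x2 _x3 : ℝ) : ℝ := ((1 : ℕ) : ℝ) / ((2 : ℕ) : ℝ)
theorem en71 (_h : In b E x1 x2 x3) : Enc S E (t71 b) (v71 x1 x2 x3) := enc_rat E 1 (by norm_num)

def t72 (b : Bx) : TM := tsub (t70 b) (t71 b)
noncomputable def v72 (x1 x2 x3 : ℝ) : ℝ := v70 x1 x2 x3 - v71 x1 x2 x3
theorem en72 (h : In b E x1 x2 x3) : Enc S E (t72 b) (v72 x1 x2 x3) := enc_sub (en70 h) (en71 h)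

def t73 (b : Bx) : TM := tsub (t72 b) (t26 b)
noncomputable def v73 (x1 x2 x3 : ℝ) : ℝ := v72 x1 x2 x3 - v26 x1 x2 x3
theorem en73 (h : In b E x1 x2 x3) : Enc S E (t73 b) (v73 x1 x2 x3) := enc_sub (en72 h) (en26 h)

def t74 (b : Bx) : TM := tadd (t73 b) (t22 b)
noncomputable def v74 (x1 x2 x3 : ℝ) : ℝ := v73 x1 x2 x3 + v22 x1 x2 x3
theorem en74 (h : In b E x1 x2 x3) : Enc S E (t74 b) (v74 x1 x2 x3) := enc_add (en73 h) (en22 h)

def t75 (b : Bx) : TM := tadd (t74 b) (t10 b)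
noncomputable def v75 (x1 x2 x3 : ℝ) : ℝ := v74 x1 x2 x3 + v10 x1 x2 x3
theorem en75 (h : In b E x1 x2 x3) : Enc S E (t75 b) (v75 x1 x2 x3) := enc_add (en74 h) (en10 h)

def t76 (b : Bx) : TM := tadd (t75 b) (t8 b)
noncomputable def v76 (x1 x2 x3 : ℝ) : ℝ := v75 x1 x2 x3 + v8 x1 x2 x3
theorem en76 (h : In b E x1 x2 x3) : Enc S E (t76 b) (v76 x1 x2 x3) := enc_add (en75 h) (en8 h)

def t77 (b : Bx) : TM := tsub (t76 b) (t66 b)
noncomputable def v77 (x1 x2 x3 : ℝ) : ℝ := v76 x1 x2 x3 - v66 x1 x2 x3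
theorem en77 (h : In b E x1 x2 x3) : Enc S E (t77 b) (v77 x1 x2 x3) := enc_sub (en76 h) (en66 h)

def t78 (b : Bx) : TM := tadd (t55 b) (t8 b)
noncomputable def v78 (x1 x2 x3 : ℝ) : ℝ := v55 x1 x2 x3 + v8 x1 x2 x3
theorem en78 (h : In b E x1 x2 x3) : Enc S E (t78 b) (v78 x1 x2 x3) := enc_add (en55 h) (en8 h)

def t79 (b : Bx) : TM := tadd (t78 b) (t10 b)
noncomputable def v79 (x1 x2 x3 : ℝ) : ℝ := v78 x1 x2 x3 + v10 x1 x2 x3
theorem en79 (h : In b E x1 x2 x3) : Enc S E (t79 b) (v79 x1 x2 x3) := enc_add (en78 h) (en10 h)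

def t80 (b : Bx) : TM := tsub (t79 b) (t44 b)
noncomputable def v80 (x1 x2 x3 : ℝ) : ℝ := v79 x1 x2 x3 - v44 x1 x2 x3
theorem en80 (h : In b E x1 x2 x3) : Enc S E (t80 b) (v80 x1 x2 x3) := enc_sub (en79 h) (en44 h)

def t81 (b : Bx) : TM := tadd (t17 b) (t22 b)
noncomputable def v81 (x1 x2 x3 : ℝ) : ℝ := v17 x1 x2 x3 + v22 x1 x2 x3
theorem en81 (h : In b E x1 x2 x3) : Enc S E (t81 b) (v81 x1 x2 x3) := enc_add (en17 h) (en22 h)

def t82 (b : Bx) : TM := tsub (t81 b) (t54 b)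
noncomputable def v82 (x1 x2 x3 : ℝ) : ℝ := v81 x1 x2 x3 - v54 x1 x2 x3
theorem en82 (h : In b E x1 x2 x3) : Enc S E (t82 b) (v82 x1 x2 x3) := enc_sub (en81 h) (en54 h)

def t83 (b : Bx) : TM := tsub (t32 b) (t28 b)
noncomputable def v83 (x1 x2 x3 : ℝ) : ℝ := v32 x1 x2 x3 - v28 x1 x2 x3
theorem en83 (h : In b E x1 x2 x3) : Enc S E (t83 b) (v83 x1 x2 x3) := enc_sub (en32 h) (en28 h)

def t84 (b : Bx) : TM := tsq S (t83 b)
noncomputable def v84 (x1 x2 x3 : ℝ) : ℝ := (v83 x1 x2 x3) ^ 2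
theorem en84 (h : In b E x1 x2 x3) : Enc S E (t84 b) (v84 x1 x2 x3) := enc_sq hS (en83 h)

def t85 (b : Bx) : TM := tsub (t8 b) (t84 b)
noncomputable def v85 (x1 x2 x3 : ℝ) : ℝ := v8 x1 x2 x3 - v84 x1 x2 x3
theorem en85 (h : In b E x1 x2 x3) : Enc S E (t85 b) (v85 x1 x2 x3) := enc_sub (en8 h) (en84 h)

def t86 (b : Bx) : TM := tsqrt S (t85 b)
noncomputable def v86 (x1 x2 x3 : ℝ) : ℝ := Real.sqrt (v85 x1 x2 x3)
theorem en86 (h : In b E x1 x2 x3) : Enc S E (t86 b) (v86 x1 x2 x3) := enc_sqrt hS (en85 h)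

def t87 (b : Bx) : TM := tsub (t82 b) (t86 b)
noncomputable def v87 (x1 x2 x3 : ℝ) : ℝ := v82 x1 x2 x3 - v86 x1 x2 x3
theorem en87 (h : In b E x1 x2 x3) : Enc S E (t87 b) (v87 x1 x2 x3) := enc_sub (en82 h) (en86 h)

def t88 (b : Bx) : TM := tadd (t60 b) (t77 b)
noncomputable def v88 (x1 x2 x3 : ℝ) : ℝ := v60 x1 x2 x3 + v77 x1 x2 x3
theorem en88 (h : In b E x1 x2 x3) : Enc S E (t88 b) (v88 x1 x2 x3) := enc_add (en60 h) (en77 h)

def t89 (b : Bx) : TM := tscale 9 5 (t88 b)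
noncomputable def v89 (x1 x2 x3 : ℝ) : ℝ := ((9 : ℕ) : ℝ) / ((5 : ℕ) : ℝ) * v88 x1 x2 x3
theorem en89 (h : In b E x1 x2 x3) : Enc S E (t89 b) (v89 x1 x2 x3) := enc_scale 9 (by norm_num) (en88 h)

def t90 (b : Bx) : TM := tadd (t40 b) (t89 b)
noncomputable def v90 (x1 x2 x3 : ℝ) : ℝ := v40 x1 x2 x3 + v89 x1 x2 x3
theorem en90 (h : In b E x1 x2 x3) : Enc S E (t90 b) (v90 x1 x2 x3) := enc_add (en40 h) (en89 h)

def t91 (b : Bx) : TM := tadd (t80 b) (t87 b)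
noncomputable def v91 (x1 x2 x3 : ℝ) : ℝ := v80 x1 x2 x3 + v87 x1 x2 x3
theorem en91 (h : In b E x1 x2 x3) : Enc S E (t91 b) (v91 x1 x2 x3) := enc_add (en80 h) (en87 h)

def t92 (b : Bx) : TM := tscale 1 5 (t91 b)
noncomputable def v92 (x1 x2 x3 : ℝ) : ℝ := ((1 : ℕ) : ℝ) / ((5 : ℕ) : ℝ) * v91 x1 x2 x3
theorem en92 (h : In b E x1 x2 x3) : Enc S E (t92 b) (v92 x1 x2 x3) := enc_scale 1 (by norm_num) (en91 h)

def t93 (b : Bx) : TM := tadd (t90 b) (t92 b)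
noncomputable def v93 (x1 x2 x3 : ℝ) : ℝ := v90 x1 x2 x3 + v92 x1 x2 x3
theorem en93 (h : In b E x1 x2 x3) : Enc S E (t93 b) (v93 x1 x2 x3) := enc_add (en90 h) (en92 h)

def t98 (b : Bx) : TM := tsub (t71 b) (t6 b)
noncomputable def v98 (x1 x2 x3 : ℝ) : ℝ := v71 x1 x2 x3 - v6 x1 x2 x3
theorem en98 (h : In b E x1 x2 x3) : Enc S E (t98 b) (v98 x1 x2 x3) := enc_sub (en71 h) (en6 h)

end

def tst (b : Bx) : Bool := or (pos (t93 b)) (pos (t98 b))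

def f (b : Bx) : Nat := go (tst b) 1 (t93 b) b

def Q (x1 x2 x3 : ℝ) : Prop := 0 < v93 x1 x2 x3 ∨ 0 < v98 x1 x2 x3

theorem f_sound (b : Bx) (hb : f b = 0) (x1 x2 x3 : ℝ) (hm : Mem S b x1 x2 x3) : Q x1 x2 x3 := by
  obtain ⟨E, h⟩ := pt_of_mem hm
  have h : In b E x1 x2 x3 := h
  have ht := go_sound hb
  unfold tst at ht
  unfold Q
  rcases Bool.or_eq_true_iff.mp ht with ht | ht
  · exact Or.inl (pos_sound hS (en93 h) ht)
  · refine Or.inr ?_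
    exact pos_sound hS (en98 h) ht

section

variable (s a w : ℝ)

theorem w0 : v0 s a w = (2 * h0) := by unfold v0 h0; push_cast; ring

theorem w1 : v1 s a w = h0 := by unfold v1; rw [w0]; unfold h0; push_cast; ring

theorem w2 : v2 s a w = s := rfl

theorem w3 : v3 s a w = a := rfl

theorem w4 : v4 s a w = w := rfl

theorem w5 : v5 s a w = (s + a) := by rw [v5, w2, w3]

theorem w6 : v6 s a w = ((s + a) - w) := by rw [v6, w5, w4]

theorem w7 : v7 s a w = (((s + a) - w) ^ 2) := by rw [v7, w6]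

theorem w8 : v8 s a w = 1 := by unfold v8; norm_num

theorem w9 : v9 s a w = (1 - (((s + a) - w) ^ 2)) := by rw [v9, w8, w7]

theorem w10 : v10 s a w = (g ((s + a) - w)) := by unfold v10; rw [w9]; rfl

theorem w11 : v11 s a w = (h0 * (g ((s + a) - w))) := by rw [v11, w1, w10]

theorem w12 : v12 s a w = (1 / 2 * ((s + a) - w)) := by simp only [v12, w6, Nat.cast_ofNat, Nat.cast_one]

theorem w14 : v14 s a w = (ext ((s + a) - w)) := by rw [v14, w12, w11]; unfold ext; ring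

theorem w15 : v15 s a w = (1 / 2 * (g ((s + a) - w))) := by simp only [v15, w10, Nat.cast_ofNat, Nat.cast_one]

theorem w16 : v16 s a w = (h0 * ((s + a) - w)) := by rw [v16, w1, w6]

theorem w17 : v17 s a w = ((1 / 2 * (g ((s + a) - w))) + (h0 * ((s + a) - w))) := by rw [v17, w15, w16]

theorem w19 : v19 s a w = (h0 - a) := by rw [v19, w1, w3]

theorem w20 : v20 s a w = (s ^ 2) := by rw [v20, w2]

theorem w21 : v21 s a w = (1 - (s ^ 2)) := by rw [v21, w8, w20]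

theorem w22 : v22 s a w = (g s) := by unfold v22; rw [w21]; rfl

theorem w23 : v23 s a w = (17 / 50 * s) := by simp only [v23, w2, Nat.cast_ofNat, Nat.cast_one]

theorem w24 : v24 s a w = ((17 / 50 * s) ^ 2) := by rw [v24, w23]

theorem w25 : v25 s a w = (1 - ((17 / 50 * s) ^ 2)) := by rw [v25, w8, w24]

theorem w26 : v26 s a w = (g (17 / 50 * s)) := by unfold v26; rw [w25]; rfl

theorem w27 : v27 s a w = ((h0 - a) + (ext ((s + a) - w))) := by rw [v27, w19, w14]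

theorem w28 : v28 s a w = ((h0 - a) + ((s + a) - w)) := by rw [v28, w19, w6]

theorem w30 : v30 s a w = (33 / 50 * s) := by simp only [v30, w2, Nat.cast_ofNat, Nat.cast_one]

theorem w31 : v31 s a w = (h0 + (33 / 50 * s)) := by rw [v31, w1, w30]

theorem w32 : v32 s a w = (h0 + s) := by rw [v32, w1, w2]

theorem w33 : v33 s a w = ((h0 - a) ^ 2) := by rw [v33, w19]

theorem w34 : v34 s a w = (1 - ((h0 - a) ^ 2)) := by rw [v34, w8, w33]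

theorem w35 : v35 s a w = (g (h0 - a)) := by unfold v35; rw [w34]; rfl

theorem w36 : v36 s a w = (8 * (g (h0 - a))) := by simp only [v36, w35, Nat.cast_ofNat, Nat.cast_one]

theorem w37 : v37 s a w = 4 := by unfold v37; norm_num

theorem w38 : v38 s a w = ((8 * (g (h0 - a))) - 4) := by rw [v38, w36, w37]

theorem w39 : v39 s a w = (4 * (g s)) := by simp only [v39, w22, Nat.cast_ofNat, Nat.cast_one]

theorem w40 : v40 s a w = (((8 * (g (h0 - a))) - 4) - (4 * (g s))) := by rw [v40, w38, w39]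

theorem w41 : v41 s a w = (((h0 - a) + ((s + a) - w)) - h0) := by rw [v41, w28, w1]

theorem w42 : v42 s a w = ((((h0 - a) + ((s + a) - w)) - h0) ^ 2) := by rw [v42, w41]

theorem w43 : v43 s a w = (1 - ((((h0 - a) + ((s + a) - w)) - h0) ^ 2)) := by rw [v43, w8, w42]

theorem w44 : v44 s a w = (g (((h0 - a) + ((s + a) - w)) - h0)) := by unfold v44; rw [w43]; rfl

theorem w45 : v45 s a w = ((g (((h0 - a) + ((s + a) - w)) - h0)) + 1) := by rw [v45, w44, w8]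

theorem w46 : v46 s a w = (((g (((h0 - a) + ((s + a) - w)) - h0)) + 1) - (g (17 / 50 * s))) := by rw [v46, w45, w26]

theorem w47 : v47 s a w = ((h0 + s) - (h0 - a)) := by rw [v47, w32, w19]

theorem w48 : v48 s a w = (((h0 + s) - (h0 - a)) ^ 2) := by rw [v48, w47]

theorem w49 : v49 s a w = (1 - (((h0 + s) - (h0 - a)) ^ 2)) := by rw [v49, w8, w48]

theorem w50 : v50 s a w = (g ((h0 + s) - (h0 - a))) := by unfold v50; rw [w49]; rfl

theorem w51 : v51 s a w = (((h0 - a) + (ext ((s + a) - w))) - h0) := by rw [v51, w27, w1]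

theorem w52 : v52 s a w = ((((h0 - a) + (ext ((s + a) - w))) - h0) ^ 2) := by rw [v52, w51]

theorem w53 : v53 s a w = (1 - ((((h0 - a) + (ext ((s + a) - w))) - h0) ^ 2)) := by rw [v53, w8, w52]

theorem w54 : v54 s a w = (g (((h0 - a) + (ext ((s + a) - w))) - h0)) := by unfold v54; rw [w53]; rfl

theorem w55 : v55 s a w = ((g ((h0 + s) - (h0 - a))) - (g s)) := by rw [v55, w50, w22]

theorem w56 : v56 s a w = (((g ((h0 + s) - (h0 - a))) - (g s)) - 1) := by rw [v56, w55, w8]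

theorem w57 : v57 s a w = ((((g ((h0 + s) - (h0 - a))) - (g s)) - 1) + (g (17 / 50 * s))) := by rw [v57, w56, w26]

theorem w58 : v58 s a w = (((((g ((h0 + s) - (h0 - a))) - (g s)) - 1) + (g (17 / 50 * s))) + (g ((s + a) - w))) := by rw [v58, w57, w10]

theorem w59 : v59 s a w = ((((((g ((h0 + s) - (h0 - a))) - (g s)) - 1) + (g (17 / 50 * s))) + (g ((s + a) - w))) + 1) := by rw [v59, w58, w8]

theorem w60 : v60 s a w = (((((((g ((h0 + s) - (h0 - a))) - (g s)) - 1) + (g (17 / 50 * s))) + (g ((s + a) - w))) + 1) - (((g (((h0 - a) + ((s + a) - w)) - h0)) + 1) - (g (17 / 50 * s)))) := by rw [v60, w59, w46]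

theorem w63 : v63 s a w = (((h0 - a) + ((s + a) - w)) - (h0 + (33 / 50 * s))) := by rw [v63, w28, w31]

theorem w64 : v64 s a w = ((((h0 - a) + ((s + a) - w)) - (h0 + (33 / 50 * s))) ^ 2) := by rw [v64, w63]

theorem w65 : v65 s a w = (1 - ((((h0 - a) + ((s + a) - w)) - (h0 + (33 / 50 * s))) ^ 2)) := by rw [v65, w8, w64]

theorem w66 : v66 s a w = (g (((h0 - a) + ((s + a) - w)) - (h0 + (33 / 50 * s)))) := by unfold v66; rw [w65]; rfl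

theorem w67 : v67 s a w = ((2 * h0) - (h0 - a)) := by rw [v67, w0, w19]

theorem w68 : v68 s a w = (((2 * h0) - (h0 - a)) ^ 2) := by rw [v68, w67]

theorem w69 : v69 s a w = (1 - (((2 * h0) - (h0 - a)) ^ 2)) := by rw [v69, w8, w68]

theorem w70 : v70 s a w = (g ((2 * h0) - (h0 - a))) := by unfold v70; rw [w69]; rfl

theorem w71 : v71 s a w = (1 / 2) := by unfold v71; norm_num

theorem w72 : v72 s a w = ((g ((2 * h0) - (h0 - a))) - (1 / 2)) := by rw [v72, w70, w71]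

theorem w73 : v73 s a w = (((g ((2 * h0) - (h0 - a))) - (1 / 2)) - (g (17 / 50 * s))) := by rw [v73, w72, w26]

theorem w74 : v74 s a w = ((((g ((2 * h0) - (h0 - a))) - (1 / 2)) - (g (17 / 50 * s))) + (g s)) := by rw [v74, w73, w22]

theorem w75 : v75 s a w = (((((g ((2 * h0) - (h0 - a))) - (1 / 2)) - (g (17 / 50 * s))) + (g s)) + (g ((s + a) - w))) := by rw [v75, w74, w10]

theorem w76 : v76 s a w = ((((((g ((2 * h0) - (h0 - a))) - (1 / 2)) - (g (17 / 50 * s))) + (g s)) + (g ((s + a) - w))) + 1) := by rw [v76, w75, w8]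

theorem w77 : v77 s a w = (((((((g ((2 * h0) - (h0 - a))) - (1 / 2)) - (g (17 / 50 * s))) + (g s)) + (g ((s + a) - w))) + 1) - (g (((h0 - a) + ((s + a) - w)) - (h0 + (33 / 50 * s))))) := by rw [v77, w76, w66]

theorem w78 : v78 s a w = (((g ((h0 + s) - (h0 - a))) - (g s)) + 1) := by rw [v78, w55, w8]

theorem w79 : v79 s a w = ((((g ((h0 + s) - (h0 - a))) - (g s)) + 1) + (g ((s + a) - w))) := by rw [v79, w78, w10]

theorem w80 : v80 s a w = (((((g ((h0 + s) - (h0 - a))) - (g s)) + 1) + (g ((s + a) - w))) - (g (((h0 - a) + ((s + a) - w)) - h0))) := by rw [v80, w79, w44]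

theorem w81 : v81 s a w = (((1 / 2 * (g ((s + a) - w))) + (h0 * ((s + a) - w))) + (g s)) := by rw [v81, w17, w22]

theorem w82 : v82 s a w = ((((1 / 2 * (g ((s + a) - w))) + (h0 * ((s + a) - w))) + (g s)) - (g (((h0 - a) + (ext ((s + a) - w))) - h0))) := by rw [v82, w81, w54]

theorem w83 : v83 s a w = ((h0 + s) - ((h0 - a) + ((s + a) - w))) := by rw [v83, w32, w28]

theorem w84 : v84 s a w = (((h0 + s) - ((h0 - a) + ((s + a) - w))) ^ 2) := by rw [v84, w83]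

theorem w85 : v85 s a w = (1 - (((h0 + s) - ((h0 - a) + ((s + a) - w))) ^ 2)) := by rw [v85, w8, w84]

theorem w86 : v86 s a w = (g ((h0 + s) - ((h0 - a) + ((s + a) - w)))) := by unfold v86; rw [w85]; rfl

theorem w87 : v87 s a w = (((((1 / 2 * (g ((s + a) - w))) + (h0 * ((s + a) - w))) + (g s)) - (g (((h0 - a) + (ext ((s + a) - w))) - h0))) - (g ((h0 + s) - ((h0 - a) + ((s + a) - w))))) := by rw [v87, w82, w86]

theorem w88 : v88 s a w = ((((((((g ((h0 + s) - (h0 - a))) - (g s)) - 1) + (g (17 / 50 * s))) + (g ((s + a) - w))) + 1) - (((g (((h0 - a) + ((s + a) - w)) - h0)) + 1) - (g (17 / 50 * s)))) + (((((((g ((2 * h0) - (h0 - a))) - (1 / 2)) - (g (17 / 50 * s))) + (g s)) + (g ((s + a) - w))) + 1) - (g (((h0 - a) + ((s + a) - w)) - (h0 + (33 / 50 * s)))))) := by rw [v88, w60, w77]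

theorem w89 : v89 s a w = (9 / 5 * ((((((((g ((h0 + s) - (h0 - a))) - (g s)) - 1) + (g (17 / 50 * s))) + (g ((s + a) - w))) + 1) - (((g (((h0 - a) + ((s + a) - w)) - h0)) + 1) - (g (17 / 50 * s)))) + (((((((g ((2 * h0) - (h0 - a))) - (1 / 2)) - (g (17 / 50 * s))) + (g s)) + (g ((s + a) - w))) + 1) - (g (((h0 - a) + ((s + a) - w)) - (h0 + (33 / 50 * s))))))) := by simp only [v89, w88, Nat.cast_ofNat, Nat.cast_one]

theorem w90 : v90 s a w = ((((8 * (g (h0 - a))) - 4) - (4 * (g s))) + (9 / 5 * ((((((((g ((h0 + s) - (h0 - a))) - (g s)) - 1) + (g (17 / 50 * s))) + (g ((s + a) - w))) + 1) - (((g (((h0 - a) + ((s + a) - w)) - h0)) + 1) - (g (17 / 50 * s)))) + (((((((g ((2 * h0) - (h0 - a))) - (1 / 2)) - (g (17 / 50 * s))) + (g s)) + (g ((s + a) - w))) + 1) - (g (((h0 - a) + ((s + a) - w)) - (h0 + (33 / 50 * s)))))))) := by rw [v90, w40, w89]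

theorem w91 : v91 s a w = ((((((g ((h0 + s) - (h0 - a))) - (g s)) + 1) + (g ((s + a) - w))) - (g (((h0 - a) + ((s + a) - w)) - h0))) + (((((1 / 2 * (g ((s + a) - w))) + (h0 * ((s + a) - w))) + (g s)) - (g (((h0 - a) + (ext ((s + a) - w))) - h0))) - (g ((h0 + s) - ((h0 - a) + ((s + a) - w)))))) := by rw [v91, w80, w87]

theorem w92 : v92 s a w = (1 / 5 * ((((((g ((h0 + s) - (h0 - a))) - (g s)) + 1) + (g ((s + a) - w))) - (g (((h0 - a) + ((s + a) - w)) - h0))) + (((((1 / 2 * (g ((s + a) - w))) + (h0 * ((s + a) - w))) + (g s)) - (g (((h0 - a) + (ext ((s + a) - w))) - h0))) - (g ((h0 + s) - ((h0 - a) + ((s + a) - w))))))) := by simp only [v92, w91, Nat.cast_ofNat, Nat.cast_one]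

theorem w93 : v93 s a w = (((((8 * (g (h0 - a))) - 4) - (4 * (g s))) + (9 / 5 * ((((((((g ((h0 + s) - (h0 - a))) - (g s)) - 1) + (g (17 / 50 * s))) + (g ((s + a) - w))) + 1) - (((g (((h0 - a) + ((s + a) - w)) - h0)) + 1) - (g (17 / 50 * s)))) + (((((((g ((2 * h0) - (h0 - a))) - (1 / 2)) - (g (17 / 50 * s))) + (g s)) + (g ((s + a) - w))) + 1) - (g (((h0 - a) + ((s + a) - w)) - (h0 + (33 / 50 * s)))))))) + (1 / 5 * ((((((g ((h0 + s) - (h0 - a))) - (g s)) + 1) + (g ((s + a) - w))) - (g (((h0 - a) + ((s + a) - w)) - h0))) + (((((1 / 2 * (g ((s + a) - w))) + (h0 * ((s + a) - w))) + (g s)) - (g (((h0 - a) + (ext ((s + a) - w))) - h0))) - (g ((h0 + s) - ((h0 - a) + ((s + a) - w)))))))) := by rw [v93, w90, w92]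

theorem w98 : v98 s a w = ((1 / 2) - ((s + a) - w)) := by rw [v98, w71, w6]

end

theorem c_ok : chk f 60 ⟨589484261, 0, 22548579, 6710886, 0, 6710887, 46707769, 0, 44560287⟩ = true := by decide +kernel

theorem main {s a w : ℝ} (hl1 : 66 / 125 ≤ s) (hu1 : s ≤ 57 / 100) (hl2 : 0 ≤ a) (hu2 : a ≤ 1 / 80) (hl3 : 1 / 500 ≤ w) (hu3 : w ≤ 17 / 200) :
    (0 < (((((8 * (g (h0 - a))) - 4) - (4 * (g s))) + (9 / 5 * ((((((((g ((h0 + s) - (h0 - a))) - (g s)) - 1) + (g (17 / 50 * s))) + (g ((s + a) - w))) + 1) - (((g (((h0 - a) + ((s + a) - w)) - h0)) + 1) - (g (17 / 50 * s)))) + (((((((g ((2 * h0) - (h0 - a))) - (1 / 2)) - (g (17 / 50 * s))) + (g s)) + (g ((s + a) - w))) + 1) - (g (((h0 - a) + ((s + a) - w)) - (h0 + (33 / 50 * s)))))))) + (1 / 5 * ((((((g ((h0 + s) - (h0 - a))) - (g s)) + 1) + (g ((s + a) - w))) - (g (((h0 - a) + ((s + a) - w)) - h0))) + (((((1 / 2 * (g ((s +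 a) - w))) + (h0 * ((s + a) - w))) + (g s)) - (g (((h0 - a) + (ext ((s + a) - w))) - h0))) - (g ((h0 + s) - ((h0 - a) + ((s + a) - w))))))))) ∨ (0 < ((1 / 2) - ((s + a) - w))) := by
  have hm : Mem S ⟨589484261, 0, 22548579, 6710886, 0, 6710887, 46707769, 0, 44560287⟩ s a w := by
    refine ⟨?_, ?_, ?_⟩ <;> norm_num only [S] <;> rw [abs_le] <;> constructor <;> linarith
  have h := chk_sound f_sound 60 _ c_ok s a w hm
  unfold Q at h
  rw [w93, w98] at h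
  exact h


end Pool.Agent.Strip051.FourE.NUbcD
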