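import Pool.Agent.Strip051.Box.B3
import Pool.Agent.Strip051.FourE.Slope

/-! # Generated boxes: NUcb  -/

set_option maxRecDepth 100000
set_option linter.unusedVariables false

namespace Pool.Agent.Strip051.FourE.NUcb

open Pool.Agent.Strip051.Box Pool.Agent.Strip051.Box3
open Pool.Agent.StripNear (h0)
open Pool.Agent.StripSquare (g g_zero)
open Pool.Agent.Strip051 (ext)

abbrev S : Nat := 1073741824

theorem hS : 0 < S := by decide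

def In (b : Bx) (E : Pt) (x1 x2 x3 : ℝ) : Prop :=
  (S : ℝ) * x1 = ((b.p1 : ℝ) - b.n1) + b.q1 * E.e1 ∧ (S : ℝ) * x2 = ((b.p2 : ℝ) - b.n2) + b.q2 * E.e2 ∧ (S : ℝ) * x3 = ((b.p3 : ℝ) - b.n3) + b.q3 * E.e3

section

variable {b : Bx} {E : Pt} {x1 x2 x3 : ℝ}

def t0 (_b : Bx) : TM := tconst 1859775393 0 1
noncomputable def v0 (_x1 _x2 _x3 : ℝ) : ℝ := Real.sqrt ((3 : ℕ) : ℝ)
theorem en0 (_h : In b E x1 x2 x3) : Enc S E (t0 b) (v0 x1 x2 x3) := enc_sqrtn E (by decide) (by decide)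

def t1 (b : Bx) : TM := tscale 1 2 (t0 b)
noncomputable def v1 (x1 x2 x3 : ℝ) : ℝ := ((1 : ℕ) : ℝ) / ((2 : ℕ) : ℝ) * v0 x1 x2 x3
theorem en1 (h : In b E x1 x2 x3) : Enc S E (t1 b) (v1 x1 x2 x3) := enc_scale 1 (by norm_num) (en0 h)

def t2 (b : Bx) : TM := X1 b
noncomputable def v2 (x1 _x2 _x3 : ℝ) : ℝ := x1
theorem en2 (h : In b E x1 x2 x3) : Enc S E (t2 b) (v2 x1 x2 x3) := enc_X1 h.1

def t3 (b : Bx) : TM := X2 b
noncomputable def v3 (_x1 x2 _x3 : ℝ) : ℝ := x2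
theorem en3 (h : In b E x1 x2 x3) : Enc S E (t3 b) (v3 x1 x2 x3) := enc_X2 h.2.1

def t4 (b : Bx) : TM := X3 b
noncomputable def v4 (_x1 _x2 x3 : ℝ) : ℝ := x3
theorem en4 (h : In b E x1 x2 x3) : Enc S E (t4 b) (v4 x1 x2 x3) := enc_X3 h.2.2

def t5 (b : Bx) : TM := tsq S (t4 b)
noncomputable def v5 (x1 x2 x3 : ℝ) : ℝ := (v4 x1 x2 x3) ^ 2
theorem en5 (h : In b E x1 x2 x3) : Enc S E (t5 b) (v5 x1 x2 x3) := enc_sq hS (en4 h)

def t6 (_b : Bx) : TM := tconst (Nat.mul 1 S) 0 0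
noncomputable def v6 (_x1 _x2 _x3 : ℝ) : ℝ := ((1 : ℕ) : ℝ)
theorem en6 (_h : In b E x1 x2 x3) : Enc S E (t6 b) (v6 x1 x2 x3) := enc_nc E 1

def t7 (b : Bx) : TM := tsub (t6 b) (t5 b)
noncomputable def v7 (x1 x2 x3 : ℝ) : ℝ := v6 x1 x2 x3 - v5 x1 x2 x3
theorem en7 (h : In b E x1 x2 x3) : Enc S E (t7 b) (v7 x1 x2 x3) := enc_sub (en6 h) (en5 h)

def t8 (b : Bx) : TM := tsqrt S (t7 b)
noncomputable def v8 (x1 x2 x3 : ℝ) : ℝ := Real.sqrt (v7 x1 x2 x3)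
theorem en8 (h : In b E x1 x2 x3) : Enc S E (t8 b) (v8 x1 x2 x3) := enc_sqrt hS (en7 h)

def t9 (b : Bx) : TM := tmul S (t1 b) (t8 b)
noncomputable def v9 (x1 x2 x3 : ℝ) : ℝ := v1 x1 x2 x3 * v8 x1 x2 x3
theorem en9 (h : In b E x1 x2 x3) : Enc S E (t9 b) (v9 x1 x2 x3) := enc_mul hS (en1 h) (en8 h)

def t10 (b : Bx) : TM := tscale 1 2 (t4 b)
noncomputable def v10 (x1 x2 x3 : ℝ) : ℝ := ((1 : ℕ) : ℝ) / ((2 : ℕ) : ℝ) * v4 x1 x2 x3
theorem en10 (h : In b E x1 x2 x3) : Enc S E (t10 b) (v10 x1 x2 x3) := enc_scale 1 (by norm_num) (en4 h)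

def t12 (b : Bx) : TM := tadd (t10 b) (t9 b)
noncomputable def v12 (x1 x2 x3 : ℝ) : ℝ := v10 x1 x2 x3 + v9 x1 x2 x3
theorem en12 (h : In b E x1 x2 x3) : Enc S E (t12 b) (v12 x1 x2 x3) := enc_add (en10 h) (en9 h)

def t13 (b : Bx) : TM := tscale 1 2 (t8 b)
noncomputable def v13 (x1 x2 x3 : ℝ) : ℝ := ((1 : ℕ) : ℝ) / ((2 : ℕ) : ℝ) * v8 x1 x2 x3
theorem en13 (h : In b E x1 x2 x3) : Enc S E (t13 b) (v13 x1 x2 x3) := enc_scale 1 (by norm_num) (en8 h)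

def t14 (b : Bx) : TM := tmul S (t1 b) (t4 b)
noncomputable def v14 (x1 x2 x3 : ℝ) : ℝ := v1 x1 x2 x3 * v4 x1 x2 x3
theorem en14 (h : In b E x1 x2 x3) : Enc S E (t14 b) (v14 x1 x2 x3) := enc_mul hS (en1 h) (en4 h)

def t15 (b : Bx) : TM := tadd (t13 b) (t14 b)
noncomputable def v15 (x1 x2 x3 : ℝ) : ℝ := v13 x1 x2 x3 + v14 x1 x2 x3
theorem en15 (h : In b E x1 x2 x3) : Enc S E (t15 b) (v15 x1 x2 x3) := enc_add (en13 h) (en14 h)

def t17 (b : Bx) : TM := tsub (t1 b) (t3 b)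
noncomputable def v17 (x1 x2 x3 : ℝ) : ℝ := v1 x1 x2 x3 - v3 x1 x2 x3
theorem en17 (h : In b E x1 x2 x3) : Enc S E (t17 b) (v17 x1 x2 x3) := enc_sub (en1 h) (en3 h)

def t18 (b : Bx) : TM := tsq S (t2 b)
noncomputable def v18 (x1 x2 x3 : ℝ) : ℝ := (v2 x1 x2 x3) ^ 2
theorem en18 (h : In b E x1 x2 x3) : Enc S E (t18 b) (v18 x1 x2 x3) := enc_sq hS (en2 h)

def t19 (b : Bx) : TM := tsub (t6 b) (t18 b)
noncomputable def v19 (x1 x2 x3 : ℝ) : ℝ := v6 x1 x2 x3 - v18 x1 x2 x3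
theorem en19 (h : In b E x1 x2 x3) : Enc S E (t19 b) (v19 x1 x2 x3) := enc_sub (en6 h) (en18 h)

def t20 (b : Bx) : TM := tsqrt S (t19 b)
noncomputable def v20 (x1 x2 x3 : ℝ) : ℝ := Real.sqrt (v19 x1 x2 x3)
theorem en20 (h : In b E x1 x2 x3) : Enc S E (t20 b) (v20 x1 x2 x3) := enc_sqrt hS (en19 h)

def t21 (b : Bx) : TM := tscale 17 50 (t2 b)
noncomputable def v21 (x1 x2 x3 : ℝ) : ℝ := ((17 : ℕ) : ℝ) / ((50 : ℕ) : ℝ) * v2 x1 x2 x3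
theorem en21 (h : In b E x1 x2 x3) : Enc S E (t21 b) (v21 x1 x2 x3) := enc_scale 17 (by norm_num) (en2 h)

def t22 (b : Bx) : TM := tsq S (t21 b)
noncomputable def v22 (x1 x2 x3 : ℝ) : ℝ := (v21 x1 x2 x3) ^ 2
theorem en22 (h : In b E x1 x2 x3) : Enc S E (t22 b) (v22 x1 x2 x3) := enc_sq hS (en21 h)

def t23 (b : Bx) : TM := tsub (t6 b) (t22 b)
noncomputable def v23 (x1 x2 x3 : ℝ) : ℝ := v6 x1 x2 x3 - v22 x1 x2 x3
theorem en23 (h : In b E x1 x2 x3) : Enc S E (t23 b) (v23 x1 x2 x3) := enc_sub (en6 h) (en22 h)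

def t24 (b : Bx) : TM := tsqrt S (t23 b)
noncomputable def v24 (x1 x2 x3 : ℝ) : ℝ := Real.sqrt (v23 x1 x2 x3)
theorem en24 (h : In b E x1 x2 x3) : Enc S E (t24 b) (v24 x1 x2 x3) := enc_sqrt hS (en23 h)

def t25 (b : Bx) : TM := tadd (t17 b) (t12 b)
noncomputable def v25 (x1 x2 x3 : ℝ) : ℝ := v17 x1 x2 x3 + v12 x1 x2 x3
theorem en25 (h : In b E x1 x2 x3) : Enc S E (t25 b) (v25 x1 x2 x3) := enc_add (en17 h) (en12 h)

def t26 (b : Bx) : TM := tadd (t17 b) (t4 b)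
noncomputable def v26 (x1 x2 x3 : ℝ) : ℝ := v17 x1 x2 x3 + v4 x1 x2 x3
theorem en26 (h : In b E x1 x2 x3) : Enc S E (t26 b) (v26 x1 x2 x3) := enc_add (en17 h) (en4 h)

def t30 (b : Bx) : TM := tadd (t1 b) (t2 b)
noncomputable def v30 (x1 x2 x3 : ℝ) : ℝ := v1 x1 x2 x3 + v2 x1 x2 x3
theorem en30 (h : In b E x1 x2 x3) : Enc S E (t30 b) (v30 x1 x2 x3) := enc_add (en1 h) (en2 h)

def t31 (b : Bx) : TM := tsq S (t17 b)
noncomputable def v31 (x1 x2 x3 : ℝ) : ℝ := (v17 x1 x2 x3) ^ 2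
theorem en31 (h : In b E x1 x2 x3) : Enc S E (t31 b) (v31 x1 x2 x3) := enc_sq hS (en17 h)

def t32 (b : Bx) : TM := tsub (t6 b) (t31 b)
noncomputable def v32 (x1 x2 x3 : ℝ) : ℝ := v6 x1 x2 x3 - v31 x1 x2 x3
theorem en32 (h : In b E x1 x2 x3) : Enc S E (t32 b) (v32 x1 x2 x3) := enc_sub (en6 h) (en31 h)

def t33 (b : Bx) : TM := tsqrt S (t32 b)
noncomputable def v33 (x1 x2 x3 : ℝ) : ℝ := Real.sqrt (v32 x1 x2 x3)
theorem en33 (h : In b E x1 x2 x3) : Enc S E (t33 b) (v33 x1 x2 x3) := enc_sqrt hS (en32 h)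

def t34 (b : Bx) : TM := tnat 8 (t33 b)
noncomputable def v34 (x1 x2 x3 : ℝ) : ℝ := ((8 : ℕ) : ℝ) * v33 x1 x2 x3
theorem en34 (h : In b E x1 x2 x3) : Enc S E (t34 b) (v34 x1 x2 x3) := enc_nat 8 (en33 h)

def t35 (_b : Bx) : TM := tconst (Nat.mul 4 S) 0 0
noncomputable def v35 (_x1 _x2 _x3 : ℝ) : ℝ := ((4 : ℕ) : ℝ)
theorem en35 (_h : In b E x1 x2 x3) : Enc S E (t35 b) (v35 x1 x2 x3) := enc_nc E 4

def t36 (b : Bx) : TM := tsub (t34 b) (t35 b)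
noncomputable def v36 (x1 x2 x3 : ℝ) : ℝ := v34 x1 x2 x3 - v35 x1 x2 x3
theorem en36 (h : In b E x1 x2 x3) : Enc S E (t36 b) (v36 x1 x2 x3) := enc_sub (en34 h) (en35 h)

def t37 (b : Bx) : TM := tnat 4 (t20 b)
noncomputable def v37 (x1 x2 x3 : ℝ) : ℝ := ((4 : ℕ) : ℝ) * v20 x1 x2 x3
theorem en37 (h : In b E x1 x2 x3) : Enc S E (t37 b) (v37 x1 x2 x3) := enc_nat 4 (en20 h)

def t38 (b : Bx) : TM := tsub (t36 b) (t37 b)
noncomputable def v38 (x1 x2 x3 : ℝ) : ℝ := v36 x1 x2 x3 - v37 x1 x2 x3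
theorem en38 (h : In b E x1 x2 x3) : Enc S E (t38 b) (v38 x1 x2 x3) := enc_sub (en36 h) (en37 h)

def t39 (b : Bx) : TM := tsub (t26 b) (t1 b)
noncomputable def v39 (x1 x2 x3 : ℝ) : ℝ := v26 x1 x2 x3 - v1 x1 x2 x3
theorem en39 (h : In b E x1 x2 x3) : Enc S E (t39 b) (v39 x1 x2 x3) := enc_sub (en26 h) (en1 h)

def t40 (b : Bx) : TM := tsq S (t39 b)
noncomputable def v40 (x1 x2 x3 : ℝ) : ℝ := (v39 x1 x2 x3) ^ 2
theorem en40 (h : In b E x1 x2 x3) : Enc S E (t40 b) (v40 x1 x2 x3) := enc_sq hS (en39 h)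

def t41 (b : Bx) : TM := tsub (t6 b) (t40 b)
noncomputable def v41 (x1 x2 x3 : ℝ) : ℝ := v6 x1 x2 x3 - v40 x1 x2 x3
theorem en41 (h : In b E x1 x2 x3) : Enc S E (t41 b) (v41 x1 x2 x3) := enc_sub (en6 h) (en40 h)

def t42 (b : Bx) : TM := tsqrt S (t41 b)
noncomputable def v42 (x1 x2 x3 : ℝ) : ℝ := Real.sqrt (v41 x1 x2 x3)
theorem en42 (h : In b E x1 x2 x3) : Enc S E (t42 b) (v42 x1 x2 x3) := enc_sqrt hS (en41 h)

def t45 (b : Bx) : TM := tsub (t30 b) (t17 b)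
noncomputable def v45 (x1 x2 x3 : ℝ) : ℝ := v30 x1 x2 x3 - v17 x1 x2 x3
theorem en45 (h : In b E x1 x2 x3) : Enc S E (t45 b) (v45 x1 x2 x3) := enc_sub (en30 h) (en17 h)

def t46 (b : Bx) : TM := tsq S (t45 b)
noncomputable def v46 (x1 x2 x3 : ℝ) : ℝ := (v45 x1 x2 x3) ^ 2
theorem en46 (h : In b E x1 x2 x3) : Enc S E (t46 b) (v46 x1 x2 x3) := enc_sq hS (en45 h)

def t47 (b : Bx) : TM := tsub (t6 b) (t46 b)
noncomputable def v47 (x1 x2 x3 : ℝ) : ℝ := v6 x1 x2 x3 - v46 x1 x2 x3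
theorem en47 (h : In b E x1 x2 x3) : Enc S E (t47 b) (v47 x1 x2 x3) := enc_sub (en6 h) (en46 h)

def t48 (b : Bx) : TM := tsqrt S (t47 b)
noncomputable def v48 (x1 x2 x3 : ℝ) : ℝ := Real.sqrt (v47 x1 x2 x3)
theorem en48 (h : In b E x1 x2 x3) : Enc S E (t48 b) (v48 x1 x2 x3) := enc_sqrt hS (en47 h)

def t49 (b : Bx) : TM := tsub (t25 b) (t1 b)
noncomputable def v49 (x1 x2 x3 : ℝ) : ℝ := v25 x1 x2 x3 - v1 x1 x2 x3
theorem en49 (h : In b E x1 x2 x3) : Enc S E (t49 b) (v49 x1 x2 x3) := enc_sub (en25 h) (en1 h)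

def t50 (b : Bx) : TM := tsq S (t49 b)
noncomputable def v50 (x1 x2 x3 : ℝ) : ℝ := (v49 x1 x2 x3) ^ 2
theorem en50 (h : In b E x1 x2 x3) : Enc S E (t50 b) (v50 x1 x2 x3) := enc_sq hS (en49 h)

def t51 (b : Bx) : TM := tsub (t6 b) (t50 b)
noncomputable def v51 (x1 x2 x3 : ℝ) : ℝ := v6 x1 x2 x3 - v50 x1 x2 x3
theorem en51 (h : In b E x1 x2 x3) : Enc S E (t51 b) (v51 x1 x2 x3) := enc_sub (en6 h) (en50 h)

def t52 (b : Bx) : TM := tsqrt S (t51 b)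
noncomputable def v52 (x1 x2 x3 : ℝ) : ℝ := Real.sqrt (v51 x1 x2 x3)
theorem en52 (h : In b E x1 x2 x3) : Enc S E (t52 b) (v52 x1 x2 x3) := enc_sqrt hS (en51 h)

def t53 (b : Bx) : TM := tnat 2 (t48 b)
noncomputable def v53 (x1 x2 x3 : ℝ) : ℝ := ((2 : ℕ) : ℝ) * v48 x1 x2 x3
theorem en53 (h : In b E x1 x2 x3) : Enc S E (t53 b) (v53 x1 x2 x3) := enc_nat 2 (en48 h)

def t54 (b : Bx) : TM := tnat 2 (t20 b)
noncomputable def v54 (x1 x2 x3 : ℝ) : ℝ := ((2 : ℕ) : ℝ) * v20 x1 x2 x3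
theorem en54 (h : In b E x1 x2 x3) : Enc S E (t54 b) (v54 x1 x2 x3) := enc_nat 2 (en20 h)

def t55 (b : Bx) : TM := tsub (t53 b) (t54 b)
noncomputable def v55 (x1 x2 x3 : ℝ) : ℝ := v53 x1 x2 x3 - v54 x1 x2 x3
theorem en55 (h : In b E x1 x2 x3) : Enc S E (t55 b) (v55 x1 x2 x3) := enc_sub (en53 h) (en54 h)

def t56 (b : Bx) : TM := tsub (t55 b) (t6 b)
noncomputable def v56 (x1 x2 x3 : ℝ) : ℝ := v55 x1 x2 x3 - v6 x1 x2 x3
theorem en56 (h : In b E x1 x2 x3) : Enc S E (t56 b) (v56 x1 x2 x3) := enc_sub (en55 h) (en6 h)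

def t57 (b : Bx) : TM := tnat 2 (t24 b)
noncomputable def v57 (x1 x2 x3 : ℝ) : ℝ := ((2 : ℕ) : ℝ) * v24 x1 x2 x3
theorem en57 (h : In b E x1 x2 x3) : Enc S E (t57 b) (v57 x1 x2 x3) := enc_nat 2 (en24 h)

def t58 (b : Bx) : TM := tadd (t56 b) (t57 b)
noncomputable def v58 (x1 x2 x3 : ℝ) : ℝ := v56 x1 x2 x3 + v57 x1 x2 x3
theorem en58 (h : In b E x1 x2 x3) : Enc S E (t58 b) (v58 x1 x2 x3) := enc_add (en56 h) (en57 h)

def t59 (b : Bx) : TM := tadd (t52 b) (t24 b)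
noncomputable def v59 (x1 x2 x3 : ℝ) : ℝ := v52 x1 x2 x3 + v24 x1 x2 x3
theorem en59 (h : In b E x1 x2 x3) : Enc S E (t59 b) (v59 x1 x2 x3) := enc_add (en52 h) (en24 h)

def t60 (b : Bx) : TM := tsub (t59 b) (t20 b)
noncomputable def v60 (x1 x2 x3 : ℝ) : ℝ := v59 x1 x2 x3 - v20 x1 x2 x3
theorem en60 (h : In b E x1 x2 x3) : Enc S E (t60 b) (v60 x1 x2 x3) := enc_sub (en59 h) (en20 h)

def t61 (b : Bx) : TM := tadd (t42 b) (t24 b)
noncomputable def v61 (x1 x2 x3 : ℝ) : ℝ := v42 x1 x2 x3 + v24 x1 x2 x3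
theorem en61 (h : In b E x1 x2 x3) : Enc S E (t61 b) (v61 x1 x2 x3) := enc_add (en42 h) (en24 h)

def t62 (b : Bx) : TM := tsub (t61 b) (t20 b)
noncomputable def v62 (x1 x2 x3 : ℝ) : ℝ := v61 x1 x2 x3 - v20 x1 x2 x3
theorem en62 (h : In b E x1 x2 x3) : Enc S E (t62 b) (v62 x1 x2 x3) := enc_sub (en61 h) (en20 h)

def t63 (b : Bx) : TM := tadd (t15 b) (t6 b)
noncomputable def v63 (x1 x2 x3 : ℝ) : ℝ := v15 x1 x2 x3 + v6 x1 x2 x3
theorem en63 (h : In b E x1 x2 x3) : Enc S E (t63 b) (v63 x1 x2 x3) := enc_add (en15 h) (en6 h)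

def t64 (b : Bx) : TM := tsub (t63 b) (t60 b)
noncomputable def v64 (x1 x2 x3 : ℝ) : ℝ := v63 x1 x2 x3 - v60 x1 x2 x3
theorem en64 (h : In b E x1 x2 x3) : Enc S E (t64 b) (v64 x1 x2 x3) := enc_sub (en63 h) (en60 h)

def t65 (b : Bx) : TM := tsub (t64 b) (t62 b)
noncomputable def v65 (x1 x2 x3 : ℝ) : ℝ := v64 x1 x2 x3 - v62 x1 x2 x3
theorem en65 (h : In b E x1 x2 x3) : Enc S E (t65 b) (v65 x1 x2 x3) := enc_sub (en64 h) (en62 h)

def t66 (b : Bx) : TM := tadd (t55 b) (t6 b)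
noncomputable def v66 (x1 x2 x3 : ℝ) : ℝ := v55 x1 x2 x3 + v6 x1 x2 x3
theorem en66 (h : In b E x1 x2 x3) : Enc S E (t66 b) (v66 x1 x2 x3) := enc_add (en55 h) (en6 h)

def t67 (b : Bx) : TM := tsub (t15 b) (t6 b)
noncomputable def v67 (x1 x2 x3 : ℝ) : ℝ := v15 x1 x2 x3 - v6 x1 x2 x3
theorem en67 (h : In b E x1 x2 x3) : Enc S E (t67 b) (v67 x1 x2 x3) := enc_sub (en15 h) (en6 h)

def t68 (b : Bx) : TM := tadd (t67 b) (t54 b)
noncomputable def v68 (x1 x2 x3 : ℝ) : ℝ := v67 x1 x2 x3 + v54 x1 x2 x3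
theorem en68 (h : In b E x1 x2 x3) : Enc S E (t68 b) (v68 x1 x2 x3) := enc_add (en67 h) (en54 h)

def t69 (b : Bx) : TM := tsub (t68 b) (t52 b)
noncomputable def v69 (x1 x2 x3 : ℝ) : ℝ := v68 x1 x2 x3 - v52 x1 x2 x3
theorem en69 (h : In b E x1 x2 x3) : Enc S E (t69 b) (v69 x1 x2 x3) := enc_sub (en68 h) (en52 h)

def t70 (b : Bx) : TM := tsub (t69 b) (t42 b)
noncomputable def v70 (x1 x2 x3 : ℝ) : ℝ := v69 x1 x2 x3 - v42 x1 x2 x3
theorem en70 (h : In b E x1 x2 x3) : Enc S E (t70 b) (v70 x1 x2 x3) := enc_sub (en69 h) (en42 h)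

def t71 (b : Bx) : TM := tadd (t58 b) (t65 b)
noncomputable def v71 (x1 x2 x3 : ℝ) : ℝ := v58 x1 x2 x3 + v65 x1 x2 x3
theorem en71 (h : In b E x1 x2 x3) : Enc S E (t71 b) (v71 x1 x2 x3) := enc_add (en58 h) (en65 h)

def t72 (b : Bx) : TM := tscale 9 5 (t71 b)
noncomputable def v72 (x1 x2 x3 : ℝ) : ℝ := ((9 : ℕ) : ℝ) / ((5 : ℕ) : ℝ) * v71 x1 x2 x3
theorem en72 (h : In b E x1 x2 x3) : Enc S E (t72 b) (v72 x1 x2 x3) := enc_scale 9 (by norm_num) (en71 h)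

def t73 (b : Bx) : TM := tadd (t38 b) (t72 b)
noncomputable def v73 (x1 x2 x3 : ℝ) : ℝ := v38 x1 x2 x3 + v72 x1 x2 x3
theorem en73 (h : In b E x1 x2 x3) : Enc S E (t73 b) (v73 x1 x2 x3) := enc_add (en38 h) (en72 h)

def t74 (b : Bx) : TM := tadd (t66 b) (t70 b)
noncomputable def v74 (x1 x2 x3 : ℝ) : ℝ := v66 x1 x2 x3 + v70 x1 x2 x3
theorem en74 (h : In b E x1 x2 x3) : Enc S E (t74 b) (v74 x1 x2 x3) := enc_add (en66 h) (en70 h)

def t75 (b : Bx) : TM := tscale 1 5 (t74 b)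
noncomputable def v75 (x1 x2 x3 : ℝ) : ℝ := ((1 : ℕ) : ℝ) / ((5 : ℕ) : ℝ) * v74 x1 x2 x3
theorem en75 (h : In b E x1 x2 x3) : Enc S E (t75 b) (v75 x1 x2 x3) := enc_scale 1 (by norm_num) (en74 h)

def t76 (b : Bx) : TM := tadd (t73 b) (t75 b)
noncomputable def v76 (x1 x2 x3 : ℝ) : ℝ := v73 x1 x2 x3 + v75 x1 x2 x3
theorem en76 (h : In b E x1 x2 x3) : Enc S E (t76 b) (v76 x1 x2 x3) := enc_add (en73 h) (en75 h)

def t77 (b : Bx) : TM := tsub (t30 b) (t26 b)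
noncomputable def v77 (x1 x2 x3 : ℝ) : ℝ := v30 x1 x2 x3 - v26 x1 x2 x3
theorem en77 (h : In b E x1 x2 x3) : Enc S E (t77 b) (v77 x1 x2 x3) := enc_sub (en30 h) (en26 h)

def t78 (b : Bx) : TM := tsub (t30 b) (t25 b)
noncomputable def v78 (x1 x2 x3 : ℝ) : ℝ := v30 x1 x2 x3 - v25 x1 x2 x3
theorem en78 (h : In b E x1 x2 x3) : Enc S E (t78 b) (v78 x1 x2 x3) := enc_sub (en30 h) (en25 h)

def t79 (b : Bx) : TM := tsub (t25 b) (t0 b)
noncomputable def v79 (x1 x2 x3 : ℝ) : ℝ := v25 x1 x2 x3 - v0 x1 x2 x3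
theorem en79 (h : In b E x1 x2 x3) : Enc S E (t79 b) (v79 x1 x2 x3) := enc_sub (en25 h) (en0 h)

def t80 (b : Bx) : TM := tsub (t2 b) (t17 b)
noncomputable def v80 (x1 x2 x3 : ℝ) : ℝ := v2 x1 x2 x3 - v17 x1 x2 x3
theorem en80 (h : In b E x1 x2 x3) : Enc S E (t80 b) (v80 x1 x2 x3) := enc_sub (en2 h) (en17 h)

def t81 (_b : Bx) : TM := tconst (Nat.mul 0 S) 0 0
noncomputable def v81 (_x1 _x2 _x3 : ℝ) : ℝ := ((0 : ℕ) : ℝ)
theorem en81 (_h : In b E x1 x2 x3) : Enc S E (t81 b) (v81 x1 x2 x3) := enc_nc E 0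

def t82 (b : Bx) : TM := tsub (t1 b) (t81 b)
noncomputable def v82 (x1 x2 x3 : ℝ) : ℝ := v1 x1 x2 x3 - v81 x1 x2 x3
theorem en82 (h : In b E x1 x2 x3) : Enc S E (t82 b) (v82 x1 x2 x3) := enc_sub (en1 h) (en81 h)

def t83 (b : Bx) : TM := tneg (t6 b)
noncomputable def v83 (x1 x2 x3 : ℝ) : ℝ := -(v6 x1 x2 x3)
theorem en83 (h : In b E x1 x2 x3) : Enc S E (t83 b) (v83 x1 x2 x3) := enc_neg (en6 h)

def t84 (b : Bx) : TM := tsq S (t82 b)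
noncomputable def v84 (x1 x2 x3 : ℝ) : ℝ := (v82 x1 x2 x3) ^ 2
theorem en84 (h : In b E x1 x2 x3) : Enc S E (t84 b) (v84 x1 x2 x3) := enc_sq hS (en82 h)

def t85 (b : Bx) : TM := tadd (t17 b) (t82 b)
noncomputable def v85 (x1 x2 x3 : ℝ) : ℝ := v17 x1 x2 x3 + v82 x1 x2 x3
theorem en85 (h : In b E x1 x2 x3) : Enc S E (t85 b) (v85 x1 x2 x3) := enc_add (en17 h) (en82 h)

def t86 (b : Bx) : TM := tmul S (t83 b) (t85 b)
noncomputable def v86 (x1 x2 x3 : ℝ) : ℝ := v83 x1 x2 x3 * v85 x1 x2 x3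
theorem en86 (h : In b E x1 x2 x3) : Enc S E (t86 b) (v86 x1 x2 x3) := enc_mul hS (en83 h) (en85 h)

def t87 (b : Bx) : TM := tsub (t6 b) (t84 b)
noncomputable def v87 (x1 x2 x3 : ℝ) : ℝ := v6 x1 x2 x3 - v84 x1 x2 x3
theorem en87 (h : In b E x1 x2 x3) : Enc S E (t87 b) (v87 x1 x2 x3) := enc_sub (en6 h) (en84 h)

def t88 (b : Bx) : TM := tneg (t86 b)
noncomputable def v88 (x1 x2 x3 : ℝ) : ℝ := -(v86 x1 x2 x3)
theorem en88 (h : In b E x1 x2 x3) : Enc S E (t88 b) (v88 x1 x2 x3) := enc_neg (en86 h)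

def t89 (b : Bx) : TM := tsqrt S (t87 b)
noncomputable def v89 (x1 x2 x3 : ℝ) : ℝ := Real.sqrt (v87 x1 x2 x3)
theorem en89 (h : In b E x1 x2 x3) : Enc S E (t89 b) (v89 x1 x2 x3) := enc_sqrt hS (en87 h)

def t90 (b : Bx) : TM := tadd (t33 b) (t89 b)
noncomputable def v90 (x1 x2 x3 : ℝ) : ℝ := v33 x1 x2 x3 + v89 x1 x2 x3
theorem en90 (h : In b E x1 x2 x3) : Enc S E (t90 b) (v90 x1 x2 x3) := enc_add (en33 h) (en89 h)

def t91 (b : Bx) : TM := tinv S (t90 b)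
noncomputable def v91 (x1 x2 x3 : ℝ) : ℝ := (v90 x1 x2 x3)⁻¹
theorem en91 (h : In b E x1 x2 x3) : Enc S E (t91 b) (v91 x1 x2 x3) := enc_inv hS (en90 h)

def t92 (b : Bx) : TM := tmul S (t88 b) (t91 b)
noncomputable def v92 (x1 x2 x3 : ℝ) : ℝ := v88 x1 x2 x3 * v91 x1 x2 x3
theorem en92 (h : In b E x1 x2 x3) : Enc S E (t92 b) (v92 x1 x2 x3) := enc_mul hS (en88 h) (en91 h)

def t93 (b : Bx) : TM := tnat 8 (t89 b)
noncomputable def v93 (x1 x2 x3 : ℝ) : ℝ := ((8 : ℕ) : ℝ) * v89 x1 x2 x3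
theorem en93 (h : In b E x1 x2 x3) : Enc S E (t93 b) (v93 x1 x2 x3) := enc_nat 8 (en89 h)

def t94 (b : Bx) : TM := tnat 8 (t92 b)
noncomputable def v94 (x1 x2 x3 : ℝ) : ℝ := ((8 : ℕ) : ℝ) * v92 x1 x2 x3
theorem en94 (h : In b E x1 x2 x3) : Enc S E (t94 b) (v94 x1 x2 x3) := enc_nat 8 (en92 h)

def t95 (b : Bx) : TM := tsub (t93 b) (t35 b)
noncomputable def v95 (x1 x2 x3 : ℝ) : ℝ := v93 x1 x2 x3 - v35 x1 x2 x3
theorem en95 (h : In b E x1 x2 x3) : Enc S E (t95 b) (v95 x1 x2 x3) := enc_sub (en93 h) (en35 h)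

def t96 (b : Bx) : TM := tsub (t95 b) (t37 b)
noncomputable def v96 (x1 x2 x3 : ℝ) : ℝ := v95 x1 x2 x3 - v37 x1 x2 x3
theorem en96 (h : In b E x1 x2 x3) : Enc S E (t96 b) (v96 x1 x2 x3) := enc_sub (en95 h) (en37 h)

def t97 (b : Bx) : TM := tsub (t30 b) (t82 b)
noncomputable def v97 (x1 x2 x3 : ℝ) : ℝ := v30 x1 x2 x3 - v82 x1 x2 x3
theorem en97 (h : In b E x1 x2 x3) : Enc S E (t97 b) (v97 x1 x2 x3) := enc_sub (en30 h) (en82 h)

def t98 (b : Bx) : TM := tneg (t83 b)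
noncomputable def v98 (x1 x2 x3 : ℝ) : ℝ := -(v83 x1 x2 x3)
theorem en98 (h : In b E x1 x2 x3) : Enc S E (t98 b) (v98 x1 x2 x3) := enc_neg (en83 h)

def t99 (b : Bx) : TM := tsq S (t97 b)
noncomputable def v99 (x1 x2 x3 : ℝ) : ℝ := (v97 x1 x2 x3) ^ 2
theorem en99 (h : In b E x1 x2 x3) : Enc S E (t99 b) (v99 x1 x2 x3) := enc_sq hS (en97 h)

def t100 (b : Bx) : TM := tadd (t45 b) (t97 b)
noncomputable def v100 (x1 x2 x3 : ℝ) : ℝ := v45 x1 x2 x3 + v97 x1 x2 x3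
theorem en100 (h : In b E x1 x2 x3) : Enc S E (t100 b) (v100 x1 x2 x3) := enc_add (en45 h) (en97 h)

def t101 (b : Bx) : TM := tmul S (t98 b) (t100 b)
noncomputable def v101 (x1 x2 x3 : ℝ) : ℝ := v98 x1 x2 x3 * v100 x1 x2 x3
theorem en101 (h : In b E x1 x2 x3) : Enc S E (t101 b) (v101 x1 x2 x3) := enc_mul hS (en98 h) (en100 h)

def t102 (b : Bx) : TM := tsub (t6 b) (t99 b)
noncomputable def v102 (x1 x2 x3 : ℝ) : ℝ := v6 x1 x2 x3 - v99 x1 x2 x3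
theorem en102 (h : In b E x1 x2 x3) : Enc S E (t102 b) (v102 x1 x2 x3) := enc_sub (en6 h) (en99 h)

def t103 (b : Bx) : TM := tneg (t101 b)
noncomputable def v103 (x1 x2 x3 : ℝ) : ℝ := -(v101 x1 x2 x3)
theorem en103 (h : In b E x1 x2 x3) : Enc S E (t103 b) (v103 x1 x2 x3) := enc_neg (en101 h)

def t104 (b : Bx) : TM := tsqrt S (t102 b)
noncomputable def v104 (x1 x2 x3 : ℝ) : ℝ := Real.sqrt (v102 x1 x2 x3)
theorem en104 (h : In b E x1 x2 x3) : Enc S E (t104 b) (v104 x1 x2 x3) := enc_sqrt hS (en102 h)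

def t105 (b : Bx) : TM := tadd (t48 b) (t104 b)
noncomputable def v105 (x1 x2 x3 : ℝ) : ℝ := v48 x1 x2 x3 + v104 x1 x2 x3
theorem en105 (h : In b E x1 x2 x3) : Enc S E (t105 b) (v105 x1 x2 x3) := enc_add (en48 h) (en104 h)

def t106 (b : Bx) : TM := tinv S (t105 b)
noncomputable def v106 (x1 x2 x3 : ℝ) : ℝ := (v105 x1 x2 x3)⁻¹
theorem en106 (h : In b E x1 x2 x3) : Enc S E (t106 b) (v106 x1 x2 x3) := enc_inv hS (en105 h)

def t107 (b : Bx) : TM := tmul S (t103 b) (t106 b)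
noncomputable def v107 (x1 x2 x3 : ℝ) : ℝ := v103 x1 x2 x3 * v106 x1 x2 x3
theorem en107 (h : In b E x1 x2 x3) : Enc S E (t107 b) (v107 x1 x2 x3) := enc_mul hS (en103 h) (en106 h)

def t108 (b : Bx) : TM := tnat 2 (t104 b)
noncomputable def v108 (x1 x2 x3 : ℝ) : ℝ := ((2 : ℕ) : ℝ) * v104 x1 x2 x3
theorem en108 (h : In b E x1 x2 x3) : Enc S E (t108 b) (v108 x1 x2 x3) := enc_nat 2 (en104 h)

def t109 (b : Bx) : TM := tnat 2 (t107 b)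
noncomputable def v109 (x1 x2 x3 : ℝ) : ℝ := ((2 : ℕ) : ℝ) * v107 x1 x2 x3
theorem en109 (h : In b E x1 x2 x3) : Enc S E (t109 b) (v109 x1 x2 x3) := enc_nat 2 (en107 h)

def t110 (b : Bx) : TM := tsub (t108 b) (t54 b)
noncomputable def v110 (x1 x2 x3 : ℝ) : ℝ := v108 x1 x2 x3 - v54 x1 x2 x3
theorem en110 (h : In b E x1 x2 x3) : Enc S E (t110 b) (v110 x1 x2 x3) := enc_sub (en108 h) (en54 h)

def t111 (b : Bx) : TM := tsub (t110 b) (t6 b)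
noncomputable def v111 (x1 x2 x3 : ℝ) : ℝ := v110 x1 x2 x3 - v6 x1 x2 x3
theorem en111 (h : In b E x1 x2 x3) : Enc S E (t111 b) (v111 x1 x2 x3) := enc_sub (en110 h) (en6 h)

def t112 (b : Bx) : TM := tadd (t111 b) (t57 b)
noncomputable def v112 (x1 x2 x3 : ℝ) : ℝ := v111 x1 x2 x3 + v57 x1 x2 x3
theorem en112 (h : In b E x1 x2 x3) : Enc S E (t112 b) (v112 x1 x2 x3) := enc_add (en111 h) (en57 h)

def t113 (b : Bx) : TM := tadd (t82 b) (t12 b)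
noncomputable def v113 (x1 x2 x3 : ℝ) : ℝ := v82 x1 x2 x3 + v12 x1 x2 x3
theorem en113 (h : In b E x1 x2 x3) : Enc S E (t113 b) (v113 x1 x2 x3) := enc_add (en82 h) (en12 h)

def t114 (b : Bx) : TM := tsub (t113 b) (t1 b)
noncomputable def v114 (x1 x2 x3 : ℝ) : ℝ := v113 x1 x2 x3 - v1 x1 x2 x3
theorem en114 (h : In b E x1 x2 x3) : Enc S E (t114 b) (v114 x1 x2 x3) := enc_sub (en113 h) (en1 h)

def t115 (b : Bx) : TM := tsq S (t114 b)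
noncomputable def v115 (x1 x2 x3 : ℝ) : ℝ := (v114 x1 x2 x3) ^ 2
theorem en115 (h : In b E x1 x2 x3) : Enc S E (t115 b) (v115 x1 x2 x3) := enc_sq hS (en114 h)

def t116 (b : Bx) : TM := tadd (t49 b) (t114 b)
noncomputable def v116 (x1 x2 x3 : ℝ) : ℝ := v49 x1 x2 x3 + v114 x1 x2 x3
theorem en116 (h : In b E x1 x2 x3) : Enc S E (t116 b) (v116 x1 x2 x3) := enc_add (en49 h) (en114 h)

def t117 (b : Bx) : TM := tmul S (t83 b) (t116 b)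
noncomputable def v117 (x1 x2 x3 : ℝ) : ℝ := v83 x1 x2 x3 * v116 x1 x2 x3
theorem en117 (h : In b E x1 x2 x3) : Enc S E (t117 b) (v117 x1 x2 x3) := enc_mul hS (en83 h) (en116 h)

def t118 (b : Bx) : TM := tsub (t6 b) (t115 b)
noncomputable def v118 (x1 x2 x3 : ℝ) : ℝ := v6 x1 x2 x3 - v115 x1 x2 x3
theorem en118 (h : In b E x1 x2 x3) : Enc S E (t118 b) (v118 x1 x2 x3) := enc_sub (en6 h) (en115 h)

def t119 (b : Bx) : TM := tneg (t117 b)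
noncomputable def v119 (x1 x2 x3 : ℝ) : ℝ := -(v117 x1 x2 x3)
theorem en119 (h : In b E x1 x2 x3) : Enc S E (t119 b) (v119 x1 x2 x3) := enc_neg (en117 h)

def t120 (b : Bx) : TM := tsqrt S (t118 b)
noncomputable def v120 (x1 x2 x3 : ℝ) : ℝ := Real.sqrt (v118 x1 x2 x3)
theorem en120 (h : In b E x1 x2 x3) : Enc S E (t120 b) (v120 x1 x2 x3) := enc_sqrt hS (en118 h)

def t121 (b : Bx) : TM := tadd (t52 b) (t120 b)
noncomputable def v121 (x1 x2 x3 : ℝ) : ℝ := v52 x1 x2 x3 + v120 x1 x2 x3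
theorem en121 (h : In b E x1 x2 x3) : Enc S E (t121 b) (v121 x1 x2 x3) := enc_add (en52 h) (en120 h)

def t122 (b : Bx) : TM := tinv S (t121 b)
noncomputable def v122 (x1 x2 x3 : ℝ) : ℝ := (v121 x1 x2 x3)⁻¹
theorem en122 (h : In b E x1 x2 x3) : Enc S E (t122 b) (v122 x1 x2 x3) := enc_inv hS (en121 h)

def t123 (b : Bx) : TM := tmul S (t119 b) (t122 b)
noncomputable def v123 (x1 x2 x3 : ℝ) : ℝ := v119 x1 x2 x3 * v122 x1 x2 x3
theorem en123 (h : In b E x1 x2 x3) : Enc S E (t123 b) (v123 x1 x2 x3) := enc_mul hS (en119 h) (en122 h)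

def t124 (b : Bx) : TM := tadd (t120 b) (t24 b)
noncomputable def v124 (x1 x2 x3 : ℝ) : ℝ := v120 x1 x2 x3 + v24 x1 x2 x3
theorem en124 (h : In b E x1 x2 x3) : Enc S E (t124 b) (v124 x1 x2 x3) := enc_add (en120 h) (en24 h)

def t125 (b : Bx) : TM := tsub (t124 b) (t20 b)
noncomputable def v125 (x1 x2 x3 : ℝ) : ℝ := v124 x1 x2 x3 - v20 x1 x2 x3
theorem en125 (h : In b E x1 x2 x3) : Enc S E (t125 b) (v125 x1 x2 x3) := enc_sub (en124 h) (en20 h)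

def t126 (b : Bx) : TM := tsub (t63 b) (t125 b)
noncomputable def v126 (x1 x2 x3 : ℝ) : ℝ := v63 x1 x2 x3 - v125 x1 x2 x3
theorem en126 (h : In b E x1 x2 x3) : Enc S E (t126 b) (v126 x1 x2 x3) := enc_sub (en63 h) (en125 h)

def t127 (b : Bx) : TM := tneg (t123 b)
noncomputable def v127 (x1 x2 x3 : ℝ) : ℝ := -(v123 x1 x2 x3)
theorem en127 (h : In b E x1 x2 x3) : Enc S E (t127 b) (v127 x1 x2 x3) := enc_neg (en123 h)

def t128 (b : Bx) : TM := tadd (t82 b) (t4 b)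
noncomputable def v128 (x1 x2 x3 : ℝ) : ℝ := v82 x1 x2 x3 + v4 x1 x2 x3
theorem en128 (h : In b E x1 x2 x3) : Enc S E (t128 b) (v128 x1 x2 x3) := enc_add (en82 h) (en4 h)

def t129 (b : Bx) : TM := tsub (t128 b) (t1 b)
noncomputable def v129 (x1 x2 x3 : ℝ) : ℝ := v128 x1 x2 x3 - v1 x1 x2 x3
theorem en129 (h : In b E x1 x2 x3) : Enc S E (t129 b) (v129 x1 x2 x3) := enc_sub (en128 h) (en1 h)

def t130 (b : Bx) : TM := tsq S (t129 b)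
noncomputable def v130 (x1 x2 x3 : ℝ) : ℝ := (v129 x1 x2 x3) ^ 2
theorem en130 (h : In b E x1 x2 x3) : Enc S E (t130 b) (v130 x1 x2 x3) := enc_sq hS (en129 h)

def t131 (b : Bx) : TM := tadd (t39 b) (t129 b)
noncomputable def v131 (x1 x2 x3 : ℝ) : ℝ := v39 x1 x2 x3 + v129 x1 x2 x3
theorem en131 (h : In b E x1 x2 x3) : Enc S E (t131 b) (v131 x1 x2 x3) := enc_add (en39 h) (en129 h)

def t132 (b : Bx) : TM := tmul S (t83 b) (t131 b)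
noncomputable def v132 (x1 x2 x3 : ℝ) : ℝ := v83 x1 x2 x3 * v131 x1 x2 x3
theorem en132 (h : In b E x1 x2 x3) : Enc S E (t132 b) (v132 x1 x2 x3) := enc_mul hS (en83 h) (en131 h)

def t133 (b : Bx) : TM := tsub (t6 b) (t130 b)
noncomputable def v133 (x1 x2 x3 : ℝ) : ℝ := v6 x1 x2 x3 - v130 x1 x2 x3
theorem en133 (h : In b E x1 x2 x3) : Enc S E (t133 b) (v133 x1 x2 x3) := enc_sub (en6 h) (en130 h)

def t134 (b : Bx) : TM := tneg (t132 b)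
noncomputable def v134 (x1 x2 x3 : ℝ) : ℝ := -(v132 x1 x2 x3)
theorem en134 (h : In b E x1 x2 x3) : Enc S E (t134 b) (v134 x1 x2 x3) := enc_neg (en132 h)

def t135 (b : Bx) : TM := tsqrt S (t133 b)
noncomputable def v135 (x1 x2 x3 : ℝ) : ℝ := Real.sqrt (v133 x1 x2 x3)
theorem en135 (h : In b E x1 x2 x3) : Enc S E (t135 b) (v135 x1 x2 x3) := enc_sqrt hS (en133 h)

def t136 (b : Bx) : TM := tadd (t42 b) (t135 b)
noncomputable def v136 (x1 x2 x3 : ℝ) : ℝ := v42 x1 x2 x3 + v135 x1 x2 x3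
theorem en136 (h : In b E x1 x2 x3) : Enc S E (t136 b) (v136 x1 x2 x3) := enc_add (en42 h) (en135 h)

def t137 (b : Bx) : TM := tinv S (t136 b)
noncomputable def v137 (x1 x2 x3 : ℝ) : ℝ := (v136 x1 x2 x3)⁻¹
theorem en137 (h : In b E x1 x2 x3) : Enc S E (t137 b) (v137 x1 x2 x3) := enc_inv hS (en136 h)

def t138 (b : Bx) : TM := tmul S (t134 b) (t137 b)
noncomputable def v138 (x1 x2 x3 : ℝ) : ℝ := v134 x1 x2 x3 * v137 x1 x2 x3
theorem en138 (h : In b E x1 x2 x3) : Enc S E (t138 b) (v138 x1 x2 x3) := enc_mul hS (en134 h) (en137 h)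

def t139 (b : Bx) : TM := tadd (t135 b) (t24 b)
noncomputable def v139 (x1 x2 x3 : ℝ) : ℝ := v135 x1 x2 x3 + v24 x1 x2 x3
theorem en139 (h : In b E x1 x2 x3) : Enc S E (t139 b) (v139 x1 x2 x3) := enc_add (en135 h) (en24 h)

def t140 (b : Bx) : TM := tsub (t139 b) (t20 b)
noncomputable def v140 (x1 x2 x3 : ℝ) : ℝ := v139 x1 x2 x3 - v20 x1 x2 x3
theorem en140 (h : In b E x1 x2 x3) : Enc S E (t140 b) (v140 x1 x2 x3) := enc_sub (en139 h) (en20 h)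

def t141 (b : Bx) : TM := tsub (t126 b) (t140 b)
noncomputable def v141 (x1 x2 x3 : ℝ) : ℝ := v126 x1 x2 x3 - v140 x1 x2 x3
theorem en141 (h : In b E x1 x2 x3) : Enc S E (t141 b) (v141 x1 x2 x3) := enc_sub (en126 h) (en140 h)

def t142 (b : Bx) : TM := tsub (t127 b) (t138 b)
noncomputable def v142 (x1 x2 x3 : ℝ) : ℝ := v127 x1 x2 x3 - v138 x1 x2 x3
theorem en142 (h : In b E x1 x2 x3) : Enc S E (t142 b) (v142 x1 x2 x3) := enc_sub (en127 h) (en138 h)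

def t143 (b : Bx) : TM := tadd (t112 b) (t141 b)
noncomputable def v143 (x1 x2 x3 : ℝ) : ℝ := v112 x1 x2 x3 + v141 x1 x2 x3
theorem en143 (h : In b E x1 x2 x3) : Enc S E (t143 b) (v143 x1 x2 x3) := enc_add (en112 h) (en141 h)

def t144 (b : Bx) : TM := tadd (t109 b) (t142 b)
noncomputable def v144 (x1 x2 x3 : ℝ) : ℝ := v109 x1 x2 x3 + v142 x1 x2 x3
theorem en144 (h : In b E x1 x2 x3) : Enc S E (t144 b) (v144 x1 x2 x3) := enc_add (en109 h) (en142 h)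

def t145 (b : Bx) : TM := tscale 9 5 (t143 b)
noncomputable def v145 (x1 x2 x3 : ℝ) : ℝ := ((9 : ℕ) : ℝ) / ((5 : ℕ) : ℝ) * v143 x1 x2 x3
theorem en145 (h : In b E x1 x2 x3) : Enc S E (t145 b) (v145 x1 x2 x3) := enc_scale 9 (by norm_num) (en143 h)

def t146 (b : Bx) : TM := tscale 9 5 (t144 b)
noncomputable def v146 (x1 x2 x3 : ℝ) : ℝ := ((9 : ℕ) : ℝ) / ((5 : ℕ) : ℝ) * v144 x1 x2 x3
theorem en146 (h : In b E x1 x2 x3) : Enc S E (t146 b) (v146 x1 x2 x3) := enc_scale 9 (by norm_num) (en144 h)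

def t147 (b : Bx) : TM := tadd (t96 b) (t145 b)
noncomputable def v147 (x1 x2 x3 : ℝ) : ℝ := v96 x1 x2 x3 + v145 x1 x2 x3
theorem en147 (h : In b E x1 x2 x3) : Enc S E (t147 b) (v147 x1 x2 x3) := enc_add (en96 h) (en145 h)

def t148 (b : Bx) : TM := tadd (t94 b) (t146 b)
noncomputable def v148 (x1 x2 x3 : ℝ) : ℝ := v94 x1 x2 x3 + v146 x1 x2 x3
theorem en148 (h : In b E x1 x2 x3) : Enc S E (t148 b) (v148 x1 x2 x3) := enc_add (en94 h) (en146 h)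

def t149 (b : Bx) : TM := tadd (t110 b) (t6 b)
noncomputable def v149 (x1 x2 x3 : ℝ) : ℝ := v110 x1 x2 x3 + v6 x1 x2 x3
theorem en149 (h : In b E x1 x2 x3) : Enc S E (t149 b) (v149 x1 x2 x3) := enc_add (en110 h) (en6 h)

def t150 (b : Bx) : TM := tsub (t68 b) (t120 b)
noncomputable def v150 (x1 x2 x3 : ℝ) : ℝ := v68 x1 x2 x3 - v120 x1 x2 x3
theorem en150 (h : In b E x1 x2 x3) : Enc S E (t150 b) (v150 x1 x2 x3) := enc_sub (en68 h) (en120 h)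

def t151 (b : Bx) : TM := tsub (t150 b) (t135 b)
noncomputable def v151 (x1 x2 x3 : ℝ) : ℝ := v150 x1 x2 x3 - v135 x1 x2 x3
theorem en151 (h : In b E x1 x2 x3) : Enc S E (t151 b) (v151 x1 x2 x3) := enc_sub (en150 h) (en135 h)

def t152 (b : Bx) : TM := tadd (t149 b) (t151 b)
noncomputable def v152 (x1 x2 x3 : ℝ) : ℝ := v149 x1 x2 x3 + v151 x1 x2 x3
theorem en152 (h : In b E x1 x2 x3) : Enc S E (t152 b) (v152 x1 x2 x3) := enc_add (en149 h) (en151 h)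

def t153 (b : Bx) : TM := tscale 1 5 (t152 b)
noncomputable def v153 (x1 x2 x3 : ℝ) : ℝ := ((1 : ℕ) : ℝ) / ((5 : ℕ) : ℝ) * v152 x1 x2 x3
theorem en153 (h : In b E x1 x2 x3) : Enc S E (t153 b) (v153 x1 x2 x3) := enc_scale 1 (by norm_num) (en152 h)

def t154 (b : Bx) : TM := tscale 1 5 (t144 b)
noncomputable def v154 (x1 x2 x3 : ℝ) : ℝ := ((1 : ℕ) : ℝ) / ((5 : ℕ) : ℝ) * v144 x1 x2 x3
theorem en154 (h : In b E x1 x2 x3) : Enc S E (t154 b) (v154 x1 x2 x3) := enc_scale 1 (by norm_num) (en144 h)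

def t155 (b : Bx) : TM := tadd (t147 b) (t153 b)
noncomputable def v155 (x1 x2 x3 : ℝ) : ℝ := v147 x1 x2 x3 + v153 x1 x2 x3
theorem en155 (h : In b E x1 x2 x3) : Enc S E (t155 b) (v155 x1 x2 x3) := enc_add (en147 h) (en153 h)

def t156 (b : Bx) : TM := tadd (t148 b) (t154 b)
noncomputable def v156 (x1 x2 x3 : ℝ) : ℝ := v148 x1 x2 x3 + v154 x1 x2 x3
theorem en156 (h : In b E x1 x2 x3) : Enc S E (t156 b) (v156 x1 x2 x3) := enc_add (en148 h) (en154 h)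

end

def tst (b : Bx) : Bool := or (and (pos (t156 b)) (and (pos (t32 b)) (and (pos (t87 b)) (and (pos (t47 b)) (and (pos (t102 b)) (and (pos (t51 b)) (and (pos (t118 b)) (and (pos (t41 b)) (pos (t133 b)))))))))) (or (pos (t77 b)) (or (pos (t78 b)) (or (pos (t79 b)) (pos (t80 b)))))

def f (b : Bx) : Nat := go (tst b) 1 (t156 b) b

/-- the conditions -/
def Cnd (x1 x2 x3 : ℝ) : Prop := 0 < v32 x1 x2 x3 ∧ 0 < v87 x1 x2 x3 ∧ 0 < v47 x1 x2 x3 ∧ 0 < v102 x1 x2 x3 ∧ 0 < v51 x1 x2 x3 ∧ 0 < v118 x1 x2 x3 ∧ 0 < v41 x1 x2 x3 ∧ 0 < v133 x1 x2 x3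

def Q (x1 x2 x3 : ℝ) : Prop := (0 < v156 x1 x2 x3 ∧ Cnd x1 x2 x3) ∨ 0 < v77 x1 x2 x3 ∨ 0 < v78 x1 x2 x3 ∨ 0 < v79 x1 x2 x3 ∨ 0 < v80 x1 x2 x3

theorem f_sound (b : Bx) (hb : f b = 0) (x1 x2 x3 : ℝ) (hm : Mem S b x1 x2 x3) : Q x1 x2 x3 := by
  obtain ⟨E, h⟩ := pt_of_mem hm
  have h : In b E x1 x2 x3 := h
  have ht := go_sound hb
  unfold tst at ht
  unfold Q
  rcases Bool.or_eq_true_iff.mp ht with ht | ht
  · refine Or.inl ?_
    obtain ⟨k1, ht⟩ := Bool.and_eq_true_iff.mp ht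
    have k1156 := pos_sound hS (en156 h) k1
    obtain ⟨k1, ht⟩ := Bool.and_eq_true_iff.mp ht
    have k1032 := pos_sound hS (en32 h) k1
    obtain ⟨k1, ht⟩ := Bool.and_eq_true_iff.mp ht
    have k1087 := pos_sound hS (en87 h) k1
    obtain ⟨k1, ht⟩ := Bool.and_eq_true_iff.mp ht
    have k1047 := pos_sound hS (en47 h) k1
    obtain ⟨k1, ht⟩ := Bool.and_eq_true_iff.mp ht
    have k1102 := pos_sound hS (en102 h) k1
    obtain ⟨k1, ht⟩ := Bool.and_eq_true_iff.mp ht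
    have k1051 := pos_sound hS (en51 h) k1
    obtain ⟨k1, ht⟩ := Bool.and_eq_true_iff.mp ht
    have k1118 := pos_sound hS (en118 h) k1
    obtain ⟨k1, ht⟩ := Bool.and_eq_true_iff.mp ht
    have k1041 := pos_sound hS (en41 h) k1
    have k1133 := pos_sound hS (en133 h) ht
    exact ⟨k1156, k1032, k1087, k1047, k1102, k1051, k1118, k1041, k1133⟩
  · refine Or.inr ?_
    rcases Bool.or_eq_true_iff.mp ht with ht | ht
    · exact Or.inl (pos_sound hS (en77 h) ht)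
    · refine Or.inr ?_
      rcases Bool.or_eq_true_iff.mp ht with ht | ht
      · exact Or.inl (pos_sound hS (en78 h) ht)
      · refine Or.inr ?_
        rcases Bool.or_eq_true_iff.mp ht with ht | ht
        · exact Or.inl (pos_sound hS (en79 h) ht)
        · refine Or.inr ?_
          exact pos_sound hS (en80 h) ht

theorem sa_3 {x1 x2 x3 : ℝ} (_hc : Cnd x1 x2 x3) :
    v3 x1 x2 x3 = v81 x1 x2 x3 + x2 * v6 x1 x2 x3 := svar _

theorem sa_17 {x1 x2 x3 : ℝ} (hc : Cnd x1 x2 x3) :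
    v17 x1 x2 x3 = v82 x1 x2 x3 + x2 * v83 x1 x2 x3 := ssubr (sa_3 hc)

theorem sa_31 {x1 x2 x3 : ℝ} (hc : Cnd x1 x2 x3) :
    v31 x1 x2 x3 = v84 x1 x2 x3 + x2 * v86 x1 x2 x3 := ssq (sa_17 hc)

theorem sa_32 {x1 x2 x3 : ℝ} (hc : Cnd x1 x2 x3) :
    v32 x1 x2 x3 = v87 x1 x2 x3 + x2 * v88 x1 x2 x3 := ssubr (sa_31 hc)

theorem sa_33 {x1 x2 x3 : ℝ} (hc : Cnd x1 x2 x3) :
    v33 x1 x2 x3 = v89 x1 x2 x3 + x2 * v92 x1 x2 x3 := ssqrt (sa_32 hc) hc.1 hc.2.1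

theorem sa_34 {x1 x2 x3 : ℝ} (hc : Cnd x1 x2 x3) :
    v34 x1 x2 x3 = v93 x1 x2 x3 + x2 * v94 x1 x2 x3 := smulr (sa_33 hc)

theorem sa_36 {x1 x2 x3 : ℝ} (hc : Cnd x1 x2 x3) :
    v36 x1 x2 x3 = v95 x1 x2 x3 + x2 * v94 x1 x2 x3 := ssubl (sa_34 hc)

theorem sa_38 {x1 x2 x3 : ℝ} (hc : Cnd x1 x2 x3) :
    v38 x1 x2 x3 = v96 x1 x2 x3 + x2 * v94 x1 x2 x3 := ssubl (sa_36 hc)

theorem sa_45 {x1 x2 x3 : ℝ} (hc : Cnd x1 x2 x3) :
    v45 x1 x2 x3 = v97 x1 x2 x3 + x2 * v98 x1 x2 x3 := ssubr (sa_17 hc)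

theorem sa_46 {x1 x2 x3 : ℝ} (hc : Cnd x1 x2 x3) :
    v46 x1 x2 x3 = v99 x1 x2 x3 + x2 * v101 x1 x2 x3 := ssq (sa_45 hc)

theorem sa_47 {x1 x2 x3 : ℝ} (hc : Cnd x1 x2 x3) :
    v47 x1 x2 x3 = v102 x1 x2 x3 + x2 * v103 x1 x2 x3 := ssubr (sa_46 hc)

theorem sa_48 {x1 x2 x3 : ℝ} (hc : Cnd x1 x2 x3) :
    v48 x1 x2 x3 = v104 x1 x2 x3 + x2 * v107 x1 x2 x3 := ssqrt (sa_47 hc) hc.2.2.1 hc.2.2.2.1

theorem sa_53 {x1 x2 x3 : ℝ} (hc : Cnd x1 x2 x3) :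
    v53 x1 x2 x3 = v108 x1 x2 x3 + x2 * v109 x1 x2 x3 := smulr (sa_48 hc)

theorem sa_55 {x1 x2 x3 : ℝ} (hc : Cnd x1 x2 x3) :
    v55 x1 x2 x3 = v110 x1 x2 x3 + x2 * v109 x1 x2 x3 := ssubl (sa_53 hc)

theorem sa_56 {x1 x2 x3 : ℝ} (hc : Cnd x1 x2 x3) :
    v56 x1 x2 x3 = v111 x1 x2 x3 + x2 * v109 x1 x2 x3 := ssubl (sa_55 hc)

theorem sa_58 {x1 x2 x3 : ℝ} (hc : Cnd x1 x2 x3) :
    v58 x1 x2 x3 = v112 x1 x2 x3 + x2 * v109 x1 x2 x3 := saddl (sa_56 hc)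

theorem sa_25 {x1 x2 x3 : ℝ} (hc : Cnd x1 x2 x3) :
    v25 x1 x2 x3 = v113 x1 x2 x3 + x2 * v83 x1 x2 x3 := saddl (sa_17 hc)

theorem sa_49 {x1 x2 x3 : ℝ} (hc : Cnd x1 x2 x3) :
    v49 x1 x2 x3 = v114 x1 x2 x3 + x2 * v83 x1 x2 x3 := ssubl (sa_25 hc)

theorem sa_50 {x1 x2 x3 : ℝ} (hc : Cnd x1 x2 x3) :
    v50 x1 x2 x3 = v115 x1 x2 x3 + x2 * v117 x1 x2 x3 := ssq (sa_49 hc)

theorem sa_51 {x1 x2 x3 : ℝ} (hc : Cnd x1 x2 x3) :
    v51 x1 x2 x3 = v118 x1 x2 x3 + x2 * v119 x1 x2 x3 := ssubr (sa_50 hc)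

theorem sa_52 {x1 x2 x3 : ℝ} (hc : Cnd x1 x2 x3) :
    v52 x1 x2 x3 = v120 x1 x2 x3 + x2 * v123 x1 x2 x3 := ssqrt (sa_51 hc) hc.2.2.2.2.1 hc.2.2.2.2.2.1

theorem sa_59 {x1 x2 x3 : ℝ} (hc : Cnd x1 x2 x3) :
    v59 x1 x2 x3 = v124 x1 x2 x3 + x2 * v123 x1 x2 x3 := saddl (sa_52 hc)

theorem sa_60 {x1 x2 x3 : ℝ} (hc : Cnd x1 x2 x3) :
    v60 x1 x2 x3 = v125 x1 x2 x3 + x2 * v123 x1 x2 x3 := ssubl (sa_59 hc)

theorem sa_64 {x1 x2 x3 : ℝ} (hc : Cnd x1 x2 x3) :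
    v64 x1 x2 x3 = v126 x1 x2 x3 + x2 * v127 x1 x2 x3 := ssubr (sa_60 hc)

theorem sa_26 {x1 x2 x3 : ℝ} (hc : Cnd x1 x2 x3) :
    v26 x1 x2 x3 = v128 x1 x2 x3 + x2 * v83 x1 x2 x3 := saddl (sa_17 hc)

theorem sa_39 {x1 x2 x3 : ℝ} (hc : Cnd x1 x2 x3) :
    v39 x1 x2 x3 = v129 x1 x2 x3 + x2 * v83 x1 x2 x3 := ssubl (sa_26 hc)

theorem sa_40 {x1 x2 x3 : ℝ} (hc : Cnd x1 x2 x3) :
    v40 x1 x2 x3 = v130 x1 x2 x3 + x2 * v132 x1 x2 x3 := ssq (sa_39 hc)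

theorem sa_41 {x1 x2 x3 : ℝ} (hc : Cnd x1 x2 x3) :
    v41 x1 x2 x3 = v133 x1 x2 x3 + x2 * v134 x1 x2 x3 := ssubr (sa_40 hc)

theorem sa_42 {x1 x2 x3 : ℝ} (hc : Cnd x1 x2 x3) :
    v42 x1 x2 x3 = v135 x1 x2 x3 + x2 * v138 x1 x2 x3 := ssqrt (sa_41 hc) hc.2.2.2.2.2.2.1 hc.2.2.2.2.2.2.2

theorem sa_61 {x1 x2 x3 : ℝ} (hc : Cnd x1 x2 x3) :
    v61 x1 x2 x3 = v139 x1 x2 x3 + x2 * v138 x1 x2 x3 := saddl (sa_42 hc)

theorem sa_62 {x1 x2 x3 : ℝ} (hc : Cnd x1 x2 x3) :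
    v62 x1 x2 x3 = v140 x1 x2 x3 + x2 * v138 x1 x2 x3 := ssubl (sa_61 hc)

theorem sa_65 {x1 x2 x3 : ℝ} (hc : Cnd x1 x2 x3) :
    v65 x1 x2 x3 = v141 x1 x2 x3 + x2 * v142 x1 x2 x3 := ssub (sa_64 hc) (sa_62 hc)

theorem sa_71 {x1 x2 x3 : ℝ} (hc : Cnd x1 x2 x3) :
    v71 x1 x2 x3 = v143 x1 x2 x3 + x2 * v144 x1 x2 x3 := sadd (sa_58 hc) (sa_65 hc)

theorem sa_72 {x1 x2 x3 : ℝ} (hc : Cnd x1 x2 x3) :
    v72 x1 x2 x3 = v145 x1 x2 x3 + x2 * v146 x1 x2 x3 := smulr (sa_71 hc)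

theorem sa_73 {x1 x2 x3 : ℝ} (hc : Cnd x1 x2 x3) :
    v73 x1 x2 x3 = v147 x1 x2 x3 + x2 * v148 x1 x2 x3 := sadd (sa_38 hc) (sa_72 hc)

theorem sa_66 {x1 x2 x3 : ℝ} (hc : Cnd x1 x2 x3) :
    v66 x1 x2 x3 = v149 x1 x2 x3 + x2 * v109 x1 x2 x3 := saddl (sa_55 hc)

theorem sa_69 {x1 x2 x3 : ℝ} (hc : Cnd x1 x2 x3) :
    v69 x1 x2 x3 = v150 x1 x2 x3 + x2 * v127 x1 x2 x3 := ssubr (sa_52 hc)

theorem sa_70 {x1 x2 x3 : ℝ} (hc : Cnd x1 x2 x3) :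
    v70 x1 x2 x3 = v151 x1 x2 x3 + x2 * v142 x1 x2 x3 := ssub (sa_69 hc) (sa_42 hc)

theorem sa_74 {x1 x2 x3 : ℝ} (hc : Cnd x1 x2 x3) :
    v74 x1 x2 x3 = v152 x1 x2 x3 + x2 * v144 x1 x2 x3 := sadd (sa_66 hc) (sa_70 hc)

theorem sa_75 {x1 x2 x3 : ℝ} (hc : Cnd x1 x2 x3) :
    v75 x1 x2 x3 = v153 x1 x2 x3 + x2 * v154 x1 x2 x3 := smulr (sa_74 hc)

theorem sa_76 {x1 x2 x3 : ℝ} (hc : Cnd x1 x2 x3) :
    v76 x1 x2 x3 = v155 x1 x2 x3 + x2 * v156 x1 x2 x3 := sadd (sa_73 hc) (sa_75 hc)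

section

variable (s a p : ℝ)

theorem w0 : v0 s a p = (2 * h0) := by unfold v0 h0; push_cast; ring

theorem w1 : v1 s a p = h0 := by unfold v1; rw [w0]; unfold h0; push_cast; ring

theorem w2 : v2 s a p = s := rfl

theorem w3 : v3 s a p = a := rfl

theorem w4 : v4 s a p = p := rfl

theorem w5 : v5 s a p = (p ^ 2) := by rw [v5, w4]

theorem w6 : v6 s a p = 1 := by unfold v6; norm_num

theorem w7 : v7 s a p = (1 - (p ^ 2)) := by rw [v7, w6, w5]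

theorem w8 : v8 s a p = (g p) := by unfold v8; rw [w7]; rfl

theorem w9 : v9 s a p = (h0 * (g p)) := by rw [v9, w1, w8]

theorem w10 : v10 s a p = (1 / 2 * p) := by simp only [v10, w4, Nat.cast_ofNat, Nat.cast_one]

theorem w12 : v12 s a p = (ext p) := by rw [v12, w10, w9]; unfold ext; ring

theorem w13 : v13 s a p = (1 / 2 * (g p)) := by simp only [v13, w8, Nat.cast_ofNat, Nat.cast_one]

theorem w14 : v14 s a p = (h0 * p) := by rw [v14, w1, w4]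

theorem w15 : v15 s a p = ((1 / 2 * (g p)) + (h0 * p)) := by rw [v15, w13, w14]

theorem w17 : v17 s a p = (h0 - a) := by rw [v17, w1, w3]

theorem w18 : v18 s a p = (s ^ 2) := by rw [v18, w2]

theorem w19 : v19 s a p = (1 - (s ^ 2)) := by rw [v19, w6, w18]

theorem w20 : v20 s a p = (g s) := by unfold v20; rw [w19]; rfl

theorem w21 : v21 s a p = (17 / 50 * s) := by simp only [v21, w2, Nat.cast_ofNat, Nat.cast_one]

theorem w22 : v22 s a p = ((17 / 50 * s) ^ 2) := by rw [v22, w21]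

theorem w23 : v23 s a p = (1 - ((17 / 50 * s) ^ 2)) := by rw [v23, w6, w22]

theorem w24 : v24 s a p = (g (17 / 50 * s)) := by unfold v24; rw [w23]; rfl

theorem w25 : v25 s a p = ((h0 - a) + (ext p)) := by rw [v25, w17, w12]

theorem w26 : v26 s a p = ((h0 - a) + p) := by rw [v26, w17, w4]

theorem w30 : v30 s a p = (h0 + s) := by rw [v30, w1, w2]

theorem w31 : v31 s a p = ((h0 - a) ^ 2) := by rw [v31, w17]

theorem w32 : v32 s a p = (1 - ((h0 - a) ^ 2)) := by rw [v32, w6, w31]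

theorem w33 : v33 s a p = (g (h0 - a)) := by unfold v33; rw [w32]; rfl

theorem w34 : v34 s a p = (8 * (g (h0 - a))) := by simp only [v34, w33, Nat.cast_ofNat, Nat.cast_one]

theorem w35 : v35 s a p = 4 := by unfold v35; norm_num

theorem w36 : v36 s a p = ((8 * (g (h0 - a))) - 4) := by rw [v36, w34, w35]

theorem w37 : v37 s a p = (4 * (g s)) := by simp only [v37, w20, Nat.cast_ofNat, Nat.cast_one]

theorem w38 : v38 s a p = (((8 * (g (h0 - a))) - 4) - (4 * (g s))) := by rw [v38, w36, w37]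

theorem w39 : v39 s a p = (((h0 - a) + p) - h0) := by rw [v39, w26, w1]

theorem w40 : v40 s a p = ((((h0 - a) + p) - h0) ^ 2) := by rw [v40, w39]

theorem w41 : v41 s a p = (1 - ((((h0 - a) + p) - h0) ^ 2)) := by rw [v41, w6, w40]

theorem w42 : v42 s a p = (g (((h0 - a) + p) - h0)) := by unfold v42; rw [w41]; rfl

theorem w45 : v45 s a p = ((h0 + s) - (h0 - a)) := by rw [v45, w30, w17]

theorem w46 : v46 s a p = (((h0 + s) - (h0 - a)) ^ 2) := by rw [v46, w45]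

theorem w47 : v47 s a p = (1 - (((h0 + s) - (h0 - a)) ^ 2)) := by rw [v47, w6, w46]

theorem w48 : v48 s a p = (g ((h0 + s) - (h0 - a))) := by unfold v48; rw [w47]; rfl

theorem w49 : v49 s a p = (((h0 - a) + (ext p)) - h0) := by rw [v49, w25, w1]

theorem w50 : v50 s a p = ((((h0 - a) + (ext p)) - h0) ^ 2) := by rw [v50, w49]

theorem w51 : v51 s a p = (1 - ((((h0 - a) + (ext p)) - h0) ^ 2)) := by rw [v51, w6, w50]

theorem w52 : v52 s a p = (g (((h0 - a) + (ext p)) - h0)) := by unfold v52; rw [w51]; rfl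

theorem w53 : v53 s a p = (2 * (g ((h0 + s) - (h0 - a)))) := by simp only [v53, w48, Nat.cast_ofNat, Nat.cast_one]

theorem w54 : v54 s a p = (2 * (g s)) := by simp only [v54, w20, Nat.cast_ofNat, Nat.cast_one]

theorem w55 : v55 s a p = ((2 * (g ((h0 + s) - (h0 - a)))) - (2 * (g s))) := by rw [v55, w53, w54]

theorem w56 : v56 s a p = (((2 * (g ((h0 + s) - (h0 - a)))) - (2 * (g s))) - 1) := by rw [v56, w55, w6]

theorem w57 : v57 s a p = (2 * (g (17 / 50 * s))) := by simp only [v57, w24, Nat.cast_ofNat, Nat.cast_one]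

theorem w58 : v58 s a p = ((((2 * (g ((h0 + s) - (h0 - a)))) - (2 * (g s))) - 1) + (2 * (g (17 / 50 * s)))) := by rw [v58, w56, w57]

theorem w59 : v59 s a p = ((g (((h0 - a) + (ext p)) - h0)) + (g (17 / 50 * s))) := by rw [v59, w52, w24]

theorem w60 : v60 s a p = (((g (((h0 - a) + (ext p)) - h0)) + (g (17 / 50 * s))) - (g s)) := by rw [v60, w59, w20]

theorem w61 : v61 s a p = ((g (((h0 - a) + p) - h0)) + (g (17 / 50 * s))) := by rw [v61, w42, w24]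

theorem w62 : v62 s a p = (((g (((h0 - a) + p) - h0)) + (g (17 / 50 * s))) - (g s)) := by rw [v62, w61, w20]

theorem w63 : v63 s a p = (((1 / 2 * (g p)) + (h0 * p)) + 1) := by rw [v63, w15, w6]

theorem w64 : v64 s a p = ((((1 / 2 * (g p)) + (h0 * p)) + 1) - (((g (((h0 - a) + (ext p)) - h0)) + (g (17 / 50 * s))) - (g s))) := by rw [v64, w63, w60]

theorem w65 : v65 s a p = (((((1 / 2 * (g p)) + (h0 * p)) + 1) - (((g (((h0 - a) + (ext p)) - h0)) + (g (17 / 50 * s))) - (g s))) - (((g (((h0 - a) + p) - h0)) + (g (17 / 50 * s))) - (g s))) := by rw [v65, w64, w62]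

theorem w66 : v66 s a p = (((2 * (g ((h0 + s) - (h0 - a)))) - (2 * (g s))) + 1) := by rw [v66, w55, w6]

theorem w67 : v67 s a p = (((1 / 2 * (g p)) + (h0 * p)) - 1) := by rw [v67, w15, w6]

theorem w68 : v68 s a p = ((((1 / 2 * (g p)) + (h0 * p)) - 1) + (2 * (g s))) := by rw [v68, w67, w54]

theorem w69 : v69 s a p = (((((1 / 2 * (g p)) + (h0 * p)) - 1) + (2 * (g s))) - (g (((h0 - a) + (ext p)) - h0))) := by rw [v69, w68, w52]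

theorem w70 : v70 s a p = ((((((1 / 2 * (g p)) + (h0 * p)) - 1) + (2 * (g s))) - (g (((h0 - a) + (ext p)) - h0))) - (g (((h0 - a) + p) - h0))) := by rw [v70, w69, w42]

theorem w71 : v71 s a p = (((((2 * (g ((h0 + s) - (h0 - a)))) - (2 * (g s))) - 1) + (2 * (g (17 / 50 * s)))) + (((((1 / 2 * (g p)) + (h0 * p)) + 1) - (((g (((h0 - a) + (ext p)) - h0)) + (g (17 / 50 * s))) - (g s))) - (((g (((h0 - a) + p) - h0)) + (g (17 / 50 * s))) - (g s)))) := by rw [v71, w58, w65]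

theorem w72 : v72 s a p = (9 / 5 * (((((2 * (g ((h0 + s) - (h0 - a)))) - (2 * (g s))) - 1) + (2 * (g (17 / 50 * s)))) + (((((1 / 2 * (g p)) + (h0 * p)) + 1) - (((g (((h0 - a) + (ext p)) - h0)) + (g (17 / 50 * s))) - (g s))) - (((g (((h0 - a) + p) - h0)) + (g (17 / 50 * s))) - (g s))))) := by simp only [v72, w71, Nat.cast_ofNat, Nat.cast_one]

theorem w73 : v73 s a p = ((((8 * (g (h0 - a))) - 4) - (4 * (g s))) + (9 / 5 * (((((2 * (g ((h0 + s) - (h0 - a)))) - (2 * (g s))) - 1) + (2 * (g (17 / 50 * s)))) + (((((1 / 2 * (g p)) + (h0 * p)) + 1) - (((g (((h0 - a) + (ext p)) - h0)) + (g (17 / 50 * s))) - (g s))) - (((g (((h0 - a) + p) - h0)) + (g (17 / 50 * s))) - (g s)))))) := by rw [v73, w38, w72]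

theorem w74 : v74 s a p = ((((2 * (g ((h0 + s) - (h0 - a)))) - (2 * (g s))) + 1) + ((((((1 / 2 * (g p)) + (h0 * p)) - 1) + (2 * (g s))) - (g (((h0 - a) + (ext p)) - h0))) - (g (((h0 - a) + p) - h0)))) := by rw [v74, w66, w70]

theorem w75 : v75 s a p = (1 / 5 * ((((2 * (g ((h0 + s) - (h0 - a)))) - (2 * (g s))) + 1) + ((((((1 / 2 * (g p)) + (h0 * p)) - 1) + (2 * (g s))) - (g (((h0 - a) + (ext p)) - h0))) - (g (((h0 - a) + p) - h0))))) := by simp only [v75, w74, Nat.cast_ofNat, Nat.cast_one]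

theorem w76 : v76 s a p = (((((8 * (g (h0 - a))) - 4) - (4 * (g s))) + (9 / 5 * (((((2 * (g ((h0 + s) - (h0 - a)))) - (2 * (g s))) - 1) + (2 * (g (17 / 50 * s)))) + (((((1 / 2 * (g p)) + (h0 * p)) + 1) - (((g (((h0 - a) + (ext p)) - h0)) + (g (17 / 50 * s))) - (g s))) - (((g (((h0 - a) + p) - h0)) + (g (17 / 50 * s))) - (g s)))))) + (1 / 5 * ((((2 * (g ((h0 + s) - (h0 - a)))) - (2 * (g s))) + 1) + ((((((1 / 2 * (g p)) + (h0 * p)) - 1) + (2 * (g s))) - (g (((h0 - a) + (ext p)) - h0))) - (g (((h0 - a) + p) - h0)))))) := by rw [v76, w73, w75]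

theorem w77 : v77 s a p = ((h0 + s) - ((h0 - a) + p)) := by rw [v77, w30, w26]

theorem w78 : v78 s a p = ((h0 + s) - ((h0 - a) + (ext p))) := by rw [v78, w30, w25]

theorem w79 : v79 s a p = (((h0 - a) + (ext p)) - (2 * h0)) := by rw [v79, w25, w0]

theorem w80 : v80 s a p = (s - (h0 - a)) := by rw [v80, w2, w17]

theorem w81 : v81 s a p = 0 := by unfold v81; norm_num

theorem w82 : v82 s a p = (h0 - 0) := by rw [v82, w1, w81]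

theorem w84 : v84 s a p = ((h0 - 0) ^ 2) := by rw [v84, w82]

theorem w87 : v87 s a p = (1 - ((h0 - 0) ^ 2)) := by rw [v87, w6, w84]

theorem w89 : v89 s a p = (g (h0 - 0)) := by unfold v89; rw [w87]; rfl

theorem w93 : v93 s a p = (8 * (g (h0 - 0))) := by simp only [v93, w89, Nat.cast_ofNat, Nat.cast_one]

theorem w95 : v95 s a p = ((8 * (g (h0 - 0))) - 4) := by rw [v95, w93, w35]

theorem w96 : v96 s a p = (((8 * (g (h0 - 0))) - 4) - (4 * (g s))) := by rw [v96, w95, w37]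

theorem w97 : v97 s a p = ((h0 + s) - (h0 - 0)) := by rw [v97, w30, w82]

theorem w99 : v99 s a p = (((h0 + s) - (h0 - 0)) ^ 2) := by rw [v99, w97]

theorem w102 : v102 s a p = (1 - (((h0 + s) - (h0 - 0)) ^ 2)) := by rw [v102, w6, w99]

theorem w104 : v104 s a p = (g ((h0 + s) - (h0 - 0))) := by unfold v104; rw [w102]; rfl

theorem w108 : v108 s a p = (2 * (g ((h0 + s) - (h0 - 0)))) := by simp only [v108, w104, Nat.cast_ofNat, Nat.cast_one]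

theorem w110 : v110 s a p = ((2 * (g ((h0 + s) - (h0 - 0)))) - (2 * (g s))) := by rw [v110, w108, w54]

theorem w111 : v111 s a p = (((2 * (g ((h0 + s) - (h0 - 0)))) - (2 * (g s))) - 1) := by rw [v111, w110, w6]

theorem w112 : v112 s a p = ((((2 * (g ((h0 + s) - (h0 - 0)))) - (2 * (g s))) - 1) + (2 * (g (17 / 50 * s)))) := by rw [v112, w111, w57]

theorem w113 : v113 s a p = ((h0 - 0) + (ext p)) := by rw [v113, w82, w12]

theorem w114 : v114 s a p = (((h0 - 0) + (ext p)) - h0) := by rw [v114, w113, w1]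

theorem w115 : v115 s a p = ((((h0 - 0) + (ext p)) - h0) ^ 2) := by rw [v115, w114]

theorem w118 : v118 s a p = (1 - ((((h0 - 0) + (ext p)) - h0) ^ 2)) := by rw [v118, w6, w115]

theorem w120 : v120 s a p = (g (((h0 - 0) + (ext p)) - h0)) := by unfold v120; rw [w118]; rfl

theorem w124 : v124 s a p = ((g (((h0 - 0) + (ext p)) - h0)) + (g (17 / 50 * s))) := by rw [v124, w120, w24]

theorem w125 : v125 s a p = (((g (((h0 - 0) + (ext p)) - h0)) + (g (17 / 50 * s))) - (g s)) := by rw [v125, w124, w20]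

theorem w126 : v126 s a p = ((((1 / 2 * (g p)) + (h0 * p)) + 1) - (((g (((h0 - 0) + (ext p)) - h0)) + (g (17 / 50 * s))) - (g s))) := by rw [v126, w63, w125]

theorem w128 : v128 s a p = ((h0 - 0) + p) := by rw [v128, w82, w4]

theorem w129 : v129 s a p = (((h0 - 0) + p) - h0) := by rw [v129, w128, w1]

theorem w130 : v130 s a p = ((((h0 - 0) + p) - h0) ^ 2) := by rw [v130, w129]

theorem w133 : v133 s a p = (1 - ((((h0 - 0) + p) - h0) ^ 2)) := by rw [v133, w6, w130]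

theorem w135 : v135 s a p = (g (((h0 - 0) + p) - h0)) := by unfold v135; rw [w133]; rfl

theorem w139 : v139 s a p = ((g (((h0 - 0) + p) - h0)) + (g (17 / 50 * s))) := by rw [v139, w135, w24]

theorem w140 : v140 s a p = (((g (((h0 - 0) + p) - h0)) + (g (17 / 50 * s))) - (g s)) := by rw [v140, w139, w20]

theorem w141 : v141 s a p = (((((1 / 2 * (g p)) + (h0 * p)) + 1) - (((g (((h0 - 0) + (ext p)) - h0)) + (g (17 / 50 * s))) - (g s))) - (((g (((h0 - 0) + p) - h0)) + (g (17 / 50 * s))) - (g s))) := by rw [v141, w126, w140]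

theorem w143 : v143 s a p = (((((2 * (g ((h0 + s) - (h0 - 0)))) - (2 * (g s))) - 1) + (2 * (g (17 / 50 * s)))) + (((((1 / 2 * (g p)) + (h0 * p)) + 1) - (((g (((h0 - 0) + (ext p)) - h0)) + (g (17 / 50 * s))) - (g s))) - (((g (((h0 - 0) + p) - h0)) + (g (17 / 50 * s))) - (g s)))) := by rw [v143, w112, w141]

theorem w145 : v145 s a p = (9 / 5 * (((((2 * (g ((h0 + s) - (h0 - 0)))) - (2 * (g s))) - 1) + (2 * (g (17 / 50 * s)))) + (((((1 / 2 * (g p)) + (h0 * p)) + 1) - (((g (((h0 - 0) + (ext p)) - h0)) + (g (17 / 50 * s))) - (g s))) - (((g (((h0 - 0) + p) - h0)) + (g (17 / 50 * s))) - (g s))))) := by simp only [v145, w143, Nat.cast_ofNat, Nat.cast_one]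

theorem w147 : v147 s a p = ((((8 * (g (h0 - 0))) - 4) - (4 * (g s))) + (9 / 5 * (((((2 * (g ((h0 + s) - (h0 - 0)))) - (2 * (g s))) - 1) + (2 * (g (17 / 50 * s)))) + (((((1 / 2 * (g p)) + (h0 * p)) + 1) - (((g (((h0 - 0) + (ext p)) - h0)) + (g (17 / 50 * s))) - (g s))) - (((g (((h0 - 0) + p) - h0)) + (g (17 / 50 * s))) - (g s)))))) := by rw [v147, w96, w145]

theorem w149 : v149 s a p = (((2 * (g ((h0 + s) - (h0 - 0)))) - (2 * (g s))) + 1) := by rw [v149, w110, w6]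

theorem w150 : v150 s a p = (((((1 / 2 * (g p)) + (h0 * p)) - 1) + (2 * (g s))) - (g (((h0 - 0) + (ext p)) - h0))) := by rw [v150, w68, w120]

theorem w151 : v151 s a p = ((((((1 / 2 * (g p)) + (h0 * p)) - 1) + (2 * (g s))) - (g (((h0 - 0) + (ext p)) - h0))) - (g (((h0 - 0) + p) - h0))) := by rw [v151, w150, w135]

theorem w152 : v152 s a p = ((((2 * (g ((h0 + s) - (h0 - 0)))) - (2 * (g s))) + 1) + ((((((1 / 2 * (g p)) + (h0 * p)) - 1) + (2 * (g s))) - (g (((h0 - 0) + (ext p)) - h0))) - (g (((h0 - 0) + p) - h0)))) := by rw [v152, w149, w151]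

theorem w153 : v153 s a p = (1 / 5 * ((((2 * (g ((h0 + s) - (h0 - 0)))) - (2 * (g s))) + 1) + ((((((1 / 2 * (g p)) + (h0 * p)) - 1) + (2 * (g s))) - (g (((h0 - 0) + (ext p)) - h0))) - (g (((h0 - 0) + p) - h0))))) := by simp only [v153, w152, Nat.cast_ofNat, Nat.cast_one]

theorem w155 : v155 s a p = (((((8 * (g (h0 - 0))) - 4) - (4 * (g s))) + (9 / 5 * (((((2 * (g ((h0 + s) - (h0 - 0)))) - (2 * (g s))) - 1) + (2 * (g (17 / 50 * s)))) + (((((1 / 2 * (g p)) + (h0 * p)) + 1) - (((g (((h0 - 0) + (ext p)) - h0)) + (g (17 / 50 * s))) - (g s))) - (((g (((h0 - 0) + p) - h0)) + (g (17 / 50 * s))) - (g s)))))) + (1 / 5 * ((((2 * (g ((h0 + s) - (h0 - 0)))) - (2 * (g s))) + 1) + ((((((1 / 2 * (g p)) + (h0 * p)) - 1) + (2 * (g s))) - (g (((h0 - 0) + (ext p)) - h0))) - (g (((h0 - 0) + p) - h0)))))) := by rw [v155, w147, w153]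

end

theorem f00 {s a p : ℝ} (hl1 : 66 / 125 ≤ s) (hu1 : s ≤ 57 / 100) (hl2 : 0 ≤ a) (hu2 : a ≤ 1 / 80) (hl3 : 1 / 2 ≤ p) (hu3 : p ≤ 8661 / 10000) (hp1 : 0 ≤ a) (hh1 : 1 / 2 ≤ p) (hh2 : p ≤ 1): 0 ≤ v155 s a p := by
  rw [w155]
  simp only [add_zero, sub_zero, mul_zero, zero_mul, zero_add, gh0, qh0, Gh0, sub_self, add_sub_cancel_right, add_sub_cancel_left, g_zero, gext hh1 hh2]
  apply le_of_eq
  first
    | (ring_nf; done)
    | (ring_nf; linarith [gh0])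

theorem c_ok : chk f 60 ⟨589484261, 0, 22548579, 6710886, 0, 6710887, 733419352, 0, 196548442⟩ = true := by decide +kernel

theorem main {s a p : ℝ} (hl1 : 66 / 125 ≤ s) (hu1 : s ≤ 57 / 100) (hl2 : 0 ≤ a) (hu2 : a ≤ 1 / 80) (hl3 : 1 / 2 ≤ p) (hu3 : p ≤ 8661 / 10000) (hp1 : 0 ≤ a) (hh1 : 1 / 2 ≤ p) (hh2 : p ≤ 1):
    0 ≤ (((((8 * (g (h0 - a))) - 4) - (4 * (g s))) + (9 / 5 * (((((2 * (g ((h0 + s) - (h0 - a)))) - (2 * (g s))) - 1) + (2 * (g (17 / 50 * s)))) + (((((1 / 2 * (g p)) + (h0 * p)) + 1) - (((g (((h0 - a) + (ext p)) - h0)) + (g (17 / 50 * s))) - (g s))) - (((g (((h0 - a) + p) - h0)) + (g (17 / 50 * s))) - (g s)))))) + (1 / 5 * ((((2 * (g ((h0 + s) - (h0 - a)))) - (2 * (g s))) + 1) + ((((((1 / 2 * (g p)) + (h0 * p)) - 1) + (2 * (g s))) - (g (((h0 - a) + (ext p)) - h0))) - (g (((h0 - a) + p) - h0)))))) ∨ (0 < ((h0 + s) - ((h0 - a) + p))) ∨ (0 < ((h0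 + s) - ((h0 - a) + (ext p)))) ∨ (0 < (((h0 - a) + (ext p)) - (2 * h0))) ∨ (0 < (s - (h0 - a))) := by
  have hm : Mem S ⟨589484261, 0, 22548579, 6710886, 0, 6710887, 733419352, 0, 196548442⟩ s a p := by
    refine ⟨?_, ?_, ?_⟩ <;> norm_num only [S] <;> rw [abs_le] <;> constructor <;> linarith
  have h := chk_sound f_sound 60 _ c_ok s a p hm
  unfold Q at h
  rcases h with ⟨q1, hc⟩ | h
  · refine Or.inl ?_
    rw [← w76]
    have e0 := f00 hl1 hu1 hl2 hu2 hl3 hu3 hp1 hh1 hh2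
    rw [sa_76 hc]
    have m1 := mul_nonneg hp1 q1.le
    linarith
  · refine Or.inr ?_
    rw [w77, w78, w79, w80] at h
    exact h

end Pool.Agent.Strip051.FourE.NUcb
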