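import Pool.Agent.Strip051.Box.B3
import Pool.Agent.Strip051.FourE.Slope

/-! # Generated boxes: NUcc  -/

set_option maxRecDepth 100000
set_option linter.unusedVariables false

namespace Pool.Agent.Strip051.FourE.NUcc

open Pool.Agent.Strip051.Box Pool.Agent.Strip051.Box3
open Pool.Agent.StripNear (h0)
open Pool.Agent.StripSquare (g g_zero)
open Pool.Agent.Strip051 (ext)

abbrev S : Nat := 1073741824

theorem hS : 0 < S := by decide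

def In (b : Bx) (E : Pt) (x1 x2 x3 : ℝ) : Prop :=
  (S : ℝ) * x1 = ((b.p1 : ℝ) - b.n1) + b.q1 * E.e1 ∧ (S : ℝ) * x2 = ((b.p2 : ℝ) - b.n2) + b.q2 * E.e2 ∧ (S : ℝ) * x3 = ((b.p3 : ℝ) - b.n3) + b.q3 * E.e3

section

variable {b : Bx} {E : Pt} {x1 x2 x3 : ℝ}

def t0 (_b : Bx) : TM := tconst 1859775393 0 1
noncomputable def v0 (_x1 _x2 _x3 : ℝ) : ℝ := Real.sqrt ((3 : ℕ) : ℝ)
theorem en0 (_h : In b E x1 x2 x3) : Enc S E (t0 b) (v0 x1 x2 x3) := enc_sqrtn E (by decide) (by decide)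

def t1 (b : Bx) : TM := tscale 1 2 (t0 b)
noncomputable def v1 (x1 x2 x3 : ℝ) : ℝ := ((1 : ℕ) : ℝ) / ((2 : ℕ) : ℝ) * v0 x1 x2 x3
theorem en1 (h : In b E x1 x2 x3) : Enc S E (t1 b) (v1 x1 x2 x3) := enc_scale 1 (by norm_num) (en0 h)

def t2 (b : Bx) : TM := X1 b
noncomputable def v2 (x1 _x2 _x3 : ℝ) : ℝ := x1
theorem en2 (h : In b E x1 x2 x3) : Enc S E (t2 b) (v2 x1 x2 x3) := enc_X1 h.1

def t3 (b : Bx) : TM := X2 b
noncomputable def v3 (_x1 x2 _x3 : ℝ) : ℝ := x2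
theorem en3 (h : In b E x1 x2 x3) : Enc S E (t3 b) (v3 x1 x2 x3) := enc_X2 h.2.1

def t4 (b : Bx) : TM := X3 b
noncomputable def v4 (_x1 _x2 x3 : ℝ) : ℝ := x3
theorem en4 (h : In b E x1 x2 x3) : Enc S E (t4 b) (v4 x1 x2 x3) := enc_X3 h.2.2

def t5 (b : Bx) : TM := tsq S (t4 b)
noncomputable def v5 (x1 x2 x3 : ℝ) : ℝ := (v4 x1 x2 x3) ^ 2
theorem en5 (h : In b E x1 x2 x3) : Enc S E (t5 b) (v5 x1 x2 x3) := enc_sq hS (en4 h)

def t6 (_b : Bx) : TM := tconst (Nat.mul 1 S) 0 0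
noncomputable def v6 (_x1 _x2 _x3 : ℝ) : ℝ := ((1 : ℕ) : ℝ)
theorem en6 (_h : In b E x1 x2 x3) : Enc S E (t6 b) (v6 x1 x2 x3) := enc_nc E 1

def t7 (b : Bx) : TM := tsub (t6 b) (t5 b)
noncomputable def v7 (x1 x2 x3 : ℝ) : ℝ := v6 x1 x2 x3 - v5 x1 x2 x3
theorem en7 (h : In b E x1 x2 x3) : Enc S E (t7 b) (v7 x1 x2 x3) := enc_sub (en6 h) (en5 h)

def t8 (b : Bx) : TM := tsqrt S (t7 b)
noncomputable def v8 (x1 x2 x3 : ℝ) : ℝ := Real.sqrt (v7 x1 x2 x3)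
theorem en8 (h : In b E x1 x2 x3) : Enc S E (t8 b) (v8 x1 x2 x3) := enc_sqrt hS (en7 h)

def t9 (b : Bx) : TM := tmul S (t1 b) (t8 b)
noncomputable def v9 (x1 x2 x3 : ℝ) : ℝ := v1 x1 x2 x3 * v8 x1 x2 x3
theorem en9 (h : In b E x1 x2 x3) : Enc S E (t9 b) (v9 x1 x2 x3) := enc_mul hS (en1 h) (en8 h)

def t10 (b : Bx) : TM := tscale 1 2 (t4 b)
noncomputable def v10 (x1 x2 x3 : ℝ) : ℝ := ((1 : ℕ) : ℝ) / ((2 : ℕ) : ℝ) * v4 x1 x2 x3
theorem en10 (h : In b E x1 x2 x3) : Enc S E (t10 b) (v10 x1 x2 x3) := enc_scale 1 (by norm_num) (en4 h)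

def t12 (b : Bx) : TM := tadd (t10 b) (t9 b)
noncomputable def v12 (x1 x2 x3 : ℝ) : ℝ := v10 x1 x2 x3 + v9 x1 x2 x3
theorem en12 (h : In b E x1 x2 x3) : Enc S E (t12 b) (v12 x1 x2 x3) := enc_add (en10 h) (en9 h)

def t13 (b : Bx) : TM := tscale 1 2 (t8 b)
noncomputable def v13 (x1 x2 x3 : ℝ) : ℝ := ((1 : ℕ) : ℝ) / ((2 : ℕ) : ℝ) * v8 x1 x2 x3
theorem en13 (h : In b E x1 x2 x3) : Enc S E (t13 b) (v13 x1 x2 x3) := enc_scale 1 (by norm_num) (en8 h)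

def t14 (b : Bx) : TM := tmul S (t1 b) (t4 b)
noncomputable def v14 (x1 x2 x3 : ℝ) : ℝ := v1 x1 x2 x3 * v4 x1 x2 x3
theorem en14 (h : In b E x1 x2 x3) : Enc S E (t14 b) (v14 x1 x2 x3) := enc_mul hS (en1 h) (en4 h)

def t15 (b : Bx) : TM := tadd (t13 b) (t14 b)
noncomputable def v15 (x1 x2 x3 : ℝ) : ℝ := v13 x1 x2 x3 + v14 x1 x2 x3
theorem en15 (h : In b E x1 x2 x3) : Enc S E (t15 b) (v15 x1 x2 x3) := enc_add (en13 h) (en14 h)

def t17 (b : Bx) : TM := tsub (t1 b) (t3 b)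
noncomputable def v17 (x1 x2 x3 : ℝ) : ℝ := v1 x1 x2 x3 - v3 x1 x2 x3
theorem en17 (h : In b E x1 x2 x3) : Enc S E (t17 b) (v17 x1 x2 x3) := enc_sub (en1 h) (en3 h)

def t18 (b : Bx) : TM := tsq S (t2 b)
noncomputable def v18 (x1 x2 x3 : ℝ) : ℝ := (v2 x1 x2 x3) ^ 2
theorem en18 (h : In b E x1 x2 x3) : Enc S E (t18 b) (v18 x1 x2 x3) := enc_sq hS (en2 h)

def t19 (b : Bx) : TM := tsub (t6 b) (t18 b)
noncomputable def v19 (x1 x2 x3 : ℝ) : ℝ := v6 x1 x2 x3 - v18 x1 x2 x3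
theorem en19 (h : In b E x1 x2 x3) : Enc S E (t19 b) (v19 x1 x2 x3) := enc_sub (en6 h) (en18 h)

def t20 (b : Bx) : TM := tsqrt S (t19 b)
noncomputable def v20 (x1 x2 x3 : ℝ) : ℝ := Real.sqrt (v19 x1 x2 x3)
theorem en20 (h : In b E x1 x2 x3) : Enc S E (t20 b) (v20 x1 x2 x3) := enc_sqrt hS (en19 h)

def t21 (b : Bx) : TM := tscale 17 50 (t2 b)
noncomputable def v21 (x1 x2 x3 : ℝ) : ℝ := ((17 : ℕ) : ℝ) / ((50 : ℕ) : ℝ) * v2 x1 x2 x3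
theorem en21 (h : In b E x1 x2 x3) : Enc S E (t21 b) (v21 x1 x2 x3) := enc_scale 17 (by norm_num) (en2 h)

def t22 (b : Bx) : TM := tsq S (t21 b)
noncomputable def v22 (x1 x2 x3 : ℝ) : ℝ := (v21 x1 x2 x3) ^ 2
theorem en22 (h : In b E x1 x2 x3) : Enc S E (t22 b) (v22 x1 x2 x3) := enc_sq hS (en21 h)

def t23 (b : Bx) : TM := tsub (t6 b) (t22 b)
noncomputable def v23 (x1 x2 x3 : ℝ) : ℝ := v6 x1 x2 x3 - v22 x1 x2 x3
theorem en23 (h : In b E x1 x2 x3) : Enc S E (t23 b) (v23 x1 x2 x3) := enc_sub (en6 h) (en22 h)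

def t24 (b : Bx) : TM := tsqrt S (t23 b)
noncomputable def v24 (x1 x2 x3 : ℝ) : ℝ := Real.sqrt (v23 x1 x2 x3)
theorem en24 (h : In b E x1 x2 x3) : Enc S E (t24 b) (v24 x1 x2 x3) := enc_sqrt hS (en23 h)

def t25 (b : Bx) : TM := tadd (t17 b) (t12 b)
noncomputable def v25 (x1 x2 x3 : ℝ) : ℝ := v17 x1 x2 x3 + v12 x1 x2 x3
theorem en25 (h : In b E x1 x2 x3) : Enc S E (t25 b) (v25 x1 x2 x3) := enc_add (en17 h) (en12 h)

def t26 (b : Bx) : TM := tadd (t17 b) (t4 b)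
noncomputable def v26 (x1 x2 x3 : ℝ) : ℝ := v17 x1 x2 x3 + v4 x1 x2 x3
theorem en26 (h : In b E x1 x2 x3) : Enc S E (t26 b) (v26 x1 x2 x3) := enc_add (en17 h) (en4 h)

def t30 (b : Bx) : TM := tadd (t1 b) (t2 b)
noncomputable def v30 (x1 x2 x3 : ℝ) : ℝ := v1 x1 x2 x3 + v2 x1 x2 x3
theorem en30 (h : In b E x1 x2 x3) : Enc S E (t30 b) (v30 x1 x2 x3) := enc_add (en1 h) (en2 h)

def t31 (b : Bx) : TM := tsq S (t17 b)
noncomputable def v31 (x1 x2 x3 : ℝ) : ℝ := (v17 x1 x2 x3) ^ 2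
theorem en31 (h : In b E x1 x2 x3) : Enc S E (t31 b) (v31 x1 x2 x3) := enc_sq hS (en17 h)

def t32 (b : Bx) : TM := tsub (t6 b) (t31 b)
noncomputable def v32 (x1 x2 x3 : ℝ) : ℝ := v6 x1 x2 x3 - v31 x1 x2 x3
theorem en32 (h : In b E x1 x2 x3) : Enc S E (t32 b) (v32 x1 x2 x3) := enc_sub (en6 h) (en31 h)

def t33 (b : Bx) : TM := tsqrt S (t32 b)
noncomputable def v33 (x1 x2 x3 : ℝ) : ℝ := Real.sqrt (v32 x1 x2 x3)
theorem en33 (h : In b E x1 x2 x3) : Enc S E (t33 b) (v33 x1 x2 x3) := enc_sqrt hS (en32 h)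

def t34 (b : Bx) : TM := tnat 8 (t33 b)
noncomputable def v34 (x1 x2 x3 : ℝ) : ℝ := ((8 : ℕ) : ℝ) * v33 x1 x2 x3
theorem en34 (h : In b E x1 x2 x3) : Enc S E (t34 b) (v34 x1 x2 x3) := enc_nat 8 (en33 h)

def t35 (_b : Bx) : TM := tconst (Nat.mul 4 S) 0 0
noncomputable def v35 (_x1 _x2 _x3 : ℝ) : ℝ := ((4 : ℕ) : ℝ)
theorem en35 (_h : In b E x1 x2 x3) : Enc S E (t35 b) (v35 x1 x2 x3) := enc_nc E 4

def t36 (b : Bx) : TM := tsub (t34 b) (t35 b)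
noncomputable def v36 (x1 x2 x3 : ℝ) : ℝ := v34 x1 x2 x3 - v35 x1 x2 x3
theorem en36 (h : In b E x1 x2 x3) : Enc S E (t36 b) (v36 x1 x2 x3) := enc_sub (en34 h) (en35 h)

def t37 (b : Bx) : TM := tnat 4 (t20 b)
noncomputable def v37 (x1 x2 x3 : ℝ) : ℝ := ((4 : ℕ) : ℝ) * v20 x1 x2 x3
theorem en37 (h : In b E x1 x2 x3) : Enc S E (t37 b) (v37 x1 x2 x3) := enc_nat 4 (en20 h)

def t38 (b : Bx) : TM := tsub (t36 b) (t37 b)
noncomputable def v38 (x1 x2 x3 : ℝ) : ℝ := v36 x1 x2 x3 - v37 x1 x2 x3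
theorem en38 (h : In b E x1 x2 x3) : Enc S E (t38 b) (v38 x1 x2 x3) := enc_sub (en36 h) (en37 h)

def t39 (b : Bx) : TM := tsub (t26 b) (t1 b)
noncomputable def v39 (x1 x2 x3 : ℝ) : ℝ := v26 x1 x2 x3 - v1 x1 x2 x3
theorem en39 (h : In b E x1 x2 x3) : Enc S E (t39 b) (v39 x1 x2 x3) := enc_sub (en26 h) (en1 h)

def t40 (b : Bx) : TM := tsq S (t39 b)
noncomputable def v40 (x1 x2 x3 : ℝ) : ℝ := (v39 x1 x2 x3) ^ 2
theorem en40 (h : In b E x1 x2 x3) : Enc S E (t40 b) (v40 x1 x2 x3) := enc_sq hS (en39 h)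

def t41 (b : Bx) : TM := tsub (t6 b) (t40 b)
noncomputable def v41 (x1 x2 x3 : ℝ) : ℝ := v6 x1 x2 x3 - v40 x1 x2 x3
theorem en41 (h : In b E x1 x2 x3) : Enc S E (t41 b) (v41 x1 x2 x3) := enc_sub (en6 h) (en40 h)

def t42 (b : Bx) : TM := tsqrt S (t41 b)
noncomputable def v42 (x1 x2 x3 : ℝ) : ℝ := Real.sqrt (v41 x1 x2 x3)
theorem en42 (h : In b E x1 x2 x3) : Enc S E (t42 b) (v42 x1 x2 x3) := enc_sqrt hS (en41 h)

def t45 (b : Bx) : TM := tsub (t30 b) (t17 b)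
noncomputable def v45 (x1 x2 x3 : ℝ) : ℝ := v30 x1 x2 x3 - v17 x1 x2 x3
theorem en45 (h : In b E x1 x2 x3) : Enc S E (t45 b) (v45 x1 x2 x3) := enc_sub (en30 h) (en17 h)

def t46 (b : Bx) : TM := tsq S (t45 b)
noncomputable def v46 (x1 x2 x3 : ℝ) : ℝ := (v45 x1 x2 x3) ^ 2
theorem en46 (h : In b E x1 x2 x3) : Enc S E (t46 b) (v46 x1 x2 x3) := enc_sq hS (en45 h)

def t47 (b : Bx) : TM := tsub (t6 b) (t46 b)
noncomputable def v47 (x1 x2 x3 : ℝ) : ℝ := v6 x1 x2 x3 - v46 x1 x2 x3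
theorem en47 (h : In b E x1 x2 x3) : Enc S E (t47 b) (v47 x1 x2 x3) := enc_sub (en6 h) (en46 h)

def t48 (b : Bx) : TM := tsqrt S (t47 b)
noncomputable def v48 (x1 x2 x3 : ℝ) : ℝ := Real.sqrt (v47 x1 x2 x3)
theorem en48 (h : In b E x1 x2 x3) : Enc S E (t48 b) (v48 x1 x2 x3) := enc_sqrt hS (en47 h)

def t49 (b : Bx) : TM := tsub (t25 b) (t1 b)
noncomputable def v49 (x1 x2 x3 : ℝ) : ℝ := v25 x1 x2 x3 - v1 x1 x2 x3
theorem en49 (h : In b E x1 x2 x3) : Enc S E (t49 b) (v49 x1 x2 x3) := enc_sub (en25 h) (en1 h)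

def t50 (b : Bx) : TM := tsq S (t49 b)
noncomputable def v50 (x1 x2 x3 : ℝ) : ℝ := (v49 x1 x2 x3) ^ 2
theorem en50 (h : In b E x1 x2 x3) : Enc S E (t50 b) (v50 x1 x2 x3) := enc_sq hS (en49 h)

def t51 (b : Bx) : TM := tsub (t6 b) (t50 b)
noncomputable def v51 (x1 x2 x3 : ℝ) : ℝ := v6 x1 x2 x3 - v50 x1 x2 x3
theorem en51 (h : In b E x1 x2 x3) : Enc S E (t51 b) (v51 x1 x2 x3) := enc_sub (en6 h) (en50 h)

def t52 (b : Bx) : TM := tsqrt S (t51 b)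
noncomputable def v52 (x1 x2 x3 : ℝ) : ℝ := Real.sqrt (v51 x1 x2 x3)
theorem en52 (h : In b E x1 x2 x3) : Enc S E (t52 b) (v52 x1 x2 x3) := enc_sqrt hS (en51 h)

def t53 (b : Bx) : TM := tnat 2 (t48 b)
noncomputable def v53 (x1 x2 x3 : ℝ) : ℝ := ((2 : ℕ) : ℝ) * v48 x1 x2 x3
theorem en53 (h : In b E x1 x2 x3) : Enc S E (t53 b) (v53 x1 x2 x3) := enc_nat 2 (en48 h)

def t54 (b : Bx) : TM := tnat 2 (t20 b)
noncomputable def v54 (x1 x2 x3 : ℝ) : ℝ := ((2 : ℕ) : ℝ) * v20 x1 x2 x3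
theorem en54 (h : In b E x1 x2 x3) : Enc S E (t54 b) (v54 x1 x2 x3) := enc_nat 2 (en20 h)

def t55 (b : Bx) : TM := tsub (t53 b) (t54 b)
noncomputable def v55 (x1 x2 x3 : ℝ) : ℝ := v53 x1 x2 x3 - v54 x1 x2 x3
theorem en55 (h : In b E x1 x2 x3) : Enc S E (t55 b) (v55 x1 x2 x3) := enc_sub (en53 h) (en54 h)

def t56 (b : Bx) : TM := tsub (t55 b) (t6 b)
noncomputable def v56 (x1 x2 x3 : ℝ) : ℝ := v55 x1 x2 x3 - v6 x1 x2 x3
theorem en56 (h : In b E x1 x2 x3) : Enc S E (t56 b) (v56 x1 x2 x3) := enc_sub (en55 h) (en6 h)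

def t57 (b : Bx) : TM := tnat 2 (t24 b)
noncomputable def v57 (x1 x2 x3 : ℝ) : ℝ := ((2 : ℕ) : ℝ) * v24 x1 x2 x3
theorem en57 (h : In b E x1 x2 x3) : Enc S E (t57 b) (v57 x1 x2 x3) := enc_nat 2 (en24 h)

def t58 (b : Bx) : TM := tadd (t56 b) (t57 b)
noncomputable def v58 (x1 x2 x3 : ℝ) : ℝ := v56 x1 x2 x3 + v57 x1 x2 x3
theorem en58 (h : In b E x1 x2 x3) : Enc S E (t58 b) (v58 x1 x2 x3) := enc_add (en56 h) (en57 h)

def t61 (b : Bx) : TM := tadd (t42 b) (t24 b)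
noncomputable def v61 (x1 x2 x3 : ℝ) : ℝ := v42 x1 x2 x3 + v24 x1 x2 x3
theorem en61 (h : In b E x1 x2 x3) : Enc S E (t61 b) (v61 x1 x2 x3) := enc_add (en42 h) (en24 h)

def t62 (b : Bx) : TM := tsub (t61 b) (t20 b)
noncomputable def v62 (x1 x2 x3 : ℝ) : ℝ := v61 x1 x2 x3 - v20 x1 x2 x3
theorem en62 (h : In b E x1 x2 x3) : Enc S E (t62 b) (v62 x1 x2 x3) := enc_sub (en61 h) (en20 h)

def t63 (b : Bx) : TM := tsub (t0 b) (t17 b)
noncomputable def v63 (x1 x2 x3 : ℝ) : ℝ := v0 x1 x2 x3 - v17 x1 x2 x3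
theorem en63 (h : In b E x1 x2 x3) : Enc S E (t63 b) (v63 x1 x2 x3) := enc_sub (en0 h) (en17 h)

def t64 (b : Bx) : TM := tsq S (t63 b)
noncomputable def v64 (x1 x2 x3 : ℝ) : ℝ := (v63 x1 x2 x3) ^ 2
theorem en64 (h : In b E x1 x2 x3) : Enc S E (t64 b) (v64 x1 x2 x3) := enc_sq hS (en63 h)

def t65 (b : Bx) : TM := tsub (t6 b) (t64 b)
noncomputable def v65 (x1 x2 x3 : ℝ) : ℝ := v6 x1 x2 x3 - v64 x1 x2 x3
theorem en65 (h : In b E x1 x2 x3) : Enc S E (t65 b) (v65 x1 x2 x3) := enc_sub (en6 h) (en64 h)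

def t66 (b : Bx) : TM := tsqrt S (t65 b)
noncomputable def v66 (x1 x2 x3 : ℝ) : ℝ := Real.sqrt (v65 x1 x2 x3)
theorem en66 (h : In b E x1 x2 x3) : Enc S E (t66 b) (v66 x1 x2 x3) := enc_sqrt hS (en65 h)

def t67 (_b : Bx) : TM := tconst (Nat.div (Nat.mul 1 S) 2) 0 1
noncomputable def v67 (_x1 _x2 _x3 : ℝ) : ℝ := ((1 : ℕ) : ℝ) / ((2 : ℕ) : ℝ)
theorem en67 (_h : In b E x1 x2 x3) : Enc S E (t67 b) (v67 x1 x2 x3) := enc_rat E 1 (by norm_num)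

def t68 (b : Bx) : TM := tsub (t66 b) (t67 b)
noncomputable def v68 (x1 x2 x3 : ℝ) : ℝ := v66 x1 x2 x3 - v67 x1 x2 x3
theorem en68 (h : In b E x1 x2 x3) : Enc S E (t68 b) (v68 x1 x2 x3) := enc_sub (en66 h) (en67 h)

def t69 (b : Bx) : TM := tsub (t68 b) (t24 b)
noncomputable def v69 (x1 x2 x3 : ℝ) : ℝ := v68 x1 x2 x3 - v24 x1 x2 x3
theorem en69 (h : In b E x1 x2 x3) : Enc S E (t69 b) (v69 x1 x2 x3) := enc_sub (en68 h) (en24 h)

def t70 (b : Bx) : TM := tadd (t69 b) (t20 b)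
noncomputable def v70 (x1 x2 x3 : ℝ) : ℝ := v69 x1 x2 x3 + v20 x1 x2 x3
theorem en70 (h : In b E x1 x2 x3) : Enc S E (t70 b) (v70 x1 x2 x3) := enc_add (en69 h) (en20 h)

def t71 (b : Bx) : TM := tadd (t70 b) (t8 b)
noncomputable def v71 (x1 x2 x3 : ℝ) : ℝ := v70 x1 x2 x3 + v8 x1 x2 x3
theorem en71 (h : In b E x1 x2 x3) : Enc S E (t71 b) (v71 x1 x2 x3) := enc_add (en70 h) (en8 h)

def t72 (b : Bx) : TM := tadd (t71 b) (t6 b)
noncomputable def v72 (x1 x2 x3 : ℝ) : ℝ := v71 x1 x2 x3 + v6 x1 x2 x3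
theorem en72 (h : In b E x1 x2 x3) : Enc S E (t72 b) (v72 x1 x2 x3) := enc_add (en71 h) (en6 h)

def t73 (b : Bx) : TM := tsub (t72 b) (t62 b)
noncomputable def v73 (x1 x2 x3 : ℝ) : ℝ := v72 x1 x2 x3 - v62 x1 x2 x3
theorem en73 (h : In b E x1 x2 x3) : Enc S E (t73 b) (v73 x1 x2 x3) := enc_sub (en72 h) (en62 h)

def t74 (b : Bx) : TM := tadd (t55 b) (t6 b)
noncomputable def v74 (x1 x2 x3 : ℝ) : ℝ := v55 x1 x2 x3 + v6 x1 x2 x3
theorem en74 (h : In b E x1 x2 x3) : Enc S E (t74 b) (v74 x1 x2 x3) := enc_add (en55 h) (en6 h)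

def t75 (b : Bx) : TM := tsub (t15 b) (t6 b)
noncomputable def v75 (x1 x2 x3 : ℝ) : ℝ := v15 x1 x2 x3 - v6 x1 x2 x3
theorem en75 (h : In b E x1 x2 x3) : Enc S E (t75 b) (v75 x1 x2 x3) := enc_sub (en15 h) (en6 h)

def t76 (b : Bx) : TM := tadd (t75 b) (t54 b)
noncomputable def v76 (x1 x2 x3 : ℝ) : ℝ := v75 x1 x2 x3 + v54 x1 x2 x3
theorem en76 (h : In b E x1 x2 x3) : Enc S E (t76 b) (v76 x1 x2 x3) := enc_add (en75 h) (en54 h)

def t77 (b : Bx) : TM := tsub (t76 b) (t52 b)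
noncomputable def v77 (x1 x2 x3 : ℝ) : ℝ := v76 x1 x2 x3 - v52 x1 x2 x3
theorem en77 (h : In b E x1 x2 x3) : Enc S E (t77 b) (v77 x1 x2 x3) := enc_sub (en76 h) (en52 h)

def t78 (b : Bx) : TM := tsub (t77 b) (t42 b)
noncomputable def v78 (x1 x2 x3 : ℝ) : ℝ := v77 x1 x2 x3 - v42 x1 x2 x3
theorem en78 (h : In b E x1 x2 x3) : Enc S E (t78 b) (v78 x1 x2 x3) := enc_sub (en77 h) (en42 h)

def t79 (b : Bx) : TM := tadd (t58 b) (t73 b)
noncomputable def v79 (x1 x2 x3 : ℝ) : ℝ := v58 x1 x2 x3 + v73 x1 x2 x3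
theorem en79 (h : In b E x1 x2 x3) : Enc S E (t79 b) (v79 x1 x2 x3) := enc_add (en58 h) (en73 h)

def t80 (b : Bx) : TM := tscale 9 5 (t79 b)
noncomputable def v80 (x1 x2 x3 : ℝ) : ℝ := ((9 : ℕ) : ℝ) / ((5 : ℕ) : ℝ) * v79 x1 x2 x3
theorem en80 (h : In b E x1 x2 x3) : Enc S E (t80 b) (v80 x1 x2 x3) := enc_scale 9 (by norm_num) (en79 h)

def t81 (b : Bx) : TM := tadd (t38 b) (t80 b)
noncomputable def v81 (x1 x2 x3 : ℝ) : ℝ := v38 x1 x2 x3 + v80 x1 x2 x3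
theorem en81 (h : In b E x1 x2 x3) : Enc S E (t81 b) (v81 x1 x2 x3) := enc_add (en38 h) (en80 h)

def t82 (b : Bx) : TM := tadd (t74 b) (t78 b)
noncomputable def v82 (x1 x2 x3 : ℝ) : ℝ := v74 x1 x2 x3 + v78 x1 x2 x3
theorem en82 (h : In b E x1 x2 x3) : Enc S E (t82 b) (v82 x1 x2 x3) := enc_add (en74 h) (en78 h)

def t83 (b : Bx) : TM := tscale 1 5 (t82 b)
noncomputable def v83 (x1 x2 x3 : ℝ) : ℝ := ((1 : ℕ) : ℝ) / ((5 : ℕ) : ℝ) * v82 x1 x2 x3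
theorem en83 (h : In b E x1 x2 x3) : Enc S E (t83 b) (v83 x1 x2 x3) := enc_scale 1 (by norm_num) (en82 h)

def t84 (b : Bx) : TM := tadd (t81 b) (t83 b)
noncomputable def v84 (x1 x2 x3 : ℝ) : ℝ := v81 x1 x2 x3 + v83 x1 x2 x3
theorem en84 (h : In b E x1 x2 x3) : Enc S E (t84 b) (v84 x1 x2 x3) := enc_add (en81 h) (en83 h)

def t85 (b : Bx) : TM := tsub (t30 b) (t26 b)
noncomputable def v85 (x1 x2 x3 : ℝ) : ℝ := v30 x1 x2 x3 - v26 x1 x2 x3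
theorem en85 (h : In b E x1 x2 x3) : Enc S E (t85 b) (v85 x1 x2 x3) := enc_sub (en30 h) (en26 h)

def t86 (b : Bx) : TM := tsub (t0 b) (t25 b)
noncomputable def v86 (x1 x2 x3 : ℝ) : ℝ := v0 x1 x2 x3 - v25 x1 x2 x3
theorem en86 (h : In b E x1 x2 x3) : Enc S E (t86 b) (v86 x1 x2 x3) := enc_sub (en0 h) (en25 h)

def t87 (b : Bx) : TM := tsub (t2 b) (t17 b)
noncomputable def v87 (x1 x2 x3 : ℝ) : ℝ := v2 x1 x2 x3 - v17 x1 x2 x3
theorem en87 (h : In b E x1 x2 x3) : Enc S E (t87 b) (v87 x1 x2 x3) := enc_sub (en2 h) (en17 h)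

def t88 (_b : Bx) : TM := tconst (Nat.mul 0 S) 0 0
noncomputable def v88 (_x1 _x2 _x3 : ℝ) : ℝ := ((0 : ℕ) : ℝ)
theorem en88 (_h : In b E x1 x2 x3) : Enc S E (t88 b) (v88 x1 x2 x3) := enc_nc E 0

def t89 (b : Bx) : TM := tsub (t1 b) (t88 b)
noncomputable def v89 (x1 x2 x3 : ℝ) : ℝ := v1 x1 x2 x3 - v88 x1 x2 x3
theorem en89 (h : In b E x1 x2 x3) : Enc S E (t89 b) (v89 x1 x2 x3) := enc_sub (en1 h) (en88 h)

def t90 (b : Bx) : TM := tneg (t6 b)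
noncomputable def v90 (x1 x2 x3 : ℝ) : ℝ := -(v6 x1 x2 x3)
theorem en90 (h : In b E x1 x2 x3) : Enc S E (t90 b) (v90 x1 x2 x3) := enc_neg (en6 h)

def t91 (b : Bx) : TM := tsq S (t89 b)
noncomputable def v91 (x1 x2 x3 : ℝ) : ℝ := (v89 x1 x2 x3) ^ 2
theorem en91 (h : In b E x1 x2 x3) : Enc S E (t91 b) (v91 x1 x2 x3) := enc_sq hS (en89 h)

def t92 (b : Bx) : TM := tadd (t17 b) (t89 b)
noncomputable def v92 (x1 x2 x3 : ℝ) : ℝ := v17 x1 x2 x3 + v89 x1 x2 x3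
theorem en92 (h : In b E x1 x2 x3) : Enc S E (t92 b) (v92 x1 x2 x3) := enc_add (en17 h) (en89 h)

def t93 (b : Bx) : TM := tmul S (t90 b) (t92 b)
noncomputable def v93 (x1 x2 x3 : ℝ) : ℝ := v90 x1 x2 x3 * v92 x1 x2 x3
theorem en93 (h : In b E x1 x2 x3) : Enc S E (t93 b) (v93 x1 x2 x3) := enc_mul hS (en90 h) (en92 h)

def t94 (b : Bx) : TM := tsub (t6 b) (t91 b)
noncomputable def v94 (x1 x2 x3 : ℝ) : ℝ := v6 x1 x2 x3 - v91 x1 x2 x3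
theorem en94 (h : In b E x1 x2 x3) : Enc S E (t94 b) (v94 x1 x2 x3) := enc_sub (en6 h) (en91 h)

def t95 (b : Bx) : TM := tneg (t93 b)
noncomputable def v95 (x1 x2 x3 : ℝ) : ℝ := -(v93 x1 x2 x3)
theorem en95 (h : In b E x1 x2 x3) : Enc S E (t95 b) (v95 x1 x2 x3) := enc_neg (en93 h)

def t96 (b : Bx) : TM := tsqrt S (t94 b)
noncomputable def v96 (x1 x2 x3 : ℝ) : ℝ := Real.sqrt (v94 x1 x2 x3)
theorem en96 (h : In b E x1 x2 x3) : Enc S E (t96 b) (v96 x1 x2 x3) := enc_sqrt hS (en94 h)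

def t97 (b : Bx) : TM := tadd (t33 b) (t96 b)
noncomputable def v97 (x1 x2 x3 : ℝ) : ℝ := v33 x1 x2 x3 + v96 x1 x2 x3
theorem en97 (h : In b E x1 x2 x3) : Enc S E (t97 b) (v97 x1 x2 x3) := enc_add (en33 h) (en96 h)

def t98 (b : Bx) : TM := tinv S (t97 b)
noncomputable def v98 (x1 x2 x3 : ℝ) : ℝ := (v97 x1 x2 x3)⁻¹
theorem en98 (h : In b E x1 x2 x3) : Enc S E (t98 b) (v98 x1 x2 x3) := enc_inv hS (en97 h)

def t99 (b : Bx) : TM := tmul S (t95 b) (t98 b)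
noncomputable def v99 (x1 x2 x3 : ℝ) : ℝ := v95 x1 x2 x3 * v98 x1 x2 x3
theorem en99 (h : In b E x1 x2 x3) : Enc S E (t99 b) (v99 x1 x2 x3) := enc_mul hS (en95 h) (en98 h)

def t100 (b : Bx) : TM := tnat 8 (t96 b)
noncomputable def v100 (x1 x2 x3 : ℝ) : ℝ := ((8 : ℕ) : ℝ) * v96 x1 x2 x3
theorem en100 (h : In b E x1 x2 x3) : Enc S E (t100 b) (v100 x1 x2 x3) := enc_nat 8 (en96 h)

def t101 (b : Bx) : TM := tnat 8 (t99 b)
noncomputable def v101 (x1 x2 x3 : ℝ) : ℝ := ((8 : ℕ) : ℝ) * v99 x1 x2 x3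
theorem en101 (h : In b E x1 x2 x3) : Enc S E (t101 b) (v101 x1 x2 x3) := enc_nat 8 (en99 h)

def t102 (b : Bx) : TM := tsub (t100 b) (t35 b)
noncomputable def v102 (x1 x2 x3 : ℝ) : ℝ := v100 x1 x2 x3 - v35 x1 x2 x3
theorem en102 (h : In b E x1 x2 x3) : Enc S E (t102 b) (v102 x1 x2 x3) := enc_sub (en100 h) (en35 h)

def t103 (b : Bx) : TM := tsub (t102 b) (t37 b)
noncomputable def v103 (x1 x2 x3 : ℝ) : ℝ := v102 x1 x2 x3 - v37 x1 x2 x3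
theorem en103 (h : In b E x1 x2 x3) : Enc S E (t103 b) (v103 x1 x2 x3) := enc_sub (en102 h) (en37 h)

def t104 (b : Bx) : TM := tsub (t30 b) (t89 b)
noncomputable def v104 (x1 x2 x3 : ℝ) : ℝ := v30 x1 x2 x3 - v89 x1 x2 x3
theorem en104 (h : In b E x1 x2 x3) : Enc S E (t104 b) (v104 x1 x2 x3) := enc_sub (en30 h) (en89 h)

def t105 (b : Bx) : TM := tneg (t90 b)
noncomputable def v105 (x1 x2 x3 : ℝ) : ℝ := -(v90 x1 x2 x3)
theorem en105 (h : In b E x1 x2 x3) : Enc S E (t105 b) (v105 x1 x2 x3) := enc_neg (en90 h)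

def t106 (b : Bx) : TM := tsq S (t104 b)
noncomputable def v106 (x1 x2 x3 : ℝ) : ℝ := (v104 x1 x2 x3) ^ 2
theorem en106 (h : In b E x1 x2 x3) : Enc S E (t106 b) (v106 x1 x2 x3) := enc_sq hS (en104 h)

def t107 (b : Bx) : TM := tadd (t45 b) (t104 b)
noncomputable def v107 (x1 x2 x3 : ℝ) : ℝ := v45 x1 x2 x3 + v104 x1 x2 x3
theorem en107 (h : In b E x1 x2 x3) : Enc S E (t107 b) (v107 x1 x2 x3) := enc_add (en45 h) (en104 h)

def t108 (b : Bx) : TM := tmul S (t105 b) (t107 b)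
noncomputable def v108 (x1 x2 x3 : ℝ) : ℝ := v105 x1 x2 x3 * v107 x1 x2 x3
theorem en108 (h : In b E x1 x2 x3) : Enc S E (t108 b) (v108 x1 x2 x3) := enc_mul hS (en105 h) (en107 h)

def t109 (b : Bx) : TM := tsub (t6 b) (t106 b)
noncomputable def v109 (x1 x2 x3 : ℝ) : ℝ := v6 x1 x2 x3 - v106 x1 x2 x3
theorem en109 (h : In b E x1 x2 x3) : Enc S E (t109 b) (v109 x1 x2 x3) := enc_sub (en6 h) (en106 h)

def t110 (b : Bx) : TM := tneg (t108 b)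
noncomputable def v110 (x1 x2 x3 : ℝ) : ℝ := -(v108 x1 x2 x3)
theorem en110 (h : In b E x1 x2 x3) : Enc S E (t110 b) (v110 x1 x2 x3) := enc_neg (en108 h)

def t111 (b : Bx) : TM := tsqrt S (t109 b)
noncomputable def v111 (x1 x2 x3 : ℝ) : ℝ := Real.sqrt (v109 x1 x2 x3)
theorem en111 (h : In b E x1 x2 x3) : Enc S E (t111 b) (v111 x1 x2 x3) := enc_sqrt hS (en109 h)

def t112 (b : Bx) : TM := tadd (t48 b) (t111 b)
noncomputable def v112 (x1 x2 x3 : ℝ) : ℝ := v48 x1 x2 x3 + v111 x1 x2 x3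
theorem en112 (h : In b E x1 x2 x3) : Enc S E (t112 b) (v112 x1 x2 x3) := enc_add (en48 h) (en111 h)

def t113 (b : Bx) : TM := tinv S (t112 b)
noncomputable def v113 (x1 x2 x3 : ℝ) : ℝ := (v112 x1 x2 x3)⁻¹
theorem en113 (h : In b E x1 x2 x3) : Enc S E (t113 b) (v113 x1 x2 x3) := enc_inv hS (en112 h)

def t114 (b : Bx) : TM := tmul S (t110 b) (t113 b)
noncomputable def v114 (x1 x2 x3 : ℝ) : ℝ := v110 x1 x2 x3 * v113 x1 x2 x3
theorem en114 (h : In b E x1 x2 x3) : Enc S E (t114 b) (v114 x1 x2 x3) := enc_mul hS (en110 h) (en113 h)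

def t115 (b : Bx) : TM := tnat 2 (t111 b)
noncomputable def v115 (x1 x2 x3 : ℝ) : ℝ := ((2 : ℕ) : ℝ) * v111 x1 x2 x3
theorem en115 (h : In b E x1 x2 x3) : Enc S E (t115 b) (v115 x1 x2 x3) := enc_nat 2 (en111 h)

def t116 (b : Bx) : TM := tnat 2 (t114 b)
noncomputable def v116 (x1 x2 x3 : ℝ) : ℝ := ((2 : ℕ) : ℝ) * v114 x1 x2 x3
theorem en116 (h : In b E x1 x2 x3) : Enc S E (t116 b) (v116 x1 x2 x3) := enc_nat 2 (en114 h)

def t117 (b : Bx) : TM := tsub (t115 b) (t54 b)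
noncomputable def v117 (x1 x2 x3 : ℝ) : ℝ := v115 x1 x2 x3 - v54 x1 x2 x3
theorem en117 (h : In b E x1 x2 x3) : Enc S E (t117 b) (v117 x1 x2 x3) := enc_sub (en115 h) (en54 h)

def t118 (b : Bx) : TM := tsub (t117 b) (t6 b)
noncomputable def v118 (x1 x2 x3 : ℝ) : ℝ := v117 x1 x2 x3 - v6 x1 x2 x3
theorem en118 (h : In b E x1 x2 x3) : Enc S E (t118 b) (v118 x1 x2 x3) := enc_sub (en117 h) (en6 h)

def t119 (b : Bx) : TM := tadd (t118 b) (t57 b)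
noncomputable def v119 (x1 x2 x3 : ℝ) : ℝ := v118 x1 x2 x3 + v57 x1 x2 x3
theorem en119 (h : In b E x1 x2 x3) : Enc S E (t119 b) (v119 x1 x2 x3) := enc_add (en118 h) (en57 h)

def t120 (b : Bx) : TM := tsub (t0 b) (t89 b)
noncomputable def v120 (x1 x2 x3 : ℝ) : ℝ := v0 x1 x2 x3 - v89 x1 x2 x3
theorem en120 (h : In b E x1 x2 x3) : Enc S E (t120 b) (v120 x1 x2 x3) := enc_sub (en0 h) (en89 h)

def t121 (b : Bx) : TM := tsq S (t120 b)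
noncomputable def v121 (x1 x2 x3 : ℝ) : ℝ := (v120 x1 x2 x3) ^ 2
theorem en121 (h : In b E x1 x2 x3) : Enc S E (t121 b) (v121 x1 x2 x3) := enc_sq hS (en120 h)

def t122 (b : Bx) : TM := tadd (t63 b) (t120 b)
noncomputable def v122 (x1 x2 x3 : ℝ) : ℝ := v63 x1 x2 x3 + v120 x1 x2 x3
theorem en122 (h : In b E x1 x2 x3) : Enc S E (t122 b) (v122 x1 x2 x3) := enc_add (en63 h) (en120 h)

def t123 (b : Bx) : TM := tmul S (t105 b) (t122 b)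
noncomputable def v123 (x1 x2 x3 : ℝ) : ℝ := v105 x1 x2 x3 * v122 x1 x2 x3
theorem en123 (h : In b E x1 x2 x3) : Enc S E (t123 b) (v123 x1 x2 x3) := enc_mul hS (en105 h) (en122 h)

def t124 (b : Bx) : TM := tsub (t6 b) (t121 b)
noncomputable def v124 (x1 x2 x3 : ℝ) : ℝ := v6 x1 x2 x3 - v121 x1 x2 x3
theorem en124 (h : In b E x1 x2 x3) : Enc S E (t124 b) (v124 x1 x2 x3) := enc_sub (en6 h) (en121 h)

def t125 (b : Bx) : TM := tneg (t123 b)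
noncomputable def v125 (x1 x2 x3 : ℝ) : ℝ := -(v123 x1 x2 x3)
theorem en125 (h : In b E x1 x2 x3) : Enc S E (t125 b) (v125 x1 x2 x3) := enc_neg (en123 h)

def t126 (b : Bx) : TM := tsqrt S (t124 b)
noncomputable def v126 (x1 x2 x3 : ℝ) : ℝ := Real.sqrt (v124 x1 x2 x3)
theorem en126 (h : In b E x1 x2 x3) : Enc S E (t126 b) (v126 x1 x2 x3) := enc_sqrt hS (en124 h)

def t127 (b : Bx) : TM := tadd (t66 b) (t126 b)
noncomputable def v127 (x1 x2 x3 : ℝ) : ℝ := v66 x1 x2 x3 + v126 x1 x2 x3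
theorem en127 (h : In b E x1 x2 x3) : Enc S E (t127 b) (v127 x1 x2 x3) := enc_add (en66 h) (en126 h)

def t128 (b : Bx) : TM := tinv S (t127 b)
noncomputable def v128 (x1 x2 x3 : ℝ) : ℝ := (v127 x1 x2 x3)⁻¹
theorem en128 (h : In b E x1 x2 x3) : Enc S E (t128 b) (v128 x1 x2 x3) := enc_inv hS (en127 h)

def t129 (b : Bx) : TM := tmul S (t125 b) (t128 b)
noncomputable def v129 (x1 x2 x3 : ℝ) : ℝ := v125 x1 x2 x3 * v128 x1 x2 x3
theorem en129 (h : In b E x1 x2 x3) : Enc S E (t129 b) (v129 x1 x2 x3) := enc_mul hS (en125 h) (en128 h)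

def t130 (b : Bx) : TM := tsub (t126 b) (t67 b)
noncomputable def v130 (x1 x2 x3 : ℝ) : ℝ := v126 x1 x2 x3 - v67 x1 x2 x3
theorem en130 (h : In b E x1 x2 x3) : Enc S E (t130 b) (v130 x1 x2 x3) := enc_sub (en126 h) (en67 h)

def t131 (b : Bx) : TM := tsub (t130 b) (t24 b)
noncomputable def v131 (x1 x2 x3 : ℝ) : ℝ := v130 x1 x2 x3 - v24 x1 x2 x3
theorem en131 (h : In b E x1 x2 x3) : Enc S E (t131 b) (v131 x1 x2 x3) := enc_sub (en130 h) (en24 h)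

def t132 (b : Bx) : TM := tadd (t131 b) (t20 b)
noncomputable def v132 (x1 x2 x3 : ℝ) : ℝ := v131 x1 x2 x3 + v20 x1 x2 x3
theorem en132 (h : In b E x1 x2 x3) : Enc S E (t132 b) (v132 x1 x2 x3) := enc_add (en131 h) (en20 h)

def t133 (b : Bx) : TM := tadd (t132 b) (t8 b)
noncomputable def v133 (x1 x2 x3 : ℝ) : ℝ := v132 x1 x2 x3 + v8 x1 x2 x3
theorem en133 (h : In b E x1 x2 x3) : Enc S E (t133 b) (v133 x1 x2 x3) := enc_add (en132 h) (en8 h)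

def t134 (b : Bx) : TM := tadd (t133 b) (t6 b)
noncomputable def v134 (x1 x2 x3 : ℝ) : ℝ := v133 x1 x2 x3 + v6 x1 x2 x3
theorem en134 (h : In b E x1 x2 x3) : Enc S E (t134 b) (v134 x1 x2 x3) := enc_add (en133 h) (en6 h)

def t135 (b : Bx) : TM := tadd (t89 b) (t4 b)
noncomputable def v135 (x1 x2 x3 : ℝ) : ℝ := v89 x1 x2 x3 + v4 x1 x2 x3
theorem en135 (h : In b E x1 x2 x3) : Enc S E (t135 b) (v135 x1 x2 x3) := enc_add (en89 h) (en4 h)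

def t136 (b : Bx) : TM := tsub (t135 b) (t1 b)
noncomputable def v136 (x1 x2 x3 : ℝ) : ℝ := v135 x1 x2 x3 - v1 x1 x2 x3
theorem en136 (h : In b E x1 x2 x3) : Enc S E (t136 b) (v136 x1 x2 x3) := enc_sub (en135 h) (en1 h)

def t137 (b : Bx) : TM := tsq S (t136 b)
noncomputable def v137 (x1 x2 x3 : ℝ) : ℝ := (v136 x1 x2 x3) ^ 2
theorem en137 (h : In b E x1 x2 x3) : Enc S E (t137 b) (v137 x1 x2 x3) := enc_sq hS (en136 h)

def t138 (b : Bx) : TM := tadd (t39 b) (t136 b)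
noncomputable def v138 (x1 x2 x3 : ℝ) : ℝ := v39 x1 x2 x3 + v136 x1 x2 x3
theorem en138 (h : In b E x1 x2 x3) : Enc S E (t138 b) (v138 x1 x2 x3) := enc_add (en39 h) (en136 h)

def t139 (b : Bx) : TM := tmul S (t90 b) (t138 b)
noncomputable def v139 (x1 x2 x3 : ℝ) : ℝ := v90 x1 x2 x3 * v138 x1 x2 x3
theorem en139 (h : In b E x1 x2 x3) : Enc S E (t139 b) (v139 x1 x2 x3) := enc_mul hS (en90 h) (en138 h)

def t140 (b : Bx) : TM := tsub (t6 b) (t137 b)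
noncomputable def v140 (x1 x2 x3 : ℝ) : ℝ := v6 x1 x2 x3 - v137 x1 x2 x3
theorem en140 (h : In b E x1 x2 x3) : Enc S E (t140 b) (v140 x1 x2 x3) := enc_sub (en6 h) (en137 h)

def t141 (b : Bx) : TM := tneg (t139 b)
noncomputable def v141 (x1 x2 x3 : ℝ) : ℝ := -(v139 x1 x2 x3)
theorem en141 (h : In b E x1 x2 x3) : Enc S E (t141 b) (v141 x1 x2 x3) := enc_neg (en139 h)

def t142 (b : Bx) : TM := tsqrt S (t140 b)
noncomputable def v142 (x1 x2 x3 : ℝ) : ℝ := Real.sqrt (v140 x1 x2 x3)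
theorem en142 (h : In b E x1 x2 x3) : Enc S E (t142 b) (v142 x1 x2 x3) := enc_sqrt hS (en140 h)

def t143 (b : Bx) : TM := tadd (t42 b) (t142 b)
noncomputable def v143 (x1 x2 x3 : ℝ) : ℝ := v42 x1 x2 x3 + v142 x1 x2 x3
theorem en143 (h : In b E x1 x2 x3) : Enc S E (t143 b) (v143 x1 x2 x3) := enc_add (en42 h) (en142 h)

def t144 (b : Bx) : TM := tinv S (t143 b)
noncomputable def v144 (x1 x2 x3 : ℝ) : ℝ := (v143 x1 x2 x3)⁻¹
theorem en144 (h : In b E x1 x2 x3) : Enc S E (t144 b) (v144 x1 x2 x3) := enc_inv hS (en143 h)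

def t145 (b : Bx) : TM := tmul S (t141 b) (t144 b)
noncomputable def v145 (x1 x2 x3 : ℝ) : ℝ := v141 x1 x2 x3 * v144 x1 x2 x3
theorem en145 (h : In b E x1 x2 x3) : Enc S E (t145 b) (v145 x1 x2 x3) := enc_mul hS (en141 h) (en144 h)

def t146 (b : Bx) : TM := tadd (t142 b) (t24 b)
noncomputable def v146 (x1 x2 x3 : ℝ) : ℝ := v142 x1 x2 x3 + v24 x1 x2 x3
theorem en146 (h : In b E x1 x2 x3) : Enc S E (t146 b) (v146 x1 x2 x3) := enc_add (en142 h) (en24 h)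

def t147 (b : Bx) : TM := tsub (t146 b) (t20 b)
noncomputable def v147 (x1 x2 x3 : ℝ) : ℝ := v146 x1 x2 x3 - v20 x1 x2 x3
theorem en147 (h : In b E x1 x2 x3) : Enc S E (t147 b) (v147 x1 x2 x3) := enc_sub (en146 h) (en20 h)

def t148 (b : Bx) : TM := tsub (t134 b) (t147 b)
noncomputable def v148 (x1 x2 x3 : ℝ) : ℝ := v134 x1 x2 x3 - v147 x1 x2 x3
theorem en148 (h : In b E x1 x2 x3) : Enc S E (t148 b) (v148 x1 x2 x3) := enc_sub (en134 h) (en147 h)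

def t149 (b : Bx) : TM := tsub (t129 b) (t145 b)
noncomputable def v149 (x1 x2 x3 : ℝ) : ℝ := v129 x1 x2 x3 - v145 x1 x2 x3
theorem en149 (h : In b E x1 x2 x3) : Enc S E (t149 b) (v149 x1 x2 x3) := enc_sub (en129 h) (en145 h)

def t150 (b : Bx) : TM := tadd (t119 b) (t148 b)
noncomputable def v150 (x1 x2 x3 : ℝ) : ℝ := v119 x1 x2 x3 + v148 x1 x2 x3
theorem en150 (h : In b E x1 x2 x3) : Enc S E (t150 b) (v150 x1 x2 x3) := enc_add (en119 h) (en148 h)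

def t151 (b : Bx) : TM := tadd (t116 b) (t149 b)
noncomputable def v151 (x1 x2 x3 : ℝ) : ℝ := v116 x1 x2 x3 + v149 x1 x2 x3
theorem en151 (h : In b E x1 x2 x3) : Enc S E (t151 b) (v151 x1 x2 x3) := enc_add (en116 h) (en149 h)

def t152 (b : Bx) : TM := tscale 9 5 (t150 b)
noncomputable def v152 (x1 x2 x3 : ℝ) : ℝ := ((9 : ℕ) : ℝ) / ((5 : ℕ) : ℝ) * v150 x1 x2 x3
theorem en152 (h : In b E x1 x2 x3) : Enc S E (t152 b) (v152 x1 x2 x3) := enc_scale 9 (by norm_num) (en150 h)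

def t153 (b : Bx) : TM := tscale 9 5 (t151 b)
noncomputable def v153 (x1 x2 x3 : ℝ) : ℝ := ((9 : ℕ) : ℝ) / ((5 : ℕ) : ℝ) * v151 x1 x2 x3
theorem en153 (h : In b E x1 x2 x3) : Enc S E (t153 b) (v153 x1 x2 x3) := enc_scale 9 (by norm_num) (en151 h)

def t154 (b : Bx) : TM := tadd (t103 b) (t152 b)
noncomputable def v154 (x1 x2 x3 : ℝ) : ℝ := v103 x1 x2 x3 + v152 x1 x2 x3
theorem en154 (h : In b E x1 x2 x3) : Enc S E (t154 b) (v154 x1 x2 x3) := enc_add (en103 h) (en152 h)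

def t155 (b : Bx) : TM := tadd (t101 b) (t153 b)
noncomputable def v155 (x1 x2 x3 : ℝ) : ℝ := v101 x1 x2 x3 + v153 x1 x2 x3
theorem en155 (h : In b E x1 x2 x3) : Enc S E (t155 b) (v155 x1 x2 x3) := enc_add (en101 h) (en153 h)

def t156 (b : Bx) : TM := tadd (t117 b) (t6 b)
noncomputable def v156 (x1 x2 x3 : ℝ) : ℝ := v117 x1 x2 x3 + v6 x1 x2 x3
theorem en156 (h : In b E x1 x2 x3) : Enc S E (t156 b) (v156 x1 x2 x3) := enc_add (en117 h) (en6 h)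

def t157 (b : Bx) : TM := tadd (t89 b) (t12 b)
noncomputable def v157 (x1 x2 x3 : ℝ) : ℝ := v89 x1 x2 x3 + v12 x1 x2 x3
theorem en157 (h : In b E x1 x2 x3) : Enc S E (t157 b) (v157 x1 x2 x3) := enc_add (en89 h) (en12 h)

def t158 (b : Bx) : TM := tsub (t157 b) (t1 b)
noncomputable def v158 (x1 x2 x3 : ℝ) : ℝ := v157 x1 x2 x3 - v1 x1 x2 x3
theorem en158 (h : In b E x1 x2 x3) : Enc S E (t158 b) (v158 x1 x2 x3) := enc_sub (en157 h) (en1 h)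

def t159 (b : Bx) : TM := tsq S (t158 b)
noncomputable def v159 (x1 x2 x3 : ℝ) : ℝ := (v158 x1 x2 x3) ^ 2
theorem en159 (h : In b E x1 x2 x3) : Enc S E (t159 b) (v159 x1 x2 x3) := enc_sq hS (en158 h)

def t160 (b : Bx) : TM := tadd (t49 b) (t158 b)
noncomputable def v160 (x1 x2 x3 : ℝ) : ℝ := v49 x1 x2 x3 + v158 x1 x2 x3
theorem en160 (h : In b E x1 x2 x3) : Enc S E (t160 b) (v160 x1 x2 x3) := enc_add (en49 h) (en158 h)

def t161 (b : Bx) : TM := tmul S (t90 b) (t160 b)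
noncomputable def v161 (x1 x2 x3 : ℝ) : ℝ := v90 x1 x2 x3 * v160 x1 x2 x3
theorem en161 (h : In b E x1 x2 x3) : Enc S E (t161 b) (v161 x1 x2 x3) := enc_mul hS (en90 h) (en160 h)

def t162 (b : Bx) : TM := tsub (t6 b) (t159 b)
noncomputable def v162 (x1 x2 x3 : ℝ) : ℝ := v6 x1 x2 x3 - v159 x1 x2 x3
theorem en162 (h : In b E x1 x2 x3) : Enc S E (t162 b) (v162 x1 x2 x3) := enc_sub (en6 h) (en159 h)

def t163 (b : Bx) : TM := tneg (t161 b)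
noncomputable def v163 (x1 x2 x3 : ℝ) : ℝ := -(v161 x1 x2 x3)
theorem en163 (h : In b E x1 x2 x3) : Enc S E (t163 b) (v163 x1 x2 x3) := enc_neg (en161 h)

def t164 (b : Bx) : TM := tsqrt S (t162 b)
noncomputable def v164 (x1 x2 x3 : ℝ) : ℝ := Real.sqrt (v162 x1 x2 x3)
theorem en164 (h : In b E x1 x2 x3) : Enc S E (t164 b) (v164 x1 x2 x3) := enc_sqrt hS (en162 h)

def t165 (b : Bx) : TM := tadd (t52 b) (t164 b)
noncomputable def v165 (x1 x2 x3 : ℝ) : ℝ := v52 x1 x2 x3 + v164 x1 x2 x3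
theorem en165 (h : In b E x1 x2 x3) : Enc S E (t165 b) (v165 x1 x2 x3) := enc_add (en52 h) (en164 h)

def t166 (b : Bx) : TM := tinv S (t165 b)
noncomputable def v166 (x1 x2 x3 : ℝ) : ℝ := (v165 x1 x2 x3)⁻¹
theorem en166 (h : In b E x1 x2 x3) : Enc S E (t166 b) (v166 x1 x2 x3) := enc_inv hS (en165 h)

def t167 (b : Bx) : TM := tmul S (t163 b) (t166 b)
noncomputable def v167 (x1 x2 x3 : ℝ) : ℝ := v163 x1 x2 x3 * v166 x1 x2 x3
theorem en167 (h : In b E x1 x2 x3) : Enc S E (t167 b) (v167 x1 x2 x3) := enc_mul hS (en163 h) (en166 h)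

def t168 (b : Bx) : TM := tsub (t76 b) (t164 b)
noncomputable def v168 (x1 x2 x3 : ℝ) : ℝ := v76 x1 x2 x3 - v164 x1 x2 x3
theorem en168 (h : In b E x1 x2 x3) : Enc S E (t168 b) (v168 x1 x2 x3) := enc_sub (en76 h) (en164 h)

def t169 (b : Bx) : TM := tneg (t167 b)
noncomputable def v169 (x1 x2 x3 : ℝ) : ℝ := -(v167 x1 x2 x3)
theorem en169 (h : In b E x1 x2 x3) : Enc S E (t169 b) (v169 x1 x2 x3) := enc_neg (en167 h)

def t170 (b : Bx) : TM := tsub (t168 b) (t142 b)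
noncomputable def v170 (x1 x2 x3 : ℝ) : ℝ := v168 x1 x2 x3 - v142 x1 x2 x3
theorem en170 (h : In b E x1 x2 x3) : Enc S E (t170 b) (v170 x1 x2 x3) := enc_sub (en168 h) (en142 h)

def t171 (b : Bx) : TM := tsub (t169 b) (t145 b)
noncomputable def v171 (x1 x2 x3 : ℝ) : ℝ := v169 x1 x2 x3 - v145 x1 x2 x3
theorem en171 (h : In b E x1 x2 x3) : Enc S E (t171 b) (v171 x1 x2 x3) := enc_sub (en169 h) (en145 h)

def t172 (b : Bx) : TM := tadd (t156 b) (t170 b)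
noncomputable def v172 (x1 x2 x3 : ℝ) : ℝ := v156 x1 x2 x3 + v170 x1 x2 x3
theorem en172 (h : In b E x1 x2 x3) : Enc S E (t172 b) (v172 x1 x2 x3) := enc_add (en156 h) (en170 h)

def t173 (b : Bx) : TM := tadd (t116 b) (t171 b)
noncomputable def v173 (x1 x2 x3 : ℝ) : ℝ := v116 x1 x2 x3 + v171 x1 x2 x3
theorem en173 (h : In b E x1 x2 x3) : Enc S E (t173 b) (v173 x1 x2 x3) := enc_add (en116 h) (en171 h)

def t174 (b : Bx) : TM := tscale 1 5 (t172 b)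
noncomputable def v174 (x1 x2 x3 : ℝ) : ℝ := ((1 : ℕ) : ℝ) / ((5 : ℕ) : ℝ) * v172 x1 x2 x3
theorem en174 (h : In b E x1 x2 x3) : Enc S E (t174 b) (v174 x1 x2 x3) := enc_scale 1 (by norm_num) (en172 h)

def t175 (b : Bx) : TM := tscale 1 5 (t173 b)
noncomputable def v175 (x1 x2 x3 : ℝ) : ℝ := ((1 : ℕ) : ℝ) / ((5 : ℕ) : ℝ) * v173 x1 x2 x3
theorem en175 (h : In b E x1 x2 x3) : Enc S E (t175 b) (v175 x1 x2 x3) := enc_scale 1 (by norm_num) (en173 h)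

def t176 (b : Bx) : TM := tadd (t154 b) (t174 b)
noncomputable def v176 (x1 x2 x3 : ℝ) : ℝ := v154 x1 x2 x3 + v174 x1 x2 x3
theorem en176 (h : In b E x1 x2 x3) : Enc S E (t176 b) (v176 x1 x2 x3) := enc_add (en154 h) (en174 h)

def t177 (b : Bx) : TM := tadd (t155 b) (t175 b)
noncomputable def v177 (x1 x2 x3 : ℝ) : ℝ := v155 x1 x2 x3 + v175 x1 x2 x3
theorem en177 (h : In b E x1 x2 x3) : Enc S E (t177 b) (v177 x1 x2 x3) := enc_add (en155 h) (en175 h)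

end

def tst (b : Bx) : Bool := or (and (pos (t177 b)) (and (pos (t32 b)) (and (pos (t94 b)) (and (pos (t47 b)) (and (pos (t109 b)) (and (pos (t65 b)) (and (pos (t124 b)) (and (pos (t41 b)) (and (pos (t140 b)) (and (pos (t51 b)) (pos (t162 b)))))))))))) (or (pos (t85 b)) (or (pos (t86 b)) (pos (t87 b))))

def f (b : Bx) : Nat := go (tst b) 1 (t177 b) b

/-- the conditions -/
def Cnd (x1 x2 x3 : ℝ) : Prop := 0 < v32 x1 x2 x3 ∧ 0 < v94 x1 x2 x3 ∧ 0 < v47 x1 x2 x3 ∧ 0 < v109 x1 x2 x3 ∧ 0 < v65 x1 x2 x3 ∧ 0 < v124 x1 x2 x3 ∧ 0 < v41 x1 x2 x3 ∧ 0 < v140 x1 x2 x3 ∧ 0 < v51 x1 x2 x3 ∧ 0 < v162 x1 x2 x3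

def Q (x1 x2 x3 : ℝ) : Prop := (0 < v177 x1 x2 x3 ∧ Cnd x1 x2 x3) ∨ 0 < v85 x1 x2 x3 ∨ 0 < v86 x1 x2 x3 ∨ 0 < v87 x1 x2 x3

theorem f_sound (b : Bx) (hb : f b = 0) (x1 x2 x3 : ℝ) (hm : Mem S b x1 x2 x3) : Q x1 x2 x3 := by
  obtain ⟨E, h⟩ := pt_of_mem hm
  have h : In b E x1 x2 x3 := h
  have ht := go_sound hb
  unfold tst at ht
  unfold Q
  rcases Bool.or_eq_true_iff.mp ht with ht | ht
  · refine Or.inl ?_
    obtain ⟨k1, ht⟩ := Bool.and_eq_true_iff.mp ht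
    have k1177 := pos_sound hS (en177 h) k1
    obtain ⟨k1, ht⟩ := Bool.and_eq_true_iff.mp ht
    have k1032 := pos_sound hS (en32 h) k1
    obtain ⟨k1, ht⟩ := Bool.and_eq_true_iff.mp ht
    have k1094 := pos_sound hS (en94 h) k1
    obtain ⟨k1, ht⟩ := Bool.and_eq_true_iff.mp ht
    have k1047 := pos_sound hS (en47 h) k1
    obtain ⟨k1, ht⟩ := Bool.and_eq_true_iff.mp ht
    have k1109 := pos_sound hS (en109 h) k1
    obtain ⟨k1, ht⟩ := Bool.and_eq_true_iff.mp ht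
    have k1065 := pos_sound hS (en65 h) k1
    obtain ⟨k1, ht⟩ := Bool.and_eq_true_iff.mp ht
    have k1124 := pos_sound hS (en124 h) k1
    obtain ⟨k1, ht⟩ := Bool.and_eq_true_iff.mp ht
    have k1041 := pos_sound hS (en41 h) k1
    obtain ⟨k1, ht⟩ := Bool.and_eq_true_iff.mp ht
    have k1140 := pos_sound hS (en140 h) k1
    obtain ⟨k1, ht⟩ := Bool.and_eq_true_iff.mp ht
    have k1051 := pos_sound hS (en51 h) k1
    have k1162 := pos_sound hS (en162 h) ht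
    exact ⟨k1177, k1032, k1094, k1047, k1109, k1065, k1124, k1041, k1140, k1051, k1162⟩
  · refine Or.inr ?_
    rcases Bool.or_eq_true_iff.mp ht with ht | ht
    · exact Or.inl (pos_sound hS (en85 h) ht)
    · refine Or.inr ?_
      rcases Bool.or_eq_true_iff.mp ht with ht | ht
      · exact Or.inl (pos_sound hS (en86 h) ht)
      · refine Or.inr ?_
        exact pos_sound hS (en87 h) ht

theorem sa_3 {x1 x2 x3 : ℝ} (_hc : Cnd x1 x2 x3) :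
    v3 x1 x2 x3 = v88 x1 x2 x3 + x2 * v6 x1 x2 x3 := svar _

theorem sa_17 {x1 x2 x3 : ℝ} (hc : Cnd x1 x2 x3) :
    v17 x1 x2 x3 = v89 x1 x2 x3 + x2 * v90 x1 x2 x3 := ssubr (sa_3 hc)

theorem sa_31 {x1 x2 x3 : ℝ} (hc : Cnd x1 x2 x3) :
    v31 x1 x2 x3 = v91 x1 x2 x3 + x2 * v93 x1 x2 x3 := ssq (sa_17 hc)

theorem sa_32 {x1 x2 x3 : ℝ} (hc : Cnd x1 x2 x3) :
    v32 x1 x2 x3 = v94 x1 x2 x3 + x2 * v95 x1 x2 x3 := ssubr (sa_31 hc)

theorem sa_33 {x1 x2 x3 : ℝ} (hc : Cnd x1 x2 x3) :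
    v33 x1 x2 x3 = v96 x1 x2 x3 + x2 * v99 x1 x2 x3 := ssqrt (sa_32 hc) hc.1 hc.2.1

theorem sa_34 {x1 x2 x3 : ℝ} (hc : Cnd x1 x2 x3) :
    v34 x1 x2 x3 = v100 x1 x2 x3 + x2 * v101 x1 x2 x3 := smulr (sa_33 hc)

theorem sa_36 {x1 x2 x3 : ℝ} (hc : Cnd x1 x2 x3) :
    v36 x1 x2 x3 = v102 x1 x2 x3 + x2 * v101 x1 x2 x3 := ssubl (sa_34 hc)

theorem sa_38 {x1 x2 x3 : ℝ} (hc : Cnd x1 x2 x3) :
    v38 x1 x2 x3 = v103 x1 x2 x3 + x2 * v101 x1 x2 x3 := ssubl (sa_36 hc)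

theorem sa_45 {x1 x2 x3 : ℝ} (hc : Cnd x1 x2 x3) :
    v45 x1 x2 x3 = v104 x1 x2 x3 + x2 * v105 x1 x2 x3 := ssubr (sa_17 hc)

theorem sa_46 {x1 x2 x3 : ℝ} (hc : Cnd x1 x2 x3) :
    v46 x1 x2 x3 = v106 x1 x2 x3 + x2 * v108 x1 x2 x3 := ssq (sa_45 hc)

theorem sa_47 {x1 x2 x3 : ℝ} (hc : Cnd x1 x2 x3) :
    v47 x1 x2 x3 = v109 x1 x2 x3 + x2 * v110 x1 x2 x3 := ssubr (sa_46 hc)

theorem sa_48 {x1 x2 x3 : ℝ} (hc : Cnd x1 x2 x3) :
    v48 x1 x2 x3 = v111 x1 x2 x3 + x2 * v114 x1 x2 x3 := ssqrt (sa_47 hc) hc.2.2.1 hc.2.2.2.1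

theorem sa_53 {x1 x2 x3 : ℝ} (hc : Cnd x1 x2 x3) :
    v53 x1 x2 x3 = v115 x1 x2 x3 + x2 * v116 x1 x2 x3 := smulr (sa_48 hc)

theorem sa_55 {x1 x2 x3 : ℝ} (hc : Cnd x1 x2 x3) :
    v55 x1 x2 x3 = v117 x1 x2 x3 + x2 * v116 x1 x2 x3 := ssubl (sa_53 hc)

theorem sa_56 {x1 x2 x3 : ℝ} (hc : Cnd x1 x2 x3) :
    v56 x1 x2 x3 = v118 x1 x2 x3 + x2 * v116 x1 x2 x3 := ssubl (sa_55 hc)

theorem sa_58 {x1 x2 x3 : ℝ} (hc : Cnd x1 x2 x3) :
    v58 x1 x2 x3 = v119 x1 x2 x3 + x2 * v116 x1 x2 x3 := saddl (sa_56 hc)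

theorem sa_63 {x1 x2 x3 : ℝ} (hc : Cnd x1 x2 x3) :
    v63 x1 x2 x3 = v120 x1 x2 x3 + x2 * v105 x1 x2 x3 := ssubr (sa_17 hc)

theorem sa_64 {x1 x2 x3 : ℝ} (hc : Cnd x1 x2 x3) :
    v64 x1 x2 x3 = v121 x1 x2 x3 + x2 * v123 x1 x2 x3 := ssq (sa_63 hc)

theorem sa_65 {x1 x2 x3 : ℝ} (hc : Cnd x1 x2 x3) :
    v65 x1 x2 x3 = v124 x1 x2 x3 + x2 * v125 x1 x2 x3 := ssubr (sa_64 hc)

theorem sa_66 {x1 x2 x3 : ℝ} (hc : Cnd x1 x2 x3) :
    v66 x1 x2 x3 = v126 x1 x2 x3 + x2 * v129 x1 x2 x3 := ssqrt (sa_65 hc) hc.2.2.2.2.1 hc.2.2.2.2.2.1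

theorem sa_68 {x1 x2 x3 : ℝ} (hc : Cnd x1 x2 x3) :
    v68 x1 x2 x3 = v130 x1 x2 x3 + x2 * v129 x1 x2 x3 := ssubl (sa_66 hc)

theorem sa_69 {x1 x2 x3 : ℝ} (hc : Cnd x1 x2 x3) :
    v69 x1 x2 x3 = v131 x1 x2 x3 + x2 * v129 x1 x2 x3 := ssubl (sa_68 hc)

theorem sa_70 {x1 x2 x3 : ℝ} (hc : Cnd x1 x2 x3) :
    v70 x1 x2 x3 = v132 x1 x2 x3 + x2 * v129 x1 x2 x3 := saddl (sa_69 hc)

theorem sa_71 {x1 x2 x3 : ℝ} (hc : Cnd x1 x2 x3) :
    v71 x1 x2 x3 = v133 x1 x2 x3 + x2 * v129 x1 x2 x3 := saddl (sa_70 hc)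

theorem sa_72 {x1 x2 x3 : ℝ} (hc : Cnd x1 x2 x3) :
    v72 x1 x2 x3 = v134 x1 x2 x3 + x2 * v129 x1 x2 x3 := saddl (sa_71 hc)

theorem sa_26 {x1 x2 x3 : ℝ} (hc : Cnd x1 x2 x3) :
    v26 x1 x2 x3 = v135 x1 x2 x3 + x2 * v90 x1 x2 x3 := saddl (sa_17 hc)

theorem sa_39 {x1 x2 x3 : ℝ} (hc : Cnd x1 x2 x3) :
    v39 x1 x2 x3 = v136 x1 x2 x3 + x2 * v90 x1 x2 x3 := ssubl (sa_26 hc)

theorem sa_40 {x1 x2 x3 : ℝ} (hc : Cnd x1 x2 x3) :
    v40 x1 x2 x3 = v137 x1 x2 x3 + x2 * v139 x1 x2 x3 := ssq (sa_39 hc)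

theorem sa_41 {x1 x2 x3 : ℝ} (hc : Cnd x1 x2 x3) :
    v41 x1 x2 x3 = v140 x1 x2 x3 + x2 * v141 x1 x2 x3 := ssubr (sa_40 hc)

theorem sa_42 {x1 x2 x3 : ℝ} (hc : Cnd x1 x2 x3) :
    v42 x1 x2 x3 = v142 x1 x2 x3 + x2 * v145 x1 x2 x3 := ssqrt (sa_41 hc) hc.2.2.2.2.2.2.1 hc.2.2.2.2.2.2.2.1

theorem sa_61 {x1 x2 x3 : ℝ} (hc : Cnd x1 x2 x3) :
    v61 x1 x2 x3 = v146 x1 x2 x3 + x2 * v145 x1 x2 x3 := saddl (sa_42 hc)

theorem sa_62 {x1 x2 x3 : ℝ} (hc : Cnd x1 x2 x3) :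
    v62 x1 x2 x3 = v147 x1 x2 x3 + x2 * v145 x1 x2 x3 := ssubl (sa_61 hc)

theorem sa_73 {x1 x2 x3 : ℝ} (hc : Cnd x1 x2 x3) :
    v73 x1 x2 x3 = v148 x1 x2 x3 + x2 * v149 x1 x2 x3 := ssub (sa_72 hc) (sa_62 hc)

theorem sa_79 {x1 x2 x3 : ℝ} (hc : Cnd x1 x2 x3) :
    v79 x1 x2 x3 = v150 x1 x2 x3 + x2 * v151 x1 x2 x3 := sadd (sa_58 hc) (sa_73 hc)

theorem sa_80 {x1 x2 x3 : ℝ} (hc : Cnd x1 x2 x3) :
    v80 x1 x2 x3 = v152 x1 x2 x3 + x2 * v153 x1 x2 x3 := smulr (sa_79 hc)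

theorem sa_81 {x1 x2 x3 : ℝ} (hc : Cnd x1 x2 x3) :
    v81 x1 x2 x3 = v154 x1 x2 x3 + x2 * v155 x1 x2 x3 := sadd (sa_38 hc) (sa_80 hc)

theorem sa_74 {x1 x2 x3 : ℝ} (hc : Cnd x1 x2 x3) :
    v74 x1 x2 x3 = v156 x1 x2 x3 + x2 * v116 x1 x2 x3 := saddl (sa_55 hc)

theorem sa_25 {x1 x2 x3 : ℝ} (hc : Cnd x1 x2 x3) :
    v25 x1 x2 x3 = v157 x1 x2 x3 + x2 * v90 x1 x2 x3 := saddl (sa_17 hc)

theorem sa_49 {x1 x2 x3 : ℝ} (hc : Cnd x1 x2 x3) :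
    v49 x1 x2 x3 = v158 x1 x2 x3 + x2 * v90 x1 x2 x3 := ssubl (sa_25 hc)

theorem sa_50 {x1 x2 x3 : ℝ} (hc : Cnd x1 x2 x3) :
    v50 x1 x2 x3 = v159 x1 x2 x3 + x2 * v161 x1 x2 x3 := ssq (sa_49 hc)

theorem sa_51 {x1 x2 x3 : ℝ} (hc : Cnd x1 x2 x3) :
    v51 x1 x2 x3 = v162 x1 x2 x3 + x2 * v163 x1 x2 x3 := ssubr (sa_50 hc)

theorem sa_52 {x1 x2 x3 : ℝ} (hc : Cnd x1 x2 x3) :
    v52 x1 x2 x3 = v164 x1 x2 x3 + x2 * v167 x1 x2 x3 := ssqrt (sa_51 hc) hc.2.2.2.2.2.2.2.2.1 hc.2.2.2.2.2.2.2.2.2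

theorem sa_77 {x1 x2 x3 : ℝ} (hc : Cnd x1 x2 x3) :
    v77 x1 x2 x3 = v168 x1 x2 x3 + x2 * v169 x1 x2 x3 := ssubr (sa_52 hc)

theorem sa_78 {x1 x2 x3 : ℝ} (hc : Cnd x1 x2 x3) :
    v78 x1 x2 x3 = v170 x1 x2 x3 + x2 * v171 x1 x2 x3 := ssub (sa_77 hc) (sa_42 hc)

theorem sa_82 {x1 x2 x3 : ℝ} (hc : Cnd x1 x2 x3) :
    v82 x1 x2 x3 = v172 x1 x2 x3 + x2 * v173 x1 x2 x3 := sadd (sa_74 hc) (sa_78 hc)

theorem sa_83 {x1 x2 x3 : ℝ} (hc : Cnd x1 x2 x3) :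
    v83 x1 x2 x3 = v174 x1 x2 x3 + x2 * v175 x1 x2 x3 := smulr (sa_82 hc)

theorem sa_84 {x1 x2 x3 : ℝ} (hc : Cnd x1 x2 x3) :
    v84 x1 x2 x3 = v176 x1 x2 x3 + x2 * v177 x1 x2 x3 := sadd (sa_81 hc) (sa_83 hc)

section

variable (s a p : ℝ)

theorem w0 : v0 s a p = (2 * h0) := by unfold v0 h0; push_cast; ring

theorem w1 : v1 s a p = h0 := by unfold v1; rw [w0]; unfold h0; push_cast; ring

theorem w2 : v2 s a p = s := rfl

theorem w3 : v3 s a p = a := rfl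

theorem w4 : v4 s a p = p := rfl

theorem w5 : v5 s a p = (p ^ 2) := by rw [v5, w4]

theorem w6 : v6 s a p = 1 := by unfold v6; norm_num

theorem w7 : v7 s a p = (1 - (p ^ 2)) := by rw [v7, w6, w5]

theorem w8 : v8 s a p = (g p) := by unfold v8; rw [w7]; rfl

theorem w9 : v9 s a p = (h0 * (g p)) := by rw [v9, w1, w8]

theorem w10 : v10 s a p = (1 / 2 * p) := by simp only [v10, w4, Nat.cast_ofNat, Nat.cast_one]

theorem w12 : v12 s a p = (ext p) := by rw [v12, w10, w9]; unfold ext; ring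

theorem w13 : v13 s a p = (1 / 2 * (g p)) := by simp only [v13, w8, Nat.cast_ofNat, Nat.cast_one]

theorem w14 : v14 s a p = (h0 * p) := by rw [v14, w1, w4]

theorem w15 : v15 s a p = ((1 / 2 * (g p)) + (h0 * p)) := by rw [v15, w13, w14]

theorem w17 : v17 s a p = (h0 - a) := by rw [v17, w1, w3]

theorem w18 : v18 s a p = (s ^ 2) := by rw [v18, w2]

theorem w19 : v19 s a p = (1 - (s ^ 2)) := by rw [v19, w6, w18]

theorem w20 : v20 s a p = (g s) := by unfold v20; rw [w19]; rfl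

theorem w21 : v21 s a p = (17 / 50 * s) := by simp only [v21, w2, Nat.cast_ofNat, Nat.cast_one]

theorem w22 : v22 s a p = ((17 / 50 * s) ^ 2) := by rw [v22, w21]

theorem w23 : v23 s a p = (1 - ((17 / 50 * s) ^ 2)) := by rw [v23, w6, w22]

theorem w24 : v24 s a p = (g (17 / 50 * s)) := by unfold v24; rw [w23]; rfl

theorem w25 : v25 s a p = ((h0 - a) + (ext p)) := by rw [v25, w17, w12]

theorem w26 : v26 s a p = ((h0 - a) + p) := by rw [v26, w17, w4]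

theorem w30 : v30 s a p = (h0 + s) := by rw [v30, w1, w2]

theorem w31 : v31 s a p = ((h0 - a) ^ 2) := by rw [v31, w17]

theorem w32 : v32 s a p = (1 - ((h0 - a) ^ 2)) := by rw [v32, w6, w31]

theorem w33 : v33 s a p = (g (h0 - a)) := by unfold v33; rw [w32]; rfl

theorem w34 : v34 s a p = (8 * (g (h0 - a))) := by simp only [v34, w33, Nat.cast_ofNat, Nat.cast_one]

theorem w35 : v35 s a p = 4 := by unfold v35; norm_num

theorem w36 : v36 s a p = ((8 * (g (h0 - a))) - 4) := by rw [v36, w34, w35]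

theorem w37 : v37 s a p = (4 * (g s)) := by simp only [v37, w20, Nat.cast_ofNat, Nat.cast_one]

theorem w38 : v38 s a p = (((8 * (g (h0 - a))) - 4) - (4 * (g s))) := by rw [v38, w36, w37]

theorem w39 : v39 s a p = (((h0 - a) + p) - h0) := by rw [v39, w26, w1]

theorem w40 : v40 s a p = ((((h0 - a) + p) - h0) ^ 2) := by rw [v40, w39]

theorem w41 : v41 s a p = (1 - ((((h0 - a) + p) - h0) ^ 2)) := by rw [v41, w6, w40]

theorem w42 : v42 s a p = (g (((h0 - a) + p) - h0)) := by unfold v42; rw [w41]; rfl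

theorem w45 : v45 s a p = ((h0 + s) - (h0 - a)) := by rw [v45, w30, w17]

theorem w46 : v46 s a p = (((h0 + s) - (h0 - a)) ^ 2) := by rw [v46, w45]

theorem w47 : v47 s a p = (1 - (((h0 + s) - (h0 - a)) ^ 2)) := by rw [v47, w6, w46]

theorem w48 : v48 s a p = (g ((h0 + s) - (h0 - a))) := by unfold v48; rw [w47]; rfl

theorem w49 : v49 s a p = (((h0 - a) + (ext p)) - h0) := by rw [v49, w25, w1]

theorem w50 : v50 s a p = ((((h0 - a) + (ext p)) - h0) ^ 2) := by rw [v50, w49]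

theorem w51 : v51 s a p = (1 - ((((h0 - a) + (ext p)) - h0) ^ 2)) := by rw [v51, w6, w50]

theorem w52 : v52 s a p = (g (((h0 - a) + (ext p)) - h0)) := by unfold v52; rw [w51]; rfl

theorem w53 : v53 s a p = (2 * (g ((h0 + s) - (h0 - a)))) := by simp only [v53, w48, Nat.cast_ofNat, Nat.cast_one]

theorem w54 : v54 s a p = (2 * (g s)) := by simp only [v54, w20, Nat.cast_ofNat, Nat.cast_one]

theorem w55 : v55 s a p = ((2 * (g ((h0 + s) - (h0 - a)))) - (2 * (g s))) := by rw [v55, w53, w54]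

theorem w56 : v56 s a p = (((2 * (g ((h0 + s) - (h0 - a)))) - (2 * (g s))) - 1) := by rw [v56, w55, w6]

theorem w57 : v57 s a p = (2 * (g (17 / 50 * s))) := by simp only [v57, w24, Nat.cast_ofNat, Nat.cast_one]

theorem w58 : v58 s a p = ((((2 * (g ((h0 + s) - (h0 - a)))) - (2 * (g s))) - 1) + (2 * (g (17 / 50 * s)))) := by rw [v58, w56, w57]

theorem w61 : v61 s a p = ((g (((h0 - a) + p) - h0)) + (g (17 / 50 * s))) := by rw [v61, w42, w24]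

theorem w62 : v62 s a p = (((g (((h0 - a) + p) - h0)) + (g (17 / 50 * s))) - (g s)) := by rw [v62, w61, w20]

theorem w63 : v63 s a p = ((2 * h0) - (h0 - a)) := by rw [v63, w0, w17]

theorem w64 : v64 s a p = (((2 * h0) - (h0 - a)) ^ 2) := by rw [v64, w63]

theorem w65 : v65 s a p = (1 - (((2 * h0) - (h0 - a)) ^ 2)) := by rw [v65, w6, w64]

theorem w66 : v66 s a p = (g ((2 * h0) - (h0 - a))) := by unfold v66; rw [w65]; rfl

theorem w67 : v67 s a p = (1 / 2) := by unfold v67; norm_num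

theorem w68 : v68 s a p = ((g ((2 * h0) - (h0 - a))) - (1 / 2)) := by rw [v68, w66, w67]

theorem w69 : v69 s a p = (((g ((2 * h0) - (h0 - a))) - (1 / 2)) - (g (17 / 50 * s))) := by rw [v69, w68, w24]

theorem w70 : v70 s a p = ((((g ((2 * h0) - (h0 - a))) - (1 / 2)) - (g (17 / 50 * s))) + (g s)) := by rw [v70, w69, w20]

theorem w71 : v71 s a p = (((((g ((2 * h0) - (h0 - a))) - (1 / 2)) - (g (17 / 50 * s))) + (g s)) + (g p)) := by rw [v71, w70, w8]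

theorem w72 : v72 s a p = ((((((g ((2 * h0) - (h0 - a))) - (1 / 2)) - (g (17 / 50 * s))) + (g s)) + (g p)) + 1) := by rw [v72, w71, w6]

theorem w73 : v73 s a p = (((((((g ((2 * h0) - (h0 - a))) - (1 / 2)) - (g (17 / 50 * s))) + (g s)) + (g p)) + 1) - (((g (((h0 - a) + p) - h0)) + (g (17 / 50 * s))) - (g s))) := by rw [v73, w72, w62]

theorem w74 : v74 s a p = (((2 * (g ((h0 + s) - (h0 - a)))) - (2 * (g s))) + 1) := by rw [v74, w55, w6]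

theorem w75 : v75 s a p = (((1 / 2 * (g p)) + (h0 * p)) - 1) := by rw [v75, w15, w6]

theorem w76 : v76 s a p = ((((1 / 2 * (g p)) + (h0 * p)) - 1) + (2 * (g s))) := by rw [v76, w75, w54]

theorem w77 : v77 s a p = (((((1 / 2 * (g p)) + (h0 * p)) - 1) + (2 * (g s))) - (g (((h0 - a) + (ext p)) - h0))) := by rw [v77, w76, w52]

theorem w78 : v78 s a p = ((((((1 / 2 * (g p)) + (h0 * p)) - 1) + (2 * (g s))) - (g (((h0 - a) + (ext p)) - h0))) - (g (((h0 - a) + p) - h0))) := by rw [v78, w77, w42]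

theorem w79 : v79 s a p = (((((2 * (g ((h0 + s) - (h0 - a)))) - (2 * (g s))) - 1) + (2 * (g (17 / 50 * s)))) + (((((((g ((2 * h0) - (h0 - a))) - (1 / 2)) - (g (17 / 50 * s))) + (g s)) + (g p)) + 1) - (((g (((h0 - a) + p) - h0)) + (g (17 / 50 * s))) - (g s)))) := by rw [v79, w58, w73]

theorem w80 : v80 s a p = (9 / 5 * (((((2 * (g ((h0 + s) - (h0 - a)))) - (2 * (g s))) - 1) + (2 * (g (17 / 50 * s)))) + (((((((g ((2 * h0) - (h0 - a))) - (1 / 2)) - (g (17 / 50 * s))) + (g s)) + (g p)) + 1) - (((g (((h0 - a) + p) - h0)) + (g (17 / 50 * s))) - (g s))))) := by simp only [v80, w79, Nat.cast_ofNat, Nat.cast_one]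

theorem w81 : v81 s a p = ((((8 * (g (h0 - a))) - 4) - (4 * (g s))) + (9 / 5 * (((((2 * (g ((h0 + s) - (h0 - a)))) - (2 * (g s))) - 1) + (2 * (g (17 / 50 * s)))) + (((((((g ((2 * h0) - (h0 - a))) - (1 / 2)) - (g (17 / 50 * s))) + (g s)) + (g p)) + 1) - (((g (((h0 - a) + p) - h0)) + (g (17 / 50 * s))) - (g s)))))) := by rw [v81, w38, w80]

theorem w82 : v82 s a p = ((((2 * (g ((h0 + s) - (h0 - a)))) - (2 * (g s))) + 1) + ((((((1 / 2 * (g p)) + (h0 * p)) - 1) + (2 * (g s))) - (g (((h0 - a) + (ext p)) - h0))) - (g (((h0 - a) + p) - h0)))) := by rw [v82, w74, w78]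

theorem w83 : v83 s a p = (1 / 5 * ((((2 * (g ((h0 + s) - (h0 - a)))) - (2 * (g s))) + 1) + ((((((1 / 2 * (g p)) + (h0 * p)) - 1) + (2 * (g s))) - (g (((h0 - a) + (ext p)) - h0))) - (g (((h0 - a) + p) - h0))))) := by simp only [v83, w82, Nat.cast_ofNat, Nat.cast_one]

theorem w84 : v84 s a p = (((((8 * (g (h0 - a))) - 4) - (4 * (g s))) + (9 / 5 * (((((2 * (g ((h0 + s) - (h0 - a)))) - (2 * (g s))) - 1) + (2 * (g (17 / 50 * s)))) + (((((((g ((2 * h0) - (h0 - a))) - (1 / 2)) - (g (17 / 50 * s))) + (g s)) + (g p)) + 1) - (((g (((h0 - a) + p) - h0)) + (g (17 / 50 * s))) - (g s)))))) + (1 / 5 * ((((2 * (g ((h0 + s) - (h0 - a)))) - (2 * (g s))) + 1) + ((((((1 / 2 * (g p)) + (h0 * p)) - 1) + (2 * (g s))) - (g (((h0 - a) + (ext p)) - h0))) - (g (((h0 - a) + p) - h0)))))) := by rw [v84, w81, w83]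

theorem w85 : v85 s a p = ((h0 + s) - ((h0 - a) + p)) := by rw [v85, w30, w26]

theorem w86 : v86 s a p = ((2 * h0) - ((h0 - a) + (ext p))) := by rw [v86, w0, w25]

theorem w87 : v87 s a p = (s - (h0 - a)) := by rw [v87, w2, w17]

theorem w88 : v88 s a p = 0 := by unfold v88; norm_num

theorem w89 : v89 s a p = (h0 - 0) := by rw [v89, w1, w88]

theorem w91 : v91 s a p = ((h0 - 0) ^ 2) := by rw [v91, w89]

theorem w94 : v94 s a p = (1 - ((h0 - 0) ^ 2)) := by rw [v94, w6, w91]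

theorem w96 : v96 s a p = (g (h0 - 0)) := by unfold v96; rw [w94]; rfl

theorem w100 : v100 s a p = (8 * (g (h0 - 0))) := by simp only [v100, w96, Nat.cast_ofNat, Nat.cast_one]

theorem w102 : v102 s a p = ((8 * (g (h0 - 0))) - 4) := by rw [v102, w100, w35]

theorem w103 : v103 s a p = (((8 * (g (h0 - 0))) - 4) - (4 * (g s))) := by rw [v103, w102, w37]

theorem w104 : v104 s a p = ((h0 + s) - (h0 - 0)) := by rw [v104, w30, w89]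

theorem w106 : v106 s a p = (((h0 + s) - (h0 - 0)) ^ 2) := by rw [v106, w104]

theorem w109 : v109 s a p = (1 - (((h0 + s) - (h0 - 0)) ^ 2)) := by rw [v109, w6, w106]

theorem w111 : v111 s a p = (g ((h0 + s) - (h0 - 0))) := by unfold v111; rw [w109]; rfl

theorem w115 : v115 s a p = (2 * (g ((h0 + s) - (h0 - 0)))) := by simp only [v115, w111, Nat.cast_ofNat, Nat.cast_one]

theorem w117 : v117 s a p = ((2 * (g ((h0 + s) - (h0 - 0)))) - (2 * (g s))) := by rw [v117, w115, w54]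

theorem w118 : v118 s a p = (((2 * (g ((h0 + s) - (h0 - 0)))) - (2 * (g s))) - 1) := by rw [v118, w117, w6]

theorem w119 : v119 s a p = ((((2 * (g ((h0 + s) - (h0 - 0)))) - (2 * (g s))) - 1) + (2 * (g (17 / 50 * s)))) := by rw [v119, w118, w57]

theorem w120 : v120 s a p = ((2 * h0) - (h0 - 0)) := by rw [v120, w0, w89]

theorem w121 : v121 s a p = (((2 * h0) - (h0 - 0)) ^ 2) := by rw [v121, w120]

theorem w124 : v124 s a p = (1 - (((2 * h0) - (h0 - 0)) ^ 2)) := by rw [v124, w6, w121]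

theorem w126 : v126 s a p = (g ((2 * h0) - (h0 - 0))) := by unfold v126; rw [w124]; rfl

theorem w130 : v130 s a p = ((g ((2 * h0) - (h0 - 0))) - (1 / 2)) := by rw [v130, w126, w67]

theorem w131 : v131 s a p = (((g ((2 * h0) - (h0 - 0))) - (1 / 2)) - (g (17 / 50 * s))) := by rw [v131, w130, w24]

theorem w132 : v132 s a p = ((((g ((2 * h0) - (h0 - 0))) - (1 / 2)) - (g (17 / 50 * s))) + (g s)) := by rw [v132, w131, w20]

theorem w133 : v133 s a p = (((((g ((2 * h0) - (h0 - 0))) - (1 / 2)) - (g (17 / 50 * s))) + (g s)) + (g p)) := by rw [v133, w132, w8]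

theorem w134 : v134 s a p = ((((((g ((2 * h0) - (h0 - 0))) - (1 / 2)) - (g (17 / 50 * s))) + (g s)) + (g p)) + 1) := by rw [v134, w133, w6]

theorem w135 : v135 s a p = ((h0 - 0) + p) := by rw [v135, w89, w4]

theorem w136 : v136 s a p = (((h0 - 0) + p) - h0) := by rw [v136, w135, w1]

theorem w137 : v137 s a p = ((((h0 - 0) + p) - h0) ^ 2) := by rw [v137, w136]

theorem w140 : v140 s a p = (1 - ((((h0 - 0) + p) - h0) ^ 2)) := by rw [v140, w6, w137]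

theorem w142 : v142 s a p = (g (((h0 - 0) + p) - h0)) := by unfold v142; rw [w140]; rfl

theorem w146 : v146 s a p = ((g (((h0 - 0) + p) - h0)) + (g (17 / 50 * s))) := by rw [v146, w142, w24]

theorem w147 : v147 s a p = (((g (((h0 - 0) + p) - h0)) + (g (17 / 50 * s))) - (g s)) := by rw [v147, w146, w20]

theorem w148 : v148 s a p = (((((((g ((2 * h0) - (h0 - 0))) - (1 / 2)) - (g (17 / 50 * s))) + (g s)) + (g p)) + 1) - (((g (((h0 - 0) + p) - h0)) + (g (17 / 50 * s))) - (g s))) := by rw [v148, w134, w147]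

theorem w150 : v150 s a p = (((((2 * (g ((h0 + s) - (h0 - 0)))) - (2 * (g s))) - 1) + (2 * (g (17 / 50 * s)))) + (((((((g ((2 * h0) - (h0 - 0))) - (1 / 2)) - (g (17 / 50 * s))) + (g s)) + (g p)) + 1) - (((g (((h0 - 0) + p) - h0)) + (g (17 / 50 * s))) - (g s)))) := by rw [v150, w119, w148]

theorem w152 : v152 s a p = (9 / 5 * (((((2 * (g ((h0 + s) - (h0 - 0)))) - (2 * (g s))) - 1) + (2 * (g (17 / 50 * s)))) + (((((((g ((2 * h0) - (h0 - 0))) - (1 / 2)) - (g (17 / 50 * s))) + (g s)) + (g p)) + 1) - (((g (((h0 - 0) + p) - h0)) + (g (17 / 50 * s))) - (g s))))) := by simp only [v152, w150, Nat.cast_ofNat, Nat.cast_one]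

theorem w154 : v154 s a p = ((((8 * (g (h0 - 0))) - 4) - (4 * (g s))) + (9 / 5 * (((((2 * (g ((h0 + s) - (h0 - 0)))) - (2 * (g s))) - 1) + (2 * (g (17 / 50 * s)))) + (((((((g ((2 * h0) - (h0 - 0))) - (1 / 2)) - (g (17 / 50 * s))) + (g s)) + (g p)) + 1) - (((g (((h0 - 0) + p) - h0)) + (g (17 / 50 * s))) - (g s)))))) := by rw [v154, w103, w152]

theorem w156 : v156 s a p = (((2 * (g ((h0 + s) - (h0 - 0)))) - (2 * (g s))) + 1) := by rw [v156, w117, w6]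

theorem w157 : v157 s a p = ((h0 - 0) + (ext p)) := by rw [v157, w89, w12]

theorem w158 : v158 s a p = (((h0 - 0) + (ext p)) - h0) := by rw [v158, w157, w1]

theorem w159 : v159 s a p = ((((h0 - 0) + (ext p)) - h0) ^ 2) := by rw [v159, w158]

theorem w162 : v162 s a p = (1 - ((((h0 - 0) + (ext p)) - h0) ^ 2)) := by rw [v162, w6, w159]

theorem w164 : v164 s a p = (g (((h0 - 0) + (ext p)) - h0)) := by unfold v164; rw [w162]; rfl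

theorem w168 : v168 s a p = (((((1 / 2 * (g p)) + (h0 * p)) - 1) + (2 * (g s))) - (g (((h0 - 0) + (ext p)) - h0))) := by rw [v168, w76, w164]

theorem w170 : v170 s a p = ((((((1 / 2 * (g p)) + (h0 * p)) - 1) + (2 * (g s))) - (g (((h0 - 0) + (ext p)) - h0))) - (g (((h0 - 0) + p) - h0))) := by rw [v170, w168, w142]

theorem w172 : v172 s a p = ((((2 * (g ((h0 + s) - (h0 - 0)))) - (2 * (g s))) + 1) + ((((((1 / 2 * (g p)) + (h0 * p)) - 1) + (2 * (g s))) - (g (((h0 - 0) + (ext p)) - h0))) - (g (((h0 - 0) + p) - h0)))) := by rw [v172, w156, w170]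

theorem w174 : v174 s a p = (1 / 5 * ((((2 * (g ((h0 + s) - (h0 - 0)))) - (2 * (g s))) + 1) + ((((((1 / 2 * (g p)) + (h0 * p)) - 1) + (2 * (g s))) - (g (((h0 - 0) + (ext p)) - h0))) - (g (((h0 - 0) + p) - h0))))) := by simp only [v174, w172, Nat.cast_ofNat, Nat.cast_one]

theorem w176 : v176 s a p = (((((8 * (g (h0 - 0))) - 4) - (4 * (g s))) + (9 / 5 * (((((2 * (g ((h0 + s) - (h0 - 0)))) - (2 * (g s))) - 1) + (2 * (g (17 / 50 * s)))) + (((((((g ((2 * h0) - (h0 - 0))) - (1 / 2)) - (g (17 / 50 * s))) + (g s)) + (g p)) + 1) - (((g (((h0 - 0) + p) - h0)) + (g (17 / 50 * s))) - (g s)))))) + (1 / 5 * ((((2 * (g ((h0 + s) - (h0 - 0)))) - (2 * (g s))) + 1) + ((((((1 / 2 * (g p)) + (h0 * p)) - 1) + (2 * (g s))) - (g (((h0 - 0) + (ext p)) - h0))) - (g (((h0 - 0) + p) - h0)))))) := by rw [v176, w154, w174]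

end

theorem f00 {s a p : ℝ} (hl1 : 66 / 125 ≤ s) (hu1 : s ≤ 57 / 100) (hl2 : 0 ≤ a) (hu2 : a ≤ 1 / 80) (hl3 : 1 / 2 ≤ p) (hu3 : p ≤ 8661 / 10000) (hp1 : 0 ≤ a) (hh1 : 1 / 2 ≤ p) (hh2 : p ≤ 1): 0 ≤ v176 s a p := by
  rw [w176]
  simp only [add_zero, sub_zero, mul_zero, zero_mul, zero_add, gh0, qh0, Gh0, sub_self, add_sub_cancel_right, add_sub_cancel_left, g_zero, gext hh1 hh2]
  apply le_of_eq
  first
    | (ring_nf; done)
    | (ring_nf; linarith [gh0])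

theorem c_ok : chk f 60 ⟨589484261, 0, 22548579, 6710886, 0, 6710887, 733419352, 0, 196548442⟩ = true := by decide +kernel

theorem main {s a p : ℝ} (hl1 : 66 / 125 ≤ s) (hu1 : s ≤ 57 / 100) (hl2 : 0 ≤ a) (hu2 : a ≤ 1 / 80) (hl3 : 1 / 2 ≤ p) (hu3 : p ≤ 8661 / 10000) (hp1 : 0 ≤ a) (hh1 : 1 / 2 ≤ p) (hh2 : p ≤ 1):
    0 ≤ (((((8 * (g (h0 - a))) - 4) - (4 * (g s))) + (9 / 5 * (((((2 * (g ((h0 + s) - (h0 - a)))) - (2 * (g s))) - 1) + (2 * (g (17 / 50 * s)))) + (((((((g ((2 * h0) - (h0 - a))) - (1 / 2)) - (g (17 / 50 * s))) + (g s)) + (g p)) + 1) - (((g (((h0 - a) + p) - h0)) + (g (17 / 50 * s))) - (g s)))))) + (1 / 5 * ((((2 * (g ((h0 + s) - (h0 - a)))) - (2 * (g s))) + 1) + ((((((1 / 2 * (g p)) + (h0 * p)) - 1) + (2 * (g s))) - (g (((h0 - a) + (ext p)) - h0))) - (g (((h0 - a) + p) - h0)))))) ∨ (0 < ((h0 + s) - ((h0 - a) + p))) ∨ (0 < ((2 * h0) - ((h0 - a)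 + (ext p)))) ∨ (0 < (s - (h0 - a))) := by
  have hm : Mem S ⟨589484261, 0, 22548579, 6710886, 0, 6710887, 733419352, 0, 196548442⟩ s a p := by
    refine ⟨?_, ?_, ?_⟩ <;> norm_num only [S] <;> rw [abs_le] <;> constructor <;> linarith
  have h := chk_sound f_sound 60 _ c_ok s a p hm
  unfold Q at h
  rcases h with ⟨q1, hc⟩ | h
  · refine Or.inl ?_
    rw [← w84]
    have e0 := f00 hl1 hu1 hl2 hu2 hl3 hu3 hp1 hh1 hh2
    rw [sa_84 hc]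
    have m1 := mul_nonneg hp1 q1.le
    linarith
  · refine Or.inr ?_
    rw [w85, w86, w87] at h
    exact h

end Pool.Agent.Strip051.FourE.NUcc
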