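import Pool.Agent.Strip051.Box.B3
import Pool.Agent.Strip051.FourE.Slope

/-! # Generated boxes: TLba  -/

set_option maxRecDepth 100000
set_option linter.unusedVariables false

namespace Pool.Agent.Strip051.FourE.TLba

open Pool.Agent.Strip051.Box Pool.Agent.Strip051.Box3
open Pool.Agent.StripNear (h0)
open Pool.Agent.StripSquare (g g_zero)
open Pool.Agent.Strip051 (ext)

abbrev S : Nat := 1073741824

theorem hS : 0 < S := by decide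

def In (b : Bx) (E : Pt) (x1 x2 x3 : ℝ) : Prop :=
  (S : ℝ) * x1 = ((b.p1 : ℝ) - b.n1) + b.q1 * E.e1 ∧ (S : ℝ) * x2 = ((b.p2 : ℝ) - b.n2) + b.q2 * E.e2 ∧ (S : ℝ) * x3 = ((b.p3 : ℝ) - b.n3) + b.q3 * E.e3

section

variable {b : Bx} {E : Pt} {x1 x2 x3 : ℝ}

def t0 (_b : Bx) : TM := tconst 1859775393 0 1
noncomputable def v0 (_x1 _x2 _x3 : ℝ) : ℝ := Real.sqrt ((3 : ℕ) : ℝ)
theorem en0 (_h : In b E x1 x2 x3) : Enc S E (t0 b) (v0 x1 x2 x3) := enc_sqrtn E (by decide) (by decide)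

def t1 (b : Bx) : TM := tscale 1 2 (t0 b)
noncomputable def v1 (x1 x2 x3 : ℝ) : ℝ := ((1 : ℕ) : ℝ) / ((2 : ℕ) : ℝ) * v0 x1 x2 x3
theorem en1 (h : In b E x1 x2 x3) : Enc S E (t1 b) (v1 x1 x2 x3) := enc_scale 1 (by norm_num) (en0 h)

def t2 (b : Bx) : TM := X1 b
noncomputable def v2 (x1 _x2 _x3 : ℝ) : ℝ := x1
theorem en2 (h : In b E x1 x2 x3) : Enc S E (t2 b) (v2 x1 x2 x3) := enc_X1 h.1

def t3 (b : Bx) : TM := X2 b
noncomputable def v3 (_x1 x2 _x3 : ℝ) : ℝ := x2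
theorem en3 (h : In b E x1 x2 x3) : Enc S E (t3 b) (v3 x1 x2 x3) := enc_X2 h.2.1

def t4 (b : Bx) : TM := X3 b
noncomputable def v4 (_x1 _x2 x3 : ℝ) : ℝ := x3
theorem en4 (h : In b E x1 x2 x3) : Enc S E (t4 b) (v4 x1 x2 x3) := enc_X3 h.2.2

def t5 (b : Bx) : TM := tsub (t1 b) (t4 b)
noncomputable def v5 (x1 x2 x3 : ℝ) : ℝ := v1 x1 x2 x3 - v4 x1 x2 x3
theorem en5 (h : In b E x1 x2 x3) : Enc S E (t5 b) (v5 x1 x2 x3) := enc_sub (en1 h) (en4 h)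

def t6 (b : Bx) : TM := tsq S (t5 b)
noncomputable def v6 (x1 x2 x3 : ℝ) : ℝ := (v5 x1 x2 x3) ^ 2
theorem en6 (h : In b E x1 x2 x3) : Enc S E (t6 b) (v6 x1 x2 x3) := enc_sq hS (en5 h)

def t7 (_b : Bx) : TM := tconst (Nat.mul 1 S) 0 0
noncomputable def v7 (_x1 _x2 _x3 : ℝ) : ℝ := ((1 : ℕ) : ℝ)
theorem en7 (_h : In b E x1 x2 x3) : Enc S E (t7 b) (v7 x1 x2 x3) := enc_nc E 1

def t8 (b : Bx) : TM := tsub (t7 b) (t6 b)
noncomputable def v8 (x1 x2 x3 : ℝ) : ℝ := v7 x1 x2 x3 - v6 x1 x2 x3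
theorem en8 (h : In b E x1 x2 x3) : Enc S E (t8 b) (v8 x1 x2 x3) := enc_sub (en7 h) (en6 h)

def t9 (b : Bx) : TM := tsqrt S (t8 b)
noncomputable def v9 (x1 x2 x3 : ℝ) : ℝ := Real.sqrt (v8 x1 x2 x3)
theorem en9 (h : In b E x1 x2 x3) : Enc S E (t9 b) (v9 x1 x2 x3) := enc_sqrt hS (en8 h)

def t10 (b : Bx) : TM := tmul S (t1 b) (t9 b)
noncomputable def v10 (x1 x2 x3 : ℝ) : ℝ := v1 x1 x2 x3 * v9 x1 x2 x3
theorem en10 (h : In b E x1 x2 x3) : Enc S E (t10 b) (v10 x1 x2 x3) := enc_mul hS (en1 h) (en9 h)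

def t11 (b : Bx) : TM := tscale 1 2 (t5 b)
noncomputable def v11 (x1 x2 x3 : ℝ) : ℝ := ((1 : ℕ) : ℝ) / ((2 : ℕ) : ℝ) * v5 x1 x2 x3
theorem en11 (h : In b E x1 x2 x3) : Enc S E (t11 b) (v11 x1 x2 x3) := enc_scale 1 (by norm_num) (en5 h)

def t13 (b : Bx) : TM := tadd (t11 b) (t10 b)
noncomputable def v13 (x1 x2 x3 : ℝ) : ℝ := v11 x1 x2 x3 + v10 x1 x2 x3
theorem en13 (h : In b E x1 x2 x3) : Enc S E (t13 b) (v13 x1 x2 x3) := enc_add (en11 h) (en10 h)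

def t14 (b : Bx) : TM := tscale 1 2 (t9 b)
noncomputable def v14 (x1 x2 x3 : ℝ) : ℝ := ((1 : ℕ) : ℝ) / ((2 : ℕ) : ℝ) * v9 x1 x2 x3
theorem en14 (h : In b E x1 x2 x3) : Enc S E (t14 b) (v14 x1 x2 x3) := enc_scale 1 (by norm_num) (en9 h)

def t15 (b : Bx) : TM := tmul S (t1 b) (t5 b)
noncomputable def v15 (x1 x2 x3 : ℝ) : ℝ := v1 x1 x2 x3 * v5 x1 x2 x3
theorem en15 (h : In b E x1 x2 x3) : Enc S E (t15 b) (v15 x1 x2 x3) := enc_mul hS (en1 h) (en5 h)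

def t16 (b : Bx) : TM := tadd (t14 b) (t15 b)
noncomputable def v16 (x1 x2 x3 : ℝ) : ℝ := v14 x1 x2 x3 + v15 x1 x2 x3
theorem en16 (h : In b E x1 x2 x3) : Enc S E (t16 b) (v16 x1 x2 x3) := enc_add (en14 h) (en15 h)

def t18 (b : Bx) : TM := tadd (t1 b) (t2 b)
noncomputable def v18 (x1 x2 x3 : ℝ) : ℝ := v1 x1 x2 x3 + v2 x1 x2 x3
theorem en18 (h : In b E x1 x2 x3) : Enc S E (t18 b) (v18 x1 x2 x3) := enc_add (en1 h) (en2 h)

def t19 (b : Bx) : TM := tsub (t18 b) (t13 b)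
noncomputable def v19 (x1 x2 x3 : ℝ) : ℝ := v18 x1 x2 x3 - v13 x1 x2 x3
theorem en19 (h : In b E x1 x2 x3) : Enc S E (t19 b) (v19 x1 x2 x3) := enc_sub (en18 h) (en13 h)

def t20 (b : Bx) : TM := tsub (t19 b) (t3 b)
noncomputable def v20 (x1 x2 x3 : ℝ) : ℝ := v19 x1 x2 x3 - v3 x1 x2 x3
theorem en20 (h : In b E x1 x2 x3) : Enc S E (t20 b) (v20 x1 x2 x3) := enc_sub (en19 h) (en3 h)

def t21 (b : Bx) : TM := tsq S (t2 b)
noncomputable def v21 (x1 x2 x3 : ℝ) : ℝ := (v2 x1 x2 x3) ^ 2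
theorem en21 (h : In b E x1 x2 x3) : Enc S E (t21 b) (v21 x1 x2 x3) := enc_sq hS (en2 h)

def t22 (b : Bx) : TM := tsub (t7 b) (t21 b)
noncomputable def v22 (x1 x2 x3 : ℝ) : ℝ := v7 x1 x2 x3 - v21 x1 x2 x3
theorem en22 (h : In b E x1 x2 x3) : Enc S E (t22 b) (v22 x1 x2 x3) := enc_sub (en7 h) (en21 h)

def t23 (b : Bx) : TM := tsqrt S (t22 b)
noncomputable def v23 (x1 x2 x3 : ℝ) : ℝ := Real.sqrt (v22 x1 x2 x3)
theorem en23 (h : In b E x1 x2 x3) : Enc S E (t23 b) (v23 x1 x2 x3) := enc_sqrt hS (en22 h)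

def t24 (b : Bx) : TM := tscale 17 50 (t2 b)
noncomputable def v24 (x1 x2 x3 : ℝ) : ℝ := ((17 : ℕ) : ℝ) / ((50 : ℕ) : ℝ) * v2 x1 x2 x3
theorem en24 (h : In b E x1 x2 x3) : Enc S E (t24 b) (v24 x1 x2 x3) := enc_scale 17 (by norm_num) (en2 h)

def t25 (b : Bx) : TM := tsq S (t24 b)
noncomputable def v25 (x1 x2 x3 : ℝ) : ℝ := (v24 x1 x2 x3) ^ 2
theorem en25 (h : In b E x1 x2 x3) : Enc S E (t25 b) (v25 x1 x2 x3) := enc_sq hS (en24 h)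

def t26 (b : Bx) : TM := tsub (t7 b) (t25 b)
noncomputable def v26 (x1 x2 x3 : ℝ) : ℝ := v7 x1 x2 x3 - v25 x1 x2 x3
theorem en26 (h : In b E x1 x2 x3) : Enc S E (t26 b) (v26 x1 x2 x3) := enc_sub (en7 h) (en25 h)

def t27 (b : Bx) : TM := tsqrt S (t26 b)
noncomputable def v27 (x1 x2 x3 : ℝ) : ℝ := Real.sqrt (v26 x1 x2 x3)
theorem en27 (h : In b E x1 x2 x3) : Enc S E (t27 b) (v27 x1 x2 x3) := enc_sqrt hS (en26 h)

def t28 (b : Bx) : TM := tadd (t20 b) (t13 b)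
noncomputable def v28 (x1 x2 x3 : ℝ) : ℝ := v20 x1 x2 x3 + v13 x1 x2 x3
theorem en28 (h : In b E x1 x2 x3) : Enc S E (t28 b) (v28 x1 x2 x3) := enc_add (en20 h) (en13 h)

def t29 (b : Bx) : TM := tadd (t20 b) (t5 b)
noncomputable def v29 (x1 x2 x3 : ℝ) : ℝ := v20 x1 x2 x3 + v5 x1 x2 x3
theorem en29 (h : In b E x1 x2 x3) : Enc S E (t29 b) (v29 x1 x2 x3) := enc_add (en20 h) (en5 h)

def t31 (b : Bx) : TM := tscale 33 50 (t2 b)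
noncomputable def v31 (x1 x2 x3 : ℝ) : ℝ := ((33 : ℕ) : ℝ) / ((50 : ℕ) : ℝ) * v2 x1 x2 x3
theorem en31 (h : In b E x1 x2 x3) : Enc S E (t31 b) (v31 x1 x2 x3) := enc_scale 33 (by norm_num) (en2 h)

def t32 (b : Bx) : TM := tadd (t1 b) (t31 b)
noncomputable def v32 (x1 x2 x3 : ℝ) : ℝ := v1 x1 x2 x3 + v31 x1 x2 x3
theorem en32 (h : In b E x1 x2 x3) : Enc S E (t32 b) (v32 x1 x2 x3) := enc_add (en1 h) (en31 h)

def t33 (b : Bx) : TM := tsq S (t20 b)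
noncomputable def v33 (x1 x2 x3 : ℝ) : ℝ := (v20 x1 x2 x3) ^ 2
theorem en33 (h : In b E x1 x2 x3) : Enc S E (t33 b) (v33 x1 x2 x3) := enc_sq hS (en20 h)

def t34 (b : Bx) : TM := tsub (t7 b) (t33 b)
noncomputable def v34 (x1 x2 x3 : ℝ) : ℝ := v7 x1 x2 x3 - v33 x1 x2 x3
theorem en34 (h : In b E x1 x2 x3) : Enc S E (t34 b) (v34 x1 x2 x3) := enc_sub (en7 h) (en33 h)

def t35 (b : Bx) : TM := tsqrt S (t34 b)
noncomputable def v35 (x1 x2 x3 : ℝ) : ℝ := Real.sqrt (v34 x1 x2 x3)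
theorem en35 (h : In b E x1 x2 x3) : Enc S E (t35 b) (v35 x1 x2 x3) := enc_sqrt hS (en34 h)

def t36 (b : Bx) : TM := tnat 8 (t35 b)
noncomputable def v36 (x1 x2 x3 : ℝ) : ℝ := ((8 : ℕ) : ℝ) * v35 x1 x2 x3
theorem en36 (h : In b E x1 x2 x3) : Enc S E (t36 b) (v36 x1 x2 x3) := enc_nat 8 (en35 h)

def t37 (_b : Bx) : TM := tconst (Nat.mul 4 S) 0 0
noncomputable def v37 (_x1 _x2 _x3 : ℝ) : ℝ := ((4 : ℕ) : ℝ)
theorem en37 (_h : In b E x1 x2 x3) : Enc S E (t37 b) (v37 x1 x2 x3) := enc_nc E 4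

def t38 (b : Bx) : TM := tsub (t36 b) (t37 b)
noncomputable def v38 (x1 x2 x3 : ℝ) : ℝ := v36 x1 x2 x3 - v37 x1 x2 x3
theorem en38 (h : In b E x1 x2 x3) : Enc S E (t38 b) (v38 x1 x2 x3) := enc_sub (en36 h) (en37 h)

def t39 (b : Bx) : TM := tnat 4 (t23 b)
noncomputable def v39 (x1 x2 x3 : ℝ) : ℝ := ((4 : ℕ) : ℝ) * v23 x1 x2 x3
theorem en39 (h : In b E x1 x2 x3) : Enc S E (t39 b) (v39 x1 x2 x3) := enc_nat 4 (en23 h)

def t40 (b : Bx) : TM := tsub (t38 b) (t39 b)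
noncomputable def v40 (x1 x2 x3 : ℝ) : ℝ := v38 x1 x2 x3 - v39 x1 x2 x3
theorem en40 (h : In b E x1 x2 x3) : Enc S E (t40 b) (v40 x1 x2 x3) := enc_sub (en38 h) (en39 h)

def t41 (b : Bx) : TM := tsub (t29 b) (t1 b)
noncomputable def v41 (x1 x2 x3 : ℝ) : ℝ := v29 x1 x2 x3 - v1 x1 x2 x3
theorem en41 (h : In b E x1 x2 x3) : Enc S E (t41 b) (v41 x1 x2 x3) := enc_sub (en29 h) (en1 h)

def t42 (b : Bx) : TM := tsq S (t41 b)
noncomputable def v42 (x1 x2 x3 : ℝ) : ℝ := (v41 x1 x2 x3) ^ 2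
theorem en42 (h : In b E x1 x2 x3) : Enc S E (t42 b) (v42 x1 x2 x3) := enc_sq hS (en41 h)

def t43 (b : Bx) : TM := tsub (t7 b) (t42 b)
noncomputable def v43 (x1 x2 x3 : ℝ) : ℝ := v7 x1 x2 x3 - v42 x1 x2 x3
theorem en43 (h : In b E x1 x2 x3) : Enc S E (t43 b) (v43 x1 x2 x3) := enc_sub (en7 h) (en42 h)

def t44 (b : Bx) : TM := tsqrt S (t43 b)
noncomputable def v44 (x1 x2 x3 : ℝ) : ℝ := Real.sqrt (v43 x1 x2 x3)
theorem en44 (h : In b E x1 x2 x3) : Enc S E (t44 b) (v44 x1 x2 x3) := enc_sqrt hS (en43 h)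

def t45 (b : Bx) : TM := tadd (t44 b) (t7 b)
noncomputable def v45 (x1 x2 x3 : ℝ) : ℝ := v44 x1 x2 x3 + v7 x1 x2 x3
theorem en45 (h : In b E x1 x2 x3) : Enc S E (t45 b) (v45 x1 x2 x3) := enc_add (en44 h) (en7 h)

def t46 (b : Bx) : TM := tsub (t45 b) (t27 b)
noncomputable def v46 (x1 x2 x3 : ℝ) : ℝ := v45 x1 x2 x3 - v27 x1 x2 x3
theorem en46 (h : In b E x1 x2 x3) : Enc S E (t46 b) (v46 x1 x2 x3) := enc_sub (en45 h) (en27 h)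

def t51 (b : Bx) : TM := tsub (t28 b) (t1 b)
noncomputable def v51 (x1 x2 x3 : ℝ) : ℝ := v28 x1 x2 x3 - v1 x1 x2 x3
theorem en51 (h : In b E x1 x2 x3) : Enc S E (t51 b) (v51 x1 x2 x3) := enc_sub (en28 h) (en1 h)

def t52 (b : Bx) : TM := tsq S (t51 b)
noncomputable def v52 (x1 x2 x3 : ℝ) : ℝ := (v51 x1 x2 x3) ^ 2
theorem en52 (h : In b E x1 x2 x3) : Enc S E (t52 b) (v52 x1 x2 x3) := enc_sq hS (en51 h)

def t53 (b : Bx) : TM := tsub (t7 b) (t52 b)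
noncomputable def v53 (x1 x2 x3 : ℝ) : ℝ := v7 x1 x2 x3 - v52 x1 x2 x3
theorem en53 (h : In b E x1 x2 x3) : Enc S E (t53 b) (v53 x1 x2 x3) := enc_sub (en7 h) (en52 h)

def t54 (b : Bx) : TM := tsqrt S (t53 b)
noncomputable def v54 (x1 x2 x3 : ℝ) : ℝ := Real.sqrt (v53 x1 x2 x3)
theorem en54 (h : In b E x1 x2 x3) : Enc S E (t54 b) (v54 x1 x2 x3) := enc_sqrt hS (en53 h)

def t55 (b : Bx) : TM := tadd (t54 b) (t7 b)
noncomputable def v55 (x1 x2 x3 : ℝ) : ℝ := v54 x1 x2 x3 + v7 x1 x2 x3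
theorem en55 (h : In b E x1 x2 x3) : Enc S E (t55 b) (v55 x1 x2 x3) := enc_add (en54 h) (en7 h)

def t56 (b : Bx) : TM := tsub (t55 b) (t27 b)
noncomputable def v56 (x1 x2 x3 : ℝ) : ℝ := v55 x1 x2 x3 - v27 x1 x2 x3
theorem en56 (h : In b E x1 x2 x3) : Enc S E (t56 b) (v56 x1 x2 x3) := enc_sub (en55 h) (en27 h)

def t57 (b : Bx) : TM := tadd (t16 b) (t7 b)
noncomputable def v57 (x1 x2 x3 : ℝ) : ℝ := v16 x1 x2 x3 + v7 x1 x2 x3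
theorem en57 (h : In b E x1 x2 x3) : Enc S E (t57 b) (v57 x1 x2 x3) := enc_add (en16 h) (en7 h)

def t58 (b : Bx) : TM := tsub (t57 b) (t56 b)
noncomputable def v58 (x1 x2 x3 : ℝ) : ℝ := v57 x1 x2 x3 - v56 x1 x2 x3
theorem en58 (h : In b E x1 x2 x3) : Enc S E (t58 b) (v58 x1 x2 x3) := enc_sub (en57 h) (en56 h)

def t59 (b : Bx) : TM := tsub (t58 b) (t46 b)
noncomputable def v59 (x1 x2 x3 : ℝ) : ℝ := v58 x1 x2 x3 - v46 x1 x2 x3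
theorem en59 (h : In b E x1 x2 x3) : Enc S E (t59 b) (v59 x1 x2 x3) := enc_sub (en58 h) (en46 h)

def t60 (b : Bx) : TM := tsub (t28 b) (t32 b)
noncomputable def v60 (x1 x2 x3 : ℝ) : ℝ := v28 x1 x2 x3 - v32 x1 x2 x3
theorem en60 (h : In b E x1 x2 x3) : Enc S E (t60 b) (v60 x1 x2 x3) := enc_sub (en28 h) (en32 h)

def t61 (b : Bx) : TM := tsq S (t60 b)
noncomputable def v61 (x1 x2 x3 : ℝ) : ℝ := (v60 x1 x2 x3) ^ 2
theorem en61 (h : In b E x1 x2 x3) : Enc S E (t61 b) (v61 x1 x2 x3) := enc_sq hS (en60 h)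

def t62 (b : Bx) : TM := tsub (t7 b) (t61 b)
noncomputable def v62 (x1 x2 x3 : ℝ) : ℝ := v7 x1 x2 x3 - v61 x1 x2 x3
theorem en62 (h : In b E x1 x2 x3) : Enc S E (t62 b) (v62 x1 x2 x3) := enc_sub (en7 h) (en61 h)

def t63 (b : Bx) : TM := tsqrt S (t62 b)
noncomputable def v63 (x1 x2 x3 : ℝ) : ℝ := Real.sqrt (v62 x1 x2 x3)
theorem en63 (h : In b E x1 x2 x3) : Enc S E (t63 b) (v63 x1 x2 x3) := enc_sqrt hS (en62 h)

def t64 (b : Bx) : TM := tsub (t29 b) (t32 b)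
noncomputable def v64 (x1 x2 x3 : ℝ) : ℝ := v29 x1 x2 x3 - v32 x1 x2 x3
theorem en64 (h : In b E x1 x2 x3) : Enc S E (t64 b) (v64 x1 x2 x3) := enc_sub (en29 h) (en32 h)

def t65 (b : Bx) : TM := tsq S (t64 b)
noncomputable def v65 (x1 x2 x3 : ℝ) : ℝ := (v64 x1 x2 x3) ^ 2
theorem en65 (h : In b E x1 x2 x3) : Enc S E (t65 b) (v65 x1 x2 x3) := enc_sq hS (en64 h)

def t66 (b : Bx) : TM := tsub (t7 b) (t65 b)
noncomputable def v66 (x1 x2 x3 : ℝ) : ℝ := v7 x1 x2 x3 - v65 x1 x2 x3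
theorem en66 (h : In b E x1 x2 x3) : Enc S E (t66 b) (v66 x1 x2 x3) := enc_sub (en7 h) (en65 h)

def t67 (b : Bx) : TM := tsqrt S (t66 b)
noncomputable def v67 (x1 x2 x3 : ℝ) : ℝ := Real.sqrt (v66 x1 x2 x3)
theorem en67 (h : In b E x1 x2 x3) : Enc S E (t67 b) (v67 x1 x2 x3) := enc_sqrt hS (en66 h)

def t68 (b : Bx) : TM := tsub (t57 b) (t63 b)
noncomputable def v68 (x1 x2 x3 : ℝ) : ℝ := v57 x1 x2 x3 - v63 x1 x2 x3
theorem en68 (h : In b E x1 x2 x3) : Enc S E (t68 b) (v68 x1 x2 x3) := enc_sub (en57 h) (en63 h)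

def t69 (b : Bx) : TM := tsub (t68 b) (t67 b)
noncomputable def v69 (x1 x2 x3 : ℝ) : ℝ := v68 x1 x2 x3 - v67 x1 x2 x3
theorem en69 (h : In b E x1 x2 x3) : Enc S E (t69 b) (v69 x1 x2 x3) := enc_sub (en68 h) (en67 h)

def t70 (b : Bx) : TM := tsub (t57 b) (t54 b)
noncomputable def v70 (x1 x2 x3 : ℝ) : ℝ := v57 x1 x2 x3 - v54 x1 x2 x3
theorem en70 (h : In b E x1 x2 x3) : Enc S E (t70 b) (v70 x1 x2 x3) := enc_sub (en57 h) (en54 h)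

def t71 (b : Bx) : TM := tsub (t70 b) (t44 b)
noncomputable def v71 (x1 x2 x3 : ℝ) : ℝ := v70 x1 x2 x3 - v44 x1 x2 x3
theorem en71 (h : In b E x1 x2 x3) : Enc S E (t71 b) (v71 x1 x2 x3) := enc_sub (en70 h) (en44 h)

def t72 (_b : Bx) : TM := tconst (Nat.mul 0 S) 0 0
noncomputable def v72 (_x1 _x2 _x3 : ℝ) : ℝ := ((0 : ℕ) : ℝ)
theorem en72 (_h : In b E x1 x2 x3) : Enc S E (t72 b) (v72 x1 x2 x3) := enc_nc E 0

def t73 (b : Bx) : TM := tadd (t59 b) (t69 b)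
noncomputable def v73 (x1 x2 x3 : ℝ) : ℝ := v59 x1 x2 x3 + v69 x1 x2 x3
theorem en73 (h : In b E x1 x2 x3) : Enc S E (t73 b) (v73 x1 x2 x3) := enc_add (en59 h) (en69 h)

def t74 (b : Bx) : TM := tscale 9 5 (t73 b)
noncomputable def v74 (x1 x2 x3 : ℝ) : ℝ := ((9 : ℕ) : ℝ) / ((5 : ℕ) : ℝ) * v73 x1 x2 x3
theorem en74 (h : In b E x1 x2 x3) : Enc S E (t74 b) (v74 x1 x2 x3) := enc_scale 9 (by norm_num) (en73 h)

def t75 (b : Bx) : TM := tadd (t40 b) (t74 b)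
noncomputable def v75 (x1 x2 x3 : ℝ) : ℝ := v40 x1 x2 x3 + v74 x1 x2 x3
theorem en75 (h : In b E x1 x2 x3) : Enc S E (t75 b) (v75 x1 x2 x3) := enc_add (en40 h) (en74 h)

def t76 (b : Bx) : TM := tscale 1 5 (t71 b)
noncomputable def v76 (x1 x2 x3 : ℝ) : ℝ := ((1 : ℕ) : ℝ) / ((5 : ℕ) : ℝ) * v71 x1 x2 x3
theorem en76 (h : In b E x1 x2 x3) : Enc S E (t76 b) (v76 x1 x2 x3) := enc_scale 1 (by norm_num) (en71 h)

def t77 (b : Bx) : TM := tadd (t75 b) (t76 b)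
noncomputable def v77 (x1 x2 x3 : ℝ) : ℝ := v75 x1 x2 x3 + v76 x1 x2 x3
theorem en77 (h : In b E x1 x2 x3) : Enc S E (t77 b) (v77 x1 x2 x3) := enc_add (en75 h) (en76 h)

def t82 (b : Bx) : TM := tsub (t19 b) (t72 b)
noncomputable def v82 (x1 x2 x3 : ℝ) : ℝ := v19 x1 x2 x3 - v72 x1 x2 x3
theorem en82 (h : In b E x1 x2 x3) : Enc S E (t82 b) (v82 x1 x2 x3) := enc_sub (en19 h) (en72 h)

def t83 (b : Bx) : TM := tneg (t7 b)
noncomputable def v83 (x1 x2 x3 : ℝ) : ℝ := -(v7 x1 x2 x3)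
theorem en83 (h : In b E x1 x2 x3) : Enc S E (t83 b) (v83 x1 x2 x3) := enc_neg (en7 h)

def t84 (b : Bx) : TM := tsq S (t82 b)
noncomputable def v84 (x1 x2 x3 : ℝ) : ℝ := (v82 x1 x2 x3) ^ 2
theorem en84 (h : In b E x1 x2 x3) : Enc S E (t84 b) (v84 x1 x2 x3) := enc_sq hS (en82 h)

def t85 (b : Bx) : TM := tadd (t20 b) (t82 b)
noncomputable def v85 (x1 x2 x3 : ℝ) : ℝ := v20 x1 x2 x3 + v82 x1 x2 x3
theorem en85 (h : In b E x1 x2 x3) : Enc S E (t85 b) (v85 x1 x2 x3) := enc_add (en20 h) (en82 h)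

def t86 (b : Bx) : TM := tmul S (t83 b) (t85 b)
noncomputable def v86 (x1 x2 x3 : ℝ) : ℝ := v83 x1 x2 x3 * v85 x1 x2 x3
theorem en86 (h : In b E x1 x2 x3) : Enc S E (t86 b) (v86 x1 x2 x3) := enc_mul hS (en83 h) (en85 h)

def t87 (b : Bx) : TM := tsub (t7 b) (t84 b)
noncomputable def v87 (x1 x2 x3 : ℝ) : ℝ := v7 x1 x2 x3 - v84 x1 x2 x3
theorem en87 (h : In b E x1 x2 x3) : Enc S E (t87 b) (v87 x1 x2 x3) := enc_sub (en7 h) (en84 h)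

def t88 (b : Bx) : TM := tneg (t86 b)
noncomputable def v88 (x1 x2 x3 : ℝ) : ℝ := -(v86 x1 x2 x3)
theorem en88 (h : In b E x1 x2 x3) : Enc S E (t88 b) (v88 x1 x2 x3) := enc_neg (en86 h)

def t89 (b : Bx) : TM := tsqrt S (t87 b)
noncomputable def v89 (x1 x2 x3 : ℝ) : ℝ := Real.sqrt (v87 x1 x2 x3)
theorem en89 (h : In b E x1 x2 x3) : Enc S E (t89 b) (v89 x1 x2 x3) := enc_sqrt hS (en87 h)

def t90 (b : Bx) : TM := tadd (t35 b) (t89 b)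
noncomputable def v90 (x1 x2 x3 : ℝ) : ℝ := v35 x1 x2 x3 + v89 x1 x2 x3
theorem en90 (h : In b E x1 x2 x3) : Enc S E (t90 b) (v90 x1 x2 x3) := enc_add (en35 h) (en89 h)

def t91 (b : Bx) : TM := tinv S (t90 b)
noncomputable def v91 (x1 x2 x3 : ℝ) : ℝ := (v90 x1 x2 x3)⁻¹
theorem en91 (h : In b E x1 x2 x3) : Enc S E (t91 b) (v91 x1 x2 x3) := enc_inv hS (en90 h)

def t92 (b : Bx) : TM := tmul S (t88 b) (t91 b)
noncomputable def v92 (x1 x2 x3 : ℝ) : ℝ := v88 x1 x2 x3 * v91 x1 x2 x3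
theorem en92 (h : In b E x1 x2 x3) : Enc S E (t92 b) (v92 x1 x2 x3) := enc_mul hS (en88 h) (en91 h)

def t93 (b : Bx) : TM := tnat 8 (t89 b)
noncomputable def v93 (x1 x2 x3 : ℝ) : ℝ := ((8 : ℕ) : ℝ) * v89 x1 x2 x3
theorem en93 (h : In b E x1 x2 x3) : Enc S E (t93 b) (v93 x1 x2 x3) := enc_nat 8 (en89 h)

def t94 (b : Bx) : TM := tnat 8 (t92 b)
noncomputable def v94 (x1 x2 x3 : ℝ) : ℝ := ((8 : ℕ) : ℝ) * v92 x1 x2 x3
theorem en94 (h : In b E x1 x2 x3) : Enc S E (t94 b) (v94 x1 x2 x3) := enc_nat 8 (en92 h)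

def t95 (b : Bx) : TM := tsub (t93 b) (t37 b)
noncomputable def v95 (x1 x2 x3 : ℝ) : ℝ := v93 x1 x2 x3 - v37 x1 x2 x3
theorem en95 (h : In b E x1 x2 x3) : Enc S E (t95 b) (v95 x1 x2 x3) := enc_sub (en93 h) (en37 h)

def t96 (b : Bx) : TM := tsub (t95 b) (t39 b)
noncomputable def v96 (x1 x2 x3 : ℝ) : ℝ := v95 x1 x2 x3 - v39 x1 x2 x3
theorem en96 (h : In b E x1 x2 x3) : Enc S E (t96 b) (v96 x1 x2 x3) := enc_sub (en95 h) (en39 h)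

def t97 (b : Bx) : TM := tadd (t82 b) (t13 b)
noncomputable def v97 (x1 x2 x3 : ℝ) : ℝ := v82 x1 x2 x3 + v13 x1 x2 x3
theorem en97 (h : In b E x1 x2 x3) : Enc S E (t97 b) (v97 x1 x2 x3) := enc_add (en82 h) (en13 h)

def t98 (b : Bx) : TM := tsub (t97 b) (t1 b)
noncomputable def v98 (x1 x2 x3 : ℝ) : ℝ := v97 x1 x2 x3 - v1 x1 x2 x3
theorem en98 (h : In b E x1 x2 x3) : Enc S E (t98 b) (v98 x1 x2 x3) := enc_sub (en97 h) (en1 h)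

def t99 (b : Bx) : TM := tsq S (t98 b)
noncomputable def v99 (x1 x2 x3 : ℝ) : ℝ := (v98 x1 x2 x3) ^ 2
theorem en99 (h : In b E x1 x2 x3) : Enc S E (t99 b) (v99 x1 x2 x3) := enc_sq hS (en98 h)

def t100 (b : Bx) : TM := tadd (t51 b) (t98 b)
noncomputable def v100 (x1 x2 x3 : ℝ) : ℝ := v51 x1 x2 x3 + v98 x1 x2 x3
theorem en100 (h : In b E x1 x2 x3) : Enc S E (t100 b) (v100 x1 x2 x3) := enc_add (en51 h) (en98 h)

def t101 (b : Bx) : TM := tmul S (t83 b) (t100 b)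
noncomputable def v101 (x1 x2 x3 : ℝ) : ℝ := v83 x1 x2 x3 * v100 x1 x2 x3
theorem en101 (h : In b E x1 x2 x3) : Enc S E (t101 b) (v101 x1 x2 x3) := enc_mul hS (en83 h) (en100 h)

def t102 (b : Bx) : TM := tsub (t7 b) (t99 b)
noncomputable def v102 (x1 x2 x3 : ℝ) : ℝ := v7 x1 x2 x3 - v99 x1 x2 x3
theorem en102 (h : In b E x1 x2 x3) : Enc S E (t102 b) (v102 x1 x2 x3) := enc_sub (en7 h) (en99 h)

def t103 (b : Bx) : TM := tneg (t101 b)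
noncomputable def v103 (x1 x2 x3 : ℝ) : ℝ := -(v101 x1 x2 x3)
theorem en103 (h : In b E x1 x2 x3) : Enc S E (t103 b) (v103 x1 x2 x3) := enc_neg (en101 h)

def t104 (b : Bx) : TM := tsqrt S (t102 b)
noncomputable def v104 (x1 x2 x3 : ℝ) : ℝ := Real.sqrt (v102 x1 x2 x3)
theorem en104 (h : In b E x1 x2 x3) : Enc S E (t104 b) (v104 x1 x2 x3) := enc_sqrt hS (en102 h)

def t105 (b : Bx) : TM := tadd (t54 b) (t104 b)
noncomputable def v105 (x1 x2 x3 : ℝ) : ℝ := v54 x1 x2 x3 + v104 x1 x2 x3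
theorem en105 (h : In b E x1 x2 x3) : Enc S E (t105 b) (v105 x1 x2 x3) := enc_add (en54 h) (en104 h)

def t106 (b : Bx) : TM := tinv S (t105 b)
noncomputable def v106 (x1 x2 x3 : ℝ) : ℝ := (v105 x1 x2 x3)⁻¹
theorem en106 (h : In b E x1 x2 x3) : Enc S E (t106 b) (v106 x1 x2 x3) := enc_inv hS (en105 h)

def t107 (b : Bx) : TM := tmul S (t103 b) (t106 b)
noncomputable def v107 (x1 x2 x3 : ℝ) : ℝ := v103 x1 x2 x3 * v106 x1 x2 x3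
theorem en107 (h : In b E x1 x2 x3) : Enc S E (t107 b) (v107 x1 x2 x3) := enc_mul hS (en103 h) (en106 h)

def t108 (b : Bx) : TM := tadd (t104 b) (t7 b)
noncomputable def v108 (x1 x2 x3 : ℝ) : ℝ := v104 x1 x2 x3 + v7 x1 x2 x3
theorem en108 (h : In b E x1 x2 x3) : Enc S E (t108 b) (v108 x1 x2 x3) := enc_add (en104 h) (en7 h)

def t109 (b : Bx) : TM := tsub (t108 b) (t27 b)
noncomputable def v109 (x1 x2 x3 : ℝ) : ℝ := v108 x1 x2 x3 - v27 x1 x2 x3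
theorem en109 (h : In b E x1 x2 x3) : Enc S E (t109 b) (v109 x1 x2 x3) := enc_sub (en108 h) (en27 h)

def t110 (b : Bx) : TM := tsub (t57 b) (t109 b)
noncomputable def v110 (x1 x2 x3 : ℝ) : ℝ := v57 x1 x2 x3 - v109 x1 x2 x3
theorem en110 (h : In b E x1 x2 x3) : Enc S E (t110 b) (v110 x1 x2 x3) := enc_sub (en57 h) (en109 h)

def t111 (b : Bx) : TM := tneg (t107 b)
noncomputable def v111 (x1 x2 x3 : ℝ) : ℝ := -(v107 x1 x2 x3)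
theorem en111 (h : In b E x1 x2 x3) : Enc S E (t111 b) (v111 x1 x2 x3) := enc_neg (en107 h)

def t112 (b : Bx) : TM := tadd (t82 b) (t5 b)
noncomputable def v112 (x1 x2 x3 : ℝ) : ℝ := v82 x1 x2 x3 + v5 x1 x2 x3
theorem en112 (h : In b E x1 x2 x3) : Enc S E (t112 b) (v112 x1 x2 x3) := enc_add (en82 h) (en5 h)

def t113 (b : Bx) : TM := tsub (t112 b) (t1 b)
noncomputable def v113 (x1 x2 x3 : ℝ) : ℝ := v112 x1 x2 x3 - v1 x1 x2 x3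
theorem en113 (h : In b E x1 x2 x3) : Enc S E (t113 b) (v113 x1 x2 x3) := enc_sub (en112 h) (en1 h)

def t114 (b : Bx) : TM := tsq S (t113 b)
noncomputable def v114 (x1 x2 x3 : ℝ) : ℝ := (v113 x1 x2 x3) ^ 2
theorem en114 (h : In b E x1 x2 x3) : Enc S E (t114 b) (v114 x1 x2 x3) := enc_sq hS (en113 h)

def t115 (b : Bx) : TM := tadd (t41 b) (t113 b)
noncomputable def v115 (x1 x2 x3 : ℝ) : ℝ := v41 x1 x2 x3 + v113 x1 x2 x3
theorem en115 (h : In b E x1 x2 x3) : Enc S E (t115 b) (v115 x1 x2 x3) := enc_add (en41 h) (en113 h)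

def t116 (b : Bx) : TM := tmul S (t83 b) (t115 b)
noncomputable def v116 (x1 x2 x3 : ℝ) : ℝ := v83 x1 x2 x3 * v115 x1 x2 x3
theorem en116 (h : In b E x1 x2 x3) : Enc S E (t116 b) (v116 x1 x2 x3) := enc_mul hS (en83 h) (en115 h)

def t117 (b : Bx) : TM := tsub (t7 b) (t114 b)
noncomputable def v117 (x1 x2 x3 : ℝ) : ℝ := v7 x1 x2 x3 - v114 x1 x2 x3
theorem en117 (h : In b E x1 x2 x3) : Enc S E (t117 b) (v117 x1 x2 x3) := enc_sub (en7 h) (en114 h)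

def t118 (b : Bx) : TM := tneg (t116 b)
noncomputable def v118 (x1 x2 x3 : ℝ) : ℝ := -(v116 x1 x2 x3)
theorem en118 (h : In b E x1 x2 x3) : Enc S E (t118 b) (v118 x1 x2 x3) := enc_neg (en116 h)

def t119 (b : Bx) : TM := tsqrt S (t117 b)
noncomputable def v119 (x1 x2 x3 : ℝ) : ℝ := Real.sqrt (v117 x1 x2 x3)
theorem en119 (h : In b E x1 x2 x3) : Enc S E (t119 b) (v119 x1 x2 x3) := enc_sqrt hS (en117 h)

def t120 (b : Bx) : TM := tadd (t44 b) (t119 b)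
noncomputable def v120 (x1 x2 x3 : ℝ) : ℝ := v44 x1 x2 x3 + v119 x1 x2 x3
theorem en120 (h : In b E x1 x2 x3) : Enc S E (t120 b) (v120 x1 x2 x3) := enc_add (en44 h) (en119 h)

def t121 (b : Bx) : TM := tinv S (t120 b)
noncomputable def v121 (x1 x2 x3 : ℝ) : ℝ := (v120 x1 x2 x3)⁻¹
theorem en121 (h : In b E x1 x2 x3) : Enc S E (t121 b) (v121 x1 x2 x3) := enc_inv hS (en120 h)

def t122 (b : Bx) : TM := tmul S (t118 b) (t121 b)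
noncomputable def v122 (x1 x2 x3 : ℝ) : ℝ := v118 x1 x2 x3 * v121 x1 x2 x3
theorem en122 (h : In b E x1 x2 x3) : Enc S E (t122 b) (v122 x1 x2 x3) := enc_mul hS (en118 h) (en121 h)

def t123 (b : Bx) : TM := tadd (t119 b) (t7 b)
noncomputable def v123 (x1 x2 x3 : ℝ) : ℝ := v119 x1 x2 x3 + v7 x1 x2 x3
theorem en123 (h : In b E x1 x2 x3) : Enc S E (t123 b) (v123 x1 x2 x3) := enc_add (en119 h) (en7 h)

def t124 (b : Bx) : TM := tsub (t123 b) (t27 b)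
noncomputable def v124 (x1 x2 x3 : ℝ) : ℝ := v123 x1 x2 x3 - v27 x1 x2 x3
theorem en124 (h : In b E x1 x2 x3) : Enc S E (t124 b) (v124 x1 x2 x3) := enc_sub (en123 h) (en27 h)

def t125 (b : Bx) : TM := tsub (t110 b) (t124 b)
noncomputable def v125 (x1 x2 x3 : ℝ) : ℝ := v110 x1 x2 x3 - v124 x1 x2 x3
theorem en125 (h : In b E x1 x2 x3) : Enc S E (t125 b) (v125 x1 x2 x3) := enc_sub (en110 h) (en124 h)

def t126 (b : Bx) : TM := tsub (t111 b) (t122 b)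
noncomputable def v126 (x1 x2 x3 : ℝ) : ℝ := v111 x1 x2 x3 - v122 x1 x2 x3
theorem en126 (h : In b E x1 x2 x3) : Enc S E (t126 b) (v126 x1 x2 x3) := enc_sub (en111 h) (en122 h)

def t127 (b : Bx) : TM := tsub (t97 b) (t32 b)
noncomputable def v127 (x1 x2 x3 : ℝ) : ℝ := v97 x1 x2 x3 - v32 x1 x2 x3
theorem en127 (h : In b E x1 x2 x3) : Enc S E (t127 b) (v127 x1 x2 x3) := enc_sub (en97 h) (en32 h)

def t128 (b : Bx) : TM := tsq S (t127 b)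
noncomputable def v128 (x1 x2 x3 : ℝ) : ℝ := (v127 x1 x2 x3) ^ 2
theorem en128 (h : In b E x1 x2 x3) : Enc S E (t128 b) (v128 x1 x2 x3) := enc_sq hS (en127 h)

def t129 (b : Bx) : TM := tadd (t60 b) (t127 b)
noncomputable def v129 (x1 x2 x3 : ℝ) : ℝ := v60 x1 x2 x3 + v127 x1 x2 x3
theorem en129 (h : In b E x1 x2 x3) : Enc S E (t129 b) (v129 x1 x2 x3) := enc_add (en60 h) (en127 h)

def t130 (b : Bx) : TM := tmul S (t83 b) (t129 b)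
noncomputable def v130 (x1 x2 x3 : ℝ) : ℝ := v83 x1 x2 x3 * v129 x1 x2 x3
theorem en130 (h : In b E x1 x2 x3) : Enc S E (t130 b) (v130 x1 x2 x3) := enc_mul hS (en83 h) (en129 h)

def t131 (b : Bx) : TM := tsub (t7 b) (t128 b)
noncomputable def v131 (x1 x2 x3 : ℝ) : ℝ := v7 x1 x2 x3 - v128 x1 x2 x3
theorem en131 (h : In b E x1 x2 x3) : Enc S E (t131 b) (v131 x1 x2 x3) := enc_sub (en7 h) (en128 h)

def t132 (b : Bx) : TM := tneg (t130 b)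
noncomputable def v132 (x1 x2 x3 : ℝ) : ℝ := -(v130 x1 x2 x3)
theorem en132 (h : In b E x1 x2 x3) : Enc S E (t132 b) (v132 x1 x2 x3) := enc_neg (en130 h)

def t133 (b : Bx) : TM := tsqrt S (t131 b)
noncomputable def v133 (x1 x2 x3 : ℝ) : ℝ := Real.sqrt (v131 x1 x2 x3)
theorem en133 (h : In b E x1 x2 x3) : Enc S E (t133 b) (v133 x1 x2 x3) := enc_sqrt hS (en131 h)

def t134 (b : Bx) : TM := tadd (t63 b) (t133 b)
noncomputable def v134 (x1 x2 x3 : ℝ) : ℝ := v63 x1 x2 x3 + v133 x1 x2 x3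
theorem en134 (h : In b E x1 x2 x3) : Enc S E (t134 b) (v134 x1 x2 x3) := enc_add (en63 h) (en133 h)

def t135 (b : Bx) : TM := tinv S (t134 b)
noncomputable def v135 (x1 x2 x3 : ℝ) : ℝ := (v134 x1 x2 x3)⁻¹
theorem en135 (h : In b E x1 x2 x3) : Enc S E (t135 b) (v135 x1 x2 x3) := enc_inv hS (en134 h)

def t136 (b : Bx) : TM := tmul S (t132 b) (t135 b)
noncomputable def v136 (x1 x2 x3 : ℝ) : ℝ := v132 x1 x2 x3 * v135 x1 x2 x3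
theorem en136 (h : In b E x1 x2 x3) : Enc S E (t136 b) (v136 x1 x2 x3) := enc_mul hS (en132 h) (en135 h)

def t137 (b : Bx) : TM := tsub (t57 b) (t133 b)
noncomputable def v137 (x1 x2 x3 : ℝ) : ℝ := v57 x1 x2 x3 - v133 x1 x2 x3
theorem en137 (h : In b E x1 x2 x3) : Enc S E (t137 b) (v137 x1 x2 x3) := enc_sub (en57 h) (en133 h)

def t138 (b : Bx) : TM := tneg (t136 b)
noncomputable def v138 (x1 x2 x3 : ℝ) : ℝ := -(v136 x1 x2 x3)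
theorem en138 (h : In b E x1 x2 x3) : Enc S E (t138 b) (v138 x1 x2 x3) := enc_neg (en136 h)

def t139 (b : Bx) : TM := tsub (t112 b) (t32 b)
noncomputable def v139 (x1 x2 x3 : ℝ) : ℝ := v112 x1 x2 x3 - v32 x1 x2 x3
theorem en139 (h : In b E x1 x2 x3) : Enc S E (t139 b) (v139 x1 x2 x3) := enc_sub (en112 h) (en32 h)

def t140 (b : Bx) : TM := tsq S (t139 b)
noncomputable def v140 (x1 x2 x3 : ℝ) : ℝ := (v139 x1 x2 x3) ^ 2
theorem en140 (h : In b E x1 x2 x3) : Enc S E (t140 b) (v140 x1 x2 x3) := enc_sq hS (en139 h)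

def t141 (b : Bx) : TM := tadd (t64 b) (t139 b)
noncomputable def v141 (x1 x2 x3 : ℝ) : ℝ := v64 x1 x2 x3 + v139 x1 x2 x3
theorem en141 (h : In b E x1 x2 x3) : Enc S E (t141 b) (v141 x1 x2 x3) := enc_add (en64 h) (en139 h)

def t142 (b : Bx) : TM := tmul S (t83 b) (t141 b)
noncomputable def v142 (x1 x2 x3 : ℝ) : ℝ := v83 x1 x2 x3 * v141 x1 x2 x3
theorem en142 (h : In b E x1 x2 x3) : Enc S E (t142 b) (v142 x1 x2 x3) := enc_mul hS (en83 h) (en141 h)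

def t143 (b : Bx) : TM := tsub (t7 b) (t140 b)
noncomputable def v143 (x1 x2 x3 : ℝ) : ℝ := v7 x1 x2 x3 - v140 x1 x2 x3
theorem en143 (h : In b E x1 x2 x3) : Enc S E (t143 b) (v143 x1 x2 x3) := enc_sub (en7 h) (en140 h)

def t144 (b : Bx) : TM := tneg (t142 b)
noncomputable def v144 (x1 x2 x3 : ℝ) : ℝ := -(v142 x1 x2 x3)
theorem en144 (h : In b E x1 x2 x3) : Enc S E (t144 b) (v144 x1 x2 x3) := enc_neg (en142 h)

def t145 (b : Bx) : TM := tsqrt S (t143 b)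
noncomputable def v145 (x1 x2 x3 : ℝ) : ℝ := Real.sqrt (v143 x1 x2 x3)
theorem en145 (h : In b E x1 x2 x3) : Enc S E (t145 b) (v145 x1 x2 x3) := enc_sqrt hS (en143 h)

def t146 (b : Bx) : TM := tadd (t67 b) (t145 b)
noncomputable def v146 (x1 x2 x3 : ℝ) : ℝ := v67 x1 x2 x3 + v145 x1 x2 x3
theorem en146 (h : In b E x1 x2 x3) : Enc S E (t146 b) (v146 x1 x2 x3) := enc_add (en67 h) (en145 h)

def t147 (b : Bx) : TM := tinv S (t146 b)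
noncomputable def v147 (x1 x2 x3 : ℝ) : ℝ := (v146 x1 x2 x3)⁻¹
theorem en147 (h : In b E x1 x2 x3) : Enc S E (t147 b) (v147 x1 x2 x3) := enc_inv hS (en146 h)

def t148 (b : Bx) : TM := tmul S (t144 b) (t147 b)
noncomputable def v148 (x1 x2 x3 : ℝ) : ℝ := v144 x1 x2 x3 * v147 x1 x2 x3
theorem en148 (h : In b E x1 x2 x3) : Enc S E (t148 b) (v148 x1 x2 x3) := enc_mul hS (en144 h) (en147 h)

def t149 (b : Bx) : TM := tsub (t137 b) (t145 b)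
noncomputable def v149 (x1 x2 x3 : ℝ) : ℝ := v137 x1 x2 x3 - v145 x1 x2 x3
theorem en149 (h : In b E x1 x2 x3) : Enc S E (t149 b) (v149 x1 x2 x3) := enc_sub (en137 h) (en145 h)

def t150 (b : Bx) : TM := tsub (t138 b) (t148 b)
noncomputable def v150 (x1 x2 x3 : ℝ) : ℝ := v138 x1 x2 x3 - v148 x1 x2 x3
theorem en150 (h : In b E x1 x2 x3) : Enc S E (t150 b) (v150 x1 x2 x3) := enc_sub (en138 h) (en148 h)

def t151 (b : Bx) : TM := tadd (t125 b) (t149 b)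
noncomputable def v151 (x1 x2 x3 : ℝ) : ℝ := v125 x1 x2 x3 + v149 x1 x2 x3
theorem en151 (h : In b E x1 x2 x3) : Enc S E (t151 b) (v151 x1 x2 x3) := enc_add (en125 h) (en149 h)

def t152 (b : Bx) : TM := tadd (t126 b) (t150 b)
noncomputable def v152 (x1 x2 x3 : ℝ) : ℝ := v126 x1 x2 x3 + v150 x1 x2 x3
theorem en152 (h : In b E x1 x2 x3) : Enc S E (t152 b) (v152 x1 x2 x3) := enc_add (en126 h) (en150 h)

def t153 (b : Bx) : TM := tscale 9 5 (t151 b)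
noncomputable def v153 (x1 x2 x3 : ℝ) : ℝ := ((9 : ℕ) : ℝ) / ((5 : ℕ) : ℝ) * v151 x1 x2 x3
theorem en153 (h : In b E x1 x2 x3) : Enc S E (t153 b) (v153 x1 x2 x3) := enc_scale 9 (by norm_num) (en151 h)

def t154 (b : Bx) : TM := tscale 9 5 (t152 b)
noncomputable def v154 (x1 x2 x3 : ℝ) : ℝ := ((9 : ℕ) : ℝ) / ((5 : ℕ) : ℝ) * v152 x1 x2 x3
theorem en154 (h : In b E x1 x2 x3) : Enc S E (t154 b) (v154 x1 x2 x3) := enc_scale 9 (by norm_num) (en152 h)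

def t155 (b : Bx) : TM := tadd (t96 b) (t153 b)
noncomputable def v155 (x1 x2 x3 : ℝ) : ℝ := v96 x1 x2 x3 + v153 x1 x2 x3
theorem en155 (h : In b E x1 x2 x3) : Enc S E (t155 b) (v155 x1 x2 x3) := enc_add (en96 h) (en153 h)

def t156 (b : Bx) : TM := tadd (t94 b) (t154 b)
noncomputable def v156 (x1 x2 x3 : ℝ) : ℝ := v94 x1 x2 x3 + v154 x1 x2 x3
theorem en156 (h : In b E x1 x2 x3) : Enc S E (t156 b) (v156 x1 x2 x3) := enc_add (en94 h) (en154 h)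

def t157 (b : Bx) : TM := tsub (t57 b) (t104 b)
noncomputable def v157 (x1 x2 x3 : ℝ) : ℝ := v57 x1 x2 x3 - v104 x1 x2 x3
theorem en157 (h : In b E x1 x2 x3) : Enc S E (t157 b) (v157 x1 x2 x3) := enc_sub (en57 h) (en104 h)

def t158 (b : Bx) : TM := tsub (t157 b) (t119 b)
noncomputable def v158 (x1 x2 x3 : ℝ) : ℝ := v157 x1 x2 x3 - v119 x1 x2 x3
theorem en158 (h : In b E x1 x2 x3) : Enc S E (t158 b) (v158 x1 x2 x3) := enc_sub (en157 h) (en119 h)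

def t159 (b : Bx) : TM := tscale 1 5 (t158 b)
noncomputable def v159 (x1 x2 x3 : ℝ) : ℝ := ((1 : ℕ) : ℝ) / ((5 : ℕ) : ℝ) * v158 x1 x2 x3
theorem en159 (h : In b E x1 x2 x3) : Enc S E (t159 b) (v159 x1 x2 x3) := enc_scale 1 (by norm_num) (en158 h)

def t160 (b : Bx) : TM := tscale 1 5 (t126 b)
noncomputable def v160 (x1 x2 x3 : ℝ) : ℝ := ((1 : ℕ) : ℝ) / ((5 : ℕ) : ℝ) * v126 x1 x2 x3
theorem en160 (h : In b E x1 x2 x3) : Enc S E (t160 b) (v160 x1 x2 x3) := enc_scale 1 (by norm_num) (en126 h)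

def t161 (b : Bx) : TM := tadd (t155 b) (t159 b)
noncomputable def v161 (x1 x2 x3 : ℝ) : ℝ := v155 x1 x2 x3 + v159 x1 x2 x3
theorem en161 (h : In b E x1 x2 x3) : Enc S E (t161 b) (v161 x1 x2 x3) := enc_add (en155 h) (en159 h)

def t162 (b : Bx) : TM := tadd (t156 b) (t160 b)
noncomputable def v162 (x1 x2 x3 : ℝ) : ℝ := v156 x1 x2 x3 + v160 x1 x2 x3
theorem en162 (h : In b E x1 x2 x3) : Enc S E (t162 b) (v162 x1 x2 x3) := enc_add (en156 h) (en160 h)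

def t163 (b : Bx) : TM := tsub (t1 b) (t72 b)
noncomputable def v163 (x1 x2 x3 : ℝ) : ℝ := v1 x1 x2 x3 - v72 x1 x2 x3
theorem en163 (h : In b E x1 x2 x3) : Enc S E (t163 b) (v163 x1 x2 x3) := enc_sub (en1 h) (en72 h)

def t164 (b : Bx) : TM := tscale 1 2 (t163 b)
noncomputable def v164 (x1 x2 x3 : ℝ) : ℝ := ((1 : ℕ) : ℝ) / ((2 : ℕ) : ℝ) * v163 x1 x2 x3
theorem en164 (h : In b E x1 x2 x3) : Enc S E (t164 b) (v164 x1 x2 x3) := enc_scale 1 (by norm_num) (en163 h)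

def t165 (b : Bx) : TM := tscale 1 2 (t83 b)
noncomputable def v165 (x1 x2 x3 : ℝ) : ℝ := ((1 : ℕ) : ℝ) / ((2 : ℕ) : ℝ) * v83 x1 x2 x3
theorem en165 (h : In b E x1 x2 x3) : Enc S E (t165 b) (v165 x1 x2 x3) := enc_scale 1 (by norm_num) (en83 h)

def t166 (b : Bx) : TM := tsq S (t163 b)
noncomputable def v166 (x1 x2 x3 : ℝ) : ℝ := (v163 x1 x2 x3) ^ 2
theorem en166 (h : In b E x1 x2 x3) : Enc S E (t166 b) (v166 x1 x2 x3) := enc_sq hS (en163 h)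

def t167 (b : Bx) : TM := tadd (t5 b) (t163 b)
noncomputable def v167 (x1 x2 x3 : ℝ) : ℝ := v5 x1 x2 x3 + v163 x1 x2 x3
theorem en167 (h : In b E x1 x2 x3) : Enc S E (t167 b) (v167 x1 x2 x3) := enc_add (en5 h) (en163 h)

def t168 (b : Bx) : TM := tmul S (t83 b) (t167 b)
noncomputable def v168 (x1 x2 x3 : ℝ) : ℝ := v83 x1 x2 x3 * v167 x1 x2 x3
theorem en168 (h : In b E x1 x2 x3) : Enc S E (t168 b) (v168 x1 x2 x3) := enc_mul hS (en83 h) (en167 h)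

def t169 (b : Bx) : TM := tsub (t7 b) (t166 b)
noncomputable def v169 (x1 x2 x3 : ℝ) : ℝ := v7 x1 x2 x3 - v166 x1 x2 x3
theorem en169 (h : In b E x1 x2 x3) : Enc S E (t169 b) (v169 x1 x2 x3) := enc_sub (en7 h) (en166 h)

def t170 (b : Bx) : TM := tneg (t168 b)
noncomputable def v170 (x1 x2 x3 : ℝ) : ℝ := -(v168 x1 x2 x3)
theorem en170 (h : In b E x1 x2 x3) : Enc S E (t170 b) (v170 x1 x2 x3) := enc_neg (en168 h)

def t171 (b : Bx) : TM := tsqrt S (t169 b)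
noncomputable def v171 (x1 x2 x3 : ℝ) : ℝ := Real.sqrt (v169 x1 x2 x3)
theorem en171 (h : In b E x1 x2 x3) : Enc S E (t171 b) (v171 x1 x2 x3) := enc_sqrt hS (en169 h)

def t172 (b : Bx) : TM := tadd (t9 b) (t171 b)
noncomputable def v172 (x1 x2 x3 : ℝ) : ℝ := v9 x1 x2 x3 + v171 x1 x2 x3
theorem en172 (h : In b E x1 x2 x3) : Enc S E (t172 b) (v172 x1 x2 x3) := enc_add (en9 h) (en171 h)

def t173 (b : Bx) : TM := tinv S (t172 b)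
noncomputable def v173 (x1 x2 x3 : ℝ) : ℝ := (v172 x1 x2 x3)⁻¹
theorem en173 (h : In b E x1 x2 x3) : Enc S E (t173 b) (v173 x1 x2 x3) := enc_inv hS (en172 h)

def t174 (b : Bx) : TM := tmul S (t170 b) (t173 b)
noncomputable def v174 (x1 x2 x3 : ℝ) : ℝ := v170 x1 x2 x3 * v173 x1 x2 x3
theorem en174 (h : In b E x1 x2 x3) : Enc S E (t174 b) (v174 x1 x2 x3) := enc_mul hS (en170 h) (en173 h)

def t175 (b : Bx) : TM := tmul S (t1 b) (t171 b)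
noncomputable def v175 (x1 x2 x3 : ℝ) : ℝ := v1 x1 x2 x3 * v171 x1 x2 x3
theorem en175 (h : In b E x1 x2 x3) : Enc S E (t175 b) (v175 x1 x2 x3) := enc_mul hS (en1 h) (en171 h)

def t176 (b : Bx) : TM := tmul S (t1 b) (t174 b)
noncomputable def v176 (x1 x2 x3 : ℝ) : ℝ := v1 x1 x2 x3 * v174 x1 x2 x3
theorem en176 (h : In b E x1 x2 x3) : Enc S E (t176 b) (v176 x1 x2 x3) := enc_mul hS (en1 h) (en174 h)

def t177 (b : Bx) : TM := tadd (t164 b) (t175 b)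
noncomputable def v177 (x1 x2 x3 : ℝ) : ℝ := v164 x1 x2 x3 + v175 x1 x2 x3
theorem en177 (h : In b E x1 x2 x3) : Enc S E (t177 b) (v177 x1 x2 x3) := enc_add (en164 h) (en175 h)

def t178 (b : Bx) : TM := tadd (t165 b) (t176 b)
noncomputable def v178 (x1 x2 x3 : ℝ) : ℝ := v165 x1 x2 x3 + v176 x1 x2 x3
theorem en178 (h : In b E x1 x2 x3) : Enc S E (t178 b) (v178 x1 x2 x3) := enc_add (en165 h) (en176 h)

def t179 (b : Bx) : TM := tsub (t18 b) (t177 b)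
noncomputable def v179 (x1 x2 x3 : ℝ) : ℝ := v18 x1 x2 x3 - v177 x1 x2 x3
theorem en179 (h : In b E x1 x2 x3) : Enc S E (t179 b) (v179 x1 x2 x3) := enc_sub (en18 h) (en177 h)

def t180 (b : Bx) : TM := tneg (t178 b)
noncomputable def v180 (x1 x2 x3 : ℝ) : ℝ := -(v178 x1 x2 x3)
theorem en180 (h : In b E x1 x2 x3) : Enc S E (t180 b) (v180 x1 x2 x3) := enc_neg (en178 h)

def t181 (b : Bx) : TM := tsub (t179 b) (t72 b)
noncomputable def v181 (x1 x2 x3 : ℝ) : ℝ := v179 x1 x2 x3 - v72 x1 x2 x3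
theorem en181 (h : In b E x1 x2 x3) : Enc S E (t181 b) (v181 x1 x2 x3) := enc_sub (en179 h) (en72 h)

def t182 (b : Bx) : TM := tsq S (t181 b)
noncomputable def v182 (x1 x2 x3 : ℝ) : ℝ := (v181 x1 x2 x3) ^ 2
theorem en182 (h : In b E x1 x2 x3) : Enc S E (t182 b) (v182 x1 x2 x3) := enc_sq hS (en181 h)

def t183 (b : Bx) : TM := tadd (t82 b) (t181 b)
noncomputable def v183 (x1 x2 x3 : ℝ) : ℝ := v82 x1 x2 x3 + v181 x1 x2 x3
theorem en183 (h : In b E x1 x2 x3) : Enc S E (t183 b) (v183 x1 x2 x3) := enc_add (en82 h) (en181 h)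

def t184 (b : Bx) : TM := tmul S (t180 b) (t183 b)
noncomputable def v184 (x1 x2 x3 : ℝ) : ℝ := v180 x1 x2 x3 * v183 x1 x2 x3
theorem en184 (h : In b E x1 x2 x3) : Enc S E (t184 b) (v184 x1 x2 x3) := enc_mul hS (en180 h) (en183 h)

def t185 (b : Bx) : TM := tsub (t7 b) (t182 b)
noncomputable def v185 (x1 x2 x3 : ℝ) : ℝ := v7 x1 x2 x3 - v182 x1 x2 x3
theorem en185 (h : In b E x1 x2 x3) : Enc S E (t185 b) (v185 x1 x2 x3) := enc_sub (en7 h) (en182 h)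

def t186 (b : Bx) : TM := tneg (t184 b)
noncomputable def v186 (x1 x2 x3 : ℝ) : ℝ := -(v184 x1 x2 x3)
theorem en186 (h : In b E x1 x2 x3) : Enc S E (t186 b) (v186 x1 x2 x3) := enc_neg (en184 h)

def t187 (b : Bx) : TM := tsqrt S (t185 b)
noncomputable def v187 (x1 x2 x3 : ℝ) : ℝ := Real.sqrt (v185 x1 x2 x3)
theorem en187 (h : In b E x1 x2 x3) : Enc S E (t187 b) (v187 x1 x2 x3) := enc_sqrt hS (en185 h)

def t188 (b : Bx) : TM := tadd (t89 b) (t187 b)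
noncomputable def v188 (x1 x2 x3 : ℝ) : ℝ := v89 x1 x2 x3 + v187 x1 x2 x3
theorem en188 (h : In b E x1 x2 x3) : Enc S E (t188 b) (v188 x1 x2 x3) := enc_add (en89 h) (en187 h)

def t189 (b : Bx) : TM := tinv S (t188 b)
noncomputable def v189 (x1 x2 x3 : ℝ) : ℝ := (v188 x1 x2 x3)⁻¹
theorem en189 (h : In b E x1 x2 x3) : Enc S E (t189 b) (v189 x1 x2 x3) := enc_inv hS (en188 h)

def t190 (b : Bx) : TM := tmul S (t186 b) (t189 b)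
noncomputable def v190 (x1 x2 x3 : ℝ) : ℝ := v186 x1 x2 x3 * v189 x1 x2 x3
theorem en190 (h : In b E x1 x2 x3) : Enc S E (t190 b) (v190 x1 x2 x3) := enc_mul hS (en186 h) (en189 h)

def t191 (b : Bx) : TM := tnat 8 (t187 b)
noncomputable def v191 (x1 x2 x3 : ℝ) : ℝ := ((8 : ℕ) : ℝ) * v187 x1 x2 x3
theorem en191 (h : In b E x1 x2 x3) : Enc S E (t191 b) (v191 x1 x2 x3) := enc_nat 8 (en187 h)

def t192 (b : Bx) : TM := tnat 8 (t190 b)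
noncomputable def v192 (x1 x2 x3 : ℝ) : ℝ := ((8 : ℕ) : ℝ) * v190 x1 x2 x3
theorem en192 (h : In b E x1 x2 x3) : Enc S E (t192 b) (v192 x1 x2 x3) := enc_nat 8 (en190 h)

def t193 (b : Bx) : TM := tsub (t191 b) (t37 b)
noncomputable def v193 (x1 x2 x3 : ℝ) : ℝ := v191 x1 x2 x3 - v37 x1 x2 x3
theorem en193 (h : In b E x1 x2 x3) : Enc S E (t193 b) (v193 x1 x2 x3) := enc_sub (en191 h) (en37 h)

def t194 (b : Bx) : TM := tsub (t193 b) (t39 b)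
noncomputable def v194 (x1 x2 x3 : ℝ) : ℝ := v193 x1 x2 x3 - v39 x1 x2 x3
theorem en194 (h : In b E x1 x2 x3) : Enc S E (t194 b) (v194 x1 x2 x3) := enc_sub (en193 h) (en39 h)

def t195 (b : Bx) : TM := tscale 1 2 (t171 b)
noncomputable def v195 (x1 x2 x3 : ℝ) : ℝ := ((1 : ℕ) : ℝ) / ((2 : ℕ) : ℝ) * v171 x1 x2 x3
theorem en195 (h : In b E x1 x2 x3) : Enc S E (t195 b) (v195 x1 x2 x3) := enc_scale 1 (by norm_num) (en171 h)

def t196 (b : Bx) : TM := tscale 1 2 (t174 b)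
noncomputable def v196 (x1 x2 x3 : ℝ) : ℝ := ((1 : ℕ) : ℝ) / ((2 : ℕ) : ℝ) * v174 x1 x2 x3
theorem en196 (h : In b E x1 x2 x3) : Enc S E (t196 b) (v196 x1 x2 x3) := enc_scale 1 (by norm_num) (en174 h)

def t197 (b : Bx) : TM := tmul S (t1 b) (t163 b)
noncomputable def v197 (x1 x2 x3 : ℝ) : ℝ := v1 x1 x2 x3 * v163 x1 x2 x3
theorem en197 (h : In b E x1 x2 x3) : Enc S E (t197 b) (v197 x1 x2 x3) := enc_mul hS (en1 h) (en163 h)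

def t198 (b : Bx) : TM := tmul S (t1 b) (t83 b)
noncomputable def v198 (x1 x2 x3 : ℝ) : ℝ := v1 x1 x2 x3 * v83 x1 x2 x3
theorem en198 (h : In b E x1 x2 x3) : Enc S E (t198 b) (v198 x1 x2 x3) := enc_mul hS (en1 h) (en83 h)

def t199 (b : Bx) : TM := tadd (t195 b) (t197 b)
noncomputable def v199 (x1 x2 x3 : ℝ) : ℝ := v195 x1 x2 x3 + v197 x1 x2 x3
theorem en199 (h : In b E x1 x2 x3) : Enc S E (t199 b) (v199 x1 x2 x3) := enc_add (en195 h) (en197 h)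

def t200 (b : Bx) : TM := tadd (t196 b) (t198 b)
noncomputable def v200 (x1 x2 x3 : ℝ) : ℝ := v196 x1 x2 x3 + v198 x1 x2 x3
theorem en200 (h : In b E x1 x2 x3) : Enc S E (t200 b) (v200 x1 x2 x3) := enc_add (en196 h) (en198 h)

def t201 (b : Bx) : TM := tadd (t199 b) (t7 b)
noncomputable def v201 (x1 x2 x3 : ℝ) : ℝ := v199 x1 x2 x3 + v7 x1 x2 x3
theorem en201 (h : In b E x1 x2 x3) : Enc S E (t201 b) (v201 x1 x2 x3) := enc_add (en199 h) (en7 h)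

def t202 (b : Bx) : TM := tadd (t181 b) (t177 b)
noncomputable def v202 (x1 x2 x3 : ℝ) : ℝ := v181 x1 x2 x3 + v177 x1 x2 x3
theorem en202 (h : In b E x1 x2 x3) : Enc S E (t202 b) (v202 x1 x2 x3) := enc_add (en181 h) (en177 h)

def t203 (b : Bx) : TM := tadd (t180 b) (t178 b)
noncomputable def v203 (x1 x2 x3 : ℝ) : ℝ := v180 x1 x2 x3 + v178 x1 x2 x3
theorem en203 (h : In b E x1 x2 x3) : Enc S E (t203 b) (v203 x1 x2 x3) := enc_add (en180 h) (en178 h)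

def t204 (b : Bx) : TM := tsub (t202 b) (t1 b)
noncomputable def v204 (x1 x2 x3 : ℝ) : ℝ := v202 x1 x2 x3 - v1 x1 x2 x3
theorem en204 (h : In b E x1 x2 x3) : Enc S E (t204 b) (v204 x1 x2 x3) := enc_sub (en202 h) (en1 h)

def t205 (b : Bx) : TM := tsq S (t204 b)
noncomputable def v205 (x1 x2 x3 : ℝ) : ℝ := (v204 x1 x2 x3) ^ 2
theorem en205 (h : In b E x1 x2 x3) : Enc S E (t205 b) (v205 x1 x2 x3) := enc_sq hS (en204 h)

def t206 (b : Bx) : TM := tadd (t98 b) (t204 b)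
noncomputable def v206 (x1 x2 x3 : ℝ) : ℝ := v98 x1 x2 x3 + v204 x1 x2 x3
theorem en206 (h : In b E x1 x2 x3) : Enc S E (t206 b) (v206 x1 x2 x3) := enc_add (en98 h) (en204 h)

def t207 (b : Bx) : TM := tmul S (t203 b) (t206 b)
noncomputable def v207 (x1 x2 x3 : ℝ) : ℝ := v203 x1 x2 x3 * v206 x1 x2 x3
theorem en207 (h : In b E x1 x2 x3) : Enc S E (t207 b) (v207 x1 x2 x3) := enc_mul hS (en203 h) (en206 h)

def t208 (b : Bx) : TM := tsub (t7 b) (t205 b)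
noncomputable def v208 (x1 x2 x3 : ℝ) : ℝ := v7 x1 x2 x3 - v205 x1 x2 x3
theorem en208 (h : In b E x1 x2 x3) : Enc S E (t208 b) (v208 x1 x2 x3) := enc_sub (en7 h) (en205 h)

def t209 (b : Bx) : TM := tneg (t207 b)
noncomputable def v209 (x1 x2 x3 : ℝ) : ℝ := -(v207 x1 x2 x3)
theorem en209 (h : In b E x1 x2 x3) : Enc S E (t209 b) (v209 x1 x2 x3) := enc_neg (en207 h)

def t210 (b : Bx) : TM := tsqrt S (t208 b)
noncomputable def v210 (x1 x2 x3 : ℝ) : ℝ := Real.sqrt (v208 x1 x2 x3)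
theorem en210 (h : In b E x1 x2 x3) : Enc S E (t210 b) (v210 x1 x2 x3) := enc_sqrt hS (en208 h)

def t211 (b : Bx) : TM := tadd (t104 b) (t210 b)
noncomputable def v211 (x1 x2 x3 : ℝ) : ℝ := v104 x1 x2 x3 + v210 x1 x2 x3
theorem en211 (h : In b E x1 x2 x3) : Enc S E (t211 b) (v211 x1 x2 x3) := enc_add (en104 h) (en210 h)

def t212 (b : Bx) : TM := tinv S (t211 b)
noncomputable def v212 (x1 x2 x3 : ℝ) : ℝ := (v211 x1 x2 x3)⁻¹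
theorem en212 (h : In b E x1 x2 x3) : Enc S E (t212 b) (v212 x1 x2 x3) := enc_inv hS (en211 h)

def t213 (b : Bx) : TM := tmul S (t209 b) (t212 b)
noncomputable def v213 (x1 x2 x3 : ℝ) : ℝ := v209 x1 x2 x3 * v212 x1 x2 x3
theorem en213 (h : In b E x1 x2 x3) : Enc S E (t213 b) (v213 x1 x2 x3) := enc_mul hS (en209 h) (en212 h)

def t214 (b : Bx) : TM := tadd (t210 b) (t7 b)
noncomputable def v214 (x1 x2 x3 : ℝ) : ℝ := v210 x1 x2 x3 + v7 x1 x2 x3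
theorem en214 (h : In b E x1 x2 x3) : Enc S E (t214 b) (v214 x1 x2 x3) := enc_add (en210 h) (en7 h)

def t215 (b : Bx) : TM := tsub (t214 b) (t27 b)
noncomputable def v215 (x1 x2 x3 : ℝ) : ℝ := v214 x1 x2 x3 - v27 x1 x2 x3
theorem en215 (h : In b E x1 x2 x3) : Enc S E (t215 b) (v215 x1 x2 x3) := enc_sub (en214 h) (en27 h)

def t216 (b : Bx) : TM := tsub (t201 b) (t215 b)
noncomputable def v216 (x1 x2 x3 : ℝ) : ℝ := v201 x1 x2 x3 - v215 x1 x2 x3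
theorem en216 (h : In b E x1 x2 x3) : Enc S E (t216 b) (v216 x1 x2 x3) := enc_sub (en201 h) (en215 h)

def t217 (b : Bx) : TM := tsub (t200 b) (t213 b)
noncomputable def v217 (x1 x2 x3 : ℝ) : ℝ := v200 x1 x2 x3 - v213 x1 x2 x3
theorem en217 (h : In b E x1 x2 x3) : Enc S E (t217 b) (v217 x1 x2 x3) := enc_sub (en200 h) (en213 h)

def t218 (b : Bx) : TM := tadd (t181 b) (t163 b)
noncomputable def v218 (x1 x2 x3 : ℝ) : ℝ := v181 x1 x2 x3 + v163 x1 x2 x3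
theorem en218 (h : In b E x1 x2 x3) : Enc S E (t218 b) (v218 x1 x2 x3) := enc_add (en181 h) (en163 h)

def t219 (b : Bx) : TM := tadd (t180 b) (t83 b)
noncomputable def v219 (x1 x2 x3 : ℝ) : ℝ := v180 x1 x2 x3 + v83 x1 x2 x3
theorem en219 (h : In b E x1 x2 x3) : Enc S E (t219 b) (v219 x1 x2 x3) := enc_add (en180 h) (en83 h)

def t220 (b : Bx) : TM := tsub (t218 b) (t1 b)
noncomputable def v220 (x1 x2 x3 : ℝ) : ℝ := v218 x1 x2 x3 - v1 x1 x2 x3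
theorem en220 (h : In b E x1 x2 x3) : Enc S E (t220 b) (v220 x1 x2 x3) := enc_sub (en218 h) (en1 h)

def t221 (b : Bx) : TM := tsq S (t220 b)
noncomputable def v221 (x1 x2 x3 : ℝ) : ℝ := (v220 x1 x2 x3) ^ 2
theorem en221 (h : In b E x1 x2 x3) : Enc S E (t221 b) (v221 x1 x2 x3) := enc_sq hS (en220 h)

def t222 (b : Bx) : TM := tadd (t113 b) (t220 b)
noncomputable def v222 (x1 x2 x3 : ℝ) : ℝ := v113 x1 x2 x3 + v220 x1 x2 x3
theorem en222 (h : In b E x1 x2 x3) : Enc S E (t222 b) (v222 x1 x2 x3) := enc_add (en113 h) (en220 h)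

def t223 (b : Bx) : TM := tmul S (t219 b) (t222 b)
noncomputable def v223 (x1 x2 x3 : ℝ) : ℝ := v219 x1 x2 x3 * v222 x1 x2 x3
theorem en223 (h : In b E x1 x2 x3) : Enc S E (t223 b) (v223 x1 x2 x3) := enc_mul hS (en219 h) (en222 h)

def t224 (b : Bx) : TM := tsub (t7 b) (t221 b)
noncomputable def v224 (x1 x2 x3 : ℝ) : ℝ := v7 x1 x2 x3 - v221 x1 x2 x3
theorem en224 (h : In b E x1 x2 x3) : Enc S E (t224 b) (v224 x1 x2 x3) := enc_sub (en7 h) (en221 h)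

def t225 (b : Bx) : TM := tneg (t223 b)
noncomputable def v225 (x1 x2 x3 : ℝ) : ℝ := -(v223 x1 x2 x3)
theorem en225 (h : In b E x1 x2 x3) : Enc S E (t225 b) (v225 x1 x2 x3) := enc_neg (en223 h)

def t226 (b : Bx) : TM := tsqrt S (t224 b)
noncomputable def v226 (x1 x2 x3 : ℝ) : ℝ := Real.sqrt (v224 x1 x2 x3)
theorem en226 (h : In b E x1 x2 x3) : Enc S E (t226 b) (v226 x1 x2 x3) := enc_sqrt hS (en224 h)

def t227 (b : Bx) : TM := tadd (t119 b) (t226 b)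
noncomputable def v227 (x1 x2 x3 : ℝ) : ℝ := v119 x1 x2 x3 + v226 x1 x2 x3
theorem en227 (h : In b E x1 x2 x3) : Enc S E (t227 b) (v227 x1 x2 x3) := enc_add (en119 h) (en226 h)

def t228 (b : Bx) : TM := tinv S (t227 b)
noncomputable def v228 (x1 x2 x3 : ℝ) : ℝ := (v227 x1 x2 x3)⁻¹
theorem en228 (h : In b E x1 x2 x3) : Enc S E (t228 b) (v228 x1 x2 x3) := enc_inv hS (en227 h)

def t229 (b : Bx) : TM := tmul S (t225 b) (t228 b)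
noncomputable def v229 (x1 x2 x3 : ℝ) : ℝ := v225 x1 x2 x3 * v228 x1 x2 x3
theorem en229 (h : In b E x1 x2 x3) : Enc S E (t229 b) (v229 x1 x2 x3) := enc_mul hS (en225 h) (en228 h)

def t230 (b : Bx) : TM := tadd (t226 b) (t7 b)
noncomputable def v230 (x1 x2 x3 : ℝ) : ℝ := v226 x1 x2 x3 + v7 x1 x2 x3
theorem en230 (h : In b E x1 x2 x3) : Enc S E (t230 b) (v230 x1 x2 x3) := enc_add (en226 h) (en7 h)

def t231 (b : Bx) : TM := tsub (t230 b) (t27 b)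
noncomputable def v231 (x1 x2 x3 : ℝ) : ℝ := v230 x1 x2 x3 - v27 x1 x2 x3
theorem en231 (h : In b E x1 x2 x3) : Enc S E (t231 b) (v231 x1 x2 x3) := enc_sub (en230 h) (en27 h)

def t232 (b : Bx) : TM := tsub (t216 b) (t231 b)
noncomputable def v232 (x1 x2 x3 : ℝ) : ℝ := v216 x1 x2 x3 - v231 x1 x2 x3
theorem en232 (h : In b E x1 x2 x3) : Enc S E (t232 b) (v232 x1 x2 x3) := enc_sub (en216 h) (en231 h)

def t233 (b : Bx) : TM := tsub (t217 b) (t229 b)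
noncomputable def v233 (x1 x2 x3 : ℝ) : ℝ := v217 x1 x2 x3 - v229 x1 x2 x3
theorem en233 (h : In b E x1 x2 x3) : Enc S E (t233 b) (v233 x1 x2 x3) := enc_sub (en217 h) (en229 h)

def t234 (b : Bx) : TM := tsub (t202 b) (t32 b)
noncomputable def v234 (x1 x2 x3 : ℝ) : ℝ := v202 x1 x2 x3 - v32 x1 x2 x3
theorem en234 (h : In b E x1 x2 x3) : Enc S E (t234 b) (v234 x1 x2 x3) := enc_sub (en202 h) (en32 h)

def t235 (b : Bx) : TM := tsq S (t234 b)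
noncomputable def v235 (x1 x2 x3 : ℝ) : ℝ := (v234 x1 x2 x3) ^ 2
theorem en235 (h : In b E x1 x2 x3) : Enc S E (t235 b) (v235 x1 x2 x3) := enc_sq hS (en234 h)

def t236 (b : Bx) : TM := tadd (t127 b) (t234 b)
noncomputable def v236 (x1 x2 x3 : ℝ) : ℝ := v127 x1 x2 x3 + v234 x1 x2 x3
theorem en236 (h : In b E x1 x2 x3) : Enc S E (t236 b) (v236 x1 x2 x3) := enc_add (en127 h) (en234 h)

def t237 (b : Bx) : TM := tmul S (t203 b) (t236 b)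
noncomputable def v237 (x1 x2 x3 : ℝ) : ℝ := v203 x1 x2 x3 * v236 x1 x2 x3
theorem en237 (h : In b E x1 x2 x3) : Enc S E (t237 b) (v237 x1 x2 x3) := enc_mul hS (en203 h) (en236 h)

def t238 (b : Bx) : TM := tsub (t7 b) (t235 b)
noncomputable def v238 (x1 x2 x3 : ℝ) : ℝ := v7 x1 x2 x3 - v235 x1 x2 x3
theorem en238 (h : In b E x1 x2 x3) : Enc S E (t238 b) (v238 x1 x2 x3) := enc_sub (en7 h) (en235 h)

def t239 (b : Bx) : TM := tneg (t237 b)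
noncomputable def v239 (x1 x2 x3 : ℝ) : ℝ := -(v237 x1 x2 x3)
theorem en239 (h : In b E x1 x2 x3) : Enc S E (t239 b) (v239 x1 x2 x3) := enc_neg (en237 h)

def t240 (b : Bx) : TM := tsqrt S (t238 b)
noncomputable def v240 (x1 x2 x3 : ℝ) : ℝ := Real.sqrt (v238 x1 x2 x3)
theorem en240 (h : In b E x1 x2 x3) : Enc S E (t240 b) (v240 x1 x2 x3) := enc_sqrt hS (en238 h)

def t241 (b : Bx) : TM := tadd (t133 b) (t240 b)
noncomputable def v241 (x1 x2 x3 : ℝ) : ℝ := v133 x1 x2 x3 + v240 x1 x2 x3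
theorem en241 (h : In b E x1 x2 x3) : Enc S E (t241 b) (v241 x1 x2 x3) := enc_add (en133 h) (en240 h)

def t242 (b : Bx) : TM := tinv S (t241 b)
noncomputable def v242 (x1 x2 x3 : ℝ) : ℝ := (v241 x1 x2 x3)⁻¹
theorem en242 (h : In b E x1 x2 x3) : Enc S E (t242 b) (v242 x1 x2 x3) := enc_inv hS (en241 h)

def t243 (b : Bx) : TM := tmul S (t239 b) (t242 b)
noncomputable def v243 (x1 x2 x3 : ℝ) : ℝ := v239 x1 x2 x3 * v242 x1 x2 x3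
theorem en243 (h : In b E x1 x2 x3) : Enc S E (t243 b) (v243 x1 x2 x3) := enc_mul hS (en239 h) (en242 h)

def t244 (b : Bx) : TM := tsub (t201 b) (t240 b)
noncomputable def v244 (x1 x2 x3 : ℝ) : ℝ := v201 x1 x2 x3 - v240 x1 x2 x3
theorem en244 (h : In b E x1 x2 x3) : Enc S E (t244 b) (v244 x1 x2 x3) := enc_sub (en201 h) (en240 h)

def t245 (b : Bx) : TM := tsub (t200 b) (t243 b)
noncomputable def v245 (x1 x2 x3 : ℝ) : ℝ := v200 x1 x2 x3 - v243 x1 x2 x3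
theorem en245 (h : In b E x1 x2 x3) : Enc S E (t245 b) (v245 x1 x2 x3) := enc_sub (en200 h) (en243 h)

def t246 (b : Bx) : TM := tsub (t218 b) (t32 b)
noncomputable def v246 (x1 x2 x3 : ℝ) : ℝ := v218 x1 x2 x3 - v32 x1 x2 x3
theorem en246 (h : In b E x1 x2 x3) : Enc S E (t246 b) (v246 x1 x2 x3) := enc_sub (en218 h) (en32 h)

def t247 (b : Bx) : TM := tsq S (t246 b)
noncomputable def v247 (x1 x2 x3 : ℝ) : ℝ := (v246 x1 x2 x3) ^ 2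
theorem en247 (h : In b E x1 x2 x3) : Enc S E (t247 b) (v247 x1 x2 x3) := enc_sq hS (en246 h)

def t248 (b : Bx) : TM := tadd (t139 b) (t246 b)
noncomputable def v248 (x1 x2 x3 : ℝ) : ℝ := v139 x1 x2 x3 + v246 x1 x2 x3
theorem en248 (h : In b E x1 x2 x3) : Enc S E (t248 b) (v248 x1 x2 x3) := enc_add (en139 h) (en246 h)

def t249 (b : Bx) : TM := tmul S (t219 b) (t248 b)
noncomputable def v249 (x1 x2 x3 : ℝ) : ℝ := v219 x1 x2 x3 * v248 x1 x2 x3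
theorem en249 (h : In b E x1 x2 x3) : Enc S E (t249 b) (v249 x1 x2 x3) := enc_mul hS (en219 h) (en248 h)

def t250 (b : Bx) : TM := tsub (t7 b) (t247 b)
noncomputable def v250 (x1 x2 x3 : ℝ) : ℝ := v7 x1 x2 x3 - v247 x1 x2 x3
theorem en250 (h : In b E x1 x2 x3) : Enc S E (t250 b) (v250 x1 x2 x3) := enc_sub (en7 h) (en247 h)

def t251 (b : Bx) : TM := tneg (t249 b)
noncomputable def v251 (x1 x2 x3 : ℝ) : ℝ := -(v249 x1 x2 x3)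
theorem en251 (h : In b E x1 x2 x3) : Enc S E (t251 b) (v251 x1 x2 x3) := enc_neg (en249 h)

def t252 (b : Bx) : TM := tsqrt S (t250 b)
noncomputable def v252 (x1 x2 x3 : ℝ) : ℝ := Real.sqrt (v250 x1 x2 x3)
theorem en252 (h : In b E x1 x2 x3) : Enc S E (t252 b) (v252 x1 x2 x3) := enc_sqrt hS (en250 h)

def t253 (b : Bx) : TM := tadd (t145 b) (t252 b)
noncomputable def v253 (x1 x2 x3 : ℝ) : ℝ := v145 x1 x2 x3 + v252 x1 x2 x3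
theorem en253 (h : In b E x1 x2 x3) : Enc S E (t253 b) (v253 x1 x2 x3) := enc_add (en145 h) (en252 h)

def t254 (b : Bx) : TM := tinv S (t253 b)
noncomputable def v254 (x1 x2 x3 : ℝ) : ℝ := (v253 x1 x2 x3)⁻¹
theorem en254 (h : In b E x1 x2 x3) : Enc S E (t254 b) (v254 x1 x2 x3) := enc_inv hS (en253 h)

def t255 (b : Bx) : TM := tmul S (t251 b) (t254 b)
noncomputable def v255 (x1 x2 x3 : ℝ) : ℝ := v251 x1 x2 x3 * v254 x1 x2 x3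
theorem en255 (h : In b E x1 x2 x3) : Enc S E (t255 b) (v255 x1 x2 x3) := enc_mul hS (en251 h) (en254 h)

def t256 (b : Bx) : TM := tsub (t244 b) (t252 b)
noncomputable def v256 (x1 x2 x3 : ℝ) : ℝ := v244 x1 x2 x3 - v252 x1 x2 x3
theorem en256 (h : In b E x1 x2 x3) : Enc S E (t256 b) (v256 x1 x2 x3) := enc_sub (en244 h) (en252 h)

def t257 (b : Bx) : TM := tsub (t245 b) (t255 b)
noncomputable def v257 (x1 x2 x3 : ℝ) : ℝ := v245 x1 x2 x3 - v255 x1 x2 x3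
theorem en257 (h : In b E x1 x2 x3) : Enc S E (t257 b) (v257 x1 x2 x3) := enc_sub (en245 h) (en255 h)

def t258 (b : Bx) : TM := tadd (t232 b) (t256 b)
noncomputable def v258 (x1 x2 x3 : ℝ) : ℝ := v232 x1 x2 x3 + v256 x1 x2 x3
theorem en258 (h : In b E x1 x2 x3) : Enc S E (t258 b) (v258 x1 x2 x3) := enc_add (en232 h) (en256 h)

def t259 (b : Bx) : TM := tadd (t233 b) (t257 b)
noncomputable def v259 (x1 x2 x3 : ℝ) : ℝ := v233 x1 x2 x3 + v257 x1 x2 x3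
theorem en259 (h : In b E x1 x2 x3) : Enc S E (t259 b) (v259 x1 x2 x3) := enc_add (en233 h) (en257 h)

def t260 (b : Bx) : TM := tscale 9 5 (t258 b)
noncomputable def v260 (x1 x2 x3 : ℝ) : ℝ := ((9 : ℕ) : ℝ) / ((5 : ℕ) : ℝ) * v258 x1 x2 x3
theorem en260 (h : In b E x1 x2 x3) : Enc S E (t260 b) (v260 x1 x2 x3) := enc_scale 9 (by norm_num) (en258 h)

def t261 (b : Bx) : TM := tscale 9 5 (t259 b)
noncomputable def v261 (x1 x2 x3 : ℝ) : ℝ := ((9 : ℕ) : ℝ) / ((5 : ℕ) : ℝ) * v259 x1 x2 x3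
theorem en261 (h : In b E x1 x2 x3) : Enc S E (t261 b) (v261 x1 x2 x3) := enc_scale 9 (by norm_num) (en259 h)

def t262 (b : Bx) : TM := tadd (t194 b) (t260 b)
noncomputable def v262 (x1 x2 x3 : ℝ) : ℝ := v194 x1 x2 x3 + v260 x1 x2 x3
theorem en262 (h : In b E x1 x2 x3) : Enc S E (t262 b) (v262 x1 x2 x3) := enc_add (en194 h) (en260 h)

def t263 (b : Bx) : TM := tadd (t192 b) (t261 b)
noncomputable def v263 (x1 x2 x3 : ℝ) : ℝ := v192 x1 x2 x3 + v261 x1 x2 x3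
theorem en263 (h : In b E x1 x2 x3) : Enc S E (t263 b) (v263 x1 x2 x3) := enc_add (en192 h) (en261 h)

def t264 (b : Bx) : TM := tsub (t201 b) (t210 b)
noncomputable def v264 (x1 x2 x3 : ℝ) : ℝ := v201 x1 x2 x3 - v210 x1 x2 x3
theorem en264 (h : In b E x1 x2 x3) : Enc S E (t264 b) (v264 x1 x2 x3) := enc_sub (en201 h) (en210 h)

def t265 (b : Bx) : TM := tsub (t264 b) (t226 b)
noncomputable def v265 (x1 x2 x3 : ℝ) : ℝ := v264 x1 x2 x3 - v226 x1 x2 x3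
theorem en265 (h : In b E x1 x2 x3) : Enc S E (t265 b) (v265 x1 x2 x3) := enc_sub (en264 h) (en226 h)

def t266 (b : Bx) : TM := tscale 1 5 (t265 b)
noncomputable def v266 (x1 x2 x3 : ℝ) : ℝ := ((1 : ℕ) : ℝ) / ((5 : ℕ) : ℝ) * v265 x1 x2 x3
theorem en266 (h : In b E x1 x2 x3) : Enc S E (t266 b) (v266 x1 x2 x3) := enc_scale 1 (by norm_num) (en265 h)

def t267 (b : Bx) : TM := tscale 1 5 (t233 b)
noncomputable def v267 (x1 x2 x3 : ℝ) : ℝ := ((1 : ℕ) : ℝ) / ((5 : ℕ) : ℝ) * v233 x1 x2 x3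
theorem en267 (h : In b E x1 x2 x3) : Enc S E (t267 b) (v267 x1 x2 x3) := enc_scale 1 (by norm_num) (en233 h)

def t268 (b : Bx) : TM := tadd (t262 b) (t266 b)
noncomputable def v268 (x1 x2 x3 : ℝ) : ℝ := v262 x1 x2 x3 + v266 x1 x2 x3
theorem en268 (h : In b E x1 x2 x3) : Enc S E (t268 b) (v268 x1 x2 x3) := enc_add (en262 h) (en266 h)

def t269 (b : Bx) : TM := tadd (t263 b) (t267 b)
noncomputable def v269 (x1 x2 x3 : ℝ) : ℝ := v263 x1 x2 x3 + v267 x1 x2 x3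
theorem en269 (h : In b E x1 x2 x3) : Enc S E (t269 b) (v269 x1 x2 x3) := enc_add (en263 h) (en267 h)

end

def tst (b : Bx) : Bool := and (pos (t162 b)) (and (pos (t269 b)) (and (pos (t34 b)) (and (pos (t87 b)) (and (pos (t53 b)) (and (pos (t102 b)) (and (pos (t43 b)) (and (pos (t117 b)) (and (pos (t62 b)) (and (pos (t131 b)) (and (pos (t66 b)) (and (pos (t143 b)) (and (pos (t8 b)) (and (pos (t169 b)) (and (pos (t185 b)) (and (pos (t208 b)) (and (pos (t224 b)) (and (pos (t238 b)) (pos (t250 b)))))))))))))))))))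

def f (b : Bx) : Nat := go (tst b) 1 (t77 b) b

/-- the conditions -/
def Cnd (x1 x2 x3 : ℝ) : Prop := 0 < v34 x1 x2 x3 ∧ 0 < v87 x1 x2 x3 ∧ 0 < v53 x1 x2 x3 ∧ 0 < v102 x1 x2 x3 ∧ 0 < v43 x1 x2 x3 ∧ 0 < v117 x1 x2 x3 ∧ 0 < v62 x1 x2 x3 ∧ 0 < v131 x1 x2 x3 ∧ 0 < v66 x1 x2 x3 ∧ 0 < v143 x1 x2 x3 ∧ 0 < v8 x1 x2 x3 ∧ 0 < v169 x1 x2 x3 ∧ 0 < v185 x1 x2 x3 ∧ 0 < v208 x1 x2 x3 ∧ 0 < v224 x1 x2 x3 ∧ 0 < v238 x1 x2 x3 ∧ 0 < v250 x1 x2 x3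

def Q (x1 x2 x3 : ℝ) : Prop := (0 < v162 x1 x2 x3 ∧ 0 < v269 x1 x2 x3 ∧ Cnd x1 x2 x3)

theorem f_sound (b : Bx) (hb : f b = 0) (x1 x2 x3 : ℝ) (hm : Mem S b x1 x2 x3) : Q x1 x2 x3 := by
  obtain ⟨E, h⟩ := pt_of_mem hm
  have h : In b E x1 x2 x3 := h
  have ht := go_sound hb
  unfold tst at ht
  unfold Q
  obtain ⟨k1, ht⟩ := Bool.and_eq_true_iff.mp ht
  have k1162 := pos_sound hS (en162 h) k1
  obtain ⟨k1, ht⟩ := Bool.and_eq_true_iff.mp ht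
  have k1269 := pos_sound hS (en269 h) k1
  obtain ⟨k1, ht⟩ := Bool.and_eq_true_iff.mp ht
  have k1034 := pos_sound hS (en34 h) k1
  obtain ⟨k1, ht⟩ := Bool.and_eq_true_iff.mp ht
  have k1087 := pos_sound hS (en87 h) k1
  obtain ⟨k1, ht⟩ := Bool.and_eq_true_iff.mp ht
  have k1053 := pos_sound hS (en53 h) k1
  obtain ⟨k1, ht⟩ := Bool.and_eq_true_iff.mp ht
  have k1102 := pos_sound hS (en102 h) k1
  obtain ⟨k1, ht⟩ := Bool.and_eq_true_iff.mp ht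
  have k1043 := pos_sound hS (en43 h) k1
  obtain ⟨k1, ht⟩ := Bool.and_eq_true_iff.mp ht
  have k1117 := pos_sound hS (en117 h) k1
  obtain ⟨k1, ht⟩ := Bool.and_eq_true_iff.mp ht
  have k1062 := pos_sound hS (en62 h) k1
  obtain ⟨k1, ht⟩ := Bool.and_eq_true_iff.mp ht
  have k1131 := pos_sound hS (en131 h) k1
  obtain ⟨k1, ht⟩ := Bool.and_eq_true_iff.mp ht
  have k1066 := pos_sound hS (en66 h) k1
  obtain ⟨k1, ht⟩ := Bool.and_eq_true_iff.mp ht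
  have k1143 := pos_sound hS (en143 h) k1
  obtain ⟨k1, ht⟩ := Bool.and_eq_true_iff.mp ht
  have k1008 := pos_sound hS (en8 h) k1
  obtain ⟨k1, ht⟩ := Bool.and_eq_true_iff.mp ht
  have k1169 := pos_sound hS (en169 h) k1
  obtain ⟨k1, ht⟩ := Bool.and_eq_true_iff.mp ht
  have k1185 := pos_sound hS (en185 h) k1
  obtain ⟨k1, ht⟩ := Bool.and_eq_true_iff.mp ht
  have k1208 := pos_sound hS (en208 h) k1
  obtain ⟨k1, ht⟩ := Bool.and_eq_true_iff.mp ht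
  have k1224 := pos_sound hS (en224 h) k1
  obtain ⟨k1, ht⟩ := Bool.and_eq_true_iff.mp ht
  have k1238 := pos_sound hS (en238 h) k1
  have k1250 := pos_sound hS (en250 h) ht
  exact ⟨k1162, k1269, k1034, k1087, k1053, k1102, k1043, k1117, k1062, k1131, k1066, k1143, k1008, k1169, k1185, k1208, k1224, k1238, k1250⟩

theorem sa_3 {x1 x2 x3 : ℝ} (_hc : Cnd x1 x2 x3) :
    v3 x1 x2 x3 = v72 x1 x2 x3 + x2 * v7 x1 x2 x3 := svar _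

theorem sa_20 {x1 x2 x3 : ℝ} (hc : Cnd x1 x2 x3) :
    v20 x1 x2 x3 = v82 x1 x2 x3 + x2 * v83 x1 x2 x3 := ssubr (sa_3 hc)

theorem sa_33 {x1 x2 x3 : ℝ} (hc : Cnd x1 x2 x3) :
    v33 x1 x2 x3 = v84 x1 x2 x3 + x2 * v86 x1 x2 x3 := ssq (sa_20 hc)

theorem sa_34 {x1 x2 x3 : ℝ} (hc : Cnd x1 x2 x3) :
    v34 x1 x2 x3 = v87 x1 x2 x3 + x2 * v88 x1 x2 x3 := ssubr (sa_33 hc)

theorem sa_35 {x1 x2 x3 : ℝ} (hc : Cnd x1 x2 x3) :
    v35 x1 x2 x3 = v89 x1 x2 x3 + x2 * v92 x1 x2 x3 := ssqrt (sa_34 hc) hc.1 hc.2.1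

theorem sa_36 {x1 x2 x3 : ℝ} (hc : Cnd x1 x2 x3) :
    v36 x1 x2 x3 = v93 x1 x2 x3 + x2 * v94 x1 x2 x3 := smulr (sa_35 hc)

theorem sa_38 {x1 x2 x3 : ℝ} (hc : Cnd x1 x2 x3) :
    v38 x1 x2 x3 = v95 x1 x2 x3 + x2 * v94 x1 x2 x3 := ssubl (sa_36 hc)

theorem sa_40 {x1 x2 x3 : ℝ} (hc : Cnd x1 x2 x3) :
    v40 x1 x2 x3 = v96 x1 x2 x3 + x2 * v94 x1 x2 x3 := ssubl (sa_38 hc)

theorem sa_28 {x1 x2 x3 : ℝ} (hc : Cnd x1 x2 x3) :
    v28 x1 x2 x3 = v97 x1 x2 x3 + x2 * v83 x1 x2 x3 := saddl (sa_20 hc)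

theorem sa_51 {x1 x2 x3 : ℝ} (hc : Cnd x1 x2 x3) :
    v51 x1 x2 x3 = v98 x1 x2 x3 + x2 * v83 x1 x2 x3 := ssubl (sa_28 hc)

theorem sa_52 {x1 x2 x3 : ℝ} (hc : Cnd x1 x2 x3) :
    v52 x1 x2 x3 = v99 x1 x2 x3 + x2 * v101 x1 x2 x3 := ssq (sa_51 hc)

theorem sa_53 {x1 x2 x3 : ℝ} (hc : Cnd x1 x2 x3) :
    v53 x1 x2 x3 = v102 x1 x2 x3 + x2 * v103 x1 x2 x3 := ssubr (sa_52 hc)

theorem sa_54 {x1 x2 x3 : ℝ} (hc : Cnd x1 x2 x3) :
    v54 x1 x2 x3 = v104 x1 x2 x3 + x2 * v107 x1 x2 x3 := ssqrt (sa_53 hc) hc.2.2.1 hc.2.2.2.1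

theorem sa_55 {x1 x2 x3 : ℝ} (hc : Cnd x1 x2 x3) :
    v55 x1 x2 x3 = v108 x1 x2 x3 + x2 * v107 x1 x2 x3 := saddl (sa_54 hc)

theorem sa_56 {x1 x2 x3 : ℝ} (hc : Cnd x1 x2 x3) :
    v56 x1 x2 x3 = v109 x1 x2 x3 + x2 * v107 x1 x2 x3 := ssubl (sa_55 hc)

theorem sa_58 {x1 x2 x3 : ℝ} (hc : Cnd x1 x2 x3) :
    v58 x1 x2 x3 = v110 x1 x2 x3 + x2 * v111 x1 x2 x3 := ssubr (sa_56 hc)

theorem sa_29 {x1 x2 x3 : ℝ} (hc : Cnd x1 x2 x3) :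
    v29 x1 x2 x3 = v112 x1 x2 x3 + x2 * v83 x1 x2 x3 := saddl (sa_20 hc)

theorem sa_41 {x1 x2 x3 : ℝ} (hc : Cnd x1 x2 x3) :
    v41 x1 x2 x3 = v113 x1 x2 x3 + x2 * v83 x1 x2 x3 := ssubl (sa_29 hc)

theorem sa_42 {x1 x2 x3 : ℝ} (hc : Cnd x1 x2 x3) :
    v42 x1 x2 x3 = v114 x1 x2 x3 + x2 * v116 x1 x2 x3 := ssq (sa_41 hc)

theorem sa_43 {x1 x2 x3 : ℝ} (hc : Cnd x1 x2 x3) :
    v43 x1 x2 x3 = v117 x1 x2 x3 + x2 * v118 x1 x2 x3 := ssubr (sa_42 hc)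

theorem sa_44 {x1 x2 x3 : ℝ} (hc : Cnd x1 x2 x3) :
    v44 x1 x2 x3 = v119 x1 x2 x3 + x2 * v122 x1 x2 x3 := ssqrt (sa_43 hc) hc.2.2.2.2.1 hc.2.2.2.2.2.1

theorem sa_45 {x1 x2 x3 : ℝ} (hc : Cnd x1 x2 x3) :
    v45 x1 x2 x3 = v123 x1 x2 x3 + x2 * v122 x1 x2 x3 := saddl (sa_44 hc)

theorem sa_46 {x1 x2 x3 : ℝ} (hc : Cnd x1 x2 x3) :
    v46 x1 x2 x3 = v124 x1 x2 x3 + x2 * v122 x1 x2 x3 := ssubl (sa_45 hc)

theorem sa_59 {x1 x2 x3 : ℝ} (hc : Cnd x1 x2 x3) :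
    v59 x1 x2 x3 = v125 x1 x2 x3 + x2 * v126 x1 x2 x3 := ssub (sa_58 hc) (sa_46 hc)

theorem sa_60 {x1 x2 x3 : ℝ} (hc : Cnd x1 x2 x3) :
    v60 x1 x2 x3 = v127 x1 x2 x3 + x2 * v83 x1 x2 x3 := ssubl (sa_28 hc)

theorem sa_61 {x1 x2 x3 : ℝ} (hc : Cnd x1 x2 x3) :
    v61 x1 x2 x3 = v128 x1 x2 x3 + x2 * v130 x1 x2 x3 := ssq (sa_60 hc)

theorem sa_62 {x1 x2 x3 : ℝ} (hc : Cnd x1 x2 x3) :
    v62 x1 x2 x3 = v131 x1 x2 x3 + x2 * v132 x1 x2 x3 := ssubr (sa_61 hc)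

theorem sa_63 {x1 x2 x3 : ℝ} (hc : Cnd x1 x2 x3) :
    v63 x1 x2 x3 = v133 x1 x2 x3 + x2 * v136 x1 x2 x3 := ssqrt (sa_62 hc) hc.2.2.2.2.2.2.1 hc.2.2.2.2.2.2.2.1

theorem sa_68 {x1 x2 x3 : ℝ} (hc : Cnd x1 x2 x3) :
    v68 x1 x2 x3 = v137 x1 x2 x3 + x2 * v138 x1 x2 x3 := ssubr (sa_63 hc)

theorem sa_64 {x1 x2 x3 : ℝ} (hc : Cnd x1 x2 x3) :
    v64 x1 x2 x3 = v139 x1 x2 x3 + x2 * v83 x1 x2 x3 := ssubl (sa_29 hc)

theorem sa_65 {x1 x2 x3 : ℝ} (hc : Cnd x1 x2 x3) :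
    v65 x1 x2 x3 = v140 x1 x2 x3 + x2 * v142 x1 x2 x3 := ssq (sa_64 hc)

theorem sa_66 {x1 x2 x3 : ℝ} (hc : Cnd x1 x2 x3) :
    v66 x1 x2 x3 = v143 x1 x2 x3 + x2 * v144 x1 x2 x3 := ssubr (sa_65 hc)

theorem sa_67 {x1 x2 x3 : ℝ} (hc : Cnd x1 x2 x3) :
    v67 x1 x2 x3 = v145 x1 x2 x3 + x2 * v148 x1 x2 x3 := ssqrt (sa_66 hc) hc.2.2.2.2.2.2.2.2.1 hc.2.2.2.2.2.2.2.2.2.1

theorem sa_69 {x1 x2 x3 : ℝ} (hc : Cnd x1 x2 x3) :
    v69 x1 x2 x3 = v149 x1 x2 x3 + x2 * v150 x1 x2 x3 := ssub (sa_68 hc) (sa_67 hc)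

theorem sa_73 {x1 x2 x3 : ℝ} (hc : Cnd x1 x2 x3) :
    v73 x1 x2 x3 = v151 x1 x2 x3 + x2 * v152 x1 x2 x3 := sadd (sa_59 hc) (sa_69 hc)

theorem sa_74 {x1 x2 x3 : ℝ} (hc : Cnd x1 x2 x3) :
    v74 x1 x2 x3 = v153 x1 x2 x3 + x2 * v154 x1 x2 x3 := smulr (sa_73 hc)

theorem sa_75 {x1 x2 x3 : ℝ} (hc : Cnd x1 x2 x3) :
    v75 x1 x2 x3 = v155 x1 x2 x3 + x2 * v156 x1 x2 x3 := sadd (sa_40 hc) (sa_74 hc)

theorem sa_70 {x1 x2 x3 : ℝ} (hc : Cnd x1 x2 x3) :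
    v70 x1 x2 x3 = v157 x1 x2 x3 + x2 * v111 x1 x2 x3 := ssubr (sa_54 hc)

theorem sa_71 {x1 x2 x3 : ℝ} (hc : Cnd x1 x2 x3) :
    v71 x1 x2 x3 = v158 x1 x2 x3 + x2 * v126 x1 x2 x3 := ssub (sa_70 hc) (sa_44 hc)

theorem sa_76 {x1 x2 x3 : ℝ} (hc : Cnd x1 x2 x3) :
    v76 x1 x2 x3 = v159 x1 x2 x3 + x2 * v160 x1 x2 x3 := smulr (sa_71 hc)

theorem sa_77 {x1 x2 x3 : ℝ} (hc : Cnd x1 x2 x3) :
    v77 x1 x2 x3 = v161 x1 x2 x3 + x2 * v162 x1 x2 x3 := sadd (sa_75 hc) (sa_76 hc)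

theorem sb_4 {x1 x2 x3 : ℝ} (_hc : Cnd x1 x2 x3) :
    v4 x1 x2 x3 = v72 x1 x2 x3 + x3 * v7 x1 x2 x3 := svar _

theorem sb_5 {x1 x2 x3 : ℝ} (hc : Cnd x1 x2 x3) :
    v5 x1 x2 x3 = v163 x1 x2 x3 + x3 * v83 x1 x2 x3 := ssubr (sb_4 hc)

theorem sb_11 {x1 x2 x3 : ℝ} (hc : Cnd x1 x2 x3) :
    v11 x1 x2 x3 = v164 x1 x2 x3 + x3 * v165 x1 x2 x3 := smulr (sb_5 hc)

theorem sb_6 {x1 x2 x3 : ℝ} (hc : Cnd x1 x2 x3) :
    v6 x1 x2 x3 = v166 x1 x2 x3 + x3 * v168 x1 x2 x3 := ssq (sb_5 hc)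

theorem sb_8 {x1 x2 x3 : ℝ} (hc : Cnd x1 x2 x3) :
    v8 x1 x2 x3 = v169 x1 x2 x3 + x3 * v170 x1 x2 x3 := ssubr (sb_6 hc)

theorem sb_9 {x1 x2 x3 : ℝ} (hc : Cnd x1 x2 x3) :
    v9 x1 x2 x3 = v171 x1 x2 x3 + x3 * v174 x1 x2 x3 := ssqrt (sb_8 hc) hc.2.2.2.2.2.2.2.2.2.2.1 hc.2.2.2.2.2.2.2.2.2.2.2.1

theorem sb_10 {x1 x2 x3 : ℝ} (hc : Cnd x1 x2 x3) :
    v10 x1 x2 x3 = v175 x1 x2 x3 + x3 * v176 x1 x2 x3 := smulr (sb_9 hc)

theorem sb_13 {x1 x2 x3 : ℝ} (hc : Cnd x1 x2 x3) :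
    v13 x1 x2 x3 = v177 x1 x2 x3 + x3 * v178 x1 x2 x3 := sadd (sb_11 hc) (sb_10 hc)

theorem sb_19 {x1 x2 x3 : ℝ} (hc : Cnd x1 x2 x3) :
    v19 x1 x2 x3 = v179 x1 x2 x3 + x3 * v180 x1 x2 x3 := ssubr (sb_13 hc)

theorem sb_82 {x1 x2 x3 : ℝ} (hc : Cnd x1 x2 x3) :
    v82 x1 x2 x3 = v181 x1 x2 x3 + x3 * v180 x1 x2 x3 := ssubl (sb_19 hc)

theorem sb_84 {x1 x2 x3 : ℝ} (hc : Cnd x1 x2 x3) :
    v84 x1 x2 x3 = v182 x1 x2 x3 + x3 * v184 x1 x2 x3 := ssq (sb_82 hc)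

theorem sb_87 {x1 x2 x3 : ℝ} (hc : Cnd x1 x2 x3) :
    v87 x1 x2 x3 = v185 x1 x2 x3 + x3 * v186 x1 x2 x3 := ssubr (sb_84 hc)

theorem sb_89 {x1 x2 x3 : ℝ} (hc : Cnd x1 x2 x3) :
    v89 x1 x2 x3 = v187 x1 x2 x3 + x3 * v190 x1 x2 x3 := ssqrt (sb_87 hc) hc.2.1 hc.2.2.2.2.2.2.2.2.2.2.2.2.1

theorem sb_93 {x1 x2 x3 : ℝ} (hc : Cnd x1 x2 x3) :
    v93 x1 x2 x3 = v191 x1 x2 x3 + x3 * v192 x1 x2 x3 := smulr (sb_89 hc)

theorem sb_95 {x1 x2 x3 : ℝ} (hc : Cnd x1 x2 x3) :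
    v95 x1 x2 x3 = v193 x1 x2 x3 + x3 * v192 x1 x2 x3 := ssubl (sb_93 hc)

theorem sb_96 {x1 x2 x3 : ℝ} (hc : Cnd x1 x2 x3) :
    v96 x1 x2 x3 = v194 x1 x2 x3 + x3 * v192 x1 x2 x3 := ssubl (sb_95 hc)

theorem sb_14 {x1 x2 x3 : ℝ} (hc : Cnd x1 x2 x3) :
    v14 x1 x2 x3 = v195 x1 x2 x3 + x3 * v196 x1 x2 x3 := smulr (sb_9 hc)

theorem sb_15 {x1 x2 x3 : ℝ} (hc : Cnd x1 x2 x3) :
    v15 x1 x2 x3 = v197 x1 x2 x3 + x3 * v198 x1 x2 x3 := smulr (sb_5 hc)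

theorem sb_16 {x1 x2 x3 : ℝ} (hc : Cnd x1 x2 x3) :
    v16 x1 x2 x3 = v199 x1 x2 x3 + x3 * v200 x1 x2 x3 := sadd (sb_14 hc) (sb_15 hc)

theorem sb_57 {x1 x2 x3 : ℝ} (hc : Cnd x1 x2 x3) :
    v57 x1 x2 x3 = v201 x1 x2 x3 + x3 * v200 x1 x2 x3 := saddl (sb_16 hc)

theorem sb_97 {x1 x2 x3 : ℝ} (hc : Cnd x1 x2 x3) :
    v97 x1 x2 x3 = v202 x1 x2 x3 + x3 * v203 x1 x2 x3 := sadd (sb_82 hc) (sb_13 hc)

theorem sb_98 {x1 x2 x3 : ℝ} (hc : Cnd x1 x2 x3) :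
    v98 x1 x2 x3 = v204 x1 x2 x3 + x3 * v203 x1 x2 x3 := ssubl (sb_97 hc)

theorem sb_99 {x1 x2 x3 : ℝ} (hc : Cnd x1 x2 x3) :
    v99 x1 x2 x3 = v205 x1 x2 x3 + x3 * v207 x1 x2 x3 := ssq (sb_98 hc)

theorem sb_102 {x1 x2 x3 : ℝ} (hc : Cnd x1 x2 x3) :
    v102 x1 x2 x3 = v208 x1 x2 x3 + x3 * v209 x1 x2 x3 := ssubr (sb_99 hc)

theorem sb_104 {x1 x2 x3 : ℝ} (hc : Cnd x1 x2 x3) :
    v104 x1 x2 x3 = v210 x1 x2 x3 + x3 * v213 x1 x2 x3 := ssqrt (sb_102 hc) hc.2.2.2.1 hc.2.2.2.2.2.2.2.2.2.2.2.2.2.1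

theorem sb_108 {x1 x2 x3 : ℝ} (hc : Cnd x1 x2 x3) :
    v108 x1 x2 x3 = v214 x1 x2 x3 + x3 * v213 x1 x2 x3 := saddl (sb_104 hc)

theorem sb_109 {x1 x2 x3 : ℝ} (hc : Cnd x1 x2 x3) :
    v109 x1 x2 x3 = v215 x1 x2 x3 + x3 * v213 x1 x2 x3 := ssubl (sb_108 hc)

theorem sb_110 {x1 x2 x3 : ℝ} (hc : Cnd x1 x2 x3) :
    v110 x1 x2 x3 = v216 x1 x2 x3 + x3 * v217 x1 x2 x3 := ssub (sb_57 hc) (sb_109 hc)

theorem sb_112 {x1 x2 x3 : ℝ} (hc : Cnd x1 x2 x3) :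
    v112 x1 x2 x3 = v218 x1 x2 x3 + x3 * v219 x1 x2 x3 := sadd (sb_82 hc) (sb_5 hc)

theorem sb_113 {x1 x2 x3 : ℝ} (hc : Cnd x1 x2 x3) :
    v113 x1 x2 x3 = v220 x1 x2 x3 + x3 * v219 x1 x2 x3 := ssubl (sb_112 hc)

theorem sb_114 {x1 x2 x3 : ℝ} (hc : Cnd x1 x2 x3) :
    v114 x1 x2 x3 = v221 x1 x2 x3 + x3 * v223 x1 x2 x3 := ssq (sb_113 hc)

theorem sb_117 {x1 x2 x3 : ℝ} (hc : Cnd x1 x2 x3) :
    v117 x1 x2 x3 = v224 x1 x2 x3 + x3 * v225 x1 x2 x3 := ssubr (sb_114 hc)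

theorem sb_119 {x1 x2 x3 : ℝ} (hc : Cnd x1 x2 x3) :
    v119 x1 x2 x3 = v226 x1 x2 x3 + x3 * v229 x1 x2 x3 := ssqrt (sb_117 hc) hc.2.2.2.2.2.1 hc.2.2.2.2.2.2.2.2.2.2.2.2.2.2.1

theorem sb_123 {x1 x2 x3 : ℝ} (hc : Cnd x1 x2 x3) :
    v123 x1 x2 x3 = v230 x1 x2 x3 + x3 * v229 x1 x2 x3 := saddl (sb_119 hc)

theorem sb_124 {x1 x2 x3 : ℝ} (hc : Cnd x1 x2 x3) :
    v124 x1 x2 x3 = v231 x1 x2 x3 + x3 * v229 x1 x2 x3 := ssubl (sb_123 hc)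

theorem sb_125 {x1 x2 x3 : ℝ} (hc : Cnd x1 x2 x3) :
    v125 x1 x2 x3 = v232 x1 x2 x3 + x3 * v233 x1 x2 x3 := ssub (sb_110 hc) (sb_124 hc)

theorem sb_127 {x1 x2 x3 : ℝ} (hc : Cnd x1 x2 x3) :
    v127 x1 x2 x3 = v234 x1 x2 x3 + x3 * v203 x1 x2 x3 := ssubl (sb_97 hc)

theorem sb_128 {x1 x2 x3 : ℝ} (hc : Cnd x1 x2 x3) :
    v128 x1 x2 x3 = v235 x1 x2 x3 + x3 * v237 x1 x2 x3 := ssq (sb_127 hc)

theorem sb_131 {x1 x2 x3 : ℝ} (hc : Cnd x1 x2 x3) :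
    v131 x1 x2 x3 = v238 x1 x2 x3 + x3 * v239 x1 x2 x3 := ssubr (sb_128 hc)

theorem sb_133 {x1 x2 x3 : ℝ} (hc : Cnd x1 x2 x3) :
    v133 x1 x2 x3 = v240 x1 x2 x3 + x3 * v243 x1 x2 x3 := ssqrt (sb_131 hc) hc.2.2.2.2.2.2.2.1 hc.2.2.2.2.2.2.2.2.2.2.2.2.2.2.2.1

theorem sb_137 {x1 x2 x3 : ℝ} (hc : Cnd x1 x2 x3) :
    v137 x1 x2 x3 = v244 x1 x2 x3 + x3 * v245 x1 x2 x3 := ssub (sb_57 hc) (sb_133 hc)

theorem sb_139 {x1 x2 x3 : ℝ} (hc : Cnd x1 x2 x3) :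
    v139 x1 x2 x3 = v246 x1 x2 x3 + x3 * v219 x1 x2 x3 := ssubl (sb_112 hc)

theorem sb_140 {x1 x2 x3 : ℝ} (hc : Cnd x1 x2 x3) :
    v140 x1 x2 x3 = v247 x1 x2 x3 + x3 * v249 x1 x2 x3 := ssq (sb_139 hc)

theorem sb_143 {x1 x2 x3 : ℝ} (hc : Cnd x1 x2 x3) :
    v143 x1 x2 x3 = v250 x1 x2 x3 + x3 * v251 x1 x2 x3 := ssubr (sb_140 hc)

theorem sb_145 {x1 x2 x3 : ℝ} (hc : Cnd x1 x2 x3) :
    v145 x1 x2 x3 = v252 x1 x2 x3 + x3 * v255 x1 x2 x3 := ssqrt (sb_143 hc) hc.2.2.2.2.2.2.2.2.2.1 hc.2.2.2.2.2.2.2.2.2.2.2.2.2.2.2.2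

theorem sb_149 {x1 x2 x3 : ℝ} (hc : Cnd x1 x2 x3) :
    v149 x1 x2 x3 = v256 x1 x2 x3 + x3 * v257 x1 x2 x3 := ssub (sb_137 hc) (sb_145 hc)

theorem sb_151 {x1 x2 x3 : ℝ} (hc : Cnd x1 x2 x3) :
    v151 x1 x2 x3 = v258 x1 x2 x3 + x3 * v259 x1 x2 x3 := sadd (sb_125 hc) (sb_149 hc)

theorem sb_153 {x1 x2 x3 : ℝ} (hc : Cnd x1 x2 x3) :
    v153 x1 x2 x3 = v260 x1 x2 x3 + x3 * v261 x1 x2 x3 := smulr (sb_151 hc)

theorem sb_155 {x1 x2 x3 : ℝ} (hc : Cnd x1 x2 x3) :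
    v155 x1 x2 x3 = v262 x1 x2 x3 + x3 * v263 x1 x2 x3 := sadd (sb_96 hc) (sb_153 hc)

theorem sb_157 {x1 x2 x3 : ℝ} (hc : Cnd x1 x2 x3) :
    v157 x1 x2 x3 = v264 x1 x2 x3 + x3 * v217 x1 x2 x3 := ssub (sb_57 hc) (sb_104 hc)

theorem sb_158 {x1 x2 x3 : ℝ} (hc : Cnd x1 x2 x3) :
    v158 x1 x2 x3 = v265 x1 x2 x3 + x3 * v233 x1 x2 x3 := ssub (sb_157 hc) (sb_119 hc)

theorem sb_159 {x1 x2 x3 : ℝ} (hc : Cnd x1 x2 x3) :
    v159 x1 x2 x3 = v266 x1 x2 x3 + x3 * v267 x1 x2 x3 := smulr (sb_158 hc)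

theorem sb_161 {x1 x2 x3 : ℝ} (hc : Cnd x1 x2 x3) :
    v161 x1 x2 x3 = v268 x1 x2 x3 + x3 * v269 x1 x2 x3 := sadd (sb_155 hc) (sb_159 hc)

section

variable (s u w : ℝ)

theorem w0 : v0 s u w = (2 * h0) := by unfold v0 h0; push_cast; ring

theorem w1 : v1 s u w = h0 := by unfold v1; rw [w0]; unfold h0; push_cast; ring

theorem w2 : v2 s u w = s := rfl

theorem w3 : v3 s u w = u := rfl

theorem w4 : v4 s u w = w := rfl

theorem w5 : v5 s u w = (h0 - w) := by rw [v5, w1, w4]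

theorem w6 : v6 s u w = ((h0 - w) ^ 2) := by rw [v6, w5]

theorem w7 : v7 s u w = 1 := by unfold v7; norm_num

theorem w8 : v8 s u w = (1 - ((h0 - w) ^ 2)) := by rw [v8, w7, w6]

theorem w9 : v9 s u w = (g (h0 - w)) := by unfold v9; rw [w8]; rfl

theorem w10 : v10 s u w = (h0 * (g (h0 - w))) := by rw [v10, w1, w9]

theorem w11 : v11 s u w = (1 / 2 * (h0 - w)) := by simp only [v11, w5, Nat.cast_ofNat, Nat.cast_one]

theorem w13 : v13 s u w = (ext (h0 - w)) := by rw [v13, w11, w10]; unfold ext; ring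

theorem w14 : v14 s u w = (1 / 2 * (g (h0 - w))) := by simp only [v14, w9, Nat.cast_ofNat, Nat.cast_one]

theorem w15 : v15 s u w = (h0 * (h0 - w)) := by rw [v15, w1, w5]

theorem w16 : v16 s u w = ((1 / 2 * (g (h0 - w))) + (h0 * (h0 - w))) := by rw [v16, w14, w15]

theorem w18 : v18 s u w = (h0 + s) := by rw [v18, w1, w2]

theorem w19 : v19 s u w = ((h0 + s) - (ext (h0 - w))) := by rw [v19, w18, w13]

theorem w20 : v20 s u w = (((h0 + s) - (ext (h0 - w))) - u) := by rw [v20, w19, w3]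

theorem w21 : v21 s u w = (s ^ 2) := by rw [v21, w2]

theorem w22 : v22 s u w = (1 - (s ^ 2)) := by rw [v22, w7, w21]

theorem w23 : v23 s u w = (g s) := by unfold v23; rw [w22]; rfl

theorem w24 : v24 s u w = (17 / 50 * s) := by simp only [v24, w2, Nat.cast_ofNat, Nat.cast_one]

theorem w25 : v25 s u w = ((17 / 50 * s) ^ 2) := by rw [v25, w24]

theorem w26 : v26 s u w = (1 - ((17 / 50 * s) ^ 2)) := by rw [v26, w7, w25]

theorem w27 : v27 s u w = (g (17 / 50 * s)) := by unfold v27; rw [w26]; rfl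

theorem w28 : v28 s u w = ((((h0 + s) - (ext (h0 - w))) - u) + (ext (h0 - w))) := by rw [v28, w20, w13]

theorem w29 : v29 s u w = ((((h0 + s) - (ext (h0 - w))) - u) + (h0 - w)) := by rw [v29, w20, w5]

theorem w31 : v31 s u w = (33 / 50 * s) := by simp only [v31, w2, Nat.cast_ofNat, Nat.cast_one]

theorem w32 : v32 s u w = (h0 + (33 / 50 * s)) := by rw [v32, w1, w31]

theorem w33 : v33 s u w = ((((h0 + s) - (ext (h0 - w))) - u) ^ 2) := by rw [v33, w20]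

theorem w34 : v34 s u w = (1 - ((((h0 + s) - (ext (h0 - w))) - u) ^ 2)) := by rw [v34, w7, w33]

theorem w35 : v35 s u w = (g (((h0 + s) - (ext (h0 - w))) - u)) := by unfold v35; rw [w34]; rfl

theorem w36 : v36 s u w = (8 * (g (((h0 + s) - (ext (h0 - w))) - u))) := by simp only [v36, w35, Nat.cast_ofNat, Nat.cast_one]

theorem w37 : v37 s u w = 4 := by unfold v37; norm_num

theorem w38 : v38 s u w = ((8 * (g (((h0 + s) - (ext (h0 - w))) - u))) - 4) := by rw [v38, w36, w37]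

theorem w39 : v39 s u w = (4 * (g s)) := by simp only [v39, w23, Nat.cast_ofNat, Nat.cast_one]

theorem w40 : v40 s u w = (((8 * (g (((h0 + s) - (ext (h0 - w))) - u))) - 4) - (4 * (g s))) := by rw [v40, w38, w39]

theorem w41 : v41 s u w = (((((h0 + s) - (ext (h0 - w))) - u) + (h0 - w)) - h0) := by rw [v41, w29, w1]

theorem w42 : v42 s u w = ((((((h0 + s) - (ext (h0 - w))) - u) + (h0 - w)) - h0) ^ 2) := by rw [v42, w41]

theorem w43 : v43 s u w = (1 - ((((((h0 + s) - (ext (h0 - w))) - u) + (h0 - w)) - h0) ^ 2)) := by rw [v43, w7, w42]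

theorem w44 : v44 s u w = (g (((((h0 + s) - (ext (h0 - w))) - u) + (h0 - w)) - h0)) := by unfold v44; rw [w43]; rfl

theorem w45 : v45 s u w = ((g (((((h0 + s) - (ext (h0 - w))) - u) + (h0 - w)) - h0)) + 1) := by rw [v45, w44, w7]

theorem w46 : v46 s u w = (((g (((((h0 + s) - (ext (h0 - w))) - u) + (h0 - w)) - h0)) + 1) - (g (17 / 50 * s))) := by rw [v46, w45, w27]

theorem w51 : v51 s u w = (((((h0 + s) - (ext (h0 - w))) - u) + (ext (h0 - w))) - h0) := by rw [v51, w28, w1]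

theorem w52 : v52 s u w = ((((((h0 + s) - (ext (h0 - w))) - u) + (ext (h0 - w))) - h0) ^ 2) := by rw [v52, w51]

theorem w53 : v53 s u w = (1 - ((((((h0 + s) - (ext (h0 - w))) - u) + (ext (h0 - w))) - h0) ^ 2)) := by rw [v53, w7, w52]

theorem w54 : v54 s u w = (g (((((h0 + s) - (ext (h0 - w))) - u) + (ext (h0 - w))) - h0)) := by unfold v54; rw [w53]; rfl

theorem w55 : v55 s u w = ((g (((((h0 + s) - (ext (h0 - w))) - u) + (ext (h0 - w))) - h0)) + 1) := by rw [v55, w54, w7]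

theorem w56 : v56 s u w = (((g (((((h0 + s) - (ext (h0 - w))) - u) + (ext (h0 - w))) - h0)) + 1) - (g (17 / 50 * s))) := by rw [v56, w55, w27]

theorem w57 : v57 s u w = (((1 / 2 * (g (h0 - w))) + (h0 * (h0 - w))) + 1) := by rw [v57, w16, w7]

theorem w58 : v58 s u w = ((((1 / 2 * (g (h0 - w))) + (h0 * (h0 - w))) + 1) - (((g (((((h0 + s) - (ext (h0 - w))) - u) + (ext (h0 - w))) - h0)) + 1) - (g (17 / 50 * s)))) := by rw [v58, w57, w56]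

theorem w59 : v59 s u w = (((((1 / 2 * (g (h0 - w))) + (h0 * (h0 - w))) + 1) - (((g (((((h0 + s) - (ext (h0 - w))) - u) + (ext (h0 - w))) - h0)) + 1) - (g (17 / 50 * s)))) - (((g (((((h0 + s) - (ext (h0 - w))) - u) + (h0 - w)) - h0)) + 1) - (g (17 / 50 * s)))) := by rw [v59, w58, w46]

theorem w60 : v60 s u w = (((((h0 + s) - (ext (h0 - w))) - u) + (ext (h0 - w))) - (h0 + (33 / 50 * s))) := by rw [v60, w28, w32]

theorem w61 : v61 s u w = ((((((h0 + s) - (ext (h0 - w))) - u) + (ext (h0 - w))) - (h0 + (33 / 50 * s))) ^ 2) := by rw [v61, w60]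

theorem w62 : v62 s u w = (1 - ((((((h0 + s) - (ext (h0 - w))) - u) + (ext (h0 - w))) - (h0 + (33 / 50 * s))) ^ 2)) := by rw [v62, w7, w61]

theorem w63 : v63 s u w = (g (((((h0 + s) - (ext (h0 - w))) - u) + (ext (h0 - w))) - (h0 + (33 / 50 * s)))) := by unfold v63; rw [w62]; rfl

theorem w64 : v64 s u w = (((((h0 + s) - (ext (h0 - w))) - u) + (h0 - w)) - (h0 + (33 / 50 * s))) := by rw [v64, w29, w32]

theorem w65 : v65 s u w = ((((((h0 + s) - (ext (h0 - w))) - u) + (h0 - w)) - (h0 + (33 / 50 * s))) ^ 2) := by rw [v65, w64]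

theorem w66 : v66 s u w = (1 - ((((((h0 + s) - (ext (h0 - w))) - u) + (h0 - w)) - (h0 + (33 / 50 * s))) ^ 2)) := by rw [v66, w7, w65]

theorem w67 : v67 s u w = (g (((((h0 + s) - (ext (h0 - w))) - u) + (h0 - w)) - (h0 + (33 / 50 * s)))) := by unfold v67; rw [w66]; rfl

theorem w68 : v68 s u w = ((((1 / 2 * (g (h0 - w))) + (h0 * (h0 - w))) + 1) - (g (((((h0 + s) - (ext (h0 - w))) - u) + (ext (h0 - w))) - (h0 + (33 / 50 * s))))) := by rw [v68, w57, w63]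

theorem w69 : v69 s u w = (((((1 / 2 * (g (h0 - w))) + (h0 * (h0 - w))) + 1) - (g (((((h0 + s) - (ext (h0 - w))) - u) + (ext (h0 - w))) - (h0 + (33 / 50 * s))))) - (g (((((h0 + s) - (ext (h0 - w))) - u) + (h0 - w)) - (h0 + (33 / 50 * s))))) := by rw [v69, w68, w67]

theorem w70 : v70 s u w = ((((1 / 2 * (g (h0 - w))) + (h0 * (h0 - w))) + 1) - (g (((((h0 + s) - (ext (h0 - w))) - u) + (ext (h0 - w))) - h0))) := by rw [v70, w57, w54]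

theorem w71 : v71 s u w = (((((1 / 2 * (g (h0 - w))) + (h0 * (h0 - w))) + 1) - (g (((((h0 + s) - (ext (h0 - w))) - u) + (ext (h0 - w))) - h0))) - (g (((((h0 + s) - (ext (h0 - w))) - u) + (h0 - w)) - h0))) := by rw [v71, w70, w44]

theorem w72 : v72 s u w = 0 := by unfold v72; norm_num

theorem w73 : v73 s u w = ((((((1 / 2 * (g (h0 - w))) + (h0 * (h0 - w))) + 1) - (((g (((((h0 + s) - (ext (h0 - w))) - u) + (ext (h0 - w))) - h0)) + 1) - (g (17 / 50 * s)))) - (((g (((((h0 + s) - (ext (h0 - w))) - u) + (h0 - w)) - h0)) + 1) - (g (17 / 50 * s)))) + (((((1 / 2 * (g (h0 - w))) + (h0 * (h0 - w))) + 1) - (g (((((h0 + s) - (ext (h0 - w))) - u) + (ext (h0 - w))) - (h0 + (33 / 50 * s))))) - (g (((((h0 + s) - (ext (h0 - w))) - u) + (h0 - w)) - (h0 + (33 / 50 * s)))))) := by rw [v73, w59, w69]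

theorem w74 : v74 s u w = (9 / 5 * ((((((1 / 2 * (g (h0 - w))) + (h0 * (h0 - w))) + 1) - (((g (((((h0 + s) - (ext (h0 - w))) - u) + (ext (h0 - w))) - h0)) + 1) - (g (17 / 50 * s)))) - (((g (((((h0 + s) - (ext (h0 - w))) - u) + (h0 - w)) - h0)) + 1) - (g (17 / 50 * s)))) + (((((1 / 2 * (g (h0 - w))) + (h0 * (h0 - w))) + 1) - (g (((((h0 + s) - (ext (h0 - w))) - u) + (ext (h0 - w))) - (h0 + (33 / 50 * s))))) - (g (((((h0 + s) - (ext (h0 - w))) - u) + (h0 - w)) - (h0 + (33 / 50 * s))))))) := by simp only [v74, w73, Nat.cast_ofNat, Nat.cast_one]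

theorem w75 : v75 s u w = ((((8 * (g (((h0 + s) - (ext (h0 - w))) - u))) - 4) - (4 * (g s))) + (9 / 5 * ((((((1 / 2 * (g (h0 - w))) + (h0 * (h0 - w))) + 1) - (((g (((((h0 + s) - (ext (h0 - w))) - u) + (ext (h0 - w))) - h0)) + 1) - (g (17 / 50 * s)))) - (((g (((((h0 + s) - (ext (h0 - w))) - u) + (h0 - w)) - h0)) + 1) - (g (17 / 50 * s)))) + (((((1 / 2 * (g (h0 - w))) + (h0 * (h0 - w))) + 1) - (g (((((h0 + s) - (ext (h0 - w))) - u) + (ext (h0 - w))) - (h0 + (33 / 50 * s))))) - (g (((((h0 + s) - (ext (h0 - w))) - u) + (h0 - w)) - (h0 + (33 / 50 * s)))))))) := by rw [v75, w40, w74]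

theorem w76 : v76 s u w = (1 / 5 * (((((1 / 2 * (g (h0 - w))) + (h0 * (h0 - w))) + 1) - (g (((((h0 + s) - (ext (h0 - w))) - u) + (ext (h0 - w))) - h0))) - (g (((((h0 + s) - (ext (h0 - w))) - u) + (h0 - w)) - h0)))) := by simp only [v76, w71, Nat.cast_ofNat, Nat.cast_one]

theorem w77 : v77 s u w = (((((8 * (g (((h0 + s) - (ext (h0 - w))) - u))) - 4) - (4 * (g s))) + (9 / 5 * ((((((1 / 2 * (g (h0 - w))) + (h0 * (h0 - w))) + 1) - (((g (((((h0 + s) - (ext (h0 - w))) - u) + (ext (h0 - w))) - h0)) + 1) - (g (17 / 50 * s)))) - (((g (((((h0 + s) - (ext (h0 - w))) - u) + (h0 - w)) - h0)) + 1) - (g (17 / 50 * s)))) + (((((1 / 2 * (g (h0 - w))) + (h0 * (h0 - w))) + 1) - (g (((((h0 + s) - (ext (h0 - w))) - u) + (ext (h0 - w))) - (h0 + (33 / 50 * s))))) - (g (((((h0 + s) - (ext (h0 - w))) - u) + (h0 - w)) - (h0 + (33 / 50 * s)))))))) + (1 / 5 * (((((1 /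 2 * (g (h0 - w))) + (h0 * (h0 - w))) + 1) - (g (((((h0 + s) - (ext (h0 - w))) - u) + (ext (h0 - w))) - h0))) - (g (((((h0 + s) - (ext (h0 - w))) - u) + (h0 - w)) - h0))))) := by rw [v77, w75, w76]

theorem w163 : v163 s u w = (h0 - 0) := by rw [v163, w1, w72]

theorem w164 : v164 s u w = (1 / 2 * (h0 - 0)) := by simp only [v164, w163, Nat.cast_ofNat, Nat.cast_one]

theorem w166 : v166 s u w = ((h0 - 0) ^ 2) := by rw [v166, w163]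

theorem w169 : v169 s u w = (1 - ((h0 - 0) ^ 2)) := by rw [v169, w7, w166]

theorem w171 : v171 s u w = (g (h0 - 0)) := by unfold v171; rw [w169]; rfl

theorem w175 : v175 s u w = (h0 * (g (h0 - 0))) := by rw [v175, w1, w171]

theorem w177 : v177 s u w = ((1 / 2 * (h0 - 0)) + (h0 * (g (h0 - 0)))) := by rw [v177, w164, w175]

theorem w179 : v179 s u w = ((h0 + s) - ((1 / 2 * (h0 - 0)) + (h0 * (g (h0 - 0))))) := by rw [v179, w18, w177]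

theorem w181 : v181 s u w = (((h0 + s) - ((1 / 2 * (h0 - 0)) + (h0 * (g (h0 - 0))))) - 0) := by rw [v181, w179, w72]

theorem w182 : v182 s u w = ((((h0 + s) - ((1 / 2 * (h0 - 0)) + (h0 * (g (h0 - 0))))) - 0) ^ 2) := by rw [v182, w181]

theorem w185 : v185 s u w = (1 - ((((h0 + s) - ((1 / 2 * (h0 - 0)) + (h0 * (g (h0 - 0))))) - 0) ^ 2)) := by rw [v185, w7, w182]

theorem w187 : v187 s u w = (g (((h0 + s) - ((1 / 2 * (h0 - 0)) + (h0 * (g (h0 - 0))))) - 0)) := by unfold v187; rw [w185]; rfl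

theorem w191 : v191 s u w = (8 * (g (((h0 + s) - ((1 / 2 * (h0 - 0)) + (h0 * (g (h0 - 0))))) - 0))) := by simp only [v191, w187, Nat.cast_ofNat, Nat.cast_one]

theorem w193 : v193 s u w = ((8 * (g (((h0 + s) - ((1 / 2 * (h0 - 0)) + (h0 * (g (h0 - 0))))) - 0))) - 4) := by rw [v193, w191, w37]

theorem w194 : v194 s u w = (((8 * (g (((h0 + s) - ((1 / 2 * (h0 - 0)) + (h0 * (g (h0 - 0))))) - 0))) - 4) - (4 * (g s))) := by rw [v194, w193, w39]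

theorem w195 : v195 s u w = (1 / 2 * (g (h0 - 0))) := by simp only [v195, w171, Nat.cast_ofNat, Nat.cast_one]

theorem w197 : v197 s u w = (h0 * (h0 - 0)) := by rw [v197, w1, w163]

theorem w199 : v199 s u w = ((1 / 2 * (g (h0 - 0))) + (h0 * (h0 - 0))) := by rw [v199, w195, w197]

theorem w201 : v201 s u w = (((1 / 2 * (g (h0 - 0))) + (h0 * (h0 - 0))) + 1) := by rw [v201, w199, w7]

theorem w202 : v202 s u w = ((((h0 + s) - ((1 / 2 * (h0 - 0)) + (h0 * (g (h0 - 0))))) - 0) + ((1 / 2 * (h0 - 0)) + (h0 * (g (h0 - 0))))) := by rw [v202, w181, w177]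

theorem w204 : v204 s u w = (((((h0 + s) - ((1 / 2 * (h0 - 0)) + (h0 * (g (h0 - 0))))) - 0) + ((1 / 2 * (h0 - 0)) + (h0 * (g (h0 - 0))))) - h0) := by rw [v204, w202, w1]

theorem w205 : v205 s u w = ((((((h0 + s) - ((1 / 2 * (h0 - 0)) + (h0 * (g (h0 - 0))))) - 0) + ((1 / 2 * (h0 - 0)) + (h0 * (g (h0 - 0))))) - h0) ^ 2) := by rw [v205, w204]

theorem w208 : v208 s u w = (1 - ((((((h0 + s) - ((1 / 2 * (h0 - 0)) + (h0 * (g (h0 - 0))))) - 0) + ((1 / 2 * (h0 - 0)) + (h0 * (g (h0 - 0))))) - h0) ^ 2)) := by rw [v208, w7, w205]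

theorem w210 : v210 s u w = (g (((((h0 + s) - ((1 / 2 * (h0 - 0)) + (h0 * (g (h0 - 0))))) - 0) + ((1 / 2 * (h0 - 0)) + (h0 * (g (h0 - 0))))) - h0)) := by unfold v210; rw [w208]; rfl

theorem w214 : v214 s u w = ((g (((((h0 + s) - ((1 / 2 * (h0 - 0)) + (h0 * (g (h0 - 0))))) - 0) + ((1 / 2 * (h0 - 0)) + (h0 * (g (h0 - 0))))) - h0)) + 1) := by rw [v214, w210, w7]

theorem w215 : v215 s u w = (((g (((((h0 + s) - ((1 / 2 * (h0 - 0)) + (h0 * (g (h0 - 0))))) - 0) + ((1 / 2 * (h0 - 0)) + (h0 * (g (h0 - 0))))) - h0)) + 1) - (g (17 / 50 * s))) := by rw [v215, w214, w27]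

theorem w216 : v216 s u w = ((((1 / 2 * (g (h0 - 0))) + (h0 * (h0 - 0))) + 1) - (((g (((((h0 + s) - ((1 / 2 * (h0 - 0)) + (h0 * (g (h0 - 0))))) - 0) + ((1 / 2 * (h0 - 0)) + (h0 * (g (h0 - 0))))) - h0)) + 1) - (g (17 / 50 * s)))) := by rw [v216, w201, w215]

theorem w218 : v218 s u w = ((((h0 + s) - ((1 / 2 * (h0 - 0)) + (h0 * (g (h0 - 0))))) - 0) + (h0 - 0)) := by rw [v218, w181, w163]

theorem w220 : v220 s u w = (((((h0 + s) - ((1 / 2 * (h0 - 0)) + (h0 * (g (h0 - 0))))) - 0) + (h0 - 0)) - h0) := by rw [v220, w218, w1]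

theorem w221 : v221 s u w = ((((((h0 + s) - ((1 / 2 * (h0 - 0)) + (h0 * (g (h0 - 0))))) - 0) + (h0 - 0)) - h0) ^ 2) := by rw [v221, w220]

theorem w224 : v224 s u w = (1 - ((((((h0 + s) - ((1 / 2 * (h0 - 0)) + (h0 * (g (h0 - 0))))) - 0) + (h0 - 0)) - h0) ^ 2)) := by rw [v224, w7, w221]

theorem w226 : v226 s u w = (g (((((h0 + s) - ((1 / 2 * (h0 - 0)) + (h0 * (g (h0 - 0))))) - 0) + (h0 - 0)) - h0)) := by unfold v226; rw [w224]; rfl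

theorem w230 : v230 s u w = ((g (((((h0 + s) - ((1 / 2 * (h0 - 0)) + (h0 * (g (h0 - 0))))) - 0) + (h0 - 0)) - h0)) + 1) := by rw [v230, w226, w7]

theorem w231 : v231 s u w = (((g (((((h0 + s) - ((1 / 2 * (h0 - 0)) + (h0 * (g (h0 - 0))))) - 0) + (h0 - 0)) - h0)) + 1) - (g (17 / 50 * s))) := by rw [v231, w230, w27]

theorem w232 : v232 s u w = (((((1 / 2 * (g (h0 - 0))) + (h0 * (h0 - 0))) + 1) - (((g (((((h0 + s) - ((1 / 2 * (h0 - 0)) + (h0 * (g (h0 - 0))))) - 0) + ((1 / 2 * (h0 - 0)) + (h0 * (g (h0 - 0))))) - h0)) + 1) - (g (17 / 50 * s)))) - (((g (((((h0 + s) - ((1 / 2 * (h0 - 0)) + (h0 * (g (h0 - 0))))) - 0) + (h0 - 0)) - h0)) + 1) - (g (17 / 50 * s)))) := by rw [v232, w216, w231]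

theorem w234 : v234 s u w = (((((h0 + s) - ((1 / 2 * (h0 - 0)) + (h0 * (g (h0 - 0))))) - 0) + ((1 / 2 * (h0 - 0)) + (h0 * (g (h0 - 0))))) - (h0 + (33 / 50 * s))) := by rw [v234, w202, w32]

theorem w235 : v235 s u w = ((((((h0 + s) - ((1 / 2 * (h0 - 0)) + (h0 * (g (h0 - 0))))) - 0) + ((1 / 2 * (h0 - 0)) + (h0 * (g (h0 - 0))))) - (h0 + (33 / 50 * s))) ^ 2) := by rw [v235, w234]

theorem w238 : v238 s u w = (1 - ((((((h0 + s) - ((1 / 2 * (h0 - 0)) + (h0 * (g (h0 - 0))))) - 0) + ((1 / 2 * (h0 - 0)) + (h0 * (g (h0 - 0))))) - (h0 + (33 / 50 * s))) ^ 2)) := by rw [v238, w7, w235]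

theorem w240 : v240 s u w = (g (((((h0 + s) - ((1 / 2 * (h0 - 0)) + (h0 * (g (h0 - 0))))) - 0) + ((1 / 2 * (h0 - 0)) + (h0 * (g (h0 - 0))))) - (h0 + (33 / 50 * s)))) := by unfold v240; rw [w238]; rfl

theorem w244 : v244 s u w = ((((1 / 2 * (g (h0 - 0))) + (h0 * (h0 - 0))) + 1) - (g (((((h0 + s) - ((1 / 2 * (h0 - 0)) + (h0 * (g (h0 - 0))))) - 0) + ((1 / 2 * (h0 - 0)) + (h0 * (g (h0 - 0))))) - (h0 + (33 / 50 * s))))) := by rw [v244, w201, w240]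

theorem w246 : v246 s u w = (((((h0 + s) - ((1 / 2 * (h0 - 0)) + (h0 * (g (h0 - 0))))) - 0) + (h0 - 0)) - (h0 + (33 / 50 * s))) := by rw [v246, w218, w32]

theorem w247 : v247 s u w = ((((((h0 + s) - ((1 / 2 * (h0 - 0)) + (h0 * (g (h0 - 0))))) - 0) + (h0 - 0)) - (h0 + (33 / 50 * s))) ^ 2) := by rw [v247, w246]

theorem w250 : v250 s u w = (1 - ((((((h0 + s) - ((1 / 2 * (h0 - 0)) + (h0 * (g (h0 - 0))))) - 0) + (h0 - 0)) - (h0 + (33 / 50 * s))) ^ 2)) := by rw [v250, w7, w247]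

theorem w252 : v252 s u w = (g (((((h0 + s) - ((1 / 2 * (h0 - 0)) + (h0 * (g (h0 - 0))))) - 0) + (h0 - 0)) - (h0 + (33 / 50 * s)))) := by unfold v252; rw [w250]; rfl

theorem w256 : v256 s u w = (((((1 / 2 * (g (h0 - 0))) + (h0 * (h0 - 0))) + 1) - (g (((((h0 + s) - ((1 / 2 * (h0 - 0)) + (h0 * (g (h0 - 0))))) - 0) + ((1 / 2 * (h0 - 0)) + (h0 * (g (h0 - 0))))) - (h0 + (33 / 50 * s))))) - (g (((((h0 + s) - ((1 / 2 * (h0 - 0)) + (h0 * (g (h0 - 0))))) - 0) + (h0 - 0)) - (h0 + (33 / 50 * s))))) := by rw [v256, w244, w252]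

theorem w258 : v258 s u w = ((((((1 / 2 * (g (h0 - 0))) + (h0 * (h0 - 0))) + 1) - (((g (((((h0 + s) - ((1 / 2 * (h0 - 0)) + (h0 * (g (h0 - 0))))) - 0) + ((1 / 2 * (h0 - 0)) + (h0 * (g (h0 - 0))))) - h0)) + 1) - (g (17 / 50 * s)))) - (((g (((((h0 + s) - ((1 / 2 * (h0 - 0)) + (h0 * (g (h0 - 0))))) - 0) + (h0 - 0)) - h0)) + 1) - (g (17 / 50 * s)))) + (((((1 / 2 * (g (h0 - 0))) + (h0 * (h0 - 0))) + 1) - (g (((((h0 + s) - ((1 / 2 * (h0 - 0)) + (h0 * (g (h0 - 0))))) - 0) + ((1 / 2 * (h0 - 0)) + (h0 * (g (h0 - 0))))) - (h0 + (33 / 50 * s))))) - (g (((((h0 + s) - ((1 / 2 * (h0 - 0)) + (h0 * (g (h0 - 0))))) - 0) + (h0 - 0)) - (h0 + (33 / 50 * s)))))) := by rw [v258, w232, w256]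

theorem w260 : v260 s u w = (9 / 5 * ((((((1 / 2 * (g (h0 - 0))) + (h0 * (h0 - 0))) + 1) - (((g (((((h0 + s) - ((1 / 2 * (h0 - 0)) + (h0 * (g (h0 - 0))))) - 0) + ((1 / 2 * (h0 - 0)) + (h0 * (g (h0 - 0))))) - h0)) + 1) - (g (17 / 50 * s)))) - (((g (((((h0 + s) - ((1 / 2 * (h0 - 0)) + (h0 * (g (h0 - 0))))) - 0) + (h0 - 0)) - h0)) + 1) - (g (17 / 50 * s)))) + (((((1 / 2 * (g (h0 - 0))) + (h0 * (h0 - 0))) + 1) - (g (((((h0 + s) - ((1 / 2 * (h0 - 0)) + (h0 * (g (h0 - 0))))) - 0) + ((1 / 2 * (h0 - 0)) + (h0 * (g (h0 - 0))))) - (h0 + (33 / 50 * s))))) - (g (((((h0 + s) - ((1 / 2 * (h0 - 0)) + (h0 * (g (h0 - 0))))) - 0) + (h0 - 0)) - (h0 + (33 / 50 * s))))))) := by simp only [v260, w258, Nat.cast_ofNat, Nat.cast_one]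

theorem w262 : v262 s u w = ((((8 * (g (((h0 + s) - ((1 / 2 * (h0 - 0)) + (h0 * (g (h0 - 0))))) - 0))) - 4) - (4 * (g s))) + (9 / 5 * ((((((1 / 2 * (g (h0 - 0))) + (h0 * (h0 - 0))) + 1) - (((g (((((h0 + s) - ((1 / 2 * (h0 - 0)) + (h0 * (g (h0 - 0))))) - 0) + ((1 / 2 * (h0 - 0)) + (h0 * (g (h0 - 0))))) - h0)) + 1) - (g (17 / 50 * s)))) - (((g (((((h0 + s) - ((1 / 2 * (h0 - 0)) + (h0 * (g (h0 - 0))))) - 0) + (h0 - 0)) - h0)) + 1) - (g (17 / 50 * s)))) + (((((1 / 2 * (g (h0 - 0))) + (h0 * (h0 - 0))) + 1) - (g (((((h0 + s) - ((1 / 2 * (h0 - 0)) + (h0 * (g (h0 - 0))))) - 0) + ((1 / 2 * (h0 - 0)) + (h0 * (g (h0 - 0))))) - (h0 + (33 / 50 * s))))) - (g (((((h0 + s) - ((1 / 2 * (h0 - 0)) + (h0 * (g (h0 - 0))))) - 0) + (h0 - 0)) - (h0 + (33 / 50 * s)))))))) := by rw [v262, w194, w260]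

theorem w264 : v264 s u w = ((((1 / 2 * (g (h0 - 0))) + (h0 * (h0 - 0))) + 1) - (g (((((h0 + s) - ((1 / 2 * (h0 - 0)) + (h0 * (g (h0 - 0))))) - 0) + ((1 / 2 * (h0 - 0)) + (h0 * (g (h0 - 0))))) - h0))) := by rw [v264, w201, w210]

theorem w265 : v265 s u w = (((((1 / 2 * (g (h0 - 0))) + (h0 * (h0 - 0))) + 1) - (g (((((h0 + s) - ((1 / 2 * (h0 - 0)) + (h0 * (g (h0 - 0))))) - 0) + ((1 / 2 * (h0 - 0)) + (h0 * (g (h0 - 0))))) - h0))) - (g (((((h0 + s) - ((1 / 2 * (h0 - 0)) + (h0 * (g (h0 - 0))))) - 0) + (h0 - 0)) - h0))) := by rw [v265, w264, w226]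

theorem w266 : v266 s u w = (1 / 5 * (((((1 / 2 * (g (h0 - 0))) + (h0 * (h0 - 0))) + 1) - (g (((((h0 + s) - ((1 / 2 * (h0 - 0)) + (h0 * (g (h0 - 0))))) - 0) + ((1 / 2 * (h0 - 0)) + (h0 * (g (h0 - 0))))) - h0))) - (g (((((h0 + s) - ((1 / 2 * (h0 - 0)) + (h0 * (g (h0 - 0))))) - 0) + (h0 - 0)) - h0)))) := by simp only [v266, w265, Nat.cast_ofNat, Nat.cast_one]

theorem w268 : v268 s u w = (((((8 * (g (((h0 + s) - ((1 / 2 * (h0 - 0)) + (h0 * (g (h0 - 0))))) - 0))) - 4) - (4 * (g s))) + (9 / 5 * ((((((1 / 2 * (g (h0 - 0))) + (h0 * (h0 - 0))) + 1) - (((g (((((h0 + s) - ((1 / 2 * (h0 - 0)) + (h0 * (g (h0 - 0))))) - 0) + ((1 / 2 * (h0 - 0)) + (h0 * (g (h0 - 0))))) - h0)) + 1) - (g (17 / 50 * s)))) - (((g (((((h0 + s) - ((1 / 2 * (h0 - 0)) + (h0 * (g (h0 - 0))))) - 0) + (h0 - 0)) - h0)) + 1) - (g (17 / 50 * s)))) + (((((1 / 2 * (g (h0 - 0))) + (h0 *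 (h0 - 0))) + 1) - (g (((((h0 + s) - ((1 / 2 * (h0 - 0)) + (h0 * (g (h0 - 0))))) - 0) + ((1 / 2 * (h0 - 0)) + (h0 * (g (h0 - 0))))) - (h0 + (33 / 50 * s))))) - (g (((((h0 + s) - ((1 / 2 * (h0 - 0)) + (h0 * (g (h0 - 0))))) - 0) + (h0 - 0)) - (h0 + (33 / 50 * s)))))))) + (1 / 5 * (((((1 / 2 * (g (h0 - 0))) + (h0 * (h0 - 0))) + 1) - (g (((((h0 + s) - ((1 / 2 * (h0 - 0)) + (h0 * (g (h0 - 0))))) - 0) + ((1 / 2 * (h0 - 0)) + (h0 * (g (h0 - 0))))) - h0))) - (g (((((h0 + s) - ((1 / 2 * (h0 - 0)) + (h0 * (g (h0 - 0))))) - 0) + (h0 - 0)) - h0))))) := by rw [v268, w262, w266]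

end

theorem f00 {s u w : ℝ} (hl1 : 66 / 125 ≤ s) (hu1 : s ≤ 57 / 100) (hl2 : 0 ≤ u) (hu2 : u ≤ 1 / 10) (hl3 : 0 ≤ w) (hu3 : w ≤ 1 / 50) (hp1 : 0 ≤ u) (hp2 : 0 ≤ w) : 0 ≤ v268 s u w := by
  rw [w268]
  simp only [add_zero, sub_zero, mul_zero, zero_mul, zero_add, gh0, qh0, Gh0, sub_self, add_sub_cancel_right, add_sub_cancel_left, g_zero]
  apply le_of_eq
  first
    | (ring_nf; done)
    | (ring_nf; rw [g_zero]; ring)

theorem c_ok : chk f 60 ⟨589484261, 0, 22548579, 53687091, 0, 53687092, 10737418, 0, 10737419⟩ = true := by decide +kernel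

theorem main {s u w : ℝ} (hl1 : 66 / 125 ≤ s) (hu1 : s ≤ 57 / 100) (hl2 : 0 ≤ u) (hu2 : u ≤ 1 / 10) (hl3 : 0 ≤ w) (hu3 : w ≤ 1 / 50) (hp1 : 0 ≤ u) (hp2 : 0 ≤ w) :
    0 ≤ (((((8 * (g (((h0 + s) - (ext (h0 - w))) - u))) - 4) - (4 * (g s))) + (9 / 5 * ((((((1 / 2 * (g (h0 - w))) + (h0 * (h0 - w))) + 1) - (((g (((((h0 + s) - (ext (h0 - w))) - u) + (ext (h0 - w))) - h0)) + 1) - (g (17 / 50 * s)))) - (((g (((((h0 + s) - (ext (h0 - w))) - u) + (h0 - w)) - h0)) + 1) - (g (17 / 50 * s)))) + (((((1 / 2 * (g (h0 - w))) + (h0 * (h0 - w))) + 1) - (g (((((h0 + s) - (ext (h0 - w))) - u) + (ext (h0 - w))) - (h0 + (33 / 50 * s))))) - (g (((((h0 + s) - (ext (h0 - w))) - u) + (h0 - w)) - (h0 + (33 / 50 * s)))))))) + (1 / 5 * (((((1 / 2 * (g (h0 - w))) + (h0 * (h0 - w))) + 1) - (g (((((h0 + s) - (ext (h0 - w))) - u) + (ext (h0 - w))) - h0))) - (g (((((h0 + s)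 - (ext (h0 - w))) - u) + (h0 - w)) - h0))))) := by
  have hm : Mem S ⟨589484261, 0, 22548579, 53687091, 0, 53687092, 10737418, 0, 10737419⟩ s u w := by
    refine ⟨?_, ?_, ?_⟩ <;> norm_num only [S] <;> rw [abs_le] <;> constructor <;> linarith
  have h := chk_sound f_sound 60 _ c_ok s u w hm
  unfold Q at h
  obtain ⟨q1, q2, hc⟩ := h
  rw [← w77]
  have e0 := f00 hl1 hu1 hl2 hu2 hl3 hu3 hp1 hp2
  rw [sa_77 hc]
  rw [sb_161 hc]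
  have m1 := mul_nonneg hp1 q1.le
  have m2 := mul_nonneg hp2 q2.le
  linarith
end Pool.Agent.Strip051.FourE.TLba
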