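import Pool.Agent.Strip051.Box.B3
import Pool.Agent.Strip051.FourE.Slope

/-! # Generated boxes: TUbb  -/

set_option maxRecDepth 100000
set_option linter.unusedVariables false

namespace Pool.Agent.Strip051.FourE.TUbb

open Pool.Agent.Strip051.Box Pool.Agent.Strip051.Box3
open Pool.Agent.StripNear (h0)
open Pool.Agent.StripSquare (g g_zero)
open Pool.Agent.Strip051 (ext)

abbrev S : Nat := 1073741824

theorem hS : 0 < S := by decide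

def In (b : Bx) (E : Pt) (x1 x2 x3 : ℝ) : Prop :=
  (S : ℝ) * x1 = ((b.p1 : ℝ) - b.n1) + b.q1 * E.e1 ∧ (S : ℝ) * x2 = ((b.p2 : ℝ) - b.n2) + b.q2 * E.e2 ∧ (S : ℝ) * x3 = ((b.p3 : ℝ) - b.n3) + b.q3 * E.e3

section

variable {b : Bx} {E : Pt} {x1 x2 x3 : ℝ}

def t0 (_b : Bx) : TM := tconst 1859775393 0 1
noncomputable def v0 (_x1 _x2 _x3 : ℝ) : ℝ := Real.sqrt ((3 : ℕ) : ℝ)
theorem en0 (_h : In b E x1 x2 x3) : Enc S E (t0 b) (v0 x1 x2 x3) := enc_sqrtn E (by decide) (by decide)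

def t1 (b : Bx) : TM := tscale 1 2 (t0 b)
noncomputable def v1 (x1 x2 x3 : ℝ) : ℝ := ((1 : ℕ) : ℝ) / ((2 : ℕ) : ℝ) * v0 x1 x2 x3
theorem en1 (h : In b E x1 x2 x3) : Enc S E (t1 b) (v1 x1 x2 x3) := enc_scale 1 (by norm_num) (en0 h)

def t2 (b : Bx) : TM := X1 b
noncomputable def v2 (x1 _x2 _x3 : ℝ) : ℝ := x1
theorem en2 (h : In b E x1 x2 x3) : Enc S E (t2 b) (v2 x1 x2 x3) := enc_X1 h.1

def t3 (b : Bx) : TM := X2 b
noncomputable def v3 (_x1 x2 _x3 : ℝ) : ℝ := x2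
theorem en3 (h : In b E x1 x2 x3) : Enc S E (t3 b) (v3 x1 x2 x3) := enc_X2 h.2.1

def t4 (b : Bx) : TM := X3 b
noncomputable def v4 (_x1 _x2 x3 : ℝ) : ℝ := x3
theorem en4 (h : In b E x1 x2 x3) : Enc S E (t4 b) (v4 x1 x2 x3) := enc_X3 h.2.2

def t5 (b : Bx) : TM := tsub (t1 b) (t4 b)
noncomputable def v5 (x1 x2 x3 : ℝ) : ℝ := v1 x1 x2 x3 - v4 x1 x2 x3
theorem en5 (h : In b E x1 x2 x3) : Enc S E (t5 b) (v5 x1 x2 x3) := enc_sub (en1 h) (en4 h)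

def t6 (b : Bx) : TM := tsq S (t5 b)
noncomputable def v6 (x1 x2 x3 : ℝ) : ℝ := (v5 x1 x2 x3) ^ 2
theorem en6 (h : In b E x1 x2 x3) : Enc S E (t6 b) (v6 x1 x2 x3) := enc_sq hS (en5 h)

def t7 (_b : Bx) : TM := tconst (Nat.mul 1 S) 0 0
noncomputable def v7 (_x1 _x2 _x3 : ℝ) : ℝ := ((1 : ℕ) : ℝ)
theorem en7 (_h : In b E x1 x2 x3) : Enc S E (t7 b) (v7 x1 x2 x3) := enc_nc E 1

def t8 (b : Bx) : TM := tsub (t7 b) (t6 b)
noncomputable def v8 (x1 x2 x3 : ℝ) : ℝ := v7 x1 x2 x3 - v6 x1 x2 x3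
theorem en8 (h : In b E x1 x2 x3) : Enc S E (t8 b) (v8 x1 x2 x3) := enc_sub (en7 h) (en6 h)

def t9 (b : Bx) : TM := tsqrt S (t8 b)
noncomputable def v9 (x1 x2 x3 : ℝ) : ℝ := Real.sqrt (v8 x1 x2 x3)
theorem en9 (h : In b E x1 x2 x3) : Enc S E (t9 b) (v9 x1 x2 x3) := enc_sqrt hS (en8 h)

def t10 (b : Bx) : TM := tmul S (t1 b) (t9 b)
noncomputable def v10 (x1 x2 x3 : ℝ) : ℝ := v1 x1 x2 x3 * v9 x1 x2 x3
theorem en10 (h : In b E x1 x2 x3) : Enc S E (t10 b) (v10 x1 x2 x3) := enc_mul hS (en1 h) (en9 h)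

def t11 (b : Bx) : TM := tscale 1 2 (t5 b)
noncomputable def v11 (x1 x2 x3 : ℝ) : ℝ := ((1 : ℕ) : ℝ) / ((2 : ℕ) : ℝ) * v5 x1 x2 x3
theorem en11 (h : In b E x1 x2 x3) : Enc S E (t11 b) (v11 x1 x2 x3) := enc_scale 1 (by norm_num) (en5 h)

def t13 (b : Bx) : TM := tadd (t11 b) (t10 b)
noncomputable def v13 (x1 x2 x3 : ℝ) : ℝ := v11 x1 x2 x3 + v10 x1 x2 x3
theorem en13 (h : In b E x1 x2 x3) : Enc S E (t13 b) (v13 x1 x2 x3) := enc_add (en11 h) (en10 h)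

def t14 (b : Bx) : TM := tscale 1 2 (t9 b)
noncomputable def v14 (x1 x2 x3 : ℝ) : ℝ := ((1 : ℕ) : ℝ) / ((2 : ℕ) : ℝ) * v9 x1 x2 x3
theorem en14 (h : In b E x1 x2 x3) : Enc S E (t14 b) (v14 x1 x2 x3) := enc_scale 1 (by norm_num) (en9 h)

def t15 (b : Bx) : TM := tmul S (t1 b) (t5 b)
noncomputable def v15 (x1 x2 x3 : ℝ) : ℝ := v1 x1 x2 x3 * v5 x1 x2 x3
theorem en15 (h : In b E x1 x2 x3) : Enc S E (t15 b) (v15 x1 x2 x3) := enc_mul hS (en1 h) (en5 h)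

def t16 (b : Bx) : TM := tadd (t14 b) (t15 b)
noncomputable def v16 (x1 x2 x3 : ℝ) : ℝ := v14 x1 x2 x3 + v15 x1 x2 x3
theorem en16 (h : In b E x1 x2 x3) : Enc S E (t16 b) (v16 x1 x2 x3) := enc_add (en14 h) (en15 h)

def t18 (b : Bx) : TM := tmul S (t3 b) (t4 b)
noncomputable def v18 (x1 x2 x3 : ℝ) : ℝ := v3 x1 x2 x3 * v4 x1 x2 x3
theorem en18 (h : In b E x1 x2 x3) : Enc S E (t18 b) (v18 x1 x2 x3) := enc_mul hS (en3 h) (en4 h)

def t19 (b : Bx) : TM := tadd (t2 b) (t18 b)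
noncomputable def v19 (x1 x2 x3 : ℝ) : ℝ := v2 x1 x2 x3 + v18 x1 x2 x3
theorem en19 (h : In b E x1 x2 x3) : Enc S E (t19 b) (v19 x1 x2 x3) := enc_add (en2 h) (en18 h)

def t20 (b : Bx) : TM := tsq S (t2 b)
noncomputable def v20 (x1 x2 x3 : ℝ) : ℝ := (v2 x1 x2 x3) ^ 2
theorem en20 (h : In b E x1 x2 x3) : Enc S E (t20 b) (v20 x1 x2 x3) := enc_sq hS (en2 h)

def t21 (b : Bx) : TM := tsub (t7 b) (t20 b)
noncomputable def v21 (x1 x2 x3 : ℝ) : ℝ := v7 x1 x2 x3 - v20 x1 x2 x3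
theorem en21 (h : In b E x1 x2 x3) : Enc S E (t21 b) (v21 x1 x2 x3) := enc_sub (en7 h) (en20 h)

def t22 (b : Bx) : TM := tsqrt S (t21 b)
noncomputable def v22 (x1 x2 x3 : ℝ) : ℝ := Real.sqrt (v21 x1 x2 x3)
theorem en22 (h : In b E x1 x2 x3) : Enc S E (t22 b) (v22 x1 x2 x3) := enc_sqrt hS (en21 h)

def t23 (b : Bx) : TM := tscale 17 50 (t2 b)
noncomputable def v23 (x1 x2 x3 : ℝ) : ℝ := ((17 : ℕ) : ℝ) / ((50 : ℕ) : ℝ) * v2 x1 x2 x3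
theorem en23 (h : In b E x1 x2 x3) : Enc S E (t23 b) (v23 x1 x2 x3) := enc_scale 17 (by norm_num) (en2 h)

def t24 (b : Bx) : TM := tsq S (t23 b)
noncomputable def v24 (x1 x2 x3 : ℝ) : ℝ := (v23 x1 x2 x3) ^ 2
theorem en24 (h : In b E x1 x2 x3) : Enc S E (t24 b) (v24 x1 x2 x3) := enc_sq hS (en23 h)

def t25 (b : Bx) : TM := tsub (t7 b) (t24 b)
noncomputable def v25 (x1 x2 x3 : ℝ) : ℝ := v7 x1 x2 x3 - v24 x1 x2 x3
theorem en25 (h : In b E x1 x2 x3) : Enc S E (t25 b) (v25 x1 x2 x3) := enc_sub (en7 h) (en24 h)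

def t26 (b : Bx) : TM := tsqrt S (t25 b)
noncomputable def v26 (x1 x2 x3 : ℝ) : ℝ := Real.sqrt (v25 x1 x2 x3)
theorem en26 (h : In b E x1 x2 x3) : Enc S E (t26 b) (v26 x1 x2 x3) := enc_sqrt hS (en25 h)

def t27 (b : Bx) : TM := tadd (t19 b) (t13 b)
noncomputable def v27 (x1 x2 x3 : ℝ) : ℝ := v19 x1 x2 x3 + v13 x1 x2 x3
theorem en27 (h : In b E x1 x2 x3) : Enc S E (t27 b) (v27 x1 x2 x3) := enc_add (en19 h) (en13 h)

def t28 (b : Bx) : TM := tadd (t19 b) (t5 b)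
noncomputable def v28 (x1 x2 x3 : ℝ) : ℝ := v19 x1 x2 x3 + v5 x1 x2 x3
theorem en28 (h : In b E x1 x2 x3) : Enc S E (t28 b) (v28 x1 x2 x3) := enc_add (en19 h) (en5 h)

def t30 (b : Bx) : TM := tscale 33 50 (t2 b)
noncomputable def v30 (x1 x2 x3 : ℝ) : ℝ := ((33 : ℕ) : ℝ) / ((50 : ℕ) : ℝ) * v2 x1 x2 x3
theorem en30 (h : In b E x1 x2 x3) : Enc S E (t30 b) (v30 x1 x2 x3) := enc_scale 33 (by norm_num) (en2 h)

def t31 (b : Bx) : TM := tadd (t1 b) (t30 b)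
noncomputable def v31 (x1 x2 x3 : ℝ) : ℝ := v1 x1 x2 x3 + v30 x1 x2 x3
theorem en31 (h : In b E x1 x2 x3) : Enc S E (t31 b) (v31 x1 x2 x3) := enc_add (en1 h) (en30 h)

def t32 (b : Bx) : TM := tadd (t1 b) (t2 b)
noncomputable def v32 (x1 x2 x3 : ℝ) : ℝ := v1 x1 x2 x3 + v2 x1 x2 x3
theorem en32 (h : In b E x1 x2 x3) : Enc S E (t32 b) (v32 x1 x2 x3) := enc_add (en1 h) (en2 h)

def t33 (b : Bx) : TM := tsq S (t19 b)
noncomputable def v33 (x1 x2 x3 : ℝ) : ℝ := (v19 x1 x2 x3) ^ 2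
theorem en33 (h : In b E x1 x2 x3) : Enc S E (t33 b) (v33 x1 x2 x3) := enc_sq hS (en19 h)

def t34 (b : Bx) : TM := tsub (t7 b) (t33 b)
noncomputable def v34 (x1 x2 x3 : ℝ) : ℝ := v7 x1 x2 x3 - v33 x1 x2 x3
theorem en34 (h : In b E x1 x2 x3) : Enc S E (t34 b) (v34 x1 x2 x3) := enc_sub (en7 h) (en33 h)

def t35 (b : Bx) : TM := tsqrt S (t34 b)
noncomputable def v35 (x1 x2 x3 : ℝ) : ℝ := Real.sqrt (v34 x1 x2 x3)
theorem en35 (h : In b E x1 x2 x3) : Enc S E (t35 b) (v35 x1 x2 x3) := enc_sqrt hS (en34 h)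

def t36 (b : Bx) : TM := tnat 8 (t35 b)
noncomputable def v36 (x1 x2 x3 : ℝ) : ℝ := ((8 : ℕ) : ℝ) * v35 x1 x2 x3
theorem en36 (h : In b E x1 x2 x3) : Enc S E (t36 b) (v36 x1 x2 x3) := enc_nat 8 (en35 h)

def t37 (_b : Bx) : TM := tconst (Nat.mul 4 S) 0 0
noncomputable def v37 (_x1 _x2 _x3 : ℝ) : ℝ := ((4 : ℕ) : ℝ)
theorem en37 (_h : In b E x1 x2 x3) : Enc S E (t37 b) (v37 x1 x2 x3) := enc_nc E 4

def t38 (b : Bx) : TM := tsub (t36 b) (t37 b)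
noncomputable def v38 (x1 x2 x3 : ℝ) : ℝ := v36 x1 x2 x3 - v37 x1 x2 x3
theorem en38 (h : In b E x1 x2 x3) : Enc S E (t38 b) (v38 x1 x2 x3) := enc_sub (en36 h) (en37 h)

def t39 (b : Bx) : TM := tnat 4 (t22 b)
noncomputable def v39 (x1 x2 x3 : ℝ) : ℝ := ((4 : ℕ) : ℝ) * v22 x1 x2 x3
theorem en39 (h : In b E x1 x2 x3) : Enc S E (t39 b) (v39 x1 x2 x3) := enc_nat 4 (en22 h)

def t40 (b : Bx) : TM := tsub (t38 b) (t39 b)
noncomputable def v40 (x1 x2 x3 : ℝ) : ℝ := v38 x1 x2 x3 - v39 x1 x2 x3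
theorem en40 (h : In b E x1 x2 x3) : Enc S E (t40 b) (v40 x1 x2 x3) := enc_sub (en38 h) (en39 h)

def t41 (b : Bx) : TM := tsub (t28 b) (t1 b)
noncomputable def v41 (x1 x2 x3 : ℝ) : ℝ := v28 x1 x2 x3 - v1 x1 x2 x3
theorem en41 (h : In b E x1 x2 x3) : Enc S E (t41 b) (v41 x1 x2 x3) := enc_sub (en28 h) (en1 h)

def t42 (b : Bx) : TM := tsq S (t41 b)
noncomputable def v42 (x1 x2 x3 : ℝ) : ℝ := (v41 x1 x2 x3) ^ 2
theorem en42 (h : In b E x1 x2 x3) : Enc S E (t42 b) (v42 x1 x2 x3) := enc_sq hS (en41 h)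

def t43 (b : Bx) : TM := tsub (t7 b) (t42 b)
noncomputable def v43 (x1 x2 x3 : ℝ) : ℝ := v7 x1 x2 x3 - v42 x1 x2 x3
theorem en43 (h : In b E x1 x2 x3) : Enc S E (t43 b) (v43 x1 x2 x3) := enc_sub (en7 h) (en42 h)

def t44 (b : Bx) : TM := tsqrt S (t43 b)
noncomputable def v44 (x1 x2 x3 : ℝ) : ℝ := Real.sqrt (v43 x1 x2 x3)
theorem en44 (h : In b E x1 x2 x3) : Enc S E (t44 b) (v44 x1 x2 x3) := enc_sqrt hS (en43 h)

def t45 (b : Bx) : TM := tadd (t44 b) (t7 b)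
noncomputable def v45 (x1 x2 x3 : ℝ) : ℝ := v44 x1 x2 x3 + v7 x1 x2 x3
theorem en45 (h : In b E x1 x2 x3) : Enc S E (t45 b) (v45 x1 x2 x3) := enc_add (en44 h) (en7 h)

def t46 (b : Bx) : TM := tsub (t45 b) (t26 b)
noncomputable def v46 (x1 x2 x3 : ℝ) : ℝ := v45 x1 x2 x3 - v26 x1 x2 x3
theorem en46 (h : In b E x1 x2 x3) : Enc S E (t46 b) (v46 x1 x2 x3) := enc_sub (en45 h) (en26 h)

def t47 (b : Bx) : TM := tsub (t32 b) (t19 b)
noncomputable def v47 (x1 x2 x3 : ℝ) : ℝ := v32 x1 x2 x3 - v19 x1 x2 x3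
theorem en47 (h : In b E x1 x2 x3) : Enc S E (t47 b) (v47 x1 x2 x3) := enc_sub (en32 h) (en19 h)

def t48 (b : Bx) : TM := tsq S (t47 b)
noncomputable def v48 (x1 x2 x3 : ℝ) : ℝ := (v47 x1 x2 x3) ^ 2
theorem en48 (h : In b E x1 x2 x3) : Enc S E (t48 b) (v48 x1 x2 x3) := enc_sq hS (en47 h)

def t49 (b : Bx) : TM := tsub (t7 b) (t48 b)
noncomputable def v49 (x1 x2 x3 : ℝ) : ℝ := v7 x1 x2 x3 - v48 x1 x2 x3
theorem en49 (h : In b E x1 x2 x3) : Enc S E (t49 b) (v49 x1 x2 x3) := enc_sub (en7 h) (en48 h)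

def t50 (b : Bx) : TM := tsqrt S (t49 b)
noncomputable def v50 (x1 x2 x3 : ℝ) : ℝ := Real.sqrt (v49 x1 x2 x3)
theorem en50 (h : In b E x1 x2 x3) : Enc S E (t50 b) (v50 x1 x2 x3) := enc_sqrt hS (en49 h)

def t51 (b : Bx) : TM := tsub (t27 b) (t1 b)
noncomputable def v51 (x1 x2 x3 : ℝ) : ℝ := v27 x1 x2 x3 - v1 x1 x2 x3
theorem en51 (h : In b E x1 x2 x3) : Enc S E (t51 b) (v51 x1 x2 x3) := enc_sub (en27 h) (en1 h)

def t52 (b : Bx) : TM := tsq S (t51 b)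
noncomputable def v52 (x1 x2 x3 : ℝ) : ℝ := (v51 x1 x2 x3) ^ 2
theorem en52 (h : In b E x1 x2 x3) : Enc S E (t52 b) (v52 x1 x2 x3) := enc_sq hS (en51 h)

def t53 (b : Bx) : TM := tsub (t7 b) (t52 b)
noncomputable def v53 (x1 x2 x3 : ℝ) : ℝ := v7 x1 x2 x3 - v52 x1 x2 x3
theorem en53 (h : In b E x1 x2 x3) : Enc S E (t53 b) (v53 x1 x2 x3) := enc_sub (en7 h) (en52 h)

def t54 (b : Bx) : TM := tsqrt S (t53 b)
noncomputable def v54 (x1 x2 x3 : ℝ) : ℝ := Real.sqrt (v53 x1 x2 x3)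
theorem en54 (h : In b E x1 x2 x3) : Enc S E (t54 b) (v54 x1 x2 x3) := enc_sqrt hS (en53 h)

def t55 (b : Bx) : TM := tsub (t50 b) (t22 b)
noncomputable def v55 (x1 x2 x3 : ℝ) : ℝ := v50 x1 x2 x3 - v22 x1 x2 x3
theorem en55 (h : In b E x1 x2 x3) : Enc S E (t55 b) (v55 x1 x2 x3) := enc_sub (en50 h) (en22 h)

def t56 (b : Bx) : TM := tsub (t55 b) (t7 b)
noncomputable def v56 (x1 x2 x3 : ℝ) : ℝ := v55 x1 x2 x3 - v7 x1 x2 x3
theorem en56 (h : In b E x1 x2 x3) : Enc S E (t56 b) (v56 x1 x2 x3) := enc_sub (en55 h) (en7 h)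

def t57 (b : Bx) : TM := tadd (t56 b) (t26 b)
noncomputable def v57 (x1 x2 x3 : ℝ) : ℝ := v56 x1 x2 x3 + v26 x1 x2 x3
theorem en57 (h : In b E x1 x2 x3) : Enc S E (t57 b) (v57 x1 x2 x3) := enc_add (en56 h) (en26 h)

def t58 (b : Bx) : TM := tadd (t57 b) (t9 b)
noncomputable def v58 (x1 x2 x3 : ℝ) : ℝ := v57 x1 x2 x3 + v9 x1 x2 x3
theorem en58 (h : In b E x1 x2 x3) : Enc S E (t58 b) (v58 x1 x2 x3) := enc_add (en57 h) (en9 h)

def t59 (b : Bx) : TM := tadd (t58 b) (t7 b)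
noncomputable def v59 (x1 x2 x3 : ℝ) : ℝ := v58 x1 x2 x3 + v7 x1 x2 x3
theorem en59 (h : In b E x1 x2 x3) : Enc S E (t59 b) (v59 x1 x2 x3) := enc_add (en58 h) (en7 h)

def t60 (b : Bx) : TM := tsub (t59 b) (t46 b)
noncomputable def v60 (x1 x2 x3 : ℝ) : ℝ := v59 x1 x2 x3 - v46 x1 x2 x3
theorem en60 (h : In b E x1 x2 x3) : Enc S E (t60 b) (v60 x1 x2 x3) := enc_sub (en59 h) (en46 h)

def t61 (b : Bx) : TM := tadd (t54 b) (t26 b)
noncomputable def v61 (x1 x2 x3 : ℝ) : ℝ := v54 x1 x2 x3 + v26 x1 x2 x3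
theorem en61 (h : In b E x1 x2 x3) : Enc S E (t61 b) (v61 x1 x2 x3) := enc_add (en54 h) (en26 h)

def t62 (b : Bx) : TM := tsub (t61 b) (t22 b)
noncomputable def v62 (x1 x2 x3 : ℝ) : ℝ := v61 x1 x2 x3 - v22 x1 x2 x3
theorem en62 (h : In b E x1 x2 x3) : Enc S E (t62 b) (v62 x1 x2 x3) := enc_sub (en61 h) (en22 h)

def t63 (b : Bx) : TM := tsub (t28 b) (t31 b)
noncomputable def v63 (x1 x2 x3 : ℝ) : ℝ := v28 x1 x2 x3 - v31 x1 x2 x3
theorem en63 (h : In b E x1 x2 x3) : Enc S E (t63 b) (v63 x1 x2 x3) := enc_sub (en28 h) (en31 h)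

def t64 (b : Bx) : TM := tsq S (t63 b)
noncomputable def v64 (x1 x2 x3 : ℝ) : ℝ := (v63 x1 x2 x3) ^ 2
theorem en64 (h : In b E x1 x2 x3) : Enc S E (t64 b) (v64 x1 x2 x3) := enc_sq hS (en63 h)

def t65 (b : Bx) : TM := tsub (t7 b) (t64 b)
noncomputable def v65 (x1 x2 x3 : ℝ) : ℝ := v7 x1 x2 x3 - v64 x1 x2 x3
theorem en65 (h : In b E x1 x2 x3) : Enc S E (t65 b) (v65 x1 x2 x3) := enc_sub (en7 h) (en64 h)

def t66 (b : Bx) : TM := tsqrt S (t65 b)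
noncomputable def v66 (x1 x2 x3 : ℝ) : ℝ := Real.sqrt (v65 x1 x2 x3)
theorem en66 (h : In b E x1 x2 x3) : Enc S E (t66 b) (v66 x1 x2 x3) := enc_sqrt hS (en65 h)

def t67 (b : Bx) : TM := tadd (t16 b) (t7 b)
noncomputable def v67 (x1 x2 x3 : ℝ) : ℝ := v16 x1 x2 x3 + v7 x1 x2 x3
theorem en67 (h : In b E x1 x2 x3) : Enc S E (t67 b) (v67 x1 x2 x3) := enc_add (en16 h) (en7 h)

def t68 (b : Bx) : TM := tsub (t67 b) (t62 b)
noncomputable def v68 (x1 x2 x3 : ℝ) : ℝ := v67 x1 x2 x3 - v62 x1 x2 x3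
theorem en68 (h : In b E x1 x2 x3) : Enc S E (t68 b) (v68 x1 x2 x3) := enc_sub (en67 h) (en62 h)

def t69 (b : Bx) : TM := tsub (t68 b) (t66 b)
noncomputable def v69 (x1 x2 x3 : ℝ) : ℝ := v68 x1 x2 x3 - v66 x1 x2 x3
theorem en69 (h : In b E x1 x2 x3) : Enc S E (t69 b) (v69 x1 x2 x3) := enc_sub (en68 h) (en66 h)

def t70 (b : Bx) : TM := tadd (t55 b) (t7 b)
noncomputable def v70 (x1 x2 x3 : ℝ) : ℝ := v55 x1 x2 x3 + v7 x1 x2 x3
theorem en70 (h : In b E x1 x2 x3) : Enc S E (t70 b) (v70 x1 x2 x3) := enc_add (en55 h) (en7 h)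

def t71 (b : Bx) : TM := tadd (t70 b) (t9 b)
noncomputable def v71 (x1 x2 x3 : ℝ) : ℝ := v70 x1 x2 x3 + v9 x1 x2 x3
theorem en71 (h : In b E x1 x2 x3) : Enc S E (t71 b) (v71 x1 x2 x3) := enc_add (en70 h) (en9 h)

def t72 (b : Bx) : TM := tsub (t71 b) (t44 b)
noncomputable def v72 (x1 x2 x3 : ℝ) : ℝ := v71 x1 x2 x3 - v44 x1 x2 x3
theorem en72 (h : In b E x1 x2 x3) : Enc S E (t72 b) (v72 x1 x2 x3) := enc_sub (en71 h) (en44 h)

def t73 (b : Bx) : TM := tadd (t16 b) (t22 b)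
noncomputable def v73 (x1 x2 x3 : ℝ) : ℝ := v16 x1 x2 x3 + v22 x1 x2 x3
theorem en73 (h : In b E x1 x2 x3) : Enc S E (t73 b) (v73 x1 x2 x3) := enc_add (en16 h) (en22 h)

def t74 (b : Bx) : TM := tsub (t73 b) (t54 b)
noncomputable def v74 (x1 x2 x3 : ℝ) : ℝ := v73 x1 x2 x3 - v54 x1 x2 x3
theorem en74 (h : In b E x1 x2 x3) : Enc S E (t74 b) (v74 x1 x2 x3) := enc_sub (en73 h) (en54 h)

def t75 (b : Bx) : TM := tsub (t32 b) (t28 b)
noncomputable def v75 (x1 x2 x3 : ℝ) : ℝ := v32 x1 x2 x3 - v28 x1 x2 x3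
theorem en75 (h : In b E x1 x2 x3) : Enc S E (t75 b) (v75 x1 x2 x3) := enc_sub (en32 h) (en28 h)

def t76 (b : Bx) : TM := tsq S (t75 b)
noncomputable def v76 (x1 x2 x3 : ℝ) : ℝ := (v75 x1 x2 x3) ^ 2
theorem en76 (h : In b E x1 x2 x3) : Enc S E (t76 b) (v76 x1 x2 x3) := enc_sq hS (en75 h)

def t77 (b : Bx) : TM := tsub (t7 b) (t76 b)
noncomputable def v77 (x1 x2 x3 : ℝ) : ℝ := v7 x1 x2 x3 - v76 x1 x2 x3
theorem en77 (h : In b E x1 x2 x3) : Enc S E (t77 b) (v77 x1 x2 x3) := enc_sub (en7 h) (en76 h)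

def t78 (b : Bx) : TM := tsqrt S (t77 b)
noncomputable def v78 (x1 x2 x3 : ℝ) : ℝ := Real.sqrt (v77 x1 x2 x3)
theorem en78 (h : In b E x1 x2 x3) : Enc S E (t78 b) (v78 x1 x2 x3) := enc_sqrt hS (en77 h)

def t79 (b : Bx) : TM := tsub (t74 b) (t78 b)
noncomputable def v79 (x1 x2 x3 : ℝ) : ℝ := v74 x1 x2 x3 - v78 x1 x2 x3
theorem en79 (h : In b E x1 x2 x3) : Enc S E (t79 b) (v79 x1 x2 x3) := enc_sub (en74 h) (en78 h)

def t80 (b : Bx) : TM := tadd (t60 b) (t69 b)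
noncomputable def v80 (x1 x2 x3 : ℝ) : ℝ := v60 x1 x2 x3 + v69 x1 x2 x3
theorem en80 (h : In b E x1 x2 x3) : Enc S E (t80 b) (v80 x1 x2 x3) := enc_add (en60 h) (en69 h)

def t81 (b : Bx) : TM := tscale 9 5 (t80 b)
noncomputable def v81 (x1 x2 x3 : ℝ) : ℝ := ((9 : ℕ) : ℝ) / ((5 : ℕ) : ℝ) * v80 x1 x2 x3
theorem en81 (h : In b E x1 x2 x3) : Enc S E (t81 b) (v81 x1 x2 x3) := enc_scale 9 (by norm_num) (en80 h)

def t82 (b : Bx) : TM := tadd (t40 b) (t81 b)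
noncomputable def v82 (x1 x2 x3 : ℝ) : ℝ := v40 x1 x2 x3 + v81 x1 x2 x3
theorem en82 (h : In b E x1 x2 x3) : Enc S E (t82 b) (v82 x1 x2 x3) := enc_add (en40 h) (en81 h)

def t83 (b : Bx) : TM := tadd (t72 b) (t79 b)
noncomputable def v83 (x1 x2 x3 : ℝ) : ℝ := v72 x1 x2 x3 + v79 x1 x2 x3
theorem en83 (h : In b E x1 x2 x3) : Enc S E (t83 b) (v83 x1 x2 x3) := enc_add (en72 h) (en79 h)

def t84 (b : Bx) : TM := tscale 1 5 (t83 b)
noncomputable def v84 (x1 x2 x3 : ℝ) : ℝ := ((1 : ℕ) : ℝ) / ((5 : ℕ) : ℝ) * v83 x1 x2 x3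
theorem en84 (h : In b E x1 x2 x3) : Enc S E (t84 b) (v84 x1 x2 x3) := enc_scale 1 (by norm_num) (en83 h)

def t85 (b : Bx) : TM := tadd (t82 b) (t84 b)
noncomputable def v85 (x1 x2 x3 : ℝ) : ℝ := v82 x1 x2 x3 + v84 x1 x2 x3
theorem en85 (h : In b E x1 x2 x3) : Enc S E (t85 b) (v85 x1 x2 x3) := enc_add (en82 h) (en84 h)

def t91 (_b : Bx) : TM := tconst (Nat.mul 0 S) 0 0
noncomputable def v91 (_x1 _x2 _x3 : ℝ) : ℝ := ((0 : ℕ) : ℝ)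
theorem en91 (_h : In b E x1 x2 x3) : Enc S E (t91 b) (v91 x1 x2 x3) := enc_nc E 0

def t92 (b : Bx) : TM := tmul S (t3 b) (t91 b)
noncomputable def v92 (x1 x2 x3 : ℝ) : ℝ := v3 x1 x2 x3 * v91 x1 x2 x3
theorem en92 (h : In b E x1 x2 x3) : Enc S E (t92 b) (v92 x1 x2 x3) := enc_mul hS (en3 h) (en91 h)

def t93 (b : Bx) : TM := tmul S (t3 b) (t7 b)
noncomputable def v93 (x1 x2 x3 : ℝ) : ℝ := v3 x1 x2 x3 * v7 x1 x2 x3
theorem en93 (h : In b E x1 x2 x3) : Enc S E (t93 b) (v93 x1 x2 x3) := enc_mul hS (en3 h) (en7 h)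

def t94 (b : Bx) : TM := tadd (t2 b) (t92 b)
noncomputable def v94 (x1 x2 x3 : ℝ) : ℝ := v2 x1 x2 x3 + v92 x1 x2 x3
theorem en94 (h : In b E x1 x2 x3) : Enc S E (t94 b) (v94 x1 x2 x3) := enc_add (en2 h) (en92 h)

def t95 (b : Bx) : TM := tsq S (t94 b)
noncomputable def v95 (x1 x2 x3 : ℝ) : ℝ := (v94 x1 x2 x3) ^ 2
theorem en95 (h : In b E x1 x2 x3) : Enc S E (t95 b) (v95 x1 x2 x3) := enc_sq hS (en94 h)

def t96 (b : Bx) : TM := tadd (t19 b) (t94 b)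
noncomputable def v96 (x1 x2 x3 : ℝ) : ℝ := v19 x1 x2 x3 + v94 x1 x2 x3
theorem en96 (h : In b E x1 x2 x3) : Enc S E (t96 b) (v96 x1 x2 x3) := enc_add (en19 h) (en94 h)

def t97 (b : Bx) : TM := tmul S (t93 b) (t96 b)
noncomputable def v97 (x1 x2 x3 : ℝ) : ℝ := v93 x1 x2 x3 * v96 x1 x2 x3
theorem en97 (h : In b E x1 x2 x3) : Enc S E (t97 b) (v97 x1 x2 x3) := enc_mul hS (en93 h) (en96 h)

def t98 (b : Bx) : TM := tsub (t7 b) (t95 b)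
noncomputable def v98 (x1 x2 x3 : ℝ) : ℝ := v7 x1 x2 x3 - v95 x1 x2 x3
theorem en98 (h : In b E x1 x2 x3) : Enc S E (t98 b) (v98 x1 x2 x3) := enc_sub (en7 h) (en95 h)

def t99 (b : Bx) : TM := tneg (t97 b)
noncomputable def v99 (x1 x2 x3 : ℝ) : ℝ := -(v97 x1 x2 x3)
theorem en99 (h : In b E x1 x2 x3) : Enc S E (t99 b) (v99 x1 x2 x3) := enc_neg (en97 h)

def t100 (b : Bx) : TM := tsqrt S (t98 b)
noncomputable def v100 (x1 x2 x3 : ℝ) : ℝ := Real.sqrt (v98 x1 x2 x3)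
theorem en100 (h : In b E x1 x2 x3) : Enc S E (t100 b) (v100 x1 x2 x3) := enc_sqrt hS (en98 h)

def t101 (b : Bx) : TM := tadd (t35 b) (t100 b)
noncomputable def v101 (x1 x2 x3 : ℝ) : ℝ := v35 x1 x2 x3 + v100 x1 x2 x3
theorem en101 (h : In b E x1 x2 x3) : Enc S E (t101 b) (v101 x1 x2 x3) := enc_add (en35 h) (en100 h)

def t102 (b : Bx) : TM := tinv S (t101 b)
noncomputable def v102 (x1 x2 x3 : ℝ) : ℝ := (v101 x1 x2 x3)⁻¹
theorem en102 (h : In b E x1 x2 x3) : Enc S E (t102 b) (v102 x1 x2 x3) := enc_inv hS (en101 h)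

def t103 (b : Bx) : TM := tmul S (t99 b) (t102 b)
noncomputable def v103 (x1 x2 x3 : ℝ) : ℝ := v99 x1 x2 x3 * v102 x1 x2 x3
theorem en103 (h : In b E x1 x2 x3) : Enc S E (t103 b) (v103 x1 x2 x3) := enc_mul hS (en99 h) (en102 h)

def t104 (b : Bx) : TM := tnat 8 (t100 b)
noncomputable def v104 (x1 x2 x3 : ℝ) : ℝ := ((8 : ℕ) : ℝ) * v100 x1 x2 x3
theorem en104 (h : In b E x1 x2 x3) : Enc S E (t104 b) (v104 x1 x2 x3) := enc_nat 8 (en100 h)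

def t105 (b : Bx) : TM := tnat 8 (t103 b)
noncomputable def v105 (x1 x2 x3 : ℝ) : ℝ := ((8 : ℕ) : ℝ) * v103 x1 x2 x3
theorem en105 (h : In b E x1 x2 x3) : Enc S E (t105 b) (v105 x1 x2 x3) := enc_nat 8 (en103 h)

def t106 (b : Bx) : TM := tsub (t104 b) (t37 b)
noncomputable def v106 (x1 x2 x3 : ℝ) : ℝ := v104 x1 x2 x3 - v37 x1 x2 x3
theorem en106 (h : In b E x1 x2 x3) : Enc S E (t106 b) (v106 x1 x2 x3) := enc_sub (en104 h) (en37 h)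

def t107 (b : Bx) : TM := tsub (t106 b) (t39 b)
noncomputable def v107 (x1 x2 x3 : ℝ) : ℝ := v106 x1 x2 x3 - v39 x1 x2 x3
theorem en107 (h : In b E x1 x2 x3) : Enc S E (t107 b) (v107 x1 x2 x3) := enc_sub (en106 h) (en39 h)

def t108 (b : Bx) : TM := tsub (t32 b) (t94 b)
noncomputable def v108 (x1 x2 x3 : ℝ) : ℝ := v32 x1 x2 x3 - v94 x1 x2 x3
theorem en108 (h : In b E x1 x2 x3) : Enc S E (t108 b) (v108 x1 x2 x3) := enc_sub (en32 h) (en94 h)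

def t109 (b : Bx) : TM := tneg (t93 b)
noncomputable def v109 (x1 x2 x3 : ℝ) : ℝ := -(v93 x1 x2 x3)
theorem en109 (h : In b E x1 x2 x3) : Enc S E (t109 b) (v109 x1 x2 x3) := enc_neg (en93 h)

def t110 (b : Bx) : TM := tsq S (t108 b)
noncomputable def v110 (x1 x2 x3 : ℝ) : ℝ := (v108 x1 x2 x3) ^ 2
theorem en110 (h : In b E x1 x2 x3) : Enc S E (t110 b) (v110 x1 x2 x3) := enc_sq hS (en108 h)

def t111 (b : Bx) : TM := tadd (t47 b) (t108 b)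
noncomputable def v111 (x1 x2 x3 : ℝ) : ℝ := v47 x1 x2 x3 + v108 x1 x2 x3
theorem en111 (h : In b E x1 x2 x3) : Enc S E (t111 b) (v111 x1 x2 x3) := enc_add (en47 h) (en108 h)

def t112 (b : Bx) : TM := tmul S (t109 b) (t111 b)
noncomputable def v112 (x1 x2 x3 : ℝ) : ℝ := v109 x1 x2 x3 * v111 x1 x2 x3
theorem en112 (h : In b E x1 x2 x3) : Enc S E (t112 b) (v112 x1 x2 x3) := enc_mul hS (en109 h) (en111 h)

def t113 (b : Bx) : TM := tsub (t7 b) (t110 b)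
noncomputable def v113 (x1 x2 x3 : ℝ) : ℝ := v7 x1 x2 x3 - v110 x1 x2 x3
theorem en113 (h : In b E x1 x2 x3) : Enc S E (t113 b) (v113 x1 x2 x3) := enc_sub (en7 h) (en110 h)

def t114 (b : Bx) : TM := tneg (t112 b)
noncomputable def v114 (x1 x2 x3 : ℝ) : ℝ := -(v112 x1 x2 x3)
theorem en114 (h : In b E x1 x2 x3) : Enc S E (t114 b) (v114 x1 x2 x3) := enc_neg (en112 h)

def t115 (b : Bx) : TM := tsqrt S (t113 b)
noncomputable def v115 (x1 x2 x3 : ℝ) : ℝ := Real.sqrt (v113 x1 x2 x3)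
theorem en115 (h : In b E x1 x2 x3) : Enc S E (t115 b) (v115 x1 x2 x3) := enc_sqrt hS (en113 h)

def t116 (b : Bx) : TM := tadd (t50 b) (t115 b)
noncomputable def v116 (x1 x2 x3 : ℝ) : ℝ := v50 x1 x2 x3 + v115 x1 x2 x3
theorem en116 (h : In b E x1 x2 x3) : Enc S E (t116 b) (v116 x1 x2 x3) := enc_add (en50 h) (en115 h)

def t117 (b : Bx) : TM := tinv S (t116 b)
noncomputable def v117 (x1 x2 x3 : ℝ) : ℝ := (v116 x1 x2 x3)⁻¹
theorem en117 (h : In b E x1 x2 x3) : Enc S E (t117 b) (v117 x1 x2 x3) := enc_inv hS (en116 h)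

def t118 (b : Bx) : TM := tmul S (t114 b) (t117 b)
noncomputable def v118 (x1 x2 x3 : ℝ) : ℝ := v114 x1 x2 x3 * v117 x1 x2 x3
theorem en118 (h : In b E x1 x2 x3) : Enc S E (t118 b) (v118 x1 x2 x3) := enc_mul hS (en114 h) (en117 h)

def t119 (b : Bx) : TM := tsub (t115 b) (t22 b)
noncomputable def v119 (x1 x2 x3 : ℝ) : ℝ := v115 x1 x2 x3 - v22 x1 x2 x3
theorem en119 (h : In b E x1 x2 x3) : Enc S E (t119 b) (v119 x1 x2 x3) := enc_sub (en115 h) (en22 h)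

def t120 (b : Bx) : TM := tsub (t119 b) (t7 b)
noncomputable def v120 (x1 x2 x3 : ℝ) : ℝ := v119 x1 x2 x3 - v7 x1 x2 x3
theorem en120 (h : In b E x1 x2 x3) : Enc S E (t120 b) (v120 x1 x2 x3) := enc_sub (en119 h) (en7 h)

def t121 (b : Bx) : TM := tadd (t120 b) (t26 b)
noncomputable def v121 (x1 x2 x3 : ℝ) : ℝ := v120 x1 x2 x3 + v26 x1 x2 x3
theorem en121 (h : In b E x1 x2 x3) : Enc S E (t121 b) (v121 x1 x2 x3) := enc_add (en120 h) (en26 h)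

def t122 (b : Bx) : TM := tsub (t1 b) (t91 b)
noncomputable def v122 (x1 x2 x3 : ℝ) : ℝ := v1 x1 x2 x3 - v91 x1 x2 x3
theorem en122 (h : In b E x1 x2 x3) : Enc S E (t122 b) (v122 x1 x2 x3) := enc_sub (en1 h) (en91 h)

def t123 (b : Bx) : TM := tneg (t7 b)
noncomputable def v123 (x1 x2 x3 : ℝ) : ℝ := -(v7 x1 x2 x3)
theorem en123 (h : In b E x1 x2 x3) : Enc S E (t123 b) (v123 x1 x2 x3) := enc_neg (en7 h)

def t124 (b : Bx) : TM := tsq S (t122 b)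
noncomputable def v124 (x1 x2 x3 : ℝ) : ℝ := (v122 x1 x2 x3) ^ 2
theorem en124 (h : In b E x1 x2 x3) : Enc S E (t124 b) (v124 x1 x2 x3) := enc_sq hS (en122 h)

def t125 (b : Bx) : TM := tadd (t5 b) (t122 b)
noncomputable def v125 (x1 x2 x3 : ℝ) : ℝ := v5 x1 x2 x3 + v122 x1 x2 x3
theorem en125 (h : In b E x1 x2 x3) : Enc S E (t125 b) (v125 x1 x2 x3) := enc_add (en5 h) (en122 h)

def t126 (b : Bx) : TM := tmul S (t123 b) (t125 b)
noncomputable def v126 (x1 x2 x3 : ℝ) : ℝ := v123 x1 x2 x3 * v125 x1 x2 x3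
theorem en126 (h : In b E x1 x2 x3) : Enc S E (t126 b) (v126 x1 x2 x3) := enc_mul hS (en123 h) (en125 h)

def t127 (b : Bx) : TM := tsub (t7 b) (t124 b)
noncomputable def v127 (x1 x2 x3 : ℝ) : ℝ := v7 x1 x2 x3 - v124 x1 x2 x3
theorem en127 (h : In b E x1 x2 x3) : Enc S E (t127 b) (v127 x1 x2 x3) := enc_sub (en7 h) (en124 h)

def t128 (b : Bx) : TM := tneg (t126 b)
noncomputable def v128 (x1 x2 x3 : ℝ) : ℝ := -(v126 x1 x2 x3)
theorem en128 (h : In b E x1 x2 x3) : Enc S E (t128 b) (v128 x1 x2 x3) := enc_neg (en126 h)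

def t129 (b : Bx) : TM := tsqrt S (t127 b)
noncomputable def v129 (x1 x2 x3 : ℝ) : ℝ := Real.sqrt (v127 x1 x2 x3)
theorem en129 (h : In b E x1 x2 x3) : Enc S E (t129 b) (v129 x1 x2 x3) := enc_sqrt hS (en127 h)

def t130 (b : Bx) : TM := tadd (t9 b) (t129 b)
noncomputable def v130 (x1 x2 x3 : ℝ) : ℝ := v9 x1 x2 x3 + v129 x1 x2 x3
theorem en130 (h : In b E x1 x2 x3) : Enc S E (t130 b) (v130 x1 x2 x3) := enc_add (en9 h) (en129 h)

def t131 (b : Bx) : TM := tinv S (t130 b)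
noncomputable def v131 (x1 x2 x3 : ℝ) : ℝ := (v130 x1 x2 x3)⁻¹
theorem en131 (h : In b E x1 x2 x3) : Enc S E (t131 b) (v131 x1 x2 x3) := enc_inv hS (en130 h)

def t132 (b : Bx) : TM := tmul S (t128 b) (t131 b)
noncomputable def v132 (x1 x2 x3 : ℝ) : ℝ := v128 x1 x2 x3 * v131 x1 x2 x3
theorem en132 (h : In b E x1 x2 x3) : Enc S E (t132 b) (v132 x1 x2 x3) := enc_mul hS (en128 h) (en131 h)

def t133 (b : Bx) : TM := tadd (t121 b) (t129 b)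
noncomputable def v133 (x1 x2 x3 : ℝ) : ℝ := v121 x1 x2 x3 + v129 x1 x2 x3
theorem en133 (h : In b E x1 x2 x3) : Enc S E (t133 b) (v133 x1 x2 x3) := enc_add (en121 h) (en129 h)

def t134 (b : Bx) : TM := tadd (t118 b) (t132 b)
noncomputable def v134 (x1 x2 x3 : ℝ) : ℝ := v118 x1 x2 x3 + v132 x1 x2 x3
theorem en134 (h : In b E x1 x2 x3) : Enc S E (t134 b) (v134 x1 x2 x3) := enc_add (en118 h) (en132 h)

def t135 (b : Bx) : TM := tadd (t133 b) (t7 b)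
noncomputable def v135 (x1 x2 x3 : ℝ) : ℝ := v133 x1 x2 x3 + v7 x1 x2 x3
theorem en135 (h : In b E x1 x2 x3) : Enc S E (t135 b) (v135 x1 x2 x3) := enc_add (en133 h) (en7 h)

def t136 (b : Bx) : TM := tadd (t94 b) (t122 b)
noncomputable def v136 (x1 x2 x3 : ℝ) : ℝ := v94 x1 x2 x3 + v122 x1 x2 x3
theorem en136 (h : In b E x1 x2 x3) : Enc S E (t136 b) (v136 x1 x2 x3) := enc_add (en94 h) (en122 h)

def t137 (b : Bx) : TM := tadd (t93 b) (t123 b)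
noncomputable def v137 (x1 x2 x3 : ℝ) : ℝ := v93 x1 x2 x3 + v123 x1 x2 x3
theorem en137 (h : In b E x1 x2 x3) : Enc S E (t137 b) (v137 x1 x2 x3) := enc_add (en93 h) (en123 h)

def t138 (b : Bx) : TM := tsub (t136 b) (t1 b)
noncomputable def v138 (x1 x2 x3 : ℝ) : ℝ := v136 x1 x2 x3 - v1 x1 x2 x3
theorem en138 (h : In b E x1 x2 x3) : Enc S E (t138 b) (v138 x1 x2 x3) := enc_sub (en136 h) (en1 h)

def t139 (b : Bx) : TM := tsq S (t138 b)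
noncomputable def v139 (x1 x2 x3 : ℝ) : ℝ := (v138 x1 x2 x3) ^ 2
theorem en139 (h : In b E x1 x2 x3) : Enc S E (t139 b) (v139 x1 x2 x3) := enc_sq hS (en138 h)

def t140 (b : Bx) : TM := tadd (t41 b) (t138 b)
noncomputable def v140 (x1 x2 x3 : ℝ) : ℝ := v41 x1 x2 x3 + v138 x1 x2 x3
theorem en140 (h : In b E x1 x2 x3) : Enc S E (t140 b) (v140 x1 x2 x3) := enc_add (en41 h) (en138 h)

def t141 (b : Bx) : TM := tmul S (t137 b) (t140 b)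
noncomputable def v141 (x1 x2 x3 : ℝ) : ℝ := v137 x1 x2 x3 * v140 x1 x2 x3
theorem en141 (h : In b E x1 x2 x3) : Enc S E (t141 b) (v141 x1 x2 x3) := enc_mul hS (en137 h) (en140 h)

def t142 (b : Bx) : TM := tsub (t7 b) (t139 b)
noncomputable def v142 (x1 x2 x3 : ℝ) : ℝ := v7 x1 x2 x3 - v139 x1 x2 x3
theorem en142 (h : In b E x1 x2 x3) : Enc S E (t142 b) (v142 x1 x2 x3) := enc_sub (en7 h) (en139 h)

def t143 (b : Bx) : TM := tneg (t141 b)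
noncomputable def v143 (x1 x2 x3 : ℝ) : ℝ := -(v141 x1 x2 x3)
theorem en143 (h : In b E x1 x2 x3) : Enc S E (t143 b) (v143 x1 x2 x3) := enc_neg (en141 h)

def t144 (b : Bx) : TM := tsqrt S (t142 b)
noncomputable def v144 (x1 x2 x3 : ℝ) : ℝ := Real.sqrt (v142 x1 x2 x3)
theorem en144 (h : In b E x1 x2 x3) : Enc S E (t144 b) (v144 x1 x2 x3) := enc_sqrt hS (en142 h)

def t145 (b : Bx) : TM := tadd (t44 b) (t144 b)
noncomputable def v145 (x1 x2 x3 : ℝ) : ℝ := v44 x1 x2 x3 + v144 x1 x2 x3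
theorem en145 (h : In b E x1 x2 x3) : Enc S E (t145 b) (v145 x1 x2 x3) := enc_add (en44 h) (en144 h)

def t146 (b : Bx) : TM := tinv S (t145 b)
noncomputable def v146 (x1 x2 x3 : ℝ) : ℝ := (v145 x1 x2 x3)⁻¹
theorem en146 (h : In b E x1 x2 x3) : Enc S E (t146 b) (v146 x1 x2 x3) := enc_inv hS (en145 h)

def t147 (b : Bx) : TM := tmul S (t143 b) (t146 b)
noncomputable def v147 (x1 x2 x3 : ℝ) : ℝ := v143 x1 x2 x3 * v146 x1 x2 x3
theorem en147 (h : In b E x1 x2 x3) : Enc S E (t147 b) (v147 x1 x2 x3) := enc_mul hS (en143 h) (en146 h)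

def t148 (b : Bx) : TM := tadd (t144 b) (t7 b)
noncomputable def v148 (x1 x2 x3 : ℝ) : ℝ := v144 x1 x2 x3 + v7 x1 x2 x3
theorem en148 (h : In b E x1 x2 x3) : Enc S E (t148 b) (v148 x1 x2 x3) := enc_add (en144 h) (en7 h)

def t149 (b : Bx) : TM := tsub (t148 b) (t26 b)
noncomputable def v149 (x1 x2 x3 : ℝ) : ℝ := v148 x1 x2 x3 - v26 x1 x2 x3
theorem en149 (h : In b E x1 x2 x3) : Enc S E (t149 b) (v149 x1 x2 x3) := enc_sub (en148 h) (en26 h)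

def t150 (b : Bx) : TM := tsub (t135 b) (t149 b)
noncomputable def v150 (x1 x2 x3 : ℝ) : ℝ := v135 x1 x2 x3 - v149 x1 x2 x3
theorem en150 (h : In b E x1 x2 x3) : Enc S E (t150 b) (v150 x1 x2 x3) := enc_sub (en135 h) (en149 h)

def t151 (b : Bx) : TM := tsub (t134 b) (t147 b)
noncomputable def v151 (x1 x2 x3 : ℝ) : ℝ := v134 x1 x2 x3 - v147 x1 x2 x3
theorem en151 (h : In b E x1 x2 x3) : Enc S E (t151 b) (v151 x1 x2 x3) := enc_sub (en134 h) (en147 h)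

def t152 (b : Bx) : TM := tscale 1 2 (t129 b)
noncomputable def v152 (x1 x2 x3 : ℝ) : ℝ := ((1 : ℕ) : ℝ) / ((2 : ℕ) : ℝ) * v129 x1 x2 x3
theorem en152 (h : In b E x1 x2 x3) : Enc S E (t152 b) (v152 x1 x2 x3) := enc_scale 1 (by norm_num) (en129 h)

def t153 (b : Bx) : TM := tscale 1 2 (t132 b)
noncomputable def v153 (x1 x2 x3 : ℝ) : ℝ := ((1 : ℕ) : ℝ) / ((2 : ℕ) : ℝ) * v132 x1 x2 x3
theorem en153 (h : In b E x1 x2 x3) : Enc S E (t153 b) (v153 x1 x2 x3) := enc_scale 1 (by norm_num) (en132 h)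

def t154 (b : Bx) : TM := tmul S (t1 b) (t122 b)
noncomputable def v154 (x1 x2 x3 : ℝ) : ℝ := v1 x1 x2 x3 * v122 x1 x2 x3
theorem en154 (h : In b E x1 x2 x3) : Enc S E (t154 b) (v154 x1 x2 x3) := enc_mul hS (en1 h) (en122 h)

def t155 (b : Bx) : TM := tmul S (t1 b) (t123 b)
noncomputable def v155 (x1 x2 x3 : ℝ) : ℝ := v1 x1 x2 x3 * v123 x1 x2 x3
theorem en155 (h : In b E x1 x2 x3) : Enc S E (t155 b) (v155 x1 x2 x3) := enc_mul hS (en1 h) (en123 h)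

def t156 (b : Bx) : TM := tadd (t152 b) (t154 b)
noncomputable def v156 (x1 x2 x3 : ℝ) : ℝ := v152 x1 x2 x3 + v154 x1 x2 x3
theorem en156 (h : In b E x1 x2 x3) : Enc S E (t156 b) (v156 x1 x2 x3) := enc_add (en152 h) (en154 h)

def t157 (b : Bx) : TM := tadd (t153 b) (t155 b)
noncomputable def v157 (x1 x2 x3 : ℝ) : ℝ := v153 x1 x2 x3 + v155 x1 x2 x3
theorem en157 (h : In b E x1 x2 x3) : Enc S E (t157 b) (v157 x1 x2 x3) := enc_add (en153 h) (en155 h)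

def t158 (b : Bx) : TM := tadd (t156 b) (t7 b)
noncomputable def v158 (x1 x2 x3 : ℝ) : ℝ := v156 x1 x2 x3 + v7 x1 x2 x3
theorem en158 (h : In b E x1 x2 x3) : Enc S E (t158 b) (v158 x1 x2 x3) := enc_add (en156 h) (en7 h)

def t159 (b : Bx) : TM := tscale 1 2 (t122 b)
noncomputable def v159 (x1 x2 x3 : ℝ) : ℝ := ((1 : ℕ) : ℝ) / ((2 : ℕ) : ℝ) * v122 x1 x2 x3
theorem en159 (h : In b E x1 x2 x3) : Enc S E (t159 b) (v159 x1 x2 x3) := enc_scale 1 (by norm_num) (en122 h)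

def t160 (b : Bx) : TM := tscale 1 2 (t123 b)
noncomputable def v160 (x1 x2 x3 : ℝ) : ℝ := ((1 : ℕ) : ℝ) / ((2 : ℕ) : ℝ) * v123 x1 x2 x3
theorem en160 (h : In b E x1 x2 x3) : Enc S E (t160 b) (v160 x1 x2 x3) := enc_scale 1 (by norm_num) (en123 h)

def t161 (b : Bx) : TM := tmul S (t1 b) (t129 b)
noncomputable def v161 (x1 x2 x3 : ℝ) : ℝ := v1 x1 x2 x3 * v129 x1 x2 x3
theorem en161 (h : In b E x1 x2 x3) : Enc S E (t161 b) (v161 x1 x2 x3) := enc_mul hS (en1 h) (en129 h)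

def t162 (b : Bx) : TM := tmul S (t1 b) (t132 b)
noncomputable def v162 (x1 x2 x3 : ℝ) : ℝ := v1 x1 x2 x3 * v132 x1 x2 x3
theorem en162 (h : In b E x1 x2 x3) : Enc S E (t162 b) (v162 x1 x2 x3) := enc_mul hS (en1 h) (en132 h)

def t163 (b : Bx) : TM := tadd (t159 b) (t161 b)
noncomputable def v163 (x1 x2 x3 : ℝ) : ℝ := v159 x1 x2 x3 + v161 x1 x2 x3
theorem en163 (h : In b E x1 x2 x3) : Enc S E (t163 b) (v163 x1 x2 x3) := enc_add (en159 h) (en161 h)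

def t164 (b : Bx) : TM := tadd (t160 b) (t162 b)
noncomputable def v164 (x1 x2 x3 : ℝ) : ℝ := v160 x1 x2 x3 + v162 x1 x2 x3
theorem en164 (h : In b E x1 x2 x3) : Enc S E (t164 b) (v164 x1 x2 x3) := enc_add (en160 h) (en162 h)

def t165 (b : Bx) : TM := tadd (t94 b) (t163 b)
noncomputable def v165 (x1 x2 x3 : ℝ) : ℝ := v94 x1 x2 x3 + v163 x1 x2 x3
theorem en165 (h : In b E x1 x2 x3) : Enc S E (t165 b) (v165 x1 x2 x3) := enc_add (en94 h) (en163 h)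

def t166 (b : Bx) : TM := tadd (t93 b) (t164 b)
noncomputable def v166 (x1 x2 x3 : ℝ) : ℝ := v93 x1 x2 x3 + v164 x1 x2 x3
theorem en166 (h : In b E x1 x2 x3) : Enc S E (t166 b) (v166 x1 x2 x3) := enc_add (en93 h) (en164 h)

def t167 (b : Bx) : TM := tsub (t165 b) (t1 b)
noncomputable def v167 (x1 x2 x3 : ℝ) : ℝ := v165 x1 x2 x3 - v1 x1 x2 x3
theorem en167 (h : In b E x1 x2 x3) : Enc S E (t167 b) (v167 x1 x2 x3) := enc_sub (en165 h) (en1 h)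

def t168 (b : Bx) : TM := tsq S (t167 b)
noncomputable def v168 (x1 x2 x3 : ℝ) : ℝ := (v167 x1 x2 x3) ^ 2
theorem en168 (h : In b E x1 x2 x3) : Enc S E (t168 b) (v168 x1 x2 x3) := enc_sq hS (en167 h)

def t169 (b : Bx) : TM := tadd (t51 b) (t167 b)
noncomputable def v169 (x1 x2 x3 : ℝ) : ℝ := v51 x1 x2 x3 + v167 x1 x2 x3
theorem en169 (h : In b E x1 x2 x3) : Enc S E (t169 b) (v169 x1 x2 x3) := enc_add (en51 h) (en167 h)

def t170 (b : Bx) : TM := tmul S (t166 b) (t169 b)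
noncomputable def v170 (x1 x2 x3 : ℝ) : ℝ := v166 x1 x2 x3 * v169 x1 x2 x3
theorem en170 (h : In b E x1 x2 x3) : Enc S E (t170 b) (v170 x1 x2 x3) := enc_mul hS (en166 h) (en169 h)

def t171 (b : Bx) : TM := tsub (t7 b) (t168 b)
noncomputable def v171 (x1 x2 x3 : ℝ) : ℝ := v7 x1 x2 x3 - v168 x1 x2 x3
theorem en171 (h : In b E x1 x2 x3) : Enc S E (t171 b) (v171 x1 x2 x3) := enc_sub (en7 h) (en168 h)

def t172 (b : Bx) : TM := tneg (t170 b)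
noncomputable def v172 (x1 x2 x3 : ℝ) : ℝ := -(v170 x1 x2 x3)
theorem en172 (h : In b E x1 x2 x3) : Enc S E (t172 b) (v172 x1 x2 x3) := enc_neg (en170 h)

def t173 (b : Bx) : TM := tsqrt S (t171 b)
noncomputable def v173 (x1 x2 x3 : ℝ) : ℝ := Real.sqrt (v171 x1 x2 x3)
theorem en173 (h : In b E x1 x2 x3) : Enc S E (t173 b) (v173 x1 x2 x3) := enc_sqrt hS (en171 h)

def t174 (b : Bx) : TM := tadd (t54 b) (t173 b)
noncomputable def v174 (x1 x2 x3 : ℝ) : ℝ := v54 x1 x2 x3 + v173 x1 x2 x3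
theorem en174 (h : In b E x1 x2 x3) : Enc S E (t174 b) (v174 x1 x2 x3) := enc_add (en54 h) (en173 h)

def t175 (b : Bx) : TM := tinv S (t174 b)
noncomputable def v175 (x1 x2 x3 : ℝ) : ℝ := (v174 x1 x2 x3)⁻¹
theorem en175 (h : In b E x1 x2 x3) : Enc S E (t175 b) (v175 x1 x2 x3) := enc_inv hS (en174 h)

def t176 (b : Bx) : TM := tmul S (t172 b) (t175 b)
noncomputable def v176 (x1 x2 x3 : ℝ) : ℝ := v172 x1 x2 x3 * v175 x1 x2 x3
theorem en176 (h : In b E x1 x2 x3) : Enc S E (t176 b) (v176 x1 x2 x3) := enc_mul hS (en172 h) (en175 h)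

def t177 (b : Bx) : TM := tadd (t173 b) (t26 b)
noncomputable def v177 (x1 x2 x3 : ℝ) : ℝ := v173 x1 x2 x3 + v26 x1 x2 x3
theorem en177 (h : In b E x1 x2 x3) : Enc S E (t177 b) (v177 x1 x2 x3) := enc_add (en173 h) (en26 h)

def t178 (b : Bx) : TM := tsub (t177 b) (t22 b)
noncomputable def v178 (x1 x2 x3 : ℝ) : ℝ := v177 x1 x2 x3 - v22 x1 x2 x3
theorem en178 (h : In b E x1 x2 x3) : Enc S E (t178 b) (v178 x1 x2 x3) := enc_sub (en177 h) (en22 h)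

def t179 (b : Bx) : TM := tsub (t158 b) (t178 b)
noncomputable def v179 (x1 x2 x3 : ℝ) : ℝ := v158 x1 x2 x3 - v178 x1 x2 x3
theorem en179 (h : In b E x1 x2 x3) : Enc S E (t179 b) (v179 x1 x2 x3) := enc_sub (en158 h) (en178 h)

def t180 (b : Bx) : TM := tsub (t157 b) (t176 b)
noncomputable def v180 (x1 x2 x3 : ℝ) : ℝ := v157 x1 x2 x3 - v176 x1 x2 x3
theorem en180 (h : In b E x1 x2 x3) : Enc S E (t180 b) (v180 x1 x2 x3) := enc_sub (en157 h) (en176 h)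

def t181 (b : Bx) : TM := tsub (t136 b) (t31 b)
noncomputable def v181 (x1 x2 x3 : ℝ) : ℝ := v136 x1 x2 x3 - v31 x1 x2 x3
theorem en181 (h : In b E x1 x2 x3) : Enc S E (t181 b) (v181 x1 x2 x3) := enc_sub (en136 h) (en31 h)

def t182 (b : Bx) : TM := tsq S (t181 b)
noncomputable def v182 (x1 x2 x3 : ℝ) : ℝ := (v181 x1 x2 x3) ^ 2
theorem en182 (h : In b E x1 x2 x3) : Enc S E (t182 b) (v182 x1 x2 x3) := enc_sq hS (en181 h)

def t183 (b : Bx) : TM := tadd (t63 b) (t181 b)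
noncomputable def v183 (x1 x2 x3 : ℝ) : ℝ := v63 x1 x2 x3 + v181 x1 x2 x3
theorem en183 (h : In b E x1 x2 x3) : Enc S E (t183 b) (v183 x1 x2 x3) := enc_add (en63 h) (en181 h)

def t184 (b : Bx) : TM := tmul S (t137 b) (t183 b)
noncomputable def v184 (x1 x2 x3 : ℝ) : ℝ := v137 x1 x2 x3 * v183 x1 x2 x3
theorem en184 (h : In b E x1 x2 x3) : Enc S E (t184 b) (v184 x1 x2 x3) := enc_mul hS (en137 h) (en183 h)

def t185 (b : Bx) : TM := tsub (t7 b) (t182 b)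
noncomputable def v185 (x1 x2 x3 : ℝ) : ℝ := v7 x1 x2 x3 - v182 x1 x2 x3
theorem en185 (h : In b E x1 x2 x3) : Enc S E (t185 b) (v185 x1 x2 x3) := enc_sub (en7 h) (en182 h)

def t186 (b : Bx) : TM := tneg (t184 b)
noncomputable def v186 (x1 x2 x3 : ℝ) : ℝ := -(v184 x1 x2 x3)
theorem en186 (h : In b E x1 x2 x3) : Enc S E (t186 b) (v186 x1 x2 x3) := enc_neg (en184 h)

def t187 (b : Bx) : TM := tsqrt S (t185 b)
noncomputable def v187 (x1 x2 x3 : ℝ) : ℝ := Real.sqrt (v185 x1 x2 x3)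
theorem en187 (h : In b E x1 x2 x3) : Enc S E (t187 b) (v187 x1 x2 x3) := enc_sqrt hS (en185 h)

def t188 (b : Bx) : TM := tadd (t66 b) (t187 b)
noncomputable def v188 (x1 x2 x3 : ℝ) : ℝ := v66 x1 x2 x3 + v187 x1 x2 x3
theorem en188 (h : In b E x1 x2 x3) : Enc S E (t188 b) (v188 x1 x2 x3) := enc_add (en66 h) (en187 h)

def t189 (b : Bx) : TM := tinv S (t188 b)
noncomputable def v189 (x1 x2 x3 : ℝ) : ℝ := (v188 x1 x2 x3)⁻¹
theorem en189 (h : In b E x1 x2 x3) : Enc S E (t189 b) (v189 x1 x2 x3) := enc_inv hS (en188 h)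

def t190 (b : Bx) : TM := tmul S (t186 b) (t189 b)
noncomputable def v190 (x1 x2 x3 : ℝ) : ℝ := v186 x1 x2 x3 * v189 x1 x2 x3
theorem en190 (h : In b E x1 x2 x3) : Enc S E (t190 b) (v190 x1 x2 x3) := enc_mul hS (en186 h) (en189 h)

def t191 (b : Bx) : TM := tsub (t179 b) (t187 b)
noncomputable def v191 (x1 x2 x3 : ℝ) : ℝ := v179 x1 x2 x3 - v187 x1 x2 x3
theorem en191 (h : In b E x1 x2 x3) : Enc S E (t191 b) (v191 x1 x2 x3) := enc_sub (en179 h) (en187 h)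

def t192 (b : Bx) : TM := tsub (t180 b) (t190 b)
noncomputable def v192 (x1 x2 x3 : ℝ) : ℝ := v180 x1 x2 x3 - v190 x1 x2 x3
theorem en192 (h : In b E x1 x2 x3) : Enc S E (t192 b) (v192 x1 x2 x3) := enc_sub (en180 h) (en190 h)

def t193 (b : Bx) : TM := tadd (t150 b) (t191 b)
noncomputable def v193 (x1 x2 x3 : ℝ) : ℝ := v150 x1 x2 x3 + v191 x1 x2 x3
theorem en193 (h : In b E x1 x2 x3) : Enc S E (t193 b) (v193 x1 x2 x3) := enc_add (en150 h) (en191 h)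

def t194 (b : Bx) : TM := tadd (t151 b) (t192 b)
noncomputable def v194 (x1 x2 x3 : ℝ) : ℝ := v151 x1 x2 x3 + v192 x1 x2 x3
theorem en194 (h : In b E x1 x2 x3) : Enc S E (t194 b) (v194 x1 x2 x3) := enc_add (en151 h) (en192 h)

def t195 (b : Bx) : TM := tscale 9 5 (t193 b)
noncomputable def v195 (x1 x2 x3 : ℝ) : ℝ := ((9 : ℕ) : ℝ) / ((5 : ℕ) : ℝ) * v193 x1 x2 x3
theorem en195 (h : In b E x1 x2 x3) : Enc S E (t195 b) (v195 x1 x2 x3) := enc_scale 9 (by norm_num) (en193 h)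

def t196 (b : Bx) : TM := tscale 9 5 (t194 b)
noncomputable def v196 (x1 x2 x3 : ℝ) : ℝ := ((9 : ℕ) : ℝ) / ((5 : ℕ) : ℝ) * v194 x1 x2 x3
theorem en196 (h : In b E x1 x2 x3) : Enc S E (t196 b) (v196 x1 x2 x3) := enc_scale 9 (by norm_num) (en194 h)

def t197 (b : Bx) : TM := tadd (t107 b) (t195 b)
noncomputable def v197 (x1 x2 x3 : ℝ) : ℝ := v107 x1 x2 x3 + v195 x1 x2 x3
theorem en197 (h : In b E x1 x2 x3) : Enc S E (t197 b) (v197 x1 x2 x3) := enc_add (en107 h) (en195 h)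

def t198 (b : Bx) : TM := tadd (t105 b) (t196 b)
noncomputable def v198 (x1 x2 x3 : ℝ) : ℝ := v105 x1 x2 x3 + v196 x1 x2 x3
theorem en198 (h : In b E x1 x2 x3) : Enc S E (t198 b) (v198 x1 x2 x3) := enc_add (en105 h) (en196 h)

def t199 (b : Bx) : TM := tadd (t119 b) (t7 b)
noncomputable def v199 (x1 x2 x3 : ℝ) : ℝ := v119 x1 x2 x3 + v7 x1 x2 x3
theorem en199 (h : In b E x1 x2 x3) : Enc S E (t199 b) (v199 x1 x2 x3) := enc_add (en119 h) (en7 h)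

def t200 (b : Bx) : TM := tadd (t199 b) (t129 b)
noncomputable def v200 (x1 x2 x3 : ℝ) : ℝ := v199 x1 x2 x3 + v129 x1 x2 x3
theorem en200 (h : In b E x1 x2 x3) : Enc S E (t200 b) (v200 x1 x2 x3) := enc_add (en199 h) (en129 h)

def t201 (b : Bx) : TM := tsub (t200 b) (t144 b)
noncomputable def v201 (x1 x2 x3 : ℝ) : ℝ := v200 x1 x2 x3 - v144 x1 x2 x3
theorem en201 (h : In b E x1 x2 x3) : Enc S E (t201 b) (v201 x1 x2 x3) := enc_sub (en200 h) (en144 h)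

def t202 (b : Bx) : TM := tadd (t156 b) (t22 b)
noncomputable def v202 (x1 x2 x3 : ℝ) : ℝ := v156 x1 x2 x3 + v22 x1 x2 x3
theorem en202 (h : In b E x1 x2 x3) : Enc S E (t202 b) (v202 x1 x2 x3) := enc_add (en156 h) (en22 h)

def t203 (b : Bx) : TM := tsub (t202 b) (t173 b)
noncomputable def v203 (x1 x2 x3 : ℝ) : ℝ := v202 x1 x2 x3 - v173 x1 x2 x3
theorem en203 (h : In b E x1 x2 x3) : Enc S E (t203 b) (v203 x1 x2 x3) := enc_sub (en202 h) (en173 h)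

def t204 (b : Bx) : TM := tsub (t32 b) (t136 b)
noncomputable def v204 (x1 x2 x3 : ℝ) : ℝ := v32 x1 x2 x3 - v136 x1 x2 x3
theorem en204 (h : In b E x1 x2 x3) : Enc S E (t204 b) (v204 x1 x2 x3) := enc_sub (en32 h) (en136 h)

def t205 (b : Bx) : TM := tneg (t137 b)
noncomputable def v205 (x1 x2 x3 : ℝ) : ℝ := -(v137 x1 x2 x3)
theorem en205 (h : In b E x1 x2 x3) : Enc S E (t205 b) (v205 x1 x2 x3) := enc_neg (en137 h)

def t206 (b : Bx) : TM := tsq S (t204 b)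
noncomputable def v206 (x1 x2 x3 : ℝ) : ℝ := (v204 x1 x2 x3) ^ 2
theorem en206 (h : In b E x1 x2 x3) : Enc S E (t206 b) (v206 x1 x2 x3) := enc_sq hS (en204 h)

def t207 (b : Bx) : TM := tadd (t75 b) (t204 b)
noncomputable def v207 (x1 x2 x3 : ℝ) : ℝ := v75 x1 x2 x3 + v204 x1 x2 x3
theorem en207 (h : In b E x1 x2 x3) : Enc S E (t207 b) (v207 x1 x2 x3) := enc_add (en75 h) (en204 h)

def t208 (b : Bx) : TM := tmul S (t205 b) (t207 b)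
noncomputable def v208 (x1 x2 x3 : ℝ) : ℝ := v205 x1 x2 x3 * v207 x1 x2 x3
theorem en208 (h : In b E x1 x2 x3) : Enc S E (t208 b) (v208 x1 x2 x3) := enc_mul hS (en205 h) (en207 h)

def t209 (b : Bx) : TM := tsub (t7 b) (t206 b)
noncomputable def v209 (x1 x2 x3 : ℝ) : ℝ := v7 x1 x2 x3 - v206 x1 x2 x3
theorem en209 (h : In b E x1 x2 x3) : Enc S E (t209 b) (v209 x1 x2 x3) := enc_sub (en7 h) (en206 h)

def t210 (b : Bx) : TM := tneg (t208 b)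
noncomputable def v210 (x1 x2 x3 : ℝ) : ℝ := -(v208 x1 x2 x3)
theorem en210 (h : In b E x1 x2 x3) : Enc S E (t210 b) (v210 x1 x2 x3) := enc_neg (en208 h)

def t211 (b : Bx) : TM := tsqrt S (t209 b)
noncomputable def v211 (x1 x2 x3 : ℝ) : ℝ := Real.sqrt (v209 x1 x2 x3)
theorem en211 (h : In b E x1 x2 x3) : Enc S E (t211 b) (v211 x1 x2 x3) := enc_sqrt hS (en209 h)

def t212 (b : Bx) : TM := tadd (t78 b) (t211 b)
noncomputable def v212 (x1 x2 x3 : ℝ) : ℝ := v78 x1 x2 x3 + v211 x1 x2 x3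
theorem en212 (h : In b E x1 x2 x3) : Enc S E (t212 b) (v212 x1 x2 x3) := enc_add (en78 h) (en211 h)

def t213 (b : Bx) : TM := tinv S (t212 b)
noncomputable def v213 (x1 x2 x3 : ℝ) : ℝ := (v212 x1 x2 x3)⁻¹
theorem en213 (h : In b E x1 x2 x3) : Enc S E (t213 b) (v213 x1 x2 x3) := enc_inv hS (en212 h)

def t214 (b : Bx) : TM := tmul S (t210 b) (t213 b)
noncomputable def v214 (x1 x2 x3 : ℝ) : ℝ := v210 x1 x2 x3 * v213 x1 x2 x3
theorem en214 (h : In b E x1 x2 x3) : Enc S E (t214 b) (v214 x1 x2 x3) := enc_mul hS (en210 h) (en213 h)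

def t215 (b : Bx) : TM := tsub (t203 b) (t211 b)
noncomputable def v215 (x1 x2 x3 : ℝ) : ℝ := v203 x1 x2 x3 - v211 x1 x2 x3
theorem en215 (h : In b E x1 x2 x3) : Enc S E (t215 b) (v215 x1 x2 x3) := enc_sub (en203 h) (en211 h)

def t216 (b : Bx) : TM := tsub (t180 b) (t214 b)
noncomputable def v216 (x1 x2 x3 : ℝ) : ℝ := v180 x1 x2 x3 - v214 x1 x2 x3
theorem en216 (h : In b E x1 x2 x3) : Enc S E (t216 b) (v216 x1 x2 x3) := enc_sub (en180 h) (en214 h)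

def t217 (b : Bx) : TM := tadd (t201 b) (t215 b)
noncomputable def v217 (x1 x2 x3 : ℝ) : ℝ := v201 x1 x2 x3 + v215 x1 x2 x3
theorem en217 (h : In b E x1 x2 x3) : Enc S E (t217 b) (v217 x1 x2 x3) := enc_add (en201 h) (en215 h)

def t218 (b : Bx) : TM := tadd (t151 b) (t216 b)
noncomputable def v218 (x1 x2 x3 : ℝ) : ℝ := v151 x1 x2 x3 + v216 x1 x2 x3
theorem en218 (h : In b E x1 x2 x3) : Enc S E (t218 b) (v218 x1 x2 x3) := enc_add (en151 h) (en216 h)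

def t219 (b : Bx) : TM := tscale 1 5 (t217 b)
noncomputable def v219 (x1 x2 x3 : ℝ) : ℝ := ((1 : ℕ) : ℝ) / ((5 : ℕ) : ℝ) * v217 x1 x2 x3
theorem en219 (h : In b E x1 x2 x3) : Enc S E (t219 b) (v219 x1 x2 x3) := enc_scale 1 (by norm_num) (en217 h)

def t220 (b : Bx) : TM := tscale 1 5 (t218 b)
noncomputable def v220 (x1 x2 x3 : ℝ) : ℝ := ((1 : ℕ) : ℝ) / ((5 : ℕ) : ℝ) * v218 x1 x2 x3
theorem en220 (h : In b E x1 x2 x3) : Enc S E (t220 b) (v220 x1 x2 x3) := enc_scale 1 (by norm_num) (en218 h)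

def t221 (b : Bx) : TM := tadd (t197 b) (t219 b)
noncomputable def v221 (x1 x2 x3 : ℝ) : ℝ := v197 x1 x2 x3 + v219 x1 x2 x3
theorem en221 (h : In b E x1 x2 x3) : Enc S E (t221 b) (v221 x1 x2 x3) := enc_add (en197 h) (en219 h)

def t222 (b : Bx) : TM := tadd (t198 b) (t220 b)
noncomputable def v222 (x1 x2 x3 : ℝ) : ℝ := v198 x1 x2 x3 + v220 x1 x2 x3
theorem en222 (h : In b E x1 x2 x3) : Enc S E (t222 b) (v222 x1 x2 x3) := enc_add (en198 h) (en220 h)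

end

def tst (b : Bx) : Bool := and (pos (t222 b)) (and (pos (t34 b)) (and (pos (t98 b)) (and (pos (t49 b)) (and (pos (t113 b)) (and (pos (t8 b)) (and (pos (t127 b)) (and (pos (t43 b)) (and (pos (t142 b)) (and (pos (t53 b)) (and (pos (t171 b)) (and (pos (t65 b)) (and (pos (t185 b)) (and (pos (t77 b)) (pos (t209 b)))))))))))))))

def f (b : Bx) : Nat := go (tst b) 1 (t85 b) b

/-- the conditions -/
def Cnd (x1 x2 x3 : ℝ) : Prop := 0 < v34 x1 x2 x3 ∧ 0 < v98 x1 x2 x3 ∧ 0 < v49 x1 x2 x3 ∧ 0 < v113 x1 x2 x3 ∧ 0 < v8 x1 x2 x3 ∧ 0 < v127 x1 x2 x3 ∧ 0 < v43 x1 x2 x3 ∧ 0 < v142 x1 x2 x3 ∧ 0 < v53 x1 x2 x3 ∧ 0 < v171 x1 x2 x3 ∧ 0 < v65 x1 x2 x3 ∧ 0 < v185 x1 x2 x3 ∧ 0 < v77 x1 x2 x3 ∧ 0 < v209 x1 x2 x3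

def Q (x1 x2 x3 : ℝ) : Prop := (0 < v222 x1 x2 x3 ∧ Cnd x1 x2 x3)

theorem f_sound (b : Bx) (hb : f b = 0) (x1 x2 x3 : ℝ) (hm : Mem S b x1 x2 x3) : Q x1 x2 x3 := by
  obtain ⟨E, h⟩ := pt_of_mem hm
  have h : In b E x1 x2 x3 := h
  have ht := go_sound hb
  unfold tst at ht
  unfold Q
  obtain ⟨k1, ht⟩ := Bool.and_eq_true_iff.mp ht
  have k1222 := pos_sound hS (en222 h) k1
  obtain ⟨k1, ht⟩ := Bool.and_eq_true_iff.mp ht
  have k1034 := pos_sound hS (en34 h) k1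
  obtain ⟨k1, ht⟩ := Bool.and_eq_true_iff.mp ht
  have k1098 := pos_sound hS (en98 h) k1
  obtain ⟨k1, ht⟩ := Bool.and_eq_true_iff.mp ht
  have k1049 := pos_sound hS (en49 h) k1
  obtain ⟨k1, ht⟩ := Bool.and_eq_true_iff.mp ht
  have k1113 := pos_sound hS (en113 h) k1
  obtain ⟨k1, ht⟩ := Bool.and_eq_true_iff.mp ht
  have k1008 := pos_sound hS (en8 h) k1
  obtain ⟨k1, ht⟩ := Bool.and_eq_true_iff.mp ht
  have k1127 := pos_sound hS (en127 h) k1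
  obtain ⟨k1, ht⟩ := Bool.and_eq_true_iff.mp ht
  have k1043 := pos_sound hS (en43 h) k1
  obtain ⟨k1, ht⟩ := Bool.and_eq_true_iff.mp ht
  have k1142 := pos_sound hS (en142 h) k1
  obtain ⟨k1, ht⟩ := Bool.and_eq_true_iff.mp ht
  have k1053 := pos_sound hS (en53 h) k1
  obtain ⟨k1, ht⟩ := Bool.and_eq_true_iff.mp ht
  have k1171 := pos_sound hS (en171 h) k1
  obtain ⟨k1, ht⟩ := Bool.and_eq_true_iff.mp ht
  have k1065 := pos_sound hS (en65 h) k1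
  obtain ⟨k1, ht⟩ := Bool.and_eq_true_iff.mp ht
  have k1185 := pos_sound hS (en185 h) k1
  obtain ⟨k1, ht⟩ := Bool.and_eq_true_iff.mp ht
  have k1077 := pos_sound hS (en77 h) k1
  have k1209 := pos_sound hS (en209 h) ht
  exact ⟨k1222, k1034, k1098, k1049, k1113, k1008, k1127, k1043, k1142, k1053, k1171, k1065, k1185, k1077, k1209⟩

theorem sa_4 {x1 x2 x3 : ℝ} (_hc : Cnd x1 x2 x3) :
    v4 x1 x2 x3 = v91 x1 x2 x3 + x3 * v7 x1 x2 x3 := svar _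

theorem sa_18 {x1 x2 x3 : ℝ} (hc : Cnd x1 x2 x3) :
    v18 x1 x2 x3 = v92 x1 x2 x3 + x3 * v93 x1 x2 x3 := smulr (sa_4 hc)

theorem sa_19 {x1 x2 x3 : ℝ} (hc : Cnd x1 x2 x3) :
    v19 x1 x2 x3 = v94 x1 x2 x3 + x3 * v93 x1 x2 x3 := saddr (sa_18 hc)

theorem sa_33 {x1 x2 x3 : ℝ} (hc : Cnd x1 x2 x3) :
    v33 x1 x2 x3 = v95 x1 x2 x3 + x3 * v97 x1 x2 x3 := ssq (sa_19 hc)

theorem sa_34 {x1 x2 x3 : ℝ} (hc : Cnd x1 x2 x3) :
    v34 x1 x2 x3 = v98 x1 x2 x3 + x3 * v99 x1 x2 x3 := ssubr (sa_33 hc)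

theorem sa_35 {x1 x2 x3 : ℝ} (hc : Cnd x1 x2 x3) :
    v35 x1 x2 x3 = v100 x1 x2 x3 + x3 * v103 x1 x2 x3 := ssqrt (sa_34 hc) hc.1 hc.2.1

theorem sa_36 {x1 x2 x3 : ℝ} (hc : Cnd x1 x2 x3) :
    v36 x1 x2 x3 = v104 x1 x2 x3 + x3 * v105 x1 x2 x3 := smulr (sa_35 hc)

theorem sa_38 {x1 x2 x3 : ℝ} (hc : Cnd x1 x2 x3) :
    v38 x1 x2 x3 = v106 x1 x2 x3 + x3 * v105 x1 x2 x3 := ssubl (sa_36 hc)

theorem sa_40 {x1 x2 x3 : ℝ} (hc : Cnd x1 x2 x3) :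
    v40 x1 x2 x3 = v107 x1 x2 x3 + x3 * v105 x1 x2 x3 := ssubl (sa_38 hc)

theorem sa_47 {x1 x2 x3 : ℝ} (hc : Cnd x1 x2 x3) :
    v47 x1 x2 x3 = v108 x1 x2 x3 + x3 * v109 x1 x2 x3 := ssubr (sa_19 hc)

theorem sa_48 {x1 x2 x3 : ℝ} (hc : Cnd x1 x2 x3) :
    v48 x1 x2 x3 = v110 x1 x2 x3 + x3 * v112 x1 x2 x3 := ssq (sa_47 hc)

theorem sa_49 {x1 x2 x3 : ℝ} (hc : Cnd x1 x2 x3) :
    v49 x1 x2 x3 = v113 x1 x2 x3 + x3 * v114 x1 x2 x3 := ssubr (sa_48 hc)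

theorem sa_50 {x1 x2 x3 : ℝ} (hc : Cnd x1 x2 x3) :
    v50 x1 x2 x3 = v115 x1 x2 x3 + x3 * v118 x1 x2 x3 := ssqrt (sa_49 hc) hc.2.2.1 hc.2.2.2.1

theorem sa_55 {x1 x2 x3 : ℝ} (hc : Cnd x1 x2 x3) :
    v55 x1 x2 x3 = v119 x1 x2 x3 + x3 * v118 x1 x2 x3 := ssubl (sa_50 hc)

theorem sa_56 {x1 x2 x3 : ℝ} (hc : Cnd x1 x2 x3) :
    v56 x1 x2 x3 = v120 x1 x2 x3 + x3 * v118 x1 x2 x3 := ssubl (sa_55 hc)

theorem sa_57 {x1 x2 x3 : ℝ} (hc : Cnd x1 x2 x3) :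
    v57 x1 x2 x3 = v121 x1 x2 x3 + x3 * v118 x1 x2 x3 := saddl (sa_56 hc)

theorem sa_5 {x1 x2 x3 : ℝ} (hc : Cnd x1 x2 x3) :
    v5 x1 x2 x3 = v122 x1 x2 x3 + x3 * v123 x1 x2 x3 := ssubr (sa_4 hc)

theorem sa_6 {x1 x2 x3 : ℝ} (hc : Cnd x1 x2 x3) :
    v6 x1 x2 x3 = v124 x1 x2 x3 + x3 * v126 x1 x2 x3 := ssq (sa_5 hc)

theorem sa_8 {x1 x2 x3 : ℝ} (hc : Cnd x1 x2 x3) :
    v8 x1 x2 x3 = v127 x1 x2 x3 + x3 * v128 x1 x2 x3 := ssubr (sa_6 hc)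

theorem sa_9 {x1 x2 x3 : ℝ} (hc : Cnd x1 x2 x3) :
    v9 x1 x2 x3 = v129 x1 x2 x3 + x3 * v132 x1 x2 x3 := ssqrt (sa_8 hc) hc.2.2.2.2.1 hc.2.2.2.2.2.1

theorem sa_58 {x1 x2 x3 : ℝ} (hc : Cnd x1 x2 x3) :
    v58 x1 x2 x3 = v133 x1 x2 x3 + x3 * v134 x1 x2 x3 := sadd (sa_57 hc) (sa_9 hc)

theorem sa_59 {x1 x2 x3 : ℝ} (hc : Cnd x1 x2 x3) :
    v59 x1 x2 x3 = v135 x1 x2 x3 + x3 * v134 x1 x2 x3 := saddl (sa_58 hc)

theorem sa_28 {x1 x2 x3 : ℝ} (hc : Cnd x1 x2 x3) :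
    v28 x1 x2 x3 = v136 x1 x2 x3 + x3 * v137 x1 x2 x3 := sadd (sa_19 hc) (sa_5 hc)

theorem sa_41 {x1 x2 x3 : ℝ} (hc : Cnd x1 x2 x3) :
    v41 x1 x2 x3 = v138 x1 x2 x3 + x3 * v137 x1 x2 x3 := ssubl (sa_28 hc)

theorem sa_42 {x1 x2 x3 : ℝ} (hc : Cnd x1 x2 x3) :
    v42 x1 x2 x3 = v139 x1 x2 x3 + x3 * v141 x1 x2 x3 := ssq (sa_41 hc)

theorem sa_43 {x1 x2 x3 : ℝ} (hc : Cnd x1 x2 x3) :
    v43 x1 x2 x3 = v142 x1 x2 x3 + x3 * v143 x1 x2 x3 := ssubr (sa_42 hc)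

theorem sa_44 {x1 x2 x3 : ℝ} (hc : Cnd x1 x2 x3) :
    v44 x1 x2 x3 = v144 x1 x2 x3 + x3 * v147 x1 x2 x3 := ssqrt (sa_43 hc) hc.2.2.2.2.2.2.1 hc.2.2.2.2.2.2.2.1

theorem sa_45 {x1 x2 x3 : ℝ} (hc : Cnd x1 x2 x3) :
    v45 x1 x2 x3 = v148 x1 x2 x3 + x3 * v147 x1 x2 x3 := saddl (sa_44 hc)

theorem sa_46 {x1 x2 x3 : ℝ} (hc : Cnd x1 x2 x3) :
    v46 x1 x2 x3 = v149 x1 x2 x3 + x3 * v147 x1 x2 x3 := ssubl (sa_45 hc)

theorem sa_60 {x1 x2 x3 : ℝ} (hc : Cnd x1 x2 x3) :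
    v60 x1 x2 x3 = v150 x1 x2 x3 + x3 * v151 x1 x2 x3 := ssub (sa_59 hc) (sa_46 hc)

theorem sa_14 {x1 x2 x3 : ℝ} (hc : Cnd x1 x2 x3) :
    v14 x1 x2 x3 = v152 x1 x2 x3 + x3 * v153 x1 x2 x3 := smulr (sa_9 hc)

theorem sa_15 {x1 x2 x3 : ℝ} (hc : Cnd x1 x2 x3) :
    v15 x1 x2 x3 = v154 x1 x2 x3 + x3 * v155 x1 x2 x3 := smulr (sa_5 hc)

theorem sa_16 {x1 x2 x3 : ℝ} (hc : Cnd x1 x2 x3) :
    v16 x1 x2 x3 = v156 x1 x2 x3 + x3 * v157 x1 x2 x3 := sadd (sa_14 hc) (sa_15 hc)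

theorem sa_67 {x1 x2 x3 : ℝ} (hc : Cnd x1 x2 x3) :
    v67 x1 x2 x3 = v158 x1 x2 x3 + x3 * v157 x1 x2 x3 := saddl (sa_16 hc)

theorem sa_11 {x1 x2 x3 : ℝ} (hc : Cnd x1 x2 x3) :
    v11 x1 x2 x3 = v159 x1 x2 x3 + x3 * v160 x1 x2 x3 := smulr (sa_5 hc)

theorem sa_10 {x1 x2 x3 : ℝ} (hc : Cnd x1 x2 x3) :
    v10 x1 x2 x3 = v161 x1 x2 x3 + x3 * v162 x1 x2 x3 := smulr (sa_9 hc)

theorem sa_13 {x1 x2 x3 : ℝ} (hc : Cnd x1 x2 x3) :
    v13 x1 x2 x3 = v163 x1 x2 x3 + x3 * v164 x1 x2 x3 := sadd (sa_11 hc) (sa_10 hc)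

theorem sa_27 {x1 x2 x3 : ℝ} (hc : Cnd x1 x2 x3) :
    v27 x1 x2 x3 = v165 x1 x2 x3 + x3 * v166 x1 x2 x3 := sadd (sa_19 hc) (sa_13 hc)

theorem sa_51 {x1 x2 x3 : ℝ} (hc : Cnd x1 x2 x3) :
    v51 x1 x2 x3 = v167 x1 x2 x3 + x3 * v166 x1 x2 x3 := ssubl (sa_27 hc)

theorem sa_52 {x1 x2 x3 : ℝ} (hc : Cnd x1 x2 x3) :
    v52 x1 x2 x3 = v168 x1 x2 x3 + x3 * v170 x1 x2 x3 := ssq (sa_51 hc)

theorem sa_53 {x1 x2 x3 : ℝ} (hc : Cnd x1 x2 x3) :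
    v53 x1 x2 x3 = v171 x1 x2 x3 + x3 * v172 x1 x2 x3 := ssubr (sa_52 hc)

theorem sa_54 {x1 x2 x3 : ℝ} (hc : Cnd x1 x2 x3) :
    v54 x1 x2 x3 = v173 x1 x2 x3 + x3 * v176 x1 x2 x3 := ssqrt (sa_53 hc) hc.2.2.2.2.2.2.2.2.1 hc.2.2.2.2.2.2.2.2.2.1

theorem sa_61 {x1 x2 x3 : ℝ} (hc : Cnd x1 x2 x3) :
    v61 x1 x2 x3 = v177 x1 x2 x3 + x3 * v176 x1 x2 x3 := saddl (sa_54 hc)

theorem sa_62 {x1 x2 x3 : ℝ} (hc : Cnd x1 x2 x3) :
    v62 x1 x2 x3 = v178 x1 x2 x3 + x3 * v176 x1 x2 x3 := ssubl (sa_61 hc)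

theorem sa_68 {x1 x2 x3 : ℝ} (hc : Cnd x1 x2 x3) :
    v68 x1 x2 x3 = v179 x1 x2 x3 + x3 * v180 x1 x2 x3 := ssub (sa_67 hc) (sa_62 hc)

theorem sa_63 {x1 x2 x3 : ℝ} (hc : Cnd x1 x2 x3) :
    v63 x1 x2 x3 = v181 x1 x2 x3 + x3 * v137 x1 x2 x3 := ssubl (sa_28 hc)

theorem sa_64 {x1 x2 x3 : ℝ} (hc : Cnd x1 x2 x3) :
    v64 x1 x2 x3 = v182 x1 x2 x3 + x3 * v184 x1 x2 x3 := ssq (sa_63 hc)

theorem sa_65 {x1 x2 x3 : ℝ} (hc : Cnd x1 x2 x3) :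
    v65 x1 x2 x3 = v185 x1 x2 x3 + x3 * v186 x1 x2 x3 := ssubr (sa_64 hc)

theorem sa_66 {x1 x2 x3 : ℝ} (hc : Cnd x1 x2 x3) :
    v66 x1 x2 x3 = v187 x1 x2 x3 + x3 * v190 x1 x2 x3 := ssqrt (sa_65 hc) hc.2.2.2.2.2.2.2.2.2.2.1 hc.2.2.2.2.2.2.2.2.2.2.2.1

theorem sa_69 {x1 x2 x3 : ℝ} (hc : Cnd x1 x2 x3) :
    v69 x1 x2 x3 = v191 x1 x2 x3 + x3 * v192 x1 x2 x3 := ssub (sa_68 hc) (sa_66 hc)

theorem sa_80 {x1 x2 x3 : ℝ} (hc : Cnd x1 x2 x3) :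
    v80 x1 x2 x3 = v193 x1 x2 x3 + x3 * v194 x1 x2 x3 := sadd (sa_60 hc) (sa_69 hc)

theorem sa_81 {x1 x2 x3 : ℝ} (hc : Cnd x1 x2 x3) :
    v81 x1 x2 x3 = v195 x1 x2 x3 + x3 * v196 x1 x2 x3 := smulr (sa_80 hc)

theorem sa_82 {x1 x2 x3 : ℝ} (hc : Cnd x1 x2 x3) :
    v82 x1 x2 x3 = v197 x1 x2 x3 + x3 * v198 x1 x2 x3 := sadd (sa_40 hc) (sa_81 hc)

theorem sa_70 {x1 x2 x3 : ℝ} (hc : Cnd x1 x2 x3) :
    v70 x1 x2 x3 = v199 x1 x2 x3 + x3 * v118 x1 x2 x3 := saddl (sa_55 hc)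

theorem sa_71 {x1 x2 x3 : ℝ} (hc : Cnd x1 x2 x3) :
    v71 x1 x2 x3 = v200 x1 x2 x3 + x3 * v134 x1 x2 x3 := sadd (sa_70 hc) (sa_9 hc)

theorem sa_72 {x1 x2 x3 : ℝ} (hc : Cnd x1 x2 x3) :
    v72 x1 x2 x3 = v201 x1 x2 x3 + x3 * v151 x1 x2 x3 := ssub (sa_71 hc) (sa_44 hc)

theorem sa_73 {x1 x2 x3 : ℝ} (hc : Cnd x1 x2 x3) :
    v73 x1 x2 x3 = v202 x1 x2 x3 + x3 * v157 x1 x2 x3 := saddl (sa_16 hc)

theorem sa_74 {x1 x2 x3 : ℝ} (hc : Cnd x1 x2 x3) :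
    v74 x1 x2 x3 = v203 x1 x2 x3 + x3 * v180 x1 x2 x3 := ssub (sa_73 hc) (sa_54 hc)

theorem sa_75 {x1 x2 x3 : ℝ} (hc : Cnd x1 x2 x3) :
    v75 x1 x2 x3 = v204 x1 x2 x3 + x3 * v205 x1 x2 x3 := ssubr (sa_28 hc)

theorem sa_76 {x1 x2 x3 : ℝ} (hc : Cnd x1 x2 x3) :
    v76 x1 x2 x3 = v206 x1 x2 x3 + x3 * v208 x1 x2 x3 := ssq (sa_75 hc)

theorem sa_77 {x1 x2 x3 : ℝ} (hc : Cnd x1 x2 x3) :
    v77 x1 x2 x3 = v209 x1 x2 x3 + x3 * v210 x1 x2 x3 := ssubr (sa_76 hc)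

theorem sa_78 {x1 x2 x3 : ℝ} (hc : Cnd x1 x2 x3) :
    v78 x1 x2 x3 = v211 x1 x2 x3 + x3 * v214 x1 x2 x3 := ssqrt (sa_77 hc) hc.2.2.2.2.2.2.2.2.2.2.2.2.1 hc.2.2.2.2.2.2.2.2.2.2.2.2.2

theorem sa_79 {x1 x2 x3 : ℝ} (hc : Cnd x1 x2 x3) :
    v79 x1 x2 x3 = v215 x1 x2 x3 + x3 * v216 x1 x2 x3 := ssub (sa_74 hc) (sa_78 hc)

theorem sa_83 {x1 x2 x3 : ℝ} (hc : Cnd x1 x2 x3) :
    v83 x1 x2 x3 = v217 x1 x2 x3 + x3 * v218 x1 x2 x3 := sadd (sa_72 hc) (sa_79 hc)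

theorem sa_84 {x1 x2 x3 : ℝ} (hc : Cnd x1 x2 x3) :
    v84 x1 x2 x3 = v219 x1 x2 x3 + x3 * v220 x1 x2 x3 := smulr (sa_83 hc)

theorem sa_85 {x1 x2 x3 : ℝ} (hc : Cnd x1 x2 x3) :
    v85 x1 x2 x3 = v221 x1 x2 x3 + x3 * v222 x1 x2 x3 := sadd (sa_82 hc) (sa_84 hc)

section

variable (s x w : ℝ)

theorem w0 : v0 s x w = (2 * h0) := by unfold v0 h0; push_cast; ring

theorem w1 : v1 s x w = h0 := by unfold v1; rw [w0]; unfold h0; push_cast; ring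

theorem w2 : v2 s x w = s := rfl

theorem w3 : v3 s x w = x := rfl

theorem w4 : v4 s x w = w := rfl

theorem w5 : v5 s x w = (h0 - w) := by rw [v5, w1, w4]

theorem w6 : v6 s x w = ((h0 - w) ^ 2) := by rw [v6, w5]

theorem w7 : v7 s x w = 1 := by unfold v7; norm_num

theorem w8 : v8 s x w = (1 - ((h0 - w) ^ 2)) := by rw [v8, w7, w6]

theorem w9 : v9 s x w = (g (h0 - w)) := by unfold v9; rw [w8]; rfl

theorem w10 : v10 s x w = (h0 * (g (h0 - w))) := by rw [v10, w1, w9]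

theorem w11 : v11 s x w = (1 / 2 * (h0 - w)) := by simp only [v11, w5, Nat.cast_ofNat, Nat.cast_one]

theorem w13 : v13 s x w = (ext (h0 - w)) := by rw [v13, w11, w10]; unfold ext; ring

theorem w14 : v14 s x w = (1 / 2 * (g (h0 - w))) := by simp only [v14, w9, Nat.cast_ofNat, Nat.cast_one]

theorem w15 : v15 s x w = (h0 * (h0 - w)) := by rw [v15, w1, w5]

theorem w16 : v16 s x w = ((1 / 2 * (g (h0 - w))) + (h0 * (h0 - w))) := by rw [v16, w14, w15]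

theorem w18 : v18 s x w = (x * w) := by rw [v18, w3, w4]

theorem w19 : v19 s x w = (s + (x * w)) := by rw [v19, w2, w18]

theorem w20 : v20 s x w = (s ^ 2) := by rw [v20, w2]

theorem w21 : v21 s x w = (1 - (s ^ 2)) := by rw [v21, w7, w20]

theorem w22 : v22 s x w = (g s) := by unfold v22; rw [w21]; rfl

theorem w23 : v23 s x w = (17 / 50 * s) := by simp only [v23, w2, Nat.cast_ofNat, Nat.cast_one]

theorem w24 : v24 s x w = ((17 / 50 * s) ^ 2) := by rw [v24, w23]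

theorem w25 : v25 s x w = (1 - ((17 / 50 * s) ^ 2)) := by rw [v25, w7, w24]

theorem w26 : v26 s x w = (g (17 / 50 * s)) := by unfold v26; rw [w25]; rfl

theorem w27 : v27 s x w = ((s + (x * w)) + (ext (h0 - w))) := by rw [v27, w19, w13]

theorem w28 : v28 s x w = ((s + (x * w)) + (h0 - w)) := by rw [v28, w19, w5]

theorem w30 : v30 s x w = (33 / 50 * s) := by simp only [v30, w2, Nat.cast_ofNat, Nat.cast_one]

theorem w31 : v31 s x w = (h0 + (33 / 50 * s)) := by rw [v31, w1, w30]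

theorem w32 : v32 s x w = (h0 + s) := by rw [v32, w1, w2]

theorem w33 : v33 s x w = ((s + (x * w)) ^ 2) := by rw [v33, w19]

theorem w34 : v34 s x w = (1 - ((s + (x * w)) ^ 2)) := by rw [v34, w7, w33]

theorem w35 : v35 s x w = (g (s + (x * w))) := by unfold v35; rw [w34]; rfl

theorem w36 : v36 s x w = (8 * (g (s + (x * w)))) := by simp only [v36, w35, Nat.cast_ofNat, Nat.cast_one]

theorem w37 : v37 s x w = 4 := by unfold v37; norm_num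

theorem w38 : v38 s x w = ((8 * (g (s + (x * w)))) - 4) := by rw [v38, w36, w37]

theorem w39 : v39 s x w = (4 * (g s)) := by simp only [v39, w22, Nat.cast_ofNat, Nat.cast_one]

theorem w40 : v40 s x w = (((8 * (g (s + (x * w)))) - 4) - (4 * (g s))) := by rw [v40, w38, w39]

theorem w41 : v41 s x w = (((s + (x * w)) + (h0 - w)) - h0) := by rw [v41, w28, w1]

theorem w42 : v42 s x w = ((((s + (x * w)) + (h0 - w)) - h0) ^ 2) := by rw [v42, w41]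

theorem w43 : v43 s x w = (1 - ((((s + (x * w)) + (h0 - w)) - h0) ^ 2)) := by rw [v43, w7, w42]

theorem w44 : v44 s x w = (g (((s + (x * w)) + (h0 - w)) - h0)) := by unfold v44; rw [w43]; rfl

theorem w45 : v45 s x w = ((g (((s + (x * w)) + (h0 - w)) - h0)) + 1) := by rw [v45, w44, w7]

theorem w46 : v46 s x w = (((g (((s + (x * w)) + (h0 - w)) - h0)) + 1) - (g (17 / 50 * s))) := by rw [v46, w45, w26]

theorem w47 : v47 s x w = ((h0 + s) - (s + (x * w))) := by rw [v47, w32, w19]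

theorem w48 : v48 s x w = (((h0 + s) - (s + (x * w))) ^ 2) := by rw [v48, w47]

theorem w49 : v49 s x w = (1 - (((h0 + s) - (s + (x * w))) ^ 2)) := by rw [v49, w7, w48]

theorem w50 : v50 s x w = (g ((h0 + s) - (s + (x * w)))) := by unfold v50; rw [w49]; rfl

theorem w51 : v51 s x w = (((s + (x * w)) + (ext (h0 - w))) - h0) := by rw [v51, w27, w1]

theorem w52 : v52 s x w = ((((s + (x * w)) + (ext (h0 - w))) - h0) ^ 2) := by rw [v52, w51]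

theorem w53 : v53 s x w = (1 - ((((s + (x * w)) + (ext (h0 - w))) - h0) ^ 2)) := by rw [v53, w7, w52]

theorem w54 : v54 s x w = (g (((s + (x * w)) + (ext (h0 - w))) - h0)) := by unfold v54; rw [w53]; rfl

theorem w55 : v55 s x w = ((g ((h0 + s) - (s + (x * w)))) - (g s)) := by rw [v55, w50, w22]

theorem w56 : v56 s x w = (((g ((h0 + s) - (s + (x * w)))) - (g s)) - 1) := by rw [v56, w55, w7]

theorem w57 : v57 s x w = ((((g ((h0 + s) - (s + (x * w)))) - (g s)) - 1) + (g (17 / 50 * s))) := by rw [v57, w56, w26]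

theorem w58 : v58 s x w = (((((g ((h0 + s) - (s + (x * w)))) - (g s)) - 1) + (g (17 / 50 * s))) + (g (h0 - w))) := by rw [v58, w57, w9]

theorem w59 : v59 s x w = ((((((g ((h0 + s) - (s + (x * w)))) - (g s)) - 1) + (g (17 / 50 * s))) + (g (h0 - w))) + 1) := by rw [v59, w58, w7]

theorem w60 : v60 s x w = (((((((g ((h0 + s) - (s + (x * w)))) - (g s)) - 1) + (g (17 / 50 * s))) + (g (h0 - w))) + 1) - (((g (((s + (x * w)) + (h0 - w)) - h0)) + 1) - (g (17 / 50 * s)))) := by rw [v60, w59, w46]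

theorem w61 : v61 s x w = ((g (((s + (x * w)) + (ext (h0 - w))) - h0)) + (g (17 / 50 * s))) := by rw [v61, w54, w26]

theorem w62 : v62 s x w = (((g (((s + (x * w)) + (ext (h0 - w))) - h0)) + (g (17 / 50 * s))) - (g s)) := by rw [v62, w61, w22]

theorem w63 : v63 s x w = (((s + (x * w)) + (h0 - w)) - (h0 + (33 / 50 * s))) := by rw [v63, w28, w31]

theorem w64 : v64 s x w = ((((s + (x * w)) + (h0 - w)) - (h0 + (33 / 50 * s))) ^ 2) := by rw [v64, w63]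

theorem w65 : v65 s x w = (1 - ((((s + (x * w)) + (h0 - w)) - (h0 + (33 / 50 * s))) ^ 2)) := by rw [v65, w7, w64]

theorem w66 : v66 s x w = (g (((s + (x * w)) + (h0 - w)) - (h0 + (33 / 50 * s)))) := by unfold v66; rw [w65]; rfl

theorem w67 : v67 s x w = (((1 / 2 * (g (h0 - w))) + (h0 * (h0 - w))) + 1) := by rw [v67, w16, w7]

theorem w68 : v68 s x w = ((((1 / 2 * (g (h0 - w))) + (h0 * (h0 - w))) + 1) - (((g (((s + (x * w)) + (ext (h0 - w))) - h0)) + (g (17 / 50 * s))) - (g s))) := by rw [v68, w67, w62]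

theorem w69 : v69 s x w = (((((1 / 2 * (g (h0 - w))) + (h0 * (h0 - w))) + 1) - (((g (((s + (x * w)) + (ext (h0 - w))) - h0)) + (g (17 / 50 * s))) - (g s))) - (g (((s + (x * w)) + (h0 - w)) - (h0 + (33 / 50 * s))))) := by rw [v69, w68, w66]

theorem w70 : v70 s x w = (((g ((h0 + s) - (s + (x * w)))) - (g s)) + 1) := by rw [v70, w55, w7]

theorem w71 : v71 s x w = ((((g ((h0 + s) - (s + (x * w)))) - (g s)) + 1) + (g (h0 - w))) := by rw [v71, w70, w9]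

theorem w72 : v72 s x w = (((((g ((h0 + s) - (s + (x * w)))) - (g s)) + 1) + (g (h0 - w))) - (g (((s + (x * w)) + (h0 - w)) - h0))) := by rw [v72, w71, w44]

theorem w73 : v73 s x w = (((1 / 2 * (g (h0 - w))) + (h0 * (h0 - w))) + (g s)) := by rw [v73, w16, w22]

theorem w74 : v74 s x w = ((((1 / 2 * (g (h0 - w))) + (h0 * (h0 - w))) + (g s)) - (g (((s + (x * w)) + (ext (h0 - w))) - h0))) := by rw [v74, w73, w54]

theorem w75 : v75 s x w = ((h0 + s) - ((s + (x * w)) + (h0 - w))) := by rw [v75, w32, w28]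

theorem w76 : v76 s x w = (((h0 + s) - ((s + (x * w)) + (h0 - w))) ^ 2) := by rw [v76, w75]

theorem w77 : v77 s x w = (1 - (((h0 + s) - ((s + (x * w)) + (h0 - w))) ^ 2)) := by rw [v77, w7, w76]

theorem w78 : v78 s x w = (g ((h0 + s) - ((s + (x * w)) + (h0 - w)))) := by unfold v78; rw [w77]; rfl

theorem w79 : v79 s x w = (((((1 / 2 * (g (h0 - w))) + (h0 * (h0 - w))) + (g s)) - (g (((s + (x * w)) + (ext (h0 - w))) - h0))) - (g ((h0 + s) - ((s + (x * w)) + (h0 - w))))) := by rw [v79, w74, w78]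

theorem w80 : v80 s x w = ((((((((g ((h0 + s) - (s + (x * w)))) - (g s)) - 1) + (g (17 / 50 * s))) + (g (h0 - w))) + 1) - (((g (((s + (x * w)) + (h0 - w)) - h0)) + 1) - (g (17 / 50 * s)))) + (((((1 / 2 * (g (h0 - w))) + (h0 * (h0 - w))) + 1) - (((g (((s + (x * w)) + (ext (h0 - w))) - h0)) + (g (17 / 50 * s))) - (g s))) - (g (((s + (x * w)) + (h0 - w)) - (h0 + (33 / 50 * s)))))) := by rw [v80, w60, w69]

theorem w81 : v81 s x w = (9 / 5 * ((((((((g ((h0 + s) - (s + (x * w)))) - (g s)) - 1) + (g (17 / 50 * s))) + (g (h0 - w))) + 1) - (((g (((s + (x * w)) + (h0 - w)) - h0)) + 1) - (g (17 / 50 * s)))) + (((((1 / 2 * (g (h0 - w))) + (h0 * (h0 - w))) + 1) - (((g (((s + (x * w)) + (ext (h0 - w))) - h0)) + (g (17 / 50 * s))) - (g s))) - (g (((s + (x * w)) + (h0 - w)) - (h0 + (33 / 50 * s))))))) := by simp only [v81, w80, Nat.cast_ofNat, Nat.cast_one]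

theorem w82 : v82 s x w = ((((8 * (g (s + (x * w)))) - 4) - (4 * (g s))) + (9 / 5 * ((((((((g ((h0 + s) - (s + (x * w)))) - (g s)) - 1) + (g (17 / 50 * s))) + (g (h0 - w))) + 1) - (((g (((s + (x * w)) + (h0 - w)) - h0)) + 1) - (g (17 / 50 * s)))) + (((((1 / 2 * (g (h0 - w))) + (h0 * (h0 - w))) + 1) - (((g (((s + (x * w)) + (ext (h0 - w))) - h0)) + (g (17 / 50 * s))) - (g s))) - (g (((s + (x * w)) + (h0 - w)) - (h0 + (33 / 50 * s)))))))) := by rw [v82, w40, w81]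

theorem w83 : v83 s x w = ((((((g ((h0 + s) - (s + (x * w)))) - (g s)) + 1) + (g (h0 - w))) - (g (((s + (x * w)) + (h0 - w)) - h0))) + (((((1 / 2 * (g (h0 - w))) + (h0 * (h0 - w))) + (g s)) - (g (((s + (x * w)) + (ext (h0 - w))) - h0))) - (g ((h0 + s) - ((s + (x * w)) + (h0 - w)))))) := by rw [v83, w72, w79]

theorem w84 : v84 s x w = (1 / 5 * ((((((g ((h0 + s) - (s + (x * w)))) - (g s)) + 1) + (g (h0 - w))) - (g (((s + (x * w)) + (h0 - w)) - h0))) + (((((1 / 2 * (g (h0 - w))) + (h0 * (h0 - w))) + (g s)) - (g (((s + (x * w)) + (ext (h0 - w))) - h0))) - (g ((h0 + s) - ((s + (x * w)) + (h0 - w))))))) := by simp only [v84, w83, Nat.cast_ofNat, Nat.cast_one]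

theorem w85 : v85 s x w = (((((8 * (g (s + (x * w)))) - 4) - (4 * (g s))) + (9 / 5 * ((((((((g ((h0 + s) - (s + (x * w)))) - (g s)) - 1) + (g (17 / 50 * s))) + (g (h0 - w))) + 1) - (((g (((s + (x * w)) + (h0 - w)) - h0)) + 1) - (g (17 / 50 * s)))) + (((((1 / 2 * (g (h0 - w))) + (h0 * (h0 - w))) + 1) - (((g (((s + (x * w)) + (ext (h0 - w))) - h0)) + (g (17 / 50 * s))) - (g s))) - (g (((s + (x * w)) + (h0 - w)) - (h0 + (33 / 50 * s)))))))) + (1 / 5 * ((((((g ((h0 + s) - (s + (x * w)))) - (g s)) + 1) + (g (h0 - w))) - (g (((s + (x * w)) + (h0 - w)) - h0))) + (((((1 / 2 * (g (h0 - w))) + (h0 * (h0 - w))) + (g s)) - (g (((s + (x * w)) + (ext (h0 - w))) - h0))) - (g ((h0 + s) - ((s + (x * w)) + (h0 - w)))))))) := by rw [v85, w82, w84]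

theorem w91 : v91 s x w = 0 := by unfold v91; norm_num

theorem w92 : v92 s x w = (x * 0) := by rw [v92, w3, w91]

theorem w94 : v94 s x w = (s + (x * 0)) := by rw [v94, w2, w92]

theorem w95 : v95 s x w = ((s + (x * 0)) ^ 2) := by rw [v95, w94]

theorem w98 : v98 s x w = (1 - ((s + (x * 0)) ^ 2)) := by rw [v98, w7, w95]

theorem w100 : v100 s x w = (g (s + (x * 0))) := by unfold v100; rw [w98]; rfl

theorem w104 : v104 s x w = (8 * (g (s + (x * 0)))) := by simp only [v104, w100, Nat.cast_ofNat, Nat.cast_one]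

theorem w106 : v106 s x w = ((8 * (g (s + (x * 0)))) - 4) := by rw [v106, w104, w37]

theorem w107 : v107 s x w = (((8 * (g (s + (x * 0)))) - 4) - (4 * (g s))) := by rw [v107, w106, w39]

theorem w108 : v108 s x w = ((h0 + s) - (s + (x * 0))) := by rw [v108, w32, w94]

theorem w110 : v110 s x w = (((h0 + s) - (s + (x * 0))) ^ 2) := by rw [v110, w108]

theorem w113 : v113 s x w = (1 - (((h0 + s) - (s + (x * 0))) ^ 2)) := by rw [v113, w7, w110]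

theorem w115 : v115 s x w = (g ((h0 + s) - (s + (x * 0)))) := by unfold v115; rw [w113]; rfl

theorem w119 : v119 s x w = ((g ((h0 + s) - (s + (x * 0)))) - (g s)) := by rw [v119, w115, w22]

theorem w120 : v120 s x w = (((g ((h0 + s) - (s + (x * 0)))) - (g s)) - 1) := by rw [v120, w119, w7]

theorem w121 : v121 s x w = ((((g ((h0 + s) - (s + (x * 0)))) - (g s)) - 1) + (g (17 / 50 * s))) := by rw [v121, w120, w26]

theorem w122 : v122 s x w = (h0 - 0) := by rw [v122, w1, w91]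

theorem w124 : v124 s x w = ((h0 - 0) ^ 2) := by rw [v124, w122]

theorem w127 : v127 s x w = (1 - ((h0 - 0) ^ 2)) := by rw [v127, w7, w124]

theorem w129 : v129 s x w = (g (h0 - 0)) := by unfold v129; rw [w127]; rfl

theorem w133 : v133 s x w = (((((g ((h0 + s) - (s + (x * 0)))) - (g s)) - 1) + (g (17 / 50 * s))) + (g (h0 - 0))) := by rw [v133, w121, w129]

theorem w135 : v135 s x w = ((((((g ((h0 + s) - (s + (x * 0)))) - (g s)) - 1) + (g (17 / 50 * s))) + (g (h0 - 0))) + 1) := by rw [v135, w133, w7]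

theorem w136 : v136 s x w = ((s + (x * 0)) + (h0 - 0)) := by rw [v136, w94, w122]

theorem w138 : v138 s x w = (((s + (x * 0)) + (h0 - 0)) - h0) := by rw [v138, w136, w1]

theorem w139 : v139 s x w = ((((s + (x * 0)) + (h0 - 0)) - h0) ^ 2) := by rw [v139, w138]

theorem w142 : v142 s x w = (1 - ((((s + (x * 0)) + (h0 - 0)) - h0) ^ 2)) := by rw [v142, w7, w139]

theorem w144 : v144 s x w = (g (((s + (x * 0)) + (h0 - 0)) - h0)) := by unfold v144; rw [w142]; rfl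

theorem w148 : v148 s x w = ((g (((s + (x * 0)) + (h0 - 0)) - h0)) + 1) := by rw [v148, w144, w7]

theorem w149 : v149 s x w = (((g (((s + (x * 0)) + (h0 - 0)) - h0)) + 1) - (g (17 / 50 * s))) := by rw [v149, w148, w26]

theorem w150 : v150 s x w = (((((((g ((h0 + s) - (s + (x * 0)))) - (g s)) - 1) + (g (17 / 50 * s))) + (g (h0 - 0))) + 1) - (((g (((s + (x * 0)) + (h0 - 0)) - h0)) + 1) - (g (17 / 50 * s)))) := by rw [v150, w135, w149]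

theorem w152 : v152 s x w = (1 / 2 * (g (h0 - 0))) := by simp only [v152, w129, Nat.cast_ofNat, Nat.cast_one]

theorem w154 : v154 s x w = (h0 * (h0 - 0)) := by rw [v154, w1, w122]

theorem w156 : v156 s x w = ((1 / 2 * (g (h0 - 0))) + (h0 * (h0 - 0))) := by rw [v156, w152, w154]

theorem w158 : v158 s x w = (((1 / 2 * (g (h0 - 0))) + (h0 * (h0 - 0))) + 1) := by rw [v158, w156, w7]

theorem w159 : v159 s x w = (1 / 2 * (h0 - 0)) := by simp only [v159, w122, Nat.cast_ofNat, Nat.cast_one]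

theorem w161 : v161 s x w = (h0 * (g (h0 - 0))) := by rw [v161, w1, w129]

theorem w163 : v163 s x w = ((1 / 2 * (h0 - 0)) + (h0 * (g (h0 - 0)))) := by rw [v163, w159, w161]

theorem w165 : v165 s x w = ((s + (x * 0)) + ((1 / 2 * (h0 - 0)) + (h0 * (g (h0 - 0))))) := by rw [v165, w94, w163]

theorem w167 : v167 s x w = (((s + (x * 0)) + ((1 / 2 * (h0 - 0)) + (h0 * (g (h0 - 0))))) - h0) := by rw [v167, w165, w1]

theorem w168 : v168 s x w = ((((s + (x * 0)) + ((1 / 2 * (h0 - 0)) + (h0 * (g (h0 - 0))))) - h0) ^ 2) := by rw [v168, w167]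

theorem w171 : v171 s x w = (1 - ((((s + (x * 0)) + ((1 / 2 * (h0 - 0)) + (h0 * (g (h0 - 0))))) - h0) ^ 2)) := by rw [v171, w7, w168]

theorem w173 : v173 s x w = (g (((s + (x * 0)) + ((1 / 2 * (h0 - 0)) + (h0 * (g (h0 - 0))))) - h0)) := by unfold v173; rw [w171]; rfl

theorem w177 : v177 s x w = ((g (((s + (x * 0)) + ((1 / 2 * (h0 - 0)) + (h0 * (g (h0 - 0))))) - h0)) + (g (17 / 50 * s))) := by rw [v177, w173, w26]

theorem w178 : v178 s x w = (((g (((s + (x * 0)) + ((1 / 2 * (h0 - 0)) + (h0 * (g (h0 - 0))))) - h0)) + (g (17 / 50 * s))) - (g s)) := by rw [v178, w177, w22]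

theorem w179 : v179 s x w = ((((1 / 2 * (g (h0 - 0))) + (h0 * (h0 - 0))) + 1) - (((g (((s + (x * 0)) + ((1 / 2 * (h0 - 0)) + (h0 * (g (h0 - 0))))) - h0)) + (g (17 / 50 * s))) - (g s))) := by rw [v179, w158, w178]

theorem w181 : v181 s x w = (((s + (x * 0)) + (h0 - 0)) - (h0 + (33 / 50 * s))) := by rw [v181, w136, w31]

theorem w182 : v182 s x w = ((((s + (x * 0)) + (h0 - 0)) - (h0 + (33 / 50 * s))) ^ 2) := by rw [v182, w181]

theorem w185 : v185 s x w = (1 - ((((s + (x * 0)) + (h0 - 0)) - (h0 + (33 / 50 * s))) ^ 2)) := by rw [v185, w7, w182]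

theorem w187 : v187 s x w = (g (((s + (x * 0)) + (h0 - 0)) - (h0 + (33 / 50 * s)))) := by unfold v187; rw [w185]; rfl

theorem w191 : v191 s x w = (((((1 / 2 * (g (h0 - 0))) + (h0 * (h0 - 0))) + 1) - (((g (((s + (x * 0)) + ((1 / 2 * (h0 - 0)) + (h0 * (g (h0 - 0))))) - h0)) + (g (17 / 50 * s))) - (g s))) - (g (((s + (x * 0)) + (h0 - 0)) - (h0 + (33 / 50 * s))))) := by rw [v191, w179, w187]

theorem w193 : v193 s x w = ((((((((g ((h0 + s) - (s + (x * 0)))) - (g s)) - 1) + (g (17 / 50 * s))) + (g (h0 - 0))) + 1) - (((g (((s + (x * 0)) + (h0 - 0)) - h0)) + 1) - (g (17 / 50 * s)))) + (((((1 / 2 * (g (h0 - 0))) + (h0 * (h0 - 0))) + 1) - (((g (((s + (x * 0)) + ((1 / 2 * (h0 - 0)) + (h0 * (g (h0 - 0))))) - h0)) + (g (17 / 50 * s))) - (g s))) - (g (((s + (x * 0)) + (h0 - 0)) - (h0 + (33 / 50 * s)))))) := by rw [v193, w150, w191]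

theorem w195 : v195 s x w = (9 / 5 * ((((((((g ((h0 + s) - (s + (x * 0)))) - (g s)) - 1) + (g (17 / 50 * s))) + (g (h0 - 0))) + 1) - (((g (((s + (x * 0)) + (h0 - 0)) - h0)) + 1) - (g (17 / 50 * s)))) + (((((1 / 2 * (g (h0 - 0))) + (h0 * (h0 - 0))) + 1) - (((g (((s + (x * 0)) + ((1 / 2 * (h0 - 0)) + (h0 * (g (h0 - 0))))) - h0)) + (g (17 / 50 * s))) - (g s))) - (g (((s + (x * 0)) + (h0 - 0)) - (h0 + (33 / 50 * s))))))) := by simp only [v195, w193, Nat.cast_ofNat, Nat.cast_one]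

theorem w197 : v197 s x w = ((((8 * (g (s + (x * 0)))) - 4) - (4 * (g s))) + (9 / 5 * ((((((((g ((h0 + s) - (s + (x * 0)))) - (g s)) - 1) + (g (17 / 50 * s))) + (g (h0 - 0))) + 1) - (((g (((s + (x * 0)) + (h0 - 0)) - h0)) + 1) - (g (17 / 50 * s)))) + (((((1 / 2 * (g (h0 - 0))) + (h0 * (h0 - 0))) + 1) - (((g (((s + (x * 0)) + ((1 / 2 * (h0 - 0)) + (h0 * (g (h0 - 0))))) - h0)) + (g (17 / 50 * s))) - (g s))) - (g (((s + (x * 0)) + (h0 - 0)) - (h0 + (33 / 50 * s)))))))) := by rw [v197, w107, w195]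

theorem w199 : v199 s x w = (((g ((h0 + s) - (s + (x * 0)))) - (g s)) + 1) := by rw [v199, w119, w7]

theorem w200 : v200 s x w = ((((g ((h0 + s) - (s + (x * 0)))) - (g s)) + 1) + (g (h0 - 0))) := by rw [v200, w199, w129]

theorem w201 : v201 s x w = (((((g ((h0 + s) - (s + (x * 0)))) - (g s)) + 1) + (g (h0 - 0))) - (g (((s + (x * 0)) + (h0 - 0)) - h0))) := by rw [v201, w200, w144]

theorem w202 : v202 s x w = (((1 / 2 * (g (h0 - 0))) + (h0 * (h0 - 0))) + (g s)) := by rw [v202, w156, w22]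

theorem w203 : v203 s x w = ((((1 / 2 * (g (h0 - 0))) + (h0 * (h0 - 0))) + (g s)) - (g (((s + (x * 0)) + ((1 / 2 * (h0 - 0)) + (h0 * (g (h0 - 0))))) - h0))) := by rw [v203, w202, w173]

theorem w204 : v204 s x w = ((h0 + s) - ((s + (x * 0)) + (h0 - 0))) := by rw [v204, w32, w136]

theorem w206 : v206 s x w = (((h0 + s) - ((s + (x * 0)) + (h0 - 0))) ^ 2) := by rw [v206, w204]

theorem w209 : v209 s x w = (1 - (((h0 + s) - ((s + (x * 0)) + (h0 - 0))) ^ 2)) := by rw [v209, w7, w206]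

theorem w211 : v211 s x w = (g ((h0 + s) - ((s + (x * 0)) + (h0 - 0)))) := by unfold v211; rw [w209]; rfl

theorem w215 : v215 s x w = (((((1 / 2 * (g (h0 - 0))) + (h0 * (h0 - 0))) + (g s)) - (g (((s + (x * 0)) + ((1 / 2 * (h0 - 0)) + (h0 * (g (h0 - 0))))) - h0))) - (g ((h0 + s) - ((s + (x * 0)) + (h0 - 0))))) := by rw [v215, w203, w211]

theorem w217 : v217 s x w = ((((((g ((h0 + s) - (s + (x * 0)))) - (g s)) + 1) + (g (h0 - 0))) - (g (((s + (x * 0)) + (h0 - 0)) - h0))) + (((((1 / 2 * (g (h0 - 0))) + (h0 * (h0 - 0))) + (g s)) - (g (((s + (x * 0)) + ((1 / 2 * (h0 - 0)) + (h0 * (g (h0 - 0))))) - h0))) - (g ((h0 + s) - ((s + (x * 0)) + (h0 - 0)))))) := by rw [v217, w201, w215]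

theorem w219 : v219 s x w = (1 / 5 * ((((((g ((h0 + s) - (s + (x * 0)))) - (g s)) + 1) + (g (h0 - 0))) - (g (((s + (x * 0)) + (h0 - 0)) - h0))) + (((((1 / 2 * (g (h0 - 0))) + (h0 * (h0 - 0))) + (g s)) - (g (((s + (x * 0)) + ((1 / 2 * (h0 - 0)) + (h0 * (g (h0 - 0))))) - h0))) - (g ((h0 + s) - ((s + (x * 0)) + (h0 - 0))))))) := by simp only [v219, w217, Nat.cast_ofNat, Nat.cast_one]

theorem w221 : v221 s x w = (((((8 * (g (s + (x * 0)))) - 4) - (4 * (g s))) + (9 / 5 * ((((((((g ((h0 + s) - (s + (x * 0)))) - (g s)) - 1) + (g (17 / 50 * s))) + (g (h0 - 0))) + 1) - (((g (((s + (x * 0)) + (h0 - 0)) - h0)) + 1) - (g (17 / 50 * s)))) + (((((1 / 2 * (g (h0 - 0))) + (h0 * (h0 - 0))) + 1) - (((g (((s + (x * 0)) + ((1 / 2 * (h0 - 0)) + (h0 * (g (h0 - 0))))) - h0)) + (g (17 / 50 * s))) - (g s))) - (g (((s + (x * 0)) + (h0 - 0)) - (h0 + (33 / 50 * s)))))))) + (1 / 5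 * ((((((g ((h0 + s) - (s + (x * 0)))) - (g s)) + 1) + (g (h0 - 0))) - (g (((s + (x * 0)) + (h0 - 0)) - h0))) + (((((1 / 2 * (g (h0 - 0))) + (h0 * (h0 - 0))) + (g s)) - (g (((s + (x * 0)) + ((1 / 2 * (h0 - 0)) + (h0 * (g (h0 - 0))))) - h0))) - (g ((h0 + s) - ((s + (x * 0)) + (h0 - 0)))))))) := by rw [v221, w197, w219]

end

theorem f00 {s x w : ℝ} (hl1 : 66 / 125 ≤ s) (hu1 : s ≤ 57 / 100) (hl2 : 0 ≤ x) (hu2 : x ≤ 1) (hl3 : 0 ≤ w) (hu3 : w ≤ 1 / 50) (hp1 : 0 ≤ w) : 0 ≤ v221 s x w := by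
  rw [w221]
  simp only [add_zero, sub_zero, mul_zero, zero_mul, zero_add, gh0, qh0, Gh0, sub_self, add_sub_cancel_right, add_sub_cancel_left, g_zero]
  apply le_of_eq
  first
    | (ring_nf; done)
    | (ring_nf; rw [g_zero]; ring)

theorem c_ok : chk f 60 ⟨589484261, 0, 22548579, 536870912, 0, 536870912, 10737418, 0, 10737419⟩ = true := by decide +kernel

theorem main {s x w : ℝ} (hl1 : 66 / 125 ≤ s) (hu1 : s ≤ 57 / 100) (hl2 : 0 ≤ x) (hu2 : x ≤ 1) (hl3 : 0 ≤ w) (hu3 : w ≤ 1 / 50) (hp1 : 0 ≤ w) :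
    0 ≤ (((((8 * (g (s + (x * w)))) - 4) - (4 * (g s))) + (9 / 5 * ((((((((g ((h0 + s) - (s + (x * w)))) - (g s)) - 1) + (g (17 / 50 * s))) + (g (h0 - w))) + 1) - (((g (((s + (x * w)) + (h0 - w)) - h0)) + 1) - (g (17 / 50 * s)))) + (((((1 / 2 * (g (h0 - w))) + (h0 * (h0 - w))) + 1) - (((g (((s + (x * w)) + (ext (h0 - w))) - h0)) + (g (17 / 50 * s))) - (g s))) - (g (((s + (x * w)) + (h0 - w)) - (h0 + (33 / 50 * s)))))))) + (1 / 5 * ((((((g ((h0 + s) - (s + (x * w)))) - (g s)) + 1) + (g (h0 - w))) - (g (((s + (x * w)) + (h0 - w)) - h0))) + (((((1 / 2 * (g (h0 - w))) + (h0 * (h0 - w))) + (g s)) - (g (((s + (x * w)) + (ext (h0 - w))) - h0))) - (g ((h0 + s) - ((s + (x * w)) + (h0 - w)))))))) := by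
  have hm : Mem S ⟨589484261, 0, 22548579, 536870912, 0, 536870912, 10737418, 0, 10737419⟩ s x w := by
    refine ⟨?_, ?_, ?_⟩ <;> norm_num only [S] <;> rw [abs_le] <;> constructor <;> linarith
  have h := chk_sound f_sound 60 _ c_ok s x w hm
  unfold Q at h
  obtain ⟨q1, hc⟩ := h
  rw [← w85]
  have e0 := f00 hl1 hu1 hl2 hu2 hl3 hu3 hp1
  rw [sa_85 hc]
  have m1 := mul_nonneg hp1 q1.le
  linarith
end Pool.Agent.Strip051.FourE.TUbb
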