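import Pool.Agent.Strip051.FourE.Zone
import Pool.Agent.Strip051.FourE.MLaa
import Pool.Agent.Strip051.FourE.MLab
import Pool.Agent.Strip051.FourE.MLba
import Pool.Agent.Strip051.FourE.MLbb
import Pool.Agent.Strip051.FourE.MUab
import Pool.Agent.Strip051.FourE.MUac
import Pool.Agent.Strip051.FourE.MUbb
import Pool.Agent.Strip051.FourE.MUbc
import Pool.Agent.Strip051.FourE.MUcb
import Pool.Agent.Strip051.FourE.MUcc
import Pool.Agent.Strip051.FourE.TLba
import Pool.Agent.Strip051.FourE.TLbb
import Pool.Agent.Strip051.FourE.TUbb
import Pool.Agent.Strip051.FourE.TUcb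
import Pool.Agent.Strip051.FourE.NUcb
import Pool.Agent.Strip051.FourE.NUcc
import Pool.Agent.Strip051.FourE.NUbc
import Pool.Agent.Strip051.FourE.NUbcD

/-! # The row of a real side, the new point between `1 / 2` and `h0` -/

namespace Pool.Agent.Strip051.FourE

open Pool.Agent.StripNear Pool.Agent.StripSquare Pool.Agent.Strip051

variable {s t r q p u y : ℝ} (P : Par s t) (hs : Side p q r)

include P hs

/-- Below `s`, the lower height not above `17 / 20`. -/
theorem mid1 (y0 : 1 / 2 ≤ y) (y1 : y ≤ s) (p1 : p ≤ 17 / 20) :
    0 ≤ 8 * g y - 4 - 4 * g s + mg s (gam r u) y := by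
  have hh := h0_lt
  have hg := h0_gt
  have s0 := P.s0
  have s1 := P.s1
  have p0 := hs.p0
  have q1 := hs.q1
  have e1 := hs.sum
  have e2 := hs.gq
  rcases le_total (y + p) (h0 + 33 / 50 * s) with hM | hM
  · rcases le_total (y + q) (h0 + s) with hE | hE
    · have z := zlaa P hs (u := u) (y := y) (by linear_combination y0) (by linear_combination y1 + hg + s1)
      have b := MLaa.main s0 s1 y0 (by linear_combination y1 + s1) p0 p1
      rw [← hs.pq] at b
      rcases b with b | b | b | b
      · linear_combination -2 * e1 - 2 * e2 + z + b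
      all_goals linarith
    · have z := zlab P hs (u := u) (y := y) (by linear_combination y0) y1 hE
      have b := MLab.main s0 s1 y0 (by linear_combination y1 + s1) p0 p1
      rw [← hs.pq] at b
      rcases b with b | b | b | b | b
      · linear_combination -(19 / 5) * e1 - (19 / 5) * e2 + z + b
      all_goals linarith
  · rcases le_total (y + q) (h0 + s) with hE | hE
    · have z := zlba P hs (u := u) (y := y) (by linear_combination y0) (by linear_combination y1 + hg + s1) hM
      have b := MLba.main s0 s1 y0 (by linear_combination y1 + s1) p0 p1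
      rw [← hs.pq] at b
      rcases b with b | b | b | b | b
      · linear_combination -(19 / 5) * e1 - (19 / 5) * e2 + z + b
      all_goals linarith
    · have z := zlbb P hs (u := u) (y := y) (by linear_combination y0) y1 hE
      have b := MLbb.main s0 s1 y0 (by linear_combination y1 + s1) p0 p1
      rw [← hs.pq] at b
      rcases b with b | b | b | b | b | b
      · linear_combination -(19 / 5) * e1 - (19 / 5) * e2 + z + b
      all_goals linarith

/-- Below `s`, the corner. -/
theorem mid2 (y0 : 1 / 2 ≤ y) (y1 : y ≤ s) (p2 : 17 / 20 ≤ p) :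
    0 ≤ 8 * g y - 4 - 4 * g s + mg s (gam r u) y := by
  have hh := h0_lt
  have hg := h0_gt
  have s0 := P.s0
  have s1 := P.s1
  have p1 := hs.p1
  have q0 := hs.q0
  have q1 := hs.q1
  have e1 := hs.sum
  have e2 := hs.gq
  have hm := min_le_right (g (y + p - (h0 + 17 / 50 * s))) (g (y + p - h0) + 1 - g (17 / 50 * s))
  obtain ⟨w, hw⟩ : ∃ w, w = h0 - p := ⟨_, rfl⟩
  have ep : h0 - w = p := by rw [hw]; ring
  rcases le_total (y + q) (h0 + s) with hE | hE
  · obtain ⟨x, hx⟩ : ∃ x, x = h0 + s - q - y := ⟨_, rfl⟩
    have z := zlba P hs (u := u) (y := y) (by linear_combination y0) (by linear_combination y1 + hg + s1) (by linear_combination y0 + p2 + hh + (33 / 50) * s1)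
    have b := TLba.main (s := s) (u := x) (w := w) s0 s1 (by linear_combination hE - hx) (by linear_combination y0 + s1 + q0 + hx) (by linear_combination p1 - hw)
      (by linear_combination p2 + hh + hw) (by linear_combination hE - hx) (by linear_combination p1 - hw)
    rw [ep, ← hs.pq, show h0 + s - q - x = y by rw [hx]; ring] at b
    linear_combination -(19 / 5) * e1 - (19 / 5) * e2 + (9 / 5) * hm + z + b
  · obtain ⟨x, hx0, hx1, hx⟩ : ∃ x, 0 ≤ x ∧ x ≤ 1 ∧ s - x * (q - h0) = y := by
      rcases q0.eq_or_lt with h | h
      · exact ⟨0, le_rfl, zero_le_one, by rw [zero_mul, sub_zero]; exact le_antisymm (by linear_combination hE - h) (by linear_combination y1)⟩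
      · have h2 : 0 < q - h0 := by linear_combination h
        refine ⟨(s - y) / (q - h0), div_nonneg (by linear_combination y1) h2.le, ?_, ?_⟩
        · rw [div_le_one h2]
          linear_combination hE
        · rw [div_mul_cancel₀ _ h2.ne']
          ring
    have z := zlbb P hs (u := u) (y := y) (by linear_combination y0) y1 hE
    have b := TLbb.main (s := s) (x := x) (w := w) s0 s1 hx0 hx1 (by linear_combination p1 - hw)
      (by linear_combination p2 + hh + hw) (by linear_combination p1 - hw)
    rw [ep, ← hs.pq, hx] at b
    linear_combination -(19 / 5) * e1 - (19 / 5) * e2 + (9 / 5) * hm + z + b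

/-- Above `s`, the lower height not above `17 / 20`. -/
theorem mid3 (y0 : s ≤ y) (y1 : y ≤ 107 / 125) (p1 : p ≤ 17 / 20) :
    0 ≤ 8 * g y - 4 - 4 * g s + mg s (gam r u) y := by
  have hh := h0_lt
  have hg := h0_gt
  have s0 := P.s0
  have s1 := P.s1
  have p0 := hs.p0
  have q0 := hs.q0
  have q1 := hs.q1
  have e1 := hs.sum
  have e2 := hs.gq
  rcases le_total (y + q) (2 * h0) with hE | hE
  · rcases le_total (y + p) (h0 + 33 / 50 * s) with hM | hM
    · have z := zuab P hs (u := u) (y := y) y0 (by linear_combination y1 + hg)
      have b := MUab.main s0 s1 (by linear_combination y0 + s0) y1 p0 p1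
      rw [← hs.pq] at b
      rcases b with b | b | b | b | b
      · linear_combination -2 * e1 - 2 * e2 + z + b
      all_goals linarith
    · rcases le_total (y + p) (h0 + s) with hM2 | hM2
      · have z := zubb P hs (u := u) (y := y) y0 (by linear_combination y1 + hg)
        have b := MUbb.main s0 s1 (by linear_combination y0 + s0) y1 p0 p1
        rw [← hs.pq] at b
        rcases b with b | b | b | b | b | b
        · linear_combination -2 * e1 - 2 * e2 + z + b
        all_goals linarith
      · have z := zucb P hs (u := u) (y := y) y0 (by linear_combination y1 + hg)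
        have b := MUcb.main s0 s1 (by linear_combination y0 + s0) y1 p0 p1
        rw [← hs.pq] at b
        rcases b with b | b | b | b | b
        · linear_combination -2 * e1 - 2 * e2 + z + b
        all_goals linarith
  · rcases le_total (y + p) (h0 + 33 / 50 * s) with hM | hM
    · have z := zuac P hs (u := u) (y := y) y0 (by linear_combination y1 + hg) hE
      have b := MUac.main s0 s1 (by linear_combination 2 * hg + q1 + hE) y1 p0 p1
      rw [← hs.pq] at b
      rcases b with b | b | b | b
      · linear_combination -(1 / 5) * e1 - (1 / 5) * e2 + z + b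
      all_goals linarith
    · rcases le_total (y + p) (h0 + s) with hM2 | hM2
      · have z := zubc P hs (u := u) (y := y) y0 (by linear_combination y1 + hg) hE
        have b := MUbc.main s0 s1 (by linear_combination 2 * hg + q1 + hE) y1 p0 p1
        rw [← hs.pq] at b
        rcases b with b | b | b | b | b
        · linear_combination -(1 / 5) * e1 - (1 / 5) * e2 + z + b
        all_goals linarith
      · have z := zucc P hs (u := u) (y := y) y0 (by linear_combination y1 + hg) hE
        have b := MUcc.main s0 s1 (by linear_combination 2 * hg + q1 + hE) y1 p0 p1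
        rw [← hs.pq] at b
        rcases b with b | b | b | b
        · linear_combination -(1 / 5) * e1 - (1 / 5) * e2 + z + b
        all_goals linarith

/-- Above `s`, the corner. -/
theorem mid4 (y0 : s ≤ y) (y1 : y ≤ 107 / 125) (p2 : 17 / 20 ≤ p) :
    0 ≤ 8 * g y - 4 - 4 * g s + mg s (gam r u) y := by
  have hh := h0_lt
  have hg := h0_gt
  have s0 := P.s0
  have s1 := P.s1
  have p0 := hs.p0
  have p1 := hs.p1
  have q0 := hs.q0
  have q1 := hs.q1
  have e1 := hs.sum
  have e2 := hs.gq
  have hm := min_le_right (g (y + p - (h0 + 17 / 50 * s))) (g (y + p - h0) + 1 - g (17 / 50 * s))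
  obtain ⟨w, hw⟩ : ∃ w, w = h0 - p := ⟨_, rfl⟩
  have ep : h0 - w = p := by rw [hw]; ring
  rcases le_total (y + p) (h0 + s) with hM | hM
  · obtain ⟨x, hx0, hx1, hx⟩ : ∃ x, 0 ≤ x ∧ x ≤ 1 ∧ s + x * w = y := by
      rcases p1.eq_or_lt with h | h
      · exact ⟨0, le_rfl, zero_le_one, by rw [zero_mul, add_zero]; exact le_antisymm (by linear_combination y0) (by linear_combination hM - h)⟩
      · have h2 : 0 < w := by linear_combination -hw + h
        refine ⟨(y - s) / w, div_nonneg (by linear_combination y0) h2.le, ?_, ?_⟩
        · rw [div_le_one h2]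
          linear_combination -hw + hM
        · rw [div_mul_cancel₀ _ h2.ne']
          ring
    have z := zubb P hs (u := u) (y := y) y0 (by linear_combination y1 + hg)
    have b := TUbb.main (s := s) (x := x) (w := w) s0 s1 hx0 hx1 (by linear_combination p1 - hw)
      (by linear_combination p2 + hh + hw) (by linear_combination p1 - hw)
    rw [ep, ← hs.pq, hx] at b
    linear_combination -2 * e1 - 2 * e2 + (9 / 5) * hm + z + b
  · rcases le_total (y + q) (2 * h0) with hE | hE
    · have z := zucb P hs (u := u) (y := y) y0 (by linear_combination y1 + hg)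
      rcases le_total y (s + 1 / 20) with h | h
      · obtain ⟨x, hx⟩ : ∃ x, x = y - s - w := ⟨_, rfl⟩
        have b := TUcb.main (s := s) (x := x) (w := w) s0 s1 (by linear_combination hw + hM - hx) (by linear_combination p1 - hw + h + hx)
          (by linear_combination p1 - hw) (by linear_combination p2 + hh + hw) (by linear_combination hw + hM - hx) (by linear_combination p1 - hw)
        rw [ep, ← hs.pq, show s + w + x = y by rw [hx]; ring] at b
        linear_combination -2 * e1 - 2 * e2 + z + b
      · have b := MUcb.mainB s0 s1 (by linear_combination s0 + h) y1 p2 (by linear_combination hh + p1)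
        rw [← hs.pq] at b
        rcases b with b | b | b | b | b | b
        · linear_combination -2 * e1 - 2 * e2 + z + b
        all_goals linarith
    · have z := zucc P hs (u := u) (y := y) y0 (by linear_combination y1 + hg) hE
      have b := MUcc.mainB s0 s1 (by linear_combination 2 * hg + q1 + hE) y1 p2 (by linear_combination hh + p1)
      rw [← hs.pq] at b
      rcases b with b | b | b | b
      · linear_combination -(1 / 5) * e1 - (1 / 5) * e2 + z + b
      all_goals linarith

/-- Near `h0`. -/
theorem mid5 (y0 : 107 / 125 ≤ y) (y1 : y ≤ h0) :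
    0 ≤ 8 * g y - 4 - 4 * g s + mg s (gam r u) y := by
  have hh := h0_lt
  have hg := h0_gt
  have s0 := P.s0
  have s1 := P.s1
  have p0 := hs.p0
  have p1 := hs.p1
  have q0 := hs.q0
  have q1 := hs.q1
  have e1 := hs.sum
  have e2 := hs.gq
  have hm := min_le_right (g (y + p - (h0 + 17 / 50 * s))) (g (y + p - h0) + 1 - g (17 / 50 * s))
  obtain ⟨a, ha⟩ : ∃ a, a = h0 - y := ⟨_, rfl⟩
  have ey : h0 - a = y := by rw [ha]; ring
  rcases le_total (h0 + s) (y + p) with hM | hM
  · rcases le_total (y + q) (2 * h0) with hE | hE
    · have z := zucb P hs (u := u) (y := y) (by linear_combination y0 + s1) y1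
      have b := NUcb.main (s := s) (a := a) (p := p) s0 s1 (by linear_combination y1 - ha) (by linear_combination y0 + hh + ha) p0
        (by linear_combination hh + p1) (by linear_combination y1 - ha) p0 (by linear_combination hh + p1)
      rw [ey, ← hs.pq] at b
      rcases b with b | b | b | b | b
      · linear_combination -2 * e1 - 2 * e2 + z + b
      all_goals linarith
    · have z := zucc P hs (u := u) (y := y) (by linear_combination y0 + s1) y1 hE
      have b := NUcc.main (s := s) (a := a) (p := p) s0 s1 (by linear_combination y1 - ha) (by linear_combination y0 + hh + ha) p0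
        (by linear_combination hh + p1) (by linear_combination y1 - ha) p0 (by linear_combination hh + p1)
      rw [ey, ← hs.pq] at b
      rcases b with b | b | b | b
      · linear_combination -(1 / 5) * e1 - (1 / 5) * e2 + z + b
      all_goals linarith
  · have hq : 94 / 100 ≤ q := by
      have h5 : g (3 / 5) = 4 / 5 := by
        unfold g
        rw [show (1 : ℝ) - (3 / 5) ^ 2 = (4 / 5) ^ 2 by norm_num]
        exact Real.sqrt_sq (by norm_num)
      have h6 : 4 / 5 ≤ g p := by
        rw [← h5]
        exact g_anti (by linear_combination p0) (by linear_combination y0 + hh + s1 + hM)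
      have h7 : q = p / 2 + h0 * g p := hs.pq
      linear_combination (4 / 5) * hg + (1 / 2) * p0 + (107 / 125) * h6 - h7 + (mul_nonneg (sub_nonneg.mpr y0) (sub_nonneg.mpr h6)) +
        (mul_nonneg (sub_nonneg.mpr y1) (sub_nonneg.mpr h6))
    obtain ⟨w, hw⟩ : ∃ w, w = s + a - p := ⟨_, rfl⟩
    have ep : s + a - w = p := by rw [hw]; ring
    have z := zubc P hs (u := u) (y := y) (by linear_combination y0 + s1) y1 (by linear_combination y0 + 2 * hh + hq)
    rcases le_total w (1 / 500) with h | h
    · have b := NUbc.main (s := s) (a := a) (w := w) s0 s1 (by linear_combination y1 - ha) (by linear_combination y0 + hh + ha)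
        (by linear_combination -ha + hM - hw) (by linear_combination h) (by linear_combination y1 - ha) (by linear_combination -ha + hM - hw)
      rw [ey, ep, ← hs.pq] at b
      linear_combination -(1 / 5) * e1 - (1 / 5) * e2 + (9 / 5) * hm + z + b
    · have b := NUbcD.main (s := s) (a := a) (w := w) s0 s1 (by linear_combination y1 - ha) (by linear_combination y0 + hh + ha)
        (by linear_combination h) (by linear_combination y0 + hh + s1 + p0 + ha + hw)
      rw [ey, ep, ← hs.pq] at b
      rcases b with b | b
      · linear_combination -(1 / 5) * e1 - (1 / 5) * e2 + (9 / 5) * hm + z + b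
      · exact absurd b (not_lt.mpr (by linear_combination p0))

/-- The row of a real side, the new point between `1 / 2` and `h0`. -/
theorem mid (y0 : 1 / 2 ≤ y) (y1 : y ≤ h0) :
    0 ≤ 8 * g y - 4 - 4 * g s + mg s (gam r u) y := by
  rcases le_total y s with h1 | h1
  · rcases le_total p (17 / 20) with h2 | h2
    · exact mid1 P hs y0 h1 h2
    · exact mid2 P hs y0 h1 h2
  · rcases le_total y (107 / 125) with h3 | h3
    · rcases le_total p (17 / 20) with h2 | h2
      · exact mid3 P hs h1 h3 h2
      · exact mid4 P hs h1 h3 h2
    · exact mid5 P hs h3 y1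

end Pool.Agent.Strip051.FourE
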