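import Pool.Agent.Strip051.FourE.Gain

/-! # The gains of the four middle probes together, zone by zone -/

namespace Pool.Agent.Strip051.FourE

open Pool.Agent.StripNear Pool.Agent.StripSquare Pool.Agent.Strip051
open Pool.Agent.Strip051.Four (gn gn_nonneg)

variable {s t r q p u y : ℝ} (P : Par s t) (hs : Side p q r)

include P hs

theorem zlaa (y0 : 19 / 50 ≤ y) (y1 : y ≤ h0) :
    9 / 5 * (g (q - p) + 1 - (g (y + q - h0) + (1 - g (17 / 50 * s))) -
      min (g (y + p - (h0 + 17 / 50 * s))) (g (y + p - h0) + 1 - g (17 / 50 * s))) +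
    1 / 5 * (g (q - p) + 1 - g (y + q - h0) - g (y + p - h0)) ≤ mg s (gam r u) y := by
  have k1 := g2a P hs (u := u) y0 y1
  have k2 := gn_nonneg (r := r) (q := u) (y := y) (j3_ok P)
  have k3 := g6a P hs (u := u) y0 y1
  have k4 := gn_nonneg (r := r) (q := u) (y := y) (j7_ok P)
  rw [mg_eq]
  linear_combination (9 / 5) * k1 + (9 / 5) * k2 + (1 / 5) * k3 + (1 / 5) * k4

theorem zlab (y0 : 19 / 50 ≤ y) (y1 : y ≤ s) (hE : h0 + s ≤ y + q) :
    9 / 5 * (g (q - p) + 1 - (g (y + q - s) + (g s + 1 / 2 - g (17 / 50 * s))) -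
      min (g (y + p - (h0 + 17 / 50 * s))) (g (y + p - h0) + 1 - g (17 / 50 * s)) +
      (g (q - p) + 1 - (g (y + q - h0) + (g (17 / 50 * s) - g s)) -
      (g (h0 + s - (y + p)) + (1 - g (17 / 50 * s))))) +
    1 / 5 * (g (h0 + s - y) - g s + 1 + g p - g (y + p - h0) +
      (g (q - p) + g s - g (y + q - h0) - g (h0 + s - (y + p)))) ≤ mg s (gam r u) y := by
  have hg := h0_gt
  have hsl := P.s1
  have k1 := g2b P hs (u := u) y0 y1
  have k2 := g3ba P hs (u := u) y0 (by linear_combination y1 + hg + hsl) hE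
  have k3 := g6b P hs (u := u) (by linear_combination y1 + hg + hsl) hE
  have k4 := g7b P hs (u := u) y0 (by linear_combination y1 + hg + hsl) hE
  rw [mg_eq]
  linear_combination (9 / 5) * k1 + (9 / 5) * k2 + (1 / 5) * k3 + (1 / 5) * k4

theorem zlba (y0 : 19 / 50 ≤ y) (y1 : y ≤ h0) (hM : h0 + 33 / 50 * s ≤ y + p) :
    9 / 5 * (g (q - p) + 1 - (g (y + q - h0) + (1 - g (17 / 50 * s))) -
      min (g (y + p - (h0 + 17 / 50 * s))) (g (y + p - h0) + 1 - g (17 / 50 * s)) +
      (g (q - p) + 1 - g (y + q - (h0 + 33 / 50 * s)) - g (y + p - (h0 + 33 / 50 * s)))) +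
    1 / 5 * (g (q - p) + 1 - g (y + q - h0) - g (y + p - h0)) ≤ mg s (gam r u) y := by
  have k1 := g2a P hs (u := u) y0 y1
  have k2 := g3l P hs (u := u) y1 hM
  have k3 := g6a P hs (u := u) y0 y1
  have k4 := gn_nonneg (r := r) (q := u) (y := y) (j7_ok P)
  rw [mg_eq]
  linear_combination (9 / 5) * k1 + (9 / 5) * k2 + (1 / 5) * k3 + (1 / 5) * k4

theorem zlbb (y0 : 19 / 50 ≤ y) (y1 : y ≤ s) (hE : h0 + s ≤ y + q) :
    9 / 5 * (g (q - p) + 1 - (g (y + q - s) + (g s + 1 / 2 - g (17 / 50 * s))) -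
      min (g (y + p - (h0 + 17 / 50 * s))) (g (y + p - h0) + 1 - g (17 / 50 * s)) +
      (g (q - p) + 1 - (g (y + q - h0) + (g (17 / 50 * s) - g s)) -
      g (y + p - (h0 + 33 / 50 * s)))) +
    1 / 5 * (g (h0 + s - y) - g s + 1 + g p - g (y + p - h0) +
      (g (q - p) + g s - g (y + q - h0) - g (h0 + s - (y + p)))) ≤ mg s (gam r u) y := by
  have hg := h0_gt
  have hsl := P.s1
  have k1 := g2b P hs (u := u) y0 y1
  have k2 := g3bb P hs (u := u) (y := y) (by linear_combination y1 + hg + hsl) y0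
  have k3 := g6b P hs (u := u) (by linear_combination y1 + hg + hsl) hE
  have k4 := g7b P hs (u := u) y0 (by linear_combination y1 + hg + hsl) hE
  rw [mg_eq]
  linear_combination (9 / 5) * k1 + (9 / 5) * k2 + (1 / 5) * k3 + (1 / 5) * k4

theorem zuab (y0 : s ≤ y) (y1 : y ≤ h0) :
    9 / 5 * (g (h0 + s - y) - g s - 1 + g (17 / 50 * s) + g p + 1 -
      min (g (y + p - (h0 + 17 / 50 * s))) (g (y + p - h0) + 1 - g (17 / 50 * s)) +
      (g (q - p) + 1 - (g (y + q - h0) + (g (17 / 50 * s) - g s)) -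
      (g (h0 + s - (y + p)) + (1 - g (17 / 50 * s))))) +
    1 / 5 * (g (h0 + s - y) - g s + 1 + g p - g (y + p - h0) +
      (g (q - p) + g s - g (y + q - h0) - g (h0 + s - (y + p)))) ≤ mg s (gam r u) y := by
  have hsl := P.s0
  have q0 := hs.q0
  have k1 := g2u P hs (u := u) y0 y1
  have k2 := g3ba P hs (u := u) (y := y) (by linear_combination y0 + hsl) y1 (by linear_combination y0 + q0)
  have k3 := g6b P hs (u := u) (y := y) (by linear_combination y1) (by linear_combination y0 + q0)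
  have k4 := g7b P hs (u := u) (y := y) (by linear_combination y0 + hsl) (by linear_combination y1) (by linear_combination y0 + q0)
  rw [mg_eq]
  linear_combination (9 / 5) * k1 + (9 / 5) * k2 + (1 / 5) * k3 + (1 / 5) * k4

theorem zubb (y0 : s ≤ y) (y1 : y ≤ h0) :
    9 / 5 * (g (h0 + s - y) - g s - 1 + g (17 / 50 * s) + g p + 1 -
      min (g (y + p - (h0 + 17 / 50 * s))) (g (y + p - h0) + 1 - g (17 / 50 * s)) +
      (g (q - p) + 1 - (g (y + q - h0) + (g (17 / 50 * s) - g s)) -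
      g (y + p - (h0 + 33 / 50 * s)))) +
    1 / 5 * (g (h0 + s - y) - g s + 1 + g p - g (y + p - h0) +
      (g (q - p) + g s - g (y + q - h0) - g (h0 + s - (y + p)))) ≤ mg s (gam r u) y := by
  have hsl := P.s0
  have q0 := hs.q0
  have k1 := g2u P hs (u := u) y0 y1
  have k2 := g3bb P hs (u := u) (y := y) y1 (by linear_combination y0 + hsl)
  have k3 := g6b P hs (u := u) (y := y) (by linear_combination y1) (by linear_combination y0 + q0)
  have k4 := g7b P hs (u := u) (y := y) (by linear_combination y0 + hsl) (by linear_combination y1) (by linear_combination y0 + q0)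
  rw [mg_eq]
  linear_combination (9 / 5) * k1 + (9 / 5) * k2 + (1 / 5) * k3 + (1 / 5) * k4

theorem zucb (y0 : s ≤ y) (y1 : y ≤ h0) :
    9 / 5 * (2 * g (h0 + s - y) - 2 * g s - 1 + 2 * g (17 / 50 * s) +
      (g (q - p) + 1 - (g (y + q - h0) + (g (17 / 50 * s) - g s)) -
      (g (y + p - h0) + (g (17 / 50 * s) - g s)))) +
    1 / 5 * (2 * g (h0 + s - y) - 2 * g s + 1 +
      (g (q - p) - 1 + 2 * g s - g (y + q - h0) - g (y + p - h0))) ≤ mg s (gam r u) y := by
  have hsl := P.s0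
  have k1 := g2c P (u := u) (r := r) y0 y1
  have k2 := g3cc P hs (u := u) (y := y) y1 (by linear_combination y0 + hsl)
  have k3 := g6c P (u := u) (r := r) y0 y1
  have k4 := g7c P hs (u := u) (y := y) (by linear_combination y0 + hsl) y1
  rw [mg_eq]
  linear_combination (9 / 5) * k1 + (9 / 5) * k2 + (1 / 5) * k3 + (1 / 5) * k4

theorem zuac (y0 : s ≤ y) (y1 : y ≤ h0) (hE : 2 * h0 ≤ y + q) :
    9 / 5 * (g (h0 + s - y) - g s - 1 + g (17 / 50 * s) + g p + 1 -
      min (g (y + p - (h0 + 17 / 50 * s))) (g (y + p - h0) + 1 - g (17 / 50 * s)) +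
      (g (2 * h0 - y) - 1 / 2 - g (17 / 50 * s) + g s + g p + 1 -
      (g (h0 + s - (y + p)) + (1 - g (17 / 50 * s))))) +
    1 / 5 * (g (h0 + s - y) - g s + 1 + g p - g (y + p - h0) +
      (g (q - p) + g s - g (y + q - h0) - g (h0 + s - (y + p)))) ≤ mg s (gam r u) y := by
  have hsl := P.s0
  have q0 := hs.q0
  have k1 := g2u P hs (u := u) y0 y1
  have k2 := g3ua P hs (u := u) y1 hE
  have k3 := g6b P hs (u := u) (y := y) (by linear_combination y1) (by linear_combination y0 + y1 + hE)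
  have k4 := g7b P hs (u := u) (y := y) (by linear_combination y0 + hsl) (by linear_combination y1) (by linear_combination y0 + y1 + hE)
  rw [mg_eq]
  linear_combination (9 / 5) * k1 + (9 / 5) * k2 + (1 / 5) * k3 + (1 / 5) * k4

theorem zubc (y0 : s ≤ y) (y1 : y ≤ h0) (hE : 2 * h0 ≤ y + q) :
    9 / 5 * (g (h0 + s - y) - g s - 1 + g (17 / 50 * s) + g p + 1 -
      min (g (y + p - (h0 + 17 / 50 * s))) (g (y + p - h0) + 1 - g (17 / 50 * s)) +
      (g (2 * h0 - y) - 1 / 2 - g (17 / 50 * s) + g s + g p + 1 -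
      g (y + p - (h0 + 33 / 50 * s)))) +
    1 / 5 * (g (h0 + s - y) - g s + 1 + g p - g (y + p - h0) +
      (g (q - p) + g s - g (y + q - h0) - g (h0 + s - (y + p)))) ≤ mg s (gam r u) y := by
  have hsl := P.s0
  have q0 := hs.q0
  have k1 := g2u P hs (u := u) y0 y1
  have k2 := g3ub P hs (u := u) y1 hE
  have k3 := g6b P hs (u := u) (y := y) (by linear_combination y1) (by linear_combination y0 + y1 + hE)
  have k4 := g7b P hs (u := u) (y := y) (by linear_combination y0 + hsl) (by linear_combination y1) (by linear_combination y0 + y1 + hE)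
  rw [mg_eq]
  linear_combination (9 / 5) * k1 + (9 / 5) * k2 + (1 / 5) * k3 + (1 / 5) * k4

theorem zucc (y0 : s ≤ y) (y1 : y ≤ h0) (hE : 2 * h0 ≤ y + q) :
    9 / 5 * (2 * g (h0 + s - y) - 2 * g s - 1 + 2 * g (17 / 50 * s) +
      (g (2 * h0 - y) - 1 / 2 - g (17 / 50 * s) + g s + g p + 1 -
      (g (y + p - h0) + (g (17 / 50 * s) - g s)))) +
    1 / 5 * (2 * g (h0 + s - y) - 2 * g s + 1 +
      (g (q - p) - 1 + 2 * g s - g (y + q - h0) - g (y + p - h0))) ≤ mg s (gam r u) y := by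
  have hsl := P.s0
  have k1 := g2c P (u := u) (r := r) y0 y1
  have k2 := g3uc P hs (u := u) y1 hE
  have k3 := g6c P (u := u) (r := r) y0 y1
  have k4 := g7c P hs (u := u) (y := y) (by linear_combination y0 + hsl) y1
  rw [mg_eq]
  linear_combination (9 / 5) * k1 + (9 / 5) * k2 + (1 / 5) * k3 + (1 / 5) * k4

end Pool.Agent.Strip051.FourE
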